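import Pool.Agent.Helper29.AM.Defs

/-!
# Block AM-LA1: the Gaveau property and the determinant (1.1), (1.2)

`lf H v = re ∑ H_{jk} v_j conj(v_k)`; for a hermitian matrix this is the quadratic form of `H`
(at the conjugate vector), `∑_l lf H (A e_l) = re tr(H (A A*)ᵀ)`-type. `GP_of_det`: with
`B = Aᵀ H Ā` (positive semidefinite, `det B = |det A|² det H`), AM-GM for the eigenvalues:
`tr B ≥ n (det B)^{1/n}`. `psd_of_GP`: rank one `A` give `lf H v ≥ 0`; if `H` is positive definite take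
`A` with `Aᵀ H Ā = 1`, then `∑ lf H (A e_l) = n` and `|det A|² = 1/det H`; if `det H = 0` use
`H + ε` (GP is stable under adding `ε |v|²`) and `ε → 0`, or take a frame `A` which is large in the
kernel direction of `H`.
-/

set_option autoImplicit false

namespace Pool.Agent.Helper29.AM

open MeasureTheory Set Filter Topology
open scoped ComplexOrder

variable {n : ℕ}

open scoped Matrix

theorem lf_add (H K : Mat n) (v : V n) : lf (H + K) v = lf H v + lf K v := by
  unfold lf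
  rw [← Complex.add_re, ← Finset.sum_add_distrib]
  congr 1
  refine Finset.sum_congr rfl fun j _ => ?_
  rw [← Finset.sum_add_distrib]
  refine Finset.sum_congr rfl fun k _ => ?_
  rw [Matrix.add_apply]
  ring

theorem lf_smul (c : ℝ) (H : Mat n) (v : V n) : lf ((c : ℂ) • H) v = c * lf H v := by
  unfold lf
  rw [← Complex.re_ofReal_mul, Finset.mul_sum]
  congr 1
  refine Finset.sum_congr rfl fun j _ => ?_
  rw [Finset.mul_sum]
  refine Finset.sum_congr rfl fun k _ => ?_
  rw [Matrix.smul_apply, smul_eq_mul]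
  ring

theorem lf_one (v : V n) : lf (1 : Mat n) v = ‖v‖ ^ 2 := by
  unfold lf
  rw [EuclideanSpace.norm_sq_eq, Complex.re_sum]
  refine Finset.sum_congr rfl fun j _ => ?_
  rw [Finset.sum_eq_single j]
  · rw [Matrix.one_apply_eq, one_mul, Complex.mul_conj, Complex.ofReal_re, Complex.normSq_eq_norm_sq]
  · intro k _ hk
    rw [Matrix.one_apply_ne (Ne.symm hk), zero_mul, zero_mul]
  · intro h
    exact absurd (Finset.mem_univ j) h

private theorem lf_dot_h12 (H : Mat n) (v : V n) :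
    lf H v = (star (fun i => star (v i)) ⬝ᵥ H.mulVec (fun i => star (v i))).re := by
  unfold lf
  congr 1
  simp only [dotProduct, Matrix.mulVec, Pi.star_apply, star_star]
  refine Finset.sum_congr rfl fun j _ => ?_
  rw [Finset.mul_sum]
  refine Finset.sum_congr rfl fun k _ => ?_
  rw [starRingEnd_apply]
  ring

theorem posSemidef_iff_lf {H : Mat n} (hH : H.IsHermitian) :
    H.PosSemidef ↔ ∀ v : V n, 0 ≤ lf H v := by
  constructor
  · intro h v
    rw [lf_dot_h12]
    exact h.re_dotProduct_nonneg _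
  · intro h
    refine Matrix.PosSemidef.of_dotProduct_mulVec_nonneg hH fun x => ?_
    have h1 := h (WithLp.toLp 2 fun i => star (x i))
    rw [lf_dot_h12] at h1
    have h2 : (fun i => star ((WithLp.toLp 2 fun i => star (x i) : V n) i)) = x := by
      funext i
      exact star_star _
    rw [h2] at h1
    have h3 : (star x ⬝ᵥ H.mulVec x).im = 0 := by
      exact hH.im_star_dotProduct_mulVec_self x
    rw [Complex.le_def]
    exact ⟨h1, h3.symm⟩

private theorem lf_e_h12 (H : Mat n) (l : Fin n) : lf H (e l) = (H l l).re := by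
  unfold lf e
  congr 1
  rw [Finset.sum_eq_single l]
  · rw [Finset.sum_eq_single l]
    · simp
    · intro k _ hk
      simp [hk]
    · intro h
      exact absurd (Finset.mem_univ l) h
  · intro j _ hj
    refine Finset.sum_eq_zero fun k _ => ?_
    simp [hj]
  · intro h
    exact absurd (Finset.mem_univ l) h

/-- a hermitian matrix is determined by its form -/
theorem eq_of_lf {H K : Mat n} (hH : H.IsHermitian) (hK : K.IsHermitian)
    (h : ∀ v : V n, lf H v = lf K v) : H = K := by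
  have h1 : ∀ v : V n, lf (H - K) v = 0 := by
    intro v
    have h2 := lf_add (H - K) K v
    rw [sub_add_cancel, h v] at h2
    linarith
  have h2 : (H - K).IsHermitian := hH.sub hK
  have h3 : (H - K).PosSemidef := (posSemidef_iff_lf h2).2 fun v => (h1 v).ge
  have h4 : (H - K).trace = 0 := by
    have h5 : (H - K).trace.re = 0 := by
      rw [Matrix.trace, Complex.re_sum]
      refine Finset.sum_eq_zero fun l _ => ?_
      rw [Matrix.diag_apply, ← lf_e_h12, h1]
    have h6 : 0 ≤ (H - K).trace := h3.trace_nonneg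
    rw [Complex.le_def] at h6
    exact Complex.ext h5 h6.2.symm
  exact sub_eq_zero.1 ((Matrix.PosSemidef.trace_eq_zero_iff h3).1 h4)

theorem sA_one (H : Mat n) : sA (1 : Lin n) H = (Matrix.trace H).re := by
  unfold sA
  rw [Matrix.trace, Complex.re_sum]
  refine Finset.sum_congr rfl fun l _ => ?_
  rw [Matrix.diag_apply, ← lf_e_h12]
  rfl

/-- the matrix of a linear map -/
private noncomputable def mt_h12 (A : Lin n) : Mat n := fun j l => A (e l) j

private theorem det_mt_h12 (A : Lin n) : A.det = (mt_h12 A).det := by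
  have h1 := LinearMap.det_toMatrix (EuclideanSpace.basisFun (Fin n) ℂ).toBasis (A : V n →ₗ[ℂ] V n)
  have h2 : LinearMap.toMatrix (EuclideanSpace.basisFun (Fin n) ℂ).toBasis
      (EuclideanSpace.basisFun (Fin n) ℂ).toBasis (A : V n →ₗ[ℂ] V n) = mt_h12 A := by
    ext j l
    rw [LinearMap.toMatrix_apply]
    simp [mt_h12, e]
  rw [h2] at h1
  exact h1.symm

private theorem sA_eq_h12 (A : Lin n) (K : Mat n) :
    sA A K = (Matrix.trace ((mt_h12 A * (mt_h12 A)ᴴ)ᵀ * K)).re := by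
  unfold sA lf
  rw [← Complex.re_sum]
  congr 1
  have h1 : Matrix.trace ((mt_h12 A * (mt_h12 A)ᴴ)ᵀ * K) =
      ∑ k, ∑ j, ∑ l, mt_h12 A j l * star (mt_h12 A k l) * K j k := by
    simp only [Matrix.trace, Matrix.diag, Matrix.mul_apply, Matrix.transpose_apply,
      Matrix.conjTranspose_apply, Finset.sum_mul]
  rw [h1]
  refine Finset.sum_comm.trans ?_
  have h2 : ∀ j, ∑ l, ∑ k, K j k * A (e l) j * (starRingEnd ℂ) (A (e l) k) =
      ∑ k, ∑ l, mt_h12 A j l * star (mt_h12 A k l) * K j k := by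
    intro j
    rw [Finset.sum_comm]
    refine Finset.sum_congr rfl fun k _ => Finset.sum_congr rfl fun l _ => ?_
    rw [starRingEnd_apply]
    show K j k * mt_h12 A j l * star (mt_h12 A k l) = _
    ring
  rw [Finset.sum_congr rfl fun j _ => h2 j]
  exact Finset.sum_comm

private theorem det_sq_h12 (a : Mat n) : (a * aᴴ)ᵀ.det = ((‖a.det‖ ^ 2 : ℝ) : ℂ) := by
  rw [Matrix.det_transpose, Matrix.det_mul, Matrix.det_conjTranspose]
  have := Complex.mul_conj a.det
  rw [Complex.normSq_eq_norm_sq] at this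
  exact this

/-- for every positive semidefinite `P` there is a frame `A` with `s_A(K) = re tr (P K)` for all
matrices `K`, `‖A‖² ≤ tr P` and `|det A|² = det P`; `A` is invertible if `P` is positive definite. -/
theorem exists_frame {P : Mat n} (hP : P.PosSemidef) :
    ∃ A : Lin n, (∀ K : Mat n, sA A K = (Matrix.trace (P * K)).re) ∧
      ‖A‖ ^ 2 ≤ (Matrix.trace P).re ∧ ‖A.det‖ ^ 2 = P.det.re := by
  obtain ⟨B, hB⟩ : ∃ B : Mat n, Pᵀ = Bᴴ * B := by
    have h1 : Pᵀ.PosSemidef := hP.transpose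
    have h2 : 0 ≤ h1.1.eigenvalues := h1.eigenvalues_nonneg
    have hs := h1.1.spectral_theorem
    obtain ⟨C, hC⟩ : ∃ C : Mat n, Pᵀ = C * Cᴴ := by
      refine ⟨(h1.1.eigenvectorUnitary : Mat n) *
        Matrix.diagonal (fun i => ((Real.sqrt (h1.1.eigenvalues i) : ℝ) : ℂ)), ?_⟩
      conv_lhs => rw [hs]
      rw [Unitary.conjStarAlgAut_apply, Matrix.conjTranspose_mul, Matrix.diagonal_conjTranspose]
      rw [Matrix.mul_assoc, Matrix.mul_assoc, ← Matrix.mul_assoc (Matrix.diagonal _) (Matrix.diagonal _),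
        Matrix.diagonal_mul_diagonal]
      congr 2
      · congr 1
        funext i
        have h3 : star ((Real.sqrt (h1.1.eigenvalues i) : ℝ) : ℂ) =
            ((Real.sqrt (h1.1.eigenvalues i) : ℝ) : ℂ) := Complex.conj_ofReal _
        show ((h1.1.eigenvalues i : ℝ) : ℂ) = ((Real.sqrt (h1.1.eigenvalues i) : ℝ) : ℂ) *
          star ((Real.sqrt (h1.1.eigenvalues i) : ℝ) : ℂ)
        rw [h3, ← Complex.ofReal_mul, Real.mul_self_sqrt (h2 i)]
    exact ⟨Cᴴ, by rw [Matrix.conjTranspose_conjTranspose]; exact hC⟩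
  let A : Lin n := LinearMap.toContinuousLinearMap (Matrix.toEuclideanLin Bᴴ)
  have hA : mt_h12 A = Bᴴ := by
    ext j l
    show (Matrix.toEuclideanLin Bᴴ (e l)) j = _
    rw [e, Matrix.toEuclideanLin_apply]
    simp [Matrix.mulVec, dotProduct]
  have hP' : (mt_h12 A * (mt_h12 A)ᴴ)ᵀ = P := by
    rw [hA, Matrix.conjTranspose_conjTranspose, ← hB, Matrix.transpose_transpose]
  refine ⟨A, fun K => ?_, ?_, ?_⟩
  · rw [sA_eq_h12, hP']
  · have htr : (Matrix.trace P).re = ∑ j, ∑ l, ‖mt_h12 A j l‖ ^ 2 := by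
      rw [← hP', Matrix.trace_transpose, Matrix.trace, Complex.re_sum]
      refine Finset.sum_congr rfl fun j _ => ?_
      rw [Matrix.diag_apply, Matrix.mul_apply, Complex.re_sum]
      refine Finset.sum_congr rfl fun l _ => ?_
      rw [Matrix.conjTranspose_apply]
      have := Complex.mul_conj (mt_h12 A j l)
      rw [Complex.normSq_eq_norm_sq] at this
      rw [Complex.star_def, this, Complex.ofReal_re]
    have htr0 : 0 ≤ (Matrix.trace P).re := by
      rw [htr]
      positivity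
    have hle : ‖A‖ ≤ Real.sqrt (Matrix.trace P).re := by
      refine ContinuousLinearMap.opNorm_le_bound _ (Real.sqrt_nonneg _) fun v => ?_
      rw [← Real.sqrt_sq (norm_nonneg v), ← Real.sqrt_mul htr0]
      apply Real.le_sqrt_of_sq_le
      rw [EuclideanSpace.norm_sq_eq, EuclideanSpace.norm_sq_eq, htr, Finset.sum_mul]
      refine Finset.sum_le_sum fun j _ => ?_
      have h1 : A v j = ∑ l, mt_h12 A j l * v l := by
        rw [hA]
        show (Matrix.toEuclideanLin Bᴴ v) j = _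
        rw [Matrix.toEuclideanLin_apply]
        simp [Matrix.mulVec, dotProduct]
      have h2 : ‖A v j‖ ≤ ∑ l, ‖mt_h12 A j l‖ * ‖v l‖ := by
        rw [h1]
        refine (norm_sum_le _ _).trans (le_of_eq ?_)
        exact Finset.sum_congr rfl fun l _ => norm_mul _ _
      calc ‖A v j‖ ^ 2 ≤ (∑ l, ‖mt_h12 A j l‖ * ‖v l‖) ^ 2 := by gcongr
        _ ≤ (∑ l, ‖mt_h12 A j l‖ ^ 2) * ∑ l, ‖v l‖ ^ 2 := Finset.sum_mul_sq_le_sq_mul_sq _ _ _
    calc ‖A‖ ^ 2 ≤ (Real.sqrt (Matrix.trace P).re) ^ 2 := by gcongr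
      _ = (Matrix.trace P).re := Real.sq_sqrt htr0
  · rw [det_mt_h12, ← hP', det_sq_h12, Complex.ofReal_re]

private theorem amgm_h12 (hn : 0 < n) {M : Mat n} (hM : M.PosSemidef) :
    (n : ℝ) * M.det.re ^ ((n : ℝ)⁻¹) ≤ (Matrix.trace M).re := by
  have h1 : M.det.re = ∏ i, hM.1.eigenvalues i := by
    rw [hM.1.det_eq_prod_eigenvalues]
    rw [← RCLike.ofReal_prod]
    exact Complex.ofReal_re _
  have h2 : (Matrix.trace M).re = ∑ i, hM.1.eigenvalues i := by
    rw [hM.1.trace_eq_sum_eigenvalues]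
    rw [← RCLike.ofReal_sum]
    exact Complex.ofReal_re _
  have hn' : (0 : ℝ) < n := by exact_mod_cast hn
  have h3 := Real.geom_mean_le_arith_mean Finset.univ (fun _ : Fin n => (1 : ℝ)) hM.1.eigenvalues
    (fun _ _ => zero_le_one) (by simpa using hn) (fun i _ => hM.eigenvalues_nonneg i)
  simp only [Real.rpow_one, one_mul, Finset.sum_const, Finset.card_univ, Fintype.card_fin,
    nsmul_eq_mul, mul_one] at h3
  rw [h1, h2]
  rw [le_div_iff₀ hn'] at h3
  linarith

theorem GP_of_det (hn : 0 < n) {H : Mat n} (hH : H.PosSemidef) {F : ℝ} (hF : 0 ≤ F)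
    (h : F ^ n ≤ H.det.re) : GP (lf H) F := by
  intro A
  have h0 : ∑ l, lf H (A (e l)) = sA A H := rfl
  rw [h0, sA_eq_h12, Matrix.transpose_mul]
  set C : Mat n := (mt_h12 A)ᴴᵀ with hC
  have hC' : (mt_h12 A)ᵀ = Cᴴ := by
    rw [hC]
    ext i j
    simp [Matrix.transpose_apply, Matrix.conjTranspose_apply]
  rw [hC', Matrix.trace_mul_cycle, Matrix.trace_mul_cycle]
  have hM : (Cᴴ * H * C).PosSemidef := hH.conjTranspose_mul_mul_same C
  have hdet : (Cᴴ * H * C).det = ((‖A.det‖ ^ 2 : ℝ) : ℂ) * H.det := by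
    rw [Matrix.det_mul, Matrix.det_mul, det_mt_h12, ← det_sq_h12, Matrix.transpose_mul,
      Matrix.det_mul, ← hC, hC']
    ring
  have h1 := amgm_h12 hn hM
  rw [hdet, Complex.re_ofReal_mul] at h1
  refine le_trans ?_ h1
  have h2 : ‖A.det‖ ^ ((2 : ℝ) / n) * F ≤ (‖A.det‖ ^ 2 * H.det.re) ^ ((n : ℝ)⁻¹) := by
    have h3 : (‖A.det‖ ^ 2 * F ^ n) ^ ((n : ℝ)⁻¹) = ‖A.det‖ ^ ((2 : ℝ) / n) * F := by
      rw [Real.mul_rpow (by positivity) (by positivity), Real.pow_rpow_inv_natCast hF hn.ne',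
        ← Real.rpow_natCast ‖A.det‖ 2, ← Real.rpow_mul (norm_nonneg _)]
      congr 2
    rw [← h3]
    apply Real.rpow_le_rpow (by positivity) _ (by positivity)
    gcongr
  calc (n : ℝ) * ‖A.det‖ ^ ((2 : ℝ) / n) * F = n * (‖A.det‖ ^ ((2 : ℝ) / n) * F) := by ring
    _ ≤ n * (‖A.det‖ ^ 2 * H.det.re) ^ ((n : ℝ)⁻¹) := by gcongr

theorem GP.mono {L L' : V n → ℝ} {F F' : ℝ} (h : GP L F) (hF : F' ≤ F) (hL : ∀ v, L v ≤ L' v) :
    GP L' F' := by
  intro A
  calc (n : ℝ) * ‖A.det‖ ^ ((2 : ℝ) / n) * F' ≤ (n : ℝ) * ‖A.det‖ ^ ((2 : ℝ) / n) * F := by gcongr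
    _ ≤ ∑ l, L (A (e l)) := h A
    _ ≤ ∑ l, L' (A (e l)) := Finset.sum_le_sum fun l _ => hL _

/-- GP with `F ≥ 0` implies nonnegativity -/
theorem GP.nonneg (hn : 0 < n) {H : Mat n} {F : ℝ} (hF : 0 ≤ F) (h : GP (lf H) F) (v : V n) :
    0 ≤ lf H v := by
  let l0 : Fin n := ⟨0, hn⟩
  let A : Lin n := (EuclideanSpace.proj l0 : V n →L[ℂ] ℂ).smulRight v
  have h1 := h A
  have h2 : ∀ l, A (e l) = if l = l0 then v else 0 := by
    intro l
    show (e l : V n) l0 • v = _
    unfold e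
    by_cases hl : l = l0
    · rw [if_pos hl, hl]
      simp
    · rw [if_neg hl]
      simp [Ne.symm hl]
  have h3 : ∑ l, lf H (A (e l)) = lf H v := by
    rw [Finset.sum_eq_single l0]
    · rw [h2, if_pos rfl]
    · intro l _ hl
      rw [h2, if_neg hl]
      simp [lf]
    · intro hh
      exact absurd (Finset.mem_univ l0) hh
  rw [h3] at h1
  refine le_trans ?_ h1
  positivity

private theorem le_det_h12 (hn : 0 < n) {K : Mat n} (hK : K.PosDef) {F : ℝ} (hF : 0 ≤ F)
    (h : GP (lf K) F) : F ^ n ≤ K.det.re := by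
  have hn' : (0 : ℝ) < n := by exact_mod_cast hn
  obtain ⟨A, hA1, -, hA3⟩ := exists_frame hK.inv.posSemidef
  have hdet := hK.det_pos
  rw [Complex.lt_def] at hdet
  have hd : K.det = ((K.det.re : ℝ) : ℂ) := Complex.ext rfl hdet.2.symm
  have hd0 : 0 < K.det.re := hdet.1
  have hu : IsUnit K.det := by
    rw [isUnit_iff_ne_zero, hd]
    exact_mod_cast hd0.ne'
  have h1 := h A
  have h2 : ∑ l, lf K (A (e l)) = sA A K := rfl
  rw [h2, hA1, Matrix.nonsing_inv_mul _ hu, Matrix.trace_one, Fintype.card_fin] at h1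
  have h3 : ‖A.det‖ ^ 2 = (K.det.re)⁻¹ := by
    rw [hA3, Matrix.det_nonsing_inv, Ring.inverse_eq_inv', hd, ← Complex.ofReal_inv, Complex.ofReal_re]
    simp
  have h4 : ‖A.det‖ ^ ((2 : ℝ) / n) * F ≤ 1 := by
    have h5 : (n : ℝ) * (‖A.det‖ ^ ((2 : ℝ) / n) * F) ≤ n * 1 := by
      rw [mul_one, ← mul_assoc]
      simpa using h1
    exact le_of_mul_le_mul_left h5 hn'
  have h5 : (‖A.det‖ ^ ((2 : ℝ) / n) * F) ^ n ≤ 1 := pow_le_one₀ (by positivity) h4
  have h6 : (‖A.det‖ ^ ((2 : ℝ) / n)) ^ n = ‖A.det‖ ^ 2 := by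
    rw [← Real.rpow_natCast, ← Real.rpow_mul (norm_nonneg _), div_mul_cancel₀ _ hn'.ne']
    exact Real.rpow_natCast _ 2
  rw [mul_pow, h6, h3, inv_mul_le_iff₀ hd0, mul_one] at h5
  exact h5

theorem psd_of_GP (hn : 0 < n) {H : Mat n} (hH : H.IsHermitian) {F : ℝ} (hF : 0 ≤ F)
    (h : GP (lf H) F) : H.PosSemidef ∧ F ^ n ≤ H.det.re := by
  have h1 : H.PosSemidef := (posSemidef_iff_lf hH).2 (h.nonneg hn hF)
  refine ⟨h1, ?_⟩
  have h2 : ∀ ε : ℝ, 0 < ε → F ^ n ≤ (H + (ε : ℂ) • (1 : Mat n)).det.re := by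
    intro ε hε
    have h3 : ((ε : ℂ) • (1 : Mat n)).PosDef := by
      rw [Matrix.smul_one_eq_diagonal]
      refine Matrix.PosDef.diagonal fun _ => ?_
      exact_mod_cast hε
    refine le_det_h12 hn (Matrix.PosDef.posSemidef_add h1 h3) hF (h.mono le_rfl fun v => ?_)
    rw [lf_add, lf_smul, lf_one]
    have : 0 ≤ ε * ‖v‖ ^ 2 := by positivity
    linarith
  have h3 : Continuous fun ε : ℝ => (H + (ε : ℂ) • (1 : Mat n)).det.re := by
    refine Complex.continuous_re.comp (Continuous.matrix_det ?_)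
    exact continuous_const.add (Complex.continuous_ofReal.smul continuous_const)
  have h4 : Tendsto (fun ε : ℝ => (H + (ε : ℂ) • (1 : Mat n)).det.re) (𝓝[>] 0) (𝓝 H.det.re) := by
    have h5 := (h3.tendsto 0).mono_left (nhdsWithin_le_nhds (s := Ioi (0 : ℝ)))
    simpa using h5
  exact ge_of_tendsto h4 (eventually_nhdsWithin_of_forall fun ε hε => h2 ε hε)

theorem GP.add {L L' : V n → ℝ} {F F' : ℝ} (h : GP L F) (h' : GP L' F') :
    GP (fun v => L v + L' v) (F + F') := by
  intro A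
  rw [mul_add, Finset.sum_add_distrib]
  exact add_le_add (h A) (h' A)

theorem GP.smul {L : V n → ℝ} {F c : ℝ} (hc : 0 ≤ c) (h : GP L F) :
    GP (fun v => c * L v) (c * F) := by
  intro A
  rw [← Finset.mul_sum]
  calc (n : ℝ) * ‖A.det‖ ^ ((2 : ℝ) / n) * (c * F) = c * ((n : ℝ) * ‖A.det‖ ^ ((2 : ℝ) / n) * F) := by
        ring
    _ ≤ c * ∑ l, L (A (e l)) := mul_le_mul_of_nonneg_left (h A) hc

theorem GP.comp {L : V n → ℝ} {F : ℝ} (h : GP L F) (B : Lin n) :
    GP (fun v => L (B v)) (‖B.det‖ ^ ((2 : ℝ) / n) * F) := by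
  intro A
  have h1 := h (B.comp A)
  have h2 : (B.comp A).det = B.det * A.det := by
    exact LinearMap.det_comp (B : V n →ₗ[ℂ] V n) (A : V n →ₗ[ℂ] V n)
  rw [h2, norm_mul, Real.mul_rpow (norm_nonneg _) (norm_nonneg _)] at h1
  calc (n : ℝ) * ‖A.det‖ ^ ((2 : ℝ) / n) * (‖B.det‖ ^ ((2 : ℝ) / n) * F) =
      (n : ℝ) * (‖B.det‖ ^ ((2 : ℝ) / n) * ‖A.det‖ ^ ((2 : ℝ) / n)) * F := by ring
    _ ≤ ∑ l, L ((B.comp A) (e l)) := h1

theorem GP_normSq : GP (fun v : V n => ‖v‖ ^ 2) 1 := by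
  rcases Nat.eq_zero_or_pos n with hn | hn
  · subst hn
    intro A
    simp
  · have h1 : GP (lf (1 : Mat n)) 1 := by
      refine GP_of_det hn Matrix.PosSemidef.one zero_le_one ?_
      rw [Matrix.det_one, one_pow, Complex.one_re]
    exact h1.mono le_rfl fun v => (lf_one v).le

end Pool.Agent.Helper29.AM
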