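import Pool.Agent.Helper29.AM.Defs

/-!
# Block AM-L1: calculus of the Levi form and of the complex Hessian

`D2 u z v w = fderiv ℝ (fderiv ℝ u) z v w`; symmetric for `C²` functions
(`ContDiffAt.isSymmSndFDerivAt`). `lev_comp_real`: `D²(g∘u)(v,v) = g' D²u(v,v) + g'' (Du v)²`.
`lev_comp_holo`: `D²(u∘κ)(v,v) = D²u(κ'v,κ'v) + Du(κ''(v,v))`, and `κ''(iv,iv) = -κ''(v,v)` for a
holomorphic map (`κ'` is complex linear, the real derivatives are the restrictions of the complex
ones). `lev_eq_lf`: expand `D²u` in the real basis `e_j, i e_j`.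
`lev_nonpos_of_isLocalMax`: second derivative test along real lines.
`D2_eq_zero_of_isLittleO`: Taylor expansion of order 2.
-/

set_option autoImplicit false

namespace Pool.Agent.Helper29.AM

open MeasureTheory Set Filter Topology Asymptotics
open scoped ComplexOrder

variable {n m : ℕ} {u v : V n → ℝ} {z : V n}

private theorem ct1_2 {E F : Type*} [NormedAddCommGroup E] [NormedSpace ℝ E] [NormedAddCommGroup F]
    [NormedSpace ℝ F] {f : E → F} {x : E} (h : ContDiffAt ℝ 2 f x) : DifferentiableAt ℝ (fderiv ℝ f) x := by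
  have h1 : ContDiffAt ℝ 1 (fderiv ℝ f) x := h.fderiv_right (by norm_num)
  exact h1.differentiableAt (by norm_num)

private theorem ev1_2 {E F : Type*} [NormedAddCommGroup E] [NormedSpace ℝ E] [NormedAddCommGroup F]
    [NormedSpace ℝ F] {f : E → F} {x : E} (h : ContDiffAt ℝ 2 f x) :
    ∀ᶠ y in 𝓝 x, DifferentiableAt ℝ f y := by
  filter_upwards [h.eventually (by simp)] with y hy
  exact hy.differentiableAt (by norm_num)

private theorem D2_of {F : V n → ℝ} {G : V n → V n →L[ℝ] ℝ} {G' : V n →L[ℝ] V n →L[ℝ] ℝ}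
    (h : ∀ᶠ y in 𝓝 z, HasFDerivAt F (G y) y) (h' : HasFDerivAt G G' z) (w w' : V n) :
    D2 F z w w' = G' w w' := by
  have h1 : fderiv ℝ F =ᶠ[𝓝 z] G := h.mono fun y hy => hy.fderiv
  unfold D2
  rw [h1.fderiv_eq, h'.fderiv]

theorem D2_symm (hu : ContDiffAt ℝ 2 u z) (w w' : V n) : D2 u z w w' = D2 u z w' w := by
  have h := hu.isSymmSndFDerivAt (by simp)
  exact h w w'

theorem D2_congr (h : u =ᶠ[𝓝 z] v) (w w' : V n) : D2 u z w w' = D2 v z w w' := by
  unfold D2
  rw [(h.fderiv (𝕜 := ℝ)).fderiv_eq]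

theorem lev_congr (h : u =ᶠ[𝓝 z] v) (w : V n) : lev u z w = lev v z w := by
  unfold lev
  rw [D2_congr h, D2_congr h]

theorem hess_congr (h : u =ᶠ[𝓝 z] v) : hess u z = hess v z := by
  ext j k
  unfold hess
  rw [D2_congr h, D2_congr h, D2_congr h, D2_congr h]

private theorem D2_add2 (hu : ContDiffAt ℝ 2 u z) (hv : ContDiffAt ℝ 2 v z) (w w' : V n) :
    D2 (fun y => u y + v y) z w w' = D2 u z w w' + D2 v z w w' := by
  have h1 : ∀ᶠ y in 𝓝 z, HasFDerivAt (fun y => u y + v y) (fderiv ℝ u y + fderiv ℝ v y) y := by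
    filter_upwards [ev1_2 hu, ev1_2 hv] with y h1 h2
    exact h1.hasFDerivAt.add h2.hasFDerivAt
  rw [D2_of h1 ((ct1_2 hu).hasFDerivAt.add (ct1_2 hv).hasFDerivAt)]
  rfl

private theorem D2_const_mul2 (c : ℝ) (hu : ContDiffAt ℝ 2 u z) (w w' : V n) :
    D2 (fun y => c * u y) z w w' = c * D2 u z w w' := by
  have h1 : ∀ᶠ y in 𝓝 z, HasFDerivAt (fun y => c * u y) (c • fderiv ℝ u y) y := by
    filter_upwards [ev1_2 hu] with y h1
    exact h1.hasFDerivAt.const_mul c
  rw [D2_of h1 ((ct1_2 hu).hasFDerivAt.const_smul c)]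
  rfl

theorem lev_add (hu : ContDiffAt ℝ 2 u z) (hv : ContDiffAt ℝ 2 v z) (w : V n) :
    lev (fun y => u y + v y) z w = lev u z w + lev v z w := by
  unfold lev
  rw [D2_add2 hu hv, D2_add2 hu hv]
  ring

theorem lev_const_mul (c : ℝ) (hu : ContDiffAt ℝ 2 u z) (w : V n) :
    lev (fun y => c * u y) z w = c * lev u z w := by
  unfold lev
  rw [D2_const_mul2 c hu, D2_const_mul2 c hu]
  ring

theorem lev_const (c : ℝ) (w : V n) : lev (fun _ : V n => c) z w = 0 := by
  have h1 : ∀ᶠ y in 𝓝 z, HasFDerivAt (fun _ : V n => c) (0 : V n →L[ℝ] ℝ) y :=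
    Eventually.of_forall fun y => hasFDerivAt_const c y
  unfold lev
  rw [D2_of h1 (hasFDerivAt_const _ z), D2_of h1 (hasFDerivAt_const _ z)]
  simp

/-- real and imaginary part of a coordinate -/
private noncomputable def co2 (b : Bool) (j : Fin n) : V n →L[ℝ] ℝ :=
  (if b then Complex.reCLM else Complex.imCLM).comp ((EuclideanSpace.proj (𝕜 := ℂ) j).restrictScalars ℝ)

private theorem co2_true (j : Fin n) (w : V n) : co2 true j w = (w j).re := rfl

private theorem co2_false (j : Fin n) (w : V n) : co2 false j w = (w j).im := rfl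

private theorem normSq2 (y z₀ : V n) :
    ‖y - z₀‖ ^ 2 = ∑ j, ((co2 true j y - co2 true j z₀) ^ 2 + (co2 false j y - co2 false j z₀) ^ 2) := by
  rw [EuclideanSpace.norm_sq_eq]
  refine Finset.sum_congr rfl fun j _ => ?_
  rw [Complex.sq_norm, Complex.normSq_apply, co2_true, co2_true, co2_false, co2_false]
  simp only [PiLp.sub_apply, Complex.sub_re, Complex.sub_im]
  ring

private theorem contDiff_normSq2 (z₀ : V n) {k : WithTop ℕ∞} : ContDiff ℝ k fun y : V n => ‖y - z₀‖ ^ 2 := by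
  simp only [normSq2]
  refine ContDiff.sum fun j _ => ?_
  exact (((co2 true j).contDiff.sub contDiff_const).pow 2).add
    (((co2 false j).contDiff.sub contDiff_const).pow 2)

private theorem D2_normSq2 (z₀ w w' : V n) :
    D2 (fun y => ‖y - z₀‖ ^ 2) z w w' = 2 * ∑ j, ((w j).re * (w' j).re + (w j).im * (w' j).im) := by
  have h1 : ∀ y : V n, HasFDerivAt (fun y => ‖y - z₀‖ ^ 2)
      (∑ j, ((2 * (co2 true j y - co2 true j z₀)) • co2 true j +
        (2 * (co2 false j y - co2 false j z₀)) • co2 false j)) y := by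
    intro y
    simp only [normSq2]
    refine HasFDerivAt.fun_sum fun j _ => ?_
    refine HasFDerivAt.add ?_ ?_
    · have := (((co2 true j).hasFDerivAt (x := y)).sub_const (co2 true j z₀)).pow 2
      refine this.congr_fderiv ?_
      ext w
      simp
    · have := (((co2 false j).hasFDerivAt (x := y)).sub_const (co2 false j z₀)).pow 2
      refine this.congr_fderiv ?_
      ext w
      simp
  have h2 : HasFDerivAt (fun y : V n => ∑ j, ((2 * (co2 true j y - co2 true j z₀)) • co2 true j +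
        (2 * (co2 false j y - co2 false j z₀)) • co2 false j))
      (∑ j, (((2 : ℝ) • co2 true j).smulRight (co2 true j) +
        ((2 : ℝ) • co2 false j).smulRight (co2 false j))) z := by
    refine HasFDerivAt.fun_sum fun j _ => ?_
    refine HasFDerivAt.add ?_ ?_
    · have h3 := (((co2 true j).hasFDerivAt (x := z)).sub_const (co2 true j z₀)).const_mul 2
      exact h3.smul_const (co2 true j)
    · have h3 := (((co2 false j).hasFDerivAt (x := z)).sub_const (co2 false j z₀)).const_mul 2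
      exact h3.smul_const (co2 false j)
  rw [D2_of (Eventually.of_forall h1) h2]
  simp only [sum_apply, add_apply,
    ContinuousLinearMap.smulRight_apply, smul_apply, smul_eq_mul, co2_true,
    co2_false, Finset.mul_sum]
  refine Finset.sum_congr rfl fun j _ => ?_
  ring

private theorem sum_sq2 (w : V n) : ∑ j, ((w j).re * (w j).re + (w j).im * (w j).im) = ‖w‖ ^ 2 := by
  rw [EuclideanSpace.norm_sq_eq]
  refine Finset.sum_congr rfl fun j _ => ?_
  rw [Complex.sq_norm, Complex.normSq_apply]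

theorem lev_normSq (z₀ w : V n) : lev (fun y => ‖y - z₀‖ ^ 2) z w = ‖w‖ ^ 2 := by
  unfold lev
  rw [D2_normSq2, D2_normSq2, sum_sq2, sum_sq2, norm_smul, Complex.norm_I, one_mul]
  ring

/-- real parts of complex affine functions are pluriharmonic -/
theorem lev_re_linear (l : V n →L[ℂ] ℂ) (z₀ : V n) (w : V n) :
    lev (fun y => (l (y - z₀)).re) z w = 0 := by
  have h1 : ∀ y : V n, HasFDerivAt (fun y => (l (y - z₀)).re)
      (Complex.reCLM.comp (l.restrictScalars ℝ)) y := by
    intro y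
    have h2 : (fun y : V n => (l (y - z₀)).re) =
        fun y => (Complex.reCLM.comp (l.restrictScalars ℝ)) y - (l z₀).re := by
      funext y
      simp
    rw [h2]
    exact ((Complex.reCLM.comp (l.restrictScalars ℝ)).hasFDerivAt (x := y)).sub_const _
  unfold lev
  rw [D2_of (Eventually.of_forall h1) (hasFDerivAt_const _ z),
    D2_of (Eventually.of_forall h1) (hasFDerivAt_const _ z)]
  simp

private theorem real_smul2 (r : ℝ) (w : V n) : ((r : ℂ) • w) = r • w := by
  ext j
  simp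

private theorem split2 (c : ℂ) (w : V n) : c • w = c.re • w + c.im • (Complex.I • w) := by
  rw [← real_smul2, ← real_smul2, smul_smul, ← add_smul]
  congr 1
  exact (Complex.re_add_im c).symm

private theorem II2 (w : V n) : Complex.I • (Complex.I • w) = -w := by
  rw [smul_smul, Complex.I_mul_I, neg_one_smul]

private theorem D2_add_left2 (w₁ w₂ w' : V n) : D2 u z (w₁ + w₂) w' = D2 u z w₁ w' + D2 u z w₂ w' := by
  unfold D2
  rw [map_add]
  rfl

private theorem D2_add_right2 (w w₁ w₂ : V n) : D2 u z w (w₁ + w₂) = D2 u z w w₁ + D2 u z w w₂ := by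
  unfold D2
  rw [map_add]

private theorem D2_smul_left2 (r : ℝ) (w w' : V n) : D2 u z (r • w) w' = r * D2 u z w w' := by
  unfold D2
  rw [map_smul]
  rfl

private theorem D2_smul_right2 (r : ℝ) (w w' : V n) : D2 u z w (r • w') = r * D2 u z w w' := by
  unfold D2
  rw [map_smul]
  rfl

private theorem D2_neg_left2 (w w' : V n) : D2 u z (-w) w' = -D2 u z w w' := by
  unfold D2
  rw [map_neg]
  rfl

private theorem D2_neg_right2 (w w' : V n) : D2 u z w (-w') = -D2 u z w w' := by
  unfold D2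
  rw [map_neg]

theorem lev_smul (hu : ContDiffAt ℝ 2 u z) (c : ℂ) (w : V n) :
    lev u z (c • w) = ‖c‖ ^ 2 * lev u z w := by
  have h1 : Complex.I • (c • w) = c.re • (Complex.I • w) + (-c.im) • w := by
    rw [smul_comm, split2 c (Complex.I • w), II2, smul_neg, neg_smul]
  unfold lev
  rw [h1, split2 c w]
  simp only [D2_add_left2, D2_add_right2, D2_smul_left2, D2_smul_right2]
  rw [D2_symm hu (Complex.I • w) w, Complex.sq_norm, Complex.normSq_apply]
  ring

theorem lev_comp_real {g : ℝ → ℝ} (hg : ContDiffAt ℝ 2 g (u z)) (hu : ContDiffAt ℝ 2 u z)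
    (w : V n) : lev (fun y => g (u y)) z w = deriv g (u z) * lev u z w +
      deriv (deriv g) (u z) * ((fderiv ℝ u z w) ^ 2 + (fderiv ℝ u z (Complex.I • w)) ^ 2) / 4 := by
  have hud : DifferentiableAt ℝ u z := hu.differentiableAt (by norm_num)
  have hgd : DifferentiableAt ℝ (deriv g) (u z) := by
    have h1 := ct1_2 hg
    have h2 : deriv g = fun x => fderiv ℝ g x 1 := by
      funext x
      exact (fderiv_apply_one_eq_deriv).symm
    rw [h2]
    exact h1.clm_apply (differentiableAt_const 1)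
  have h1 : ∀ᶠ y in 𝓝 z, HasFDerivAt (fun y => g (u y)) (deriv g (u y) • fderiv ℝ u y) y := by
    filter_upwards [ev1_2 hu, hud.continuousAt.eventually (ev1_2 hg)] with y h2 h3
    exact h3.hasDerivAt.comp_hasFDerivAt y h2.hasFDerivAt
  have h2 : HasFDerivAt (fun y => deriv g (u y) • fderiv ℝ u y)
      (deriv g (u z) • fderiv ℝ (fderiv ℝ u) z +
        (deriv (deriv g) (u z) • fderiv ℝ u z).smulRight (fderiv ℝ u z)) z := by
    have h3 := (hgd.hasDerivAt.comp_hasFDerivAt z hud.hasFDerivAt).smul (ct1_2 hu).hasFDerivAt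
    exact h3
  have key : ∀ w w' : V n, D2 (fun y => g (u y)) z w w' = deriv g (u z) * D2 u z w w' +
      deriv (deriv g) (u z) * fderiv ℝ u z w * fderiv ℝ u z w' := by
    intro w w'
    rw [D2_of h1 h2]
    rfl
  unfold lev
  rw [key, key]
  ring

theorem lev_comp_holo {κ : V m → V n} {z : V m} (hκ : ContDiffAt ℂ 2 κ z)
    (hu : ContDiffAt ℝ 2 u (κ z)) (w : V m) :
    lev (fun y => u (κ y)) z w = lev u (κ z) (fderiv ℂ κ z w) := by
  have hκd : DifferentiableAt ℂ κ z := hκ.differentiableAt (by norm_num)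
  have hκ2 : DifferentiableAt ℂ (fderiv ℂ κ) z := by
    have h1 : ContDiffAt ℂ 1 (fderiv ℂ κ) z := hκ.fderiv_right (by norm_num)
    exact h1.differentiableAt (by norm_num)
  have h1 : ∀ᶠ y in 𝓝 z, HasFDerivAt (fun y => u (κ y))
      ((fderiv ℝ u (κ y)).comp ((fderiv ℂ κ y).restrictScalars ℝ)) y := by
    filter_upwards [hκd.continuousAt.eventually (ev1_2 hu), hκ.eventually (by simp)] with y h2 h3
    exact h2.hasFDerivAt.comp y ((h3.differentiableAt (by norm_num)).hasFDerivAt.restrictScalars ℝ)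
  have h2 : HasFDerivAt (fun y => (fderiv ℂ κ y).restrictScalars ℝ)
      ((ContinuousLinearMap.restrictScalarsL ℂ (V m) (V n) ℝ ℝ).comp
        ((fderiv ℂ (fderiv ℂ κ) z).restrictScalars ℝ)) z :=
    (ContinuousLinearMap.restrictScalarsL ℂ (V m) (V n) ℝ ℝ).hasFDerivAt.comp z
      (hκ2.hasFDerivAt.restrictScalars ℝ)
  have h3 : HasFDerivAt (fun y => fderiv ℝ u (κ y))
      ((fderiv ℝ (fderiv ℝ u) (κ z)).comp ((fderiv ℂ κ z).restrictScalars ℝ)) z :=
    (ct1_2 hu).hasFDerivAt.comp z (hκd.hasFDerivAt.restrictScalars ℝ)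
  have h4 := h3.clm_comp h2
  have key : ∀ w w' : V m, D2 (fun y => u (κ y)) z w w' =
      D2 u (κ z) (fderiv ℂ κ z w) (fderiv ℂ κ z w') +
        fderiv ℝ u (κ z) (fderiv ℂ (fderiv ℂ κ) z w w') := by
    intro w w'
    rw [D2_of h1 h4, add_comm]
    rfl
  unfold lev
  rw [key, key]
  have h5 : fderiv ℂ (fderiv ℂ κ) z (Complex.I • w) (Complex.I • w) =
      -fderiv ℂ (fderiv ℂ κ) z w w := by
    have h6 : fderiv ℂ (fderiv ℂ κ) z (Complex.I • w) = Complex.I • fderiv ℂ (fderiv ℂ κ) z w :=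
      map_smul _ _ _
    rw [h6]
    show Complex.I • (fderiv ℂ (fderiv ℂ κ) z w (Complex.I • w)) = _
    rw [map_smul, II2]
  rw [h5, map_neg, map_smul]
  ring

theorem hess_isHermitian (hu : ContDiffAt ℝ 2 u z) : (hess u z).IsHermitian := by
  ext j k
  rw [Matrix.conjTranspose_apply]
  unfold hess
  rw [D2_symm hu (e k) (e j), D2_symm hu (Complex.I • e k) (Complex.I • e j),
    D2_symm hu (e k) (Complex.I • e j), D2_symm hu (Complex.I • e k) (e j)]
  apply Complex.ext
  · simp
  · simp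

/-- the sesquilinear form -/
private noncomputable def hh2 (u : V n → ℝ) (z v w : V n) : ℂ :=
  (((D2 u z v w + D2 u z (Complex.I • v) (Complex.I • w) : ℝ) : ℂ) +
    ((D2 u z v (Complex.I • w) - D2 u z (Complex.I • v) w : ℝ) : ℂ) * Complex.I) / 4

private theorem hh2_add_left (v₁ v₂ w : V n) : hh2 u z (v₁ + v₂) w = hh2 u z v₁ w + hh2 u z v₂ w := by
  unfold hh2
  rw [smul_add, D2_add_left2, D2_add_left2, D2_add_left2, D2_add_left2]
  push_cast
  ring

private theorem hh2_add_right (v w₁ w₂ : V n) : hh2 u z v (w₁ + w₂) = hh2 u z v w₁ + hh2 u z v w₂ := by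
  unfold hh2
  rw [smul_add, D2_add_right2, D2_add_right2, D2_add_right2, D2_add_right2]
  push_cast
  ring

private theorem hh2_smul_left (c : ℂ) (v w : V n) : hh2 u z (c • v) w = c * hh2 u z v w := by
  have h1 : Complex.I • (c • v) = c.re • (Complex.I • v) + (-c.im) • v := by
    rw [smul_comm, split2 c (Complex.I • v), II2, smul_neg, neg_smul]
  unfold hh2
  rw [h1, split2 c v]
  simp only [D2_add_left2, D2_smul_left2]
  apply Complex.ext
  · simp
    ring
  · simp
    ring

private theorem hh2_smul_right (c : ℂ) (v w : V n) :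
    hh2 u z v (c • w) = (starRingEnd ℂ) c * hh2 u z v w := by
  have h1 : Complex.I • (c • w) = c.re • (Complex.I • w) + (-c.im) • w := by
    rw [smul_comm, split2 c (Complex.I • w), II2, smul_neg, neg_smul]
  unfold hh2
  rw [h1, split2 c w]
  simp only [D2_add_right2, D2_smul_right2]
  apply Complex.ext
  · simp
    ring
  · simp
    ring

private theorem sum_e2 (w : V n) : w = ∑ j, w j • e j := by
  ext k
  simp [e, Pi.single_apply]

private theorem hh2_eq (v w : V n) : hh2 u z v w =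
    ∑ j, ∑ k, hess u z j k * v j * (starRingEnd ℂ) (w k) := by
  let A : V n →+ ℂ := ⟨⟨fun v => hh2 u z v w, by
    have := hh2_smul_left (u := u) (z := z) 0 0 w
    simpa using this⟩, fun a b => hh2_add_left a b w⟩
  have h1 : hh2 u z v w = ∑ j, hh2 u z (v j • e j) w := by
    show A v = ∑ j, A (v j • e j)
    rw [← map_sum, ← sum_e2]
  rw [h1]
  refine Finset.sum_congr rfl fun j _ => ?_
  let B : V n →+ ℂ := ⟨⟨fun w => hh2 u z (v j • e j) w, by
    have := hh2_smul_right (u := u) (z := z) 0 (v j • e j) 0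
    simpa using this⟩, fun a b => hh2_add_right _ a b⟩
  have h2 : hh2 u z (v j • e j) w = ∑ k, hh2 u z (v j • e j) (w k • e k) := by
    show B w = ∑ k, B (w k • e k)
    rw [← map_sum, ← sum_e2]
  rw [h2]
  refine Finset.sum_congr rfl fun k _ => ?_
  rw [hh2_smul_left, hh2_smul_right]
  have h3 : hh2 u z (e j) (e k) = hess u z j k := rfl
  rw [h3]
  ring

theorem lev_eq_lf (hu : ContDiffAt ℝ 2 u z) (w : V n) : lev u z w = lf (hess u z) w := by
  unfold lf
  rw [← hh2_eq]
  have h1 := D2_symm hu w (Complex.I • w)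
  unfold hh2 lev
  rw [h1, sub_self]
  simp

theorem DA_eq_sA (hu : ContDiffAt ℝ 2 u z) (A : Lin n) : DA A u z = sA A (hess u z) := by
  unfold DA sA
  exact Finset.sum_congr rfl fun l _ => lev_eq_lf hu _

theorem hess_add (hu : ContDiffAt ℝ 2 u z) (hv : ContDiffAt ℝ 2 v z) :
    hess (fun y => u y + v y) z = hess u z + hess v z := by
  ext j k
  rw [Matrix.add_apply]
  unfold hess
  simp only [D2_add2 hu hv]
  push_cast
  ring

theorem hess_const_mul (c : ℝ) (hu : ContDiffAt ℝ 2 u z) :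
    hess (fun y => c * u y) z = (c : ℂ) • hess u z := by
  ext j k
  rw [Matrix.smul_apply]
  unfold hess
  simp only [D2_const_mul2 c hu, smul_eq_mul]
  push_cast
  ring

private theorem e_re2 (j l : Fin n) : ((e j : V n) l).re = if l = j then 1 else 0 := by
  by_cases h : l = j
  · subst h; simp [e]
  · simp [e, h]

private theorem e_im2 (j l : Fin n) : ((e j : V n) l).im = 0 := by
  by_cases h : l = j
  · subst h; simp [e]
  · simp [e, h]

private theorem ie_re2 (j l : Fin n) : ((Complex.I • e j : V n) l).re = 0 := by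
  rw [PiLp.smul_apply, smul_eq_mul, Complex.I_mul_re, e_im2, neg_zero]

private theorem ie_im2 (j l : Fin n) : ((Complex.I • e j : V n) l).im = if l = j then 1 else 0 := by
  rw [PiLp.smul_apply, smul_eq_mul, Complex.I_mul_im, e_re2]

theorem hess_normSq (z₀ : V n) : hess (fun y => ‖y - z₀‖ ^ 2) z = 1 := by
  ext j k
  unfold hess
  simp only [D2_normSq2, e_re2, e_im2, ie_re2, ie_im2]
  by_cases h : j = k
  · subst h
    rw [Matrix.one_apply_eq]
    simp
    norm_num
  · rw [Matrix.one_apply_ne h]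
    have h1 : ∀ x : Fin n, (if x = j then (1 : ℝ) else 0) * (if x = k then (1 : ℝ) else 0) = 0 := by
      intro x
      by_cases h2 : x = j
      · subst h2
        rw [if_neg h, mul_zero]
      · rw [if_neg h2, zero_mul]
    simp only [h1]
    simp

private theorem D2_nonpos2 (hu : ContDiffAt ℝ 2 u z) (h : IsLocalMax u z) (w : V n) :
    D2 u z w w ≤ 0 := by
  by_contra hc
  push Not at hc
  have hl : ∀ t : ℝ, HasDerivAt (fun t : ℝ => z + t • w) w t := by
    intro t
    have := ((hasDerivAt_id t).smul_const w).const_add z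
    simpa using this
  have hl0 : Tendsto (fun t : ℝ => z + t • w) (𝓝 0) (𝓝 z) := by
    have := (hl 0).continuousAt.tendsto
    simpa using this
  have hz0 : z + (0 : ℝ) • w = z := by simp
  have h1 : ∀ᶠ t in 𝓝 (0 : ℝ), HasDerivAt (fun t : ℝ => u (z + t • w)) (fderiv ℝ u (z + t • w) w) t := by
    filter_upwards [hl0.eventually (ev1_2 hu)] with t ht
    exact ht.hasFDerivAt.comp_hasDerivAt t (hl t)
  have h2 : deriv (fun t : ℝ => u (z + t • w)) =ᶠ[𝓝 0] fun t => fderiv ℝ u (z + t • w) w :=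
    h1.mono fun t ht => ht.deriv
  have h3 : HasDerivAt (fun t : ℝ => fderiv ℝ u (z + t • w) w) (D2 u z w w) 0 := by
    have h4 : HasFDerivAt (fderiv ℝ u) (fderiv ℝ (fderiv ℝ u) z) (z + (0 : ℝ) • w) := by
      rw [hz0]
      exact (ct1_2 hu).hasFDerivAt
    have h5 := h4.comp_hasDerivAt (0 : ℝ) (hl 0)
    have h6 := h5.clm_apply (hasDerivAt_const (0 : ℝ) w)
    rw [map_zero, add_zero] at h6
    exact h6
  have h4 : deriv (deriv (fun t : ℝ => u (z + t • w))) 0 = D2 u z w w := by
    rw [h2.deriv_eq, h3.deriv]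
  have hmax : IsLocalMax (fun t : ℝ => u (z + t • w)) 0 := by
    have h5 := hl0.eventually h
    unfold IsLocalMax IsMaxFilter
    filter_upwards [h5] with t ht
    rw [hz0]
    exact ht
  have hmin : IsLocalMin (fun t : ℝ => u (z + t • w)) 0 := by
    refine isLocalMin_of_deriv_deriv_pos (by rw [h4]; exact hc) hmax.deriv_eq_zero ?_
    exact (h1.self_of_nhds).continuousAt
  have hcst : (fun t : ℝ => u (z + t • w)) =ᶠ[𝓝 0] fun _ => u (z + (0 : ℝ) • w) := by
    filter_upwards [hmax, hmin] with t h5 h6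
    exact le_antisymm h5 h6
  have h7 : deriv (deriv (fun t : ℝ => u (z + t • w))) 0 = 0 := by
    rw [hcst.deriv.deriv_eq]
    simp
  rw [h4] at h7
  linarith

theorem lev_nonpos_of_isLocalMax (hu : ContDiffAt ℝ 2 u z) (h : IsLocalMax u z) (w : V n) :
    lev u z w ≤ 0 := by
  unfold lev
  have h1 := D2_nonpos2 hu h w
  have h2 := D2_nonpos2 hu h (Complex.I • w)
  linarith

/-- a `C²` function which is `o(|y - z|²)` has vanishing second derivative -/
theorem D2_eq_zero_of_isLittleO (hu : ContDiffAt ℝ 2 u z)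
    (h : u =o[𝓝 z] fun y => ‖y - z‖ ^ 2) (w w' : V n) : D2 u z w w' = 0 := by
  have hN : ContDiffAt ℝ 2 (fun y : V n => ‖y - z‖ ^ 2) z := (contDiff_normSq2 z).contDiffAt
  have huz : u z = 0 := by
    have h1 := h.def (show (0 : ℝ) < 1 by norm_num)
    have h2 := h1.self_of_nhds
    simpa using h2
  have hle : ∀ (c : ℝ), (c = 1 ∨ c = -1) → ∀ ε : ℝ, 0 < ε → ∀ w : V n,
      c * D2 u z w w ≤ 2 * ε * ‖w‖ ^ 2 := by
    intro c hc ε hε w
    have h3 : ContDiffAt ℝ 2 (fun y => c * u y) z := contDiffAt_const.mul hu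
    have h4 : ContDiffAt ℝ 2 (fun y : V n => (-ε) * ‖y - z‖ ^ 2) z := contDiffAt_const.mul hN
    have h5 : IsLocalMax (fun y => c * u y + (-ε) * ‖y - z‖ ^ 2) z := by
      filter_upwards [h.def hε] with y hy
      rw [huz, sub_self, norm_zero]
      rw [Real.norm_eq_abs, Real.norm_eq_abs, abs_of_nonneg (sq_nonneg ‖y - z‖)] at hy
      have h6 : c * u y ≤ |u y| := by
        rcases hc with rfl | rfl
        · rw [one_mul]; exact le_abs_self _
        · rw [neg_one_mul]; exact neg_le_abs _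
      have h7 : c * 0 + (-ε) * (0 : ℝ) ^ 2 = 0 := by ring
      rw [h7]
      linarith
    have h6 := D2_nonpos2 (h3.add h4) h5 w
    rw [D2_add2 h3 h4, D2_const_mul2 c hu, D2_const_mul2 (-ε) hN, D2_normSq2, sum_sq2] at h6
    linarith
  have hzero : ∀ w : V n, D2 u z w w = 0 := by
    intro w
    have h8 : ∀ c : ℝ, (c = 1 ∨ c = -1) → c * D2 u z w w ≤ 0 := by
      intro c hc
      refine le_of_forall_pos_le_add fun δ hδ => ?_
      have h9 := hle c hc (δ / (2 * (‖w‖ ^ 2 + 1))) (by positivity) w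
      have h10 : 2 * (δ / (2 * (‖w‖ ^ 2 + 1))) * ‖w‖ ^ 2 ≤ δ := by
        have h11 : 2 * (δ / (2 * (‖w‖ ^ 2 + 1))) * ‖w‖ ^ 2 = δ * (‖w‖ ^ 2 / (‖w‖ ^ 2 + 1)) := by
          field_simp
        rw [h11]
        have h12 : ‖w‖ ^ 2 / (‖w‖ ^ 2 + 1) ≤ 1 := by
          rw [div_le_one (by positivity)]
          linarith
        nlinarith
      linarith
    have h9 := h8 1 (Or.inl rfl)
    have h10 := h8 (-1) (Or.inr rfl)
    linarith
  have h1 := hzero (w + w')
  rw [D2_add_left2, D2_add_right2, D2_add_right2, hzero w, hzero w', D2_symm hu w' w] at h1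
  linarith

private theorem cdo2 {Ω : Set (V n)} (hΩ : IsOpen Ω) (hu : ContDiffOn ℝ (⊤ : ℕ∞) u Ω) (w w' : V n) :
    ContDiffOn ℝ (⊤ : ℕ∞) (fun y => D2 u y w w') Ω := by
  have h1 : ContDiffOn ℝ (⊤ : ℕ∞) (fderiv ℝ u) Ω := hu.fderiv_of_isOpen hΩ (by simp)
  have h2 : ContDiffOn ℝ (⊤ : ℕ∞) (fderiv ℝ (fderiv ℝ u)) Ω := h1.fderiv_of_isOpen hΩ (by simp)
  exact (h2.clm_apply contDiffOn_const).clm_apply contDiffOn_const

private theorem co2' {Ω : Set (V n)} (hΩ : IsOpen Ω) (hu : ContDiffOn ℝ 2 u Ω) (w w' : V n) :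
    ContinuousOn (fun y => D2 u y w w') Ω := by
  have h1 : ContDiffOn ℝ 1 (fderiv ℝ u) Ω := hu.fderiv_of_isOpen hΩ (by norm_num)
  have h2 : ContDiffOn ℝ 0 (fderiv ℝ (fderiv ℝ u)) Ω := h1.fderiv_of_isOpen hΩ (by norm_num)
  exact ((h2.clm_apply contDiffOn_const).clm_apply contDiffOn_const).continuousOn

theorem contDiffOn_lev {Ω : Set (V n)} (hΩ : IsOpen Ω) (hu : ContDiffOn ℝ (⊤ : ℕ∞) u Ω) (w : V n) :
    ContDiffOn ℝ (⊤ : ℕ∞) (fun y => lev u y w) Ω := by
  unfold lev
  exact ((cdo2 hΩ hu _ _).add (cdo2 hΩ hu _ _)).div_const 4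

theorem contDiffOn_hess {Ω : Set (V n)} (hΩ : IsOpen Ω) (hu : ContDiffOn ℝ (⊤ : ℕ∞) u Ω)
    (j k : Fin n) : ContDiffOn ℝ (⊤ : ℕ∞) (fun y => hess u y j k) Ω := by
  unfold hess
  have hre : ∀ f : V n → ℝ, ContDiffOn ℝ (⊤ : ℕ∞) f Ω → ContDiffOn ℝ (⊤ : ℕ∞) (fun y => (f y : ℂ)) Ω :=
    fun f hf => Complex.ofRealCLM.contDiff.comp_contDiffOn hf
  exact ((hre _ ((cdo2 hΩ hu _ _).add (cdo2 hΩ hu _ _))).add
    ((hre _ ((cdo2 hΩ hu _ _).sub (cdo2 hΩ hu _ _))).mul contDiffOn_const)).div_const 4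

/-- second derivatives are continuous for `C²` functions -/
theorem continuousOn_lev {Ω : Set (V n)} (hΩ : IsOpen Ω) (hu : ContDiffOn ℝ 2 u Ω) (w : V n) :
    ContinuousOn (fun y => lev u y w) Ω := by
  unfold lev
  exact ((co2' hΩ hu _ _).add (co2' hΩ hu _ _)).div_const 4

theorem continuousOn_hess {Ω : Set (V n)} (hΩ : IsOpen Ω) (hu : ContDiffOn ℝ 2 u Ω)
    (j k : Fin n) : ContinuousOn (fun y => hess u y j k) Ω := by
  unfold hess
  have hre : ∀ f : V n → ℝ, ContinuousOn f Ω → ContinuousOn (fun y => (f y : ℂ)) Ω :=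
    fun f hf => Complex.continuous_ofReal.comp_continuousOn hf
  exact ((hre _ ((co2' hΩ hu _ _).add (co2' hΩ hu _ _))).add
    ((hre _ ((co2' hΩ hu _ _).sub (co2' hΩ hu _ _))).mul continuousOn_const)).div_const 4

end Pool.Agent.Helper29.AM
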