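import Pool.Agent.Helper29.AM.GS1

/-!
# Block AM-G2: mollification and monotonicity of means (2.3), (2.4)

`GS.mollify`: test with `η(y) = ρ((y-z)/ε) ε^{-2n}`: `Δ_A Φ_u(·,ε)(z) = ∫ u Δ_A η ≥ n|det A|^{2/n}∫ Fη
= n|det A|^{2/n} Φ_F(z,ε)`.
`Phi_mono_radius`: for smooth psh `u` from `hasDerivAt_Phi`; in general apply it to
`u_ε = Φ_u(·,ε)`: `Φ_{u_ε}(z,t) = Φ_{Φ_u(·,t)}(z,ε) → Φ_u(z,t)` as `ε → 0` (continuity of `Φ_u(·,t)`).
`convexOn_Phi`: for smooth psh `u`, `h(w) = ∫ u(z+wη)ρ(η)dη` is radial, smooth and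
`h_{w w̄} = ∫ L_u(z+wη; η)ρ ≥ 0`; with `w = e^x`, `h'' (x) = 4|w|² h_{w w̄} ≥ 0`. General `u` by mollification.
-/

set_option autoImplicit false

namespace Pool.Agent.Helper29.AM

open MeasureTheory Set Filter Topology
open scoped ComplexOrder

variable {n : ℕ} {Ω : Set (V n)} {F G u v : V n → ℝ}

private theorem g2_shr_shr {s t : ℝ} {z : V n} (hz : z ∈ shr Ω (s + t)) :
    z ∈ shr (shr Ω s) t := by
  intro y hy
  refine Subset.trans (Metric.closedBall_subset_closedBall' ?_) hz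
  have := Metric.mem_closedBall.1 hy
  linarith

private theorem g2_shr_mono {s t : ℝ} (h : s ≤ t) : shr Ω t ⊆ shr Ω s := fun _ hz =>
  Subset.trans (Metric.closedBall_subset_closedBall h) hz

private theorem g2_mem {t : ℝ} (ht : 0 ≤ t) {z : V n} (hz : z ∈ shr Ω t) : z ∈ Ω :=
  hz (Metric.mem_closedBall_self ht)

private theorem g2_ev (hΩ : IsOpen Ω) {t : ℝ} (ht : 0 ≤ t) {z : V n} (hz : z ∈ shr Ω t) :
    ∀ᶠ ε in 𝓝[>] (0 : ℝ), z ∈ shr Ω (ε + t) := by
  obtain ⟨δ, hδ, h⟩ := (isCompact_closedBall z t).exists_cthickening_subset_open hΩ hz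
  rw [cthickening_closedBall hδ.le ht] at h
  filter_upwards [Ioo_mem_nhdsGT hδ] with ε hε
  exact g2_shr_mono (by linarith [hε.2]) h

private theorem g2_det {t : ℝ} (ht : 0 < t) : (sc t : Lin n).det ≠ 0 := by
  rw [det_sc]
  exact pow_ne_zero _ (by exact_mod_cast ht.ne')

private theorem g2_ae_int {Ω : Set (V n)} (hΩ : IsOpen Ω) {u : V n → ℝ} (hu : ContinuousOn u Ω) :
    LocallyIntegrableOn u Ω volume := hu.locallyIntegrableOn hΩ.measurableSet

private theorem g2_two_le : (2 : WithTop ℕ∞) ≤ ((⊤ : ℕ∞) : WithTop ℕ∞) := by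
  show ((2 : ℕ∞) : WithTop ℕ∞) ≤ _
  exact WithTop.coe_le_coe.2 le_top

private theorem g2_DA_cont {Ω : Set (V n)} (hΩ : IsOpen Ω) {u : V n → ℝ} (hu : ContDiffOn ℝ 2 u Ω)
    (A : Lin n) : ContinuousOn (DA A u) Ω := by
  unfold DA
  exact continuousOn_finsetSum _ fun l _ => continuousOn_lev hΩ hu _

/-- the smooth case of the growth of the means -/
private theorem g2_growth (hΩ : IsOpen Ω) {q : V n → ℝ} (hq : ContDiffOn ℝ 2 q Ω) {κ : ℝ}
    (hκ : ∀ z ∈ Ω, κ ≤ DA 1 q z) {s t : ℝ} (hs : 0 ≤ s) (hst : s ≤ t) {z : V n}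
    (hz : z ∈ shr Ω t) : κ * aa n * (t ^ 2 - s ^ 2) ≤ Phi q z t - Phi q z s := by
  have hd : ∀ x ∈ Icc 0 t, HasDerivAt (fun x : ℝ => Phi q z x - κ * aa n * x ^ 2)
      (2 * x * M1 (sc x) (DA 1 q) z - κ * aa n * (2 * x)) x := by
    intro x hx
    refine (hasDerivAt_Phi hΩ hq hx.1 (g2_shr_mono hx.2 hz)).sub ?_
    simpa using (hasDerivAt_pow 2 x).const_mul (κ * aa n)
  have hmono : MonotoneOn (fun x : ℝ => Phi q z x - κ * aa n * x ^ 2) (Icc 0 t) := by
    refine monotoneOn_of_deriv_nonneg (convex_Icc 0 t) (fun x hx => (hd x hx).continuousAt.continuousWithinAt)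
      (fun x hx => ?_) (fun x hx => ?_)
    · rw [interior_Icc] at hx
      exact (hd x ⟨hx.1.le, hx.2.le⟩).differentiableAt.differentiableWithinAt
    · rw [interior_Icc] at hx
      rw [(hd x ⟨hx.1.le, hx.2.le⟩).deriv]
      have hx0 : 0 < x := hx.1
      have hzx : ∀ η : V n, ‖η‖ ≤ 1 → z + (sc x : Lin n) η ∈ Ω :=
        (mem_shr_iff hx0.le).1 (g2_shr_mono hx.2.le hz)
      have hle : κ * aa n ≤ M1 (sc x) (DA 1 q) z := by
        unfold aa M1
        rw [← integral_const_mul]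
        refine integral_mono (rho1_integrable.const_mul κ)
          (integrable_rho_mul (g2_det hx0) hΩ (g2_ae_int hΩ (g2_DA_cont hΩ hq 1)) hzx).2 ?_
        intro η
        show κ * rho1 η ≤ rho1 η * DA 1 q (z + (sc x : Lin n) η)
        rcases le_or_gt 1 ‖η‖ with h | h
        · rw [rho1_eq_zero h]; simp
        · rw [mul_comm]
          exact mul_le_mul_of_nonneg_left (hκ _ (hzx η h.le)) (rho1_nonneg η)
      nlinarith
  have := hmono ⟨hs, hst⟩ ⟨hs.trans hst, le_refl t⟩ hst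
  simp only at this
  linarith

/-- the class GS is preserved by mollification -/
private theorem g2_phi_lev {η : V n → ℝ} (hη : ContDiff ℝ (⊤ : ℕ∞) η) {ε : ℝ} (hε : 0 < ε)
    (A : Lin n) (z : V n) : DA A (fun y => Phi η y ε) z = Phi (DA A η) z ε := by
  have h2 : ContDiffOn ℝ 2 η univ := (hη.of_le g2_two_le).contDiffOn
  have hz : ∀ η' : V n, ‖η'‖ ≤ 1 → z + (sc ε : Lin n) η' ∈ (univ : Set (V n)) := fun _ _ => mem_univ _
  unfold DA
  have e1 : ∀ l : Fin n, lev (fun y => Phi η y ε) z (A (e l)) =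
      ∫ η', rho η' * lev η (z + (sc ε : Lin n) η') (A (e l)) := by
    intro l
    exact lev_M (sc ε) isOpen_univ h2 hz _
  simp only [e1]
  rw [← integral_finsetSum]
  · unfold Phi M
    congr 1
    funext η'
    rw [Finset.mul_sum]
  · intro l _
    exact (integrable_rho_mul (g2_det hε) isOpen_univ
      (g2_ae_int isOpen_univ (continuousOn_lev isOpen_univ h2 _)) hz).1

private theorem g2_tsupport_DA (η : V n → ℝ) (A : Lin n) : tsupport (DA A η) ⊆ tsupport η := by
  refine closure_minimal ?_ (isClosed_tsupport η)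
  intro z hz
  by_contra hno
  apply hz
  have h0 : η =ᶠ[𝓝 z] fun _ => (0 : ℝ) := notMem_tsupport_iff_eventuallyEq.1 hno
  unfold DA
  refine Finset.sum_eq_zero fun l _ => ?_
  rw [lev_congr h0, lev_const]

private theorem g2_tst {ε : ℝ} (hε : 0 < ε) {η : V n → ℝ} (h : Tst (shr Ω ε) η) :
    Tst Ω (fun z => Phi η z ε) := by
  have hsub : tsupport (fun z => Phi η z ε) ⊆ Metric.cthickening ε (tsupport η) := by
    refine closure_minimal ?_ Metric.isClosed_cthickening
    intro z hz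
    by_contra hno
    apply hz
    show ∫ η' : V n, rho η' * η (z + (sc ε : Lin n) η') = 0
    have : ∀ η' : V n, rho η' * η (z + (sc ε : Lin n) η') = 0 := by
      intro η'
      rcases le_or_gt 1 ‖η'‖ with h1 | h1
      · rw [rho_eq_zero h1, zero_mul]
      · have : η (z + (sc ε : Lin n) η') = 0 := by
          by_contra hne
          apply hno
          refine Metric.mem_cthickening_of_dist_le z _ ε (tsupport η) (subset_tsupport _ hne) ?_
          rw [dist_self_add_right, sc_apply, norm_smul, Complex.norm_real, Real.norm_eq_abs, abs_of_pos hε]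
          nlinarith [norm_nonneg η']
        rw [this, mul_zero]
    simp only [this, integral_zero]
  refine ⟨?_, ?_, ?_, ?_⟩
  · have := contDiffOn_M_of_contDiffOn (sc ε : Lin n) isOpen_univ (k := ⊤) h.smooth.contDiffOn
    exact contDiffOn_univ.1 (this.mono fun z _ => fun _ _ => mem_univ _)
  · exact IsCompact.of_isClosed_subset h.cpt.cthickening (isClosed_tsupport _) hsub
  · refine hsub.trans ?_
    rw [h.cpt.isCompact.cthickening_eq_biUnion_closedBall hε.le]
    exact iUnion₂_subset fun x hx => h.sub hx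
  · intro z
    exact integral_nonneg fun η' => mul_nonneg (rho_nonneg _) (h.nonneg _)

private theorem g2_gs (hΩ : IsOpen Ω) (h : GS Ω F u) {ε : ℝ} (hε : 0 < ε) :
    GS (shr Ω ε) (fun y => Phi F y ε) (fun y => Phi u y ε) := by
  refine ⟨g2_ae_int (isOpen_shr hΩ ε) (contDiffOn_Phi_left hΩ h.int hε).continuousOn,
    g2_ae_int (isOpen_shr hΩ ε) (contDiffOn_Phi_left hΩ h.intF hε).continuousOn, ?_, ?_⟩
  · intro z hz
    refine integral_nonneg fun η' => ?_
    rcases le_or_gt 1 ‖η'‖ with h1 | h1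
    · show 0 ≤ rho η' * F (z + (sc ε : Lin n) η')
      rw [rho_eq_zero h1, zero_mul]
    · exact mul_nonneg (rho_nonneg _) (h.nonneg _ ((mem_shr_iff hε.le).1 hz η' h1.le))
  · intro A η hη
    have h1 := integral_mul_Phi hΩ h.intF hη.smooth.continuous hη.cpt hε hη.sub
    have hc : Continuous (DA A η) := by
      have := g2_DA_cont isOpen_univ (hη.smooth.of_le g2_two_le).contDiffOn A
      exact continuousOn_univ.1 this
    have h2 := integral_mul_Phi hΩ h.int hc
      (IsCompact.of_isClosed_subset hη.cpt (isClosed_tsupport _) (g2_tsupport_DA η A)) hε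
      ((g2_tsupport_DA η A).trans hη.sub)
    rw [← h1, ← h2]
    have h3 := h.ineq A _ (g2_tst hε hη)
    simp only [g2_phi_lev hη.smooth hε] at h3
    exact h3

/-- (2.3) -/
theorem GS.mollify (hΩ : IsOpen Ω) (h : GS Ω F u) {ε : ℝ} (hε : 0 < ε) {z : V n}
    (hz : z ∈ shr Ω ε) : GP (lev (fun y => Phi u y ε) z) (Phi F z ε) :=
  GS.GP_of_smooth (isOpen_shr hΩ ε) ((contDiffOn_Phi_left hΩ h.int hε).of_le g2_two_le)
    (contDiffOn_Phi_left hΩ h.intF hε).continuousOn (g2_gs hΩ h hε) z hz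

private theorem g2_cda (hΩ : IsOpen Ω) {q : V n → ℝ} (hq : ContDiffOn ℝ (⊤ : ℕ∞) q Ω) {z : V n}
    (hz : z ∈ Ω) : ContDiffAt ℝ 2 q z := ((hq.of_le g2_two_le).contDiffAt (hΩ.mem_nhds hz))

theorem PSHd.mollify (hΩ : IsOpen Ω) (h : PSHd Ω u) {ε : ℝ} (hε : 0 < ε) :
    SPsh (shr Ω ε) fun y => Phi u y ε := by
  refine ⟨contDiffOn_Phi_left hΩ h.int hε, ?_⟩
  intro z hz w
  have hc := g2_cda (isOpen_shr hΩ ε) (contDiffOn_Phi_left hΩ h.int hε) hz
  rcases Nat.eq_zero_or_pos n with hn | hn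
  · subst hn
    rw [Subsingleton.elim w 0]
    unfold lev D2
    simp
  · have h1 := GS.mollify hΩ h hε hz
    rw [Phi_const] at h1
    rw [lev_eq_lf hc]
    refine GP.nonneg hn (le_refl 0) (H := hess (fun y => Phi u y ε) z) ?_ w
    have : (lev (fun y => Phi u y ε) z) = lf (hess (fun y => Phi u y ε) z) := by
      funext w'
      exact lev_eq_lf hc w'
    rw [← this]
    exact h1

theorem tendsto_Phi_mollify (hΩ : IsOpen Ω) (hu : LocallyIntegrableOn u Ω volume) {t : ℝ}
    (ht : 0 < t) {z : V n} (hz : z ∈ shr Ω t) :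
    Tendsto (fun ε => Phi (fun y => Phi u y ε) z t) (𝓝[>] 0) (𝓝 (Phi u z t)) := by
  have hg : ContDiffOn ℝ ((0 : ℕ∞) : WithTop ℕ∞) (fun y => Phi u y t) (shr Ω t) :=
    (contDiffOn_Phi_left hΩ hu ht).of_le (by exact_mod_cast (zero_le : (0 : ℕ∞) ≤ ⊤))
  have hO : IsOpen (shr Ω t) := isOpen_shr hΩ t
  have hj := (contDiffOn_M_joint (1 : Lin n) hO hg).continuousOn
  have hmem : (z, (0 : ℝ)) ∈ {p : V n × ℝ | ∀ η : V n, ‖η‖ ≤ 1 → p.1 + ((p.2 : ℂ) • (1 : Lin n)) η ∈ shr Ω t} := by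
    intro η _
    simpa using hz
  have hc := hj.continuousAt ((isOpen_ell (1 : Lin n) hO).mem_nhds hmem)
  have hc2 : ContinuousAt (fun ε : ℝ => Phi (fun y => Phi u y t) z ε) 0 := by
    have h3 : ContinuousAt (fun ε : ℝ => (z, ε)) 0 := by fun_prop
    exact ContinuousAt.comp (g := fun p : V n × ℝ => M ((p.2 : ℂ) • (1 : Lin n)) (fun y => Phi u y t) p.1)
      (f := fun ε : ℝ => (z, ε)) hc h3
  have hc3 : Tendsto (fun ε : ℝ => Phi (fun y => Phi u y t) z ε) (𝓝[>] 0) (𝓝 (Phi u z t)) := by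
    have := hc2.tendsto
    rw [Phi_zero] at this
    exact this.mono_left nhdsWithin_le_nhds
  refine hc3.congr' ?_
  filter_upwards [g2_ev hΩ ht.le hz, self_mem_nhdsWithin] with ε h1 h2
  exact (Phi_Phi_comm hΩ hu h2 ht h1).symm

private theorem g2_DA_nonneg (h : SPsh Ω u) {z : V n} (hz : z ∈ Ω) (A : Lin n) : 0 ≤ DA A u z :=
  Finset.sum_nonneg fun _ _ => h.psh z hz _

private theorem g2_mono (hΩ : IsOpen Ω) (h : SPsh Ω u) {s t : ℝ} (hs : 0 ≤ s) (hst : s ≤ t)
    {z : V n} (hz : z ∈ shr Ω t) : Phi u z s ≤ Phi u z t := by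
  have := g2_growth hΩ (h.smooth.of_le g2_two_le) (κ := 0) (fun z hz => g2_DA_nonneg h hz 1) hs hst hz
  linarith

/-- (2.4) -/
theorem Phi_mono_radius (hΩ : IsOpen Ω) (h : PSHd Ω u) {s t : ℝ} (hs : 0 < s) (hst : s ≤ t)
    {z : V n} (hz : z ∈ shr Ω t) : Phi u z s ≤ Phi u z t := by
  refine le_of_tendsto_of_tendsto (tendsto_Phi_mollify hΩ h.int hs (g2_shr_mono hst hz))
    (tendsto_Phi_mollify hΩ h.int (hs.trans_le hst) hz) ?_
  filter_upwards [g2_ev hΩ (hs.le.trans hst) hz, self_mem_nhdsWithin] with ε h1 h2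
  exact g2_mono (isOpen_shr hΩ ε) (PSHd.mollify hΩ h h2) hs.le hst (g2_shr_shr h1)

theorem le_Phi (hΩ : IsOpen Ω) (h : PSHd Ω u) :
    ∀ᵐ z, z ∈ Ω → ∀ t, 0 < t → z ∈ shr Ω t → u z ≤ Phi u z t := by
  filter_upwards [ae_tendsto_Phi hΩ h.int] with z hz hzΩ t ht hzt
  refine le_of_tendsto (hz hzΩ) ?_
  filter_upwards [Ioo_mem_nhdsGT ht] with s hs
  exact Phi_mono_radius hΩ h hs.1 hs.2.le hzt

/-- smooth case, everywhere -/
theorem SPsh.le_Phi (hΩ : IsOpen Ω) (h : SPsh Ω u) {t : ℝ} (ht : 0 ≤ t) {z : V n}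
    (hz : z ∈ shr Ω t) : u z ≤ Phi u z t := by
  have := g2_mono hΩ h (le_refl 0) ht hz
  rwa [Phi_zero] at this

private theorem g2_int_cl (ψ : V n → ℝ) :
    ∫ η, rho η * ψ η = ∫ η in Metric.closedBall 0 1, rho η * ψ η := by
  refine (setIntegral_eq_integral_of_forall_compl_eq_zero fun η hη => ?_).symm
  have : 1 ≤ ‖η‖ := by
    simp only [Metric.mem_closedBall, dist_zero_right, not_le] at hη
    exact hη.le
  rw [rho_eq_zero this, zero_mul]

private theorem g2_intg {ψ : V n → ℝ} (hψ : ContinuousOn ψ (Metric.closedBall 0 1)) :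
    Integrable fun η => rho η * ψ η := by
  have h1 : IntegrableOn (fun η => rho η * ψ η) (Metric.closedBall 0 1) :=
    ContinuousOn.integrableOn_compact (isCompact_closedBall _ _)
      (rho_contDiff.continuous.continuousOn.mul hψ)
  rw [integrableOn_iff_integrable_of_support_subset] at h1
  · exact h1
  · intro η hη
    by_contra hno
    apply hη
    have : 1 ≤ ‖η‖ := by
      simp only [Metric.mem_closedBall, dist_zero_right, not_le] at hno
      exact hno.le
    show rho η * ψ η = 0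
    rw [rho_eq_zero this, zero_mul]

private theorem g2_deriv_int {φ φ' : ℝ → V n → ℝ} {s₀ r : ℝ} (hr : 0 < r)
    (h0 : ∀ s ∈ Metric.ball s₀ r, ContinuousOn (φ s) (Metric.closedBall 0 1))
    (h1 : ContinuousOn (fun p : ℝ × V n => φ' p.1 p.2)
      (Metric.closedBall s₀ r ×ˢ Metric.closedBall 0 1))
    (hd : ∀ s ∈ Metric.ball s₀ r, ∀ η ∈ Metric.closedBall (0 : V n) 1,
      HasDerivAt (fun s => φ s η) (φ' s η) s) :
    HasDerivAt (fun s => ∫ η, rho η * φ s η) (∫ η, rho η * φ' s₀ η) s₀ := by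
  have hcpt : IsCompact (Metric.closedBall s₀ r ×ˢ Metric.closedBall (0 : V n) 1) :=
    (isCompact_closedBall _ _).prod (isCompact_closedBall _ _)
  obtain ⟨C, hC⟩ := hcpt.exists_bound_of_continuousOn h1
  have e1 : (fun s => ∫ η, rho η * φ s η) =
      fun s => ∫ η in Metric.closedBall 0 1, rho η * φ s η := funext fun s => g2_int_cl _
  rw [e1, g2_int_cl]
  have h1' : ContinuousOn (φ' s₀) (Metric.closedBall 0 1) := by
    have : ContinuousOn (fun η : V n => (s₀, η)) (Metric.closedBall 0 1) := by fun_prop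
    exact h1.comp this fun η hη => ⟨Metric.mem_closedBall_self hr.le, hη⟩
  have hm : MeasurableSet (Metric.closedBall (0 : V n) 1) := Metric.isClosed_closedBall.measurableSet
  refine (hasDerivAt_integral_of_dominated_loc_of_deriv_le (Metric.ball_mem_nhds s₀ hr)
    (F := fun s η => rho η * φ s η) (F' := fun s η => rho η * φ' s η)
    (bound := fun η => rho η * C) ?_ ?_ ?_ ?_ ?_ ?_).2
  · filter_upwards [Metric.ball_mem_nhds s₀ hr] with s hs
    exact (g2_intg (h0 s hs)).aestronglyMeasurable.restrict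
  · exact (g2_intg (h0 s₀ (Metric.mem_ball_self hr))).integrableOn
  · exact (g2_intg h1').aestronglyMeasurable.restrict
  · rw [ae_restrict_iff' hm]
    refine Eventually.of_forall fun η hη s hs => ?_
    rw [norm_mul, Real.norm_of_nonneg (rho_nonneg η)]
    exact mul_le_mul_of_nonneg_left (hC (s, η) ⟨Metric.ball_subset_closedBall hs, hη⟩) (rho_nonneg η)
  · exact (rho_integrable.mul_const C).integrableOn
  · rw [ae_restrict_iff' hm]
    exact Eventually.of_forall fun η hη s hs => (hd s hs η hη).const_mul _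

private theorem g2_hd_exp (κ a : ℂ) (s : ℝ) :
    HasDerivAt (fun s : ℝ => Complex.exp (κ * s + a)) (κ * Complex.exp (κ * s + a)) s := by
  have h1 : HasDerivAt (fun s : ℝ => κ * (s : ℂ) + a) κ s := by
    have := ((hasDerivAt_id s).ofReal_comp.const_mul κ).add_const a
    simpa using this
  have := h1.cexp
  rwa [mul_comm] at this

private theorem g2_curve (hΩ : IsOpen Ω) {q : V n → ℝ} (hq : ContDiffOn ℝ 2 q Ω) (z : V n)
    (κ a : ℂ) {s₀ r : ℝ} (hr : 0 < r)
    (hm : ∀ s ∈ Metric.closedBall s₀ r, ∀ η : V n, ‖η‖ ≤ 1 →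
      z + Complex.exp (κ * s + a) • η ∈ Ω) :
    HasDerivAt (fun s : ℝ => ∫ η, rho η * q (z + Complex.exp (κ * s + a) • η))
      (∫ η, rho η * fderiv ℝ q (z + Complex.exp (κ * s₀ + a) • η)
        ((κ * Complex.exp (κ * s₀ + a)) • η)) s₀ ∧
    HasDerivAt (fun s : ℝ => ∫ η, rho η * fderiv ℝ q (z + Complex.exp (κ * s + a) • η)
        ((κ * Complex.exp (κ * s + a)) • η))
      (∫ η, rho η * (D2 q (z + Complex.exp (κ * s₀ + a) • η)
        ((κ * Complex.exp (κ * s₀ + a)) • η) ((κ * Complex.exp (κ * s₀ + a)) • η) +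
          fderiv ℝ q (z + Complex.exp (κ * s₀ + a) • η)
            ((κ * (κ * Complex.exp (κ * s₀ + a))) • η))) s₀ ∧
    ContinuousOn (fun η => D2 q (z + Complex.exp (κ * s₀ + a) • η)
        ((κ * Complex.exp (κ * s₀ + a)) • η) ((κ * Complex.exp (κ * s₀ + a)) • η) +
          fderiv ℝ q (z + Complex.exp (κ * s₀ + a) • η)
            ((κ * (κ * Complex.exp (κ * s₀ + a))) • η)) (Metric.closedBall 0 1) := by
  have hp : Continuous fun p : ℝ × V n => z + Complex.exp (κ * p.1 + a) • p.2 := by fun_prop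
  have hpm : MapsTo (fun p : ℝ × V n => z + Complex.exp (κ * p.1 + a) • p.2)
      (Metric.closedBall s₀ r ×ˢ Metric.closedBall (0 : V n) 1) Ω := by
    rintro ⟨s, η⟩ ⟨h1, h2⟩
    exact hm s h1 η (by simpa using h2)
  have hf1 : ContDiffOn ℝ 1 (fderiv ℝ q) Ω := hq.fderiv_of_isOpen hΩ (by norm_num)
  have c0 : ContinuousOn (fun p : ℝ × V n => q (z + Complex.exp (κ * p.1 + a) • p.2))
      (Metric.closedBall s₀ r ×ˢ Metric.closedBall 0 1) := hq.continuousOn.comp hp.continuousOn hpm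
  have c1 : ContinuousOn (fun p : ℝ × V n => fderiv ℝ q (z + Complex.exp (κ * p.1 + a) • p.2))
      (Metric.closedBall s₀ r ×ˢ Metric.closedBall 0 1) := hf1.continuousOn.comp hp.continuousOn hpm
  have c2 : ContinuousOn (fun p : ℝ × V n =>
      fderiv ℝ (fderiv ℝ q) (z + Complex.exp (κ * p.1 + a) • p.2))
      (Metric.closedBall s₀ r ×ˢ Metric.closedBall 0 1) :=
    (hf1.continuousOn_fderiv_of_isOpen hΩ (by norm_num)).comp hp.continuousOn hpm
  have cd1 : ContinuousOn (fun p : ℝ × V n => fderiv ℝ q (z + Complex.exp (κ * p.1 + a) • p.2)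
      ((κ * Complex.exp (κ * p.1 + a)) • p.2)) (Metric.closedBall s₀ r ×ˢ Metric.closedBall 0 1) :=
    c1.clm_apply (by fun_prop)
  have cd2 : ContinuousOn (fun p : ℝ × V n => D2 q (z + Complex.exp (κ * p.1 + a) • p.2)
        ((κ * Complex.exp (κ * p.1 + a)) • p.2) ((κ * Complex.exp (κ * p.1 + a)) • p.2) +
          fderiv ℝ q (z + Complex.exp (κ * p.1 + a) • p.2)
            ((κ * (κ * Complex.exp (κ * p.1 + a))) • p.2))
      (Metric.closedBall s₀ r ×ˢ Metric.closedBall 0 1) := by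
    unfold D2
    exact ((c2.clm_apply (by fun_prop)).clm_apply (by fun_prop)).add (c1.clm_apply (by fun_prop))
  have slice : ∀ {f : ℝ × V n → ℝ}, ContinuousOn f (Metric.closedBall s₀ r ×ˢ Metric.closedBall 0 1) →
      ∀ s ∈ Metric.closedBall s₀ r, ContinuousOn (fun η => f (s, η)) (Metric.closedBall 0 1) := by
    intro f hf s hs
    have : ContinuousOn (fun η : V n => (s, η)) (Metric.closedBall 0 1) := by fun_prop
    exact hf.comp this fun η hη => ⟨hs, hη⟩
  have hpd : ∀ (s : ℝ) (η : V n), HasDerivAt (fun s : ℝ => z + Complex.exp (κ * s + a) • η)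
      ((κ * Complex.exp (κ * s + a)) • η) s := fun s η =>
    ((g2_hd_exp κ a s).smul_const η).const_add z
  have hqd : ∀ s ∈ Metric.closedBall s₀ r, ∀ η ∈ Metric.closedBall (0 : V n) 1,
      HasFDerivAt q (fderiv ℝ q (z + Complex.exp (κ * s + a) • η)) (z + Complex.exp (κ * s + a) • η) := by
    intro s hs η hη
    have hmem := hpm (show (s, η) ∈ _ from ⟨hs, hη⟩)
    exact ((hq.contDiffAt (hΩ.mem_nhds hmem)).differentiableAt (by norm_num)).hasFDerivAt
  have hqd1 : ∀ s ∈ Metric.closedBall s₀ r, ∀ η ∈ Metric.closedBall (0 : V n) 1,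
      HasFDerivAt (fderiv ℝ q) (fderiv ℝ (fderiv ℝ q) (z + Complex.exp (κ * s + a) • η))
        (z + Complex.exp (κ * s + a) • η) := by
    intro s hs η hη
    have hmem := hpm (show (s, η) ∈ _ from ⟨hs, hη⟩)
    exact ((hf1.contDiffAt (hΩ.mem_nhds hmem)).differentiableAt (by norm_num)).hasFDerivAt
  refine ⟨?_, ?_, slice cd2 s₀ (Metric.mem_closedBall_self hr.le)⟩
  · refine g2_deriv_int hr (φ := fun s η => q (z + Complex.exp (κ * s + a) • η))
      (φ' := fun s η => fderiv ℝ q (z + Complex.exp (κ * s + a) • η)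
        ((κ * Complex.exp (κ * s + a)) • η)) ?_ cd1 ?_
    · exact fun s hs => slice c0 s (Metric.ball_subset_closedBall hs)
    · intro s hs η hη
      exact (hqd s (Metric.ball_subset_closedBall hs) η hη).comp_hasDerivAt s (hpd s η)
  · refine g2_deriv_int hr (φ := fun s η => fderiv ℝ q (z + Complex.exp (κ * s + a) • η)
        ((κ * Complex.exp (κ * s + a)) • η))
      (φ' := fun s η => D2 q (z + Complex.exp (κ * s + a) • η)
        ((κ * Complex.exp (κ * s + a)) • η) ((κ * Complex.exp (κ * s + a)) • η) +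
          fderiv ℝ q (z + Complex.exp (κ * s + a) • η)
            ((κ * (κ * Complex.exp (κ * s + a))) • η)) ?_ cd2 ?_
    · exact fun s hs => slice cd1 s (Metric.ball_subset_closedBall hs)
    · intro s hs η hη
      have k1 := (hqd1 s (Metric.ball_subset_closedBall hs) η hη).comp_hasDerivAt s (hpd s η)
      have k2 : HasDerivAt (fun s : ℝ => (κ * Complex.exp (κ * s + a)) • η)
          ((κ * (κ * Complex.exp (κ * s + a))) • η) s :=
        ((g2_hd_exp κ a s).const_mul κ).smul_const η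
      exact k1.clm_apply k2

/-- the smooth case of the convexity -/
private theorem g2_convex (hΩ : IsOpen Ω) {q : V n → ℝ} (h : SPsh Ω q) (z : V n) {b : ℝ}
    (hz : z ∈ shr Ω (Real.exp b)) : ConvexOn ℝ (Iic b) fun x => Phi q z (Real.exp x) := by
  have hq : ContDiffOn ℝ 2 q Ω := h.smooth.of_le g2_two_le
  have hmem : ∀ w : ℂ, w.re ≤ b → ∀ η : V n, ‖η‖ ≤ 1 → z + Complex.exp w • η ∈ Ω := by
    intro w hw η hη
    apply hz
    rw [Metric.mem_closedBall, dist_self_add_left, norm_smul, Complex.norm_exp]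
    calc Real.exp w.re * ‖η‖ ≤ Real.exp b * 1 :=
          mul_le_mul (Real.exp_le_exp.2 hw) hη (norm_nonneg _) (Real.exp_pos _).le
      _ = Real.exp b := mul_one _
  have hK : ∀ w : ℂ, ∫ η, rho η * q (z + Complex.exp w • η) = Phi q z (Real.exp w.re) := by
    intro w
    rw [← Complex.norm_exp, ← M_radial]
    unfold M
    simp
  have hd0 : ∀ x : ℝ, x < b → ∀ κ a : ℂ, |κ.re| ≤ 1 → ∀ s₀ : ℝ, (κ * s₀ + a).re = x →
      _ := fun x hx κ a hκ s₀ hs₀ =>
    g2_curve hΩ hq z κ a (s₀ := s₀) (r := b - x) (by linarith) (by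
      intro s hs η hη
      refine hmem _ ?_ η hη
      rw [Metric.mem_closedBall, Real.dist_eq] at hs
      have e1 : (κ * s + a).re = x + κ.re * (s - s₀) := by
        rw [← hs₀]
        simp
        ring
      rw [e1]
      have e2 : κ.re * (s - s₀) ≤ |κ.re| * |s - s₀| := by
        rw [← abs_mul]; exact le_abs_self _
      have e3 : |κ.re| * |s - s₀| ≤ 1 * (b - x) := mul_le_mul hκ hs (abs_nonneg _) zero_le_one
      linarith)
  have hint : interior (Iic b) = Iio b := interior_Iic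
  have hf0 : ∀ x : ℝ, Phi q z (Real.exp x) = ∫ η, rho η * q (z + Complex.exp (1 * (x : ℂ) + 0) • η) := by
    intro x
    rw [hK]
    simp
  refine convexOn_of_hasDerivWithinAt2_nonneg (convex_Iic b)
    (f' := fun x : ℝ => ∫ η, rho η * fderiv ℝ q (z + Complex.exp (1 * (x : ℂ) + 0) • η)
        ((1 * Complex.exp (1 * (x : ℂ) + 0)) • η))
    (f'' := fun x : ℝ => ∫ η, rho η * (D2 q (z + Complex.exp (1 * (x : ℂ) + 0) • η)
        ((1 * Complex.exp (1 * (x : ℂ) + 0)) • η) ((1 * Complex.exp (1 * (x : ℂ) + 0)) • η) +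
          fderiv ℝ q (z + Complex.exp (1 * (x : ℂ) + 0) • η)
            ((1 * (1 * Complex.exp (1 * (x : ℂ) + 0))) • η))) ?_ ?_ ?_ ?_
  · -- continuity up to the boundary
    intro x hx
    have h1 := (hasDerivAt_Phi hΩ hq (Real.exp_pos x).le
      (g2_shr_mono (Real.exp_le_exp.2 hx) hz)).continuousAt
    exact (ContinuousAt.comp (g := fun s : ℝ => Phi q z s) (f := Real.exp) h1
      Real.continuous_exp.continuousAt).continuousWithinAt
  · intro x hx
    rw [hint] at hx ⊢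
    have := (hd0 x hx 1 0 (by simp) x (by simp)).1
    rw [← show (fun x : ℝ => Phi q z (Real.exp x)) = _ from funext hf0] at this
    exact this.hasDerivWithinAt
  · intro x hx
    rw [hint] at hx ⊢
    exact (hd0 x hx 1 0 (by simp) x (by simp)).2.1.hasDerivWithinAt
  · intro x hx
    rw [hint] at hx
    have g1 : ∀ θ : ℝ, ∫ η, rho η * fderiv ℝ q (z + Complex.exp (Complex.I * (θ : ℂ) + x) • η)
        ((Complex.I * Complex.exp (Complex.I * (θ : ℂ) + x)) • η) = 0 := by
      intro θ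
      have h1 := (hd0 x hx Complex.I x (by simp) θ (by simp)).1
      have h2 : (fun s : ℝ => ∫ η, rho η * q (z + Complex.exp (Complex.I * (s : ℂ) + x) • η)) =
          fun _ => Phi q z (Real.exp x) := by
        funext s
        rw [hK]
        simp
      rw [h2] at h1
      exact h1.unique (hasDerivAt_const _ _)
    have g2 := (hd0 x hx Complex.I x (by simp) 0 (by simp)).2
    have g3 := (hd0 x hx 1 0 (by simp) x (by simp)).2.2
    obtain ⟨g21, g22⟩ := g2
    rw [show (fun s : ℝ => ∫ η, rho η * fderiv ℝ q (z + Complex.exp (Complex.I * (s : ℂ) + x) • η)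
        ((Complex.I * Complex.exp (Complex.I * (s : ℂ) + x)) • η)) = fun _ => 0 from funext g1] at g21
    have g4 := g21.unique (hasDerivAt_const _ _)
    have g5 := integral_add (g2_intg g3) (g2_intg g22)
    refine le_of_le_of_eq ?_ (g5.trans ((congrArg (fun t : ℝ => _ + t) g4).trans (add_zero _)))
    refine integral_nonneg fun η => ?_
    show 0 ≤ rho η * _ + rho η * _
    rw [← mul_add]
    rcases le_or_gt 1 ‖η‖ with h1 | h1
    · rw [rho_eq_zero h1, zero_mul]
    · refine mul_nonneg (rho_nonneg η) ?_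
      have hl := h.psh (z + Complex.exp x • η) (hmem x (by simpa using hx.le) η h1.le)
        (Complex.exp x • η)
      unfold lev at hl
      have e1 : (1 * (x : ℂ) + 0) = x := by ring
      have e2 : (Complex.I * ((0 : ℝ) : ℂ) + x) = x := by simp
      have e3 : ((Complex.I * (Complex.I * Complex.exp x)) • η : V n) = -((Complex.exp x) • η) := by
        rw [← mul_assoc, Complex.I_mul_I, neg_one_mul, neg_smul]
      rw [e1, e2, e3, one_mul, one_mul, map_neg, mul_smul]
      linarith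

/-- convexity in `log t` -/
theorem convexOn_Phi (hΩ : IsOpen Ω) (h : PSHd Ω u) (z : V n) {b : ℝ}
    (hz : z ∈ shr Ω (Real.exp b)) : ConvexOn ℝ (Iic b) fun x => Phi u z (Real.exp x) := by
  refine ⟨convex_Iic b, ?_⟩
  intro x hx y hy s t hs ht hst
  have hx' : z ∈ shr Ω (Real.exp x) := g2_shr_mono (Real.exp_le_exp.2 hx) hz
  have hy' : z ∈ shr Ω (Real.exp y) := g2_shr_mono (Real.exp_le_exp.2 hy) hz
  have hxy : z ∈ shr Ω (Real.exp (s • x + t • y)) :=
    g2_shr_mono (Real.exp_le_exp.2 (convex_Iic b hx hy hs ht hst)) hz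
  have l1 := tendsto_Phi_mollify hΩ h.int (Real.exp_pos _) hxy
  have l2 := ((tendsto_Phi_mollify hΩ h.int (Real.exp_pos _) hx').const_mul s).add
      ((tendsto_Phi_mollify hΩ h.int (Real.exp_pos _) hy').const_mul t)
  refine le_of_tendsto_of_tendsto l1 l2 ?_
  filter_upwards [g2_ev hΩ (Real.exp_pos b).le hz, self_mem_nhdsWithin] with ε h1 h2
  exact (g2_convex (isOpen_shr hΩ ε) (PSHd.mollify hΩ h h2) z (g2_shr_shr h1)).2 hx hy hs ht hst

/-- `Φ_{Φ_u(·,ε)}(z,t)` decreases to `Φ_u(z,t)` as `ε → 0` -/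
theorem Phi_mollify_ge (hΩ : IsOpen Ω) (h : PSHd Ω u) {ε t : ℝ} (hε : 0 < ε) (ht : 0 < t)
    {z : V n} (hz : z ∈ shr Ω (ε + t)) : Phi u z t ≤ Phi (fun y => Phi u y ε) z t := by
  rw [Phi_Phi_comm hΩ h.int hε ht hz]
  rw [add_comm] at hz
  exact SPsh.le_Phi (isOpen_shr hΩ t) (PSHd.mollify hΩ h ht) hε.le (g2_shr_shr hz)

/-- lower bound for the growth of the means: `u ∈ GS(F₀)`, `F₀` constant -/
theorem Phi_growth (hn : 0 < n) (hΩ : IsOpen Ω) {F₀ : ℝ} (h : GS Ω (fun _ => F₀) u) {s t : ℝ}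
    (hs : 0 < s) (hst : s ≤ t) {z : V n} (hz : z ∈ shr Ω t) :
    n * aa n * F₀ * (t ^ 2 - s ^ 2) ≤ Phi u z t - Phi u z s := by
  refine ge_of_tendsto ((tendsto_Phi_mollify hΩ h.int (hs.trans_le hst) hz).sub
    (tendsto_Phi_mollify hΩ h.int hs (g2_shr_mono hst hz))) ?_
  filter_upwards [g2_ev hΩ (hs.le.trans hst) hz, self_mem_nhdsWithin] with ε h1 h2
  have h3 := g2_growth (isOpen_shr hΩ ε) ((contDiffOn_Phi_left hΩ h.int h2).of_le g2_two_le) (κ := n * F₀) ?_
    hs.le hst (g2_shr_shr h1)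
  · calc n * aa n * F₀ * (t ^ 2 - s ^ 2) = n * F₀ * aa n * (t ^ 2 - s ^ 2) := by ring
      _ ≤ _ := h3
  · intro y hy
    have := GS.mollify hΩ h h2 hy 1
    rw [Phi_const] at this
    have hd : (1 : Lin n).det = 1 := by
      have := det_sc (n := n) 1
      simpa [sc] using this
    rw [hd, norm_one, Real.one_rpow, mul_one] at this
    exact this

end Pool.Agent.Helper29.AM
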