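import Pool.Agent.Helper29.AM.GS2

/-!
# Block AM-G4: change of coordinates (2.6), variable coefficients (2.7)

`GS.comp`: for smooth `q`, `L_{q∘κ}(z;v) = L_q(κ z; κ'(z) v)` (`lev_comp_holo`), so
`GP(L_q(κz;·),F)` gives `GP(L_{q∘κ}(z;·), |det κ'|^{2/n}F)` (`GP.comp`). In general `u_ε∘κ → u∘κ` in
`L¹_loc` (change of variables, the Jacobian `|det κ'|²` is locally bounded above and below) and
`Φ_F(κ z, ε) → F(κ z)` a.e. along a sequence; `GS.of_smooth`, `GS.limit`.
`GS.variable`: for smooth `q`: `re ∑ P_{kj} q_{j k̄} = s_A(hess q)` for the frame `A` of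
`exists_frame` at the point, `≥ n |det A|^{2/n} F = n (det P)^{1/n}F`. General `u`: mollify.
-/

set_option autoImplicit false

namespace Pool.Agent.Helper29.AM

open MeasureTheory Set Filter Topology
open scoped ComplexOrder

variable {n : ℕ} {Ω Ω' : Set (V n)} {F G u v : V n → ℝ}

section SCV

open Metric

private theorem scv_bd {E F : Type*} [NormedAddCommGroup E] [NormedSpace ℂ E]
    [NormedAddCommGroup F] [NormedSpace ℂ F] {f : E → F} {z : E} {r C : ℝ} (hr : 0 < r)
    (hf : ∀ w ∈ closedBall z r, DifferentiableAt ℂ f w) (hC : ∀ w ∈ closedBall z r, ‖f w‖ ≤ C) :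
    ‖fderiv ℂ f z‖ ≤ C / r := by
  have hC0 : 0 ≤ C := le_trans (norm_nonneg _) (hC z (mem_closedBall_self hr.le))
  refine ContinuousLinearMap.opNorm_le_bound _ (by positivity) fun v => ?_
  by_cases hv : v = 0
  · simp [hv]
  have hv0 : 0 < ‖v‖ := norm_pos_iff.2 hv
  have hR : 0 < r / ‖v‖ := by positivity
  have hmem : ∀ ζ : ℂ, ‖ζ‖ ≤ r / ‖v‖ → z + ζ • v ∈ closedBall z r := by
    intro ζ hζ
    rw [mem_closedBall, dist_eq_norm, add_sub_cancel_left, norm_smul]
    calc ‖ζ‖ * ‖v‖ ≤ r / ‖v‖ * ‖v‖ := by gcongr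
      _ = r := by field_simp
  have hd : ∀ ζ : ℂ, ‖ζ‖ ≤ r / ‖v‖ →
      HasDerivAt (fun ζ : ℂ => f (z + ζ • v)) (fderiv ℂ f (z + ζ • v) v) ζ := by
    intro ζ hζ
    have h1 : HasDerivAt (fun ζ : ℂ => z + ζ • v) v ζ := by
      simpa using ((hasDerivAt_id ζ).smul_const v).const_add z
    exact ((hf _ (hmem ζ hζ)).hasFDerivAt).comp_hasDerivAt ζ h1
  have h2 : ‖deriv (fun ζ : ℂ => f (z + ζ • v)) 0‖ ≤ C / (r / ‖v‖) := by
    apply Complex.norm_deriv_le_of_forall_mem_sphere_norm_le hR
    · apply DifferentiableOn.diffContOnCl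
      rw [closure_ball _ hR.ne']
      intro ζ hζ
      rw [mem_closedBall_zero_iff] at hζ
      exact (hd ζ hζ).differentiableAt.differentiableWithinAt
    · intro ζ hζ
      rw [mem_sphere_zero_iff_norm] at hζ
      exact hC _ (hmem ζ hζ.le)
  rw [(hd 0 (by simpa using hR.le)).deriv, zero_smul, add_zero] at h2
  refine h2.trans (le_of_eq ?_)
  field_simp

private theorem scv_fd {E F : Type*} [NormedAddCommGroup E] [NormedSpace ℂ E]
    [FiniteDimensional ℂ E]
    [NormedAddCommGroup F] [NormedSpace ℂ F] [FiniteDimensional ℂ F] {f : E → F} {Ω : Set E}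
    (hΩ : IsOpen Ω) (hf : DifferentiableOn ℂ f Ω) (v : E) :
    DifferentiableOn ℂ (fun z => fderiv ℂ f z v) Ω := by
  intro z₀ hz₀
  apply DifferentiableAt.differentiableWithinAt
  have : ProperSpace E := FiniteDimensional.proper ℂ E
  have : ProperSpace F := FiniteDimensional.proper ℂ F
  have : CompleteSpace F := FiniteDimensional.complete ℂ F
  have : ProperSpace (E →L[ℂ] F) := FiniteDimensional.proper ℂ (E →L[ℂ] F)
  let _i : MeasurableSpace E := borel E
  have : BorelSpace E := ⟨rfl⟩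
  let _i : MeasurableSpace F := borel F
  have : BorelSpace F := ⟨rfl⟩
  obtain ⟨R, hR, hRΩ⟩ := Metric.nhds_basis_closedBall.mem_iff.1 (hΩ.mem_nhds hz₀)
  have hcont : ContinuousOn f (closedBall z₀ R) := hf.continuousOn.mono hRΩ
  obtain ⟨C, hC⟩ := (isCompact_closedBall z₀ R).exists_bound_of_continuousOn hcont
  have hda : ∀ w ∈ closedBall z₀ R, DifferentiableAt ℂ f w := fun w hw =>
    (hf w (hRΩ hw)).differentiableAt (hΩ.mem_nhds (hRΩ hw))
  -- the radius of the circle
  set ρ : ℝ := R / 3 / (‖v‖ + 1) with hρ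
  have hρ0 : 0 < ρ := by positivity
  have hρv : ρ * ‖v‖ ≤ R / 3 := by
    rw [hρ, div_mul_eq_mul_div, div_le_iff₀ (by positivity)]
    nlinarith [norm_nonneg v]
  have hmem : ∀ z ∈ ball z₀ (R / 3), ∀ ζ : ℂ, ‖ζ‖ ≤ ρ → ∀ w ∈ closedBall (z + ζ • v) (R / 3),
      w ∈ closedBall z₀ R := by
    intro z hz ζ hζ w hw
    rw [mem_ball] at hz
    rw [mem_closedBall] at hw ⊢
    have h1 : dist (z + ζ • v) z ≤ R / 3 := by
      rw [dist_eq_norm, add_sub_cancel_left, norm_smul]
      calc ‖ζ‖ * ‖v‖ ≤ ρ * ‖v‖ := by gcongr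
        _ ≤ R / 3 := hρv
    have h2 := dist_triangle w (z + ζ • v) z₀
    have h3 := dist_triangle (z + ζ • v) z z₀
    linarith
  have hmem0 : ∀ z ∈ ball z₀ (R / 3), ∀ ζ : ℂ, ‖ζ‖ ≤ ρ → z + ζ • v ∈ closedBall z₀ R :=
    fun z hz ζ hζ => hmem z hz ζ hζ _ (mem_closedBall_self (by positivity))
  have hd : ∀ z ∈ ball z₀ (R / 3), ∀ ζ : ℂ, ‖ζ‖ ≤ ρ →
      HasDerivAt (fun ζ : ℂ => f (z + ζ • v)) (fderiv ℂ f (z + ζ • v) v) ζ := by
    intro z hz ζ hζ
    have h1 : HasDerivAt (fun ζ : ℂ => z + ζ • v) v ζ := by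
      simpa using ((hasDerivAt_id ζ).smul_const v).const_add z
    exact ((hda _ (hmem0 z hz ζ hζ)).hasFDerivAt).comp_hasDerivAt ζ h1
  have h2pi : (2 * Real.pi * Complex.I : ℂ) ≠ 0 := by
    simp [Real.pi_ne_zero]
  have hformula : ∀ z ∈ ball z₀ (R / 3), fderiv ℂ f z v =
      (2 * Real.pi * Complex.I : ℂ)⁻¹ • ∮ ζ in C(0, ρ), (1 / (ζ - 0) ^ 2) • f (z + ζ • v) := by
    intro z hz
    have h1 := DifferentiableOn.deriv_eq_smul_circleIntegral (c := (0 : ℂ))
      (f := fun ζ : ℂ => f (z + ζ • v)) hρ0 (by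
        intro ζ hζ
        rw [mem_closedBall_zero_iff] at hζ
        exact (hd z hz ζ hζ).differentiableAt.differentiableWithinAt)
    rw [(hd z hz 0 (by simpa using hρ0.le)).deriv, zero_smul, add_zero] at h1
    rw [h1, smul_smul, inv_mul_cancel₀ h2pi, one_smul]
  have heq : (fun z => fderiv ℂ f z v) =ᶠ[𝓝 z₀] fun z => (2 * Real.pi * Complex.I : ℂ)⁻¹ •
      ∮ ζ in C(0, ρ), (1 / (ζ - 0) ^ 2) • f (z + ζ • v) := by
    filter_upwards [ball_mem_nhds z₀ (by positivity : 0 < R / 3)] with z hz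
    exact hformula z hz
  rw [heq.differentiableAt_iff]
  apply DifferentiableAt.const_smul
  unfold circleIntegral
  have hcm : ∀ θ : ℝ, ‖circleMap (0 : ℂ) ρ θ‖ = ρ := fun θ => by
    rw [norm_circleMap_zero, abs_of_pos hρ0]
  have hcm0 : ∀ θ : ℝ, circleMap (0 : ℂ) ρ θ ≠ 0 := fun θ h => by
    have := hcm θ
    rw [h, norm_zero] at this
    exact hρ0.ne this
  have hcc : Continuous fun θ : ℝ => circleMap (0 : ℂ) ρ θ := continuous_circleMap 0 ρ
  have hk1 : Continuous fun θ : ℝ => deriv (circleMap (0 : ℂ) ρ) θ := by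
    have : (fun θ : ℝ => deriv (circleMap (0 : ℂ) ρ) θ) = fun θ => circleMap 0 ρ θ * Complex.I := by
      funext θ
      rw [deriv_circleMap]
    rw [this]
    exact hcc.mul continuous_const
  have hk2 : Continuous fun θ : ℝ => (1 / (circleMap (0 : ℂ) ρ θ - 0) ^ 2 : ℂ) := by
    simp only [sub_zero]
    exact continuous_const.div (hcc.pow 2) fun θ => pow_ne_zero _ (hcm0 θ)
  have hk1n : ∀ θ : ℝ, ‖deriv (circleMap (0 : ℂ) ρ) θ‖ = ρ := fun θ => by
    rw [deriv_circleMap, norm_mul, hcm, Complex.norm_I, mul_one]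
  have hk2n : ∀ θ : ℝ, ‖(1 / (circleMap (0 : ℂ) ρ θ - 0) ^ 2 : ℂ)‖ = 1 / ρ ^ 2 := fun θ => by
    rw [sub_zero, norm_div, norm_one, norm_pow, hcm]
  have hpt : ∀ z : E, Continuous fun θ : ℝ => z + circleMap (0 : ℂ) ρ θ • v := fun z =>
    continuous_const.add (hcc.smul continuous_const)
  have hfc : ∀ z ∈ ball z₀ (R / 3), Continuous fun θ : ℝ => f (z + circleMap (0 : ℂ) ρ θ • v) :=
    fun z hz => hcont.comp_continuous (hpt z) fun θ => hmem0 z hz _ (hcm θ).le
  have hFc : ∀ z ∈ ball z₀ (R / 3), Continuous fun θ : ℝ => deriv (circleMap (0 : ℂ) ρ) θ •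
      ((1 / (circleMap (0 : ℂ) ρ θ - 0) ^ 2 : ℂ) • f (z + circleMap 0 ρ θ • v)) :=
    fun z hz => hk1.smul (hk2.smul (hfc z hz))
  have hz00 : z₀ ∈ ball z₀ (R / 3) := mem_ball_self (by positivity)
  have key := intervalIntegral.hasFDerivAt_integral_of_dominated_of_fderiv_le (𝕜 := ℂ)
    (μ := volume) (a := 0) (b := 2 * Real.pi)
    (F := fun (z : E) (θ : ℝ) => deriv (circleMap 0 ρ) θ • ((1 / (circleMap 0 ρ θ - 0) ^ 2 : ℂ) •
      f (z + circleMap 0 ρ θ • v)))
    (F' := fun (z : E) (θ : ℝ) => deriv (circleMap 0 ρ) θ • ((1 / (circleMap 0 ρ θ - 0) ^ 2 : ℂ) •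
      fderiv ℂ f (z + circleMap 0 ρ θ • v)))
    (x₀ := z₀) (s := ball z₀ (R / 3)) (bound := fun _ => ρ * (1 / ρ ^ 2 * (C / (R / 3))))
    (ball_mem_nhds z₀ (by positivity)) ?_ ?_ ?_ ?_ ?_ ?_
  · exact key.differentiableAt
  · filter_upwards [ball_mem_nhds z₀ (by positivity : 0 < R / 3)] with z hz
    exact (hFc z hz).aestronglyMeasurable
  · exact (hFc z₀ hz00).intervalIntegrable _ _
  · have hm : Measurable fun θ : ℝ => fderiv ℂ f (z₀ + circleMap 0 ρ θ • v) :=
      (measurable_fderiv ℂ f).comp (hpt z₀).measurable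
    exact (hk1.aestronglyMeasurable.smul (hk2.aestronglyMeasurable.smul
      hm.aestronglyMeasurable))
  · refine Eventually.of_forall fun θ _ z hz => ?_
    rw [norm_smul, norm_smul, hk1n, hk2n]
    gcongr
    apply scv_bd (by positivity : 0 < R / 3)
    · intro w hw
      exact hda w (hmem z hz _ (hcm θ).le w hw)
    · intro w hw
      exact hC w (hmem z hz _ (hcm θ).le w hw)
  · exact intervalIntegrable_const
  · refine Eventually.of_forall fun θ _ z hz => ?_
    have h1 : HasFDerivAt (fun z : E => z + circleMap 0 ρ θ • v) (ContinuousLinearMap.id ℂ E) z :=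
      (hasFDerivAt_id z).add_const _
    have h2 := ((hda _ (hmem0 z hz _ (hcm θ).le)).hasFDerivAt).comp z h1
    rw [ContinuousLinearMap.comp_id] at h2
    exact (h2.const_smul _).const_smul _

private theorem scv_cd {E F : Type*} [NormedAddCommGroup E] [NormedSpace ℂ E]
    [FiniteDimensional ℂ E]
    [NormedAddCommGroup F] [NormedSpace ℂ F] [FiniteDimensional ℂ F] {Ω : Set E}
    (hΩ : IsOpen Ω) (m : ℕ) : ∀ {f : E → F}, DifferentiableOn ℂ f Ω → ContDiffOn ℂ m f Ω := by
  induction m with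
  | zero =>
    intro f hf
    rw [Nat.cast_zero, contDiffOn_zero]
    exact hf.continuousOn
  | succ m ih =>
    intro f hf
    have h1 : ((m + 1 : ℕ) : WithTop ℕ∞) = (m : WithTop ℕ∞) + 1 := by push_cast; rfl
    rw [h1, contDiffOn_succ_iff_fderiv_of_isOpen hΩ]
    refine ⟨hf, fun h => absurd h (by simp), ?_⟩
    rw [contDiffOn_clm_apply]
    intro v
    exact ih (scv_fd hΩ hf v)


end SCV

/-- `κ : Ω' → Ω` biholomorphic with inverse `κi` -/
structure Bih (Ω' Ω : Set (V n)) (κ κi : V n → V n) : Prop where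
  open1 : IsOpen Ω'
  open2 : IsOpen Ω
  hol : DifferentiableOn ℂ κ Ω'
  hol' : DifferentiableOn ℂ κi Ω
  maps : MapsTo κ Ω' Ω
  maps' : MapsTo κi Ω Ω'
  left : ∀ z ∈ Ω', κi (κ z) = z
  right : ∀ z ∈ Ω, κ (κi z) = z

private theorem two_le23 : (2 : WithTop ℕ∞) ≤ ((⊤ : ℕ∞) : WithTop ℕ∞) := by
  exact WithTop.coe_le_coe.2 (le_top (a := (2 : ℕ∞)))

private theorem Bih.fd23 {κ κi : V n → V n} (h : Bih Ω' Ω κ κi) {z : V n} (hz : z ∈ Ω') :
    (fderiv ℂ κi (κ z)).comp (fderiv ℂ κ z) = ContinuousLinearMap.id ℂ (V n) := by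
  have h1 : HasFDerivAt κ (fderiv ℂ κ z) z :=
    (h.hol.differentiableAt (h.open1.mem_nhds hz)).hasFDerivAt
  have h2 : HasFDerivAt κi (fderiv ℂ κi (κ z)) (κ z) :=
    (h.hol'.differentiableAt (h.open2.mem_nhds (h.maps hz))).hasFDerivAt
  have h3 := h2.comp z h1
  have h4 : HasFDerivAt (κi ∘ κ) (ContinuousLinearMap.id ℂ (V n)) z := by
    apply (hasFDerivAt_id z).congr_of_eventuallyEq
    filter_upwards [h.open1.mem_nhds hz] with y hy
    exact h.left y hy
  exact h3.unique h4

theorem Bih.det_ne_zero {κ κi : V n → V n} (h : Bih Ω' Ω κ κi) {z : V n} (hz : z ∈ Ω') :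
    (fderiv ℂ κ z).det ≠ 0 := by
  have h1 := h.fd23 hz
  have h2 : ((fderiv ℂ κi (κ z)).comp (fderiv ℂ κ z)).det =
      (fderiv ℂ κi (κ z)).det * (fderiv ℂ κ z).det :=
    LinearMap.det_comp (fderiv ℂ κi (κ z) : V n →ₗ[ℂ] V n) (fderiv ℂ κ z : V n →ₗ[ℂ] V n)
  intro h0
  rw [h1, h0, mul_zero] at h2
  have h3 : (ContinuousLinearMap.id ℂ (V n)).det = 1 := LinearMap.det_id
  rw [h3] at h2
  exact one_ne_zero h2

/-- the real derivative -/
private noncomputable def rd23 (κ : V n → V n) (z : V n) : V n →L[ℝ] V n :=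
  (fderiv ℂ κ z).restrictScalars ℝ

private theorem Bih.hasFDeriv23 {κ κi : V n → V n} (h : Bih Ω' Ω κ κi) {z : V n} (hz : z ∈ Ω') :
    HasFDerivAt κ (rd23 κ z) z :=
  ((h.hol.differentiableAt (h.open1.mem_nhds hz)).hasFDerivAt).restrictScalars ℝ

private theorem Bih.rdet23 {κ κi : V n → V n} (h : Bih Ω' Ω κ κi) {z : V n} (hz : z ∈ Ω') :
    (rd23 κ z).det ≠ 0 := by
  have h1 : ((fderiv ℂ κi (κ z)).restrictScalars ℝ).comp (rd23 κ z) =
      ContinuousLinearMap.id ℝ (V n) := by
    ext1 x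
    exact congrArg (fun A : V n →L[ℂ] V n => A x) (h.fd23 hz)
  have h2 : (((fderiv ℂ κi (κ z)).restrictScalars ℝ).comp (rd23 κ z)).det =
      ((fderiv ℂ κi (κ z)).restrictScalars ℝ).det * (rd23 κ z).det :=
    LinearMap.det_comp (((fderiv ℂ κi (κ z)).restrictScalars ℝ : V n →L[ℝ] V n) : V n →ₗ[ℝ] V n)
      (rd23 κ z : V n →ₗ[ℝ] V n)
  intro h0
  rw [h1, h0, mul_zero] at h2
  have h3 : (ContinuousLinearMap.id ℝ (V n)).det = 1 := LinearMap.det_id
  rw [h3] at h2
  exact one_ne_zero h2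

private theorem Bih.cdo23 {κ κi : V n → V n} (h : Bih Ω' Ω κ κi) (m : ℕ) :
    ContDiffOn ℂ m κ Ω' := scv_cd h.open1 m h.hol

private theorem Bih.cfd23 {κ κi : V n → V n} (h : Bih Ω' Ω κ κi) :
    ContinuousOn (fderiv ℂ κ) Ω' :=
  (h.cdo23 1).continuousOn_fderiv_of_isOpen h.open1 (by norm_num)

private theorem Bih.crdet23 {κ κi : V n → V n} (h : Bih Ω' Ω κ κi) :
    ContinuousOn (fun z => |(rd23 κ z).det|) Ω' := by
  have h1 : Continuous fun A : V n →L[ℂ] V n => |(A.restrictScalars ℝ).det| :=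
    (ContinuousLinearMap.continuous_det.comp
      (ContinuousLinearMap.restrictScalarsL ℂ (V n) (V n) ℝ ℝ).continuous).abs
  exact h1.comp_continuousOn h.cfd23

private theorem Bih.crdet_inv23 {κ κi : V n → V n} (h : Bih Ω' Ω κ κi) :
    ContinuousOn (fun z => |(rd23 κ z).det|⁻¹) Ω' :=
  h.crdet23.inv₀ fun _ hz => abs_ne_zero.2 (h.rdet23 hz)

private theorem Bih.inj23 {κ κi : V n → V n} (h : Bih Ω' Ω κ κi) : InjOn κ Ω' := by
  intro x hx y hy hxy
  rw [← h.left x hx, ← h.left y hy, hxy]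

theorem Bih.locallyIntegrable {κ κi : V n → V n} (h : Bih Ω' Ω κ κi)
    (hu : LocallyIntegrableOn u Ω volume) : LocallyIntegrableOn (fun z => u (κ z)) Ω' volume := by
  rw [locallyIntegrableOn_iff h.open1.isLocallyClosed]
  intro K hK hKc
  have h1 : IntegrableOn u (κ '' K) := by
    apply hu.integrableOn_compact_subset
    · rintro _ ⟨x, hx, rfl⟩
      exact h.maps (hK hx)
    · exact hKc.image_of_continuousOn (h.hol.continuousOn.mono hK)
  rw [integrableOn_image_iff_integrableOn_abs_det_fderiv_smul volume hKc.measurableSet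
    (fun x hx => (h.hasFDeriv23 (hK hx)).hasFDerivWithinAt) (h.inj23.mono hK)] at h1
  have h2 := IntegrableOn.continuousOn_mul (h.crdet_inv23.mono hK) h1 hKc
  refine h2.congr_fun (fun x hx => ?_) hKc.measurableSet
  simp only [smul_eq_mul]
  rw [← mul_assoc, inv_mul_cancel₀ (abs_ne_zero.2 (h.rdet23 (hK hx))), one_mul]

/-- null sets are preserved -/
theorem Bih.ae {κ κi : V n → V n} (h : Bih Ω' Ω κ κi) {p : V n → Prop}
    (hp : ∀ᵐ z, z ∈ Ω → p z) : ∀ᵐ z, z ∈ Ω' → p (κ z) := by
  rw [ae_iff] at hp ⊢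
  have hsub : {z | ¬(z ∈ Ω → p z)} ⊆ Ω := by
    intro z hz
    by_contra hc
    exact hz fun h' => absurd h' hc
  have h1 : volume (κi '' {z | ¬(z ∈ Ω → p z)}) = 0 := by
    apply addHaar_image_eq_zero_of_differentiableOn_of_addHaar_eq_zero volume _ hp
    intro z hz
    exact ((h.hol'.differentiableAt (h.open2.mem_nhds (hsub hz))).restrictScalars ℝ).differentiableWithinAt
  refine measure_mono_null (fun z hz => ?_) h1
  simp only [mem_ofPred_eq, Classical.not_imp] at hz
  refine ⟨κ z, ?_, h.left z hz.1⟩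
  simp only [mem_ofPred_eq, Classical.not_imp]
  exact ⟨h.maps hz.1, hz.2⟩

/-- (2.6) -/
theorem GS.comp {κ κi : V n → V n} (h : Bih Ω' Ω κ κi) (hu : GS Ω F u) :
    GS Ω' (fun z => ‖(fderiv ℂ κ z).det‖ ^ ((2 : ℝ) / n) * F (κ z)) (fun z => u (κ z)) := by
  have hJ : ContinuousOn (fun z => ‖(fderiv ℂ κ z).det‖ ^ ((2 : ℝ) / n)) Ω' := by
    have h1 : Continuous fun A : V n →L[ℂ] V n => ‖A.det‖ :=
      ContinuousLinearMap.continuous_det.norm
    exact (h1.comp_continuousOn h.cfd23).rpow_const fun _ _ => Or.inr (by positivity)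
  have hJ0 : ∀ z, 0 ≤ ‖(fderiv ℂ κ z).det‖ ^ ((2 : ℝ) / n) := fun z => by positivity
  have huκ : LocallyIntegrableOn (fun z => u (κ z)) Ω' volume := h.locallyIntegrable hu.int
  have hFκ : LocallyIntegrableOn (fun z => F (κ z)) Ω' volume := h.locallyIntegrable hu.intF
  have hG : LocallyIntegrableOn (fun z => ‖(fderiv ℂ κ z).det‖ ^ ((2 : ℝ) / n) * F (κ z)) Ω'
      volume := hFκ.continuousOn_mul hJ h.open1.isLocallyClosed
  have hae := h.ae (ae_tendsto_Phi h.open2 hu.intF)
  apply GS.of_local h.open1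
  intro z₀ hz₀
  obtain ⟨r, hr, hrΩ⟩ := Metric.nhds_basis_closedBall.mem_iff.1 (h.open1.mem_nhds hz₀)
  have hU : Metric.ball z₀ r ⊆ Ω' := Metric.ball_subset_closedBall.trans hrΩ
  refine ⟨Metric.ball z₀ r, Metric.isOpen_ball, Metric.mem_ball_self hr, hU, ?_⟩
  have hKc : IsCompact (κ '' Metric.closedBall z₀ r) :=
    (isCompact_closedBall z₀ r).image_of_continuousOn (h.hol.continuousOn.mono hrΩ)
  have hKΩ : κ '' Metric.closedBall z₀ r ⊆ Ω := by
    rintro _ ⟨x, hx, rfl⟩
    exact h.maps (hrΩ hx)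
  obtain ⟨δ, hδ, hδΩ⟩ := hKc.exists_cthickening_subset_open h.open2 hKΩ
  have hshr : ∀ ε, 0 < ε → ε ≤ δ → ∀ z ∈ Metric.ball z₀ r, κ z ∈ shr Ω ε := by
    intro ε hε hεδ z hz y hy
    apply hδΩ
    rw [hKc.cthickening_eq_biUnion_closedBall hδ.le]
    exact mem_biUnion (mem_image_of_mem κ (Metric.ball_subset_closedBall hz))
      (Metric.closedBall_subset_closedBall hεδ hy)
  set ε : ℕ → ℝ := fun k => δ / (k + 1) with hεdef
  have hε0 : ∀ k, 0 < ε k := fun k => by positivity
  have hεδ : ∀ k, ε k ≤ δ := fun k => div_le_self hδ.le (by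
    have : (0 : ℝ) ≤ k := Nat.cast_nonneg k
    linarith)
  have hεt : Tendsto ε atTop (𝓝[>] 0) := by
    rw [tendsto_nhdsWithin_iff]
    refine ⟨?_, Eventually.of_forall hε0⟩
    have h1 := (tendsto_one_div_add_atTop_nhds_zero_nat (𝕜 := ℝ)).const_mul δ
    rw [mul_zero] at h1
    refine h1.congr fun k => ?_
    rw [hεdef]
    ring
  have hκ2 : ContDiffOn ℂ 2 κ Ω' := by exact_mod_cast h.cdo23 2
  have hcd : ∀ (q : V n → ℝ), LocallyIntegrableOn q Ω volume → ∀ k,
      ContDiffOn ℝ 2 (fun z => Phi q (κ z) (ε k)) (Metric.ball z₀ r) := by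
    intro q hq k
    have h1 : ContDiffOn ℝ 2 (fun z => Phi q z (ε k)) (shr Ω (ε k)) :=
      (contDiffOn_Phi_left h.open2 hq (hε0 k)).of_le two_le23
    exact h1.comp ((hκ2.restrict_scalars ℝ).mono hU) fun z hz =>
      hshr _ (hε0 k) (hεδ k) z hz
  refine GS.limit Metric.isOpen_ball (uk := fun k z => Phi u (κ z) (ε k))
    (Fk := fun k z => ‖(fderiv ℂ κ z).det‖ ^ ((2 : ℝ) / n) * Phi F (κ z) (ε k)) (fun k => ?_)
    (huκ.mono_set hU) (hG.mono_set hU)
    (fun z hz => mul_nonneg (hJ0 z) (hu.nonneg _ (h.maps (hU hz)))) ?_ ?_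
  · -- the smooth approximations
    apply GS.of_smooth Metric.isOpen_ball (hcd u hu.int k)
    · exact ((hJ.mono hU).mul (hcd F hu.intF k).continuousOn).locallyIntegrableOn
        Metric.isOpen_ball.measurableSet
    · intro z hz
      refine mul_nonneg (hJ0 z) ?_
      have h1 := hshr _ (hε0 k) (hεδ k) z hz
      rw [mem_shr_iff (hε0 k).le] at h1
      apply integral_nonneg
      intro η
      simp only [Pi.zero_apply]
      by_cases hη : ‖η‖ ≤ 1
      · exact mul_nonneg (rho_nonneg η) (hu.nonneg _ (h1 η hη))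
      · rw [rho_eq_zero (not_le.1 hη).le, zero_mul]
    · refine Eventually.of_forall fun z hz => ?_
      have h1 := hshr _ (hε0 k) (hεδ k) z hz
      have h2 := (GS.mollify h.open2 hu (hε0 k) h1).comp (fderiv ℂ κ z)
      refine h2.mono le_rfl fun w => le_of_eq ?_
      have h3 : ContDiffAt ℝ 2 (fun y => Phi u y (ε k)) (κ z) :=
        ((contDiffOn_Phi_left h.open2 hu.int (hε0 k)).contDiffAt
          ((isOpen_shr h.open2 _).mem_nhds h1)).of_le two_le23
      exact (lev_comp_holo (hκ2.contDiffAt (h.open1.mem_nhds (hU hz))) h3 w).symm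
  · -- convergence in L¹
    intro K hK hKcpt
    have hKΩ' : K ⊆ Ω' := hK.trans hU
    have hcK : IsCompact (κ '' K) := hKcpt.image_of_continuousOn (h.hol.continuousOn.mono hKΩ')
    have hsK : κ '' K ⊆ Ω := by
      rintro _ ⟨x, hx, rfl⟩
      exact h.maps (hKΩ' hx)
    obtain ⟨C, hC⟩ := hKcpt.exists_bound_of_continuousOn (h.crdet_inv23.mono hKΩ')
    have h1 := (tendsto_Phi_L1 h.open2 hu.int hcK hsK).comp hεt
    have hint : ∀ k, IntegrableOn (fun z => |Phi u (κ z) (ε k) - u (κ z)|) K := fun k =>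
      (((((hcd u hu.int k).continuousOn.mono hK).integrableOn_compact hKcpt)).sub
        (huκ.integrableOn_compact_subset hKΩ' hKcpt)).abs
    refine squeeze_zero (fun k => integral_nonneg fun z => abs_nonneg _) (fun k => ?_)
      (by simpa using h1.const_mul |C|)
    rw [integral_image_eq_integral_abs_det_fderiv_smul volume hKcpt.measurableSet
      (fun x hx => (h.hasFDeriv23 (hKΩ' hx)).hasFDerivWithinAt) (h.inj23.mono hKΩ'),
      ← integral_const_mul]
    have hint2 : IntegrableOn (fun z => |(rd23 κ z).det| •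
        |Phi u (κ z) (ε k) - u (κ z)|) K := by
      simp only [smul_eq_mul]
      exact IntegrableOn.continuousOn_mul (h.crdet23.mono hKΩ') (hint k) hKcpt
    refine setIntegral_mono_on (hint k) (hint2.const_mul |C|) hKcpt.measurableSet fun z hz => ?_
    have h2 := hC z hz
    rw [Real.norm_eq_abs, abs_of_nonneg (by positivity)] at h2
    have h3 : 0 < |(rd23 κ z).det| := abs_pos.2 (h.rdet23 (hKΩ' hz))
    have h4 : 1 ≤ |C| * |(rd23 κ z).det| := by
      have h5 : |(rd23 κ z).det|⁻¹ * |(rd23 κ z).det| ≤ |C| * |(rd23 κ z).det| :=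
        mul_le_mul_of_nonneg_right (h2.trans (le_abs_self C)) h3.le
      rwa [inv_mul_cancel₀ h3.ne'] at h5
    rw [smul_eq_mul, ← mul_assoc]
    exact le_mul_of_one_le_left (abs_nonneg _) h4
  · filter_upwards [hae] with z hz hzU
    exact ⟨_, le_rfl, ((hz (hU hzU)).comp hεt).const_mul _⟩

/-- the pairing `∫ u ∑_{jk} ∂_j ∂̄_k (P_{kj} η)`, for smooth `u` equal to `∫ re tr(P · hess u) η` -/
noncomputable def pair (P : V n → Mat n) (u η : V n → ℝ) : ℝ :=
  ∫ z, u z * (∑ j, ∑ k, (hess (fun y => (P y k j).re * η y) z j k +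
    Complex.I * hess (fun y => (P y k j).im * η y) z j k)).re

private theorem hess_zero23 (z : V n) : hess (fun _ : V n => (0 : ℝ)) z = 0 := by
  ext j k
  unfold hess D2
  have h1 : fderiv ℝ (fun _ : V n => (0 : ℝ)) = fun _ => 0 := by
    funext y
    simp
  rw [h1]
  simp

private theorem hess_off23 {η : V n → ℝ} {z : V n} (hz : z ∉ tsupport η) : hess η z = 0 := by
  have h : η =ᶠ[𝓝 z] fun _ => (0 : ℝ) := by
    have h1 := notMem_tsupport_iff_eventuallyEq.1 hz
    exact h1
  rw [hess_congr h, hess_zero23]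

private theorem hess_cont23 {η : V n → ℝ} (h : ContDiff ℝ 2 η) (j k : Fin n) :
    Continuous fun z => hess η z j k :=
  continuousOn_univ.1 (continuousOn_hess isOpen_univ h.contDiffOn j k)

private theorem intC23 {q : V n → ℝ} (hq : LocallyIntegrableOn q Ω volume) {K : Set (V n)}
    (hK : IsCompact K) (hKΩ : K ⊆ Ω) {φ : V n → ℂ} (hφ : Continuous φ)
    (h0 : ∀ z, z ∉ K → φ z = 0) : Integrable (fun z => (q z : ℂ) * φ z) := by
  have h1 : IntegrableOn (fun z => (q z : ℂ)) K :=
    (hq.integrableOn_compact_subset hKΩ hK).ofReal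
  have h2 : IntegrableOn (fun z => (q z : ℂ) * φ z) K := h1.mul_continuousOn hφ.continuousOn hK
  refine (integrableOn_iff_integrable_of_support_subset fun z hz => ?_).1 h2
  by_contra hc
  exact hz (by simp [h0 z hc])

private theorem intR23 {q : V n → ℝ} (hq : LocallyIntegrableOn q Ω volume) {K : Set (V n)}
    (hK : IsCompact K) (hKΩ : K ⊆ Ω) {φ : V n → ℝ} (hφ : Continuous φ)
    (h0 : ∀ z, z ∉ K → φ z = 0) : Integrable (fun z => q z * φ z) := by
  have h2 : IntegrableOn (fun z => q z * φ z) K :=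
    (hq.integrableOn_compact_subset hKΩ hK).mul_continuousOn hφ.continuousOn hK
  refine (integrableOn_iff_integrable_of_support_subset fun z hz => ?_).1 h2
  by_contra hc
  exact hz (by simp [h0 z hc])

/-- a function smooth on `Ω` times a test function -/
private theorem smooth_mul23 (hΩ : IsOpen Ω) {p η : V n → ℝ} (hp : ContDiffOn ℝ (⊤ : ℕ∞) p Ω)
    (hη : Tst Ω η) : ContDiff ℝ (⊤ : ℕ∞) (fun y => p y * η y) := by
  rw [contDiff_iff_contDiffAt]
  intro z
  by_cases h1 : z ∈ tsupport η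
  · exact (hp.contDiffAt (hΩ.mem_nhds (hη.sub h1))).mul hη.smooth.contDiffAt
  · have h2 := notMem_tsupport_iff_eventuallyEq.1 h1
    refine (contDiffAt_const (c := (0 : ℝ))).congr_of_eventuallyEq ?_
    filter_upwards [h2] with y hy
    rw [hy, Pi.zero_apply, mul_zero]

/-- the weight of the pairing -/
private noncomputable def wt23 (P : V n → Mat n) (η : V n → ℝ) (z : V n) : ℝ :=
  (∑ j, ∑ k, (hess (fun y => (P y k j).re * η y) z j k +
    Complex.I * hess (fun y => (P y k j).im * η y) z j k)).re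

private theorem pair_eq23 (P : V n → Mat n) (u η : V n → ℝ) :
    pair P u η = ∫ z, u z * wt23 P η z := rfl

private theorem re_sm23 {P : V n → Mat n} (hP : ∀ j k, ContDiffOn ℝ (⊤ : ℕ∞) (fun z => P z j k) Ω)
    (j k : Fin n) : ContDiffOn ℝ (⊤ : ℕ∞) (fun z => (P z j k).re) Ω :=
  Complex.reCLM.contDiff.comp_contDiffOn (hP j k)

private theorem im_sm23 {P : V n → Mat n} (hP : ∀ j k, ContDiffOn ℝ (⊤ : ℕ∞) (fun z => P z j k) Ω)
    (j k : Fin n) : ContDiffOn ℝ (⊤ : ℕ∞) (fun z => (P z j k).im) Ω :=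
  Complex.imCLM.contDiff.comp_contDiffOn (hP j k)

private theorem wt_cont23 (hΩ : IsOpen Ω) {P : V n → Mat n}
    (hP : ∀ j k, ContDiffOn ℝ (⊤ : ℕ∞) (fun z => P z j k) Ω) {η : V n → ℝ} (hη : Tst Ω η) :
    Continuous (wt23 P η) := by
  refine Complex.continuous_re.comp (continuous_finsetSum _ fun j _ => continuous_finsetSum _
    fun k _ => ?_)
  exact (hess_cont23 ((smooth_mul23 hΩ (re_sm23 hP k j) hη).of_le two_le23) j k).add
    (continuous_const.mul
      (hess_cont23 ((smooth_mul23 hΩ (im_sm23 hP k j) hη).of_le two_le23) j k))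

private theorem wt_off23 (P : V n → Mat n) {η : V n → ℝ} {z : V n} (hz : z ∉ tsupport η) :
    wt23 P η z = 0 := by
  unfold wt23
  have h1 : ∀ p : V n → ℝ, hess (fun y => p y * η y) z = 0 := fun p =>
    hess_off23 fun h => hz (tsupport_mul_subset_right h)
  simp [h1]

/-- (2.7) -/
theorem pair_of_smooth (hΩ : IsOpen Ω) {P : V n → Mat n} (hP : ∀ j k, ContDiffOn ℝ (⊤ : ℕ∞) (fun z => P z j k) Ω)
    (hu : ContDiffOn ℝ (⊤ : ℕ∞) u Ω) {η : V n → ℝ} (hη : Tst Ω η) :
    pair P u η = ∫ z, (Matrix.trace (P z * hess u z)).re * η z := by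
  have hu2 : ContDiffOn ℝ 2 u Ω := hu.of_le two_le23
  have hui : LocallyIntegrableOn u Ω volume :=
    hu.continuousOn.locallyIntegrableOn hΩ.measurableSet
  have hK : IsCompact (tsupport η) := hη.cpt
  have hA : ∀ j k, ContDiff ℝ 2 (fun y => (P y k j).re * η y) := fun j k =>
    (smooth_mul23 hΩ (re_sm23 hP k j) hη).of_le two_le23
  have hB : ∀ j k, ContDiff ℝ 2 (fun y => (P y k j).im * η y) := fun j k =>
    (smooth_mul23 hΩ (im_sm23 hP k j) hη).of_le two_le23
  have hcs : ∀ p : V n → ℝ, HasCompactSupport (fun y => p y * η y) := fun p => hη.cpt.mul_left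
  have hts : ∀ p : V n → ℝ, tsupport (fun y => p y * η y) ⊆ Ω := fun p =>
    tsupport_mul_subset_right.trans hη.sub
  have hoff : ∀ (p : V n → ℝ) z, z ∉ tsupport η → hess (fun y => p y * η y) z = 0 := fun p z hz =>
    hess_off23 fun h => hz (tsupport_mul_subset_right h)
  have iA : ∀ j k, Integrable fun z => (u z : ℂ) * hess (fun y => (P y k j).re * η y) z j k :=
    fun j k => intC23 hui hK hη.sub (hess_cont23 (hA j k) j k) fun z hz => by
      rw [hoff _ z hz, Matrix.zero_apply]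
  have iB : ∀ j k, Integrable fun z => (u z : ℂ) * (Complex.I *
      hess (fun y => (P y k j).im * η y) z j k) :=
    fun j k => intC23 hui hK hη.sub (continuous_const.mul (hess_cont23 (hB j k) j k))
      fun z hz => by rw [hoff _ z hz, Matrix.zero_apply, mul_zero]
  have hsumC : ∀ z, ((u z * wt23 P η z : ℝ) : ℂ).re = (∑ j, ∑ k,
      ((u z : ℂ) * hess (fun y => (P y k j).re * η y) z j k +
        (u z : ℂ) * (Complex.I * hess (fun y => (P y k j).im * η y) z j k))).re := by
    intro z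
    rw [Complex.ofReal_re]
    unfold wt23
    rw [← Complex.re_ofReal_mul, Finset.mul_sum]
    congr 1
    refine Finset.sum_congr rfl fun j _ => ?_
    rw [Finset.mul_sum]
    refine Finset.sum_congr rfl fun k _ => ?_
    ring
  have iAB : ∀ j k, Integrable fun z => ((u z : ℂ) * hess (fun y => (P y k j).re * η y) z j k +
        (u z : ℂ) * (Complex.I * hess (fun y => (P y k j).im * η y) z j k)) :=
    fun j k => (iA j k).add (iB j k)
  have iC : Integrable fun z => ∑ j, ∑ k,
      ((u z : ℂ) * hess (fun y => (P y k j).re * η y) z j k +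
        (u z : ℂ) * (Complex.I * hess (fun y => (P y k j).im * η y) z j k)) :=
    integrable_finsetSum _ fun j _ => integrable_finsetSum _ fun k _ => iAB j k
  -- the right hand side
  have hhc : ∀ j k, ContinuousOn (fun y => hess u y j k) Ω := continuousOn_hess hΩ hu2
  have intH : ∀ (j k : Fin n) (φ : V n → ℂ), ContinuousOn φ Ω → Integrable fun z =>
      hess u z j k * (φ z * (η z : ℂ)) := by
    intro j k φ hφ
    have h1 : Continuous fun z => hess u z j k * (φ z * (η z : ℂ)) := by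
      refine ContinuousOn.continuous_of_tsupport_subset ?_ hΩ ?_
      · exact (hhc j k).mul (hφ.mul
          (Complex.continuous_ofReal.comp hη.smooth.continuous).continuousOn)
      · refine subset_trans (closure_minimal ?_ (isClosed_tsupport η)) hη.sub
        intro z hz
        apply subset_tsupport η
        intro h0
        exact hz (by simp [h0])
    apply h1.integrable_of_hasCompactSupport
    refine hη.cpt.mono fun z hz h0 => hz ?_
    simp [h0]
  have hPc : ∀ j k, ContinuousOn (fun z => P z j k) Ω := fun j k => (hP j k).continuousOn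
  have e1 : ∀ j k, ∫ z, (u z : ℂ) * hess (fun y => (P y k j).re * η y) z j k =
      ∫ z, hess u z j k * (((P z k j).re : ℂ) * (η z : ℂ)) := by
    intro j k
    rw [integral_mul_hess hΩ hu2 (hA j k) (hcs _) (hts _) j k]
    refine integral_congr_ae (Eventually.of_forall fun z => ?_)
    simp only
    push_cast
    ring
  have e2 : ∀ j k, ∫ z, (u z : ℂ) * (Complex.I * hess (fun y => (P y k j).im * η y) z j k) =
      ∫ z, hess u z j k * ((Complex.I * ((P z k j).im : ℂ)) * (η z : ℂ)) := by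
    intro j k
    have h1 : ∫ z, (u z : ℂ) * (Complex.I * hess (fun y => (P y k j).im * η y) z j k) =
        Complex.I * ∫ z, (u z : ℂ) * hess (fun y => (P y k j).im * η y) z j k := by
      rw [← integral_const_mul]
      refine integral_congr_ae (Eventually.of_forall fun z => ?_)
      simp only
      ring
    rw [h1, integral_mul_hess hΩ hu2 (hB j k) (hcs _) (hts _) j k, ← integral_const_mul]
    refine integral_congr_ae (Eventually.of_forall fun z => ?_)
    simp only
    push_cast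
    ring
  have iA' : ∀ j k, Integrable fun z => hess u z j k * (((P z k j).re : ℂ) * (η z : ℂ)) :=
    fun j k => intH j k _ (Complex.continuous_ofReal.comp_continuousOn
      (Complex.continuous_re.comp_continuousOn (hPc k j)))
  have iB' : ∀ j k, Integrable fun z =>
      hess u z j k * ((Complex.I * ((P z k j).im : ℂ)) * (η z : ℂ)) :=
    fun j k => intH j k _ (continuousOn_const.mul (Complex.continuous_ofReal.comp_continuousOn
      (Complex.continuous_im.comp_continuousOn (hPc k j))))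
  have iAB' : ∀ j k, Integrable fun z => (hess u z j k * (((P z k j).re : ℂ) * (η z : ℂ)) +
        hess u z j k * ((Complex.I * ((P z k j).im : ℂ)) * (η z : ℂ))) :=
    fun j k => (iA' j k).add (iB' j k)
  have iC' : Integrable fun z => ∑ j, ∑ k,
      (hess u z j k * (((P z k j).re : ℂ) * (η z : ℂ)) +
        hess u z j k * ((Complex.I * ((P z k j).im : ℂ)) * (η z : ℂ))) :=
    integrable_finsetSum _ fun j _ => integrable_finsetSum _ fun k _ => iAB' j k
  have key : ∫ z, ∑ j, ∑ k,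
      ((u z : ℂ) * hess (fun y => (P y k j).re * η y) z j k +
        (u z : ℂ) * (Complex.I * hess (fun y => (P y k j).im * η y) z j k)) =
      ∫ z, ∑ j, ∑ k, (hess u z j k * (((P z k j).re : ℂ) * (η z : ℂ)) +
        hess u z j k * ((Complex.I * ((P z k j).im : ℂ)) * (η z : ℂ))) := by
    rw [integral_finsetSum _ fun j _ => integrable_finsetSum _ fun k _ => iAB j k,
      integral_finsetSum _ fun j _ => integrable_finsetSum _ fun k _ => iAB' j k]
    refine Finset.sum_congr rfl fun j _ => ?_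
    rw [integral_finsetSum _ fun k _ => iAB j k,
      integral_finsetSum _ fun k _ => iAB' j k]
    refine Finset.sum_congr rfl fun k _ => ?_
    rw [integral_add (iA j k) (iB j k), integral_add (iA' j k) (iB' j k), e1, e2]
  rw [pair_eq23]
  have h1 : ∫ z, u z * wt23 P η z = (∫ z, ∑ j, ∑ k,
      ((u z : ℂ) * hess (fun y => (P y k j).re * η y) z j k +
        (u z : ℂ) * (Complex.I * hess (fun y => (P y k j).im * η y) z j k))).re := by
    have h2 := integral_re iC
    simp only [RCLike.re_eq_complex_re] at h2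
    rw [← h2]
    refine integral_congr_ae (Eventually.of_forall fun z => ?_)
    simp only
    rw [← hsumC z, Complex.ofReal_re]
  rw [h1, key]
  have h2 := integral_re iC'
  simp only [RCLike.re_eq_complex_re] at h2
  rw [← h2]
  refine integral_congr_ae (Eventually.of_forall fun z => ?_)
  simp only
  have h3 : ∑ j, ∑ k, (hess u z j k * (((P z k j).re : ℂ) * (η z : ℂ)) +
      hess u z j k * ((Complex.I * ((P z k j).im : ℂ)) * (η z : ℂ))) =
      (η z : ℂ) * Matrix.trace (P z * hess u z) := by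
    have h4 : Matrix.trace (P z * hess u z) = ∑ j, ∑ k, P z k j * hess u z j k := by
      simp only [Matrix.trace, Matrix.diag, Matrix.mul_apply]
      exact Finset.sum_comm
    rw [h4, Finset.mul_sum]
    refine Finset.sum_congr rfl fun j _ => ?_
    rw [Finset.mul_sum]
    refine Finset.sum_congr rfl fun k _ => ?_
    have h5 := Complex.re_add_im (P z k j)
    calc hess u z j k * (((P z k j).re : ℂ) * (η z : ℂ)) +
        hess u z j k * ((Complex.I * ((P z k j).im : ℂ)) * (η z : ℂ)) =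
        hess u z j k * (((P z k j).re : ℂ) + ((P z k j).im : ℂ) * Complex.I) * (η z : ℂ) := by ring
      _ = (η z : ℂ) * (P z k j * hess u z j k) := by rw [h5]; ring
  rw [h3, Complex.re_ofReal_mul]
  ring

/-- convergence of the pairing of the means with a continuous weight -/
private theorem tendsto_wt23 (hΩ : IsOpen Ω) {q : V n → ℝ} (hq : LocallyIntegrableOn q Ω volume)
    {K : Set (V n)} (hK : IsCompact K) (hKΩ : K ⊆ Ω) {φ : V n → ℝ} (hφ : Continuous φ)
    (h0 : ∀ z, z ∉ K → φ z = 0) :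
    Tendsto (fun t => ∫ z, Phi q z t * φ z) (𝓝[>] 0) (𝓝 (∫ z, q z * φ z)) := by
  obtain ⟨δ, hδ, hδΩ⟩ := hK.exists_cthickening_subset_open hΩ hKΩ
  have hshr : ∀ t, 0 < t → t ≤ δ → K ⊆ shr Ω t := by
    intro t ht htδ z hz y hy
    apply hδΩ
    rw [hK.cthickening_eq_biUnion_closedBall hδ.le]
    exact mem_biUnion hz (Metric.closedBall_subset_closedBall htδ hy)
  obtain ⟨C, hC⟩ := hK.exists_bound_of_continuousOn hφ.continuousOn
  rw [tendsto_iff_norm_sub_tendsto_zero]
  have hlim := (tendsto_Phi_L1 hΩ hq hK hKΩ).const_mul |C|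
  rw [mul_zero] at hlim
  refine squeeze_zero' (Eventually.of_forall fun _ => norm_nonneg _) ?_ hlim
  filter_upwards [Ioc_mem_nhdsGT hδ] with t ht
  have hsh := hshr t ht.1 ht.2
  have hPi : LocallyIntegrableOn (fun z => Phi q z t) (shr Ω t) volume :=
    (contDiffOn_Phi_left hΩ hq ht.1).continuousOn.locallyIntegrableOn (isOpen_shr hΩ t).measurableSet
  have i1 := intR23 hPi hK hsh hφ h0
  have i2 := intR23 hq hK hKΩ hφ h0
  rw [← integral_sub i1 i2]
  have hd : IntegrableOn (fun z => |Phi q z t - q z|) K :=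
    ((hPi.integrableOn_compact_subset hsh hK).sub (hq.integrableOn_compact_subset hKΩ hK)).abs
  have hd2 : Integrable (K.indicator fun z => |C| * |Phi q z t - q z|) :=
    IntegrableOn.integrable_indicator (hd.const_mul |C|) hK.measurableSet
  calc ‖∫ z, (Phi q z t * φ z - q z * φ z)‖
      ≤ ∫ z, K.indicator (fun z => |C| * |Phi q z t - q z|) z := by
        apply norm_integral_le_of_norm_le hd2
        refine Eventually.of_forall fun z => ?_
        by_cases hz : z ∈ K
        · rw [indicator_of_mem hz, ← sub_mul, norm_mul, mul_comm, Real.norm_eq_abs (Phi q z t - q z)]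
          exact mul_le_mul_of_nonneg_right ((hC z hz).trans (le_abs_self C)) (abs_nonneg _)
        · rw [indicator_of_notMem hz, h0 z hz]
          simp
    _ = |C| * ∫ z in K, |Phi q z t - q z| := by
        rw [integral_indicator hK.measurableSet, integral_const_mul]

theorem GS.variable (hn : 0 < n) (hΩ : IsOpen Ω) (hu : GS Ω F u) {P : V n → Mat n}
    (hP : ∀ j k, ContDiffOn ℝ (⊤ : ℕ∞) (fun z => P z j k) Ω) (hpsd : ∀ z ∈ Ω, (P z).PosSemidef)
    {η : V n → ℝ} (hη : Tst Ω η) :
    n * ∫ z, ((P z).det.re) ^ ((1 : ℝ) / n) * F z * η z ≤ pair P u η := by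
  have hK : IsCompact (tsupport η) := hη.cpt
  -- the weight of F
  set W : V n → ℝ := fun z => ((P z).det.re) ^ ((1 : ℝ) / n) * η z with hW
  have hdc : ContinuousOn (fun z => ((P z).det.re) ^ ((1 : ℝ) / n)) Ω := by
    refine ContinuousOn.rpow_const ?_ fun _ _ => Or.inr (by positivity)
    refine Complex.continuous_re.comp_continuousOn ?_
    have h1 : ContinuousOn (fun z => P z) Ω := by
      refine continuousOn_pi.2 fun j => continuousOn_pi.2 fun k => (hP j k).continuousOn
    exact (Continuous.matrix_det continuous_id).comp_continuousOn h1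
  have hW0 : ∀ z, z ∉ tsupport η → W z = 0 := fun z hz => by
    rw [hW]
    simp only
    rw [image_eq_zero_of_notMem_tsupport hz, mul_zero]
  have hWc : Continuous W := by
    refine ContinuousOn.continuous_of_tsupport_subset
      (hdc.mul hη.smooth.continuous.continuousOn) hΩ ?_
    exact tsupport_mul_subset_right.trans hη.sub
  have hl := (tendsto_wt23 hΩ hu.intF hK hη.sub hWc hW0).const_mul (n : ℝ)
  have hr := tendsto_wt23 hΩ hu.int hK hη.sub (wt_cont23 hΩ hP hη) fun z hz => wt_off23 P hz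
  rw [← pair_eq23] at hr
  have hleft : ∫ z, ((P z).det.re) ^ ((1 : ℝ) / n) * F z * η z = ∫ z, F z * W z := by
    refine integral_congr_ae (Eventually.of_forall fun z => ?_)
    simp only [hW]
    ring
  rw [hleft]
  refine le_of_tendsto_of_tendsto hl hr ?_
  obtain ⟨δ, hδ, hδΩ⟩ := hK.exists_cthickening_subset_open hΩ hη.sub
  have hshr : ∀ t, 0 < t → t ≤ δ → tsupport η ⊆ shr Ω t := by
    intro t ht htδ z hz y hy
    apply hδΩ
    rw [hK.cthickening_eq_biUnion_closedBall hδ.le]
    exact mem_biUnion hz (Metric.closedBall_subset_closedBall htδ hy)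
  filter_upwards [Ioc_mem_nhdsGT hδ] with t ht
  have hsh := hshr t ht.1 ht.2
  have hso := isOpen_shr hΩ t
  have hsub : shr Ω t ⊆ Ω := fun z hz => hz (Metric.mem_closedBall_self ht.1.le)
  have hηt : Tst (shr Ω t) η := ⟨hη.smooth, hη.cpt, hsh, hη.nonneg⟩
  have hPt : ∀ j k, ContDiffOn ℝ (⊤ : ℕ∞) (fun z => P z j k) (shr Ω t) := fun j k =>
    (hP j k).mono hsub
  have hus := contDiffOn_Phi_left hΩ hu.int ht.1
  have hpair := pair_of_smooth hso hPt hus hηt
  rw [pair_eq23] at hpair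
  rw [hpair, ← integral_const_mul]
  have hFi : LocallyIntegrableOn (fun z => Phi F z t) (shr Ω t) volume :=
    (contDiffOn_Phi_left hΩ hu.intF ht.1).continuousOn.locallyIntegrableOn hso.measurableSet
  have i1 := (intR23 hFi hK hsh hWc hW0).const_mul (n : ℝ)
  have i2 : Integrable fun z => (Matrix.trace (P z * hess (fun y => Phi u y t) z)).re * η z := by
    have hc : Continuous fun z => (Matrix.trace (P z * hess (fun y => Phi u y t) z)).re * η z := by
      refine ContinuousOn.continuous_of_tsupport_subset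
        (ContinuousOn.mul ?_ hη.smooth.continuous.continuousOn) hso
        (tsupport_mul_subset_right.trans hsh)
      refine Complex.continuous_re.comp_continuousOn ?_
      simp only [Matrix.trace, Matrix.diag, Matrix.mul_apply]
      refine continuousOn_finsetSum _ fun j _ => continuousOn_finsetSum _ fun k _ => ?_
      exact (hPt j k).continuousOn.mul (continuousOn_hess hso (hus.of_le two_le23) k j)
    exact hc.integrable_of_hasCompactSupport hη.cpt.mul_left
  refine integral_mono i1 i2 fun z => ?_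
  simp only [hW]
  by_cases hz : z ∈ tsupport η
  · have hzs := hsh hz
    obtain ⟨A, hA1, -, hA3⟩ := exists_frame (hpsd z (hsub hzs))
    have h1 := GS.mollify hΩ hu ht.1 hzs A
    have hc2 : ContDiffAt ℝ 2 (fun y => Phi u y t) z :=
      (hus.contDiffAt (hso.mem_nhds hzs)).of_le two_le23
    have h2 : ∑ l, lev (fun y => Phi u y t) z (A (e l)) =
        (Matrix.trace (P z * hess (fun y => Phi u y t) z)).re := by
      rw [← hA1]
      exact DA_eq_sA hc2 A
    rw [h2] at h1
    have h3 : ‖A.det‖ ^ ((2 : ℝ) / n) = ((P z).det.re) ^ ((1 : ℝ) / n) := by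
      rw [← hA3, ← Real.rpow_natCast ‖A.det‖ 2, ← Real.rpow_mul (norm_nonneg _)]
      congr 1
      push_cast
      ring
    rw [h3] at h1
    calc (n : ℝ) * (Phi F z t * (((P z).det.re) ^ ((1 : ℝ) / n) * η z)) =
        ((n : ℝ) * ((P z).det.re) ^ ((1 : ℝ) / n) * Phi F z t) * η z := by ring
      _ ≤ _ := mul_le_mul_of_nonneg_right h1 (hη.nonneg z)
  · rw [image_eq_zero_of_notMem_tsupport hz]
    simp

end Pool.Agent.Helper29.AM
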