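import Pool.Agent.Helper29.AM.Ker

/-!
# Block AM-M1a: means, elementary facts

For an invertible frame `A` and `t > 0`, `M (t A) u z = ∫ u(y) ρ(A⁻¹(y - z)/t) |det_ℝ (tA)|⁻¹ dy`
(`|det_ℝ (tA)| = t^{2n} |det A|²`), a convolution with a smooth compactly supported kernel depending
smoothly on `t > 0`: smooth in `(z,t)`; only the values of `u` on `z + t A(closedBall 0 1)` matter,
so `u` may be multiplied by the indicator of a compact subset of `Ω`
(Mathlib: `contDiff_convolution_right_with_param`, or differentiation under the integral sign).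
`Phi_eq`, `M_comp`: linear changes of variables. `M_comm`: Fubini.
`M_radial`: `ρ` is invariant under `η ↦ e^{is} η`.
-/

set_option autoImplicit false

namespace Pool.Agent.Helper29.AM

open MeasureTheory Set Filter Topology
open scoped ComplexOrder

variable {n : ℕ}

theorem sc_apply (t : ℝ) (η : V n) : (sc t : Lin n) η = (t : ℂ) • η := by
  simp [sc]

theorem det_sc (t : ℝ) : (sc t : Lin n).det = (t : ℂ) ^ n := by
  rw [sc, ContinuousLinearMap.det, ContinuousLinearMap.toLinearMap_smul, LinearMap.det_smul]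
  have h1 : ((1 : Lin n) : V n →ₗ[ℂ] V n) = LinearMap.id := rfl
  rw [h1, LinearMap.det_id, mul_one, finrank_euclideanSpace_fin]

/-- the mean only depends on the values on the (closed) ellipsoid -/
theorem M_congr {T : Lin n} {u v : V n → ℝ} {z : V n}
    (h : ∀ η : V n, ‖η‖ < 1 → u (z + T η) = v (z + T η)) : M T u z = M T v z := by
  unfold M
  refine integral_congr_ae (Filter.Eventually.of_forall fun η => ?_)
  by_cases hη : ‖η‖ < 1
  · simp only [h η hη]
  · simp only [rho_eq_zero (not_lt.1 hη), zero_mul]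

theorem M1_congr {T : Lin n} {u v : V n → ℝ} {z : V n}
    (h : ∀ η : V n, ‖η‖ < 1 → u (z + T η) = v (z + T η)) : M1 T u z = M1 T v z := by
  unfold M1
  refine integral_congr_ae (Filter.Eventually.of_forall fun η => ?_)
  by_cases hη : ‖η‖ < 1
  · simp only [h η hη]
  · simp only [rho1_eq_zero (not_lt.1 hη), zero_mul]

/-- the affine homeomorphism `η ↦ z + T η` changes the volume by a constant -/
private theorem aff_map {T : Lin n} (hT : T.det ≠ 0) (z : V n) :
    ∃ (f : V n ≃ₜ V n) (c : ENNReal), (∀ η, f η = z + T η) ∧ c ≠ ⊤ ∧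
      Measure.map f volume = c • (volume : Measure (V n)) := by
  let g : V n ≃L[ℂ] V n := ContinuousLinearMap.toContinuousLinearEquivOfDetNeZero T hT
  let gR : V n ≃L[ℝ] V n := g.restrictScalars ℝ
  have hg : ∀ η, gR η = T η := fun η => rfl
  refine ⟨gR.toHomeomorph.trans (Homeomorph.addLeft z),
    ENNReal.ofReal |LinearMap.det (gR.symm : V n →ₗ[ℝ] V n)|, fun η => rfl, ENNReal.ofReal_ne_top, ?_⟩
  ext s hs
  rw [Measure.map_apply (Homeomorph.continuous _).measurable hs, Measure.smul_apply, smul_eq_mul]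
  have h1 : (gR.toHomeomorph.trans (Homeomorph.addLeft z)) ⁻¹' s = gR ⁻¹' ((fun y => z + y) ⁻¹' s) := rfl
  rw [h1, Measure.addHaar_preimage_continuousLinearEquiv, measure_preimage_add]

/-- a.e. equal functions have the same means (invertible frames) -/
theorem M_congr_ae {T : Lin n} (hT : T.det ≠ 0) {Ω : Set (V n)} (hΩ : IsOpen Ω) {u v : V n → ℝ}
    (h : ∀ᵐ z, z ∈ Ω → u z = v z) {z : V n} (hz : ∀ η : V n, ‖η‖ ≤ 1 → z + T η ∈ Ω) :
    M T u z = M T v z := by
  obtain ⟨f, c, hf, hc, hmap⟩ := aff_map hT z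
  have h1 : ∀ᵐ y ∂(Measure.map f volume), y ∈ Ω → u y = v y := by
    rw [hmap]
    exact Measure.ae_smul_measure h c
  have h2 : ∀ᵐ η : V n, f η ∈ Ω → u (f η) = v (f η) := ae_of_ae_map f.continuous.aemeasurable h1
  unfold M
  refine integral_congr_ae ?_
  filter_upwards [h2] with η hη
  by_cases h3 : ‖η‖ ≤ 1
  · rw [hf] at hη
    rw [hη (hz η h3)]
  · rw [rho_eq_zero (le_of_lt (not_le.1 h3)), zero_mul, zero_mul]

private theorem integrableOn_comp_aff {T : Lin n} (hT : T.det ≠ 0) {Ω : Set (V n)}
    {u : V n → ℝ} (hu : LocallyIntegrableOn u Ω volume) {z : V n}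
    (hz : ∀ η : V n, ‖η‖ ≤ 1 → z + T η ∈ Ω) :
    IntegrableOn (fun η => u (z + T η)) (Metric.closedBall (0 : V n) 1) := by
  obtain ⟨f, c, hf, hc, hmap⟩ := aff_map hT z
  have hK : IsCompact (f '' Metric.closedBall (0 : V n) 1) :=
    (isCompact_closedBall (0 : V n) 1).image f.continuous
  have hKΩ : f '' Metric.closedBall (0 : V n) 1 ⊆ Ω := by
    rintro _ ⟨η, hη, rfl⟩
    rw [hf]
    exact hz η (by simpa using hη)
  have h1 : IntegrableOn u (f '' Metric.closedBall (0 : V n) 1) volume :=
    hu.integrableOn_compact_subset hKΩ hK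
  have h2 : IntegrableOn u (f '' Metric.closedBall (0 : V n) 1) (Measure.map f volume) := by
    rw [hmap, IntegrableOn, Measure.restrict_smul]
    exact Integrable.smul_measure h1 hc
  have h3 := (f.measurableEmbedding.integrableOn_map_iff).1 h2
  rw [f.injective.preimage_image] at h3
  have h4 : (fun η => u (z + T η)) = u ∘ f := by
    funext η
    rw [Function.comp_apply, hf]
  rw [h4]
  exact h3

theorem integrable_rho_mul {T : Lin n} (hT : T.det ≠ 0) {Ω : Set (V n)} (hΩ : IsOpen Ω)
    {u : V n → ℝ} (hu : LocallyIntegrableOn u Ω volume) {z : V n}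
    (hz : ∀ η : V n, ‖η‖ ≤ 1 → z + T η ∈ Ω) :
    Integrable (fun η => rho η * u (z + T η)) ∧ Integrable (fun η => rho1 η * u (z + T η)) := by
  have hu' := integrableOn_comp_aff hT hu hz
  have key : ∀ k : V n → ℝ, Continuous k → (∀ η, 1 ≤ ‖η‖ → k η = 0) →
      Integrable fun η => k η * u (z + T η) := by
    intro k hk hk0
    obtain ⟨C, hC⟩ := (isCompact_closedBall (0 : V n) 1).exists_bound_of_continuousOn hk.continuousOn
    have h1 : IntegrableOn (fun η => k η * u (z + T η)) (Metric.closedBall (0 : V n) 1) := by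
      refine Integrable.bdd_mul hu' hk.aestronglyMeasurable (c := C) ?_
      rw [ae_restrict_iff' Metric.isClosed_closedBall.measurableSet]
      exact Filter.Eventually.of_forall fun η hη => hC η hη
    refine (integrableOn_iff_integrable_of_support_subset ?_).1 h1
    intro η hη
    rw [Metric.mem_closedBall, dist_zero_right]
    by_contra h2
    exact hη (by
      change k η * u (z + T η) = 0
      rw [hk0 η (le_of_lt (not_le.1 h2)), zero_mul])
  exact ⟨key rho rho_contDiff.continuous fun η hη => rho_eq_zero hη,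
    key rho1 rho1_contDiff.continuous fun η hη => rho1_eq_zero hη⟩

theorem isOpen_ell (A : Lin n) {Ω : Set (V n)} (hΩ : IsOpen Ω) :
    IsOpen {p : V n × ℝ | ∀ η : V n, ‖η‖ ≤ 1 → p.1 + ((p.2 : ℂ) • A) η ∈ Ω} := by
  rw [isOpen_iff_eventually]
  intro p hp
  have hK := isCompact_closedBall (0 : V n) 1
  have h1 := hK.eventually_forall_of_forall_eventually (x₀ := p)
    (P := fun q η => q.1 + ((q.2 : ℂ) • A) η ∈ Ω) (by
      intro η hη
      have hc : Continuous fun w : (V n × ℝ) × V n => w.1.1 + ((w.1.2 : ℂ) • A) w.2 := by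
        refine continuous_fst.fst.add ?_
        exact (Complex.continuous_ofReal.comp continuous_fst.snd).smul (A.continuous.comp continuous_snd)
      exact hc.continuousAt.eventually (hΩ.mem_nhds (hp η (by simpa using hη))))
  filter_upwards [h1] with q hq η hη
  exact hq η (by simpa using hη)

theorem isOpen_shr {Ω : Set (V n)} (hΩ : IsOpen Ω) (r : ℝ) : IsOpen (shr Ω r) := by
  have h0 : shr Ω r = {z | ∀ v ∈ Metric.closedBall (0 : V n) r, z + v ∈ Ω} := by
    ext z
    constructor
    · intro h v hv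
      exact h (by simpa using hv)
    · intro h y hy
      have := h (y - z) (by simpa [dist_eq_norm] using hy)
      simpa using this
  rw [h0, isOpen_iff_eventually]
  intro p hp
  exact (isCompact_closedBall (0 : V n) r).eventually_forall_of_forall_eventually (x₀ := p)
    (P := fun q v => q + v ∈ Ω) (by
      intro v hv
      have hc : Continuous fun w : V n × V n => w.1 + w.2 := continuous_add
      exact hc.continuousAt.eventually (hΩ.mem_nhds (hp v hv)))

theorem mem_shr_iff {Ω : Set (V n)} {r : ℝ} (hr : 0 ≤ r) {z : V n} :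
    z ∈ shr Ω r ↔ ∀ η : V n, ‖η‖ ≤ 1 → z + (sc r : Lin n) η ∈ Ω := by
  constructor
  · intro h η hη
    refine h ?_
    rw [Metric.mem_closedBall, dist_eq_norm, add_sub_cancel_left, sc_apply, norm_smul,
      Complex.norm_real, Real.norm_of_nonneg hr]
    exact mul_le_of_le_one_right hr hη
  · intro h y hy
    rcases hr.eq_or_lt with h0 | h0
    · subst h0
      rw [Metric.closedBall_zero, mem_singleton_iff] at hy
      have := h 0 (by simp)
      simpa [hy] using this
    · have h1 := h (((r : ℂ)⁻¹) • (y - z)) (by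
        rw [norm_smul, norm_inv, Complex.norm_real, Real.norm_of_nonneg hr, inv_mul_le_iff₀ h0, mul_one]
        simpa [dist_eq_norm] using hy)
      rw [sc_apply, smul_smul, mul_inv_cancel₀ (by exact_mod_cast h0.ne'), one_smul] at h1
      simpa using h1

/-- the means only depend on `|w|` -/
theorem M_radial (u : V n → ℝ) (z : V n) (w : ℂ) :
    M (w • (1 : Lin n)) u z = Phi u z ‖w‖ := by
  by_cases hw : w = 0
  · subst hw
    rw [Phi, norm_zero]
    congr 1
  · have hw' : (‖w‖ : ℂ) ≠ 0 := by exact_mod_cast norm_ne_zero_iff.2 hw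
    set c : ℂ := w / ‖w‖ with hc
    have hcn : ‖c‖ = 1 := by
      rw [hc, norm_div, Complex.norm_real, norm_norm, div_self (norm_ne_zero_iff.2 hw)]
    have hc0 : c ≠ 0 := norm_ne_zero_iff.1 (by rw [hcn]; exact one_ne_zero)
    let e : V n ≃ₗᵢ[ℝ] V n :=
      { toLinearEquiv := (LinearEquiv.smulOfNeZero ℂ (V n) c hc0).restrictScalars ℝ
        norm_map' := fun x => by
          change ‖c • x‖ = ‖x‖
          rw [norm_smul, hcn, one_mul] }
    have he : ∀ x, e x = c • x := fun x => rfl
    have h1 := (e.measurePreserving).integral_comp e.toHomeomorph.measurableEmbedding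
      (fun η : V n => rho η * u (z + (sc ‖w‖ : Lin n) η))
    rw [Phi, M, M, ← h1]
    refine integral_congr_ae (Filter.Eventually.of_forall fun η => ?_)
    simp only [he]
    rw [rho_congr (show ‖c • η‖ = ‖η‖ by rw [norm_smul, hcn, one_mul]), sc_apply, smul_smul, hc,
      mul_div_cancel₀ _ hw']
    rfl

theorem Phi_zero (u : V n → ℝ) (z : V n) : Phi u z 0 = u z := by
  rw [Phi, M]
  have h1 : ∀ η : V n, rho η * u (z + (sc 0 : Lin n) η) = rho η * u z := by
    intro η
    rw [sc_apply]
    simp
  simp only [h1]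
  rw [integral_mul_const, integral_rho, one_mul]

theorem Phi_const (c : ℝ) (z : V n) (t : ℝ) : Phi (fun _ => c) z t = c := by
  rw [Phi, M, integral_mul_const, integral_rho, one_mul]

theorem Phi_add {Ω : Set (V n)} (hΩ : IsOpen Ω) {u v : V n → ℝ}
    (hu : LocallyIntegrableOn u Ω volume) (hv : LocallyIntegrableOn v Ω volume) {t : ℝ}
    (ht : 0 < t) {z : V n} (hz : z ∈ shr Ω t) :
    Phi (fun y => u y + v y) z t = Phi u z t + Phi v z t := by
  have hd : (sc t : Lin n).det ≠ 0 := by
    rw [det_sc]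
    exact pow_ne_zero _ (by exact_mod_cast ht.ne')
  have h := (mem_shr_iff ht.le).1 hz
  rw [Phi, Phi, Phi, M, M, M, ← integral_add (integrable_rho_mul hd hΩ hu h).1 (integrable_rho_mul hd hΩ hv h).1]
  refine integral_congr_ae (Filter.Eventually.of_forall fun η => ?_)
  simp only [mul_add]

theorem Phi_mono {Ω : Set (V n)} (hΩ : IsOpen Ω) {u v : V n → ℝ}
    (hu : LocallyIntegrableOn u Ω volume) (hv : LocallyIntegrableOn v Ω volume)
    (h : ∀ᵐ y, y ∈ Ω → u y ≤ v y) {t : ℝ} (ht : 0 < t) {z : V n} (hz : z ∈ shr Ω t) :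
    Phi u z t ≤ Phi v z t := by
  have hd : (sc t : Lin n).det ≠ 0 := by
    rw [det_sc]
    exact pow_ne_zero _ (by exact_mod_cast ht.ne')
  have h' := (mem_shr_iff ht.le).1 hz
  obtain ⟨f, c, hf, hc, hmap⟩ := aff_map hd z
  have h1 : ∀ᵐ y ∂(Measure.map f volume), y ∈ Ω → u y ≤ v y := by
    rw [hmap]
    exact Measure.ae_smul_measure h c
  have h2 : ∀ᵐ η : V n, f η ∈ Ω → u (f η) ≤ v (f η) := ae_of_ae_map f.continuous.aemeasurable h1
  rw [Phi, Phi, M, M]
  refine integral_mono_ae (integrable_rho_mul hd hΩ hu h').1 (integrable_rho_mul hd hΩ hv h').1 ?_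
  filter_upwards [h2] with η hη
  by_cases h3 : ‖η‖ ≤ 1
  · rw [hf] at hη
    exact mul_le_mul_of_nonneg_left (hη (h' η h3)) (rho_nonneg η)
  · rw [rho_eq_zero (le_of_lt (not_le.1 h3)), zero_mul, zero_mul]

end Pool.Agent.Helper29.AM
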