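import Pool.Agent.Helper29.AM.Defs

/-!
# Block AM-K1: the kernels `ρ`, `ρ₁` (0.1)

`chi0 s = expNegInvGlue (1-s)`: smooth, nonnegative, `> 0` iff `s < 1`, nonincreasing.
`ρ₁(η) = (∫_{|η|²}^1 χ)/nrm`; for `s ≥ 1` the integral is `0`; derivative of `s ↦ ∫_s^1 χ` is `-χ(s)`
(so it is smooth); `∫_s^1 χ ≤ (1-s) χ(s) ≤ χ(s)` for `0 ≤ s ≤ 1`.
`fderiv_rho1`: chain rule, derivative of `|η|²` in direction `w` is `2 re⟪η,w⟫`.
Moments: `ρ(cη) = ρ(η)` for `|c| = 1` gives `∫ l(η) ρ = 0` for linear `l` (c = -1), and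
`∫ |l(η)|² ρ = a |l|²`: from `fderiv_rho1` by integration by parts
(`∫ re⟪η,w⟫ f(η) ρ = (1/2) ∫ Df(η)(w) ρ₁`), with `f(η) = re⟪η,w⟫`.
-/

set_option autoImplicit false

namespace Pool.Agent.Helper29.AM

open MeasureTheory Set Filter Topology
open scoped ComplexOrder

variable {n : ℕ}

private theorem chi0_nonneg56 (s : ℝ) : 0 ≤ chi0 s := expNegInvGlue.nonneg _

private theorem chi0_pos56 {s : ℝ} (h : s < 1) : 0 < chi0 s :=
  expNegInvGlue.pos_of_pos (by linarith)

private theorem chi0_zero56 {s : ℝ} (h : 1 ≤ s) : chi0 s = 0 :=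
  expNegInvGlue.zero_of_nonpos (by linarith)

private theorem chi0_contDiff56 {m : ℕ∞} : ContDiff ℝ m chi0 := by
  have h : ContDiff ℝ m fun s : ℝ => 1 - s := contDiff_const.sub contDiff_id
  exact expNegInvGlue.contDiff.comp h

private theorem chi0_cont56 : Continuous chi0 := (chi0_contDiff56 (m := 0)).continuous

private theorem chi0_anti56 : Antitone chi0 := fun a b h =>
  expNegInvGlue.monotone (by linarith)

private theorem norm_sq_contDiff56 {m : ℕ∞} : ContDiff ℝ m fun η : V n => ‖η‖ ^ 2 :=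
  contDiff_norm_sq ℝ

private theorem num_contDiff56 : ContDiff ℝ (⊤ : ℕ∞) fun η : V n => chi0 (‖η‖ ^ 2) :=
  chi0_contDiff56.comp norm_sq_contDiff56

private theorem num_zero56 {η : V n} (h : 1 ≤ ‖η‖) : chi0 (‖η‖ ^ 2) = 0 :=
  chi0_zero56 (by nlinarith [norm_nonneg η])

private theorem cpt56 {f : V n → ℝ} (h : ∀ η, 1 ≤ ‖η‖ → f η = 0) : HasCompactSupport f := by
  refine HasCompactSupport.of_support_subset_isCompact (isCompact_closedBall (0 : V n) 1) ?_
  intro η hη
  rw [mem_closedBall_zero_iff]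
  by_contra hc
  exact hη (h η (not_le.1 hc).le)

private theorem pos_integral56 {f : V n → ℝ} (hc : Continuous f) (h0 : ∀ η, 0 ≤ f η)
    (h1 : ∀ η, 1 ≤ ‖η‖ → f η = 0) (h2 : 0 < f 0) : 0 < ∫ η, f η := by
  have hi : Integrable f := hc.integrable_of_hasCompactSupport (cpt56 h1)
  exact hc.integral_pos_of_hasCompactSupport_nonneg_nonzero (cpt56 h1) h0 h2.ne'

theorem nrm_pos : 0 < nrm n := by
  unfold nrm
  refine pos_integral56 (num_contDiff56).continuous (fun η => chi0_nonneg56 _)
    (fun η h => num_zero56 h) ?_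
  rw [norm_zero]
  exact chi0_pos56 (by norm_num)

theorem rho_contDiff : ContDiff ℝ (⊤ : ℕ∞) (rho : V n → ℝ) := by
  unfold rho
  exact num_contDiff56.div_const _

/-- the primitive -/
private noncomputable def prim56 (s : ℝ) : ℝ := ∫ t in s..1, chi0 t

private theorem prim56_deriv (s : ℝ) : HasDerivAt prim56 (-chi0 s) s := by
  unfold prim56
  exact intervalIntegral.integral_hasDerivAt_left (chi0_cont56.intervalIntegrable _ _)
    (chi0_cont56.stronglyMeasurableAtFilter _ _) chi0_cont56.continuousAt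

private theorem prim56_contDiff : ContDiff ℝ (⊤ : ℕ∞) prim56 := by
  have h : deriv prim56 = fun s => -chi0 s := funext fun s => (prim56_deriv s).deriv
  have h2 : ContDiff ℝ (⊤ : ℕ∞) (deriv prim56) := by
    rw [h]
    exact chi0_contDiff56.neg
  rw [contDiff_infty_iff_deriv]
  exact ⟨fun s => (prim56_deriv s).differentiableAt, h2⟩

theorem rho1_contDiff : ContDiff ℝ (⊤ : ℕ∞) (rho1 : V n → ℝ) := by
  have h : (rho1 : V n → ℝ) = fun η => prim56 (‖η‖ ^ 2) / nrm n := rfl
  rw [h]
  exact (prim56_contDiff.comp norm_sq_contDiff56).div_const _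

theorem rho_nonneg (η : V n) : 0 ≤ rho η :=
  div_nonneg (chi0_nonneg56 _) nrm_pos.le

theorem rho_pos {η : V n} (h : ‖η‖ < 1) : 0 < rho η :=
  div_pos (chi0_pos56 (by nlinarith [norm_nonneg η])) nrm_pos

theorem rho_eq_zero {η : V n} (h : 1 ≤ ‖η‖) : rho η = 0 := by
  rw [rho, num_zero56 h, zero_div]

private theorem prim56_zero {s : ℝ} (h : 1 ≤ s) : prim56 s = 0 := by
  unfold prim56
  rw [intervalIntegral.integral_symm, neg_eq_zero]
  have h1 : ∫ t in (1 : ℝ)..s, chi0 t = ∫ t in (1 : ℝ)..s, (0 : ℝ) := by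
    apply intervalIntegral.integral_congr
    intro t ht
    rw [uIcc_of_le h] at ht
    exact chi0_zero56 ht.1
  rw [h1, intervalIntegral.integral_zero]

private theorem prim56_nonneg (s : ℝ) : 0 ≤ prim56 s := by
  rcases le_total 1 s with h | h
  · rw [prim56_zero h]
  · exact intervalIntegral.integral_nonneg h fun t _ => chi0_nonneg56 t

private theorem prim56_le {s : ℝ} (h0 : 0 ≤ s) : prim56 s ≤ chi0 s := by
  rcases le_total 1 s with h | h
  · rw [prim56_zero h]
    exact chi0_nonneg56 s
  · have h1 : prim56 s ≤ ∫ _t in s..1, chi0 s := by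
      unfold prim56
      refine intervalIntegral.integral_mono_on h (chi0_cont56.intervalIntegrable _ _)
        (by simp) fun t ht => chi0_anti56 ht.1
    rw [intervalIntegral.integral_const, smul_eq_mul] at h1
    have h2 := chi0_nonneg56 s
    nlinarith

private theorem prim56_pos {s : ℝ} (h : s < 1) : 0 < prim56 s := by
  unfold prim56
  refine intervalIntegral.intervalIntegral_pos_of_pos_on (chi0_cont56.intervalIntegrable _ _)
    (fun t ht => chi0_pos56 ht.2) h

theorem rho1_nonneg (η : V n) : 0 ≤ rho1 η :=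
  div_nonneg (prim56_nonneg _) nrm_pos.le

theorem rho1_eq_zero {η : V n} (h : 1 ≤ ‖η‖) : rho1 η = 0 := by
  have h1 : rho1 η = prim56 (‖η‖ ^ 2) / nrm n := rfl
  rw [h1, prim56_zero (by nlinarith), zero_div]

theorem rho1_le_rho (η : V n) : rho1 η ≤ rho η :=
  div_le_div_of_nonneg_right (prim56_le (sq_nonneg _)) nrm_pos.le

theorem rho1_pos {η : V n} (h : ‖η‖ < 1) : 0 < rho1 η :=
  div_pos (prim56_pos (by nlinarith [norm_nonneg η])) nrm_pos

theorem rho_congr {η η' : V n} (h : ‖η‖ = ‖η'‖) : rho η = rho η' := by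
  rw [rho, rho, h]

theorem rho1_congr {η η' : V n} (h : ‖η‖ = ‖η'‖) : rho1 η = rho1 η' := by
  rw [rho1, rho1, h]

theorem rho_hasCompactSupport : HasCompactSupport (rho : V n → ℝ) :=
  cpt56 fun _ h => rho_eq_zero h

theorem rho1_hasCompactSupport : HasCompactSupport (rho1 : V n → ℝ) :=
  cpt56 fun _ h => rho1_eq_zero h

theorem rho_integrable : Integrable (rho : V n → ℝ) :=
  rho_contDiff.continuous.integrable_of_hasCompactSupport rho_hasCompactSupport

theorem rho1_integrable : Integrable (rho1 : V n → ℝ) :=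
  rho1_contDiff.continuous.integrable_of_hasCompactSupport rho1_hasCompactSupport

theorem integral_rho : ∫ η : V n, rho η = 1 := by
  unfold rho
  rw [integral_div]
  exact div_self nrm_pos.ne'

theorem aa_pos : 0 < aa n :=
  pos_integral56 rho1_contDiff.continuous rho1_nonneg (fun _ h => rho1_eq_zero h)
    (rho1_pos (by rw [norm_zero]; norm_num))

theorem aa_le_one : aa n ≤ 1 := by
  rw [← integral_rho (n := n)]
  exact integral_mono rho1_integrable rho_integrable rho1_le_rho

private theorem re_inner56 (x y : V n) : (inner ℂ x y).re = inner ℝ x y := by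
  simp [PiLp.inner_apply]

theorem fderiv_rho1 (η w : V n) : fderiv ℝ rho1 η w = -2 * rho η * (inner ℂ η w).re := by
  have h1 : (rho1 : V n → ℝ) = fun η => (nrm n)⁻¹ * prim56 (‖η‖ ^ 2) := by
    funext η
    have : rho1 η = prim56 (‖η‖ ^ 2) / nrm n := rfl
    rw [this, div_eq_inv_mul]
  have h2 : HasFDerivAt (fun η : V n => ‖η‖ ^ 2) (2 • innerSL ℝ η) η :=
    (hasStrictFDerivAt_norm_sq η).hasFDerivAt
  have h3 := ((prim56_deriv (‖η‖ ^ 2)).comp_hasFDerivAt η h2).const_mul (nrm n)⁻¹
  have h4 : fderiv ℝ (rho1 : V n → ℝ) η = (nrm n)⁻¹ • (-chi0 (‖η‖ ^ 2)) • (2 • innerSL ℝ η) := by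
    rw [h1]
    exact h3.fderiv
  rw [h4, re_inner56]
  simp only [rho, _root_.smul_apply, innerSL_apply_apply, smul_eq_mul, nsmul_eq_mul]
  push_cast
  ring

/-- integration by parts, `E` any real Banach space valued is not needed: real functions -/
theorem integral_rho_inner_mul {f : V n → ℝ} (hf : ContDiff ℝ 1 f) (w : V n) :
    ∫ η, rho η * ((inner ℂ η w).re * f η) = (1 / 2) * ∫ η, rho1 η * fderiv ℝ f η w := by
  have hd : Continuous fun η => fderiv ℝ f η w :=
    (hf.continuous_fderiv one_ne_zero).clm_apply continuous_const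
  have hd1 : Continuous fun η => fderiv ℝ (rho1 : V n → ℝ) η w :=
    (rho1_contDiff.continuous_fderiv (by simp)).clm_apply continuous_const
  have e : ∀ g : V n → ℝ, Continuous g → Integrable fun η => rho1 η * g η := fun g hg =>
    (rho1_contDiff.continuous.mul hg).integrable_of_hasCompactSupport rho1_hasCompactSupport.mul_right
  have hcs : HasCompactSupport fun η => fderiv ℝ (rho1 : V n → ℝ) η w := by
    refine cpt56 fun η h => ?_
    rw [fderiv_rho1, rho_eq_zero h, mul_zero, zero_mul]
  have h1 := integral_mul_fderiv_eq_neg_fderiv_mul_of_integrable (μ := (volume : Measure (V n)))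
    (f := (rho1 : V n → ℝ)) (g := f) (v := w)
    ((hd1.mul hf.continuous).integrable_of_hasCompactSupport hcs.mul_right)
    (e _ hd) (e _ hf.continuous)
    (fun x _ => (rho1_contDiff.differentiable (by simp)).differentiableAt)
    (fun x _ => (hf.differentiable one_ne_zero).differentiableAt)
  rw [h1, ← integral_neg, ← integral_const_mul]
  apply integral_congr_ae
  refine Filter.Eventually.of_forall fun η => ?_
  simp only [fderiv_rho1]
  ring

theorem integral_rho_linear (l : V n →L[ℂ] ℂ) : ∫ η, (rho η : ℂ) * l η = 0 := by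
  have h1 : ∫ η : V n, (rho (-η) : ℂ) * l (-η) = ∫ η, (rho η : ℂ) * l η :=
    integral_neg_eq_self (fun η : V n => (rho η : ℂ) * l η) volume
  have h2 : (fun η : V n => (rho (-η) : ℂ) * l (-η)) = fun η => -((rho η : ℂ) * l η) := by
    funext η
    rw [rho_congr (norm_neg η), map_neg, mul_neg]
  rw [h2, integral_neg] at h1
  have h3 : (2 : ℂ) * ∫ η : V n, (rho η : ℂ) * l η = 0 := by linear_combination -h1
  exact (mul_eq_zero.1 h3).resolve_left two_ne_zero

private theorem int_rho_mul56 {g : V n → ℝ} (hg : Continuous g) : Integrable fun η => rho η * g η :=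
  (rho_contDiff.continuous.mul hg).integrable_of_hasCompactSupport rho_hasCompactSupport.mul_right

private theorem integral_re_sq56 (w : V n) :
    ∫ η : V n, rho η * (inner ℂ η w).re ^ 2 = (1 / 2) * (aa n * ‖w‖ ^ 2) := by
  have hf : ContDiff ℝ 1 fun η : V n => (inner ℂ η w).re := by
    simp only [re_inner56]
    exact contDiff_id.inner ℝ contDiff_const
  have h1 := integral_rho_inner_mul hf w
  have h2 : ∀ η : V n, fderiv ℝ (fun η : V n => (inner ℂ η w).re) η w = ‖w‖ ^ 2 := by
    intro η
    have h3 : HasFDerivAt (fun η : V n => (inner ℂ η w).re) (innerSL ℝ w) η := by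
      have h4 : (fun η : V n => (inner ℂ η w).re) = fun η => innerSL ℝ w η := by
        funext η
        rw [re_inner56, innerSL_apply_apply, real_inner_comm]
      rw [h4]
      exact (innerSL ℝ w).hasFDerivAt
    rw [h3.fderiv, innerSL_apply_apply, real_inner_self_eq_norm_sq]
  simp only [h2] at h1
  rw [integral_mul_const] at h1
  rw [aa, ← h1]
  congr 1
  funext η
  ring

private theorem integral_norm_inner56 (v : V n) :
    ∫ η : V n, rho η * ‖inner ℂ v η‖ ^ 2 = aa n * ‖v‖ ^ 2 := by
  have h1 : ∀ η : V n, ‖inner ℂ v η‖ ^ 2 = (inner ℂ η v).re ^ 2 + (inner ℂ η (Complex.I • v)).re ^ 2 := by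
    intro η
    rw [inner_smul_right, ← inner_conj_symm v η, RCLike.norm_conj, ← Complex.normSq_eq_norm_sq,
      Complex.normSq_apply]
    simp only [Complex.mul_re, Complex.I_re, Complex.I_im, zero_mul, one_mul, zero_sub]
    ring
  have hc : ∀ w : V n, Continuous fun η : V n => (inner ℂ η w).re ^ 2 := by
    intro w
    fun_prop
  simp only [h1, mul_add]
  rw [integral_add (int_rho_mul56 (hc v)) (int_rho_mul56 (hc _)), integral_re_sq56, integral_re_sq56,
    norm_smul, Complex.norm_I, one_mul]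
  ring

theorem integral_rho_normSq_linear (l : V n →L[ℂ] ℂ) :
    ∫ η, rho η * ‖l η‖ ^ 2 = aa n * ‖l‖ ^ 2 := by
  obtain ⟨v, rfl⟩ := (InnerProductSpace.toDual ℂ (V n)).surjective l
  rw [LinearIsometryEquiv.norm_map, ← integral_norm_inner56 v]
  rfl

theorem integral_rho_normSq : ∫ η : V n, rho η * ‖η‖ ^ 2 = n * aa n := by
  have h1 : ∀ η : V n, ‖η‖ ^ 2 = ∑ i : Fin n, ‖inner ℂ (e i) η‖ ^ 2 := by
    intro η
    rw [EuclideanSpace.norm_sq_eq]
    apply Finset.sum_congr rfl
    intro i _
    unfold e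
    rw [EuclideanSpace.inner_single_left]
    simp
  simp only [h1, Finset.mul_sum]
  rw [integral_finsetSum]
  · simp only [integral_norm_inner56]
    have h2 : ∀ i : Fin n, ‖e i‖ = 1 := by
      intro i
      unfold e
      simp
    simp [h2]
  · intro i _
    refine int_rho_mul56 ?_
    fun_prop

/-- `∫ ρ |v + b η|² = |v|² + n a |b|²` -/
theorem integral_rho_norm_add_sq (v : V n) (b : ℂ) :
    ∫ η : V n, rho η * ‖v + b • η‖ ^ 2 = ‖v‖ ^ 2 + n * aa n * ‖b‖ ^ 2 := by
  have h1 : ∀ η : V n, rho η * ‖v + b • η‖ ^ 2 = rho η * ‖v‖ ^ 2 + 2 * (rho η * (b * inner ℂ v η).re) +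
      ‖b‖ ^ 2 * (rho η * ‖η‖ ^ 2) := by
    intro η
    have h2 := norm_add_sq (𝕜 := ℂ) v (b • η)
    rw [h2, inner_smul_right, norm_smul]
    simp only [RCLike.re_to_complex]
    ring
  have hc : Continuous fun η : V n => (b * inner ℂ v η).re := by fun_prop
  have i1 : Integrable fun η : V n => rho η * ‖v‖ ^ 2 := int_rho_mul56 continuous_const
  have i2 : Integrable fun η : V n => 2 * (rho η * (b * inner ℂ v η).re) := (int_rho_mul56 hc).const_mul 2
  have i3 : Integrable fun η : V n => ‖b‖ ^ 2 * (rho η * ‖η‖ ^ 2) :=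
    (int_rho_mul56 (by fun_prop)).const_mul _
  simp only [h1]
  have i12 : Integrable fun η : V n => rho η * ‖v‖ ^ 2 + 2 * (rho η * (b * inner ℂ v η).re) := i1.add i2
  rw [integral_add i12 i3, integral_add i1 i2, integral_const_mul, integral_const_mul,
    integral_rho_normSq, integral_mul_const, integral_rho]
  have h3 : ∫ η : V n, rho η * (b * inner ℂ v η).re = 0 := by
    have h4 := integral_rho_linear (b • innerSL ℂ v : V n →L[ℂ] ℂ)
    have h5 : RCLike.re (∫ η : V n, (rho η : ℂ) * (b • innerSL ℂ v : V n →L[ℂ] ℂ) η) = RCLike.re (0 : ℂ) :=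
      congrArg _ h4
    have hc2 : Continuous fun η : V n => (rho η : ℂ) * (b • innerSL ℂ v : V n →L[ℂ] ℂ) η :=
      (Complex.continuous_ofReal.comp rho_contDiff.continuous).mul (b • innerSL ℂ v : V n →L[ℂ] ℂ).continuous
    have hint : Integrable fun η : V n => (rho η : ℂ) * (b • innerSL ℂ v : V n →L[ℂ] ℂ) η := by
      refine hc2.integrable_of_hasCompactSupport ?_
      refine HasCompactSupport.of_support_subset_isCompact (isCompact_closedBall (0 : V n) 1) ?_
      intro η hη
      rw [mem_closedBall_zero_iff]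
      by_contra hcon
      apply hη
      simp only [rho_eq_zero (not_le.1 hcon).le, Complex.ofReal_zero, zero_mul]
    rw [← integral_re hint, map_zero] at h5
    rw [← h5]
    congr 1
    funext η
    simp
  rw [h3]
  ring

/-- rotation -/
private noncomputable def rot56 (c : ℂ) (hc : ‖c‖ = 1) : V n ≃ₗᵢ[ℝ] V n :=
  LinearIsometry.toLinearIsometryEquiv
    { toLinearMap := (c • LinearMap.id : V n →ₗ[ℂ] V n).restrictScalars ℝ
      norm_map' := fun x => by
        change ‖c • x‖ = ‖x‖
        rw [norm_smul, hc, one_mul] } rfl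

private theorem rot56_apply (c : ℂ) (hc : ‖c‖ = 1) (x : V n) : rot56 c hc x = c • x := rfl

private theorem rot56_mp (c : ℂ) (hc : ‖c‖ = 1) :
    MeasurePreserving (rot56 (n := n) c hc) volume volume := (rot56 c hc).measurePreserving

private theorem rot56_emb (c : ℂ) (hc : ‖c‖ = 1) : MeasurableEmbedding (rot56 (n := n) c hc) :=
  (rot56 (n := n) c hc).toHomeomorph.measurableEmbedding

private theorem norm_exp56 (t : ℝ) : ‖Complex.exp (t * Complex.I)‖ = 1 := Complex.norm_exp_ofReal_mul_I t

private theorem log_abs56 {x b : ℝ} (h0 : 0 ≤ x) (hb : 0 ≤ b) (h : x ≤ 1 + b) :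
    |Real.log x| ≤ 2 * Real.log (1 + b) - Real.log x := by
  have h2 : 0 ≤ Real.log (1 + b) := Real.log_nonneg (by linarith)
  rcases le_or_gt (Real.log x) 0 with h1 | h1
  · rw [abs_of_nonpos h1]
    linarith
  · rw [abs_of_pos h1]
    have hx : 0 < x := by
      rcases h0.eq_or_lt with h3 | h3
      · rw [← h3, Real.log_zero] at h1
        exact absurd h1 (lt_irrefl _)
      · exact h3
    have h3 := Real.log_le_log hx h
    linarith

private theorem avg56 (z : ℂ) : ∫ t in (0 : ℝ)..2 * Real.pi, Real.log ‖Complex.exp (t * Complex.I) + z‖ =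
    2 * Real.pi * Real.posLog ‖z‖ := by
  have h := circleAverage_log_norm_add_const_eq_posLog (a := z)
  rw [Real.circleAverage_def] at h
  have h2 : ∀ t : ℝ, circleMap 0 1 t = Complex.exp (t * Complex.I) := by
    intro t
    simp [circleMap]
  simp only [h2, smul_eq_mul] at h
  have hpi : (2 * Real.pi) ≠ 0 := by positivity
  rw [← h, ← mul_assoc, mul_inv_cancel₀ hpi, one_mul]

private theorem intv56 (z : ℂ) : IntervalIntegrable (fun t : ℝ => Real.log ‖Complex.exp (t * Complex.I) + z‖)
    volume 0 (2 * Real.pi) := by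
  have h := circleIntegrable_log_norm_sub_const (a := -z) (c := 0) 1
  unfold CircleIntegrable at h
  have h2 : ∀ t : ℝ, circleMap 0 1 t = Complex.exp (t * Complex.I) := by
    intro t
    simp [circleMap]
  simpa only [h2, sub_neg_eq_add] using h

private theorem abs_avg56 (z : ℂ) {b : ℝ} (hz : ‖z‖ ≤ b) :
    ∫ t in (0 : ℝ)..2 * Real.pi, |Real.log ‖Complex.exp (t * Complex.I) + z‖| ≤ 4 * Real.pi * Real.log (1 + b) := by
  have hb : 0 ≤ b := (norm_nonneg z).trans hz
  have hpi := Real.pi_pos
  have h1 : ∫ t in (0 : ℝ)..2 * Real.pi, |Real.log ‖Complex.exp (t * Complex.I) + z‖| ≤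
      ∫ t in (0 : ℝ)..2 * Real.pi, (2 * Real.log (1 + b) - Real.log ‖Complex.exp (t * Complex.I) + z‖) := by
    refine intervalIntegral.integral_mono_on (by positivity) (intv56 z).abs
      ((by simp : IntervalIntegrable (fun _ : ℝ => 2 * Real.log (1 + b)) volume 0 (2 * Real.pi)).sub (intv56 z))
      fun t _ => log_abs56 (norm_nonneg _) hb ?_
    refine (norm_add_le _ _).trans ?_
    rw [norm_exp56]
    linarith
  refine h1.trans ?_
  rw [intervalIntegral.integral_sub (by simp) (intv56 z), avg56, intervalIntegral.integral_const, smul_eq_mul]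
  have h2 : 0 ≤ Real.posLog ‖z‖ := Real.posLog_nonneg
  have h3 := mul_nonneg hpi.le h2
  nlinarith

/-- logarithmic mean: `∫ ρ(η) log|1+β(η)| dη ≥ 0` -/
theorem integral_rho_log_nonneg (β : V n →L[ℂ] ℂ) :
    Integrable (fun η => rho η * Real.log ‖1 + β η‖) ∧
      0 ≤ ∫ η, rho η * Real.log ‖1 + β η‖ := by
  have hpi := Real.pi_pos
  have hm0 : (0 : ℝ) ≤ 2 * Real.pi := by positivity
  set μθ : Measure ℝ := volume.restrict (Ioc 0 (2 * Real.pi)) with hμθ
  set h : ℝ × V n → ℝ := fun q => rho q.2 * Real.log ‖Complex.exp (q.1 * Complex.I) + β q.2‖ with hh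
  -- the rotated functions
  have hrot : ∀ (t : ℝ) (η : V n), h (t, η) =
      (fun η => rho η * Real.log ‖1 + β η‖) (rot56 (Complex.exp ((-t : ℝ) * Complex.I)) (norm_exp56 _) η) := by
    intro t η
    change rho η * Real.log ‖Complex.exp (t * Complex.I) + β η‖ =
      rho (Complex.exp ((-t : ℝ) * Complex.I) • η) * Real.log ‖1 + β (Complex.exp ((-t : ℝ) * Complex.I) • η)‖
    have e1 : rho (Complex.exp ((-t : ℝ) * Complex.I) • η) = rho η :=
      rho_congr (by rw [norm_smul, norm_exp56, one_mul])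
    have e2 : Complex.exp (t * Complex.I) * (1 + Complex.exp ((-t : ℝ) * Complex.I) * β η) =
        Complex.exp (t * Complex.I) + β η := by
      rw [mul_add, mul_one, ← mul_assoc, ← Complex.exp_add]
      push_cast
      have : (t : ℂ) * Complex.I + -(t : ℂ) * Complex.I = 0 := by ring
      rw [this, Complex.exp_zero, one_mul]
    rw [e1, map_smul, smul_eq_mul, ← e2, norm_mul, norm_exp56, one_mul]
  have hmeas : Measurable h := by
    refine (rho_contDiff.continuous.measurable.comp measurable_snd).mul ?_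
    refine Real.measurable_log.comp ?_
    have hc : Continuous fun q : ℝ × V n => ‖Complex.exp (q.1 * Complex.I) + β q.2‖ := by fun_prop
    exact hc.measurable
  have hint : Integrable h (μθ.prod volume) := by
    rw [integrable_prod_iff' hmeas.aestronglyMeasurable]
    refine ⟨Filter.Eventually.of_forall fun η => ?_, ?_⟩
    · have h1 := (intv56 (β η)).const_mul (rho η)
      rw [intervalIntegrable_iff_integrableOn_Ioc_of_le hm0] at h1
      exact h1
    · refine Integrable.mono' (rho_integrable.mul_const (4 * Real.pi * Real.log (1 + ‖β‖))) ?_ ?_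
      · exact (hmeas.norm.stronglyMeasurable.integral_prod_left').aestronglyMeasurable
      · refine Filter.Eventually.of_forall fun η => ?_
        rw [Real.norm_of_nonneg (integral_nonneg fun _ => norm_nonneg _)]
        have e1 : ∫ t, ‖h (t, η)‖ ∂μθ = rho η * ∫ t in (0 : ℝ)..2 * Real.pi,
            |Real.log ‖Complex.exp (t * Complex.I) + β η‖| := by
          rw [intervalIntegral.integral_of_le hm0, ← integral_const_mul]
          congr 1
          funext t
          simp only [hh, norm_mul, Real.norm_eq_abs, abs_of_nonneg (rho_nonneg η)]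
        rw [e1]
        rcases le_or_gt 1 ‖η‖ with h2 | h2
        · rw [rho_eq_zero h2, zero_mul, zero_mul]
        · refine mul_le_mul_of_nonneg_left (abs_avg56 _ ?_) (rho_nonneg η)
          refine (β.le_opNorm η).trans ?_
          exact mul_le_of_le_one_right (norm_nonneg _) h2.le
  have hfin : Integrable (fun η => rho η * Real.log ‖1 + β η‖) := by
    have h1 := hint.prod_right_ae
    have h2 : μθ ≠ 0 := by
      rw [hμθ, Ne, Measure.restrict_eq_zero, Real.volume_Ioc]
      simp [hpi]
    have hne : NeZero μθ := ⟨h2⟩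
    obtain ⟨t, ht⟩ := h1.exists
    have h3 : (fun η => h (t, η)) = (fun η => rho η * Real.log ‖1 + β η‖) ∘
        (rot56 (Complex.exp ((-t : ℝ) * Complex.I)) (norm_exp56 _)) := funext fun η => hrot t η
    rw [h3] at ht
    exact ((rot56_mp (n := n) (Complex.exp ((-t : ℝ) * Complex.I)) (norm_exp56 _)).integrable_comp_emb
      (rot56_emb _ _)).1 ht
  refine ⟨hfin, ?_⟩
  have hI : ∀ t : ℝ, ∫ η, h (t, η) = ∫ η, rho η * Real.log ‖1 + β η‖ := by
    intro t
    have h3 : (fun η => h (t, η)) = fun η => (fun η => rho η * Real.log ‖1 + β η‖)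
        (rot56 (Complex.exp ((-t : ℝ) * Complex.I)) (norm_exp56 _) η) := funext fun η => hrot t η
    rw [h3]
    exact (rot56_mp (n := n) (Complex.exp ((-t : ℝ) * Complex.I)) (norm_exp56 _)).integral_comp
      (rot56_emb _ _) (fun η => rho η * Real.log ‖1 + β η‖)
  have hswap := integral_integral_swap (f := fun t η => h (t, η)) (μ := μθ) (ν := volume) hint
  simp only [hI] at hswap
  have hL : ∫ _t, (∫ η, rho η * Real.log ‖1 + β η‖) ∂μθ = 2 * Real.pi * ∫ η, rho η * Real.log ‖1 + β η‖ := by
    rw [hμθ, setIntegral_const, smul_eq_mul, Real.volume_real_Ioc_of_le hm0, sub_zero]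
  rw [hL] at hswap
  have hR : 0 ≤ ∫ η, ∫ t, h (t, η) ∂μθ := by
    refine integral_nonneg fun η => ?_
    change 0 ≤ ∫ t, h (t, η) ∂μθ
    have e1 : ∫ t, h (t, η) ∂μθ = rho η * (2 * Real.pi * Real.posLog ‖β η‖) := by
      rw [← avg56, intervalIntegral.integral_of_le hm0, ← integral_const_mul]
    rw [e1]
    have := Real.posLog_nonneg (x := ‖β η‖)
    have := rho_nonneg η
    positivity
  rw [← hswap] at hR
  exact nonneg_of_mul_nonneg_right hR (by positivity)

end Pool.Agent.Helper29.AM
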