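import Pool.Agent.Helper29.AM.GA1
import Pool.Agent.Helper29.AM.GS4
import Pool.Agent.Helper32.Hol

/-!
# Block AM-GA2: coordinate independence

Two charts `i`, `j`, `κ = e_j ∘ e_i⁻¹`, biholomorphic between the open sets
`(e i).symm.trans (e j)).source` and `.target` (structure `Bih`). On the source
`pot i v = (pot j v) ∘ κ - h`, `h = g_j ∘ κ - g_i` pluriharmonic (`g_compat`), and
`Ft τ i v = |det κ'|^{2/n} (Ft τ j v) ∘ κ` (`f_compat`). So `GS.comp` and `GS.add_ph` transfer the local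
classes; `GS.of_local` globalises.
`KCX_of_local`: `ε |κ(z)|² - ε' |z|²` is psh if `ε |κ' w|² ≥ ε' |w|²`; the constant
`ρ = inf |κ_{ij}'(z) w|²/|w|² > 0` over the compact set `‖z‖ ≤ 3`, `‖κ(z)‖ ≤ 3`.
-/

set_option autoImplicit false

namespace Pool.Agent.Helper29.AM

open MeasureTheory Set Filter Topology
open scoped ComplexOrder

namespace Atl

variable {X : Type} [TopologicalSpace X] [MeasurableSpace X] {n N : ℕ} (A : Atl X n N)

private theorem two_le32 : (2 : WithTop ℕ∞) ≤ ((⊤ : ℕ∞) : WithTop ℕ∞) := by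
  have h : ((2 : ℕ∞) : WithTop ℕ∞) ≤ ((⊤ : ℕ∞) : WithTop ℕ∞) := WithTop.coe_le_coe.2 le_top
  exact h

private theorem mem_source32 {i j : Fin N} {z : V n} :
    z ∈ ((A.e i).symm.trans (A.e j)).source ↔
      z ∈ (A.e i).target ∧ (A.e i).symm z ∈ (A.e j).source := Iff.rfl

/-- the transition maps are biholomorphic -/
theorem bih (i j : Fin N) : Bih ((A.e i).symm.trans (A.e j)).source
    ((A.e i).symm.trans (A.e j)).target (fun z => A.e j ((A.e i).symm z))
    (fun z => A.e i ((A.e j).symm z)) := by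
  have hs : ((A.e i).symm.trans (A.e j)).target = ((A.e j).symm.trans (A.e i)).source := by
    have h : ((A.e i).symm.trans (A.e j)).symm = (A.e j).symm.trans (A.e i) := by
      rw [OpenPartialHomeomorph.trans_symm_eq_symm_trans_symm, OpenPartialHomeomorph.symm_symm]
    rw [← h]
    rfl
  refine ⟨((A.e i).symm.trans (A.e j)).open_source, ((A.e i).symm.trans (A.e j)).open_target,
    A.hol i j, ?_, ((A.e i).symm.trans (A.e j)).mapsTo,
    ((A.e i).symm.trans (A.e j)).symm.mapsTo,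
    fun z hz => ((A.e i).symm.trans (A.e j)).left_inv hz,
    fun z hz => ((A.e i).symm.trans (A.e j)).right_inv hz⟩
  rw [hs]
  exact A.hol j i

theorem pot_comp (i j : Fin N) (v : X → ℝ) {z : V n}
    (hz : z ∈ ((A.e i).symm.trans (A.e j)).source) :
    A.pot i v z = A.pot j v (A.e j ((A.e i).symm z)) -
      (A.g j (A.e j ((A.e i).symm z)) - A.g i z) := by
  unfold pot lc
  rw [(A.e j).left_inv (A.mem_source32.1 hz).2]
  ring

private theorem kap_target32 {i j : Fin N} {z : V n}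
    (hz : z ∈ ((A.e i).symm.trans (A.e j)).source) :
    A.e j ((A.e i).symm z) ∈ (A.e j).target :=
  (A.e j).map_source (A.mem_source32.1 hz).2

theorem Ft_comp (hn : 0 < n) (τ : ℝ) (i j : Fin N) (v : X → ℝ) {z : V n}
    (hz : z ∈ ((A.e i).symm.trans (A.e j)).source) :
    A.Ft τ i v z = ‖(fderiv ℂ (fun y => A.e j ((A.e i).symm y)) z).det‖ ^ ((2 : ℝ) / n) *
      A.Ft τ j v (A.e j ((A.e i).symm z)) := by
  have hf : 0 < A.f j (A.e j ((A.e i).symm z)) := A.f_pos j _ (A.kap_target32 hz)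
  unfold Ft lc
  rw [(A.e j).left_inv (A.mem_source32.1 hz).2, A.f_compat i j z hz]
  obtain ⟨d, hd⟩ : ∃ d, d = ‖(fderiv ℂ (fun y => A.e j ((A.e i).symm y)) z).det‖ := ⟨_, rfl⟩
  have hd0 : 0 ≤ d := hd ▸ norm_nonneg _
  rw [← hd]
  rw [show Real.exp (τ * v ((A.e i).symm z)) * (d ^ 2 * A.f j (A.e j ((A.e i).symm z))) =
    d ^ 2 * (Real.exp (τ * v ((A.e i).symm z)) * A.f j (A.e j ((A.e i).symm z))) by ring]
  rw [Real.mul_rpow (by positivity) (by positivity)]
  congr 1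
  rw [← Real.rpow_natCast d 2, ← Real.rpow_mul hd0]
  congr 1
  push_cast
  ring

private theorem kap_contDiffAt32 {i j : Fin N} {z : V n}
    (hz : z ∈ ((A.e i).symm.trans (A.e j)).source) {k : ℕ∞} :
    ContDiffAt ℂ k (fun y => A.e j ((A.e i).symm y)) z :=
  Helper32.contDiffAt_hol ((A.e i).symm.trans (A.e j)).open_source (A.hol i j) hz

private theorem g_contDiffAt32 {i : Fin N} {z : V n} (hz : z ∈ (A.e i).target) :
    ContDiffAt ℝ 2 (A.g i) z :=
  ((A.g_smooth i).contDiffAt ((A.e i).open_target.mem_nhds hz)).of_le two_le32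

private theorem gk_contDiffAt32 {i j : Fin N} {z : V n}
    (hz : z ∈ ((A.e i).symm.trans (A.e j)).source) :
    ContDiffAt ℝ 2 (fun y => A.g j (A.e j ((A.e i).symm y)) - A.g i y) z := by
  have h1 : ContDiffAt ℝ 2 (fun y => A.e j ((A.e i).symm y)) z :=
    (A.kap_contDiffAt32 hz (k := 2)).restrict_scalars ℝ
  have h2 : ContDiffAt ℝ 2 (A.g j) (A.e j ((A.e i).symm z)) :=
    A.g_contDiffAt32 (A.kap_target32 hz)
  exact (h2.comp z h1).sub (A.g_contDiffAt32 (A.mem_source32.1 hz).1)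

private theorem lev_q32 {i j : Fin N} {z : V n}
    (hz : z ∈ ((A.e i).symm.trans (A.e j)).source) (w : V n) :
    lev (fun y => (-1 : ℝ) * (A.g j (A.e j ((A.e i).symm y)) - A.g i y)) z w = 0 := by
  rw [lev_const_mul (-1) (A.gk_contDiffAt32 hz), A.g_compat i j z hz w, mul_zero]

/-- the set in the chart `i` which corresponds to `W` in the chart `j` -/
private def OO32 (i j : Fin N) (W : Set (V n)) : Set (V n) :=
  (A.e i).target ∩ (A.e i).symm ⁻¹' ((A.e j).source ∩ (A.e j) ⁻¹' W)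

private theorem OO_open32 (i j : Fin N) {W : Set (V n)} (hW : IsOpen W) :
    IsOpen (A.OO32 i j W) :=
  A.isOpen_preimage_symm i ((A.e j).isOpen_inter_preimage hW)

private theorem OO_sub32 {i j : Fin N} {W : Set (V n)} {z : V n} (hz : z ∈ A.OO32 i j W) :
    z ∈ ((A.e i).symm.trans (A.e j)).source := ⟨hz.1, hz.2.1⟩

private theorem OO_bih32 (i j : Fin N) {W : Set (V n)} (hW : IsOpen W) :
    Bih (A.OO32 i j W) (((A.e i).symm.trans (A.e j)).target ∩ W)
      (fun z => A.e j ((A.e i).symm z)) (fun z => A.e i ((A.e j).symm z)) := by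
  have hb := A.bih i j
  refine ⟨A.OO_open32 i j hW, hb.open2.inter hW, hb.hol.mono fun z hz => A.OO_sub32 hz,
    hb.hol'.mono inter_subset_left, ?_, ?_, fun z hz => hb.left z (A.OO_sub32 hz),
    fun z hz => hb.right z hz.1⟩
  · intro z hz
    exact ⟨hb.maps (A.OO_sub32 hz), hz.2.2⟩
  · intro y hy
    have h1 := hb.maps' hy.1
    have h2 : A.e j ((A.e i).symm (A.e i ((A.e j).symm y))) = y := hb.right y hy.1
    refine ⟨h1.1, h1.2, ?_⟩
    show A.e j ((A.e i).symm (A.e i ((A.e j).symm y))) ∈ W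
    rw [h2]
    exact hy.2

/-- transfer -/
private theorem transfer32 (v : X → ℝ) (i j : Fin N) {W : Set (V n)} (hW : IsOpen W)
    {F r : V n → ℝ} (h : GS W F fun z => A.pot j v z + r z) :
    GS (A.OO32 i j W)
      (fun z => ‖(fderiv ℂ (fun y => A.e j ((A.e i).symm y)) z).det‖ ^ ((2 : ℝ) / n) *
        F (A.e j ((A.e i).symm z))) fun z => A.pot i v z + r (A.e j ((A.e i).symm z)) := by
  have hb := A.OO_bih32 i j hW
  have h1 : GS (((A.e i).symm.trans (A.e j)).target ∩ W) F fun z => A.pot j v z + r z :=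
    h.mono_set hb.open2 inter_subset_right
  have h2 := GS.comp hb h1
  have h3 := h2.add_ph hb.open1
    (q := fun y => (-1 : ℝ) * (A.g j (A.e j ((A.e i).symm y)) - A.g i y))
    (fun z hz => (contDiffAt_const.mul (A.gk_contDiffAt32 (A.OO_sub32 hz))).contDiffWithinAt)
    (fun z hz w => A.lev_q32 (A.OO_sub32 hz) w)
  refine h3.congr hb.open1 (Eventually.of_forall fun z hz => ?_)
  rw [A.pot_comp i j v (A.OO_sub32 hz)]
  ring

private theorem transfer0_32 (v : X → ℝ) (i j : Fin N) {W : Set (V n)} (hW : IsOpen W)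
    {F : V n → ℝ} (h : GS W F (A.pot j v)) :
    GS (A.OO32 i j W)
      (fun z => ‖(fderiv ℂ (fun y => A.e j ((A.e i).symm y)) z).det‖ ^ ((2 : ℝ) / n) *
        F (A.e j ((A.e i).symm z))) (A.pot i v) := by
  have h1 : GS W F fun z => A.pot j v z + (fun _ => (0 : ℝ)) z :=
    h.congr hW (Eventually.of_forall fun z _ => (add_zero _).symm)
  exact (A.transfer32 v i j hW h1).congr (A.OO_open32 i j hW)
    (Eventually.of_forall fun z _ => add_zero _)

/-- transfer of the local class from the chart `j` to the chart `i` -/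
theorem GS_transfer (hn : 0 < n) (τ : ℝ) (v : X → ℝ) (i j : Fin N) {W : Set (V n)} (hW : IsOpen W)
    (hWj : W ⊆ (A.e j).target) (h : GS W (A.Ft τ j v) (A.pot j v)) :
    GS ((A.e i).target ∩ (A.e i).symm ⁻¹' ((A.e j).source ∩ (A.e j) ⁻¹' W))
      (A.Ft τ i v) (A.pot i v) := by
  have h1 := A.transfer0_32 v i j hW h
  refine h1.congrF (A.OO_open32 i j hW)
    (Eventually.of_forall fun z hz => (A.Ft_comp hn τ i j v (A.OO_sub32 hz)).symm) fun z hz => ?_
  have hf := A.f_pos i z hz.1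
  unfold Ft
  positivity

theorem PSHd_transfer (v : X → ℝ) (i j : Fin N) {W : Set (V n)} (hW : IsOpen W)
    (hWj : W ⊆ (A.e j).target) (h : PSHd W (A.pot j v)) :
    PSHd ((A.e i).target ∩ (A.e i).symm ⁻¹' ((A.e j).source ∩ (A.e j) ⁻¹' W)) (A.pot i v) :=
  (A.transfer0_32 v i j hW h).psh

/-- `S_τ` may be checked near each point in one chart -/
theorem St_of_local (hn : 0 < n) {τ C : ℝ} {v : X → ℝ} (hC : ∀ᵐ x ∂A.μ, v x ≤ C)
    (h : ∀ x, ∃ i, ∃ W : Set (V n), IsOpen W ∧ W ⊆ (A.e i).target ∧ x ∈ (A.e i).source ∧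
      A.e i x ∈ W ∧ GS W (A.Ft τ i v) (A.pot i v)) : A.St τ C v := by
  refine ⟨hC, fun i => GS.of_local Metric.isOpen_ball fun z hz => ?_⟩
  have hzt : z ∈ (A.e i).target := A.B3_subset i hz
  obtain ⟨j, W, hW, hWj, hx, hxW, hGS⟩ := h ((A.e i).symm z)
  refine ⟨A.OO32 i j W ∩ B3 n, (A.OO_open32 i j hW).inter Metric.isOpen_ball,
    ⟨⟨hzt, hx, hxW⟩, hz⟩, inter_subset_right, ?_⟩
  exact (A.GS_transfer hn τ v i j hW hWj hGS).mono_set
    ((A.OO_open32 i j hW).inter Metric.isOpen_ball) inter_subset_left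

theorem PSX_of_local {v : X → ℝ}
    (h : ∀ x, ∃ i, ∃ W : Set (V n), IsOpen W ∧ W ⊆ (A.e i).target ∧ x ∈ (A.e i).source ∧
      A.e i x ∈ W ∧ PSHd W (A.pot i v)) : A.PSX v := by
  refine fun i => GS.of_local Metric.isOpen_ball fun z hz => ?_
  have hzt : z ∈ (A.e i).target := A.B3_subset i hz
  obtain ⟨j, W, hW, hWj, hx, hxW, hGS⟩ := h ((A.e i).symm z)
  refine ⟨A.OO32 i j W ∩ B3 n, (A.OO_open32 i j hW).inter Metric.isOpen_ball,
    ⟨⟨hzt, hx, hxW⟩, hz⟩, inter_subset_right, ?_⟩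
  exact (A.PSHd_transfer v i j hW hWj hGS).mono_set
    ((A.OO_open32 i j hW).inter Metric.isOpen_ball) inter_subset_left

/-- members of `S_τ` satisfy the condition on the whole target of a chart, near points of every chart -/
theorem PSX.target {v : X → ℝ} (h : A.PSX v) (i : Fin N) : PSHd (A.e i).target (A.pot i v) := by
  refine GS.of_local (A.e i).open_target fun z hz => ?_
  obtain ⟨j, hx, hxj⟩ := A.cover ((A.e i).symm z)
  refine ⟨A.OO32 i j (B3 n), A.OO_open32 i j Metric.isOpen_ball, ⟨hz, hx, ?_⟩,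
    inter_subset_left, A.PSHd_transfer v i j Metric.isOpen_ball (A.B3_subset j) (h j)⟩
  show A.e j ((A.e i).symm z) ∈ Metric.ball 0 3
  rw [mem_ball_zero_iff]
  linarith

theorem St.target (hn : 0 < n) {τ C : ℝ} {v : X → ℝ} (h : A.St τ C v) (i : Fin N) :
    GS (A.e i).target (A.Ft τ i v) (A.pot i v) := by
  refine GS.of_local (A.e i).open_target fun z hz => ?_
  obtain ⟨j, hx, hxj⟩ := A.cover ((A.e i).symm z)
  refine ⟨A.OO32 i j (B3 n), A.OO_open32 i j Metric.isOpen_ball, ⟨hz, hx, ?_⟩,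
    inter_subset_left, A.GS_transfer hn τ v i j Metric.isOpen_ball (A.B3_subset j) (h.gs j)⟩
  show A.e j ((A.e i).symm z) ∈ Metric.ball 0 3
  rw [mem_ball_zero_iff]
  linarith

private theorem source_of32 {i j : Fin N} {z : V n} (hz : ‖z‖ ≤ 3)
    (hz' : (A.e i).symm z ∈ A.Ci j 3) : z ∈ ((A.e i).symm.trans (A.e j)).source :=
  ⟨A.mem_target_of_norm_le (by linarith), hz'.1⟩

private theorem transition_ij32 [CompactSpace X] [T2Space X] (i j : Fin N) : ∃ L : ℝ, 0 ≤ L ∧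
    ∀ z : V n, ‖z‖ ≤ 3 → (A.e i).symm z ∈ A.Ci j 3 → ∀ w : V n,
      ‖w‖ ≤ L * ‖fderiv ℂ (fun y => A.e j ((A.e i).symm y)) z w‖ := by
  have hb := A.bih i j
  obtain ⟨K, hKdef⟩ : ∃ K : Set (V n), K = Metric.closedBall 0 3 ∩ (A.e i).symm ⁻¹' (A.Ci j 3) :=
    ⟨_, rfl⟩
  have hKc : IsCompact K := by
    have h1 : ContinuousOn (A.e i).symm (Metric.closedBall (0 : V n) 3) := by
      apply (A.e i).continuousOn_symm.mono
      intro z hz
      rw [mem_closedBall_zero_iff] at hz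
      exact A.mem_target_of_norm_le (by linarith)
    have h2 : IsClosed K := by
      rw [hKdef]
      exact h1.preimage_isClosed_of_isClosed Metric.isClosed_closedBall
        (A.isCompact_Ci j (by norm_num)).isClosed
    exact (isCompact_closedBall (0 : V n) 3).of_isClosed_subset h2
      (by rw [hKdef]; exact inter_subset_left)
  have hKs : ∀ z ∈ K, z ∈ ((A.e i).symm.trans (A.e j)).source := by
    intro z hz
    rw [hKdef] at hz
    exact A.source_of32 (mem_closedBall_zero_iff.1 hz.1) hz.2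
  have hcont : ContinuousOn (fun z => fderiv ℂ (fun y => A.e i ((A.e j).symm y))
      (A.e j ((A.e i).symm z))) K := by
    have h1 := (Helper32.differentiableOn_fderiv_hol hb.open2 hb.hol').continuousOn
    exact h1.comp (hb.hol.continuousOn.mono hKs) fun z hz => hb.maps (hKs z hz)
  obtain ⟨L, hL⟩ := hKc.exists_bound_of_continuousOn hcont
  refine ⟨max L 0, le_max_right _ _, fun z hz hz' w => ?_⟩
  have hzK : z ∈ K := by
    rw [hKdef]
    exact ⟨mem_closedBall_zero_iff.2 hz, hz'⟩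
  have hzs := hKs z hzK
  have h1 : HasFDerivAt (fun y => A.e j ((A.e i).symm y))
      (fderiv ℂ (fun y => A.e j ((A.e i).symm y)) z) z :=
    ((hb.hol z hzs).differentiableAt (hb.open1.mem_nhds hzs)).hasFDerivAt
  have hzt := hb.maps hzs
  have h2 : HasFDerivAt (fun y => A.e i ((A.e j).symm y))
      (fderiv ℂ (fun y => A.e i ((A.e j).symm y)) (A.e j ((A.e i).symm z)))
      (A.e j ((A.e i).symm z)) :=
    ((hb.hol' _ hzt).differentiableAt (hb.open2.mem_nhds hzt)).hasFDerivAt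
  have h3 := h2.comp z h1
  have h4 : HasFDerivAt ((fun y => A.e i ((A.e j).symm y)) ∘ fun y => A.e j ((A.e i).symm y))
      (ContinuousLinearMap.id ℂ (V n)) z := by
    refine (hasFDerivAt_id z).congr_of_eventuallyEq ?_
    filter_upwards [hb.open1.mem_nhds hzs] with y hy
    exact hb.left y hy
  have h5 := congrArg (fun T : V n →L[ℂ] V n => T w) (h3.unique h4)
  simp only [ContinuousLinearMap.comp_apply, ContinuousLinearMap.id_apply] at h5
  calc ‖w‖ = ‖fderiv ℂ (fun y => A.e i ((A.e j).symm y)) (A.e j ((A.e i).symm z))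
        (fderiv ℂ (fun y => A.e j ((A.e i).symm y)) z w)‖ := by rw [h5]
    _ ≤ ‖fderiv ℂ (fun y => A.e i ((A.e j).symm y)) (A.e j ((A.e i).symm z))‖ *
        ‖fderiv ℂ (fun y => A.e j ((A.e i).symm y)) z w‖ := ContinuousLinearMap.le_opNorm _ _
    _ ≤ max L 0 * ‖fderiv ℂ (fun y => A.e j ((A.e i).symm y)) z w‖ :=
      mul_le_mul_of_nonneg_right ((hL z hzK).trans (le_max_left _ _)) (norm_nonneg _)

/-- lower bound for the derivatives of the transition maps -/
theorem exists_transition_bound [CompactSpace X] [T2Space X] : ∃ ρ : ℝ, 0 < ρ ∧ ρ ≤ 1 ∧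
    ∀ i j, ∀ z : V n, ‖z‖ ≤ 3 → (A.e i).symm z ∈ A.Ci j 3 → ∀ w : V n,
      ρ * ‖w‖ ^ 2 ≤ ‖fderiv ℂ (fun y => A.e j ((A.e i).symm y)) z w‖ ^ 2 := by
  choose L hL0 hL using A.transition_ij32
  obtain ⟨S, hS⟩ : ∃ S : ℝ, S = ∑ i, ∑ j, L i j := ⟨_, rfl⟩
  have hLS : ∀ i j, L i j ≤ S := by
    intro i j
    rw [hS]
    refine (Finset.single_le_sum (f := fun j => L i j) (fun j _ => hL0 i j)
      (Finset.mem_univ j)).trans ?_
    exact Finset.single_le_sum (f := fun i => ∑ j, L i j)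
      (fun i _ => Finset.sum_nonneg fun j _ => hL0 i j) (Finset.mem_univ i)
  have hS0 : 0 ≤ S := by
    rw [hS]
    exact Finset.sum_nonneg fun i _ => Finset.sum_nonneg fun j _ => hL0 i j
  refine ⟨1 / (1 + S) ^ 2, by positivity, ?_, fun i j z hz hz' w => ?_⟩
  · rw [div_le_one (by positivity)]
    nlinarith
  · obtain ⟨a, ha⟩ : ∃ a, a = ‖fderiv ℂ (fun y => A.e j ((A.e i).symm y)) z w‖ := ⟨_, rfl⟩
    have h1 := hL i j z hz hz' w
    rw [← ha] at h1 ⊢
    have ha0 : 0 ≤ a := ha ▸ norm_nonneg _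
    have h2 : ‖w‖ ≤ (1 + S) * a := by
      refine h1.trans (mul_le_mul_of_nonneg_right ((hLS i j).trans (by linarith)) ha0)
    rw [div_mul_eq_mul_div, one_mul, div_le_iff₀ (by positivity)]
    calc ‖w‖ ^ 2 ≤ ((1 + S) * a) ^ 2 := pow_le_pow_left₀ (norm_nonneg _) h2 2
      _ = a ^ 2 * (1 + S) ^ 2 := by ring

private theorem contDiff_nsq32 {k : WithTop ℕ∞} : ContDiff ℝ k fun z : V n => ‖z‖ ^ 2 :=
  contDiff_norm_sq ℝ

private theorem lev_nsq32 (z w : V n) : lev (fun z : V n => ‖z‖ ^ 2) z w = ‖w‖ ^ 2 := by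
  have := lev_normSq (z := z) (0 : V n) w
  simp only [sub_zero] at this
  exact this

/-- strict positivity transfers with a constant depending only on the atlas -/
theorem exists_KCX_const [CompactSpace X] [T2Space X] : ∃ ρ : ℝ, 0 < ρ ∧ ρ ≤ 1 ∧
    (∀ (v : X → ℝ) (ε : ℝ), 0 ≤ ε → (∀ x, ∃ i, ∃ W : Set (V n), IsOpen W ∧
      W ⊆ Metric.ball 0 3 ∧ x ∈ (A.e i).source ∧ A.e i x ∈ W ∧
      PSHd W fun z => A.pot i v z - ε * ‖z‖ ^ 2) → A.KCX (ρ * ε) v) ∧
    (∀ (v : X → ℝ) (ε : ℝ) (i j : Fin N) (z : V n), 0 ≤ ε → ‖z‖ ≤ 3 →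
      (A.e i).symm z ∈ A.Ci j 3 →
      ContDiffAt ℝ 2 (A.pot j v) (A.e j ((A.e i).symm z)) →
      (∀ w, ε * ‖w‖ ^ 2 ≤ lev (A.pot j v) (A.e j ((A.e i).symm z)) w) →
      ∀ w, ρ * ε * ‖w‖ ^ 2 ≤ lev (A.pot i v) z w) := by
  obtain ⟨ρ, hρ0, hρ1, hρ⟩ := A.exists_transition_bound
  refine ⟨ρ, hρ0, hρ1, ?_, ?_⟩
  · intro v ε hε h i
    refine GS.of_local Metric.isOpen_ball fun z hz => ?_
    have hzt : z ∈ (A.e i).target := A.B3_subset i hz
    obtain ⟨j, W, hW, hWj, hx, hxW, hGS⟩ := h ((A.e i).symm z)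
    obtain ⟨U, hU⟩ : ∃ U, U = A.OO32 i j W ∩ B3 n := ⟨_, rfl⟩
    have hUo : IsOpen U := hU ▸ (A.OO_open32 i j hW).inter Metric.isOpen_ball
    have hUs : ∀ y ∈ U, y ∈ ((A.e i).symm.trans (A.e j)).source := by
      intro y hy
      rw [hU] at hy
      exact A.OO_sub32 hy.1
    have hUb : ∀ y ∈ U, ∀ w : V n,
        ρ * ‖w‖ ^ 2 ≤ ‖fderiv ℂ (fun y => A.e j ((A.e i).symm y)) y w‖ ^ 2 := by
      intro y hy w
      rw [hU] at hy
      have h1 : ‖y‖ < 3 := mem_ball_zero_iff.1 hy.2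
      have h2 : ‖A.e j ((A.e i).symm y)‖ < 3 := mem_ball_zero_iff.1 (hWj hy.1.2.2)
      exact hρ i j y h1.le ⟨hy.1.2.1, h2.le⟩ w
    refine ⟨U, hUo, ?_, ?_, ?_⟩
    · rw [hU]
      exact ⟨⟨hzt, hx, hxW⟩, hz⟩
    · rw [hU]
      exact inter_subset_right
    · have h1 : GS W (fun _ => 0) fun z => A.pot j v z + (fun z => -(ε * ‖z‖ ^ 2)) z :=
        GS.congr hGS hW (Eventually.of_forall fun z _ => sub_eq_add_neg _ _)
      have h2 : PSHd U fun z => A.pot i v z + (fun z => -(ε * ‖z‖ ^ 2)) (A.e j ((A.e i).symm z)) :=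
        ((A.transfer32 v i j hW h1).mono_set hUo (by rw [hU]; exact inter_subset_left)).psh
      -- the smooth function which is added
      have hκ : ∀ y ∈ U, ContDiffAt ℂ 2 (fun y => A.e j ((A.e i).symm y)) y := fun y hy =>
        A.kap_contDiffAt32 (hUs y hy) (k := 2)
      have hs1 : ContDiffOn ℝ (⊤ : ℕ∞) (fun y => ‖A.e j ((A.e i).symm y)‖ ^ 2) U := by
        intro y hy
        have h3 : ContDiffAt ℝ (⊤ : ℕ∞) (fun y => A.e j ((A.e i).symm y)) y :=
          (A.kap_contDiffAt32 (hUs y hy) (k := ⊤)).restrict_scalars ℝ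
        exact (contDiff_nsq32.contDiffAt.comp y h3).contDiffWithinAt
      have hs2 : ContDiffOn ℝ (⊤ : ℕ∞)
          (fun y => ε * ‖A.e j ((A.e i).symm y)‖ ^ 2 + (-(ρ * ε)) * ‖y‖ ^ 2) U :=
        (contDiffOn_const.mul hs1).add (contDiffOn_const.mul contDiff_nsq32.contDiffOn)
      have h4 : PSHd U fun y => ε * ‖A.e j ((A.e i).symm y)‖ ^ 2 + (-(ρ * ε)) * ‖y‖ ^ 2 := by
        refine SPsh.pshd hUo ⟨hs2, fun y hy w => ?_⟩
        have c1 : ContDiffAt ℝ 2 (fun y => ‖A.e j ((A.e i).symm y)‖ ^ 2) y :=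
          (hs1.contDiffAt (hUo.mem_nhds hy)).of_le two_le32
        have c2 : ContDiffAt ℝ 2 (fun y : V n => ‖y‖ ^ 2) y := contDiff_nsq32.contDiffAt
        rw [lev_add (contDiffAt_const.mul c1) (contDiffAt_const.mul c2), lev_const_mul ε c1,
          lev_const_mul (-(ρ * ε)) c2, lev_nsq32]
        have c3 := lev_comp_holo (u := fun y : V n => ‖y‖ ^ 2) (hκ y hy) contDiff_nsq32.contDiffAt w
        rw [lev_nsq32] at c3
        rw [c3]
        nlinarith [mul_le_mul_of_nonneg_left (hUb y hy w) hε]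
      have h5 := GS.add hUo h2 h4
      refine (h5.congr hUo (Eventually.of_forall fun y _ => ?_)).psh
      ring
  · intro v ε i j z hε hz hz' hpot hlev w
    have hzs := A.source_of32 hz hz'
    have hb := A.bih i j
    have hκ : ContDiffAt ℂ 2 (fun y => A.e j ((A.e i).symm y)) z :=
      A.kap_contDiffAt32 hzs (k := 2)
    have h1 : A.pot i v =ᶠ[𝓝 z] fun y => A.pot j v (A.e j ((A.e i).symm y)) +
        (-1 : ℝ) * (A.g j (A.e j ((A.e i).symm y)) - A.g i y) := by
      filter_upwards [hb.open1.mem_nhds hzs] with y hy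
      rw [A.pot_comp i j v hy]
      ring
    have h2 : ContDiffAt ℝ 2 (fun y => A.pot j v (A.e j ((A.e i).symm y))) z :=
      ContDiffAt.comp (g := A.pot j v) (f := fun y => A.e j ((A.e i).symm y)) z hpot
        (hκ.restrict_scalars ℝ)
    rw [lev_congr h1, lev_add h2 (contDiffAt_const.mul (A.gk_contDiffAt32 hzs)),
      A.lev_q32 hzs, add_zero, lev_comp_holo hκ hpot]
    refine le_trans ?_ (hlev _)
    have h3 := mul_le_mul_of_nonneg_left (hρ i j z hz hz' w) hε
    linarith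

end Atl

end Pool.Agent.Helper29.AM
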