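import Pool.Agent.Helper29.AM.LA1

/-!
# Block AM-LA2: inequalities for positive definite matrices (1.3), (1.4), (1.5), (1.7), (1.8)

`det_add_ge`: `H = R²`, `det(H+K) = det H · det(1 + R⁻¹ K R⁻¹) ≥ det H (1 + tr(R⁻¹KR⁻¹))` since
`∏(1+λ_i) ≥ 1 + ∑ λ_i` for `λ_i ≥ 0`.
`trace_inv_ge`: eigenvalues `λ_1 ≥ ...`; `λ_1 ≥ T/n`, the product of the others is `det/λ_1 ≤ m n/T`;
AM-GM for the inverses of the others.
`trace_le_of_trace_inv`: `1/λ_i ≤ C` for all `i`, so each `λ_i = det · ∏_{j≠i} 1/λ_j ≤ m C^{n-1}`.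
`log_det_le`: `log x ≤ x - 1` for the eigenvalues of `R⁻¹ K R⁻¹`.
`abs_trace_mul_le`: `K ≥ 0`, `tr(K Q)` with an orthonormal eigenbasis of `K`.
-/

set_option autoImplicit false

namespace Pool.Agent.Helper29.AM

open MeasureTheory Set Filter Topology
open scoped ComplexOrder

variable {n : ℕ}

open scoped MatrixOrder in
/-- the factorization `H = Bᴴ B` -/
private theorem exists_fac32 {H : Mat n} (hH : H.PosDef) :
    ∃ B : Mat n, IsUnit B.det ∧ H = B.conjTranspose * B := by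
  obtain ⟨B, hB⟩ := CStarAlgebra.nonneg_iff_eq_star_mul_self.mp hH.posSemidef.nonneg
  refine ⟨B, ?_, hB⟩
  have h1 := (Matrix.isUnit_iff_isUnit_det _).1 hH.isUnit
  rw [hB, Matrix.det_mul] at h1
  exact isUnit_of_mul_isUnit_right h1

private theorem det_im32 {H : Mat n} (hH : H.PosSemidef) : H.det.im = 0 :=
  (Complex.nonneg_iff.1 hH.det_nonneg).2.symm

private theorem det_re_pos32 {H : Mat n} (hH : H.PosDef) : 0 < H.det.re :=
  (Complex.pos_iff.1 hH.det_pos).1

private theorem fac_eq32 {B K : Mat n} (hB : IsUnit B.det) :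
    K = B.conjTranspose * ((B⁻¹).conjTranspose * K * B⁻¹) * B := by
  have h1 : B⁻¹ * B = 1 := Matrix.nonsing_inv_mul _ hB
  have h2 : B.conjTranspose * (B⁻¹).conjTranspose = 1 := by
    rw [← Matrix.conjTranspose_mul, h1, Matrix.conjTranspose_one]
  calc K = (B.conjTranspose * (B⁻¹).conjTranspose) * K * (B⁻¹ * B) := by
        rw [h1, h2, one_mul, mul_one]
    _ = _ := by simp only [mul_assoc]

private theorem fac_trace32 {B K : Mat n} (_hB : IsUnit B.det) :
    Matrix.trace ((B.conjTranspose * B)⁻¹ * K) =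
      Matrix.trace ((B⁻¹).conjTranspose * K * B⁻¹) := by
  rw [Matrix.mul_inv_rev, Matrix.conjTranspose_nonsing_inv, mul_assoc, Matrix.trace_mul_comm]

/-- `det (H + K) = det H · det (1 + S)` -/
private theorem fac_det_add32 {H B K : Mat n} (hH : H.PosDef) (hB : IsUnit B.det)
    (hHB : H = B.conjTranspose * B) :
    (H + K).det.re = H.det.re * (1 + (B⁻¹).conjTranspose * K * B⁻¹).det.re := by
  have h1 : H + K = B.conjTranspose * (1 + (B⁻¹).conjTranspose * K * B⁻¹) * B := by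
    rw [mul_add, add_mul, mul_one, ← fac_eq32 hB, hHB]
  have h2 : (H + K).det = H.det * (1 + (B⁻¹).conjTranspose * K * B⁻¹).det := by
    rw [h1, Matrix.det_mul, Matrix.det_mul, hHB, Matrix.det_mul]
    ring
  rw [h2, Complex.mul_re, det_im32 hH.posSemidef, zero_mul, sub_zero]

/-- `det K = det H · det S` -/
private theorem fac_det32 {H B K : Mat n} (hH : H.PosDef) (hB : IsUnit B.det)
    (hHB : H = B.conjTranspose * B) :
    K.det.re = H.det.re * ((B⁻¹).conjTranspose * K * B⁻¹).det.re := by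
  obtain ⟨S, hS⟩ : ∃ S, S = (B⁻¹).conjTranspose * K * B⁻¹ := ⟨_, rfl⟩
  have h3 : K = B.conjTranspose * S * B := by
    rw [hS]; exact fac_eq32 hB
  have h2 : K.det = H.det * S.det := by
    rw [h3, Matrix.det_mul, Matrix.det_mul, hHB, Matrix.det_mul]
    ring
  rw [← hS, h2, Complex.mul_re, det_im32 hH.posSemidef, zero_mul, sub_zero]

private theorem det_one_add32 {S : Mat n} (hS : S.IsHermitian) :
    (1 + S).det = ((∏ i, (1 + hS.eigenvalues i) : ℝ) : ℂ) := by
  have h1 := Matrix.eval_charpoly S (-1)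
  rw [hS.charpoly_eq, Polynomial.eval_prod] at h1
  have h2 : (Matrix.scalar (Fin n) (-1 : ℂ) - S) = -(1 + S) := by
    rw [map_neg, map_one]
    abel
  rw [h2, Matrix.det_neg, Fintype.card_fin] at h1
  have h3 : ∏ i, (Polynomial.X - Polynomial.C ((hS.eigenvalues i : ℝ) : ℂ)).eval (-1) =
      (-1) ^ n * ∏ i, (1 + ((hS.eigenvalues i : ℝ) : ℂ)) := by
    have h4 : ∀ i, (Polynomial.X - Polynomial.C ((hS.eigenvalues i : ℝ) : ℂ)).eval (-1) =
        (-1) * (1 + ((hS.eigenvalues i : ℝ) : ℂ)) := by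
      intro i
      simp only [Polynomial.eval_sub, Polynomial.eval_X, Polynomial.eval_C]
      ring
    rw [Finset.prod_congr rfl fun i _ => h4 i, Finset.prod_mul_distrib, Finset.prod_const,
      Finset.card_univ, Fintype.card_fin]
  have h5 : ((-1 : ℂ) ^ n) * (1 + S).det = (-1) ^ n * ∏ i, (1 + ((hS.eigenvalues i : ℝ) : ℂ)) := by
    rw [← h1]
    exact h3
  have h6 : ((-1 : ℂ) ^ n) ≠ 0 := pow_ne_zero _ (by norm_num)
  rw [mul_left_cancel₀ h6 h5]
  push_cast
  rfl

private theorem one_add_sum_le32 {ι : Type*} (s : Finset ι) (f : ι → ℝ) (hf : ∀ i ∈ s, 0 ≤ f i) :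
    1 + ∑ i ∈ s, f i ≤ ∏ i ∈ s, (1 + f i) := by
  classical
  induction s using Finset.induction_on with
  | empty => simp
  | insert a s ha ih =>
    rw [Finset.sum_insert ha, Finset.prod_insert ha]
    have h1 := ih fun i hi => hf i (Finset.mem_insert_of_mem hi)
    have h2 := hf a (Finset.mem_insert_self a s)
    have h3 : 0 ≤ ∑ i ∈ s, f i := Finset.sum_nonneg fun i hi => hf i (Finset.mem_insert_of_mem hi)
    nlinarith [mul_le_mul_of_nonneg_left h1 (by linarith : (0 : ℝ) ≤ 1 + f a)]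

private theorem trace_re32 {S : Mat n} (hS : S.IsHermitian) :
    (Matrix.trace S).re = ∑ i, hS.eigenvalues i := by
  rw [hS.trace_eq_sum_eigenvalues, Complex.re_sum]
  rfl

private theorem det_re32 {S : Mat n} (hS : S.IsHermitian) :
    S.det.re = ∏ i, hS.eigenvalues i := by
  have h : S.det = ((∏ i, hS.eigenvalues i : ℝ) : ℂ) := by
    rw [hS.det_eq_prod_eigenvalues]
    push_cast
    rfl
  rw [h, Complex.ofReal_re]

private theorem one_add_trace_le32 {S : Mat n} (hS : S.PosSemidef) :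
    1 + (Matrix.trace S).re ≤ (1 + S).det.re := by
  rw [det_one_add32 hS.1, Complex.ofReal_re, trace_re32 hS.1]
  exact one_add_sum_le32 _ _ fun i _ => hS.eigenvalues_nonneg i

/-- the spectral theorem -/
private theorem spec32 {H : Mat n} (hH : H.IsHermitian) :
    H = (hH.eigenvectorUnitary : Mat n) *
      Matrix.diagonal (fun i => ((hH.eigenvalues i : ℝ) : ℂ)) *
      (hH.eigenvectorUnitary : Mat n).conjTranspose := by
  conv_lhs => rw [hH.spectral_theorem, Unitary.conjStarAlgAut_apply]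
  rfl

private theorem unit32 {H : Mat n} (hH : H.IsHermitian) :
    (hH.eigenvectorUnitary : Mat n).conjTranspose * (hH.eigenvectorUnitary : Mat n) = 1 :=
  Unitary.coe_star_mul_self _

private theorem unit32b {H : Mat n} (hH : H.IsHermitian) :
    (hH.eigenvectorUnitary : Mat n) * (hH.eigenvectorUnitary : Mat n).conjTranspose = 1 :=
  Unitary.coe_mul_star_self _

private theorem trace_inv_eq32 {H : Mat n} (hH : H.PosDef) :
    (Matrix.trace H⁻¹).re = ∑ i, (hH.1.eigenvalues i)⁻¹ := by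
  obtain ⟨U, hU⟩ : ∃ U : Mat n, U = (hH.1.eigenvectorUnitary : Mat n) := ⟨_, rfl⟩
  have h1 : U.conjTranspose * U = 1 := by rw [hU]; exact unit32 hH.1
  have h2 : U * U.conjTranspose = 1 := by rw [hU]; exact unit32b hH.1
  obtain ⟨l, hl⟩ : ∃ l : Fin n → ℝ, l = hH.1.eigenvalues := ⟨_, rfl⟩
  have hpos : ∀ i, 0 < l i := fun i => hl ▸ hH.eigenvalues_pos i
  have h3 : H = U * Matrix.diagonal (fun i => ((l i : ℝ) : ℂ)) * U.conjTranspose := by
    rw [hU, hl]; exact spec32 hH.1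
  have h4 : H⁻¹ = U * Matrix.diagonal (fun i => (((l i)⁻¹ : ℝ) : ℂ)) * U.conjTranspose := by
    apply Matrix.inv_eq_right_inv
    have h5 : Matrix.diagonal (fun i => ((l i : ℝ) : ℂ)) *
        Matrix.diagonal (fun i => (((l i)⁻¹ : ℝ) : ℂ)) = (1 : Mat n) := by
      rw [Matrix.diagonal_mul_diagonal, ← Matrix.diagonal_one]
      congr 1
      funext i
      rw [← Complex.ofReal_mul, mul_inv_cancel₀ (hpos i).ne', Complex.ofReal_one]
    have h6 := congrArg (fun Y => Y *
      (U * Matrix.diagonal (fun i => (((l i)⁻¹ : ℝ) : ℂ)) * U.conjTranspose)) h3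
    refine h6.trans ?_
    calc U * Matrix.diagonal (fun i => ((l i : ℝ) : ℂ)) * U.conjTranspose *
          (U * Matrix.diagonal (fun i => (((l i)⁻¹ : ℝ) : ℂ)) * U.conjTranspose) =
        U * (Matrix.diagonal (fun i => ((l i : ℝ) : ℂ)) * ((U.conjTranspose * U) *
          Matrix.diagonal (fun i => (((l i)⁻¹ : ℝ) : ℂ)))) * U.conjTranspose := by
          simp only [mul_assoc]
      _ = 1 := by rw [h1, one_mul, h5, mul_one, h2]
  rw [h4, Matrix.trace_mul_comm, ← mul_assoc, h1, one_mul, Matrix.trace_diagonal, Complex.re_sum,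
    ← hl]
  rfl

theorem det_add_ge {H K : Mat n} (hH : H.PosDef) (hK : K.PosSemidef) :
    H.det.re * (1 + (Matrix.trace (H⁻¹ * K)).re) ≤ (H + K).det.re := by
  obtain ⟨B, hB, hHB⟩ := exists_fac32 hH
  rw [fac_det_add32 hH hB hHB]
  refine mul_le_mul_of_nonneg_left ?_ (det_re_pos32 hH).le
  conv_lhs => rw [hHB, fac_trace32 hB]
  exact one_add_trace_le32 (hK.conjTranspose_mul_mul_same B⁻¹)

/-- `det H · (1 + c tr H⁻¹) ≤ det(H + c)` -/
theorem det_add_one_ge {H : Mat n} (hH : H.PosDef) {c : ℝ} (hc : 0 ≤ c) :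
    H.det.re * (1 + c * (Matrix.trace H⁻¹).re) ≤ (H + (c : ℂ) • (1 : Mat n)).det.re := by
  have h1 : ((c : ℂ) • (1 : Mat n)).PosSemidef :=
    Matrix.PosSemidef.one.smul (Complex.zero_le_real.2 hc)
  have h2 := det_add_ge hH h1
  rw [Matrix.mul_smul, mul_one, Matrix.trace_smul, smul_eq_mul, Complex.re_ofReal_mul] at h2
  exact h2

/-- the trace of `H⁻¹ K` is nonnegative -/
private theorem trace_inv_mul_nonneg32 {H K : Mat n} (hH : H.PosDef) (hK : K.PosSemidef) :
    0 ≤ (Matrix.trace (H⁻¹ * K)).re := by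
  obtain ⟨B, hB, hHB⟩ := exists_fac32 hH
  rw [hHB, fac_trace32 hB]
  exact (Complex.nonneg_iff.1 (hK.conjTranspose_mul_mul_same B⁻¹).trace_nonneg).1

theorem det_mono {H K : Mat n} (hH : H.PosSemidef) (hK : (K - H).PosSemidef) :
    H.det.re ≤ K.det.re := by
  have hKp : K.PosSemidef := by
    have h := hH.add hK
    rwa [add_sub_cancel] at h
  by_cases h0 : H.det = 0
  · rw [h0]
    exact (Complex.nonneg_iff.1 hKp.det_nonneg).1
  · have hHd : H.PosDef := hH.posDef_iff_det_ne_zero.2 h0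
    have h1 := det_add_ge hHd hK
    rw [add_sub_cancel] at h1
    refine le_trans ?_ h1
    have h2 := trace_inv_mul_nonneg32 hHd hK
    have h3 := det_re_pos32 hHd
    nlinarith

theorem trace_inv_ge (hn : 2 ≤ n) {H : Mat n} (hH : H.PosDef) {m T : ℝ} (hm : H.det.re ≤ m)
    (hT : 0 < T) (hT' : T ≤ (Matrix.trace H).re) :
    ((n : ℝ) - 1) * (T / (n * m)) ^ ((1 : ℝ) / ((n : ℝ) - 1)) ≤ (Matrix.trace H⁻¹).re := by
  rw [trace_inv_eq32 hH]
  rw [trace_re32 hH.1] at hT'
  rw [det_re32 hH.1] at hm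
  obtain ⟨l, hl⟩ : ∃ l : Fin n → ℝ, l = hH.1.eigenvalues := ⟨_, rfl⟩
  have hpos : ∀ i, 0 < l i := fun i => hl ▸ hH.eigenvalues_pos i
  rw [← hl] at hT' hm ⊢
  have hn0 : (0 : ℝ) < n := by
    have : (2 : ℝ) ≤ n := by exact_mod_cast hn
    linarith
  have hn1 : (0 : ℝ) < (n : ℝ) - 1 := by
    have : (2 : ℝ) ≤ n := by exact_mod_cast hn
    linarith
  -- a large eigenvalue
  obtain ⟨i0, -, hi0⟩ : ∃ i ∈ (Finset.univ : Finset (Fin n)), T / n ≤ l i := by
    apply Finset.exists_le_of_sum_le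
    · exact ⟨⟨0, by omega⟩, Finset.mem_univ _⟩
    · rw [Finset.sum_const, Finset.card_univ, Fintype.card_fin, nsmul_eq_mul,
        mul_div_cancel₀ _ hn0.ne']
      exact hT'
  have hprod : l i0 * ∏ i ∈ Finset.univ.erase i0, l i = ∏ i, l i :=
    Finset.mul_prod_erase _ _ (Finset.mem_univ i0)
  have hppos : 0 < ∏ i ∈ Finset.univ.erase i0, l i := Finset.prod_pos fun i _ => hpos i
  have hmpos : 0 < m := lt_of_lt_of_le (Finset.prod_pos fun i _ => hpos i) hm
  have hcard : (Finset.univ.erase i0).card = n - 1 := by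
    rw [Finset.card_erase_of_mem (Finset.mem_univ _), Finset.card_univ, Fintype.card_fin]
  have hcard' : (((Finset.univ.erase i0).card : ℕ) : ℝ) = (n : ℝ) - 1 := by
    rw [hcard, Nat.cast_sub (by omega), Nat.cast_one]
  -- AM-GM
  have hAG := Real.geom_mean_le_arith_mean (Finset.univ.erase i0) (fun _ => (1 : ℝ))
    (fun i => (l i)⁻¹) (fun _ _ => zero_le_one) (by
      rw [Finset.sum_const, nsmul_eq_mul, mul_one, hcard']
      exact hn1) (fun i _ => (inv_pos.2 (hpos i)).le)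
  simp only [Real.rpow_one, one_mul, Finset.sum_const, nsmul_eq_mul, mul_one] at hAG
  rw [hcard', Finset.prod_inv_distrib] at hAG
  have h1 : T / (n * m) ≤ (∏ i ∈ Finset.univ.erase i0, l i)⁻¹ := by
    rw [le_inv_comm₀ (by positivity) hppos, inv_div]
    rw [le_div_iff₀ hT]
    have h2 : T / n * ∏ i ∈ Finset.univ.erase i0, l i ≤ m := by
      refine le_trans ?_ hm
      rw [← hprod]
      exact mul_le_mul_of_nonneg_right hi0 hppos.le
    have h3 : T / n * (∏ i ∈ Finset.univ.erase i0, l i) * n ≤ m * n :=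
      mul_le_mul_of_nonneg_right h2 hn0.le
    have h4 : T / n * (∏ i ∈ Finset.univ.erase i0, l i) * n =
        (∏ i ∈ Finset.univ.erase i0, l i) * T := by
      field_simp
    linarith
  have h2 : (T / (n * m)) ^ ((1 : ℝ) / ((n : ℝ) - 1)) ≤
      (∑ i ∈ Finset.univ.erase i0, (l i)⁻¹) / ((n : ℝ) - 1) := by
    refine le_trans ?_ hAG
    rw [one_div]
    exact Real.rpow_le_rpow (by positivity) h1 (by positivity)
  have h3 : ((n : ℝ) - 1) * (T / (n * m)) ^ ((1 : ℝ) / ((n : ℝ) - 1)) ≤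
      ∑ i ∈ Finset.univ.erase i0, (l i)⁻¹ := by
    have h4 := mul_le_mul_of_nonneg_left h2 hn1.le
    rwa [mul_div_cancel₀ _ hn1.ne'] at h4
  refine h3.trans ?_
  exact Finset.sum_le_sum_of_subset_of_nonneg (Finset.subset_univ _)
    fun i _ _ => (inv_pos.2 (hpos i)).le

theorem trace_le_of_trace_inv {H : Mat n} (hH : H.PosDef) {C m : ℝ}
    (hC : (Matrix.trace H⁻¹).re ≤ C) (hm : H.det.re ≤ m) :
    (Matrix.trace H).re ≤ n * (m * C ^ (n - 1)) := by
  rw [trace_inv_eq32 hH] at hC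
  rw [det_re32 hH.1] at hm
  rw [trace_re32 hH.1]
  obtain ⟨l, hl⟩ : ∃ l : Fin n → ℝ, l = hH.1.eigenvalues := ⟨_, rfl⟩
  have hpos : ∀ i, 0 < l i := fun i => hl ▸ hH.eigenvalues_pos i
  rw [← hl] at hC hm ⊢
  have key : ∀ i, l i ≤ m * C ^ (n - 1) := by
    intro i0
    have hle : ∀ i, (l i)⁻¹ ≤ C := fun i =>
      (Finset.single_le_sum (f := fun i => (l i)⁻¹) (fun j _ => (inv_pos.2 (hpos j)).le)
        (Finset.mem_univ i)).trans hC
    have hprod : l i0 * ∏ i ∈ Finset.univ.erase i0, l i = ∏ i, l i :=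
      Finset.mul_prod_erase _ _ (Finset.mem_univ i0)
    have hppos : 0 < ∏ i ∈ Finset.univ.erase i0, l i := Finset.prod_pos fun i _ => hpos i
    have h1 : ∏ i ∈ Finset.univ.erase i0, (l i)⁻¹ ≤ C ^ (n - 1) := by
      have h2 : ∏ i ∈ Finset.univ.erase i0, (l i)⁻¹ ≤ ∏ i ∈ Finset.univ.erase i0, C :=
        Finset.prod_le_prod (fun i _ => (inv_pos.2 (hpos i)).le) fun i _ => hle i
      rwa [Finset.prod_const, Finset.card_erase_of_mem (Finset.mem_univ _), Finset.card_univ,
        Fintype.card_fin] at h2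
    have h3 : l i0 = (∏ i, l i) * ∏ i ∈ Finset.univ.erase i0, (l i)⁻¹ := by
      rw [← hprod, Finset.prod_inv_distrib, mul_assoc, mul_inv_cancel₀ hppos.ne', mul_one]
    rw [h3]
    refine mul_le_mul hm h1 (Finset.prod_nonneg fun i _ => (inv_pos.2 (hpos i)).le) ?_
    exact (Finset.prod_pos fun i _ => hpos i).le.trans hm
  calc ∑ i, l i ≤ ∑ _i : Fin n, m * C ^ (n - 1) := Finset.sum_le_sum fun i _ => key i
    _ = n * (m * C ^ (n - 1)) := by
      rw [Finset.sum_const, Finset.card_univ, Fintype.card_fin, nsmul_eq_mul]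

theorem trace_inv_nonneg {H : Mat n} (hH : H.PosDef) : 0 ≤ (Matrix.trace H⁻¹).re :=
  (Complex.nonneg_iff.1 hH.inv.posSemidef.trace_nonneg).1

theorem log_det_le {H K : Mat n} (hH : H.PosDef) (hK : K.PosDef) :
    Real.log K.det.re ≤ Real.log H.det.re + (Matrix.trace (H⁻¹ * (K - H))).re := by
  obtain ⟨B, hB, hHB⟩ := exists_fac32 hH
  have hBi : Function.Injective (B⁻¹).mulVec := by
    intro x y hxy
    have h := congrArg B.mulVec hxy
    rwa [Matrix.mulVec_mulVec, Matrix.mulVec_mulVec, Matrix.mul_nonsing_inv _ hB,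
      Matrix.one_mulVec, Matrix.one_mulVec] at h
  have hS := hK.conjTranspose_mul_mul_same hBi
  have hHH : H⁻¹ * H = 1 := Matrix.nonsing_inv_mul _ ((Matrix.isUnit_iff_isUnit_det _).1 hH.isUnit)
  have h1 : (Matrix.trace (H⁻¹ * (K - H))).re =
      (Matrix.trace ((B⁻¹).conjTranspose * K * B⁻¹)).re - n := by
    rw [mul_sub, hHH, Matrix.trace_sub, Matrix.trace_one, Fintype.card_fin, Complex.sub_re,
      Complex.natCast_re]
    conv_lhs => rw [hHB, fac_trace32 hB]
  rw [h1, fac_det32 (K := K) hH hB hHB,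
    Real.log_mul (det_re_pos32 hH).ne' (det_re_pos32 hS).ne']
  have h2 : Real.log ((B⁻¹).conjTranspose * K * B⁻¹).det.re ≤
      (Matrix.trace ((B⁻¹).conjTranspose * K * B⁻¹)).re - n := by
    rw [det_re32 hS.1, trace_re32 hS.1, Real.log_prod fun i _ => (hS.eigenvalues_pos i).ne']
    have h3 : ∑ i, Real.log (hS.1.eigenvalues i) ≤ ∑ i, (hS.1.eigenvalues i - 1) :=
      Finset.sum_le_sum fun i _ => Real.log_le_sub_one_of_pos (hS.eigenvalues_pos i)
    rw [Finset.sum_sub_distrib, Finset.sum_const, Finset.card_univ, Fintype.card_fin,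
      nsmul_eq_mul, mul_one] at h3
    exact h3
  linarith

theorem abs_trace_mul_le {K : Mat n} (hK : K.PosSemidef) (Q : Mat n) {q : ℝ} (hq : 0 ≤ q)
    (hQ : ∀ x : V n, ‖Matrix.toEuclideanCLM (𝕜 := ℂ) Q x‖ ≤ q * ‖x‖) :
    |(Matrix.trace (K * Q)).re| ≤ q * (Matrix.trace K).re := by
  obtain ⟨U, hU⟩ : ∃ U : Mat n, U = (hK.1.eigenvectorUnitary : Mat n) := ⟨_, rfl⟩
  have h3 : K = U * Matrix.diagonal (fun i => ((hK.1.eigenvalues i : ℝ) : ℂ)) *
      U.conjTranspose := by
    rw [hU]; exact spec32 hK.1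
  have h4 : Matrix.trace (K * Q) = ∑ i, ((hK.1.eigenvalues i : ℝ) : ℂ) *
      (U.conjTranspose * Q * U) i i := by
    have h5 : Matrix.trace (K * Q) = Matrix.trace
        (Matrix.diagonal (fun i => ((hK.1.eigenvalues i : ℝ) : ℂ)) *
          (U.conjTranspose * Q * U)) := by
      conv_lhs => rw [h3]
      rw [mul_assoc, mul_assoc, Matrix.trace_mul_comm]
      simp only [mul_assoc]
    rw [h5, Matrix.trace]
    refine Finset.sum_congr rfl fun i _ => ?_
    rw [Matrix.diag_apply, Matrix.diagonal_mul]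
  have h6 : ∀ i, ‖(U.conjTranspose * Q * U) i i‖ ≤ q := by
    intro i
    have e1 : (U.conjTranspose * Q * U) i i =
        inner ℂ (hK.1.eigenvectorBasis i)
          (Matrix.toEuclideanCLM (𝕜 := ℂ) Q (hK.1.eigenvectorBasis i)) := by
      have hcol : ∀ k, U k i = (hK.1.eigenvectorBasis i).ofLp k := by
        intro k
        rw [hU]
        rfl
      rw [mul_assoc, Matrix.mul_apply, PiLp.inner_apply]
      refine Finset.sum_congr rfl fun j _ => ?_
      rw [Matrix.conjTranspose_apply, hcol, Matrix.mul_apply]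
      have e2 : (Matrix.toEuclideanCLM (𝕜 := ℂ) Q (hK.1.eigenvectorBasis i)).ofLp j =
          ∑ k, Q j k * U k i := by
        simp only [hcol]
        rfl
      rw [e2, RCLike.inner_apply, mul_comm]
      rfl
    rw [e1]
    refine (norm_inner_le_norm _ _).trans ?_
    rw [hK.1.eigenvectorBasis.orthonormal.1 i, one_mul]
    refine (hQ _).trans ?_
    rw [hK.1.eigenvectorBasis.orthonormal.1 i, mul_one]
  rw [h4, trace_re32 hK.1, Complex.re_sum, Finset.mul_sum]
  refine (Finset.abs_sum_le_sum_abs _ _).trans (Finset.sum_le_sum fun i _ => ?_)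
  rw [Complex.re_ofReal_mul, abs_mul, abs_of_nonneg (hK.eigenvalues_nonneg i), mul_comm]
  exact mul_le_mul_of_nonneg_right ((Complex.abs_re_le_norm _).trans (h6 i))
    (hK.eigenvalues_nonneg i)

open scoped MatrixOrder in
/-- entries of a positive semidefinite matrix are bounded by the trace -/
theorem norm_entry_le {K : Mat n} (hK : K.PosSemidef) (j k : Fin n) :
    ‖K j k‖ ≤ (Matrix.trace K).re := by
  obtain ⟨B, hB⟩ := CStarAlgebra.nonneg_iff_eq_star_mul_self.mp hK.nonneg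
  obtain ⟨b, hb⟩ : ∃ b : Fin n → V n, b = fun j => WithLp.toLp 2 (fun i => B i j) := ⟨_, rfl⟩
  have h1 : ∀ j k, K j k = inner ℂ (b j) (b k) := by
    intro j k
    rw [hB, hb, Matrix.mul_apply, PiLp.inner_apply]
    refine Finset.sum_congr rfl fun i _ => ?_
    rw [RCLike.inner_apply, mul_comm]
    rfl
  have h2 : ∀ j, ‖b j‖ ^ 2 ≤ (Matrix.trace K).re := by
    intro j
    rw [Matrix.trace, Complex.re_sum]
    have h3 : ∀ i, (K.diag i).re = ‖b i‖ ^ 2 := by
      intro i
      rw [Matrix.diag_apply, h1, inner_self_eq_norm_sq_to_K]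
      exact_mod_cast Complex.ofReal_re _
    rw [Finset.sum_congr rfl fun i _ => h3 i]
    exact Finset.single_le_sum (f := fun i => ‖b i‖ ^ 2) (fun i _ => sq_nonneg _)
      (Finset.mem_univ j)
  rw [h1]
  refine (norm_inner_le_norm _ _).trans ?_
  nlinarith [h2 j, h2 k, sq_nonneg (‖b j‖ - ‖b k‖)]

end Pool.Agent.Helper29.AM
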