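import Pool.Agent.Helper61.AM.Sol8

/-!
# Project AM: section 8 (proved in `Helper61/AM/Sol8.lean`)
-/

set_option autoImplicit false

namespace Pool.Agent.Helper29.AM

open MeasureTheory Set Filter Topology
open scoped ComplexOrder

namespace Atl

variable {X : Type} [TopologicalSpace X] [MeasurableSpace X] {n N : ℕ} (A : Atl X n N)
variable [CompactSpace X] [T2Space X] [BorelSpace X]

/-- section 8 -/
theorem sol_bounds (hn : 0 < n) (hV : A.VolLe) {D : Set X} {ψ ψ2 : X → ℝ} {ε a₀ : ℝ}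
    (hψ : A.NicePair D ψ ψ2 ε a₀) {φ : X → ℝ} (hφ : A.St 0 0 φ) :
    ∃ C₀ : ℝ, ∀ τ : ℝ, 0 < τ → τ ≤ 1 → ∀ (C : ℝ) (φτ : X → ℝ), 0 ≤ C → A.Sol D τ C φτ →
      (∀ x ∈ D, φτ x ≤ C₀ ∧ ψ2 x - C₀ ≤ φτ x) ∧ ∀ᵐ x ∂A.μ, φ x ≤ φτ x :=
  A.sol_bounds61 hn hV hψ hφ

end Atl

end Pool.Agent.Helper29.AM
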