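import Pool.Agent.Helper29.AM.Defs

/-!
# Project AM: global definitions

A compact complex manifold is given by a finite atlas `A : Atl X n N`: charts `e i` whose images contain
the closed ball `B(4)`, such that the `B_i(1)` cover `X`, local potentials `g i` of the form `θ`, and a
volume form `μ = cn · f_i · λ`. Functions on `X` are real valued and only matter a.e. (except where
stated otherwise).
-/

set_option autoImplicit false

namespace Pool.Agent.Helper29.AM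

open MeasureTheory Set Filter Topology
open scoped ComplexOrder

/-- finite atlas with potentials and a volume form -/
structure Atl (X : Type) [TopologicalSpace X] [MeasurableSpace X] (n N : ℕ) where
  e : Fin N → OpenPartialHomeomorph X (V n)
  ball : ∀ i, Metric.closedBall 0 4 ⊆ (e i).target
  cover : ∀ x, ∃ i, x ∈ (e i).source ∧ ‖e i x‖ < 1
  hol : ∀ i j, DifferentiableOn ℂ (fun z => e j ((e i).symm z)) ((e i).symm.trans (e j)).source
  g : Fin N → V n → ℝ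
  g_smooth : ∀ i, ContDiffOn ℝ (⊤ : ℕ∞) (g i) (e i).target
  g_compat : ∀ i j, ∀ z ∈ ((e i).symm.trans (e j)).source, ∀ w,
    lev (fun y => g j (e j ((e i).symm y)) - g i y) z w = 0
  f : Fin N → V n → ℝ
  f_smooth : ∀ i, ContDiffOn ℝ (⊤ : ℕ∞) (f i) (e i).target
  f_pos : ∀ i, ∀ z ∈ (e i).target, 0 < f i z
  f_compat : ∀ i j, ∀ z ∈ ((e i).symm.trans (e j)).source,
    f i z = ‖(fderiv ℂ (fun y => e j ((e i).symm y)) z).det‖ ^ 2 * f j (e j ((e i).symm z))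
  μ : Measure X
  μ_eq : ∀ i, (μ.restrict (e i).source).map (e i) =
    (volume.restrict (e i).target).withDensity fun z => ENNReal.ofReal (cn n * f i z)

namespace Atl

variable {X : Type} [TopologicalSpace X] [MeasurableSpace X] {n N : ℕ} (A : Atl X n N)

/-- `B_i(r)` as a subset of `X` -/
def Bi (i : Fin N) (r : ℝ) : Set X := {x | x ∈ (A.e i).source ∧ ‖A.e i x‖ < r}

/-- closed version -/
def Ci (i : Fin N) (r : ℝ) : Set X := {x | x ∈ (A.e i).source ∧ ‖A.e i x‖ ≤ r}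

/-- a function on `X` in the chart `i` -/
noncomputable def lc (i : Fin N) (v : X → ℝ) (z : V n) : ℝ := v ((A.e i).symm z)

/-- the potential `g_i + v` in the chart `i` -/
noncomputable def pot (i : Fin N) (v : X → ℝ) (z : V n) : ℝ := A.g i z + A.lc i v z

/-- the chart domain where everything happens -/
abbrev B3 (n : ℕ) : Set (V n) := Metric.ball 0 3

/-- `θ + dd^c v ≥ 0` -/
def PSX (v : X → ℝ) : Prop := ∀ i, PSHd (B3 n) (A.pot i v)

/-- `θ + dd^c ψ ≥ ε dd^c|z_i|²` in all charts -/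
def KCX (ε : ℝ) (ψ : X → ℝ) : Prop := ∀ i, PSHd (B3 n) fun z => A.pot i ψ z - ε * ‖z‖ ^ 2

/-- `(e^{τ v} f)^{1/n}` in the chart `i` -/
noncomputable def Ft (τ : ℝ) (i : Fin N) (v : X → ℝ) (z : V n) : ℝ :=
  (Real.exp (τ * A.lc i v z) * A.f i z) ^ ((1 : ℝ) / n)

/-- the class `S_τ(C)`: `v ≤ C` a.e. and `MA(θ + dd^c v) ≥ e^{τ v} μ` in the sense of Gaveau -/
structure St (τ C : ℝ) (v : X → ℝ) : Prop where
  le : ∀ᵐ x ∂A.μ, v x ≤ C
  gs : ∀ i, GS (B3 n) (A.Ft τ i v) (A.pot i v)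

/-- the Kiselev-Legendre transform of `v` in the chart `i`, as a function on `B_i(2)` -/
noncomputable def tr (v : X → ℝ) (P : ℝ → ℝ) (δ : ℝ) (i : Fin N) (x : X) : ℝ :=
  WW (A.pot i v) P δ (A.e i x) - A.g i (A.e i x)

/-- the glued transform: maximum of the `w_i - κ |z_i|²` over the `i` with `x ∈ B_i(2)` -/
noncomputable def gl (v : X → ℝ) (P : ℝ → ℝ) (δ κ : ℝ) (x : X) : ℝ :=
  ⨆ i : {i : Fin N // x ∈ A.Bi i 2}, (A.tr v P δ i x - κ * ‖A.e i x‖ ^ 2)

/-- `v` is smooth on the open set `D` -/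
def SmoothOn (D : Set X) (v : X → ℝ) : Prop :=
  ∀ i, ContDiffOn ℝ (⊤ : ℕ∞) (A.lc i v) ((A.e i).target ∩ (A.e i).symm ⁻¹' D)

/-- the interface with the Bedford-Taylor part: `m` restricted to the open sets where `v` is locally
bounded below is the weak limit of `cn det hess(u * ρ_ε)` -/
def HasMA (v : X → ℝ) (m : Measure X) : Prop :=
  ∀ (i : Fin N) (G : Set (V n)), IsOpen G → G ⊆ B3 n →
    (∃ C : ℝ, ∀ᵐ z, z ∈ G → -C ≤ A.pot i v z) → ∀ χ : V n → ℝ, Tst G χ →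
    Tendsto (fun ε : ℝ => ∫ z, χ z * (cn n * (hess (fun y => Phi (A.pot i v) y ε) z).det.re))
      (𝓝[>] 0) (𝓝 (∫ x in A.Bi i 3, χ (A.e i x) ∂m))

/-- the volume hypothesis: the non-pluripolar mass of every `θ`-psh function is at most `μ(X)` -/
def VolLe : Prop := ∀ v : X → ℝ, A.PSX v → ∃ m : Measure X, A.HasMA v m ∧ m univ ≤ A.μ univ

/-- a nice Kähler current `ψ` (5.2), (5.3): `ψ` is real valued, `D` is the open set where it is `> -∞`;
on `D` it is locally the maximum of finitely many smooth strictly `θ`-psh functions -/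
structure Nice (D : Set X) (ψ : X → ℝ) (ε : ℝ) : Prop where
  isOpen : IsOpen D
  null : A.μ Dᶜ = 0
  eps : 0 < ε
  kcx : A.KCX ε ψ
  cont : ContinuousOn ψ D
  le : ∀ x, ψ x ≤ -1
  cpt : ∀ j : ℝ, IsCompact {x | x ∈ D ∧ -j ≤ ψ x}
  pieces : ∃ (K : ℕ) (Dk : Fin K → Set X) (ψk : Fin K → X → ℝ), (∀ k, IsOpen (Dk k)) ∧
    (∀ k, Dk k ⊆ D) ∧ (∀ k, A.SmoothOn (Dk k) (ψk k)) ∧
    (∀ k, ∀ x ∈ Dk k, ψk k x ≤ ψ x) ∧ (∀ x ∈ D, ∃ k, x ∈ Dk k ∧ ψk k x = ψ x) ∧
    (∀ k i, ∀ z ∈ (A.e i).target, ‖z‖ < 3 → (A.e i).symm z ∈ Dk k → ∀ w : V n,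
      ε * ‖w‖ ^ 2 ≤ lev (A.pot i (ψk k)) z w)

/-- the smooth Perron solution of `(θ + dd^c φ)^n = e^{τφ} μ` on `D` (section 6) -/
structure Sol (D : Set X) (τ C : ℝ) (φ : X → ℝ) : Prop where
  st : A.St τ C φ
  max : ∀ v : X → ℝ, A.St τ C v → ∀ᵐ x ∂A.μ, v x ≤ φ x
  smooth : A.SmoothOn D φ
  eq : ∀ i, ∀ z ∈ (A.e i).target, (A.e i).symm z ∈ D →
    (hess (A.pot i φ) z).det.re = Real.exp (τ * A.lc i φ z) * A.f i z

end Atl

end Pool.Agent.Helper29.AM
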