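import Pool.Agent.Helper29.AM.LA2

/-!
# Block AM-LA3: real and complex determinants (1.6), rank one perturbation (1.9)

`det_real_le`: `L` symmetric `≥ 0` on the real Euclidean space `ℂ^n = ℝ^{2n}`, `J` multiplication by
`i`, `L' = (L + J* L J)/2` commutes with `J`, so it is complex linear and self adjoint, and
`⟪L'v,v⟫ = 2 lf H v`. Real determinant of a complex linear map: `det_ℝ L' = |det_ℂ L'|² = 4^n (det H)²`.
Finally `det_ℝ L ≤ det_ℝ L'` because `det(J*LJ) = det L` and `(det)^{1/2n}` is concave on positive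
semidefinite operators (for positive definite `L` and `K`: `det((L+K)/2)² ≥ det L · det K`, from
simultaneous diagonalisation and AM-GM `((1+λ)/2)² ≥ λ`; then `ε → 0`).
`det_rankOne`: `det(1 + η ⊗ β) = 1 + β(η)` (Mathlib: `Matrix.det_one_add_mul_comm` or
`LinearMap.det` of a rank one perturbation).
-/

set_option autoImplicit false

namespace Pool.Agent.Helper29.AM

open MeasureTheory Set Filter Topology
open scoped ComplexOrder

variable {n : ℕ}

open scoped MatrixOrder in
private theorem LA3_psd {m : ℕ} {A : Matrix (Fin m) (Fin m) ℝ} (hA : A.PosSemidef) :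
    (A.map (algebraMap ℝ ℂ)).PosSemidef := by
  obtain ⟨B, rfl⟩ := CStarAlgebra.nonneg_iff_eq_star_mul_self.mp hA.nonneg
  have h : ((star B * B).map (algebraMap ℝ ℂ)) =
      (B.map (algebraMap ℝ ℂ)).conjTranspose * (B.map (algebraMap ℝ ℂ)) := by
    ext i j
    simp [Matrix.mul_apply]
  rw [h]
  exact Matrix.posSemidef_conjTranspose_mul_self _

private theorem LA3_det {m : ℕ} (A : Matrix (Fin m) (Fin m) ℝ) :
    (A.map (algebraMap ℝ ℂ)).det = ((A.det : ℝ) : ℂ) := by
  have h := (algebraMap ℝ ℂ).map_det A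
  rw [RingHom.mapMatrix_apply] at h
  exact h.symm

private theorem LA3_pd {m : ℕ} {A : Matrix (Fin m) (Fin m) ℝ} (hA : A.PosSemidef)
    (h0 : A.det ≠ 0) : (A.map (algebraMap ℝ ℂ)).PosDef := by
  rw [(LA3_psd hA).posDef_iff_det_ne_zero, LA3_det]
  exact_mod_cast h0

private theorem LA3_conc {m : ℕ} {A B : Matrix (Fin m) (Fin m) ℝ} (hA : A.PosSemidef)
    (hB : B.PosSemidef) (hA0 : 0 < A.det) (hB0 : 0 < B.det) :
    A.det * B.det ≤ (((1 / 2 : ℝ) • (A + B)).det) ^ 2 := by
  set M : Matrix (Fin m) (Fin m) ℝ := (1 / 2 : ℝ) • (A + B) with hM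
  have hA' := LA3_pd hA hA0.ne'
  have hB' := LA3_pd hB hB0.ne'
  have hMm : M.map (algebraMap ℝ ℂ) =
      (1 / 2 : ℂ) • (A.map (algebraMap ℝ ℂ) + B.map (algebraMap ℝ ℂ)) := by
    ext i j
    simp [hM]
    ring
  have hM' : (M.map (algebraMap ℝ ℂ)).PosDef := by
    rw [hMm]
    apply Matrix.PosDef.smul (hA'.add hB')
    rw [Complex.lt_def]
    norm_num
  have hMs : M.PosSemidef := by
    rw [hM]
    exact Matrix.PosSemidef.smul (hA.add hB) (by norm_num)
  have hMd : 0 < M.det := by
    have h1 := hM'.det_pos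
    rw [LA3_det] at h1
    exact_mod_cast h1
  have e1 := log_det_le hM' hA'
  have e2 := log_det_le hM' hB'
  rw [LA3_det, LA3_det, Complex.ofReal_re, Complex.ofReal_re] at e1 e2
  have e3 : (Matrix.trace ((M.map (algebraMap ℝ ℂ))⁻¹ *
      (A.map (algebraMap ℝ ℂ) - M.map (algebraMap ℝ ℂ)))).re +
      (Matrix.trace ((M.map (algebraMap ℝ ℂ))⁻¹ *
      (B.map (algebraMap ℝ ℂ) - M.map (algebraMap ℝ ℂ)))).re = 0 := by
    rw [← Complex.add_re, ← Matrix.trace_add, ← Matrix.mul_add]
    have : A.map (algebraMap ℝ ℂ) - M.map (algebraMap ℝ ℂ) +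
        (B.map (algebraMap ℝ ℂ) - M.map (algebraMap ℝ ℂ)) = 0 := by
      ext i j
      simp [hM]
      ring
    rw [this]
    simp
  have e4 : Real.log (A.det * B.det) ≤ Real.log (M.det ^ 2) := by
    rw [Real.log_mul hA0.ne' hB0.ne', Real.log_pow]
    push_cast
    linarith
  exact (Real.log_le_log_iff (mul_pos hA0 hB0) (by positivity)).mp e4

/-- multiplication by `i`, real linear -/
private noncomputable def LA3_J (n : ℕ) : V n →ₗ[ℝ] V n :=
  (Complex.I • (LinearMap.id : V n →ₗ[ℂ] V n)).restrictScalars ℝ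

private theorem LA3_J_apply (v : V n) : LA3_J n v = Complex.I • v := rfl

private theorem LA3_inner (v w : V n) : inner ℝ v w = (inner ℂ v w : ℂ).re := by
  rw [PiLp.inner_apply, PiLp.inner_apply, Complex.re_sum]
  rfl

private theorem LA3_inner_J (v w : V n) :
    inner ℝ (LA3_J n v) w = - inner ℝ v (LA3_J n w) := by
  rw [LA3_inner, LA3_inner, LA3_J_apply, LA3_J_apply, inner_smul_left, inner_smul_right]
  simp

private theorem LA3_JJ : LA3_J n * LA3_J n = -1 := by
  ext v : 1
  rw [Module.End.mul_apply, LA3_J_apply, LA3_J_apply, smul_smul, Complex.I_mul_I]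
  simp

/-- the complex linear map with the matrix `Hᵀ` -/
private noncomputable def LA3_A (H : Mat n) : V n →ₗ[ℂ] V n := Matrix.toEuclideanLin H.transpose

private theorem LA3_A_inner (H : Mat n) (v : V n) :
    (inner ℂ v (LA3_A H v) : ℂ).re = lf H v := by
  unfold lf LA3_A
  rw [PiLp.inner_apply]
  congr 1
  rw [Finset.sum_comm]
  refine Finset.sum_congr rfl fun k _ => ?_
  rw [Matrix.toLpLin_apply]
  simp only [Matrix.mulVec, dotProduct, Matrix.transpose_apply, RCLike.inner_apply]
  rw [Finset.sum_mul]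

private theorem LA3_A_det (H : Mat n) : LinearMap.det (LA3_A H) = H.det := by
  unfold LA3_A
  rw [LinearMap.det_toLpLin]
  exact Matrix.det_transpose H

private theorem LA3_A_symm {H : Mat n} (hH : H.IsHermitian) (v w : V n) :
    inner ℝ (LA3_A H v) w = inner ℝ v (LA3_A H w) := by
  have h : (LA3_A H).IsSymmetric := by
    unfold LA3_A
    rw [Matrix.isSymmetric_toEuclideanLin_iff]
    exact hH.transpose
  rw [LA3_inner, LA3_inner, h v w]

theorem det_real_le {L : V n →L[ℝ] V n} (hsymm : ∀ v w, inner ℝ (L v) w = inner ℝ v (L w))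
    (hpos : ∀ v, 0 ≤ inner ℝ (L v) v) {H : Mat n} (hH : H.IsHermitian)
    (h : ∀ v, lf H v = (inner ℝ (L v) v + inner ℝ (L (Complex.I • v)) (Complex.I • v)) / 4) :
    |L.det| ≤ 4 ^ n * (H.det.re) ^ 2 := by
  classical
  set T : V n →ₗ[ℝ] V n := (L : V n →ₗ[ℝ] V n) with hT
  have hTL : ∀ v, T v = L v := fun v => rfl
  set K : V n →ₗ[ℝ] V n := -(LA3_J n * T * LA3_J n) with hK
  have hKv : ∀ v, K v = - LA3_J n (L (LA3_J n v)) := fun v => rfl
  have hKi : ∀ v w, inner ℝ (K v) w = inner ℝ (L (LA3_J n v)) (LA3_J n w) := by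
    intro v w
    rw [hKv, inner_neg_left, LA3_inner_J, neg_neg]
  have hKi' : ∀ v w, inner ℝ v (K w) = inner ℝ (LA3_J n v) (L (LA3_J n w)) := by
    intro v w
    rw [hKv, inner_neg_right, LA3_inner_J]
  have hTpos : T.IsPositive := ⟨fun v w => hsymm v w, fun v => hpos v⟩
  have hKpos : K.IsPositive := by
    refine ⟨fun v w => ?_, fun v => ?_⟩
    · rw [hKi, hKi', hsymm]
    · change 0 ≤ inner ℝ (K v) v
      rw [hKi]
      exact hpos _
  have hdetK : LinearMap.det K = LinearMap.det T := by
    have h1 : K = (-LA3_J n) * T * LA3_J n := by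
      rw [hK, neg_mul, neg_mul]
    have h2 : (-LA3_J n) * LA3_J n = 1 := by
      rw [neg_mul, LA3_JJ, neg_neg]
    have h3 : LinearMap.det (-LA3_J n) * LinearMap.det (LA3_J n) = 1 := by
      rw [← map_mul, h2, map_one]
    rw [h1, map_mul, map_mul]
    calc LinearMap.det (-LA3_J n) * LinearMap.det T * LinearMap.det (LA3_J n)
        = LinearMap.det T * (LinearMap.det (-LA3_J n) * LinearMap.det (LA3_J n)) := by ring
      _ = LinearMap.det T := by rw [h3, mul_one]
  -- the complex linear average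
  have hS : (1 / 2 : ℝ) • (T + K) = ((2 : ℂ) • LA3_A H).restrictScalars ℝ := by
    set R : V n →ₗ[ℝ] V n := ((2 : ℂ) • LA3_A H).restrictScalars ℝ with hR
    have hRv : ∀ v, R v = (2 : ℝ) • LA3_A H v := by
      intro v
      have : R v = (2 : ℂ) • LA3_A H v := rfl
      rw [this]
      ext i
      simp
    have hRs : R.IsSymmetric := by
      intro v w
      rw [hRv, hRv, inner_smul_left, inner_smul_right, LA3_A_symm hH]
      rfl
    have hSs : ((1 / 2 : ℝ) • (T + K)).IsSymmetric :=
      (hTpos.1.add hKpos.1).smul (by simp)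
    have hD : ((1 / 2 : ℝ) • (T + K) - R).IsSymmetric := hSs.sub hRs
    rw [← sub_eq_zero, ← hD.inner_map_self_eq_zero]
    intro v
    rw [LinearMap.sub_apply, inner_sub_left, LinearMap.smul_apply, LinearMap.add_apply,
      inner_smul_left, inner_add_left, hRv, inner_smul_left, real_inner_comm v (LA3_A H v),
      LA3_inner v (LA3_A H v), LA3_A_inner, hKi, h v, hTL]
    simp only [conj_trivial, LA3_J_apply]
    ring
  have hdetS : LinearMap.det ((1 / 2 : ℝ) • (T + K)) = 4 ^ n * (H.det.re) ^ 2 := by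
    rw [hS, LinearMap.det_restrictScalars, Algebra.norm_complex_apply, LinearMap.det_smul,
      LA3_A_det, map_mul, map_pow]
    have h1 : Module.finrank ℂ (V n) = n := by simp
    have h2 : Complex.normSq 2 = 4 := by
      rw [Complex.normSq_apply]
      norm_num
    have h3 : H.det.im = 0 := by
      have h4 := congrArg Matrix.det hH.eq
      rw [Matrix.det_conjTranspose] at h4
      exact Complex.conj_eq_iff_im.mp h4
    rw [h1, h2, Complex.normSq_apply, h3]
    ring
  have hdetL : L.det = LinearMap.det T := rfl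
  rw [hdetL]
  set b := stdOrthonormalBasis ℝ (V n) with hb
  have hA := (LinearMap.posSemidef_toMatrix_iff b).mpr hTpos
  have hB := (LinearMap.posSemidef_toMatrix_iff b).mpr hKpos
  have hAd : (LinearMap.toMatrix b.toBasis b.toBasis T).det = LinearMap.det T :=
    LinearMap.det_toMatrix _ _
  have hBd : (LinearMap.toMatrix b.toBasis b.toBasis K).det = LinearMap.det T := by
    rw [LinearMap.det_toMatrix, hdetK]
  have h0 : 0 ≤ LinearMap.det T := by
    rw [← hAd]
    exact hA.det_nonneg
  rw [abs_of_nonneg h0]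
  rcases h0.eq_or_lt with h0 | h0
  · rw [← h0]
    positivity
  have hc := LA3_conc hA hB (by rw [hAd]; exact h0) (by rw [hBd]; exact h0)
  have hSd : ((1 / 2 : ℝ) • (LinearMap.toMatrix b.toBasis b.toBasis T +
      LinearMap.toMatrix b.toBasis b.toBasis K)).det = 4 ^ n * (H.det.re) ^ 2 := by
    rw [← map_add, ← map_smul, LinearMap.det_toMatrix, hdetS]
  rw [hAd, hBd, hSd, ← sq] at hc
  exact le_of_sq_le_sq hc (by positivity)

/-- the map `v ↦ v + β(v) η` -/
noncomputable def Bm (β : V n →L[ℂ] ℂ) (η : V n) : Lin n := 1 + β.smulRight η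

theorem Bm_apply (β : V n →L[ℂ] ℂ) (η v : V n) : Bm β η v = v + β v • η := by
  simp [Bm]

theorem det_Bm (β : V n →L[ℂ] ℂ) (η : V n) : (Bm β η).det = 1 + β η := by
  exact LinearMap.transvection.det (β : V n →ₗ[ℂ] ℂ) η

/-- if `‖B - 1‖ ≤ 1/4` then `tr(B* H B) ≥ (1/2) tr H`, in the form of Levi forms -/
theorem trace_Bm_ge {H : Mat n} (hH : H.PosSemidef) (B : Lin n) (hB : ‖B - 1‖ ≤ 1 / 4) :
    (1 / 2) * ∑ l, lf H (e l) ≤ ∑ l, lf H (B (e l)) := by
  classical
  set N : Lin n := B - 1 with hN
  set Q : Mat n := (Matrix.toEuclideanCLM (n := Fin n) (𝕜 := ℂ)).symm N with hQ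
  have hQN : Matrix.toEuclideanCLM (n := Fin n) (𝕜 := ℂ) Q = N := by
    rw [hQ]
    exact StarAlgEquiv.apply_symm_apply _ _
  have hNe : ∀ l j, (N (e l)) j = Q j l := by
    intro l j
    rw [← hQN]
    have : (Matrix.toEuclideanCLM (n := Fin n) (𝕜 := ℂ) Q (e l)) j =
        (Matrix.mulVec Q (fun i => (e l : V n) i)) j := rfl
    rw [this]
    have h2 : (fun i => (e l : V n) i) = Pi.single l (1 : ℂ) := by
      ext i
      simp [e, Pi.single_apply]
    rw [h2, Matrix.mulVec_single_one]
    rfl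
  have hHt : (H.transpose).PosSemidef := hH.transpose
  have hab := abs_trace_mul_le hHt Q (q := 1 / 4) (by norm_num) (fun x => by
    rw [hQN]
    exact (N.le_opNorm x).trans (mul_le_mul_of_nonneg_right hB (norm_nonneg x)))
  have htr : (Matrix.trace H.transpose).re = ∑ l, lf H (e l) := by
    rw [Matrix.trace_transpose, ← sA_one]
    rfl
  rw [htr] at hab
  have hcross : ∑ l, (∑ j, ∑ k, H j k * (N (e l)) j * (starRingEnd ℂ) ((e l : V n) k)).re =
      (Matrix.trace (H.transpose * Q)).re := by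
    rw [Matrix.trace, Complex.re_sum]
    refine Finset.sum_congr rfl fun l _ => ?_
    congr 1
    rw [Matrix.diag_apply, Matrix.mul_apply]
    refine Finset.sum_congr rfl fun j _ => ?_
    rw [Finset.sum_eq_single l]
    · rw [hNe, Matrix.transpose_apply]
      simp [e]
    · intro k _ hk
      simp [e, hk]
    · simp
  have hterm : ∀ l, lf H (e l) + 2 * (∑ j, ∑ k, H j k * (N (e l)) j *
      (starRingEnd ℂ) ((e l : V n) k)).re ≤ lf H (B (e l)) := by
    intro l
    have h1 := (posSemidef_iff_lf hH.isHermitian).mp hH (N (e l))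
    have h2 : B (e l) = e l + N (e l) := by
      rw [hN]
      simp
    have h3 : lf H (e l + N (e l)) = lf H (e l) + lf H (N (e l)) +
        2 * (∑ j, ∑ k, H j k * (N (e l)) j * (starRingEnd ℂ) ((e l : V n) k)).re := by
      have h4 : (∑ j, ∑ k, H j k * (e l : V n) j * (starRingEnd ℂ) ((N (e l)) k)) =
          (starRingEnd ℂ) (∑ j, ∑ k, H j k * (N (e l)) j * (starRingEnd ℂ) ((e l : V n) k)) := by
        rw [map_sum, Finset.sum_comm]
        refine Finset.sum_congr rfl fun k _ => ?_
        rw [map_sum]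
        refine Finset.sum_congr rfl fun j _ => ?_
        rw [map_mul, map_mul, Complex.conj_conj]
        have h5 : (starRingEnd ℂ) (H k j) = H j k := hH.isHermitian.apply j k
        rw [h5]
        ring
      have h6 := congrArg Complex.re h4
      rw [Complex.conj_re] at h6
      have h7 : (∑ j, ∑ k, H j k * (e l + N (e l) : V n) j *
          (starRingEnd ℂ) ((e l + N (e l) : V n) k)) =
          (∑ j, ∑ k, H j k * (e l : V n) j * (starRingEnd ℂ) ((e l : V n) k)) +
          (∑ j, ∑ k, H j k * (N (e l)) j * (starRingEnd ℂ) ((N (e l)) k)) +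
          ((∑ j, ∑ k, H j k * (N (e l)) j * (starRingEnd ℂ) ((e l : V n) k)) +
          (∑ j, ∑ k, H j k * (e l : V n) j * (starRingEnd ℂ) ((N (e l)) k))) := by
        simp only [← Finset.sum_add_distrib]
        refine Finset.sum_congr rfl fun j _ => Finset.sum_congr rfl fun k _ => ?_
        rw [PiLp.add_apply, PiLp.add_apply, map_add]
        ring
      unfold lf
      rw [h7, Complex.add_re, Complex.add_re, Complex.add_re, h6]
      ring
    rw [h2, h3]
    linarith
  have hsum := Finset.sum_le_sum (s := Finset.univ) (fun l _ => hterm l)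
  rw [Finset.sum_add_distrib, ← Finset.mul_sum, hcross] at hsum
  have := (abs_le.mp hab).1
  linarith

end Pool.Agent.Helper29.AM
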