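import Pool.Agent.Helper29.AM.Statement
import Pool.Agent.Helper29.AM.Glob
import Pool.Agent.Helper29.AM.LA3
import Pool.Agent.Helper32.Hol

/-!
# Block AM-CV1a: densities of a smooth volume form in two charts

Let `κ = E' ∘ E⁻¹` on `W = (E.symm.trans E').source`. For Borel `S ⊆ W`:
`∫_S f = μ(E⁻¹ S) = ∫_{κ S} f' = ∫_S |det κ'|² f'(κ z) dz` (`lintegral_image_eq_lintegral_abs_det_fderiv_mul`,
the real determinant of a complex linear map is `‖det‖²`, see LA3). So the two continuous functions
`f` and `|det κ'|² f' ∘ κ` agree a.e. on the open set `W`, hence everywhere. (Continuity of `det κ'`: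
`Pool.Agent.Helper32.Hol` (holomorphic maps are smooth); `E.symm` is continuous on the target.)
-/

set_option autoImplicit false

namespace Pool.Agent.Helper29.AM

open MeasureTheory Set Filter Topology
open scoped ENNReal

variable {n : ℕ} {X : Type} [TopologicalSpace X] [MeasurableSpace X] [BorelSpace X]

private theorem rdet50 (L : V n →L[ℂ] V n) : (L.restrictScalars ℝ).det = ‖L.det‖ ^ 2 := by
  have h1 : (L.restrictScalars ℝ).det = LinearMap.det ((L : V n →ₗ[ℂ] V n).restrictScalars ℝ) := rfl
  rw [h1, LinearMap.det_restrictScalars, Algebra.norm_complex_apply, Complex.normSq_eq_norm_sq]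

theorem density_compat {μ : Measure X} {E E' : OpenPartialHomeomorph X (V n)} {f f' : V n → ℝ}
    (hol : DifferentiableOn ℂ (fun z => E' (E.symm z)) (E.symm.trans E').source)
    (hol' : DifferentiableOn ℂ (fun z => E (E'.symm z)) (E'.symm.trans E).source)
    (hf : ContinuousOn f E.target) (hf' : ContinuousOn f' E'.target)
    (h0 : ∀ z ∈ E.target, 0 < f z) (h0' : ∀ z ∈ E'.target, 0 < f' z)
    (hμ : (μ.restrict E.source).map E =
      (volume.restrict E.target).withDensity fun z => ENNReal.ofReal (f z))
    (hμ' : (μ.restrict E'.source).map E' =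
      (volume.restrict E'.target).withDensity fun z => ENNReal.ofReal (f' z)) :
    ∀ z ∈ (E.symm.trans E').source,
      f z = ‖(fderiv ℂ (fun y => E' (E.symm y)) z).det‖ ^ 2 * f' (E' (E.symm z)) := by
  have hWo : IsOpen (E.symm.trans E').source := (E.symm.trans E').open_source
  have hWt : (E.symm.trans E').source ⊆ E.target := fun z hz => by
    rw [OpenPartialHomeomorph.trans_source] at hz
    exact hz.1
  have hWs : ∀ z ∈ (E.symm.trans E').source, E.symm z ∈ E'.source := fun z hz => by
    rw [OpenPartialHomeomorph.trans_source] at hz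
    exact hz.2
  set W := (E.symm.trans E').source with hW
  set κ : V n → V n := fun z => E' (E.symm z) with hκ
  have hκinj : InjOn κ W := by
    intro z hz w hw h
    have h1 := E'.injOn (hWs z hz) (hWs w hw) h
    exact E.symm.injOn (hWt hz) (hWt hw) h1
  have hκd : ∀ z ∈ W, HasFDerivAt κ (((fderiv ℂ κ z).restrictScalars ℝ)) z := fun z hz =>
    ((hol.differentiableAt (hWo.mem_nhds hz)).hasFDerivAt).restrictScalars ℝ
  have key : ∀ S ⊆ W, MeasurableSet S → ∫⁻ z in S, ENNReal.ofReal (f z) =
      ∫⁻ z in S, ENNReal.ofReal (‖(fderiv ℂ κ z).det‖ ^ 2 * f' (κ z)) := by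
    intro S hS hSm
    have hSt := hS.trans hWt
    have hinj := hκinj.mono hS
    have hS'm : MeasurableSet (κ '' S) :=
      measurable_image_of_fderivWithin hSm (fun z hz => (hκd z (hS hz)).hasFDerivWithinAt) hinj
    have hS't : κ '' S ⊆ E'.target := by
      rintro _ ⟨z, hz, rfl⟩
      exact E'.map_source (hWs z (hS hz))
    have a1 : ∫⁻ z in S, ENNReal.ofReal (f z) = μ (E ⁻¹' S ∩ E.source) := by
      have h1 := congrArg (fun m => m S) hμ
      rw [Measure.map_apply_of_aemeasurable (E.continuousOn.aemeasurable E.open_source.measurableSet) hSm,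
        Measure.restrict_apply' E.open_source.measurableSet, withDensity_apply _ hSm, Measure.restrict_restrict hSm,
        inter_eq_left.2 hSt] at h1
      exact h1.symm
    have a2 : ∫⁻ z in κ '' S, ENNReal.ofReal (f' z) = μ (E' ⁻¹' (κ '' S) ∩ E'.source) := by
      have h1 := congrArg (fun m => m (κ '' S)) hμ'
      rw [Measure.map_apply_of_aemeasurable (E'.continuousOn.aemeasurable E'.open_source.measurableSet) hS'm,
        Measure.restrict_apply' E'.open_source.measurableSet, withDensity_apply _ hS'm, Measure.restrict_restrict hS'm,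
        inter_eq_left.2 hS't] at h1
      exact h1.symm
    have a3 : E ⁻¹' S ∩ E.source = E' ⁻¹' (κ '' S) ∩ E'.source := by
      ext x
      constructor
      · rintro ⟨hx, hxs⟩
        have h1 := hWs _ (hS hx)
        rw [E.left_inv hxs] at h1
        exact ⟨⟨E x, hx, by simp only [hκ]; rw [E.left_inv hxs]⟩, h1⟩
      · rintro ⟨⟨z, hz, hzx⟩, hxs⟩
        have h1 : E.symm z = x := E'.injOn (hWs z (hS hz)) hxs hzx
        rw [← h1]
        exact ⟨by rw [mem_preimage, E.right_inv (hSt hz)]; exact hz, E.map_target (hSt hz)⟩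
    rw [a1, a3, ← a2, lintegral_image_eq_lintegral_abs_det_fderiv_mul volume hSm
      (fun z hz => (hκd z (hS hz)).hasFDerivWithinAt) hinj]
    refine setLIntegral_congr_fun hSm fun z hz => ?_
    simp only
    rw [rdet50, abs_of_nonneg (by positivity), ← ENNReal.ofReal_mul (by positivity)]
  have hκc : ContinuousOn κ W := hol.continuousOn
  have hκm : MapsTo κ W E'.target := fun z hz => E'.map_source (hWs z hz)
  have c1 : ContinuousOn (fderiv ℂ κ) W :=
    (Pool.Agent.Helper32.contDiffOn_hol hWo hol).continuousOn_fderiv_of_isOpen hWo (by simp)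
  have c2 : ContinuousOn (fun z => ‖(fderiv ℂ κ z).det‖ ^ 2 * f' (κ z)) W := by
    have c3 : ContinuousOn (fun z => (fderiv ℂ κ z).det) W := ContinuousLinearMap.continuous_det.comp_continuousOn c1
    exact (c3.norm.pow 2).mul (hf'.comp hκc hκm)
  have c4 : ContinuousOn (fun z => ENNReal.ofReal (f z)) W := ENNReal.continuous_ofReal.comp_continuousOn (hf.mono hWt)
  have c5 : ContinuousOn (fun z => ENNReal.ofReal (‖(fderiv ℂ κ z).det‖ ^ 2 * f' (κ z))) W :=
    ENNReal.continuous_ofReal.comp_continuousOn c2
  have hae : (fun z => ENNReal.ofReal (f z)) =ᵐ[volume.restrict W]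
      fun z => ENNReal.ofReal (‖(fderiv ℂ κ z).det‖ ^ 2 * f' (κ z)) := by
    refine ae_eq_of_forall_setLIntegral_eq_of_sigmaFinite₀ (c4.aemeasurable hWo.measurableSet) (c5.aemeasurable hWo.measurableSet) ?_
    intro S hSm _
    rw [Measure.restrict_restrict hSm]
    exact key _ inter_subset_right (hSm.inter hWo.measurableSet)
  have heq := Measure.eqOn_open_of_ae_eq hae hWo c4 c5
  intro z hz
  have h1 := heq hz
  have h2 : 0 < f z := h0 z (hWt hz)
  have h3 : 0 < f' (κ z) := h0' _ (hκm hz)
  exact (ENNReal.ofReal_eq_ofReal_iff h2.le (by positivity)).1 h1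

end Pool.Agent.Helper29.AM
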