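import Pool.Agent.Helper29.AM.Statement
import Pool.Agent.Helper29.AM.Glob

/-!
# Block AM-CV1b: rescaled charts

`rsc e hU c hr` is the chart `x ↦ (e x - c) / r` on `e.source ∩ U`, its inverse is `z ↦ e⁻¹(c + r z)`.
Holomorphic transition maps: for `e, e' ∈ atlas` the map `e' ∘ e⁻¹` is `ContDiffOn ℂ ω` on
`(e.symm.trans e').source` (`HasGroupoid.compatible`, `contDiffGroupoid`, `mem_contDiffGroupoid`-type
lemmas with `modelWithCornersSelf`), compose with affine maps.
Measure: the image of the density `f` under `z ↦ (z - c)/r` is `r^{2n} f(c + r z)`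
(`Measure.addHaar_smul`-type, or `lintegral_image_eq_lintegral_abs_det_fderiv_mul`), restricted to the
preimage of `U`.
-/

set_option autoImplicit false

namespace Pool.Agent.Helper29.AM

open MeasureTheory Set Filter Topology
open scoped Manifold ContDiff ENNReal

variable {n : ℕ} {X : Type} [TopologicalSpace X]

/-- `z ↦ (z - c)/r` -/
noncomputable def affH (c : V n) {r : ℝ} (hr : r ≠ 0) : V n ≃ₜ V n :=
  (Homeomorph.addRight (-c)).trans (Homeomorph.smulOfNeZero r⁻¹ (inv_ne_zero hr))

/-- the chart `x ↦ (e x - c)/r` on `e.source ∩ U` -/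
noncomputable def rsc (e : OpenPartialHomeomorph X (V n)) {U : Set X} (hU : IsOpen U) (c : V n)
    {r : ℝ} (hr : r ≠ 0) : OpenPartialHomeomorph X (V n) :=
  (e.restrOpen U hU).transHomeomorph (affH c hr)

private theorem affH_symm82 (c : V n) {r : ℝ} (hr : r ≠ 0) (z : V n) :
    (affH c hr).symm z = c + r • z := by
  rw [Homeomorph.symm_apply_eq]
  change z = r⁻¹ • (c + r • z + -c)
  rw [add_comm c (r • z), add_neg_cancel_right, smul_smul, inv_mul_cancel₀ hr, one_smul]

private theorem atlas_hol82 [ChartedSpace (V n) X] [IsManifold 𝓘(ℂ, V n) ω X]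
    {e e' : OpenPartialHomeomorph X (V n)} (he : e ∈ atlas (V n) X) (he' : e' ∈ atlas (V n) X) :
    DifferentiableOn ℂ (fun z => e' (e.symm z)) (e.symm.trans e').source := by
  have h : e.symm.trans e' ∈ contDiffGroupoid ω 𝓘(ℂ, V n) :=
    HasGroupoid.compatible he he'
  have h1 := (contMDiffOn_of_mem_contDiffGroupoid h).contDiffOn
  exact h1.differentiableOn (by simp)

variable (e : OpenPartialHomeomorph X (V n)) {U : Set X} (hU : IsOpen U) (c : V n) {r : ℝ}
  (hr : r ≠ 0)

theorem rsc_source : (rsc e hU c hr).source = e.source ∩ U := by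
  ext x
  simp [rsc]

theorem rsc_apply (x : X) : rsc e hU c hr x = r⁻¹ • (e x - c) := by
  change r⁻¹ • (e x + -c) = r⁻¹ • (e x - c)
  rw [sub_eq_add_neg]

theorem rsc_symm_apply (z : V n) : (rsc e hU c hr).symm z = e.symm (c + r • z) := by
  have h1 : (affH c hr).symm z = c + r • z := affH_symm82 c hr z
  change e.symm ((affH c hr).symm z) = _
  rw [h1]

theorem rsc_target : (rsc e hU c hr).target = {z | c + r • z ∈ img e U} := by
  ext z
  have h1 : (affH c hr).symm z = c + r • z := affH_symm82 c hr z
  change (affH c hr).symm z ∈ e.target ∩ e.symm ⁻¹' U ↔ _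
  rw [h1]
  rfl

theorem rsc_hol [ChartedSpace (V n) X] [IsManifold 𝓘(ℂ, V n) ω X] {e e' : OpenPartialHomeomorph X (V n)}
    (he : e ∈ atlas (V n) X) (he' : e' ∈ atlas (V n) X) {U U' : Set X} (hU : IsOpen U)
    (hU' : IsOpen U') (c c' : V n) {r r' : ℝ} (hr : r ≠ 0) (hr' : r' ≠ 0) :
    DifferentiableOn ℂ (fun z => rsc e' hU' c' hr' ((rsc e hU c hr).symm z))
      ((rsc e hU c hr).symm.trans (rsc e' hU' c' hr')).source := by
  have h := atlas_hol82 he he'
  have hz : ∀ z ∈ ((rsc e hU c hr).symm.trans (rsc e' hU' c' hr')).source,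
      c + r • z ∈ (e.symm.trans e').source := by
    intro z hz
    have hz1 : z ∈ (rsc e hU c hr).target := hz.1
    have hz2 : (rsc e hU c hr).symm z ∈ (rsc e' hU' c' hr').source := hz.2
    rw [rsc_target] at hz1
    rw [rsc_source, rsc_symm_apply] at hz2
    exact ⟨hz1.1, hz2.1⟩
  have haff : Differentiable ℂ (fun z : V n => c + r • z) :=
    (differentiable_id.const_smul r).const_add c
  have h2 : DifferentiableOn ℂ (fun z => e' (e.symm (c + r • z)))
      ((rsc e hU c hr).symm.trans (rsc e' hU' c' hr')).source :=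
    h.comp haff.differentiableOn hz
  refine ((h2.sub_const c').const_smul r'⁻¹).congr fun z _ => ?_
  rw [rsc_apply, rsc_symm_apply]
  rfl

/-- transition maps between charts of the atlas -/
theorem atlas_hol [ChartedSpace (V n) X] [IsManifold 𝓘(ℂ, V n) ω X]
    {e e' : OpenPartialHomeomorph X (V n)} (he : e ∈ atlas (V n) X) (he' : e' ∈ atlas (V n) X) :
    DifferentiableOn ℂ (fun z => e' (e.symm z)) (e.symm.trans e').source := by
  exact atlas_hol82 he he'

theorem rsc_measure [MeasurableSpace X] [BorelSpace X] {μ : Measure X} {f : V n → ℝ}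
    (hf : ContinuousOn f e.target) (h0 : ∀ z ∈ e.target, 0 < f z)
    (hμ : (μ.restrict e.source).map e =
      (volume.restrict e.target).withDensity fun z => ENNReal.ofReal (f z)) :
    (μ.restrict (rsc e hU c hr).source).map (rsc e hU c hr) =
      (volume.restrict (rsc e hU c hr).target).withDensity fun z =>
        ENNReal.ofReal (|r| ^ (2 * n) * f (c + r • z)) := by
  classical
  have hes : MeasurableSet e.source := e.open_source.measurableSet
  have hae : AEMeasurable e (μ.restrict e.source) := e.continuousOn.aemeasurable hes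
  have himg : IsOpen (img e U) := e.symm.isOpen_inter_preimage hU
  have him : MeasurableSet (img e U) := himg.measurableSet
  have hset : e ⁻¹' (img e U) ∩ e.source = e.source ∩ U := by
    ext x
    constructor
    · rintro ⟨h1, h2⟩
      refine ⟨h2, ?_⟩
      have := h1.2
      rwa [mem_preimage, e.left_inv h2] at this
    · rintro ⟨h1, h2⟩
      refine ⟨⟨e.map_source h1, ?_⟩, h1⟩
      rwa [mem_preimage, e.left_inv h1]
  have hle : μ.restrict (e.source ∩ U) ≤ μ.restrict e.source :=
    Measure.restrict_mono inter_subset_left le_rfl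
  have hae' : AEMeasurable e (μ.restrict (e.source ∩ U)) := hae.mono_measure hle
  have h1 : (μ.restrict (e.source ∩ U)).map e =
      (volume.restrict (img e U)).withDensity fun z => ENNReal.ofReal (f z) := by
    have h2 : ((μ.restrict e.source).map e).restrict (img e U) =
        (μ.restrict (e.source ∩ U)).map e := by
      rw [Measure.restrict_map_of_aemeasurable hae him, Measure.restrict_restrict' hes, hset]
    rw [← h2, hμ, restrict_withDensity him, Measure.restrict_restrict him]
    have : img e U ∩ e.target = img e U := inter_eq_left.mpr inter_subset_left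
    rw [this]
  set B : V n ≃ᵐ V n := (affH c hr).symm.toMeasurableEquiv with hB
  have hBapply : ∀ z, B z = c + r • z := fun z => affH_symm82 c hr z
  have hBs : ∀ z, B.symm z = affH c hr z := fun z => rfl
  have hmeas : Measurable (affH c hr) := (affH c hr).continuous.measurable
  have hcomp : (rsc e hU c hr : X → V n) = (affH c hr) ∘ e := rfl
  have h3 : (μ.restrict (rsc e hU c hr).source).map (rsc e hU c hr) =
      ((volume.restrict (img e U)).withDensity fun z => ENNReal.ofReal (f z)).map (affH c hr) := by
    rw [rsc_source, hcomp, ← h1, AEMeasurable.map_map_of_aemeasurable hmeas.aemeasurable hae']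
  have hvol : (volume : Measure (V n)).map B =
      ENNReal.ofReal |(r ^ (2 * n))⁻¹| • (volume : Measure (V n)) := by
    have h4 : (B : V n → V n) = (fun z => c + z) ∘ (fun z => r • z) := by
      funext z
      exact hBapply z
    have h5 : Module.finrank ℝ (V n) = 2 * n := by
      rw [finrank_real_of_complex, finrank_euclideanSpace_fin]
    rw [h4, ← Measure.map_map (measurable_const_add c) (measurable_const_smul r),
      Measure.map_addHaar_smul volume hr, Measure.map_smul, h5, map_add_left_eq_self]
  rw [h3]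
  refine Measure.ext fun S hS => ?_
  have hT : MeasurableSet (rsc e hU c hr).target := (rsc e hU c hr).open_target.measurableSet
  have hAS : MeasurableSet (affH c hr ⁻¹' S) := hmeas hS
  rw [Measure.map_apply hmeas hS, withDensity_apply _ hAS, withDensity_apply _ hS,
    Measure.restrict_restrict hAS, Measure.restrict_restrict hS]
  have hpre : S ∩ (rsc e hU c hr).target = B ⁻¹' (affH c hr ⁻¹' S ∩ img e U) := by
    ext z
    rw [rsc_target]
    constructor
    · rintro ⟨ha, hb⟩
      refine ⟨?_, ?_⟩
      · change affH c hr ((affH c hr).symm z) ∈ S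
        rwa [(affH c hr).apply_symm_apply]
      · rw [hBapply]
        exact hb
    · rintro ⟨ha, hb⟩
      refine ⟨?_, ?_⟩
      · have ha' : affH c hr ((affH c hr).symm z) ∈ S := ha
        rwa [(affH c hr).apply_symm_apply] at ha'
      · rw [hBapply] at hb
        exact hb
  have hcongr : ∀ z : V n, ENNReal.ofReal (|r| ^ (2 * n) * f (c + r • z)) =
      ENNReal.ofReal (|r| ^ (2 * n)) * ENNReal.ofReal (f (B z)) := by
    intro z
    rw [hBapply, ENNReal.ofReal_mul (by positivity)]
  rw [hpre]
  simp_rw [hcongr]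
  have hr2 : ENNReal.ofReal (|r| ^ (2 * n)) ≠ ⊤ := ENNReal.ofReal_ne_top
  rw [lintegral_const_mul' _ _ hr2]
  have h6 : ∫⁻ z in B ⁻¹' (affH c hr ⁻¹' S ∩ img e U), ENNReal.ofReal (f (B z)) ∂(volume : Measure (V n)) =
      ∫⁻ z in (affH c hr ⁻¹' S ∩ img e U), ENNReal.ofReal (f z) ∂((volume : Measure (V n)).map B) := by
    rw [MeasurableEquiv.restrict_map, lintegral_map_equiv]
  rw [h6, hvol, Measure.restrict_smul, lintegral_smul_measure, smul_eq_mul, ← mul_assoc,
    ← ENNReal.ofReal_mul (by positivity), abs_inv, abs_pow, mul_inv_cancel₀, ENNReal.ofReal_one,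
    one_mul]
  exact pow_ne_zero _ (abs_ne_zero.mpr hr)

end Pool.Agent.Helper29.AM
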