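import Pool.Agent.Helper29.AM.CV1a
import Pool.Agent.Helper29.AM.CV1b
import Pool.Agent.Helper29.AM.Lev

/-!
# Block AM-CV1c: a finite atlas adapted to the form `θ` and the volume form `μ`

For `x : X` let `e = chartAt x`, `x ∈ U i`, `c = e x`, `r > 0` with `closedBall c (4 r) ⊆ img e (U i)`
(an open set containing `c`). Then `rsc e _ c _` has `closedBall 0 4` in its target and `x` is mapped
to `0`. By compactness finitely many of the open sets `{y | y ∈ source, ‖rsc .. y‖ < 1}` cover `X`.
`g k = θ.g i ∘ (A.e k).symm`; `f k z = r^{2n} f_e(c + r z) / cn n`; `g_compat` from `θ.compat` (in the chart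
`e` of `k`; `lev` of a function composed with an affine or holomorphic map: `lev_comp_holo`);
`f_compat` from `density_compat` (CV1a), `μ_eq` from `rsc_measure`.
(`g_compat` is about `g j (e_j (e_i⁻¹ y)) - g i y = θ.g i_j (e_i⁻¹ y) - θ.g i_i (e_i⁻¹ y)` near `z`.)
-/

set_option autoImplicit false

namespace Pool.Agent.Helper29.AM

open MeasureTheory Set Filter Topology
open scoped Manifold ContDiff ENNReal

variable {n N : ℕ} {X : Type} [TopologicalSpace X] [ChartedSpace (V n) X] [MeasurableSpace X]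

/-- the finite atlas `A` consists of rescaled restrictions of charts of `X`, its potentials are those
of `θ` -/
structure Adapted (θ : Form n X) (A : Atl X n N) : Prop where
  chart : ∀ k : Fin N, ∃ e ∈ atlas (V n) X, ∃ i, ∃ c : V n, ∃ r : ℝ, 0 < r ∧
    (A.e k).source ⊆ e.source ∩ θ.U i ∧ (∀ x ∈ (A.e k).source, e x = c + r • A.e k x) ∧
    (∀ z ∈ (A.e k).target, A.g k z = θ.g i ((A.e k).symm z))

private theorem aff_diff53 (c : V n) (r : ℝ) (z w : V n) :
    ContDiffAt ℂ 2 (fun y : V n => c + r • y) z ∧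
      fderiv ℂ (fun y : V n => c + r • y) z w = r • w := by
  have e : (fun y : V n => c + r • y) = fun y : V n => c + (r : ℂ) • y := by
    funext y
    rw [Complex.coe_smul]
  rw [e]
  refine ⟨contDiffAt_const.add (contDiffAt_id.const_smul (r : ℂ)), ?_⟩
  have h : HasFDerivAt (fun y : V n => c + (r : ℂ) • y)
      ((r : ℂ) • ContinuousLinearMap.id ℂ (V n)) z :=
    ((hasFDerivAt_id z).const_smul (r : ℂ)).const_add c
  rw [h.fderiv]
  show (r : ℂ) • w = r • w
  rw [Complex.coe_smul]

private theorem aff_real53 (c : V n) (r : ℝ) : ContDiff ℝ (⊤ : ℕ∞) (fun y : V n => c + r • y) :=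
  contDiff_const.add (contDiff_id.const_smul r)

private theorem cn_pos53 : 0 < cn n := by
  unfold cn
  positivity

omit [ChartedSpace (V n) X] [MeasurableSpace X] in
private theorem img_open53 (e : OpenPartialHomeomorph X (V n)) {U : Set X} (hU : IsOpen U) :
    IsOpen (img e U) := e.isOpen_inter_preimage_symm hU

theorem exists_atl [T2Space X] [CompactSpace X] [IsManifold 𝓘(ℂ, V n) ω X] [BorelSpace X]
    (θ : Form n X) {μ : Measure X} (hμ : SmoothVolume n μ) :
    ∃ (N : ℕ) (A : Atl X n N), A.μ = μ ∧ Adapted θ A := by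
  classical
  have hdata : ∀ x : X, ∃ (e : OpenPartialHomeomorph X (V n)) (i : θ.ι) (c : V n) (r : ℝ)
      (f : V n → ℝ), e ∈ atlas (V n) X ∧ 0 < r ∧ x ∈ e.source ∧ x ∈ θ.U i ∧ c = e x ∧
      Metric.closedBall c (4 * r) ⊆ img e (θ.U i) ∧ ContDiffOn ℝ (⊤ : ℕ∞) f e.target ∧
      (∀ z ∈ e.target, 0 < f z) ∧ (μ.restrict e.source).map e =
        (volume.restrict e.target).withDensity fun z => ENNReal.ofReal (f z) := by
    intro x
    obtain ⟨i, hi⟩ := θ.cover x
    obtain ⟨f, hf1, hf2, hf3⟩ := hμ (chartAt (V n) x) (chart_mem_atlas (V n) x)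
    have hxs : x ∈ (chartAt (V n) x).source := mem_chart_source (V n) x
    have hmem : chartAt (V n) x x ∈ img (chartAt (V n) x) (θ.U i) := by
      refine ⟨(chartAt (V n) x).map_source hxs, ?_⟩
      rw [mem_preimage, (chartAt (V n) x).left_inv hxs]
      exact hi
    obtain ⟨ε, hε, hεs⟩ := Metric.nhds_basis_closedBall.mem_iff.1
      ((img_open53 (chartAt (V n) x) (θ.isOpen i)).mem_nhds hmem)
    refine ⟨chartAt (V n) x, i, chartAt (V n) x x, ε / 4, f, chart_mem_atlas (V n) x,
      by positivity, hxs, hi, rfl, ?_, hf1, hf2, hf3⟩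
    rwa [mul_div_cancel₀ ε (by norm_num : (4 : ℝ) ≠ 0)]
  choose e i c r f he hr hxs hxU hc hball hf hf0 hfμ using hdata
  set E : X → OpenPartialHomeomorph X (V n) :=
    fun x => rsc (e x) (θ.isOpen (i x)) (c x) (hr x).ne' with hE
  have hEs : ∀ x, (E x).source = (e x).source ∩ θ.U (i x) := fun x => rsc_source _ _ _ _
  have hEa : ∀ x y, E x y = (r x)⁻¹ • (e x y - c x) := fun x y => rsc_apply _ _ _ _ y
  have hEsy : ∀ x z, (E x).symm z = (e x).symm (c x + r x • z) :=
    fun x z => rsc_symm_apply _ _ _ _ z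
  have hEt : ∀ x, (E x).target = {z | c x + r x • z ∈ img (e x) (θ.U (i x))} :=
    fun x => rsc_target _ _ _ _
  have hholE : ∀ x y, DifferentiableOn ℂ (fun z => E y ((E x).symm z))
      ((E x).symm.trans (E y)).source := fun x y =>
    rsc_hol (he x) (he y) _ _ _ _ _ _
  have hμE : ∀ x, (μ.restrict (E x).source).map (E x) =
      (volume.restrict (E x).target).withDensity fun z =>
        ENNReal.ofReal (|r x| ^ (2 * n) * f x (c x + r x • z)) := fun x =>
    rsc_measure (e x) _ _ _ (hf x).continuousOn (hf0 x) (hfμ x)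
  have haff : ∀ x, MapsTo (fun z : V n => c x + r x • z) (E x).target (img (e x) (θ.U (i x))) := by
    intro x z hz
    rw [hEt] at hz
    exact hz
  have hO : ∀ x, {y | y ∈ (E x).source ∧ ‖E x y‖ < 1} ∈ 𝓝 x := by
    intro x
    have h1 : IsOpen ((E x).source ∩ (E x) ⁻¹' Metric.ball 0 1) :=
      (E x).isOpen_inter_preimage Metric.isOpen_ball
    have h2 : {y | y ∈ (E x).source ∧ ‖E x y‖ < 1} =
        (E x).source ∩ (E x) ⁻¹' Metric.ball 0 1 := by
      ext y
      simp [Metric.mem_ball, dist_zero_right]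
    rw [h2]
    refine h1.mem_nhds ⟨?_, ?_⟩
    · rw [hEs]
      exact ⟨hxs x, hxU x⟩
    · rw [mem_preimage, hEa, hc, sub_self, smul_zero]
      exact Metric.mem_ball_self one_pos
  obtain ⟨t, ht⟩ := CompactSpace.elim_nhds_subcover _ hO
  set p : Fin t.card → X := fun k => (t.equivFin.symm k).1 with hp
  set F : X → V n → ℝ := fun x z => |r x| ^ (2 * n) * f x (c x + r x • z) / cn n with hF
  have hFc : ∀ x z, cn n * F x z = |r x| ^ (2 * n) * f x (c x + r x • z) := by
    intro x z
    rw [hF]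
    exact mul_div_cancel₀ _ cn_pos53.ne'
  have hF0 : ∀ x, ∀ z ∈ (E x).target, 0 < F x z := by
    intro x z hz
    have h1 : 0 < f x (c x + r x • z) := hf0 x _ (haff x hz).1
    have h2 : 0 < |r x| := abs_pos.2 (hr x).ne'
    exact div_pos (mul_pos (pow_pos h2 _) h1) cn_pos53
  have hFs : ∀ x, ContDiffOn ℝ (⊤ : ℕ∞) (F x) (E x).target := by
    intro x
    refine ContDiffOn.div_const (contDiffOn_const.mul ?_) _
    exact (hf x).comp (aff_real53 (c x) (r x)).contDiffOn (fun z hz => (haff x hz).1)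
  have hμF : ∀ x, (μ.restrict (E x).source).map (E x) =
      (volume.restrict (E x).target).withDensity fun z => ENNReal.ofReal (cn n * F x z) := by
    intro x
    rw [hμE x]
    simp only [hFc]
  have hFcompat : ∀ x y, ∀ z ∈ ((E x).symm.trans (E y)).source,
      F x z = ‖(fderiv ℂ (fun y' => E y ((E x).symm y')) z).det‖ ^ 2 * F y (E y ((E x).symm z)) := by
    intro x y z hz
    have h1 := density_compat (f := fun z => cn n * F x z) (f' := fun z => cn n * F y z)
      (hholE x y) (hholE y x)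
      (continuousOn_const.mul (hFs x).continuousOn) (continuousOn_const.mul (hFs y).continuousOn)
      (fun z hz => mul_pos cn_pos53 (hF0 x z hz)) (fun z hz => mul_pos cn_pos53 (hF0 y z hz))
      (hμF x) (hμF y) z hz
    have h2 : cn n * F x z = cn n *
        (‖(fderiv ℂ (fun y' => E y ((E x).symm y')) z).det‖ ^ 2 * F y (E y ((E x).symm z))) := by
      rw [h1]
      ring
    exact mul_left_cancel₀ cn_pos53.ne' h2
  have hgs : ∀ x, ContDiffOn ℝ (⊤ : ℕ∞) (fun z => θ.g (i x) ((E x).symm z)) (E x).target := by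
    intro x
    simp only [hEsy]
    exact (θ.smooth (i x) (e x) (he x)).comp (aff_real53 (c x) (r x)).contDiffOn (haff x)
  have hgc : ∀ x y, ∀ z ∈ ((E x).symm.trans (E y)).source, ∀ w : V n,
      lev (fun y' => θ.g (i y) ((E y).symm (E y ((E x).symm y'))) -
        θ.g (i x) ((E x).symm y')) z w = 0 := by
    intro x y z hz w
    have hopen : IsOpen ((E x).symm.trans (E y)).source := ((E x).symm.trans (E y)).open_source
    have hmemy : ∀ z' ∈ ((E x).symm.trans (E y)).source, z' ∈ (E x).target ∧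
        (E x).symm z' ∈ (E y).source := by
      intro z' hz'
      rw [OpenPartialHomeomorph.trans_source] at hz'
      exact ⟨hz'.1, hz'.2⟩
    have h1 : (fun y' => θ.g (i y) ((E y).symm (E y ((E x).symm y'))) -
        θ.g (i x) ((E x).symm y')) =ᶠ[𝓝 z] fun y' =>
        (fun q => θ.g (i y) ((e x).symm q) - θ.g (i x) ((e x).symm q)) (c x + r x • y') := by
      filter_upwards [hopen.mem_nhds hz] with z' hz'
      rw [(E y).left_inv (hmemy z' hz').2, hEsy]
    rw [lev_congr h1]
    obtain ⟨hz1, hz2⟩ := hmemy z hz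
    have hzi : c x + r x • z ∈ img (e x) (θ.U (i x)) := haff x hz1
    rw [hEs, hEsy] at hz2
    have hzy : c x + r x • z ∈ img (e x) (θ.U (i y)) := ⟨hzi.1, hz2.2⟩
    have s1 : ContDiffAt ℝ 2 (fun q => θ.g (i y) ((e x).symm q)) (c x + r x • z) :=
      (((θ.smooth (i y) (e x) (he x)).contDiffAt
        ((img_open53 (e x) (θ.isOpen (i y))).mem_nhds hzy))).of_le (WithTop.coe_le_coe.2 (le_top (a := (2 : ℕ∞))))
    have s2 : ContDiffAt ℝ 2 (fun q => θ.g (i x) ((e x).symm q)) (c x + r x • z) :=
      (((θ.smooth (i x) (e x) (he x)).contDiffAt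
        ((img_open53 (e x) (θ.isOpen (i x))).mem_nhds hzi))).of_le (WithTop.coe_le_coe.2 (le_top (a := (2 : ℕ∞))))
    rw [lev_comp_holo (κ := fun y' : V n => c x + r x • y') (aff_diff53 (c x) (r x) z w).1
      (s1.sub s2) w, (aff_diff53 (c x) (r x) z w).2]
    exact θ.compat (i y) (i x) (e x) (he x) (c x + r x • z) ⟨hzi.1, hz2.2, hzi.2⟩ _
  refine ⟨t.card,
    { e := fun k => E (p k)
      ball := fun k z hz => ?_
      cover := fun x => ?_
      hol := fun k l => hholE (p k) (p l)
      g := fun k z => θ.g (i (p k)) ((E (p k)).symm z)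
      g_smooth := fun k => hgs (p k)
      g_compat := fun k l => hgc (p k) (p l)
      f := fun k => F (p k)
      f_smooth := fun k => hFs (p k)
      f_pos := fun k => hF0 (p k)
      f_compat := fun k l => hFcompat (p k) (p l)
      μ := μ
      μ_eq := fun k => hμF (p k) }, rfl, ⟨fun k => ?_⟩⟩
  · rw [hEt]
    refine hball (p k) ?_
    rw [Metric.mem_closedBall, dist_zero_right] at hz
    rw [Metric.mem_closedBall, dist_eq_norm, add_sub_cancel_left, norm_smul,
      Real.norm_of_nonneg (hr (p k)).le]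
    nlinarith [hr (p k)]
  · have h1 : x ∈ ⋃ y ∈ t, {z | z ∈ (E y).source ∧ ‖E y z‖ < 1} := by
      rw [ht]
      exact mem_univ x
    rw [mem_iUnion₂] at h1
    obtain ⟨y, hy, hxy⟩ := h1
    refine ⟨t.equivFin ⟨y, hy⟩, ?_⟩
    have h2 : p (t.equivFin ⟨y, hy⟩) = y := by
      rw [hp]
      simp
    rw [h2]
    exact hxy
  · refine ⟨e (p k), he (p k), i (p k), c (p k), r (p k), hr (p k), ?_, ?_, ?_⟩
    · exact (hEs (p k)).subset
    · intro x _
      show e (p k) x = c (p k) + r (p k) • E (p k) x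
      rw [hEa, smul_smul, mul_inv_cancel₀ (hr (p k)).ne', one_smul, add_sub_cancel]
    · intro z _
      rfl

end Pool.Agent.Helper29.AM
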