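import Pool.Agent.Helper29.AM.CV1c
import Pool.Agent.Helper29.AM.GS4
import Pool.Agent.Helper29.AM.Lev
import Pool.Agent.Helper32.Hol

/-!
# Block AM-CV2: adapted atlas versus charts of the manifold

`(A.e k)` is an affine rescaling of the restriction of a chart `e₀ ∈ atlas`; transition maps between charts
of the manifold are holomorphic (`atlas_hol` in CV1b), so the transition maps between `A.e k` and every
chart `e ∈ atlas` are holomorphic in both directions. Smoothness of a function in one system of charts is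
equivalent to smoothness in the other (locally, by composition with the smooth transition map;
holomorphic maps are smooth: `Pool/Agent/Helper32/Hol.lean`, `contDiffOn_hol_real`).
`lev_sub`: in the chart `e₀` this is `θ.compat`; then compose with the affine map (`lev_comp_holo`).
-/

set_option autoImplicit false

namespace Pool.Agent.Helper29.AM

open MeasureTheory Set Filter Topology
open scoped Manifold ContDiff ENNReal

variable {n N : ℕ} {X : Type} [TopologicalSpace X] [ChartedSpace (V n) X] [MeasurableSpace X]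
  {θ : Form n X} {A : Atl X n N}

theorem isOpen_img (e : OpenPartialHomeomorph X (V n)) {U : Set X} (hU : IsOpen U) :
    IsOpen (img e U) :=
  e.isOpen_inter_preimage_symm hU

private theorem tgt75 (e e' : OpenPartialHomeomorph X (V n)) :
    (e.symm.trans e').target = (e'.symm.trans e).source := rfl

private theorem bih75 {e e' : OpenPartialHomeomorph X (V n)}
    (h : DifferentiableOn ℂ (fun z => e' (e.symm z)) (e.symm.trans e').source)
    (h' : DifferentiableOn ℂ (fun z => e (e'.symm z)) (e'.symm.trans e).source) :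
    Bih (e.symm.trans e').source (e.symm.trans e').target
      (fun z => e' (e.symm z)) (fun z => e (e'.symm z)) where
  open1 := (e.symm.trans e').open_source
  open2 := (e.symm.trans e').open_target
  hol := h
  hol' := h'
  maps := (e.symm.trans e').mapsTo
  maps' := (e.symm.trans e').symm.mapsTo
  left := fun _ hz => (e.symm.trans e').left_inv hz
  right := fun _ hz => (e.symm.trans e').right_inv hz

variable [IsManifold 𝓘(ℂ, V n) ω X]

/-- transition maps between two charts of the manifold -/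
theorem bih_atlas {e e' : OpenPartialHomeomorph X (V n)} (he : e ∈ atlas (V n) X)
    (he' : e' ∈ atlas (V n) X) : Bih (e.symm.trans e').source (e.symm.trans e').target
      (fun z => e' (e.symm z)) (fun z => e (e'.symm z)) :=
  bih75 (atlas_hol he he') (atlas_hol he' he)

theorem Adapted.bih (hA : Adapted θ A) (k : Fin N) {e : OpenPartialHomeomorph X (V n)}
    (he : e ∈ atlas (V n) X) : Bih ((A.e k).symm.trans e).source ((A.e k).symm.trans e).target
      (fun z => e ((A.e k).symm z)) (fun z => A.e k (e.symm z)) := by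
  obtain ⟨e0, he0, i, c, r, hr, hs, hx, -⟩ := hA.chart k
  refine bih75 ?_ ?_
  · have h1 : ∀ z ∈ ((A.e k).symm.trans e).source, c + r • z ∈ (e0.symm.trans e).source ∧
        e ((A.e k).symm z) = e (e0.symm (c + r • z)) := by
      intro z hz
      have hz1 : z ∈ (A.e k).target := hz.1
      have hz2 : (A.e k).symm z ∈ e.source := hz.2
      have hxs : (A.e k).symm z ∈ (A.e k).source := (A.e k).map_target hz1
      have h2 := hx _ hxs
      rw [(A.e k).right_inv hz1] at h2
      have h3 : e0.symm (c + r • z) = (A.e k).symm z := by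
        rw [← h2, e0.left_inv (hs hxs).1]
      refine ⟨⟨?_, ?_⟩, by rw [h3]⟩
      · rw [← h2]
        exact e0.map_source (hs hxs).1
      · show e0.symm (c + r • z) ∈ e.source
        rw [h3]
        exact hz2
    refine DifferentiableOn.congr ?_ fun z hz => (h1 z hz).2
    have h4 : DifferentiableOn ℂ (fun z : V n => c + r • z) ((A.e k).symm.trans e).source := by
      have h5 : (fun z : V n => c + r • z) = fun z => c + (r : ℂ) • z := by
        funext z
        rw [Complex.coe_smul]
      rw [h5]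
      exact ((differentiable_id.const_smul (r : ℂ)).const_add c).differentiableOn
    exact (atlas_hol he0 he).comp h4 fun z hz => (h1 z hz).1
  · have h1 : ∀ y ∈ (e.symm.trans (A.e k)).source, y ∈ (e.symm.trans e0).source ∧
        A.e k (e.symm y) = r⁻¹ • (e0 (e.symm y) - c) := by
      intro y hy
      have hy1 : y ∈ e.target := hy.1
      have hy2 : e.symm y ∈ (A.e k).source := hy.2
      refine ⟨⟨hy1, (hs hy2).1⟩, ?_⟩
      rw [hx _ hy2, add_sub_cancel_left, smul_smul, inv_mul_cancel₀ hr.ne', one_smul]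
    refine DifferentiableOn.congr ?_ fun y hy => (h1 y hy).2
    have h5 : (fun y : V n => r⁻¹ • (e0 (e.symm y) - c)) =
        fun y => ((r⁻¹ : ℝ) : ℂ) • (e0 (e.symm y) - c) := by
      funext z
      rw [Complex.coe_smul]
    rw [h5]
    exact (((atlas_hol he he0).mono fun y hy => (h1 y hy).1).sub_const c).const_smul ((r⁻¹ : ℝ) : ℂ)

private theorem aff75 (c : V n) (r : ℝ) : ContDiff ℝ (⊤ : ℕ∞) fun z : V n => c + r • z := by
  fun_prop

private theorem chart75 {e0 ek : OpenPartialHomeomorph X (V n)} {S : Set X} {c : V n} {r : ℝ}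
    (hs : ek.source ⊆ e0.source ∩ S) (hx : ∀ x ∈ ek.source, e0 x = c + r • ek x) {z : V n}
    (hz : z ∈ ek.target) : c + r • z ∈ e0.target ∧ e0.symm (c + r • z) = ek.symm z ∧
      ek.symm z ∈ S := by
  have hxs : ek.symm z ∈ ek.source := ek.map_target hz
  have h2 := hx _ hxs
  rw [ek.right_inv hz] at h2
  refine ⟨?_, ?_, (hs hxs).2⟩
  · rw [← h2]
    exact e0.map_source (hs hxs).1
  · rw [← h2, e0.left_inv (hs hxs).1]

theorem Adapted.contDiffOn (hA : Adapted θ A) {U : Set X} (hU : IsOpen U) {f : X → ℝ}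
    (hf : SmoothFn n U f) (k : Fin N) :
    ContDiffOn ℝ (⊤ : ℕ∞) (fun z => f ((A.e k).symm z)) (img (A.e k) U) := by
  obtain ⟨e0, he0, i, c, r, hr, hs, hx, -⟩ := hA.chart k
  have h1 := hf e0 he0
  have h2 : ContDiffOn ℝ (⊤ : ℕ∞) (fun z => f (e0.symm (c + r • z))) (img (A.e k) U) := by
    refine h1.comp (aff75 c r).contDiffOn fun z hz => ?_
    obtain ⟨h3, h4, -⟩ := chart75 hs hx hz.1
    refine ⟨h3, ?_⟩
    show e0.symm (c + r • z) ∈ U
    rw [h4]
    exact hz.2
  refine h2.congr fun z hz => ?_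
  rw [(chart75 hs hx hz.1).2.1]

theorem Adapted.smoothFn (hA : Adapted θ A) {D : Set X} (hD : IsOpen D) {f : X → ℝ}
    (hf : A.SmoothOn D f) : SmoothFn n D f := by
  intro e he y hy
  obtain ⟨i, hi, -⟩ := A.cover (e.symm y)
  have hb := hA.bih i he
  have hyt : y ∈ ((A.e i).symm.trans e).target := ⟨hy.1, hi⟩
  have h1 : ContDiffAt ℝ (⊤ : ℕ∞) (fun z => A.e i (e.symm z)) y :=
    (Pool.Agent.Helper32.contDiffOn_hol_real hb.open2 hb.hol').contDiffAt (hb.open2.mem_nhds hyt)
  have h2 : ContDiffAt ℝ (⊤ : ℕ∞) (A.lc i f) (A.e i (e.symm y)) := by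
    refine (hf i).contDiffAt (((A.e i).isOpen_inter_preimage_symm hD).mem_nhds ⟨?_, ?_⟩)
    · exact (A.e i).map_source hi
    · show (A.e i).symm (A.e i (e.symm y)) ∈ D
      rw [(A.e i).left_inv hi]
      exact hy.2
  have h3 : ContDiffAt ℝ (⊤ : ℕ∞) (fun z => A.lc i f (A.e i (e.symm z))) y :=
    ContDiffAt.comp (g := A.lc i f) y h2 h1
  refine (h3.congr_of_eventuallyEq ?_).contDiffWithinAt
  filter_upwards [hb.open2.mem_nhds hyt] with z hz
  show f (e.symm z) = f ((A.e i).symm (A.e i (e.symm z)))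
  rw [(A.e i).left_inv hz.2]

theorem Adapted.lev_sub (hA : Adapted θ A) (k : Fin N) (i : θ.ι) :
    ∀ z ∈ img (A.e k) (θ.U i), ∀ w : V n,
      lev (fun y => A.g k y - θ.g i ((A.e k).symm y)) z w = 0 := by
  intro z hz w
  obtain ⟨e0, he0, i0, c, r, hr, hs, hx, hg⟩ := hA.chart k
  have hcong : (fun y => A.g k y - θ.g i ((A.e k).symm y)) =ᶠ[𝓝 z]
      fun y => (fun y' => θ.g i0 (e0.symm y') - θ.g i (e0.symm y')) ((fun y => c + (r : ℂ) • y) y) := by
    filter_upwards [(A.e k).open_target.mem_nhds hz.1] with y hy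
    have h1 := (chart75 hs hx hy).2.1
    simp only [Complex.coe_smul]
    rw [h1, hg y hy]
  have hz' : c + (r : ℂ) • z ∈ img e0 (θ.U i0 ∩ θ.U i) := by
    obtain ⟨h3, h4, h5⟩ := chart75 hs hx hz.1
    rw [Complex.coe_smul]
    refine ⟨h3, ?_⟩
    show e0.symm (c + r • z) ∈ θ.U i0 ∩ θ.U i
    rw [h4]
    exact ⟨h5, hz.2⟩
  have hop := isOpen_img e0 ((θ.isOpen i0).inter (θ.isOpen i))
  have hsm : ContDiffAt ℝ 2 (fun y' => θ.g i0 (e0.symm y') - θ.g i (e0.symm y')) (c + (r : ℂ) • z) := by
    have h6 : ContDiffOn ℝ (⊤ : ℕ∞) (fun y' => θ.g i0 (e0.symm y') - θ.g i (e0.symm y'))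
        (img e0 (θ.U i0 ∩ θ.U i)) :=
      ((θ.smooth i0 e0 he0).mono fun y hy => ⟨hy.1, hy.2.1⟩).sub
        ((θ.smooth i e0 he0).mono fun y hy => ⟨hy.1, hy.2.2⟩)
    have h7 := h6.contDiffAt (hop.mem_nhds hz')
    exact_mod_cast contDiffAt_infty.1 h7 2
  have haff : ContDiffAt ℂ 2 (fun y : V n => c + (r : ℂ) • y) z := by
    fun_prop
  rw [lev_congr hcong w, lev_comp_holo haff hsm w]
  exact θ.compat i0 i e0 he0 _ hz' _

/-- smoothness near every point suffices -/
theorem SmoothFn.of_local {U : Set X} {f : X → ℝ}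
    (h : ∀ x ∈ U, ∃ W : Set X, IsOpen W ∧ x ∈ W ∧ SmoothFn n W f) : SmoothFn n U f := by
  intro e he y hy
  obtain ⟨W, hW, hyW, hf⟩ := h _ hy.2
  exact ((hf e he).contDiffAt ((isOpen_img e hW).mem_nhds ⟨hy.1, hyW⟩)).contDiffWithinAt

theorem SmoothFn.continuousOn {U : Set X} (hU : IsOpen U) {f : X → ℝ} (h : SmoothFn n U f) :
    ContinuousOn f U := by
  intro x hx
  refine ContinuousAt.continuousWithinAt ?_
  have hxs : x ∈ (chartAt (V n) x).source := mem_chart_source (V n) x
  have h1 : ContinuousAt (fun z => f ((chartAt (V n) x).symm z)) (chartAt (V n) x x) := by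
    refine (h _ (chart_mem_atlas (V n) x)).continuousOn.continuousAt
      ((isOpen_img _ hU).mem_nhds ⟨(chartAt (V n) x).map_source hxs, ?_⟩)
    show (chartAt (V n) x).symm (chartAt (V n) x x) ∈ U
    rw [(chartAt (V n) x).left_inv hxs]
    exact hx
  have h2 : ContinuousAt (chartAt (V n) x) x := (chartAt (V n) x).continuousAt hxs
  have h3 : ContinuousAt (fun y => f ((chartAt (V n) x).symm (chartAt (V n) x y))) x :=
    ContinuousAt.comp (g := fun z => f ((chartAt (V n) x).symm z)) h1 h2
  refine h3.congr ?_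
  filter_upwards [(chartAt (V n) x).open_source.mem_nhds hxs] with y hy
  rw [(chartAt (V n) x).left_inv hy]

end Pool.Agent.Helper29.AM
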