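import Pool.Agent.Helper29.AM.GS2
import Pool.Agent.Helper29.AM.LA2

/-!
# Block AM-G5: functions with bounded complex Hessian (2.9), (2.10)

(2.9) `∫ u (Φ_η(·,r) - η) = ∫ (Φ_u(·,r) - u) η ≤ C r² ∫η` for small `r = r_k`; and
`(Φ_η(·,r) - η)/r² → a Δη` uniformly (`a = aa n`; Taylor or `hasDerivAt_Phi`).
(2.10) `h_jk(η) := ∫ u η_{j k̄}`. For `u_ε = Φ_u(·,ε)` (smooth psh) `tr hess u_ε ≤ C` on compact subsets of
`W` (test with the kernel), so `‖hess u_ε‖ ≤ C` entrywise (`norm_entry_le`), and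
`|∫ u η_{jk}| = lim |∫ (u_ε)_{jk} η| ≤ C ∫ |η|`. Riesz representation in `L²(K)` gives measurable
`H_jk` with `∫ u η_{jk} = ∫ H_jk η`; `(u_ε)_{jk} = ∫ ρ H_jk`, so by Lebesgue differentiation
`H_jk = lim (u_ε)_{jk}` a.e.: choose the representative defined by this limit where it exists and is
positive semidefinite, `0` elsewhere (measurable).
`BH.hess_mollify`: test the weak identity with the kernel.
-/

set_option autoImplicit false

namespace Pool.Agent.Helper29.AM

open MeasureTheory Set Filter Topology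
open scoped ComplexOrder

variable {n : ℕ} {Ω W : Set (V n)} {F G u v : V n → ℝ} {H : V n → Mat n}

/-- the points `z` whose ellipsoid `z + A (closed ball)` is in `Ω` -/
private def el67 (A : Lin n) (Ω : Set (V n)) : Set (V n) :=
  {z | ∀ η : V n, ‖η‖ ≤ 1 → z + A η ∈ Ω}

private theorem isOpen_el67 (A : Lin n) (hΩ : IsOpen Ω) : IsOpen (el67 A Ω) := by
  have h1 := isOpen_ell A hΩ
  have h2 : el67 A Ω = (fun z : V n => (z, (1 : ℝ))) ⁻¹' {p : V n × ℝ | ∀ η : V n, ‖η‖ ≤ 1 →
      p.1 + ((p.2 : ℂ) • A) η ∈ Ω} := by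
    ext z
    simp only [el67, Set.mem_ofPred_eq, Set.mem_preimage, Complex.ofReal_one, one_smul]
  rw [h2]
  exact h1.preimage (by fun_prop)

private theorem el67_sub (A : Lin n) : el67 A Ω ⊆ Ω := by
  intro z hz
  have := hz 0 (by simp)
  simpa using this

private theorem c2_67 {η : V n → ℝ} (h : ContDiff ℝ (⊤ : ℕ∞) η) : ContDiff ℝ 2 η := by
  exact_mod_cast contDiff_infty.1 h 2

/-- products with continuous functions of compact support -/
private theorem int67 {f φ : V n → ℂ} (hf : LocallyIntegrableOn f Ω volume)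
    (hφ : Continuous φ) (hc : HasCompactSupport φ) (hs : tsupport φ ⊆ Ω) :
    Integrable (fun z => f z * φ z) := by
  have hK : IsCompact (tsupport φ) := hc
  have h1 : IntegrableOn f (tsupport φ) := hf.integrableOn_compact_subset hs hK
  have h2 : IntegrableOn (fun z => f z * φ z) (tsupport φ) :=
    h1.mul_continuousOn hφ.continuousOn hK
  refine (integrableOn_iff_integrable_of_support_subset ?_).1 h2
  intro z hz
  apply subset_tsupport φ
  intro h0
  exact hz (by simp [h0])

private theorem intr67 {f φ : V n → ℝ} (hf : LocallyIntegrableOn f Ω volume)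
    (hφ : Continuous φ) (hc : HasCompactSupport φ) (hs : tsupport φ ⊆ Ω) :
    Integrable (fun z => f z * φ z) := by
  have hK : IsCompact (tsupport φ) := hc
  have h1 : IntegrableOn f (tsupport φ) := hf.integrableOn_compact_subset hs hK
  have h2 : IntegrableOn (fun z => f z * φ z) (tsupport φ) :=
    h1.mul_continuousOn hφ.continuousOn hK
  refine (integrableOn_iff_integrable_of_support_subset ?_).1 h2
  intro z hz
  apply subset_tsupport φ
  intro h0
  exact hz (by simp [h0])

private theorem ofReal67 (hu : LocallyIntegrableOn u Ω volume) :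
    LocallyIntegrableOn (fun z => (u z : ℂ)) Ω volume := by
  intro x hx
  obtain ⟨s, hs, h⟩ := hu x hx
  exact ⟨s, hs, h.ofReal⟩

private theorem re67 {f : V n → ℂ} (hf : LocallyIntegrableOn f Ω volume) :
    LocallyIntegrableOn (fun z => (f z).re) Ω volume := by
  intro x hx
  obtain ⟨s, hs, h⟩ := hf x hx
  exact ⟨s, hs, h.re⟩

private theorem im67 {f : V n → ℂ} (hf : LocallyIntegrableOn f Ω volume) :
    LocallyIntegrableOn (fun z => (f z).im) Ω volume := by
  intro x hx
  obtain ⟨s, hs, h⟩ := hf x hx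
  exact ⟨s, hs, h.im⟩

/-- vanishing outside a neighbourhood: values of the Hessian -/
private theorem hess_zero67 {η : V n → ℝ} {z : V n} (hz : z ∉ tsupport η) : hess η z = 0 := by
  have h : η =ᶠ[𝓝 z] fun _ => (0 : ℝ) := notMem_tsupport_iff_eventuallyEq.1 hz
  rw [hess_congr h]
  have := hess_const_mul (n := n) (z := z) (u := fun _ => (0 : ℝ)) 0 contDiffAt_const
  simpa using this

private theorem hess_cont67 {η : V n → ℝ} (h : ContDiff ℝ (⊤ : ℕ∞) η) (j k : Fin n) :
    Continuous fun z => hess η z j k :=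
  continuousOn_univ.1 (continuousOn_hess isOpen_univ (c2_67 h).contDiffOn j k)

private theorem hess_supp67 (η : V n → ℝ) (j k : Fin n) :
    tsupport (fun z => hess η z j k) ⊆ tsupport η := by
  apply closure_minimal _ (isClosed_tsupport η)
  intro z hz
  by_contra hc
  apply hz
  change hess η z j k = 0
  rw [hess_zero67 hc]
  rfl

private theorem hess_cpt67 {η : V n → ℝ} (h : HasCompactSupport η) (j k : Fin n) :
    HasCompactSupport (fun z => hess η z j k) :=
  h.mono' ((subset_tsupport _).trans (hess_supp67 η j k))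

/-- complex valued means -/
private noncomputable def Mc67 (A : Lin n) (f : V n → ℂ) (z : V n) : ℂ :=
  ∫ ξ : V n, (rho ξ : ℂ) * f (z + A ξ)

private theorem Mc_ofReal67 (A : Lin n) (z : V n) : Mc67 A (fun z => (u z : ℂ)) z = (M A u z : ℂ) := by
  unfold Mc67 M
  rw [← integral_complex_ofReal]
  refine integral_congr_ae (Eventually.of_forall fun ξ => ?_)
  simp

private theorem Mc_neg67 (A : Lin n) (f : V n → ℂ) (z : V n) :
    Mc67 A f z = ∫ ξ : V n, (rho ξ : ℂ) * f (z - A ξ) := by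
  unfold Mc67
  rw [← integral_neg_eq_self]
  refine integral_congr_ae (Eventually.of_forall fun ξ => ?_)
  simp only [map_neg, sub_eq_add_neg]
  rw [rho_congr (norm_neg ξ)]

/-- duality for integrable functions -/
private theorem dual0_67 (A : Lin n) {f φ : V n → ℂ} (hf : Integrable f)
    (hφ : Continuous φ) (hc : HasCompactSupport φ) :
    ∫ z, f z * Mc67 A φ z = ∫ z, Mc67 A f z * φ z := by
  obtain ⟨B, hB⟩ := hφ.bounded_above_of_compact_support hc
  have hr : Integrable (fun ξ : V n => (rho ξ : ℂ)) := rho_integrable.ofReal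
  have h1 : Integrable (fun p : V n × V n => (rho p.1 : ℂ) * f p.2) (volume.prod volume) :=
    hr.mul_prod hf
  have h2 : Integrable (fun p : V n × V n => ((rho p.1 : ℂ) * f p.2) * φ (p.2 - A p.1))
      (volume.prod volume) := by
    refine h1.mul_bdd (c := B) ?_ (Eventually.of_forall fun p => hB _)
    exact (hφ.comp (by fun_prop)).aestronglyMeasurable
  have e1 : ∫ z, f z * Mc67 A φ z = ∫ z, ∫ ξ, ((rho ξ : ℂ) * f z) * φ (z - A ξ) := by
    refine integral_congr_ae (Eventually.of_forall fun z => ?_)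
    simp only
    rw [Mc_neg67, ← integral_const_mul]
    refine integral_congr_ae (Eventually.of_forall fun ξ => ?_)
    simp only
    ring
  have e2 : ∫ z, ∫ ξ, ((rho ξ : ℂ) * f z) * φ (z - A ξ) = ∫ ξ, ∫ z, ((rho ξ : ℂ) * f z) * φ (z - A ξ) :=
    (integral_integral_swap h2).symm
  have e3 : ∀ ξ : V n, ∫ z, ((rho ξ : ℂ) * f z) * φ (z - A ξ) =
      ∫ z, ((rho ξ : ℂ) * f (z + A ξ)) * φ z := by
    intro ξ
    rw [← integral_add_right_eq_self (fun z => ((rho ξ : ℂ) * f z) * φ (z - A ξ)) (A ξ)]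
    refine integral_congr_ae (Eventually.of_forall fun z => ?_)
    simp only [add_sub_cancel_right]
  have h4 : Integrable (fun p : V n × V n => ((rho p.1 : ℂ) * f (p.2 + A p.1)) * φ p.2)
      (volume.prod volume) := by
    have hmp : MeasurePreserving (fun p : V n × V n => (p.1, p.2 + A p.1))
        (volume.prod volume) (volume.prod volume) := by
      refine (MeasurePreserving.id volume).skew_product (g := fun ξ z => z + A ξ) ?_ ?_
      · have hc : Continuous fun p : V n × V n => p.2 + A p.1 := by fun_prop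
        exact hc.measurable
      · exact Eventually.of_forall fun ξ => (measurePreserving_add_right volume (A ξ)).map_eq
    have h5 := (hmp.integrable_comp h2.aestronglyMeasurable).2 h2
    refine h5.congr (Eventually.of_forall fun p => ?_)
    simp only [Function.comp, add_sub_cancel_right]
  rw [e1, e2, integral_congr_ae (Eventually.of_forall e3), integral_integral_swap h4]
  refine integral_congr_ae (Eventually.of_forall fun z => ?_)
  simp only
  rw [Mc67, ← integral_mul_const]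

/-- duality -/
private theorem dual67 {A : Lin n} {f φ : V n → ℂ} (hf : LocallyIntegrableOn f Ω volume)
    (hφ : Continuous φ) (hc : HasCompactSupport φ) (hs : tsupport φ ⊆ el67 A Ω) :
    ∫ z, f z * Mc67 A φ z = ∫ z, Mc67 A f z * φ z := by
  set K : Set (V n) := (fun p : V n × V n => p.1 + A p.2) '' (tsupport φ ×ˢ Metric.closedBall 0 1)
    with hK
  have hKc : IsCompact K :=
    (IsCompact.prod hc (isCompact_closedBall 0 1)).image (by fun_prop)
  have hKΩ : K ⊆ Ω := by
    rintro _ ⟨⟨y, ξ⟩, ⟨hy, hξ⟩, rfl⟩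
    exact hs hy ξ (by simpa using hξ)
  have hfi : Integrable (K.indicator f) :=
    (integrable_indicator_iff hKc.measurableSet).2 (hf.integrableOn_compact_subset hKΩ hKc)
  have h := dual0_67 A hfi hφ hc
  have e1 : ∫ z, f z * Mc67 A φ z = ∫ z, K.indicator f z * Mc67 A φ z := by
    refine integral_congr_ae (Eventually.of_forall fun z => ?_)
    simp only
    by_cases hz : z ∈ K
    · rw [Set.indicator_of_mem hz]
    · have h0 : Mc67 A φ z = 0 := by
        rw [Mc_neg67]
        refine integral_eq_zero_of_ae (Eventually.of_forall fun ξ => ?_)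
        simp only [Pi.zero_apply]
        by_cases hξ : ‖ξ‖ < 1
        · have h1 : z - A ξ ∉ tsupport φ := by
            intro h2
            exact hz ⟨(z - A ξ, ξ), ⟨h2, by simpa using hξ.le⟩, by simp⟩
          rw [image_eq_zero_of_notMem_tsupport h1, mul_zero]
        · rw [rho_eq_zero (not_lt.1 hξ), Complex.ofReal_zero, zero_mul]
      rw [h0, mul_zero, mul_zero]
  have e2 : ∫ z, Mc67 A f z * φ z = ∫ z, Mc67 A (K.indicator f) z * φ z := by
    refine integral_congr_ae (Eventually.of_forall fun z => ?_)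
    simp only
    by_cases hz : z ∈ tsupport φ
    · congr 1
      unfold Mc67
      refine integral_congr_ae (Eventually.of_forall fun ξ => ?_)
      simp only
      by_cases hξ : ‖ξ‖ < 1
      · have hzK : z + A ξ ∈ K := ⟨(z, ξ), ⟨hz, by simpa using hξ.le⟩, rfl⟩
        rw [Set.indicator_of_mem hzK]
      · rw [rho_eq_zero (not_lt.1 hξ), Complex.ofReal_zero, zero_mul, zero_mul]
    · rw [image_eq_zero_of_notMem_tsupport hz, mul_zero, mul_zero]
  rw [e1, e2, h]

/-- a continuous function with nonpositive integrals against test functions is nonpositive -/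
private theorem ptw67 (hW : IsOpen W) {f : V n → ℝ} (hf : ContinuousOn f W)
    (h : ∀ η, Tst W η → ∫ z, f z * η z ≤ 0) : ∀ z ∈ W, f z ≤ 0 := by
  intro z hz
  by_contra hc
  push Not at hc
  have h1 : {y | f z / 2 < f y} ∈ 𝓝 z := by
    have := (hf.continuousAt (hW.mem_nhds hz)).preimage_mem_nhds (Ioi_mem_nhds (half_lt_self hc))
    exact this
  obtain ⟨r, hr, hr2⟩ := Metric.nhds_basis_closedBall.mem_iff.1 (inter_mem h1 (hW.mem_nhds hz))
  let b : ContDiffBump z := ⟨r / 2, r, half_pos hr, half_lt_self hr⟩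
  have hb : Tst W b := ⟨b.contDiff, b.hasCompactSupport, by
    rw [b.tsupport_eq]
    exact fun y hy => (hr2 hy).2, fun y => b.nonneg⟩
  have hint : Integrable (fun y => f y * b y) :=
    intr67 (hf.locallyIntegrableOn hW.measurableSet) hb.smooth.continuous hb.cpt hb.sub
  have h0 : 0 ≤ fun y => f y * b y := by
    intro y
    simp only [Pi.zero_apply]
    by_cases hy : y ∈ Metric.closedBall z r
    · have h2 : f z / 2 < f y := (hr2 hy).1
      exact mul_nonneg (by linarith [half_pos hc]) b.nonneg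
    · have h3 : b y = 0 := b.zero_of_le_dist (le_of_lt (by simpa using hy))
      rw [h3, mul_zero]
  have hpos : 0 < ∫ y, f y * b y := by
    rw [integral_pos_iff_support_of_nonneg h0 hint]
    have h4 : Metric.ball z r ⊆ Function.support fun y => f y * b y := by
      intro y hy
      have h2 : f z / 2 < f y := (hr2 (Metric.ball_subset_closedBall hy)).1
      exact (mul_pos (by linarith [half_pos hc]) (b.pos_of_mem_ball hy)).ne'
    exact lt_of_lt_of_le (Metric.measure_ball_pos volume z hr) (measure_mono h4)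
  exact absurd (h b hb) (not_le.2 hpos)

private theorem eqr67 (hW : IsOpen W) {f g : V n → ℝ} (hf : ContinuousOn f W)
    (hg : ContinuousOn g W) (h : ∀ η, Tst W η → ∫ z, f z * η z = ∫ z, g z * η z) :
    ∀ z ∈ W, f z = g z := by
  have hfl := hf.locallyIntegrableOn (μ := volume) hW.measurableSet
  have hgl := hg.locallyIntegrableOn (μ := volume) hW.measurableSet
  have h1 : ∀ η, Tst W η → ∫ z, (f z - g z) * η z = 0 := by
    intro η hη
    simp only [sub_mul]
    rw [integral_sub (intr67 hfl hη.smooth.continuous hη.cpt hη.sub)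
      (intr67 hgl hη.smooth.continuous hη.cpt hη.sub), h η hη, sub_self]
  have h2 := ptw67 hW (f := fun z => f z - g z) (hf.sub hg) fun η hη => (h1 η hη).le
  have h3 := ptw67 hW (f := fun z => g z - f z) (hg.sub hf) fun η hη => by
    have e : ∫ z, (g z - f z) * η z = -∫ z, (f z - g z) * η z := by
      rw [← integral_neg]
      refine integral_congr_ae (Eventually.of_forall fun z => ?_)
      simp only
      ring
    rw [e, h1 η hη, neg_zero]
  intro z hz
  linarith [h2 z hz, h3 z hz]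

private theorem eqc67 (hW : IsOpen W) {f g : V n → ℂ} (hf : ContinuousOn f W)
    (hg : ContinuousOn g W) (h : ∀ η, Tst W η → ∫ z, f z * (η z : ℂ) = ∫ z, g z * (η z : ℂ)) :
    ∀ z ∈ W, f z = g z := by
  have hfl := hf.locallyIntegrableOn (μ := volume) hW.measurableSet
  have hgl := hg.locallyIntegrableOn (μ := volume) hW.measurableSet
  have hI : ∀ (f : V n → ℂ), LocallyIntegrableOn f W volume → ∀ η, Tst W η →
      Integrable (fun z => f z * (η z : ℂ)) := by
    intro f hf η hη
    refine int67 hf (Complex.continuous_ofReal.comp hη.smooth.continuous) ?_ ?_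
    · exact hη.cpt.comp_left Complex.ofReal_zero
    · exact (closure_mono (Function.support_comp_subset Complex.ofReal_zero η)).trans hη.sub
  have hR : ∀ (f : V n → ℂ), LocallyIntegrableOn f W volume → ∀ η, Tst W η →
      ∫ z, (f z).re * η z = (∫ z, f z * (η z : ℂ)).re := by
    intro f hf η hη
    have := integral_re (hI f hf η hη)
    rw [show (∫ z, f z * (η z : ℂ)).re = RCLike.re (∫ z, f z * (η z : ℂ)) from rfl, ← this]
    refine integral_congr_ae (Eventually.of_forall fun z => ?_)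
    simp
  have hIm : ∀ (f : V n → ℂ), LocallyIntegrableOn f W volume → ∀ η, Tst W η →
      ∫ z, (f z).im * η z = (∫ z, f z * (η z : ℂ)).im := by
    intro f hf η hη
    have := integral_im (hI f hf η hη)
    rw [show (∫ z, f z * (η z : ℂ)).im = RCLike.im (∫ z, f z * (η z : ℂ)) from rfl, ← this]
    refine integral_congr_ae (Eventually.of_forall fun z => ?_)
    simp
  have h1 := eqr67 hW (f := fun z => (f z).re) (g := fun z => (g z).re)
    (Complex.continuous_re.comp_continuousOn hf) (Complex.continuous_re.comp_continuousOn hg)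
    fun η hη => by rw [hR f hfl η hη, hR g hgl η hη, h η hη]
  have h2 := eqr67 hW (f := fun z => (f z).im) (g := fun z => (g z).im)
    (Complex.continuous_im.comp_continuousOn hf) (Complex.continuous_im.comp_continuousOn hg)
    fun η hη => by rw [hIm f hfl η hη, hIm g hgl η hη, h η hη]
  intro z hz
  exact Complex.ext (h1 z hz) (h2 z hz)

/-- means of test functions -/
private theorem tst_M67 {A : Lin n} {η : V n → ℝ} (hη : Tst (el67 A Ω) η) : Tst Ω (M A η) := by
  set K : Set (V n) := (fun p : V n × V n => p.1 + A p.2) '' (tsupport η ×ˢ Metric.closedBall 0 1)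
    with hK
  have hKc : IsCompact K :=
    (IsCompact.prod hη.cpt (isCompact_closedBall 0 1)).image (by fun_prop)
  have hKΩ : K ⊆ Ω := by
    rintro _ ⟨⟨y, ξ⟩, ⟨hy, hξ⟩, rfl⟩
    exact hη.sub hy ξ (by simpa using hξ)
  have hsupp : Function.support (M A η) ⊆ K := by
    intro z hz
    by_contra hzK
    apply hz
    unfold M
    refine integral_eq_zero_of_ae (Eventually.of_forall fun ξ => ?_)
    simp only [Pi.zero_apply]
    by_cases hξ : ‖ξ‖ < 1
    · have h1 : z + A ξ ∉ tsupport η := by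
        intro h2
        exact hzK ⟨(z + A ξ, -ξ), ⟨h2, by simpa using hξ.le⟩, by simp⟩
      rw [image_eq_zero_of_notMem_tsupport h1, mul_zero]
    · rw [rho_eq_zero (not_lt.1 hξ), zero_mul]
  refine ⟨?_, ?_, ?_, ?_⟩
  · have h1 := contDiffOn_M_of_contDiffOn A isOpen_univ (k := ⊤) (contDiffOn_univ.2 hη.smooth)
    have h2 : {z : V n | ∀ ξ : V n, ‖ξ‖ ≤ 1 → z + A ξ ∈ (univ : Set (V n))} = univ :=
      Set.eq_univ_of_forall fun z ξ _ => mem_univ _
    rw [h2] at h1
    exact contDiffOn_univ.1 h1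
  · exact HasCompactSupport.intro hKc fun z hz => by
      by_contra h0
      exact hz (hsupp h0)
  · exact (closure_minimal hsupp hKc.isClosed).trans hKΩ
  · intro z
    exact integral_nonneg fun ξ => mul_nonneg (rho_nonneg ξ) (hη.nonneg _)

private theorem hess_M67 {A : Lin n} {η : V n → ℝ} (hη : ContDiff ℝ (⊤ : ℕ∞) η) (z : V n)
    (j k : Fin n) : hess (M A η) z j k = Mc67 A (fun y => hess η y j k) z := by
  rw [hess_M A isOpen_univ (c2_67 hη).contDiffOn fun ξ _ => mem_univ _]
  rfl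

private theorem cont_M67 {A : Lin n} (hA : A.det ≠ 0) (hΩ : IsOpen Ω)
    (hu : LocallyIntegrableOn u Ω volume) : ContDiffOn ℝ (⊤ : ℕ∞) (M A u) (el67 A Ω) := by
  have h1 := contDiffOn_M hA hΩ hu
  have h2 : ContDiffOn ℝ (⊤ : ℕ∞) (fun z : V n => (z, (1 : ℝ))) (el67 A Ω) := by fun_prop
  have h3 := h1.comp h2 (fun z hz => by
    refine ⟨one_pos, fun ξ hξ => ?_⟩
    simp only [Complex.ofReal_one, one_smul]
    exact hz ξ hξ)
  refine h3.congr fun z _ => ?_
  simp only [Function.comp, Complex.ofReal_one, one_smul]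

private theorem Mc_split67 {A : Lin n} (hA : A.det ≠ 0) (hΩ : IsOpen Ω) {f : V n → ℂ}
    (hf : LocallyIntegrableOn f Ω volume) {z : V n} (hz : z ∈ el67 A Ω) :
    Mc67 A f z = (M A (fun y => (f y).re) z : ℂ) + (M A (fun y => (f y).im) z : ℂ) * Complex.I := by
  rw [← Mc_ofReal67, ← Mc_ofReal67]
  have i1 : Integrable (fun ξ : V n => (rho ξ : ℂ) * ((f (z + A ξ)).re : ℂ)) := by
    refine ((integrable_rho_mul hA hΩ (re67 hf) hz).1.ofReal (𝕜 := ℂ)).congr
      (Eventually.of_forall fun ξ => ?_)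
    simp
  have i2 : Integrable (fun ξ : V n => (rho ξ : ℂ) * ((f (z + A ξ)).im : ℂ)) := by
    refine ((integrable_rho_mul hA hΩ (im67 hf) hz).1.ofReal (𝕜 := ℂ)).congr
      (Eventually.of_forall fun ξ => ?_)
    simp
  calc Mc67 A f z = ∫ ξ : V n, ((rho ξ : ℂ) * ((f (z + A ξ)).re : ℂ) +
        ((rho ξ : ℂ) * ((f (z + A ξ)).im : ℂ)) * Complex.I) := by
        unfold Mc67
        refine integral_congr_ae (Eventually.of_forall fun ξ => ?_)
        simp only
        conv_lhs => rw [← Complex.re_add_im (f (z + A ξ))]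
        ring
    _ = _ := by
        rw [integral_add i1 (i2.mul_const _), integral_mul_const]
        rfl

private theorem cont_Mc67 {A : Lin n} (hA : A.det ≠ 0) (hΩ : IsOpen Ω) {f : V n → ℂ}
    (hf : LocallyIntegrableOn f Ω volume) : ContinuousOn (Mc67 A f) (el67 A Ω) := by
  have h1 := (cont_M67 hA hΩ (re67 hf)).continuousOn
  have h2 := (cont_M67 hA hΩ (im67 hf)).continuousOn
  have h3 : ContinuousOn (fun z => (M A (fun y => (f y).re) z : ℂ) +
      (M A (fun y => (f y).im) z : ℂ) * Complex.I) (el67 A Ω) :=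
    (Complex.continuous_ofReal.comp_continuousOn h1).add
      ((Complex.continuous_ofReal.comp_continuousOn h2).mul continuousOn_const)
  exact h3.congr fun z hz => Mc_split67 hA hΩ hf hz

/-- the weak identity implies the identity for the means -/
private theorem weak67 (hΩ : IsOpen Ω) (hu : LocallyIntegrableOn u Ω volume) {h : V n → ℂ}
    (hh : LocallyIntegrableOn h Ω volume) {j k : Fin n}
    (hw : ∀ η : V n → ℝ, Tst Ω η → ∫ z, (u z : ℂ) * hess η z j k = ∫ z, h z * (η z : ℂ))
    {A : Lin n} (hA : A.det ≠ 0) {z : V n} (hz : z ∈ el67 A Ω) :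
    hess (M A u) z j k = Mc67 A h z := by
  have hU := isOpen_el67 A hΩ
  have hq := cont_M67 hA hΩ hu
  have hq2 : ContDiffOn ℝ 2 (M A u) (el67 A Ω) := by exact_mod_cast contDiffOn_infty.1 hq 2
  refine eqc67 hU (continuousOn_hess hU hq2 j k) (cont_Mc67 hA hΩ hh) (fun η hη => ?_) z hz
  have hT := tst_M67 hη
  have e1 := integral_mul_hess hU hq2 (c2_67 hη.smooth) hη.cpt hη.sub j k
  have hηc : Continuous fun z => (η z : ℂ) := Complex.continuous_ofReal.comp hη.smooth.continuous
  have hηs : HasCompactSupport fun z => (η z : ℂ) := hη.cpt.comp_left Complex.ofReal_zero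
  have hηt : tsupport (fun z => (η z : ℂ)) ⊆ el67 A Ω :=
    (closure_mono (Function.support_comp_subset Complex.ofReal_zero η)).trans hη.sub
  rw [← e1]
  calc ∫ z, (M A u z : ℂ) * hess η z j k
      = ∫ z, Mc67 A (fun y => (u y : ℂ)) z * hess η z j k := by
        refine integral_congr_ae (Eventually.of_forall fun z => ?_)
        simp only
        rw [Mc_ofReal67]
    _ = ∫ z, (u z : ℂ) * Mc67 A (fun y => hess η y j k) z :=
        (dual67 (ofReal67 hu) (hess_cont67 hη.smooth j k) (hess_cpt67 hη.cpt j k)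
          ((hess_supp67 η j k).trans hη.sub)).symm
    _ = ∫ z, (u z : ℂ) * hess (M A η) z j k := by
        refine integral_congr_ae (Eventually.of_forall fun z => ?_)
        simp only
        rw [hess_M67 hη.smooth]
    _ = ∫ z, h z * (M A η z : ℂ) := hw _ hT
    _ = ∫ z, h z * Mc67 A (fun y => (η y : ℂ)) z := by
        refine integral_congr_ae (Eventually.of_forall fun z => ?_)
        simp only
        rw [Mc_ofReal67]
    _ = ∫ z, Mc67 A h z * (η z : ℂ) := dual67 hh hηc hηs hηt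

/-! ### bounded Hessians -/

private theorem locInt67 (hΩ : IsOpen Ω) (h : BH Ω u H) (j k : Fin n) :
    LocallyIntegrableOn (fun z => H z j k) Ω volume := by
  intro x hx
  obtain ⟨r, hr, hrs⟩ := Metric.nhds_basis_closedBall.mem_iff.1 (hΩ.mem_nhds hx)
  obtain ⟨C, hC⟩ := h.bdd _ hrs (isCompact_closedBall x r)
  refine ⟨Metric.closedBall x r, mem_nhdsWithin_of_mem_nhds (Metric.closedBall_mem_nhds x hr), ?_⟩
  refine Measure.integrableOn_of_bounded (M := C) (isCompact_closedBall x r).measure_lt_top.ne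
    (h.meas j k).aestronglyMeasurable ?_
  exact (ae_restrict_iff' Metric.isClosed_closedBall.measurableSet).2
    (Eventually.of_forall fun z hz => hC z hz j k)

theorem BH.mono (h : BH Ω u H) (hW : IsOpen W) (hWΩ : W ⊆ Ω) : BH W u H :=
  ⟨h.int.mono_set hWΩ, h.meas, h.psd, fun K hK hKc => h.bdd K (hK.trans hWΩ) hKc,
    fun η hη => h.weak η ⟨hη.smooth, hη.cpt, hη.sub.trans hWΩ, hη.nonneg⟩⟩

theorem BH.congr (h : BH Ω u H) (hΩ : IsOpen Ω) (hv : ∀ᵐ z, z ∈ Ω → u z = v z) : BH Ω v H := by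
  refine ⟨h.int.congr ((ae_restrict_iff' hΩ.measurableSet).2 hv), h.meas, h.psd, h.bdd,
    fun η hη j k => ?_⟩
  rw [← h.weak η hη j k]
  refine integral_congr_ae ?_
  filter_upwards [hv] with z hz
  by_cases hzΩ : z ∈ Ω
  · rw [hz hzΩ]
  · rw [hess_zero67 fun hc => hzΩ (hη.sub hc)]
    simp

private theorem sA_smul67 (A : Lin n) (c : ℝ) (K : Mat n) : sA A ((c : ℂ) • K) = c * sA A K := by
  unfold sA
  rw [Finset.mul_sum]
  exact Finset.sum_congr rfl fun l _ => lf_smul c K _

private theorem sA_int67 (A : Lin n) {K : V n → Mat n}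
    (hK : ∀ j k, Integrable (fun z => K z j k)) :
    Integrable (fun z => sA A (K z)) ∧ ∫ z, sA A (K z) = sA A (fun j k => ∫ z, K z j k) := by
  have h1 : ∀ l : Fin n, ∀ j k : Fin n, Integrable (fun z => K z j k * (A (e l)) j *
      (starRingEnd ℂ) ((A (e l)) k)) := fun l j k => ((hK j k).mul_const _).mul_const _
  have h2 : ∀ l : Fin n, ∀ j : Fin n, Integrable (fun z => ∑ k, K z j k * (A (e l)) j *
      (starRingEnd ℂ) ((A (e l)) k)) := fun l j => integrable_finsetSum _ fun k _ => h1 l j k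
  have h3 : ∀ l : Fin n, Integrable (fun z => ∑ j, ∑ k, K z j k * (A (e l)) j *
      (starRingEnd ℂ) ((A (e l)) k)) := fun l => integrable_finsetSum _ fun j _ => h2 l j
  have h4 : ∀ l : Fin n, Integrable (fun z => lf (K z) (A (e l))) := fun l => (h3 l).re
  refine ⟨integrable_finsetSum _ fun l _ => h4 l, ?_⟩
  unfold sA
  rw [integral_finsetSum _ fun l _ => h4 l]
  refine Finset.sum_congr rfl fun l _ => ?_
  unfold lf
  have h5 := integral_re (h3 l)
  have h6 : ∫ z, (∑ j, ∑ k, K z j k * (A (e l)) j * (starRingEnd ℂ) ((A (e l)) k)).re =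
      (∫ z, ∑ j, ∑ k, K z j k * (A (e l)) j * (starRingEnd ℂ) ((A (e l)) k)).re := h5
  rw [h6, integral_finsetSum _ fun j _ => h2 l j]
  congr 1
  refine Finset.sum_congr rfl fun j _ => ?_
  rw [integral_finsetSum _ fun k _ => h1 l j k]
  refine Finset.sum_congr rfl fun k _ => ?_
  rw [integral_mul_const, integral_mul_const]

private theorem hη67 {η : V n → ℝ} (hη : Tst Ω η) : Continuous (fun z => (η z : ℂ)) ∧
    HasCompactSupport (fun z => (η z : ℂ)) ∧ tsupport (fun z => (η z : ℂ)) ⊆ Ω :=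
  ⟨Complex.continuous_ofReal.comp hη.smooth.continuous, hη.cpt.comp_left Complex.ofReal_zero,
    (closure_mono (Function.support_comp_subset Complex.ofReal_zero η)).trans hη.sub⟩

private theorem pair67 (hΩ : IsOpen Ω) (h : BH Ω u H) (A : Lin n) {η : V n → ℝ}
    (hη : Tst Ω η) : Integrable (fun z => sA A (H z) * η z) ∧
      ∫ z, u z * DA A η z = ∫ z, sA A (H z) * η z := by
  have h1 : ∀ j k, Integrable (fun z => ((η z : ℂ) • H z) j k) := by
    intro j k
    refine (int67 (locInt67 hΩ h j k) (hη67 hη).1 (hη67 hη).2.1 (hη67 hη).2.2).congr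
      (Eventually.of_forall fun z => ?_)
    simp [mul_comm]
  have h2 : ∀ j k, Integrable (fun z => ((u z : ℂ) • hess η z) j k) := fun j k =>
    int67 (ofReal67 h.int) (hess_cont67 hη.smooth j k) (hess_cpt67 hη.cpt j k)
      ((hess_supp67 η j k).trans hη.sub)
  obtain ⟨i1, e1⟩ := sA_int67 A h1
  obtain ⟨i2, e2⟩ := sA_int67 A h2
  have e3 : ∀ z, sA A ((η z : ℂ) • H z) = sA A (H z) * η z := fun z => by
    rw [sA_smul67, mul_comm]
  have e4 : ∀ z, sA A ((u z : ℂ) • hess η z) = u z * DA A η z := fun z => by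
    rw [sA_smul67, DA_eq_sA (c2_67 hη.smooth).contDiffAt]
  refine ⟨i1.congr (Eventually.of_forall e3), ?_⟩
  rw [← integral_congr_ae (Eventually.of_forall e3), ← integral_congr_ae (Eventually.of_forall e4),
    e1, e2]
  congr 1
  ext j k
  have := h.weak η hη j k
  calc ∫ z, ((u z : ℂ) • hess η z) j k = ∫ z, (u z : ℂ) * hess η z j k := rfl
    _ = ∫ z, H z j k * (η z : ℂ) := this
    _ = _ := by
      refine integral_congr_ae (Eventually.of_forall fun z => ?_)
      simp [mul_comm]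

private theorem lf_nonneg67 {K : Mat n} (hK : K.PosSemidef) (v : V n) : 0 ≤ lf K v :=
  (posSemidef_iff_lf hK.1).1 hK v

theorem BH.pshd (h : BH Ω u H) (hΩ : IsOpen Ω) : PSHd Ω u := by
  refine ⟨h.int, locallyIntegrableOn_const 0, fun _ _ => le_rfl, fun A η hη => ?_⟩
  rw [(pair67 hΩ h A hη).2]
  simp only [zero_mul, integral_zero, mul_zero]
  exact integral_nonneg fun z => mul_nonneg (Finset.sum_nonneg fun l _ => lf_nonneg67 (h.psd z) _)
    (hη.nonneg z)

theorem BH.hess_mollify (hΩ : IsOpen Ω) (h : BH Ω u H) {A : Lin n} (hA : A.det ≠ 0) {z : V n}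
    (hz : ∀ η : V n, ‖η‖ ≤ 1 → z + A η ∈ Ω) : hess (M A u) z = MH A H z := by
  ext j k
  exact weak67 hΩ h.int (locInt67 hΩ h j k) (fun η hη => h.weak η hη j k) hA hz

private theorem det_sc67 {ε : ℝ} (hε : 0 < ε) : (sc ε : Lin n).det ≠ 0 := by
  rw [det_sc]
  exact pow_ne_zero _ (by exact_mod_cast hε.ne')

theorem BH.hess_Phi (hΩ : IsOpen Ω) (h : BH Ω u H) {ε : ℝ} (hε : 0 < ε) {z : V n}
    (hz : z ∈ shr Ω ε) : hess (fun y => Phi u y ε) z = MH (sc ε) H z :=
  BH.hess_mollify hΩ h (det_sc67 hε) ((mem_shr_iff hε.le).1 hz)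

private theorem ev_shr67 (hΩ : IsOpen Ω) {z : V n} (hz : z ∈ Ω) :
    ∀ᶠ ε in 𝓝[>] (0 : ℝ), 0 < ε ∧ z ∈ shr Ω ε := by
  obtain ⟨r, hr, hrs⟩ := Metric.nhds_basis_closedBall.mem_iff.1 (hΩ.mem_nhds hz)
  filter_upwards [Ioo_mem_nhdsGT hr] with ε hε
  exact ⟨hε.1, (Metric.closedBall_subset_closedBall hε.2.le).trans hrs⟩

private theorem ae_Mc67 (hΩ : IsOpen Ω) {f : V n → ℂ} (hf : LocallyIntegrableOn f Ω volume) :
    ∀ᵐ z, z ∈ Ω → Tendsto (fun ε => Mc67 (sc ε) f z) (𝓝[>] 0) (𝓝 (f z)) := by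
  filter_upwards [ae_tendsto_Phi hΩ (re67 hf), ae_tendsto_Phi hΩ (im67 hf)] with z h1 h2 hz
  have h3 := ((Complex.continuous_ofReal.tendsto _).comp (h1 hz)).add
    (((Complex.continuous_ofReal.tendsto _).comp (h2 hz)).mul_const Complex.I)
  rw [Complex.re_add_im] at h3
  refine h3.congr' ?_
  filter_upwards [ev_shr67 hΩ hz] with ε hε
  exact (Mc_split67 (det_sc67 hε.1) hΩ hf ((mem_shr_iff hε.1.le).1 hε.2)).symm

theorem BH.ae_tendsto (hΩ : IsOpen Ω) (h : BH Ω u H) (j k : Fin n) :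
    ∀ᵐ z, z ∈ Ω → Tendsto (fun ε => hess (fun y => Phi u y ε) z j k) (𝓝[>] 0) (𝓝 (H z j k)) := by
  filter_upwards [ae_Mc67 hΩ (locInt67 hΩ h j k)] with z h1 hz
  refine (h1 hz).congr' ?_
  filter_upwards [ev_shr67 hΩ hz] with ε hε
  rw [BH.hess_Phi hΩ h hε.1 hε.2]
  rfl

private theorem lf_tendsto67 {ι : Type*} {l : Filter ι} {K : ι → Mat n} {K' : Mat n}
    (h : ∀ j k, Tendsto (fun i => K i j k) l (𝓝 (K' j k))) (v : V n) :
    Tendsto (fun i => lf (K i) v) l (𝓝 (lf K' v)) := by
  unfold lf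
  refine (Complex.continuous_re.tendsto _).comp ?_
  refine tendsto_finsetSum _ fun j _ => tendsto_finsetSum _ fun k _ => ?_
  exact ((h j k).mul_const _).mul_const _

/-- `u ∈ GS(F)` gives the pointwise inequality for `H` -/
theorem BH.GP_of_GS (hn : 0 < n) (hΩ : IsOpen Ω) (h : BH Ω u H) (hF : GS Ω F u) :
    ∀ᵐ z, z ∈ Ω → GP (lf (H z)) (F z) ∧ F z ^ n ≤ (H z).det.re := by
  have h1 : ∀ᵐ z, ∀ j k, z ∈ Ω →
      Tendsto (fun ε => hess (fun y => Phi u y ε) z j k) (𝓝[>] 0) (𝓝 (H z j k)) :=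
    ae_all_iff.2 fun j => ae_all_iff.2 fun k => BH.ae_tendsto hΩ h j k
  filter_upwards [h1, ae_tendsto_Phi hΩ hF.intF] with z h1 h2 hz
  have hGP : GP (lf (H z)) (F z) := by
    intro A
    have t1 : Tendsto (fun ε => (n : ℝ) * ‖A.det‖ ^ ((2 : ℝ) / n) * Phi F z ε) (𝓝[>] 0)
        (𝓝 ((n : ℝ) * ‖A.det‖ ^ ((2 : ℝ) / n) * F z)) := (h2 hz).const_mul _
    have t2 : Tendsto (fun ε => ∑ l, lf (hess (fun y => Phi u y ε) z) (A (e l))) (𝓝[>] 0)
        (𝓝 (∑ l, lf (H z) (A (e l)))) :=
      tendsto_finsetSum _ fun l _ => lf_tendsto67 (fun j k => h1 j k hz) _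
    refine le_of_tendsto_of_tendsto t1 t2 ?_
    filter_upwards [ev_shr67 hΩ hz] with ε hε
    refine (hF.mollify hΩ hε.1 hε.2 A).trans (le_of_eq ?_)
    refine Finset.sum_congr rfl fun l _ => ?_
    have h3 := (contDiffOn_Phi_left hΩ hF.int hε.1).contDiffAt ((isOpen_shr hΩ ε).mem_nhds hε.2)
    exact lev_eq_lf (by exact_mod_cast contDiffAt_infty.1 h3 2) _
  exact ⟨hGP, (psd_of_GP hn (h.psd z).1 (hF.nonneg z hz) hGP).2⟩

theorem BH.GS_of_GP (hn : 0 < n) (hΩ : IsOpen Ω) (h : BH Ω u H)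
    (hF : LocallyIntegrableOn F Ω volume) (h0 : ∀ z ∈ Ω, 0 ≤ F z)
    (hGP : ∀ᵐ z, z ∈ Ω → F z ^ n ≤ (H z).det.re) : GS Ω F u := by
  refine ⟨h.int, hF, h0, fun A η hη => ?_⟩
  obtain ⟨i1, e1⟩ := pair67 hΩ h A hη
  rw [e1, ← integral_const_mul]
  refine integral_mono_ae ((intr67 hF hη.smooth.continuous hη.cpt hη.sub).const_mul _) i1 ?_
  filter_upwards [hGP] with z hz
  by_cases hzΩ : z ∈ Ω
  · have h1 := GP_of_det hn (h.psd z) (h0 z hzΩ) (hz hzΩ) A
    have h2 := mul_le_mul_of_nonneg_right h1 (hη.nonneg z)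
    calc _ = (n : ℝ) * ‖A.det‖ ^ ((2 : ℝ) / n) * F z * η z := by ring
      _ ≤ _ := h2
  · have h3 : η z = 0 := image_eq_zero_of_notMem_tsupport fun hc => hzΩ (hη.sub hc)
    simp [h3]

private theorem psd_hess67 (hΩ : IsOpen Ω) (hu : SPsh Ω u) {z : V n} (hz : z ∈ Ω) :
    (hess u z).PosSemidef := by
  have h1 : ContDiffAt ℝ 2 u z := by
    exact_mod_cast contDiffAt_infty.1 (hu.smooth.contDiffAt (hΩ.mem_nhds hz)) 2
  refine (posSemidef_iff_lf (hess_isHermitian h1)).2 fun v => ?_
  rw [← lev_eq_lf h1]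
  exact hu.psh z hz v

/-- smooth (or `C²`) psh functions have bounded Hessians -/
theorem BH.of_smooth (hΩ : IsOpen Ω) (hu : SPsh Ω u) :
    ∃ H, BH Ω u H ∧ ∀ z ∈ Ω, H z = hess u z := by
  classical
  have h2 : ContDiffOn ℝ 2 u Ω := by exact_mod_cast contDiffOn_infty.1 hu.smooth 2
  refine ⟨fun z => if z ∈ Ω then hess u z else 0, ⟨?_, ?_, ?_, ?_, ?_⟩, fun z hz => if_pos hz⟩
  · exact hu.smooth.continuousOn.locallyIntegrableOn hΩ.measurableSet
  · intro j k
    have h3 := ContinuousOn.measurable_piecewise (continuousOn_hess hΩ h2 j k)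
      (continuousOn_const (c := (0 : ℂ)) (s := Ωᶜ)) hΩ.measurableSet
    have h4 : (fun z => (if z ∈ Ω then hess u z else 0) j k) =
        Ω.piecewise (fun y => hess u y j k) fun _ => 0 := by
      funext z
      by_cases hz : z ∈ Ω
      · rw [if_pos hz, Set.piecewise_eq_of_mem _ _ _ hz]
      · rw [if_neg hz, Set.piecewise_eq_of_notMem _ _ _ hz]
        rfl
    rw [h4]
    exact h3
  · intro z
    split_ifs with hz
    · exact psd_hess67 hΩ hu hz
    · exact Matrix.PosSemidef.zero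
  · intro K hK hKc
    have h3 : ContinuousOn (fun z => ∑ j, ∑ k, ‖hess u z j k‖) K :=
      continuousOn_finsetSum _ fun j _ => continuousOn_finsetSum _ fun k _ =>
        ((continuousOn_hess hΩ h2 j k).mono hK).norm
    obtain ⟨C, hC⟩ := hKc.exists_bound_of_continuousOn h3
    refine ⟨C, fun z hz j k => ?_⟩
    rw [if_pos (hK hz)]
    refine le_trans ?_ ((le_abs_self _).trans (hC z hz))
    refine le_trans ?_ (Finset.single_le_sum (f := fun j => ∑ k, ‖hess u z j k‖)
      (fun j _ => Finset.sum_nonneg fun k _ => norm_nonneg _) (Finset.mem_univ j))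
    exact Finset.single_le_sum (f := fun k => ‖hess u z j k‖)
      (fun k _ => norm_nonneg _) (Finset.mem_univ k)
  · intro η hη j k
    rw [integral_mul_hess hΩ h2 (c2_67 hη.smooth) hη.cpt hη.sub]
    refine integral_congr_ae (Eventually.of_forall fun z => ?_)
    simp only
    by_cases hz : z ∈ Ω
    · rw [if_pos hz]
    · have h3 : η z = 0 := image_eq_zero_of_notMem_tsupport fun hc => hz (hη.sub hc)
      simp [h3]

/-! ### (2.9) -/

private theorem DA_zero67 {η : V n → ℝ} {z : V n} (hz : z ∉ tsupport η) (A : Lin n) :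
    DA A η z = 0 := by
  have h : η =ᶠ[𝓝 z] fun _ => (0 : ℝ) := notMem_tsupport_iff_eventuallyEq.1 hz
  exact Finset.sum_eq_zero fun l _ => by rw [lev_congr h]; exact lev_const 0 _

private theorem DA_supp67 (η : V n → ℝ) (A : Lin n) : tsupport (DA A η) ⊆ tsupport η := by
  apply closure_minimal _ (isClosed_tsupport η)
  intro z hz
  by_contra hc
  exact hz (DA_zero67 hc A)

private theorem DA_cont67 {Ω : Set (V n)} (hΩ : IsOpen Ω) {η : V n → ℝ}
    (h : ContDiffOn ℝ 2 η Ω) (A : Lin n) : ContinuousOn (DA A η) Ω := by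
  have : DA A η = fun z => ∑ l, lev η z (A (e l)) := rfl
  rw [this]
  exact continuousOn_finsetSum _ fun l _ => continuousOn_lev hΩ h (A (e l))

private theorem int_rho1_67 (T : Lin n) {g : V n → ℝ} (z : V n)
    (hg : ∀ ξ : V n, ‖ξ‖ ≤ 1 → ContinuousAt g (z + T ξ)) :
    Integrable (fun ξ => rho1 ξ * g (z + T ξ)) := by
  have h1 : ContinuousOn (fun ξ : V n => rho1 ξ * g (z + T ξ)) (Metric.closedBall 0 1) := by
    refine rho1_contDiff.continuous.continuousOn.mul ?_
    intro ξ hξ
    have h2 : ContinuousAt (fun ξ : V n => z + T ξ) ξ := by fun_prop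
    exact (ContinuousAt.comp (f := fun ξ : V n => z + T ξ) (g := g)
      (hg ξ (by simpa using hξ)) h2).continuousWithinAt
  have h3 := h1.integrableOn_compact (μ := volume) (isCompact_closedBall (0 : V n) 1)
  refine (integrableOn_iff_integrable_of_support_subset ?_).1 h3
  intro ξ hξ
  by_contra hc
  apply hξ
  have h4 : 1 ≤ ‖ξ‖ := by
    have : ¬ ‖ξ‖ ≤ 1 := by simpa using hc
    linarith [not_le.1 this]
  simp only [rho1_eq_zero h4, zero_mul]

private theorem M1_le67 (T : Lin n) {g : V n → ℝ} (z : V n)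
    (hg : ∀ ξ : V n, ‖ξ‖ ≤ 1 → ContinuousAt g (z + T ξ)) {a ε : ℝ}
    (h : ∀ ξ : V n, ‖ξ‖ ≤ 1 → |g (z + T ξ) - a| ≤ ε) : |M1 T g z - aa n * a| ≤ aa n * ε := by
  have i1 := int_rho1_67 T z hg
  have e1 : M1 T g z - aa n * a = ∫ ξ : V n, rho1 ξ * (g (z + T ξ) - a) := by
    unfold M1 aa
    rw [← integral_mul_const, ← integral_sub i1 (rho1_integrable.mul_const a)]
    refine integral_congr_ae (Eventually.of_forall fun ξ => ?_)
    simp only
    ring
  rw [e1]
  unfold aa
  rw [← integral_mul_const, ← Real.norm_eq_abs]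
  refine norm_integral_le_of_norm_le (rho1_integrable.mul_const ε) (Eventually.of_forall fun ξ => ?_)
  rw [Real.norm_eq_abs, abs_mul, abs_of_nonneg (rho1_nonneg ξ)]
  by_cases hξ : ‖ξ‖ ≤ 1
  · exact mul_le_mul_of_nonneg_left (h ξ hξ) (rho1_nonneg ξ)
  · rw [rho1_eq_zero (not_le.1 hξ).le, zero_mul, zero_mul]

/-- second order expansion of the means of a smooth function of compact support -/
private theorem taylor67 {η : V n → ℝ} (hη : ContDiff ℝ (⊤ : ℕ∞) η) (hc : HasCompactSupport η)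
    {ε : ℝ} (hε : 0 < ε) : ∃ δ > 0, ∀ t, 0 < t → t < δ → ∀ z,
      |Phi η z t - η z - aa n * t ^ 2 * DA 1 η z| ≤ ε * t ^ 2 := by
  have hg : Continuous (DA (1 : Lin n) η) :=
    continuousOn_univ.1 (DA_cont67 isOpen_univ (c2_67 hη).contDiffOn 1)
  have hgc : HasCompactSupport (DA (1 : Lin n) η) :=
    hc.mono' ((subset_tsupport _).trans (DA_supp67 η 1))
  have hu := hgc.uniformContinuous_of_continuous hg
  obtain ⟨δ, hδ, hδ2⟩ := Metric.uniformContinuous_iff.1 hu (ε / 2) (half_pos hε)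
  refine ⟨δ, hδ, fun t ht htδ z => ?_⟩
  set f : ℝ → ℝ := fun s => Phi η z s - aa n * DA 1 η z * s ^ 2 with hf
  have hd : ∀ s ∈ Icc (0 : ℝ) t, HasDerivWithinAt f
      (2 * s * M1 (sc s) (DA 1 η) z - aa n * DA 1 η z * (2 * s)) (Icc 0 t) s := by
    intro s hs
    have h1 := hasDerivAt_Phi (z := z) isOpen_univ (c2_67 hη).contDiffOn hs.1
      (fun y _ => mem_univ y)
    have h2 : HasDerivAt (fun s : ℝ => aa n * DA 1 η z * s ^ 2) (aa n * DA 1 η z * (2 * s)) s := by
      have := ((hasDerivAt_id s).pow 2).const_mul (aa n * DA 1 η z)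
      simpa using this
    exact (h1.sub h2).hasDerivWithinAt
  have hb : ∀ s ∈ Ico (0 : ℝ) t,
      ‖2 * s * M1 (sc s) (DA 1 η) z - aa n * DA 1 η z * (2 * s)‖ ≤ ε * t := by
    intro s hs
    have h1 := M1_le67 (sc s) z (g := DA 1 η) (fun ξ _ => hg.continuousAt) (a := DA 1 η z)
      (ε := ε / 2) (fun ξ hξ => by
        have h2 : dist (z + (sc s : Lin n) ξ) z < δ := by
          rw [sc_apply, dist_eq_norm, add_sub_cancel_left, norm_smul, Complex.norm_real,
            Real.norm_eq_abs, abs_of_nonneg hs.1]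
          calc s * ‖ξ‖ ≤ s * 1 := mul_le_mul_of_nonneg_left hξ hs.1
            _ < δ := by linarith [hs.2]
        have h3 := hδ2 h2
        rw [Real.dist_eq] at h3
        exact h3.le)
    have e1 : 2 * s * M1 (sc s) (DA 1 η) z - aa n * DA 1 η z * (2 * s) =
        2 * s * (M1 (sc s) (DA 1 η) z - aa n * DA 1 η z) := by ring
    rw [e1, Real.norm_eq_abs, abs_mul, abs_of_nonneg (by linarith [hs.1] : (0 : ℝ) ≤ 2 * s)]
    have h4 : aa n * (ε / 2) ≤ ε / 2 := by nlinarith [aa_le_one (n := n)]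
    calc 2 * s * |M1 (sc s) (DA 1 η) z - aa n * DA 1 η z| ≤ 2 * s * (ε / 2) :=
          mul_le_mul_of_nonneg_left (h1.trans h4) (by linarith [hs.1])
      _ = ε * s := by ring
      _ ≤ ε * t := mul_le_mul_of_nonneg_left hs.2.le hε.le
  have h5 := norm_image_sub_le_of_norm_deriv_le_segment' hd hb t (right_mem_Icc.2 ht.le)
  have e2 : f t - f 0 = Phi η z t - η z - aa n * t ^ 2 * DA 1 η z := by
    rw [hf]
    simp only [Phi_zero]
    ring
  rw [e2, Real.norm_eq_abs] at h5
  calc _ ≤ ε * t * (t - 0) := h5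
    _ = ε * t ^ 2 := by ring

/-- (2.9) -/
theorem laplace_le_of_means (hΩ : IsOpen Ω) (hW : IsOpen W) (hWΩ : W ⊆ Ω)
    (hu : LocallyIntegrableOn u Ω volume) {C : ℝ} {r : ℕ → ℝ} (hr : ∀ k, 0 < r k)
    (hr0 : Tendsto r atTop (𝓝 0))
    (h : ∀ k, ∀ᵐ z, z ∈ W → z ∈ shr Ω (r k) → Phi u z (r k) - u z ≤ C * (r k) ^ 2) :
    ∀ η, Tst W η → ∫ z, u z * DA 1 η z ≤ C / aa n * ∫ z, η z := by
  intro η hη
  have haa := aa_pos (n := n)
  obtain ⟨R, hR, hRΩ⟩ := IsCompact.exists_cthickening_subset_open hη.cpt hΩ (hη.sub.trans hWΩ)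
  set K : Set (V n) := Metric.cthickening R (tsupport η) with hK
  have hKc : IsCompact K := IsCompact.cthickening hη.cpt
  have hgc : Continuous (DA (1 : Lin n) η) :=
    continuousOn_univ.1 (DA_cont67 isOpen_univ (c2_67 hη.smooth).contDiffOn 1)
  have hgs : HasCompactSupport (DA (1 : Lin n) η) :=
    hη.cpt.mono' ((subset_tsupport _).trans (DA_supp67 η 1))
  have iug : Integrable (fun z => u z * DA 1 η z) :=
    intr67 hu hgc hgs ((DA_supp67 η 1).trans (hη.sub.trans hWΩ))
  have iuη : Integrable (fun z => u z * η z) :=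
    intr67 hu hη.smooth.continuous hη.cpt (hη.sub.trans hWΩ)
  have iη : Integrable η := hη.smooth.continuous.integrable_of_hasCompactSupport hη.cpt
  have iuK : IntegrableOn (fun z => |u z|) K := (hu.integrableOn_compact_subset hRΩ hKc).abs
  have key : ∀ ε : ℝ, 0 < ε → aa n * ∫ z, u z * DA 1 η z ≤
      C * (∫ z, η z) + ε * ∫ z in K, |u z| := by
    intro ε hε
    obtain ⟨δ, hδ, hT⟩ := taylor67 hη.smooth hη.cpt hε
    obtain ⟨k, hk⟩ : ∃ k, r k < min δ R :=
      ((hr0.eventually (gt_mem_nhds (lt_min hδ hR)))).exists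
    set t := r k with ht
    have ht0 : 0 < t := hr k
    have htδ : t < δ := hk.trans_le (min_le_left _ _)
    have htR : t < R := hk.trans_le (min_le_right _ _)
    have hsub : tsupport η ⊆ shr Ω t := by
      intro z hz y hy
      apply hRΩ
      exact Metric.mem_cthickening_of_dist_le y z R _ hz ((Metric.mem_closedBall.1 hy).trans htR.le)
    have hsub' : tsupport η ⊆ el67 (sc t) Ω := fun z hz => (mem_shr_iff ht0.le).1 (hsub hz)
    have hTt : Tst Ω (fun z => Phi η z t) := tst_M67 ⟨hη.smooth, hη.cpt, hsub', hη.nonneg⟩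
    have iuP : Integrable (fun z => u z * Phi η z t) :=
      intr67 hu hTt.smooth.continuous hTt.cpt hTt.sub
    have iPη : Integrable (fun z => Phi u z t * η z) :=
      intr67 ((contDiffOn_Phi_left hΩ hu ht0).continuousOn.locallyIntegrableOn
        (isOpen_shr hΩ t).measurableSet) hη.smooth.continuous hη.cpt hsub
    have e1 := integral_mul_Phi hΩ hu hη.smooth.continuous hη.cpt ht0 hsub
    have e2 : (∫ z, u z * Phi η z t) - (∫ z, u z * η z) ≤ C * t ^ 2 * ∫ z, η z := by
      rw [e1, ← integral_sub iPη iuη, ← integral_const_mul]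
      refine integral_mono_ae (iPη.sub iuη) (iη.const_mul _) ?_
      filter_upwards [h k] with z hz
      by_cases hzs : z ∈ tsupport η
      · have h1 := hz (hη.sub hzs) (hsub hzs)
        have h2 := mul_le_mul_of_nonneg_right h1 (hη.nonneg z)
        calc _ = (Phi u z t - u z) * η z := by ring
          _ ≤ _ := h2
      · rw [image_eq_zero_of_notMem_tsupport hzs]
        simp
    have e3 : |∫ z, u z * (Phi η z t - η z - aa n * t ^ 2 * DA 1 η z)| ≤
        ε * t ^ 2 * ∫ z in K, |u z| := by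
      rw [← Real.norm_eq_abs, ← integral_const_mul, ← integral_indicator hKc.measurableSet]
      refine norm_integral_le_of_norm_le
        ((integrable_indicator_iff hKc.measurableSet).2 (iuK.const_mul _))
        (Eventually.of_forall fun z => ?_)
      by_cases hz : z ∈ K
      · rw [Set.indicator_of_mem hz, norm_mul, Real.norm_eq_abs, Real.norm_eq_abs, mul_comm]
        exact mul_le_mul_of_nonneg_right (hT t ht0 htδ z) (abs_nonneg _)
      · rw [Set.indicator_of_notMem hz]
        have hz1 : z ∉ tsupport η := fun hc => hz (Metric.self_subset_cthickening _ hc)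
        have h0 : Phi η z t = 0 := by
          unfold Phi M
          refine integral_eq_zero_of_ae (Eventually.of_forall fun ξ => ?_)
          simp only [Pi.zero_apply]
          by_cases hξ : ‖ξ‖ < 1
          · have h1 : z + (sc t : Lin n) ξ ∉ tsupport η := by
              intro h2
              apply hz
              refine Metric.mem_cthickening_of_dist_le z _ R _ h2 ?_
              rw [sc_apply, dist_eq_norm, sub_add_cancel_left, norm_neg, norm_smul, Complex.norm_real,
                Real.norm_eq_abs, abs_of_nonneg ht0.le]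
              nlinarith [norm_nonneg ξ]
            rw [image_eq_zero_of_notMem_tsupport h1, mul_zero]
          · rw [rho_eq_zero (not_lt.1 hξ), zero_mul]
        rw [h0, image_eq_zero_of_notMem_tsupport hz1, DA_zero67 hz1]
        simp
    have e4 : ∫ z, u z * (Phi η z t - η z - aa n * t ^ 2 * DA 1 η z) =
        (∫ z, u z * Phi η z t) - (∫ z, u z * η z) - aa n * t ^ 2 * ∫ z, u z * DA 1 η z := by
      have i12 : Integrable (fun z => u z * Phi η z t - u z * η z) := iuP.sub iuη
      have i3 : Integrable (fun z => aa n * t ^ 2 * (u z * DA 1 η z)) := iug.const_mul _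
      rw [← integral_sub iuP iuη, ← integral_const_mul, ← integral_sub i12 i3]
      refine integral_congr_ae (Eventually.of_forall fun z => ?_)
      simp only
      ring
    rw [e4] at e3
    have e5 := (abs_le.1 e3).1
    have ht2 : 0 < t ^ 2 := by positivity
    have e6 : t ^ 2 * (aa n * ∫ z, u z * DA 1 η z) ≤
        t ^ 2 * (C * (∫ z, η z) + ε * ∫ z in K, |u z|) := by nlinarith
    exact le_of_mul_le_mul_left e6 ht2
  have hlim : aa n * ∫ z, u z * DA 1 η z ≤ C * ∫ z, η z := by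
    have h1 : Tendsto (fun ε : ℝ => C * (∫ z, η z) + ε * ∫ z in K, |u z|) (𝓝[>] 0)
        (𝓝 (C * (∫ z, η z) + 0 * ∫ z in K, |u z|)) :=
      ((tendsto_id.mono_left nhdsWithin_le_nhds).mul_const _).const_add _
    rw [zero_mul, add_zero] at h1
    refine ge_of_tendsto h1 ?_
    filter_upwards [self_mem_nhdsWithin] with ε hε
    exact key ε hε
  rw [div_mul_eq_mul_div, le_div_iff₀ haa]
  linarith

/-! ### (2.10) -/

private theorem cc_rho67 {g : V n → ℝ} (T : Lin n) (z : V n) (hg : Continuous g) :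
    Integrable (fun ξ => rho ξ * g (z + T ξ)) := by
  have h1 : Continuous (fun ξ : V n => rho ξ * g (z + T ξ)) :=
    rho_contDiff.continuous.mul (hg.comp (by fun_prop))
  exact h1.integrable_of_hasCompactSupport rho_hasCompactSupport.mul_right

private theorem DA_M67 (A T : Lin n) {η : V n → ℝ} (hη : ContDiff ℝ (⊤ : ℕ∞) η) (z : V n) :
    DA A (M T η) z = M T (DA A η) z := by
  unfold DA
  have h1 : ∀ l : Fin n, lev (M T η) z (A (e l)) = ∫ ξ, rho ξ * lev η (z + T ξ) (A (e l)) :=
    fun l => lev_M T isOpen_univ (c2_67 hη).contDiffOn (fun _ _ => mem_univ _) _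
  rw [Finset.sum_congr rfl fun l _ => h1 l, ← integral_finsetSum _ fun l _ => cc_rho67
    (g := fun y => lev η y (A (e l))) T z
    (continuousOn_univ.1 (continuousOn_lev isOpen_univ (c2_67 hη).contDiffOn _))]
  unfold M
  refine integral_congr_ae (Eventually.of_forall fun ξ => ?_)
  simp only
  rw [Finset.mul_sum]

private theorem integral_Phi67 {η : V n → ℝ} (hη : Continuous η) (hc : HasCompactSupport η)
    {t : ℝ} (ht : 0 < t) : ∫ z, Phi η z t = ∫ z, η z := by
  have h := integral_mul_Phi isOpen_univ (u := fun _ : V n => (1 : ℝ))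
    (locallyIntegrableOn_const 1) hη hc ht (fun z _ => fun y _ => mem_univ y)
  simp only [one_mul, Phi_const] at h
  exact h

private theorem trace67 (hW : IsOpen W) (hu : PSHd W u)
    (hC : ∀ K ⊆ W, IsCompact K → ∃ C : ℝ, ∀ η, Tst W η → tsupport η ⊆ K →
      ∫ z, u z * DA 1 η z ≤ C * ∫ z, η z) {K : Set (V n)} (hK : K ⊆ W) (hKc : IsCompact K) :
    ∃ C R : ℝ, 0 < R ∧ ∀ ε, 0 < ε → ε < R → ∀ z ∈ K, z ∈ shr W ε ∧
      DA 1 (fun y => Phi u y ε) z ≤ C := by
  obtain ⟨R0, hR0, hRW⟩ := IsCompact.exists_cthickening_subset_open hKc hW hK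
  obtain ⟨C, hC'⟩ := hC _ hRW (IsCompact.cthickening hKc)
  refine ⟨C, R0 / 2, half_pos hR0, fun ε hε hεR => ?_⟩
  set U : Set (V n) := Metric.thickening (R0 / 2) K with hU
  have hUo : IsOpen U := Metric.isOpen_thickening
  have hUs : ∀ z ∈ U, Metric.closedBall z ε ⊆ Metric.thickening R0 K := by
    intro z hz y hy
    obtain ⟨x, hx, hxz⟩ := Metric.mem_thickening_iff.1 hz
    refine Metric.mem_thickening_iff.2 ⟨x, hx, ?_⟩
    have h1 := Metric.mem_closedBall.1 hy
    linarith [dist_triangle y z x]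
  have hU1 : U ⊆ shr W ε := fun z hz y hy =>
    hRW (Metric.thickening_subset_cthickening _ _ (hUs z hz hy))
  have hsm : ContDiffOn ℝ 2 (fun y => Phi u y ε) (shr W ε) := by
    exact_mod_cast contDiffOn_infty.1 (contDiffOn_Phi_left hW hu.int hε) 2
  have hcont := DA_cont67 (isOpen_shr hW ε) hsm 1
  have key := ptw67 hUo (f := fun z => DA 1 (fun y => Phi u y ε) z - C)
    ((hcont.mono hU1).sub continuousOn_const) (fun η hη => by
      have hηs : tsupport η ⊆ shr W ε := hη.sub.trans hU1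
      have hgc : Continuous (DA (1 : Lin n) η) :=
        continuousOn_univ.1 (DA_cont67 isOpen_univ (c2_67 hη.smooth).contDiffOn 1)
      have hgs : HasCompactSupport (DA (1 : Lin n) η) :=
        hη.cpt.mono' ((subset_tsupport _).trans (DA_supp67 η 1))
      have iη : Integrable η := hη.smooth.continuous.integrable_of_hasCompactSupport hη.cpt
      have i1 : Integrable (fun z => DA 1 (fun y => Phi u y ε) z * η z) :=
        intr67 (hcont.locallyIntegrableOn (isOpen_shr hW ε).measurableSet) hη.smooth.continuous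
          hη.cpt hηs
      have e1 := integral_mul_DA (isOpen_shr hW ε) 1 hsm (c2_67 hη.smooth) hη.cpt hηs
      have e2 := integral_mul_Phi hW hu.int hgc hgs hε ((DA_supp67 η 1).trans hηs)
      have e3 : ∀ z, Phi (DA 1 η) z ε = DA 1 (fun y => Phi η y ε) z :=
        fun z => (DA_M67 1 (sc ε) hη.smooth z).symm
      have hT : Tst (Metric.thickening R0 K) (M (sc ε) η) := by
        refine tst_M67 ⟨hη.smooth, hη.cpt, fun z hz => ?_, hη.nonneg⟩
        intro ξ hξ
        apply hUs z (hη.sub hz)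
        rw [sc_apply, Metric.mem_closedBall, dist_eq_norm, add_sub_cancel_left, norm_smul,
          Complex.norm_real, Real.norm_eq_abs, abs_of_nonneg hε.le]
        nlinarith [norm_nonneg ξ]
      have hsub := hT.sub.trans (Metric.thickening_subset_cthickening _ _)
      have h4 := hC' (M (sc ε) η) ⟨hT.smooth, hT.cpt, hsub.trans hRW, hT.nonneg⟩ hsub
      have h5 : ∫ z, DA 1 (fun y => Phi u y ε) z * η z ≤ C * ∫ z, η z := by
        rw [← e1, ← e2]
        calc ∫ z, u z * Phi (DA 1 η) z ε = ∫ z, u z * DA 1 (M (sc ε) η) z := by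
              refine integral_congr_ae (Eventually.of_forall fun z => ?_)
              simp only
              rw [e3]
              rfl
          _ ≤ C * ∫ z, M (sc ε) η z := h4
          _ = C * ∫ z, η z := by
              have := integral_Phi67 hη.smooth.continuous hη.cpt hε
              unfold Phi at this
              rw [this]
      simp only [sub_mul]
      rw [integral_sub i1 (iη.const_mul C), integral_const_mul]
      linarith)
  intro z hz
  have hzU : z ∈ U := Metric.self_subset_thickening (half_pos hR0) K hz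
  exact ⟨hU1 hzU, by linarith [key z hzU]⟩

private theorem entry67 (hW : IsOpen W) (hu : PSHd W u)
    (hC : ∀ K ⊆ W, IsCompact K → ∃ C : ℝ, ∀ η, Tst W η → tsupport η ⊆ K →
      ∫ z, u z * DA 1 η z ≤ C * ∫ z, η z) {K : Set (V n)} (hK : K ⊆ W) (hKc : IsCompact K) :
    ∃ C R : ℝ, 0 ≤ C ∧ 0 < R ∧ ∀ ε, 0 < ε → ε < R → ∀ z ∈ K, z ∈ shr W ε ∧
      (hess (fun y => Phi u y ε) z).PosSemidef ∧
      ∀ j k, ‖hess (fun y => Phi u y ε) z j k‖ ≤ C := by
  obtain ⟨C, R, hR, h⟩ := trace67 hW hu hC hK hKc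
  refine ⟨max C 0, R, le_max_right _ _, hR, fun ε hε hεR z hz => ?_⟩
  obtain ⟨h1, h2⟩ := h ε hε hεR z hz
  have hs : SPsh (shr W ε) fun y => Phi u y ε := hu.mollify hW hε
  have hp := psd_hess67 (isOpen_shr hW ε) hs h1
  refine ⟨h1, hp, fun j k => (norm_entry_le hp j k).trans ?_⟩
  have h3 : ContDiffAt ℝ 2 (fun y => Phi u y ε) z := by
    exact_mod_cast contDiffAt_infty.1 (hs.smooth.contDiffAt ((isOpen_shr hW ε).mem_nhds h1)) 2
  rw [← sA_one, ← DA_eq_sA h3]
  exact h2.trans (le_max_left _ _)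

private theorem conv67 (hΩ : IsOpen Ω) (hu : LocallyIntegrableOn u Ω volume) {φ : V n → ℂ}
    (hφ : Continuous φ) (hc : HasCompactSupport φ) (hs : tsupport φ ⊆ Ω) :
    Tendsto (fun t => ∫ z, (Phi u z t : ℂ) * φ z) (𝓝[>] 0) (𝓝 (∫ z, (u z : ℂ) * φ z)) := by
  obtain ⟨B, hB⟩ := hφ.bounded_above_of_compact_support hc
  obtain ⟨R, hR, hRΩ⟩ := IsCompact.exists_cthickening_subset_open hc hΩ hs
  have hKc : IsCompact (tsupport φ) := hc
  have h1 := (tendsto_Phi_L1 hΩ hu hc hs).mul_const B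
  rw [zero_mul] at h1
  rw [tendsto_iff_norm_sub_tendsto_zero]
  refine squeeze_zero' (Eventually.of_forall fun t => norm_nonneg _) ?_ h1
  filter_upwards [Ioo_mem_nhdsGT hR] with t ht
  have hsub : tsupport φ ⊆ shr Ω t := by
    intro z hz y hy
    apply hRΩ
    exact Metric.mem_cthickening_of_dist_le y z R _ hz ((Metric.mem_closedBall.1 hy).trans ht.2.le)
  have hPl : LocallyIntegrableOn (fun z => Phi u z t) (shr Ω t) volume :=
    (contDiffOn_Phi_left hΩ hu ht.1).continuousOn.locallyIntegrableOn (isOpen_shr hΩ t).measurableSet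
  have i1 : Integrable (fun z => (Phi u z t : ℂ) * φ z) := int67 (ofReal67 hPl) hφ hc hsub
  have i2 : Integrable (fun z => (u z : ℂ) * φ z) := int67 (ofReal67 hu) hφ hc hs
  have i3 : IntegrableOn (fun z => |Phi u z t - u z|) (tsupport φ) :=
    ((hPl.integrableOn_compact_subset hsub hKc).sub (hu.integrableOn_compact_subset hs hKc)).abs
  rw [← integral_sub i1 i2, ← integral_mul_const, ← integral_indicator hKc.measurableSet]
  refine norm_integral_le_of_norm_le
    ((integrable_indicator_iff hKc.measurableSet).2 (i3.mul_const _))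
    (Eventually.of_forall fun z => ?_)
  by_cases hz : z ∈ tsupport φ
  · rw [Set.indicator_of_mem hz, ← sub_mul, norm_mul, ← Complex.ofReal_sub, Complex.norm_real,
      Real.norm_eq_abs]
    exact mul_le_mul_of_nonneg_left (hB z) (abs_nonneg _)
  · rw [Set.indicator_of_notMem hz, image_eq_zero_of_notMem_tsupport hz]
    simp

/-- weak compactness of balls in a Hilbert space -/
private theorem wk67 {E : Type*} [NormedAddCommGroup E] [InnerProductSpace ℂ E] [CompleteSpace E]
    {F : ℝ → E} {B : ℝ} (hF : ∀ᶠ ε in 𝓝[>] (0 : ℝ), ‖F ε‖ ≤ B) :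
    ∃ (x : E) (l : Ultrafilter ℝ), (l : Filter ℝ) ≤ 𝓝[>] 0 ∧
      ∀ y : E, Tendsto (fun ε => (inner ℂ (F ε) y : ℂ)) l (𝓝 (inner ℂ x y)) := by
  set l : Ultrafilter ℝ := Ultrafilter.of (𝓝[>] (0 : ℝ)) with hl
  have hle : (l : Filter ℝ) ≤ 𝓝[>] 0 := Ultrafilter.of_le _
  let Φ : ℝ → WeakDual ℂ E := fun ε => StrongDual.toWeakDual (InnerProductSpace.toDual ℂ E (F ε))
  have hcomp := WeakDual.isCompact_closedBall (𝕜 := ℂ) (0 : StrongDual ℂ E) B
  have hmem : ∀ᶠ ε in (l : Filter ℝ), Φ ε ∈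
      WeakDual.toStrongDual ⁻¹' Metric.closedBall (0 : StrongDual ℂ E) B := by
    filter_upwards [hle hF] with ε hε
    have : ‖InnerProductSpace.toDual ℂ E (F ε)‖ ≤ B := by
      rw [LinearIsometryEquiv.norm_map]
      exact hε
    simpa [Φ] using this
  obtain ⟨L, -, hL⟩ := hcomp.ultrafilter_le_nhds (l.map Φ) (le_principal_iff.2 hmem)
  refine ⟨(InnerProductSpace.toDual ℂ E).symm (WeakDual.toStrongDual L), l, hle, fun y => ?_⟩
  have h1 : Tendsto Φ l (𝓝 L) := hL
  have h2 := ((WeakDual.eval_continuous y).tendsto L).comp h1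
  have h3 : (inner ℂ ((InnerProductSpace.toDual ℂ E).symm (WeakDual.toStrongDual L)) y : ℂ) = L y := by
    rw [InnerProductSpace.toDual_symm_apply]
    rfl
  rw [h3]
  exact h2

/-- local existence of the limit of the Hessians of the means -/
private theorem loc67 (hW : IsOpen W) (hu : PSHd W u)
    (hC : ∀ K ⊆ W, IsCompact K → ∃ C : ℝ, ∀ η, Tst W η → tsupport η ⊆ K →
      ∫ z, u z * DA 1 η z ≤ C * ∫ z, η z) {z₀ : V n} (hz₀ : z₀ ∈ W) (j k : Fin n) :
    ∃ r > 0, Metric.ball z₀ r ⊆ W ∧ ∀ᵐ z, z ∈ Metric.ball z₀ r →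
      ∃ L, Tendsto (fun ε => hess (fun y => Phi u y ε) z j k) (𝓝[>] 0) (𝓝 L) := by
  obtain ⟨r, hr, hrW⟩ := Metric.nhds_basis_closedBall.mem_iff.1 (hW.mem_nhds hz₀)
  have hbW : Metric.ball z₀ r ⊆ W := Metric.ball_subset_closedBall.trans hrW
  refine ⟨r, hr, hbW, ?_⟩
  obtain ⟨C, R, hC0, hR, hb⟩ := entry67 hW hu hC hrW (isCompact_closedBall z₀ r)
  set U : Set (V n) := Metric.ball z₀ r with hU
  have hUo : IsOpen U := Metric.isOpen_ball
  set μ : Measure (V n) := volume.restrict U with hμ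
  have hfin : IsFiniteMeasure μ := ⟨by
    rw [hμ, Measure.restrict_apply_univ]
    exact measure_ball_lt_top⟩
  set f : ℝ → V n → ℂ := fun ε z => (starRingEnd ℂ) (hess (fun y => Phi u y ε) z j k) with hf
  have hbd : ∀ ε, 0 < ε → ε < R → ∀ᵐ z ∂μ, ‖f ε z‖ ≤ C := by
    intro ε h1 h2
    refine (ae_restrict_iff' Metric.isOpen_ball.measurableSet).2 (Eventually.of_forall fun z hz => ?_)
    rw [hf]
    simp only [RCLike.norm_conj]
    exact (hb ε h1 h2 z (Metric.ball_subset_closedBall hz)).2.2 j k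
  have hsmooth : ∀ ε, 0 < ε → ContDiffOn ℝ 2 (fun y => Phi u y ε) (shr W ε) := fun ε h1 => by
    exact_mod_cast contDiffOn_infty.1 (contDiffOn_Phi_left hW hu.int h1) 2
  have hUs : ∀ ε, 0 < ε → ε < R → U ⊆ shr W ε := fun ε h1 h2 z hz =>
    (hb ε h1 h2 z (Metric.ball_subset_closedBall hz)).1
  have hmem : ∀ ε, 0 < ε → ε < R → MemLp (f ε) 2 μ := by
    intro ε h1 h2
    refine MemLp.of_bound ?_ C (hbd ε h1 h2)
    have h3 := (continuousOn_hess (isOpen_shr hW ε) (hsmooth ε h1) j k).mono (hUs ε h1 h2)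
    exact (Complex.continuous_conj.comp_continuousOn h3).aestronglyMeasurable
      Metric.isOpen_ball.measurableSet
  classical
  set Fl : ℝ → Lp ℂ 2 μ := fun ε => if h : MemLp (f ε) 2 μ then h.toLp else 0 with hFl
  have hFle : ∀ ε (h1 : 0 < ε) (h2 : ε < R), Fl ε = (hmem ε h1 h2).toLp := fun ε h1 h2 =>
    dif_pos (hmem ε h1 h2)
  have hev : ∀ᶠ ε in 𝓝[>] (0 : ℝ), 0 < ε ∧ ε < R := by
    filter_upwards [Ioo_mem_nhdsGT hR] with ε hε
    exact hε
  obtain ⟨x, l, hl, hlim⟩ := wk67 (F := Fl)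
    (B := (measureUnivNNReal μ : ℝ) ^ (2 : ENNReal).toReal⁻¹ * C) (by
      filter_upwards [hev] with ε hε
      rw [hFle ε hε.1 hε.2]
      refine Lp.norm_le_of_ae_bound hC0 ?_
      filter_upwards [(hmem ε hε.1 hε.2).coeFn_toLp, hbd ε hε.1 hε.2] with z h3 h4
      rw [h3]
      exact h4)
  set h : V n → ℂ := fun z => (starRingEnd ℂ) (x z) with hh
  have hxi : Integrable (x : V n → ℂ) μ := (Lp.memLp x).integrable one_le_two
  have hhi : IntegrableOn h U := by
    have h1 : Integrable (fun z => (starRingEnd ℂ) (x z)) μ :=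
      (integrable_norm_iff (Complex.continuous_conj.comp_aestronglyMeasurable
        hxi.aestronglyMeasurable)).1 (by simpa using hxi.norm)
    exact h1
  have hhl : LocallyIntegrableOn h U volume := hhi.locallyIntegrableOn
  have hw : ∀ η : V n → ℝ, Tst U η → ∫ z, (u z : ℂ) * hess η z j k = ∫ z, h z * (η z : ℂ) := by
    intro η hη
    obtain ⟨hη1, hη2, hη3⟩ := hη67 hη
    have hηm : MemLp (fun z => (η z : ℂ)) 2 μ := by
      obtain ⟨B, hB⟩ := hη1.bounded_above_of_compact_support hη2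
      exact MemLp.of_bound hη1.aestronglyMeasurable B (Eventually.of_forall hB)
    have t1 := hlim hηm.toLp
    have t2 := (conv67 hW hu.int (hess_cont67 hη.smooth j k) (hess_cpt67 hη.cpt j k)
      ((hess_supp67 η j k).trans (hη.sub.trans hbW))).mono_left hl
    have e1 : ∀ g : V n → ℂ, ∫ z in U, g z * (η z : ℂ) = ∫ z, g z * (η z : ℂ) := by
      intro g
      refine setIntegral_eq_integral_of_forall_compl_eq_zero fun z hz => ?_
      rw [image_eq_zero_of_notMem_tsupport fun hc => hz (hη.sub hc)]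
      simp
    have e2 : (inner ℂ x hηm.toLp : ℂ) = ∫ z, h z * (η z : ℂ) := by
      rw [L2.inner_def, ← e1 h]
      refine integral_congr_ae ?_
      filter_upwards [hηm.coeFn_toLp] with z h3
      rw [h3, RCLike.inner_apply, hh]
      ring
    have e3 : ∀ᶠ ε in (l : Filter ℝ), (inner ℂ (Fl ε) hηm.toLp : ℂ) =
        ∫ z, (Phi u z ε : ℂ) * hess η z j k := by
      filter_upwards [hl hev] with ε hε
      have e4 := integral_mul_hess (isOpen_shr hW ε) (hsmooth ε hε.1) (c2_67 hη.smooth) hη.cpt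
        (hη.sub.trans (hUs ε hε.1 hε.2)) j k
      rw [e4, hFle ε hε.1 hε.2, L2.inner_def, ← e1]
      refine integral_congr_ae ?_
      filter_upwards [hηm.coeFn_toLp, (hmem ε hε.1 hε.2).coeFn_toLp] with z h3 h4
      rw [h3, h4, RCLike.inner_apply, hf]
      simp only [Complex.conj_conj]
      ring
    rw [e2] at t1
    exact tendsto_nhds_unique (t2.congr' (e3.mono fun ε hε => hε.symm)) t1
  have hui : LocallyIntegrableOn u U volume := hu.int.mono_set hbW
  filter_upwards [ae_Mc67 hUo hhl] with z hz hzU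
  refine ⟨h z, (hz hzU).congr' ?_⟩
  filter_upwards [ev_shr67 hUo hzU] with ε hε
  exact (weak67 hUo hui hhl hw (det_sc67 hε.1) ((mem_shr_iff hε.1.le).1 hε.2)).symm

/-- (2.10) existence of the Hessian -/
theorem exists_BH (hn : 0 < n) (hW : IsOpen W) (hu : PSHd W u)
    (hC : ∀ K ⊆ W, IsCompact K → ∃ C : ℝ, ∀ η, Tst W η → tsupport η ⊆ K →
      ∫ z, u z * DA 1 η z ≤ C * ∫ z, η z) : ∃ H, BH W u H := by
  classical
  set ρm : ℕ → ℝ := fun m => 1 / ((m : ℝ) + 1) with hρ
  have hρ0 : ∀ m, 0 < ρm m := fun m => by rw [hρ]; positivity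
  have hρt : Tendsto ρm atTop (𝓝[>] 0) :=
    tendsto_nhdsWithin_iff.2 ⟨tendsto_one_div_add_atTop_nhds_zero_nat,
      Eventually.of_forall fun m => hρ0 m⟩
  have hsmooth : ∀ m, ContDiffOn ℝ 2 (fun y => Phi u y (ρm m)) (shr W (ρm m)) := fun m => by
    exact_mod_cast contDiffOn_infty.1 (contDiffOn_Phi_left hW hu.int (hρ0 m)) 2
  -- the approximating Hessians, extended by zero
  set Fm : ℕ → V n → Mat n := fun m z =>
    if z ∈ shr W (ρm m) then hess (fun y => Phi u y (ρm m)) z else 0 with hFm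
  have hFmeas : ∀ m j k, Measurable fun z => Fm m z j k := by
    intro m j k
    have h3 := ContinuousOn.measurable_piecewise
      (continuousOn_hess (isOpen_shr hW (ρm m)) (hsmooth m) j k)
      (continuousOn_const (c := (0 : ℂ)) (s := (shr W (ρm m))ᶜ)) (isOpen_shr hW (ρm m)).measurableSet
    have h4 : (fun z => Fm m z j k) =
        (shr W (ρm m)).piecewise (fun y => hess (fun y => Phi u y (ρm m)) y j k) fun _ => 0 := by
      funext z
      by_cases hz : z ∈ shr W (ρm m)
      · rw [Set.piecewise_eq_of_mem _ _ _ hz, hFm]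
        simp only [if_pos hz]
      · rw [Set.piecewise_eq_of_notMem _ _ _ hz, hFm]
        simp only [if_neg hz]
        rfl
    rw [h4]
    exact h3
  have hFev : ∀ z ∈ W, ∀ᶠ m in atTop, z ∈ shr W (ρm m) ∧
      Fm m z = hess (fun y => Phi u y (ρm m)) z := by
    intro z hz
    filter_upwards [hρt.eventually (ev_shr67 hW hz)] with m hm
    exact ⟨hm.2, if_pos hm.2⟩
  set S : Set (V n) := {z | z ∈ W ∧ ∀ j k, ∃ L, Tendsto (fun m => Fm m z j k) atTop (𝓝 L)} with hS
  have hSmeas : MeasurableSet S := by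
    have h1 : S = W ∩ ⋂ j, ⋂ k, {z | ∃ L, Tendsto (fun m => Fm m z j k) atTop (𝓝 L)} := by
      ext z
      simp only [hS, Set.mem_ofPred_eq, Set.mem_inter_iff, Set.mem_iInter]
    rw [h1]
    refine hW.measurableSet.inter (MeasurableSet.iInter fun j => MeasurableSet.iInter fun k => ?_)
    exact StronglyMeasurable.measurableSet_exists_tendsto fun m => (hFmeas m j k).stronglyMeasurable
  have hSW : ∀ᵐ z, z ∈ W → z ∈ S := by
    have h1 : volume (W \ S) = 0 := by
      refine measure_null_of_locally_null _ fun z₀ hz₀ => ?_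
      have h2 : ∀ j k, ∃ r > 0, Metric.ball z₀ r ⊆ W ∧ ∀ᵐ z, z ∈ Metric.ball z₀ r →
          ∃ L, Tendsto (fun ε => hess (fun y => Phi u y ε) z j k) (𝓝[>] 0) (𝓝 L) :=
        fun j k => loc67 hW hu hC hz₀.1 j k
      choose r hr hrW hae using h2
      have hU : (⋂ j, ⋂ k, Metric.ball z₀ (r j k)) ∈ 𝓝 z₀ :=
        Filter.iInter_mem.2 fun j => Filter.iInter_mem.2 fun k => Metric.ball_mem_nhds z₀ (hr j k)
      refine ⟨(W \ S) ∩ ⋂ j, ⋂ k, Metric.ball z₀ (r j k),
        inter_mem self_mem_nhdsWithin (mem_nhdsWithin_of_mem_nhds hU), ?_⟩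
      have h3 : ∀ᵐ z, ∀ j k, z ∈ Metric.ball z₀ (r j k) →
          ∃ L, Tendsto (fun ε => hess (fun y => Phi u y ε) z j k) (𝓝[>] 0) (𝓝 L) :=
        ae_all_iff.2 fun j => ae_all_iff.2 fun k => hae j k
      refine measure_mono_null (fun z hz => ?_) h3
      intro h4
      apply hz.1.2
      refine ⟨hz.1.1, fun j k => ?_⟩
      obtain ⟨L, hL⟩ := h4 j k (Set.mem_iInter.1 (Set.mem_iInter.1 hz.2 j) k)
      refine ⟨L, (hL.comp hρt).congr' ?_⟩
      filter_upwards [hFev z hz.1.1] with m hm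
      rw [hm.2]
      rfl
    refine measure_mono_null (fun z hz => ?_) h1
    by_contra hc
    apply hz
    intro hzW
    by_contra hzS
    exact hc ⟨hzW, hzS⟩
  set H : V n → Mat n := fun z j k => if z ∈ S then limUnder atTop (fun m => Fm m z j k) else 0
    with hH
  have hHlim : ∀ z ∈ S, ∀ j k, Tendsto (fun m => Fm m z j k) atTop (𝓝 (H z j k)) := by
    intro z hz j k
    have h1 : H z j k = limUnder atTop (fun m => Fm m z j k) := if_pos hz
    rw [h1]
    exact tendsto_nhds_limUnder (hz.2 j k)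
  have hH0 : ∀ z ∉ S, H z = 0 := by
    intro z hz
    ext j k
    exact if_neg hz
  have hbdd : ∀ K ⊆ W, IsCompact K → ∃ C : ℝ, 0 ≤ C ∧ (∀ z ∈ K, ∀ j k, ‖H z j k‖ ≤ C) ∧
      ∃ m₀, ∀ m ≥ m₀, ∀ z ∈ K, z ∈ shr W (ρm m) ∧ ∀ j k, ‖Fm m z j k‖ ≤ C := by
    intro K hK hKc
    obtain ⟨C, R, hC0, hR, hb⟩ := entry67 hW hu hC hK hKc
    obtain ⟨m₀, hm₀⟩ := Filter.eventually_atTop.1 (hρt.eventually (Ioo_mem_nhdsGT hR))
    have h1 : ∀ m ≥ m₀, ∀ z ∈ K, z ∈ shr W (ρm m) ∧ ∀ j k, ‖Fm m z j k‖ ≤ C := by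
      intro m hm z hz
      obtain ⟨h2, -, h3⟩ := hb (ρm m) (hm₀ m hm).1 (hm₀ m hm).2 z hz
      refine ⟨h2, fun j k => ?_⟩
      have h4 : Fm m z = hess (fun y => Phi u y (ρm m)) z := if_pos h2
      rw [h4]
      exact h3 j k
    refine ⟨C, hC0, fun z hz j k => ?_, m₀, h1⟩
    by_cases hzS : z ∈ S
    · refine le_of_tendsto (hHlim z hzS j k).norm ?_
      filter_upwards [Filter.eventually_ge_atTop m₀] with m hm
      exact (h1 m hm z hz).2 j k
    · rw [hH0 z hzS]
      simpa using hC0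
  refine ⟨H, hu.int, fun j k => ?_, fun z => ?_, fun K hK hKc => ?_, fun η hη j k => ?_⟩
  · refine measurable_of_tendsto_metrizable
      (f := fun m z => if z ∈ S then Fm m z j k else 0)
      (fun m => Measurable.ite hSmeas (hFmeas m j k) measurable_const) ?_
    rw [tendsto_pi_nhds]
    intro z
    by_cases hz : z ∈ S
    · simp only [if_pos hz]
      exact hHlim z hz j k
    · simp only [if_neg hz, hH0 z hz]
      exact tendsto_const_nhds
  · by_cases hz : z ∈ S
    · have hpsd : ∀ᶠ m in atTop, (Fm m z).PosSemidef := by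
        filter_upwards [hFev z hz.1] with m hm
        rw [hm.2]
        exact psd_hess67 (isOpen_shr hW (ρm m)) (hu.mollify hW (hρ0 m)) hm.1
      have hherm : (H z).IsHermitian := by
        ext j k
        rw [Matrix.conjTranspose_apply]
        refine tendsto_nhds_unique ((Complex.continuous_conj.tendsto _).comp (hHlim z hz k j)) ?_
        refine (hHlim z hz j k).congr' ?_
        filter_upwards [hpsd] with m hm
        have := congrFun (congrFun hm.1 j) k
        rw [← this]
        rfl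
      refine (posSemidef_iff_lf hherm).2 fun v => ?_
      refine ge_of_tendsto (lf_tendsto67 (fun j k => hHlim z hz j k) v) ?_
      filter_upwards [hpsd] with m hm
      exact lf_nonneg67 hm v
    · rw [hH0 z hz]
      exact Matrix.PosSemidef.zero
  · obtain ⟨C, -, h1, -⟩ := hbdd K hK hKc
    exact ⟨C, h1⟩
  · obtain ⟨C, hC0, h1, m₀, h2⟩ := hbdd _ hη.sub hη.cpt
    have t1 := (conv67 hW hu.int (hess_cont67 hη.smooth j k) (hess_cpt67 hη.cpt j k)
      ((hess_supp67 η j k).trans hη.sub)).comp hρt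
    have iη : Integrable η := hη.smooth.continuous.integrable_of_hasCompactSupport hη.cpt
    have t2 : Tendsto (fun m => ∫ z, Fm (m + m₀) z j k * (η z : ℂ)) atTop
        (𝓝 (∫ z, H z j k * (η z : ℂ))) := by
      refine tendsto_integral_of_dominated_convergence (fun z => C * ‖η z‖) (fun m => ?_)
        (iη.norm.const_mul C) (fun m => ?_) ?_
      · exact ((hFmeas (m + m₀) j k).aestronglyMeasurable).mul (hη67 hη).1.aestronglyMeasurable
      · refine Eventually.of_forall fun z => ?_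
        rw [norm_mul, Complex.norm_real]
        by_cases hz : z ∈ tsupport η
        · exact mul_le_mul_of_nonneg_right ((h2 _ (Nat.le_add_left _ _) z hz).2 j k) (norm_nonneg _)
        · rw [image_eq_zero_of_notMem_tsupport hz]
          simp
      · filter_upwards [hSW] with z hz
        by_cases hzs : z ∈ tsupport η
        · exact ((hHlim z (hz (hη.sub hzs)) j k).comp (tendsto_add_atTop_nat m₀)).mul_const _
        · rw [image_eq_zero_of_notMem_tsupport hzs]
          simp
    have e1 : ∀ m, ∫ z, (Phi u z (ρm (m + m₀)) : ℂ) * hess η z j k =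
        ∫ z, Fm (m + m₀) z j k * (η z : ℂ) := by
      intro m
      have hs : tsupport η ⊆ shr W (ρm (m + m₀)) := fun z hz => (h2 _ (Nat.le_add_left _ _) z hz).1
      rw [integral_mul_hess (isOpen_shr hW _) (hsmooth (m + m₀)) (c2_67 hη.smooth) hη.cpt hs]
      refine integral_congr_ae (Eventually.of_forall fun z => ?_)
      simp only
      by_cases hz : z ∈ tsupport η
      · have h4 : Fm (m + m₀) z = hess (fun y => Phi u y (ρm (m + m₀))) z := if_pos (hs hz)
        rw [h4]
      · rw [image_eq_zero_of_notMem_tsupport hz]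
        simp
    have t3 : Tendsto (fun m => ∫ z, Fm (m + m₀) z j k * (η z : ℂ)) atTop
        (𝓝 (∫ z, (u z : ℂ) * hess η z j k)) := by
      refine ((t1.comp (tendsto_add_atTop_nat m₀)).congr fun m => ?_)
      exact e1 m
    exact tendsto_nhds_unique t3 t2

private theorem BH_bound67 (hΩ : IsOpen Ω) (h : BH Ω u H) {K : Set (V n)} (hK : K ⊆ Ω)
    (hKc : IsCompact K) : ∃ C R : ℝ, 0 < R ∧ K ⊆ shr Ω R ∧ ∀ ε, 0 < ε → ε < R → ∀ z,
      z ∈ Metric.thickening R K → z ∈ shr Ω ε ∧ DA 1 (fun y => Phi u y ε) z ≤ C := by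
  obtain ⟨R0, hR0, hRΩ⟩ := IsCompact.exists_cthickening_subset_open hKc hΩ hK
  obtain ⟨C, hC⟩ := h.bdd _ hRΩ (IsCompact.cthickening hKc)
  refine ⟨∑ _l : Fin n, C, R0 / 2, half_pos hR0, ?_, fun ε hε hεR z hz => ?_⟩
  · intro z hz y hy
    exact hRΩ (Metric.mem_cthickening_of_dist_le y z R0 _ hz
      ((Metric.mem_closedBall.1 hy).trans (by linarith)))
  have hs : ∀ y ∈ Metric.closedBall z ε, y ∈ Metric.cthickening R0 K := by
    intro y hy
    obtain ⟨x, hx, hxz⟩ := Metric.mem_thickening_iff.1 hz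
    refine Metric.thickening_subset_cthickening _ _ (Metric.mem_thickening_iff.2 ⟨x, hx, ?_⟩)
    have h1 := Metric.mem_closedBall.1 hy
    linarith [dist_triangle y z x]
  have hzs : z ∈ shr Ω ε := fun y hy => hRΩ (hs y hy)
  refine ⟨hzs, ?_⟩
  have h3 : ContDiffAt ℝ 2 (fun y => Phi u y ε) z := by
    exact_mod_cast contDiffAt_infty.1 ((contDiffOn_Phi_left hΩ h.int hε).contDiffAt
      ((isOpen_shr hΩ ε).mem_nhds hzs)) 2
  rw [DA_eq_sA h3, sA_one, BH.hess_Phi hΩ h hε hzs, Matrix.trace, Complex.re_sum]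
  refine Finset.sum_le_sum fun l _ => ?_
  rw [Matrix.diag_apply]
  refine (Complex.re_le_norm _).trans ?_
  have h4 : MH (sc ε) H z l l = ∫ ξ : V n, (rho ξ : ℂ) * H (z + (sc ε : Lin n) ξ) l l := rfl
  rw [h4]
  calc ‖∫ ξ : V n, (rho ξ : ℂ) * H (z + (sc ε : Lin n) ξ) l l‖ ≤ ∫ ξ : V n, rho ξ * C := by
        refine norm_integral_le_of_norm_le (rho_integrable.mul_const C)
          (Eventually.of_forall fun ξ => ?_)
        rw [norm_mul, Complex.norm_real, Real.norm_eq_abs, abs_of_nonneg (rho_nonneg ξ)]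
        by_cases hξ : ‖ξ‖ ≤ 1
        · refine mul_le_mul_of_nonneg_left (hC _ (hs _ ?_) l l) (rho_nonneg ξ)
          rw [sc_apply, Metric.mem_closedBall, dist_eq_norm, add_sub_cancel_left, norm_smul,
            Complex.norm_real, Real.norm_eq_abs, abs_of_nonneg hε.le]
          nlinarith [norm_nonneg ξ]
        · rw [rho_eq_zero (not_le.1 hξ).le, zero_mul, zero_mul]
    _ = C := by rw [integral_mul_const, integral_rho, one_mul]

private theorem growth67 (hΩ : IsOpen Ω) (h : BH Ω u H) {K : Set (V n)} (hK : K ⊆ Ω)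
    (hKc : IsCompact K) : ∃ C R : ℝ, 0 ≤ C ∧ 0 < R ∧ K ⊆ shr Ω R ∧ ∀ z ∈ K, ∀ s t : ℝ, 0 < s →
      s ≤ t → t < R → Phi u z t - Phi u z s ≤ C * t ^ 2 := by
  obtain ⟨C, R, hR, hKR, hb⟩ := BH_bound67 hΩ h hK hKc
  refine ⟨max C 0, R / 2, le_max_right _ _, half_pos hR, ?_, ?_⟩
  · exact fun z hz y hy => hKR hz (Metric.closedBall_subset_closedBall (by linarith) hy)
  intro z hz s t hs hst htR
  have ht : 0 < t := hs.trans_le hst
  have hzt : z ∈ shr Ω t := fun y hy =>
    hKR hz (Metric.closedBall_subset_closedBall (by linarith) hy)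
  have hzs : z ∈ shr Ω s := fun y hy => hzt (Metric.closedBall_subset_closedBall hst hy)
  have l1 := tendsto_Phi_mollify hΩ h.int ht hzt
  have l2 := tendsto_Phi_mollify hΩ h.int hs hzs
  refine le_of_tendsto (l1.sub l2) ?_
  filter_upwards [Ioo_mem_nhdsGT (half_pos hR)] with ε hε
  have hε0 : 0 < ε := hε.1
  set q : V n → ℝ := fun y => Phi u y ε with hq
  have hqs : ContDiffOn ℝ 2 q (shr Ω ε) := by
    exact_mod_cast contDiffOn_infty.1 (contDiffOn_Phi_left hΩ h.int hε0) 2
  have hball : ∀ τ ≤ t, ∀ y ∈ Metric.closedBall z τ, y ∈ Metric.thickening R K := by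
    intro τ hτ y hy
    refine Metric.mem_thickening_iff.2 ⟨z, hz, ?_⟩
    have := Metric.mem_closedBall.1 hy
    linarith
  have hmem : ∀ τ ≤ t, z ∈ shr (shr Ω ε) τ := fun τ hτ y hy =>
    (hb ε hε0 (by linarith [hε.2]) y (hball τ hτ y hy)).1
  have hDc := DA_cont67 (isOpen_shr hΩ ε) hqs 1
  have hd : ∀ τ ∈ Icc (0 : ℝ) t, HasDerivAt (fun s => Phi q z s) (2 * τ * M1 (sc τ) (DA 1 q) z) τ :=
    fun τ hτ => hasDerivAt_Phi (isOpen_shr hΩ ε) hqs hτ.1 (hmem τ hτ.2)
  have hM : ∀ τ ∈ Icc (0 : ℝ) t, M1 (sc τ) (DA 1 q) z ≤ aa n * C := by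
    intro τ hτ
    unfold M1 aa
    rw [← integral_mul_const]
    have hin : ∀ ξ : V n, ‖ξ‖ ≤ 1 → z + (sc τ : Lin n) ξ ∈ Metric.closedBall z τ := by
      intro ξ hξ
      rw [sc_apply, Metric.mem_closedBall, dist_eq_norm, add_sub_cancel_left, norm_smul,
        Complex.norm_real, Real.norm_eq_abs, abs_of_nonneg hτ.1]
      nlinarith [norm_nonneg ξ, hτ.1]
    refine integral_mono (int_rho1_67 (sc τ) z fun ξ hξ => ?_) (rho1_integrable.mul_const C)
      fun ξ => ?_
    · exact hDc.continuousAt ((isOpen_shr hΩ ε).mem_nhds (hmem τ hτ.2 (hin ξ hξ)))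
    · simp only
      by_cases hξ : ‖ξ‖ ≤ 1
      · exact mul_le_mul_of_nonneg_left (hb ε hε0 (by linarith [hε.2]) _
          (hball τ hτ.2 _ (hin ξ hξ))).2 (rho1_nonneg ξ)
      · rw [rho1_eq_zero (not_le.1 hξ).le, zero_mul, zero_mul]
  have haa := aa_pos (n := n)
  have haa1 := aa_le_one (n := n)
  have hanti : AntitoneOn (fun τ => Phi q z τ - max C 0 * τ ^ 2) (Icc 0 t) := by
    refine antitoneOn_of_hasDerivWithinAt_nonpos (convex_Icc 0 t) ?_
      (f' := fun τ => 2 * τ * M1 (sc τ) (DA 1 q) z - max C 0 * (2 * τ)) ?_ ?_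
    · intro τ hτ
      exact ((hd τ hτ).continuousAt.sub (by fun_prop)).continuousWithinAt
    · intro τ hτ
      rw [interior_Icc] at hτ
      have h2 : HasDerivAt (fun s : ℝ => max C 0 * s ^ 2) (max C 0 * (2 * τ)) τ := by
        have := ((hasDerivAt_id τ).pow 2).const_mul (max C 0)
        simpa using this
      exact ((hd τ ⟨hτ.1.le, hτ.2.le⟩).sub h2).hasDerivWithinAt
    · intro τ hτ
      rw [interior_Icc] at hτ
      have h2 := hM τ ⟨hτ.1.le, hτ.2.le⟩
      have h3 : aa n * C ≤ max C 0 := by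
        calc aa n * C ≤ aa n * max C 0 := mul_le_mul_of_nonneg_left (le_max_left _ _) haa.le
          _ ≤ 1 * max C 0 := mul_le_mul_of_nonneg_right haa1 (le_max_right _ _)
          _ = max C 0 := one_mul _
      have h4 := hτ.1
      nlinarith [mul_le_mul_of_nonneg_left (h2.trans h3) h4.le]
  have h5 := hanti ⟨hs.le, hst⟩ ⟨ht.le, le_rfl⟩ hst
  simp only at h5
  have h6 : 0 ≤ max C 0 * s ^ 2 := mul_nonneg (le_max_right _ _) (sq_nonneg s)
  simp only [hq] at h5 ⊢
  linarith

/-- the means approximate quadratically, and `u` is a.e. equal to a continuous function -/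
theorem BH.exists_continuous (hΩ : IsOpen Ω) (h : BH Ω u H) :
    ∃ v : V n → ℝ, ContinuousOn v Ω ∧ (∀ᵐ z, z ∈ Ω → u z = v z) ∧
      (∀ z ∈ Ω, Tendsto (fun t => Phi u z t) (𝓝[>] 0) (𝓝 (v z))) ∧
      ∀ K ⊆ Ω, IsCompact K → ∃ C r₀ : ℝ, 0 < r₀ ∧ ∀ z ∈ K, ∀ t, 0 < t → t ≤ r₀ →
        0 ≤ Phi u z t - v z ∧ Phi u z t - v z ≤ C * t ^ 2 := by
  have hpsh := h.pshd hΩ
  have hex : ∀ z ∈ Ω, ∃ L, Tendsto (fun t => Phi u z t) (𝓝[>] 0) (𝓝 L) := by
    intro z hz
    obtain ⟨C, R, hC, hR, hKR, hb⟩ := growth67 hΩ h (singleton_subset_iff.2 hz) isCompact_singleton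
    have hzR : z ∈ shr Ω R := hKR rfl
    have hmono : MonotoneOn (fun t => Phi u z t) (Ioo 0 R) := by
      intro s hs t ht hst
      exact Phi_mono_radius hΩ hpsh hs.1 hst fun y hy =>
        hzR (Metric.closedBall_subset_closedBall ht.2.le hy)
    have hbdd : BddBelow ((fun t => Phi u z t) '' Ioo 0 R) := by
      refine ⟨Phi u z (R / 2) - C * R ^ 2, ?_⟩
      rintro _ ⟨t, ht, rfl⟩
      simp only
      rcases le_total t (R / 2) with h1 | h1
      · have h2 := hb z rfl t (R / 2) ht.1 h1 (half_lt_self hR)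
        have h3 : C * (R / 2) ^ 2 ≤ C * R ^ 2 := by
          apply mul_le_mul_of_nonneg_left _ hC
          nlinarith
        linarith
      · have h2 := hmono ⟨half_pos hR, half_lt_self hR⟩ ht h1
        simp only at h2
        have h3 : 0 ≤ C * R ^ 2 := mul_nonneg hC (sq_nonneg R)
        linarith
    exact ⟨_, hmono.tendsto_nhdsWithin_Ioo_right ⟨R / 2, half_pos hR, half_lt_self hR⟩ hbdd⟩
  set v : V n → ℝ := fun z => limUnder (𝓝[>] (0 : ℝ)) fun t => Phi u z t with hv
  have hlim : ∀ z ∈ Ω, Tendsto (fun t => Phi u z t) (𝓝[>] 0) (𝓝 (v z)) := fun z hz =>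
    tendsto_nhds_limUnder (hex z hz)
  have hest : ∀ K ⊆ Ω, IsCompact K → ∃ C r₀ : ℝ, 0 < r₀ ∧ K ⊆ shr Ω r₀ ∧
      ∀ z ∈ K, ∀ t, 0 < t → t ≤ r₀ →
        0 ≤ Phi u z t - v z ∧ Phi u z t - v z ≤ C * t ^ 2 := by
    intro K hK hKc
    obtain ⟨C, R, hC, hR, hKR, hb⟩ := growth67 hΩ h hK hKc
    refine ⟨C, R / 2, half_pos hR, fun z hz y hy =>
      hKR hz (Metric.closedBall_subset_closedBall (by linarith) hy), fun z hz t ht htR => ?_⟩
    have hev : ∀ᶠ s in 𝓝[>] (0 : ℝ), 0 < s ∧ s ≤ t := by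
      filter_upwards [Ioo_mem_nhdsGT ht] with s hs
      exact ⟨hs.1, hs.2.le⟩
    constructor
    · rw [sub_nonneg]
      refine le_of_tendsto (hlim z (hK hz)) ?_
      filter_upwards [hev] with s hs
      exact Phi_mono_radius hΩ hpsh hs.1 hs.2 fun y hy =>
        hKR hz (Metric.closedBall_subset_closedBall (by linarith) hy)
    · refine le_of_tendsto ((hlim z (hK hz)).const_sub _) ?_
      filter_upwards [hev] with s hs
      exact hb z hz s t hs.1 hs.2 (by linarith)
  refine ⟨v, ?_, ?_, hlim, fun K hK hKc => ?_⟩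
  · intro z₀ hz₀
    obtain ⟨r, hr, hrΩ⟩ := Metric.nhds_basis_closedBall.mem_iff.1 (hΩ.mem_nhds hz₀)
    obtain ⟨C, r₀, hr₀, hKr, hb⟩ := hest _ hrΩ (isCompact_closedBall z₀ r)
    have hunif : TendstoUniformlyOn (fun t z => Phi u z t) v (𝓝[>] 0) (Metric.closedBall z₀ r) := by
      rw [Metric.tendstoUniformlyOn_iff]
      intro ε hε
      have h1 : Tendsto (fun t : ℝ => C * t ^ 2) (𝓝[>] 0) (𝓝 0) := by
        have : Tendsto (fun t : ℝ => C * t ^ 2) (𝓝 0) (𝓝 (C * 0 ^ 2)) := by
          exact Continuous.tendsto (by fun_prop) 0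
        simpa using this.mono_left nhdsWithin_le_nhds
      filter_upwards [h1.eventually (gt_mem_nhds hε), Ioo_mem_nhdsGT hr₀] with t ht1 ht2 z hz
      obtain ⟨h2, h3⟩ := hb z hz t ht2.1 ht2.2.le
      rw [Real.dist_eq, abs_sub_comm, abs_of_nonneg h2]
      exact lt_of_le_of_lt h3 ht1
    have hcont : ∀ᶠ t in 𝓝[>] (0 : ℝ), ContinuousOn (fun z => Phi u z t) (Metric.closedBall z₀ r) := by
      filter_upwards [Ioo_mem_nhdsGT hr₀] with t ht
      refine (contDiffOn_Phi_left hΩ h.int ht.1).continuousOn.mono fun z hz y hy => ?_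
      exact hKr hz (Metric.closedBall_subset_closedBall ht.2.le hy)
    exact ((hunif.continuousOn hcont.frequently).continuousAt
      (Metric.closedBall_mem_nhds z₀ hr)).continuousWithinAt
  · filter_upwards [ae_tendsto_Phi hΩ h.int] with z hz hzΩ
    exact tendsto_nhds_unique (hz hzΩ) (hlim z hzΩ)
  · obtain ⟨C, r₀, hr₀, -, hb⟩ := hest K hK hKc
    exact ⟨C, r₀, hr₀, hb⟩

end Pool.Agent.Helper29.AM
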