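import Pool.Agent.Helper29.AM.CV2
import Pool.Agent.Helper29.AM.GS5
import Pool.Agent.Helper13.AM.P6
import Pool.Agent.Helper32.Hol
import Pool.Agent.Helper29.AM.GA2

/-!
# Block AM-CV3: `θ`-psh functions in the adapted atlas; canonical representatives

`Adapted.psh`: in the chart `e₀` of `A.e k` the function `θ.g i + φ` is psh on `img e₀ (θ.U i)`
(`Form.Psh`); compose with the transition map (`PSH.mono`, `PSH.comp`, `PSH.congr`).
`Adapted.psh_of`: near `x`, in the chart `e`, `θ.g i + φ = (A.g k + φ)∘κ + (θ.g i - A.g k∘κ)`, the last term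
is smooth and pluriharmonic (`lev_sub`), so `SPsh.psh'` and `PSH.add`, then `PSH.of_local`.
`exists_rep`: let `u i` be the psh representative of `pot i v` on `B3` (`exists_psh_of_pshd`). On the overlap
of two charts `u i` and `u j ∘ κ + (g i - g j ∘ κ)` are psh and agree a.e. (`pot_comp`), hence everywhere
(`PSH.eq_of_ae_eq`). So `v' x := u i (A.e i x) - g i (A.e i x)`, for any `i` with `‖A.e i x‖ < 3`, is well
defined.
-/

set_option autoImplicit false

namespace Pool.Agent.Helper29.AM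

open MeasureTheory Set Filter Topology
open scoped Manifold ContDiff ENNReal
open Pool.Agent.Helper13.AM

section Loc

variable {n : ℕ} {Ω Ω' W W' : Set (V n)}

private theorem Bih.symm76 {κ κi : V n → V n} (h : Bih Ω' Ω κ κi) : Bih Ω Ω' κi κ :=
  ⟨h.open2, h.open1, h.hol', h.hol, h.maps', h.maps, h.right, h.left⟩

private theorem Bih.restr76 {κ κi : V n → V n} (h : Bih Ω' Ω κ κi) (h1 : IsOpen W') (h2 : IsOpen W)
    (hs' : W' ⊆ Ω') (hs : W ⊆ Ω) (hm : MapsTo κ W' W) (hm' : MapsTo κi W W') : Bih W' W κ κi :=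
  ⟨h1, h2, h.hol.mono hs', h.hol'.mono hs, hm, hm', fun z hz => h.left z (hs' hz),
    fun z hz => h.right z (hs hz)⟩

private theorem Bih.comp_smooth76 {κ κi : V n → V n} (h : Bih Ω' Ω κ κi) {q : V n → ℝ}
    (hq : ContDiffOn ℝ (⊤ : ℕ∞) q Ω) : ContDiffOn ℝ (⊤ : ℕ∞) (fun z => q (κ z)) Ω' :=
  hq.comp (Pool.Agent.Helper32.contDiffOn_hol_real h.open1 h.hol) h.maps

private theorem Bih.comp_lev76 {κ κi : V n → V n} (h : Bih Ω' Ω κ κi) {q : V n → ℝ}
    (hq : ContDiffOn ℝ (⊤ : ℕ∞) q Ω) (hl : ∀ z ∈ Ω, ∀ w, lev q z w = 0) :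
    ∀ z ∈ Ω', ∀ w, lev (fun y => q (κ y)) z w = 0 := by
  intro z hz w
  have h1 : ContDiffAt ℂ 2 κ z := by
    have := Pool.Agent.Helper32.contDiffAt_hol (n := 2) h.open1 h.hol hz
    exact_mod_cast this
  have h2 : ContDiffAt ℝ 2 q (κ z) :=
    (hq.contDiffAt (h.open2.mem_nhds (h.maps hz))).of_le
      (WithTop.coe_le_coe.2 (le_top (a := (2 : ℕ∞))))
  rw [lev_comp_holo h1 h2]
  exact hl _ (h.maps hz) _

private theorem lev_congr_nhds76 {u v : V n → ℝ} {z : V n} (h : u =ᶠ[𝓝 z] v) (w : V n) :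
    lev u z w = lev v z w := by
  unfold lev D2
  have h1 : fderiv ℝ u =ᶠ[𝓝 z] fderiv ℝ v := h.fderiv
  rw [h1.fderiv_eq]

private theorem lev_neg76 {u : V n → ℝ} {z : V n} (w : V n) :
    lev (fun y => - u y) z w = - lev u z w := by
  unfold lev D2
  have h1 : fderiv ℝ (fun y => - u y) = fun y => - fderiv ℝ u y := by
    funext y
    exact fderiv_fun_neg
  rw [h1, fderiv_fun_neg]
  simp only [ContinuousLinearMap.neg_apply]
  ring

/-- a psh function plus a smooth pluriharmonic function -/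
private theorem psh_add_ph76 (hΩ : IsOpen Ω) {u : V n → EReal} (hu : PSH Ω u) {h : V n → ℝ}
    (hh : ContDiffOn ℝ (⊤ : ℕ∞) h Ω) (hl : ∀ z ∈ Ω, ∀ w, lev h z w = 0) :
    PSH Ω (fun z => (h z : EReal) + u z) :=
  PSH.add hΩ (SPsh.psh' hΩ ⟨hh, fun z hz w => (hl z hz w).ge⟩) hu

end Loc

variable {n N : ℕ} {X : Type} [TopologicalSpace X] [ChartedSpace (V n) X] [MeasurableSpace X]
  {θ : Form n X} {A : Atl X n N} [IsManifold 𝓘(ℂ, V n) ω X]

theorem Adapted.psh (hA : Adapted θ A) {φ : X → EReal} (hφ : θ.Psh φ) (k : Fin N) :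
    PSH (A.e k).target fun z => (A.g k z : EReal) + φ ((A.e k).symm z) := by
  obtain ⟨e₀, he₀, i, c, r, hr, hsrc, hx, hg⟩ := hA.chart k
  have hb := hA.bih k he₀
  have h1 : ((A.e k).symm.trans e₀).source = (A.e k).target := by
    ext z
    constructor
    · intro hz
      exact hz.1
    · intro hz
      exact ⟨hz, (hsrc ((A.e k).map_target hz)).1⟩
  have h2 : ((A.e k).symm.trans e₀).target ⊆ img e₀ (θ.U i) := by
    intro z hz
    refine ⟨hz.1, ?_⟩
    have h3 : e₀.symm z ∈ (A.e k).source := hz.2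
    exact (hsrc h3).2
  rw [h1] at hb
  have h3 := ((hφ i e₀ he₀).mono h2).comp hb
  refine h3.congr fun z hz => ?_
  have h4 : (A.e k).symm z ∈ e₀.source := (hsrc ((A.e k).map_target hz)).1
  rw [e₀.left_inv h4, hg z hz]

theorem Adapted.psh_of (hA : Adapted θ A) {φ : X → EReal}
    (h : ∀ x, ∃ (k : Fin N) (W : Set (V n)), IsOpen W ∧ W ⊆ (A.e k).target ∧ x ∈ (A.e k).source ∧
      A.e k x ∈ W ∧ PSH W fun z => (A.g k z : EReal) + φ ((A.e k).symm z)) : θ.Psh φ := by
  intro i e he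
  have hopen : IsOpen (img e (θ.U i)) := isOpen_img e (θ.isOpen i)
  refine PSH.of_local hopen fun z₀ hz₀ => ?_
  obtain ⟨k, W, hW, hWt, hxs, hxW, hpsh⟩ := h (e.symm z₀)
  have hb := (hA.bih k he).symm76
  -- the open set in `X`
  have hO : IsOpen ((A.e k).source ∩ (A.e k) ⁻¹' W) := (A.e k).isOpen_inter_preimage hW
  set O : Set X := e.source ∩ θ.U i ∩ ((A.e k).source ∩ (A.e k) ⁻¹' W) with hOdef
  have hOo : IsOpen O := (e.open_source.inter (θ.isOpen i)).inter hO
  have hΩ2 : IsOpen (img e O) := isOpen_img e hOo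
  have hΩ3 : IsOpen (img (A.e k) O) := isOpen_img (A.e k) hOo
  have hz2 : z₀ ∈ img e O :=
    ⟨hz₀.1, ⟨⟨e.map_target hz₀.1, hz₀.2⟩, hxs, hxW⟩⟩
  have hbb : Bih (img e O) (img (A.e k) O) (fun z => A.e k (e.symm z))
      (fun z => e ((A.e k).symm z)) := by
    refine hb.restr76 hΩ2 hΩ3 ?_ ?_ ?_ ?_
    · intro z hz
      rw [OpenPartialHomeomorph.trans_target]
      exact ⟨hz.1, hz.2.2.1⟩
    · intro z hz
      exact ⟨hz.1, hz.2.1.1⟩
    · intro z hz
      refine ⟨(A.e k).map_source hz.2.2.1, ?_⟩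
      change (A.e k).symm (A.e k (e.symm z)) ∈ O
      rw [(A.e k).left_inv hz.2.2.1]
      exact hz.2
    · intro z hz
      refine ⟨e.map_source hz.2.1.1, ?_⟩
      change e.symm (e ((A.e k).symm z)) ∈ O
      rw [e.left_inv hz.2.1.1]
      exact hz.2
  have hsubW : img (A.e k) O ⊆ W := by
    intro z hz
    have h1 := hz.2.2.2
    rw [mem_preimage, (A.e k).right_inv hz.1] at h1
    exact h1
  have h3 := (hpsh.mono hsubW).comp hbb
  -- the pluriharmonic difference
  have hq : ContDiffOn ℝ (⊤ : ℕ∞) (fun y => A.g k y - θ.g i ((A.e k).symm y)) (img (A.e k) O) := by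
    refine ((A.g_smooth k).mono fun z hz => hz.1).sub
      ((hA.contDiffOn (θ.isOpen i) (θ.smooth i) k).mono fun z hz => ⟨hz.1, hz.2.1.2⟩)
  have hl : ∀ z ∈ img (A.e k) O, ∀ w, lev (fun y => A.g k y - θ.g i ((A.e k).symm y)) z w = 0 :=
    fun z hz w => hA.lev_sub k i z ⟨hz.1, hz.2.1.2⟩ w
  have hq2 := (hbb.comp_smooth76 hq).neg
  have hl2 : ∀ z ∈ img e O, ∀ w, lev (fun y => -(A.g k (A.e k (e.symm y)) -
      θ.g i ((A.e k).symm (A.e k (e.symm y))))) z w = 0 := by
    intro z hz w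
    rw [lev_neg76, hbb.comp_lev76 hq hl z hz w, neg_zero]
  have h4 := psh_add_ph76 hΩ2 h3 hq2 hl2
  refine ⟨img e O, hΩ2, hz2, h4.congr fun z hz => ?_⟩
  rw [(A.e k).left_inv hz.2.2.1, ← add_assoc, ← EReal.coe_add]
  congr 2
  ring

/-- the canonical representative of a distributional `θ`-psh function -/
theorem Adapted.exists_rep [BorelSpace X] (hA : Adapted θ A) {v : X → ℝ} (hv : A.PSX v) :
    ∃ v' : X → EReal, θ.Psh v' ∧ ∀ᵐ x ∂A.μ, v' x = (v x : EReal) := by
  classical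
  have h0 : ∀ k, ∃ u : V n → EReal, PSH (A.e k).target u ∧
      ∀ᵐ z, z ∈ (A.e k).target → u z = (A.pot k v z : EReal) := fun k => by
    obtain ⟨u, h1, h2, _⟩ := exists_psh_of_pshd (A.e k).open_target (Atl.PSX.target A hv k)
    exact ⟨u, h1, h2⟩
  choose u hu hua using h0
  -- compatibility
  have hcomp : ∀ i j, ∀ z ∈ ((A.e i).symm.trans (A.e j)).source,
      u i z = ((A.g i z - A.g j (A.e j ((A.e i).symm z)) : ℝ) : EReal) +
        u j (A.e j ((A.e i).symm z)) := by
    intro i j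
    have hb := A.bih i j
    have hs1 : ((A.e i).symm.trans (A.e j)).source ⊆ (A.e i).target := fun z hz => hz.1
    have hs2 : ((A.e i).symm.trans (A.e j)).target ⊆ (A.e j).target := fun z hz => hz.1
    have hsm : ContDiffOn ℝ (⊤ : ℕ∞) (fun z => A.g i z - A.g j (A.e j ((A.e i).symm z)))
        ((A.e i).symm.trans (A.e j)).source :=
      ((A.g_smooth i).mono hs1).sub (hb.comp_smooth76 ((A.g_smooth j).mono hs2))
    have hlv : ∀ z ∈ ((A.e i).symm.trans (A.e j)).source, ∀ w,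
        lev (fun z => A.g i z - A.g j (A.e j ((A.e i).symm z))) z w = 0 := by
      intro z hz w
      have h1 := A.g_compat i j z hz w
      have h2 : (fun z => A.g i z - A.g j (A.e j ((A.e i).symm z))) =
          fun z => -(A.g j (A.e j ((A.e i).symm z)) - A.g i z) := by
        funext y
        ring
      rw [h2, lev_neg76, h1, neg_zero]
    refine PSH.eq_of_ae_eq hb.open1 ((hu i).mono hs1)
      (psh_add_ph76 hb.open1 (((hu j).mono hs2).comp hb) hsm hlv) ?_
    have h1 : ∀ᵐ z, z ∈ ((A.e i).symm.trans (A.e j)).source →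
        u j (A.e j ((A.e i).symm z)) = (A.pot j v (A.e j ((A.e i).symm z)) : EReal) := by
      refine hb.ae (p := fun y => u j y = (A.pot j v y : EReal)) ?_
      filter_upwards [hua j] with y hy hy'
      exact hy (hs2 hy')
    filter_upwards [h1, hua i] with z hz1 hz2 hz
    rw [hz1 hz, hz2 (hs1 hz), ← EReal.coe_add, A.pot_comp i j v hz]
    congr 1
    ring
  -- the choice of a chart
  choose kk hk1 _ using A.cover
  set v' : X → EReal := fun x => ((-A.g (kk x) (A.e (kk x) x) : ℝ) : EReal) +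
    u (kk x) (A.e (kk x) x) with hv'
  have hv'j : ∀ (j : Fin N) (z : V n), z ∈ (A.e j).target →
      v' ((A.e j).symm z) = ((-A.g j z : ℝ) : EReal) + u j z := by
    intro j z hz
    obtain ⟨x, hx⟩ : ∃ x, x = (A.e j).symm z := ⟨_, rfl⟩
    have hxj : x ∈ (A.e j).source := by
      rw [hx]
      exact (A.e j).map_target hz
    have hz' : A.e j x = z := by
      rw [hx]
      exact (A.e j).right_inv hz
    rw [← hx]
    have hmem : A.e (kk x) x ∈ ((A.e (kk x)).symm.trans (A.e j)).source := by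
      refine ⟨(A.e (kk x)).map_source (hk1 x), ?_⟩
      change (A.e (kk x)).symm (A.e (kk x) x) ∈ (A.e j).source
      rw [(A.e (kk x)).left_inv (hk1 x)]
      exact hxj
    have h1 := hcomp (kk x) j _ hmem
    rw [(A.e (kk x)).left_inv (hk1 x), hz'] at h1
    rw [hv']
    simp only
    rw [h1, ← add_assoc, ← EReal.coe_add]
    congr 2
    ring
  have hgv : ∀ (j : Fin N) (z : V n), z ∈ (A.e j).target →
      (A.g j z : EReal) + v' ((A.e j).symm z) = u j z := by
    intro j z hz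
    rw [hv'j j z hz, ← add_assoc, ← EReal.coe_add, add_neg_cancel, EReal.coe_zero, zero_add]
  refine ⟨v', ?_, ?_⟩
  · refine hA.psh_of fun x => ?_
    obtain ⟨k, hk, _⟩ := A.cover x
    refine ⟨k, (A.e k).target, (A.e k).open_target, subset_rfl, hk, (A.e k).map_source hk, ?_⟩
    exact (hu k).congr fun z hz => (hgv k z hz).symm
  · rw [A.ae_iff]
    intro i
    filter_upwards [hua i] with z hz hzB
    have hzt := A.B3_subset i hzB
    rw [hv'j i z hzt, hz hzt, ← EReal.coe_add]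
    congr 1
    unfold Atl.pot Atl.lc
    ring

end Pool.Agent.Helper29.AM
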