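import Pool.Agent.Helper29.AM.CV2
import Pool.Agent.Helper29.AM.GA2
import Pool.Agent.Helper13.AM.P3

/-!
# Block AM-CV4: a Kähler current in the adapted atlas

Near `x`, in the chart `e`, `θ.g i - ε‖·‖² + ψ` is psh. With `κ = e ∘ (A.e k)⁻¹`,
`A.g k + ψ - ε'‖z‖² = (θ.g i - ε‖·‖² + ψ) ∘ κ + (A.g k - θ.g i) + (ε‖κ z‖² - ε'‖z‖²)`; the second term is
pluriharmonic, the third one is psh near the point for small `ε' > 0`. Compactness gives a uniform `ε'`,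
`exists_KCX_const` (GA2) the statement in all charts.
-/

set_option autoImplicit false

namespace Pool.Agent.Helper29.AM

open MeasureTheory Set Filter Topology
open scoped Manifold ContDiff ENNReal
open Pool.Agent.Helper13.AM

variable {n N : ℕ} {X : Type} [TopologicalSpace X] [ChartedSpace (V n) X] [MeasurableSpace X]
  {θ : Form n X} {A : Atl X n N}

private theorem two_le49 : (2 : WithTop ℕ∞) ≤ ((⊤ : ℕ∞) : WithTop ℕ∞) := by
  have h : ((2 : ℕ∞) : WithTop ℕ∞) ≤ ((⊤ : ℕ∞) : WithTop ℕ∞) := WithTop.coe_le_coe.2 le_top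
  exact h

private theorem bih_restr49 {Ω' Ω : Set (V n)} {κ κi : V n → V n} (h : Bih Ω' Ω κ κi) {W : Set (V n)}
    (hW : IsOpen W) (hs : W ⊆ Ω') : Bih W (Ω ∩ κi ⁻¹' W) κ κi := by
  refine ⟨hW, h.hol'.continuousOn.isOpen_inter_preimage h.open2 hW, h.hol.mono hs,
    h.hol'.mono inter_subset_left, fun z hz => ⟨h.maps (hs hz), ?_⟩, fun z hz => hz.2,
    fun z hz => h.left z (hs hz), fun z hz => h.right z hz.1⟩
  show κi (κ z) ∈ W
  rw [h.left z (hs hz)]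
  exact hz

private theorem bih_fd49 {Ω' Ω : Set (V n)} {κ κi : V n → V n} (h : Bih Ω' Ω κ κi) {z : V n}
    (hz : z ∈ Ω') (w : V n) : fderiv ℂ κi (κ z) (fderiv ℂ κ z w) = w := by
  have h1 : HasFDerivAt κ (fderiv ℂ κ z) z :=
    (h.hol.differentiableAt (h.open1.mem_nhds hz)).hasFDerivAt
  have h2 : HasFDerivAt κi (fderiv ℂ κi (κ z)) (κ z) :=
    (h.hol'.differentiableAt (h.open2.mem_nhds (h.maps hz))).hasFDerivAt
  have h3 := h2.comp z h1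
  have h4 : HasFDerivAt (κi ∘ κ) (ContinuousLinearMap.id ℂ (V n)) z := by
    apply (hasFDerivAt_id z).congr_of_eventuallyEq
    filter_upwards [h.open1.mem_nhds hz] with y hy
    exact h.left y hy
  have h5 := h3.unique h4
  exact congrArg (fun T : V n →L[ℂ] V n => T w) h5

private theorem nsq_lev49 (z w : V n) : lev (fun z : V n => ‖z‖ ^ 2) z w = ‖w‖ ^ 2 := by
  have := lev_normSq (z := z) (0 : V n) w
  simp only [sub_zero] at this
  exact this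

private theorem psh_nsq49 {W : Set (V n)} (hW : IsOpen W) {c : ℝ} (hc : 0 ≤ c) :
    PSHd W fun z : V n => c * ‖z‖ ^ 2 := by
  refine SPsh.pshd hW ⟨(contDiff_const.mul (contDiff_norm_sq ℝ)).contDiffOn, fun z _ v => ?_⟩
  rw [lev_const_mul c (contDiff_norm_sq ℝ).contDiffAt, nsq_lev49]
  positivity

private theorem local49 [IsManifold 𝓘(ℂ, V n) ω X] (hA : Adapted θ A) {ψ : X → EReal}
    (h : θ.KahlerCurrent ψ) (x : X) : ∃ ε : ℝ, 0 < ε ∧ ∃ i, ∃ W : Set (V n), IsOpen W ∧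
      W ⊆ Metric.ball 0 3 ∧ x ∈ (A.e i).source ∧ A.e i x ∈ W ∧
      PSHd W fun z => A.pot i (fun y => (ψ y).toReal) z - ε * ‖z‖ ^ 2 := by
  obtain ⟨i₀, e, he, W₀, hW₀, hxW₀, hsub, ε₀, hε₀, hP⟩ := h x
  obtain ⟨k, hxk, hx1⟩ := A.cover x
  obtain ⟨κ, hκ⟩ : ∃ κ : V n → V n, κ = fun z => e ((A.e k).symm z) := ⟨_, rfl⟩
  obtain ⟨κi, hκi⟩ : ∃ κi : V n → V n, κi = fun z => A.e k (e.symm z) := ⟨_, rfl⟩
  have hb : Bih ((A.e k).symm.trans e).source ((A.e k).symm.trans e).target κ κi := by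
    rw [hκ, hκi]
    exact hA.bih k he
  obtain ⟨z₀, hz₀⟩ : ∃ z₀ : V n, z₀ = A.e k x := ⟨_, rfl⟩
  have hxz : (A.e k).symm z₀ = x := by rw [hz₀, (A.e k).left_inv hxk]
  have hz₀t : z₀ ∈ (A.e k).target := hz₀ ▸ (A.e k).map_source hxk
  have hz₀s : z₀ ∈ ((A.e k).symm.trans e).source := by
    refine ⟨hz₀t, ?_⟩
    show (A.e k).symm z₀ ∈ e.source
    rw [hxz]
    exact (hsub hxW₀).1
  have hκc : ContinuousAt κ z₀ := hb.hol.continuousOn.continuousAt (hb.open1.mem_nhds hz₀s)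
  have hκz : κ z₀ = e x := by rw [hκ]; simp only [hxz]
  have himg : IsOpen (img e W₀) := isOpen_img e hW₀
  have hκimg : κ z₀ ∈ img e W₀ := by
    rw [hκz]
    refine ⟨e.map_source (hsub hxW₀).1, ?_⟩
    show e.symm (e x) ∈ W₀
    rw [e.left_inv (hsub hxW₀).1]
    exact hxW₀
  obtain ⟨L, hL⟩ : ∃ L : ℝ, L = ‖fderiv ℂ κi (κ z₀)‖ + 1 := ⟨_, rfl⟩
  have hL0 : 0 < L := by rw [hL]; positivity
  have hev1 : ∀ᶠ z in 𝓝 z₀, ‖fderiv ℂ κi (κ z)‖ < L := by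
    have h1 : ContinuousAt (fderiv ℂ κi) (κ z₀) :=
      ((Helper32.contDiffAt_hol (n := 1) hb.open2 hb.hol' (hb.maps hz₀s)).fderiv_right
        (m := 0) (by norm_num)).continuousAt
    have h2 : ContinuousAt (fun z => ‖fderiv ℂ κi (κ z)‖) z₀ :=
      (ContinuousAt.comp (g := fderiv ℂ κi) (f := κ) h1 hκc).norm
    exact h2.eventually_lt continuousAt_const (by rw [hL]; linarith)
  have hev2 : ∀ᶠ z in 𝓝 z₀, κ z ∈ img e W₀ := hκc.eventually (himg.mem_nhds hκimg)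
  have hev3 : ∀ᶠ z in 𝓝 z₀, z ∈ ((A.e k).symm.trans e).source := hb.open1.mem_nhds hz₀s
  have hev4 : ∀ᶠ z in 𝓝 z₀, z ∈ Metric.ball (0 : V n) 3 :=
    Metric.isOpen_ball.mem_nhds (by rw [mem_ball_zero_iff, hz₀]; linarith)
  obtain ⟨W, hWp, hW, hzW⟩ := eventually_nhds_iff.1 ((hev1.and hev2).and (hev3.and hev4))
  have hWs : W ⊆ ((A.e k).symm.trans e).source := fun z hz => (hWp z hz).2.1
  have hsm : ∀ z ∈ W, e.symm (κ z) = (A.e k).symm z := by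
    intro z hz
    rw [hκ]
    exact e.left_inv (hWs hz).2
  have hU : ∀ z ∈ W, z ∈ img (A.e k) (θ.U i₀) := by
    intro z hz
    refine ⟨(hWs hz).1, ?_⟩
    show (A.e k).symm z ∈ θ.U i₀
    rw [← hsm z hz]
    exact (hsub (hWp z hz).1.2.2).2
  have hb' := bih_restr49 hb hW hWs
  have hWW : ((A.e k).symm.trans e).target ∩ κi ⁻¹' W ⊆ img e W₀ := by
    intro y hy
    have h1 := (hWp (κi y) hy.2).1.2
    rwa [hb.right y hy.1] at h1
  -- the psh function in the chart `e`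
  have h1 : PSHd (((A.e k).symm.trans e).target ∩ κi ⁻¹' W)
      (fun z => θ.g i₀ (e.symm z) - ε₀ * ‖z‖ ^ 2 + (ψ (e.symm z)).toReal) := by
    have h2 : PSHd (((A.e k).symm.trans e).target ∩ κi ⁻¹' W) (fun z =>
        (((θ.g i₀ (e.symm z) - ε₀ * ‖z‖ ^ 2 : ℝ) : EReal) + ψ (e.symm z)).toReal) :=
      GS.mono_set (hP.pshd himg) hb'.open2 hWW
    refine GS.congr h2 hb'.open2 ?_
    filter_upwards [hP.ae_bot] with z hz hzW
    have h3 := hz (hWW hzW)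
    have h4 := hP.lt_top z (hWW hzW)
    induction h5 : ψ (e.symm z) with
    | bot => rw [h5] at h3; simp at h3
    | top =>
      rw [h5, EReal.coe_add_top] at h4
      exact absurd h4 (lt_irrefl _)
    | coe a =>
      rw [← EReal.coe_add, EReal.toReal_coe, EReal.toReal_coe]
  have h2 : PSHd W fun z => θ.g i₀ (e.symm (κ z)) - ε₀ * ‖κ z‖ ^ 2 + (ψ (e.symm (κ z))).toReal :=
    (GS.comp hb' h1).psh
  have h3 : ContDiffOn ℝ 2 (fun y => A.g k y - θ.g i₀ ((A.e k).symm y)) W := by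
    have h4 := (hA.contDiffOn (θ.isOpen i₀) (θ.smooth i₀) k).of_le two_le49
    exact (((A.g_smooth k).of_le two_le49).mono fun z hz => (hWs hz).1).sub
      (h4.mono fun z hz => hU z hz)
  have h4 := h2.add_ph hW h3 fun z hz w => hA.lev_sub k i₀ z (hU z hz) w
  obtain ⟨ε₁, hε₁⟩ : ∃ ε₁ : ℝ, ε₁ = ε₀ / L ^ 2 := ⟨_, rfl⟩
  have hε₁0 : 0 < ε₁ := by rw [hε₁]; positivity
  have hκcd : ∀ z ∈ W, ContDiffAt ℂ 2 κ z := fun z hz =>
    Helper32.contDiffAt_hol (n := 2) hb.open1 hb.hol (hWs hz)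
  have hκr : ∀ z ∈ W, ContDiffAt ℝ 2 (fun z => ε₀ * ‖κ z‖ ^ 2) z := fun z hz =>
    contDiffAt_const.mul (((hκcd z hz).restrict_scalars ℝ).norm_sq ℝ)
  have hnr : ∀ z : V n, ContDiffAt ℝ 2 (fun z : V n => (-ε₁) * ‖z‖ ^ 2) z := fun z =>
    contDiffAt_const.mul (contDiff_norm_sq ℝ).contDiffAt
  have h5 : PSHd W fun z => ε₀ * ‖κ z‖ ^ 2 + (-ε₁) * ‖z‖ ^ 2 := by
    refine GS.of_smooth hW (fun z hz => ((hκr z hz).add (hnr z)).contDiffWithinAt)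
      (continuousOn_const.locallyIntegrableOn hW.measurableSet) (fun _ _ => le_rfl)
      (Eventually.of_forall fun z hz T => ?_)
    rw [mul_zero]
    refine Finset.sum_nonneg fun l _ => ?_
    rw [lev_add (hκr z hz) (hnr z), lev_const_mul (-ε₁) (contDiff_norm_sq ℝ).contDiffAt, nsq_lev49,
      lev_const_mul ε₀ (((hκcd z hz).restrict_scalars ℝ).norm_sq ℝ),
      lev_comp_holo (u := fun z : V n => ‖z‖ ^ 2) (hκcd z hz) (contDiff_norm_sq ℝ).contDiffAt,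
      nsq_lev49]
    obtain ⟨w, hw⟩ : ∃ w : V n, w = T (Pool.Agent.Helper29.AM.e l) := ⟨_, rfl⟩
    rw [← hw]
    have h6 : ‖w‖ ≤ L * ‖fderiv ℂ κ z w‖ := by
      have h7 := bih_fd49 hb (hWs hz) w
      calc ‖w‖ = ‖fderiv ℂ κi (κ z) (fderiv ℂ κ z w)‖ := by rw [h7]
        _ ≤ ‖fderiv ℂ κi (κ z)‖ * ‖fderiv ℂ κ z w‖ := ContinuousLinearMap.le_opNorm _ _
        _ ≤ L * ‖fderiv ℂ κ z w‖ :=
          mul_le_mul_of_nonneg_right (hWp z hz).1.1.le (norm_nonneg _)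
    have h7 : ‖w‖ ^ 2 ≤ L ^ 2 * ‖fderiv ℂ κ z w‖ ^ 2 := by
      rw [← mul_pow]
      exact pow_le_pow_left₀ (norm_nonneg _) h6 2
    have h8 : ε₁ * ‖w‖ ^ 2 ≤ ε₁ * (L ^ 2 * ‖fderiv ℂ κ z w‖ ^ 2) :=
      mul_le_mul_of_nonneg_left h7 hε₁0.le
    have h9 : ε₁ * (L ^ 2 * ‖fderiv ℂ κ z w‖ ^ 2) = ε₀ * ‖fderiv ℂ κ z w‖ ^ 2 := by
      rw [hε₁]
      field_simp
    linarith
  have h6 := GS.add hW h4 h5
  refine ⟨ε₁, hε₁0, k, W, hW, fun z hz => (hWp z hz).2.2, hxk, hz₀ ▸ hzW, ?_⟩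
  refine GS.congr h6.psh hW (Eventually.of_forall fun z hz => ?_)
  simp only [Atl.pot, Atl.lc]
  rw [hsm z hz]
  ring

theorem Adapted.exists_KCX [T2Space X] [CompactSpace X] [BorelSpace X] [IsManifold 𝓘(ℂ, V n) ω X]
    (hA : Adapted θ A) {ψ : X → EReal} (h : θ.KahlerCurrent ψ) :
    ∃ ε : ℝ, 0 < ε ∧ A.KCX ε fun x => (ψ x).toReal := by
  obtain ⟨ρ, hρ, -, hρK, -⟩ := A.exists_KCX_const
  obtain ⟨v, hv⟩ : ∃ v : X → ℝ, v = fun x => (ψ x).toReal := ⟨_, rfl⟩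
  have hloc := local49 hA h
  rw [← hv] at hloc ⊢
  obtain ⟨S, hS⟩ : ∃ S : ℕ → Set X, S = fun (m : ℕ) => {x | ∃ i, ∃ W : Set (V n), IsOpen W ∧
    W ⊆ Metric.ball 0 3 ∧ x ∈ (A.e i).source ∧ A.e i x ∈ W ∧
    PSHd W fun z => A.pot i v z - 1 / ((m : ℝ) + 1) * ‖z‖ ^ 2} := ⟨_, rfl⟩
  have hdec : ∀ {i : Fin N} {W : Set (V n)} {s t : ℝ}, IsOpen W → s ≤ t →
      (PSHd W fun z => A.pot i v z - t * ‖z‖ ^ 2) → PSHd W fun z => A.pot i v z - s * ‖z‖ ^ 2 := by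
    intro i W s t hW hst ht
    refine GS.congr (GS.add hW ht (psh_nsq49 hW (sub_nonneg.2 hst))).psh hW
      (Eventually.of_forall fun z _ => ?_)
    ring
  have hmono : Monotone S := by
    intro a b hab x hx
    rw [hS] at hx ⊢
    obtain ⟨i, W, hW, h1, h2, h3, h4⟩ := hx
    refine ⟨i, W, hW, h1, h2, h3, hdec hW ?_ h4⟩
    have : (a : ℝ) ≤ b := by exact_mod_cast hab
    exact one_div_le_one_div_of_le (by positivity) (by linarith)
  have hopen : ∀ m, IsOpen (S m) := by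
    intro m
    rw [isOpen_iff_mem_nhds]
    intro x hx
    rw [hS] at hx ⊢
    obtain ⟨i, W, hW, h1, h2, h3, h4⟩ := hx
    have h5 : IsOpen ((A.e i).source ∩ (A.e i) ⁻¹' W) := (A.e i).isOpen_inter_preimage hW
    filter_upwards [h5.mem_nhds ⟨h2, h3⟩] with y hy
    exact ⟨i, W, hW, h1, hy.1, hy.2, h4⟩
  have hcov : (univ : Set X) ⊆ ⋃ m, S m := by
    intro x _
    obtain ⟨ε, hε, i, W, hW, h1, h2, h3, h4⟩ := hloc x
    obtain ⟨m, hm⟩ := exists_nat_one_div_lt hε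
    refine mem_iUnion.2 ⟨m, ?_⟩
    rw [hS]
    exact ⟨i, W, hW, h1, h2, h3, hdec hW hm.le h4⟩
  obtain ⟨m, hm⟩ := isCompact_univ.elim_directed_cover S hopen hcov hmono.directed_le
  refine ⟨ρ * (1 / ((m : ℝ) + 1)), by positivity, hρK v _ (by positivity) fun x => ?_⟩
  have h1 := hm (mem_univ x)
  rw [hS] at h1
  exact h1

end Pool.Agent.Helper29.AM
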