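import Pool.Agent.Helper29.AM.Glob
import Pool.Agent.Helper29.AM.GS1

/-!
# Block AM-GA1: transfer between `X` and the charts

`μ_eq`: the image of `μ` on the source of `e i` is `cn f_i λ` on the target; `cn > 0`, `f_i > 0`
continuous on the target, so null sets correspond (`Measure.map` of the restricted measure by the
homeomorphism; `e i` is measurable on its source). `X` is covered by the compact sets
`C_i(1) ⊆ B_i(3)`; `e_i⁻¹(closedBall 0 r)`, `r ≤ 4`, is compact as a continuous image.
Integrals: `∫_S h dμ = ∫_{e_i(S)} (h∘e_i⁻¹) cn f_i dλ`.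
-/

set_option autoImplicit false
set_option linter.unusedSectionVars false

namespace Pool.Agent.Helper29.AM

open MeasureTheory Set Filter Topology
open scoped ComplexOrder

theorem cn_pos (n : ℕ) : 0 < cn n := by
  unfold cn; positivity

namespace Atl

variable {X : Type} [TopologicalSpace X] [MeasurableSpace X] {n N : ℕ} (A : Atl X n N)

private theorem ga_cont (i : Fin N) : ContinuousOn (fun x => ‖A.e i x‖) (A.e i).source :=
  (A.e i).continuousOn.norm

theorem isOpen_Bi (i : Fin N) (r : ℝ) : IsOpen (A.Bi i r) := by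
  have h := (A.ga_cont i).isOpen_inter_preimage (A.e i).open_source (isOpen_Iio (a := r))
  exact h

theorem Bi_subset_Ci (i : Fin N) (r : ℝ) : A.Bi i r ⊆ A.Ci i r :=
  fun _ hx => ⟨hx.1, hx.2.le⟩

theorem isCompact_Ci (i : Fin N) {r : ℝ} (hr : r ≤ 4) : IsCompact (A.Ci i r) := by
  have hsub : Metric.closedBall (0 : V n) r ⊆ (A.e i).target :=
    (Metric.closedBall_subset_closedBall hr).trans (A.ball i)
  have h1 : A.Ci i r = (A.e i).symm '' Metric.closedBall 0 r := by
    ext x
    constructor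
    · rintro ⟨hx, hn⟩
      exact ⟨A.e i x, by simpa using hn, (A.e i).left_inv hx⟩
    · rintro ⟨z, hz, rfl⟩
      have hz' := hsub hz
      refine ⟨(A.e i).map_target hz', ?_⟩
      rw [(A.e i).right_inv hz']
      simpa using hz
  rw [h1]
  exact (isCompact_closedBall 0 r).image_of_continuousOn ((A.e i).continuousOn_symm.mono hsub)

theorem isOpen_preimage_symm (i : Fin N) {O : Set X} (hO : IsOpen O) :
    IsOpen ((A.e i).target ∩ (A.e i).symm ⁻¹' O) :=
  (A.e i).continuousOn_symm.isOpen_inter_preimage (A.e i).open_target hO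

theorem mem_target_of_norm_le {i : Fin N} {z : V n} (hz : ‖z‖ ≤ 4) : z ∈ (A.e i).target :=
  A.ball i (by simpa using hz)

theorem B3_subset (i : Fin N) : B3 n ⊆ (A.e i).target := fun z hz =>
  A.mem_target_of_norm_le (by
    rw [mem_ball_zero_iff] at hz
    linarith)

variable [BorelSpace X]

/-- the density -/
private noncomputable def ga_w (i : Fin N) (z : V n) : ENNReal := ENNReal.ofReal (cn n * A.f i z)

private theorem ga_w_meas (i : Fin N) :
    AEMeasurable (A.ga_w i) (volume.restrict (A.e i).target) := by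
  have h1 : ContinuousOn (A.f i) (A.e i).target := (A.f_smooth i).continuousOn
  exact ((continuousOn_const.mul h1).aemeasurable (A.e i).open_target.measurableSet).ennreal_ofReal

private theorem ga_w_lt (i : Fin N) : ∀ᵐ z ∂(volume.restrict (A.e i).target), A.ga_w i z < ⊤ :=
  Eventually.of_forall fun _ => ENNReal.ofReal_lt_top

private theorem ga_emb (i : Fin N) :
    MeasurableEmbedding (fun x : (A.e i).source => A.e i x) := by
  have h1 := (A.e i).toHomeomorphSourceTarget.measurableEmbedding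
  exact (MeasurableEmbedding.subtype_coe (A.e i).open_target.measurableSet).comp h1

private theorem ga_val (i : Fin N) :
    MeasurableEmbedding (Subtype.val : (A.e i).source → X) :=
  MeasurableEmbedding.subtype_coe (A.e i).open_source.measurableSet

private theorem ga_map (i : Fin N) :
    (Measure.comap (Subtype.val : (A.e i).source → X) A.μ).map (fun x : (A.e i).source => A.e i x) =
      (volume.restrict (A.e i).target).withDensity (A.ga_w i) := by
  have h1 := A.μ_eq i
  have h2 := map_comap_subtype_coe (A.e i).open_source.measurableSet A.μ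
  have h3 : AEMeasurable (A.e i) (A.μ.restrict (A.e i).source) :=
    (A.e i).continuousOn.aemeasurable (A.e i).open_source.measurableSet
  rw [← h2] at h1 h3
  rw [AEMeasurable.map_map_of_aemeasurable h3 measurable_subtype_coe.aemeasurable] at h1
  exact h1

private theorem ga_ae (i : Fin N) {p : X → Prop} :
    (∀ᵐ x ∂A.μ, x ∈ (A.e i).source → p x) ↔
      ∀ᵐ z : V n, z ∈ (A.e i).target → p ((A.e i).symm z) := by
  have h2 := map_comap_subtype_coe (A.e i).open_source.measurableSet A.μ
  rw [← ae_restrict_iff' (A.e i).open_source.measurableSet, ← h2, (A.ga_val i).ae_map_iff]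
  have h3 : (∀ᵐ x : (A.e i).source ∂(Measure.comap (Subtype.val : (A.e i).source → X) A.μ),
      p (x : X)) ↔ ∀ᵐ x : (A.e i).source ∂(Measure.comap (Subtype.val : (A.e i).source → X) A.μ),
        p ((A.e i).symm (A.e i (x : X))) := by
    refine Filter.eventually_congr (Eventually.of_forall fun x => ?_)
    rw [(A.e i).left_inv x.2]
  rw [h3, ← (A.ga_emb i).ae_map_iff (p := fun z => p ((A.e i).symm z)), A.ga_map i,
    ae_withDensity_iff' (A.ga_w_meas i), ae_restrict_iff' (A.e i).open_target.measurableSet]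
  refine Filter.eventually_congr (Eventually.of_forall fun z => ?_)
  constructor
  · intro h hz
    apply h hz
    have h4 : 0 < cn n * A.f i z := mul_pos (cn_pos n) (A.f_pos i z hz)
    exact (ENNReal.ofReal_pos.2 h4).ne'
  · intro h hz _
    exact h hz

theorem ae_target {p : X → Prop} (h : ∀ᵐ x ∂A.μ, p x) (i : Fin N) :
    ∀ᵐ z : V n, z ∈ (A.e i).target → p ((A.e i).symm z) :=
  (A.ga_ae i).1 (h.mono fun _ hx _ => hx)

private theorem ga_ball (i : Fin N) {r : ℝ} (hr : r ≤ 4) {p : X → Prop} :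
    (∀ᵐ x ∂A.μ, x ∈ A.Bi i r → p x) ↔ ∀ᵐ z : V n, z ∈ Metric.ball 0 r → p ((A.e i).symm z) := by
  have h1 : (∀ᵐ x ∂A.μ, x ∈ A.Bi i r → p x) ↔
      ∀ᵐ x ∂A.μ, x ∈ (A.e i).source → (‖A.e i x‖ < r → p x) := by
    refine Filter.eventually_congr (Eventually.of_forall fun x => ?_)
    exact ⟨fun h hx hn => h ⟨hx, hn⟩, fun h hx => h hx.1 hx.2⟩
  rw [h1, A.ga_ae i]
  refine Filter.eventually_congr (Eventually.of_forall fun z => ?_)
  constructor
  · intro h hz
    rw [mem_ball_zero_iff] at hz
    have hz' : z ∈ (A.e i).target := A.mem_target_of_norm_le (by linarith)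
    apply h hz'
    rw [(A.e i).right_inv hz']
    exact hz
  · intro h hz hn
    rw [(A.e i).right_inv hz] at hn
    exact h (by simpa using hn)

private theorem ga_iff {r : ℝ} (hr1 : 1 ≤ r) (hr : r ≤ 4) {p : X → Prop} :
    (∀ᵐ x ∂A.μ, p x) ↔ ∀ i, ∀ᵐ z : V n, z ∈ Metric.ball 0 r → p ((A.e i).symm z) := by
  have h1 : (∀ᵐ x ∂A.μ, p x) ↔ ∀ i, ∀ᵐ x ∂A.μ, x ∈ A.Bi i r → p x := by
    rw [← ae_all_iff]
    refine Filter.eventually_congr (Eventually.of_forall fun x => ?_)
    constructor
    · intro h i _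
      exact h
    · intro h
      obtain ⟨i, hi, hn⟩ := A.cover x
      exact h i ⟨hi, by linarith⟩
  rw [h1]
  exact forall_congr' fun i => A.ga_ball i hr

theorem ae_iff {p : X → Prop} :
    (∀ᵐ x ∂A.μ, p x) ↔ ∀ i, ∀ᵐ z : V n, z ∈ B3 n → p ((A.e i).symm z) :=
  A.ga_iff (by norm_num) (by norm_num)

theorem ae_iff_ball {p : X → Prop} :
    (∀ᵐ x ∂A.μ, p x) ↔ ∀ i, ∀ᵐ z : V n, z ∈ Metric.ball 0 1 → p ((A.e i).symm z) :=
  A.ga_iff le_rfl (by norm_num)

/-- local version -/
theorem ae_on_iff {p : X → Prop} {O : Set X} :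
    (∀ᵐ x ∂A.μ, x ∈ O → p x) ↔
      ∀ i, ∀ᵐ z : V n, z ∈ B3 n → (A.e i).symm z ∈ O → p ((A.e i).symm z) :=
  A.ae_iff (p := fun x => x ∈ O → p x)

/-- continuous functions which agree a.e. on an open set agree on it -/
theorem eq_on_of_ae [T2Space X] {O : Set X} (hO : IsOpen O) {u v : X → ℝ} (hu : ContinuousOn u O)
    (hv : ContinuousOn v O) (h : ∀ᵐ x ∂A.μ, x ∈ O → u x = v x) : ∀ x ∈ O, u x = v x := by
  intro x hx
  obtain ⟨i, hi, hn⟩ := A.cover x
  have hW := A.isOpen_preimage_symm i hO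
  have h1 := A.ae_target h i
  have hcs : ContinuousOn (A.e i).symm ((A.e i).target ∩ (A.e i).symm ⁻¹' O) :=
    (A.e i).continuousOn_symm.mono inter_subset_left
  have h2 : EqOn (fun z => u ((A.e i).symm z)) (fun z => v ((A.e i).symm z))
      ((A.e i).target ∩ (A.e i).symm ⁻¹' O) := by
    refine Measure.eqOn_open_of_ae_eq (μ := (volume : Measure (V n))) ?_ hW
      (hu.comp hcs fun z hz => hz.2) (hv.comp hcs fun z hz => hz.2)
    rw [Filter.EventuallyEq, ae_restrict_iff' hW.measurableSet]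
    filter_upwards [h1] with z hz hz'
    exact hz hz'.1 hz'.2
  have h3 : A.e i x ∈ (A.e i).target ∩ (A.e i).symm ⁻¹' O := by
    refine ⟨(A.e i).map_source hi, ?_⟩
    rw [mem_preimage, (A.e i).left_inv hi]
    exact hx
  have h4 := h2 h3
  simp only [(A.e i).left_inv hi] at h4
  exact h4

theorem le_on_of_ae [T2Space X] {O : Set X} (hO : IsOpen O) {u v : X → ℝ} (hu : ContinuousOn u O)
    (hv : ContinuousOn v O) (h : ∀ᵐ x ∂A.μ, x ∈ O → u x ≤ v x) : ∀ x ∈ O, u x ≤ v x := by
  intro x hx
  have h1 := A.eq_on_of_ae hO (hu.sup hv) hv (h.mono fun y hy hyO => max_eq_right (hy hyO)) x hx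
  exact (le_max_left _ _).trans h1.le

theorem exists_f_bounds : ∃ c C : ℝ, 0 < c ∧ 0 < C ∧ ∀ i, ∀ z : V n, ‖z‖ ≤ 4 →
    c ≤ A.f i z ∧ A.f i z ≤ C := by
  have hc : ∀ i, ContinuousOn (A.f i) (Metric.closedBall (0 : V n) 4) := fun i =>
    (A.f_smooth i).continuousOn.mono (A.ball i)
  have hne : (Metric.closedBall (0 : V n) 4).Nonempty := ⟨0, by simp⟩
  have h1 : ∀ i, ∃ c : ℝ, 0 < c ∧ ∀ z : V n, ‖z‖ ≤ 4 → c ≤ A.f i z := by
    intro i
    obtain ⟨z0, hz0, hmin⟩ := (isCompact_closedBall (0 : V n) 4).exists_isMinOn hne (hc i)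
    exact ⟨A.f i z0, A.f_pos i z0 (A.ball i hz0), fun z hz => hmin (by simpa using hz)⟩
  have h2 : ∀ i, ∃ C : ℝ, 0 < C ∧ ∀ z : V n, ‖z‖ ≤ 4 → A.f i z ≤ C := by
    intro i
    obtain ⟨z0, hz0, hmax⟩ := (isCompact_closedBall (0 : V n) 4).exists_isMaxOn hne (hc i)
    exact ⟨A.f i z0, A.f_pos i z0 (A.ball i hz0), fun z hz => hmax (by simpa using hz)⟩
  choose c hc0 hc1 using h1
  choose C hC0 hC1 using h2
  refine ⟨(1 + ∑ i, (c i)⁻¹)⁻¹, 1 + ∑ i, C i, ?_, ?_, ?_⟩
  · have : 0 ≤ ∑ i, (c i)⁻¹ := Finset.sum_nonneg fun i _ => (inv_pos.2 (hc0 i)).le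
    positivity
  · have : 0 ≤ ∑ i, C i := Finset.sum_nonneg fun i _ => (hC0 i).le
    positivity
  · intro i z hz
    constructor
    · refine le_trans ?_ (hc1 i z hz)
      have h3 : (c i)⁻¹ ≤ ∑ i, (c i)⁻¹ :=
        Finset.single_le_sum (f := fun i => (c i)⁻¹) (fun i _ => (inv_pos.2 (hc0 i)).le)
          (Finset.mem_univ i)
      rw [inv_le_comm₀ (by linarith [inv_pos.2 (hc0 i)]) (hc0 i)]
      linarith
    · refine (hC1 i z hz).trans ?_
      have h3 : C i ≤ ∑ i, C i :=
        Finset.single_le_sum (f := C) (fun i _ => (hC0 i).le) (Finset.mem_univ i)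
      linarith

theorem exists_g_bound : ∃ C : ℝ, 0 < C ∧ ∀ i, ∀ z : V n, ‖z‖ ≤ 4 → |A.g i z| ≤ C := by
  have h2 : ∀ i, ∃ C : ℝ, ∀ z ∈ Metric.closedBall (0 : V n) 4, ‖A.g i z‖ ≤ C := fun i =>
    (isCompact_closedBall (0 : V n) 4).exists_bound_of_continuousOn
      ((A.g_smooth i).continuousOn.mono (A.ball i))
  choose C hC using h2
  refine ⟨1 + ∑ i, |C i|, ?_, ?_⟩
  · have : 0 ≤ ∑ i, |C i| := Finset.sum_nonneg fun i _ => abs_nonneg _
    positivity
  · intro i z hz
    have h3 := hC i z (by simpa using hz)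
    rw [Real.norm_eq_abs] at h3
    have h4 : |C i| ≤ ∑ i, |C i| :=
      Finset.single_le_sum (f := fun i => |C i|) (fun i _ => abs_nonneg _) (Finset.mem_univ i)
    linarith [le_abs_self (C i)]

/-- quadratic bound for the means of the potentials -/
theorem exists_Phi_g_bound : ∃ C : ℝ, 0 < C ∧ ∀ i, ∀ z : V n, ‖z‖ ≤ 2 → ∀ t : ℝ, 0 ≤ t → t ≤ 1 →
    |Phi (A.g i) z t - A.g i z| ≤ C * t ^ 2 := by
  have h2 : ∀ i, ∃ C : ℝ, 0 ≤ C ∧ ∀ z ∈ Metric.closedBall (0 : V n) 2, ∀ t, 0 ≤ t → t ≤ 1 →
      |Phi (A.g i) z t - A.g i z| ≤ C * t ^ 2 := by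
    intro i
    refine abs_Phi_sub_le (A.e i).open_target ((A.g_smooth i).of_le ?_)
      (isCompact_closedBall (0 : V n) 2) zero_le_one ?_
    · exact WithTop.coe_le_coe.2 le_top
    · intro z hz w hw
      apply A.mem_target_of_norm_le
      rw [mem_closedBall_zero_iff] at hz
      rw [mem_closedBall_iff_norm] at hw
      calc ‖w‖ = ‖(w - z) + z‖ := by rw [sub_add_cancel]
        _ ≤ ‖w - z‖ + ‖z‖ := norm_add_le _ _
        _ ≤ 4 := by linarith
  choose C hC0 hC using h2
  refine ⟨1 + ∑ i, C i, ?_, ?_⟩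
  · have : 0 ≤ ∑ i, C i := Finset.sum_nonneg fun i _ => hC0 i
    positivity
  · intro i z hz t ht0 ht1
    refine (hC i z (by simpa using hz) t ht0 ht1).trans ?_
    apply mul_le_mul_of_nonneg_right _ (sq_nonneg t)
    have h4 : C i ≤ ∑ i, C i :=
      Finset.single_le_sum (f := C) (fun i _ => hC0 i) (Finset.mem_univ i)
    linarith

private theorem ga_T_meas (i : Fin N) {S : Set X} (hS : MeasurableSet S) :
    MeasurableSet ((A.e i).target ∩ (A.e i).symm ⁻¹' S) := by
  have h1 : (A.e i).target ∩ (A.e i).symm ⁻¹' S =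
      (fun x : (A.e i).source => A.e i x) '' (Subtype.val ⁻¹' S) := by
    ext z
    constructor
    · rintro ⟨hz, hzS⟩
      exact ⟨⟨(A.e i).symm z, (A.e i).map_target hz⟩, hzS, (A.e i).right_inv hz⟩
    · rintro ⟨x, hx, rfl⟩
      refine ⟨(A.e i).map_source x.2, ?_⟩
      rw [mem_preimage, (A.e i).left_inv x.2]
      exact hx
  rw [h1]
  exact (A.ga_emb i).measurableSet_image.2 (measurable_subtype_coe hS)

private theorem ga_toReal (i : Fin N) {z : V n} (hz : z ∈ (A.e i).target) :
    (A.ga_w i z).toReal = cn n * A.f i z :=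
  ENNReal.toReal_ofReal (mul_pos (cn_pos n) (A.f_pos i z hz)).le

private theorem ga_T_congr (i : Fin N) (S : Set X) (h : X → ℝ) :
    (fun z => (A.ga_w i z).toReal • (S.indicator h) ((A.e i).symm z)) =ᵐ[volume.restrict
      (A.e i).target] ((A.e i).target ∩ (A.e i).symm ⁻¹' S).indicator
        (fun z => A.lc i h z * (cn n * A.f i z)) := by
  filter_upwards [ae_restrict_mem (A.e i).open_target.measurableSet] with z hz
  rw [A.ga_toReal i hz, smul_eq_mul]
  by_cases hzS : (A.e i).symm z ∈ S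
  · have hz2 : z ∈ (A.e i).target ∩ (A.e i).symm ⁻¹' S := ⟨hz, hzS⟩
    rw [indicator_of_mem hzS, indicator_of_mem hz2, mul_comm]
    rfl
  · rw [indicator_of_notMem hzS, indicator_of_notMem (fun hh => hzS hh.2), mul_zero]

/-- change of variables, general form -/
private theorem ga_integral (i : Fin N) (h : X → ℝ) :
    ∫ x in (A.e i).source, h x ∂A.μ =
      ∫ z in (A.e i).target, (A.ga_w i z).toReal • h ((A.e i).symm z) := by
  have h2 := map_comap_subtype_coe (A.e i).open_source.measurableSet A.μ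
  rw [← integral_withDensity_eq_integral_toReal_smul₀ (A.ga_w_meas i) (A.ga_w_lt i), ← A.ga_map i,
    (A.ga_emb i).integral_map, ← h2, (A.ga_val i).integral_map]
  refine integral_congr_ae (Eventually.of_forall fun x => ?_)
  show h x = h ((A.e i).symm (A.e i x))
  rw [(A.e i).left_inv x.2]

private theorem ga_integrable (i : Fin N) (h : X → ℝ) :
    IntegrableOn h (A.e i).source A.μ ↔
      IntegrableOn (fun z => (A.ga_w i z).toReal • h ((A.e i).symm z)) (A.e i).target volume := by
  have h2 := map_comap_subtype_coe (A.e i).open_source.measurableSet A.μ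
  unfold IntegrableOn
  rw [← integrable_withDensity_iff_integrable_smul₀' (A.ga_w_meas i) (A.ga_w_lt i), ← A.ga_map i,
    (A.ga_emb i).integrable_map_iff, ← h2, (A.ga_val i).integrable_map_iff]
  refine integrable_congr (Eventually.of_forall fun x => ?_)
  show h x = h ((A.e i).symm (A.e i x))
  rw [(A.e i).left_inv x.2]

private theorem ga_integrableS (i : Fin N) {S : Set X} (hS : MeasurableSet S)
    (hs : S ⊆ (A.e i).source) (h : X → ℝ) :
    IntegrableOn h S A.μ ↔ IntegrableOn (fun z => A.lc i h z * (cn n * A.f i z))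
      ((A.e i).target ∩ (A.e i).symm ⁻¹' S) volume := by
  have h1 := A.ga_integrable i (S.indicator h)
  have h2 : IntegrableOn (S.indicator h) (A.e i).source A.μ ↔ IntegrableOn h S A.μ := by
    unfold IntegrableOn
    rw [integrable_indicator_iff hS]
    unfold IntegrableOn
    rw [Measure.restrict_restrict hS, inter_eq_left.2 hs]
  have h3 : IntegrableOn (fun z => (A.ga_w i z).toReal • (S.indicator h) ((A.e i).symm z))
      (A.e i).target volume ↔ IntegrableOn (fun z => A.lc i h z * (cn n * A.f i z))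
      ((A.e i).target ∩ (A.e i).symm ⁻¹' S) volume := by
    have h4 : IntegrableOn (fun z => (A.ga_w i z).toReal • (S.indicator h) ((A.e i).symm z))
        (A.e i).target volume ↔ IntegrableOn (((A.e i).target ∩ (A.e i).symm ⁻¹' S).indicator
        (fun z => A.lc i h z * (cn n * A.f i z))) (A.e i).target volume :=
      integrable_congr (A.ga_T_congr i S h)
    rw [h4]
    unfold IntegrableOn
    rw [integrable_indicator_iff (A.ga_T_meas i hS)]
    unfold IntegrableOn
    rw [Measure.restrict_restrict (A.ga_T_meas i hS), inter_eq_left.2 inter_subset_left]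
  rw [← h2, h1, h3]

private theorem ga_B_finite (i : Fin N) : A.μ (A.Bi i 1) < ⊤ := by
  have h1 : IntegrableOn (fun _ : X => (1 : ℝ)) (A.Bi i 1) A.μ := by
    rw [A.ga_integrableS i (A.isOpen_Bi i 1).measurableSet (fun x hx => hx.1)]
    have h2 : (A.e i).target ∩ (A.e i).symm ⁻¹' (A.Bi i 1) ⊆ Metric.closedBall 0 4 := by
      rintro z ⟨hz, hz1⟩
      have h3 := hz1.2
      rw [(A.e i).right_inv hz] at h3
      rw [mem_closedBall_zero_iff]
      linarith
    have h4 : ContinuousOn (fun z => A.lc i (fun _ => (1 : ℝ)) z * (cn n * A.f i z))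
        (Metric.closedBall (0 : V n) 4) := by
      have h5 : ContinuousOn (A.f i) (Metric.closedBall (0 : V n) 4) :=
        (A.f_smooth i).continuousOn.mono (A.ball i)
      exact continuousOn_const.mul (continuousOn_const.mul h5)
    exact (h4.integrableOn_compact (isCompact_closedBall 0 4)).mono_set h2
  rw [integrableOn_const_iff] at h1
  rcases h1 with h1 | h1
  · exact absurd h1 (by simp)
  · exact h1

theorem isFiniteMeasure [CompactSpace X] : IsFiniteMeasure A.μ := by
  refine ⟨?_⟩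
  have h1 : (univ : Set X) ⊆ ⋃ i, A.Bi i 1 := by
    intro x _
    obtain ⟨i, hi, hn⟩ := A.cover x
    exact mem_iUnion.2 ⟨i, hi, hn⟩
  refine (measure_mono h1).trans_lt ?_
  refine (measure_iUnion_fintype_le _ _).trans_lt ?_
  exact ENNReal.sum_lt_top.2 fun i _ => A.ga_B_finite i

theorem setIntegral_chart (i : Fin N) {S : Set X} (hS : MeasurableSet S)
    (hs : S ⊆ (A.e i).source) (h : X → ℝ) :
    ∫ x in S, h x ∂A.μ =
      ∫ z in (A.e i).target ∩ (A.e i).symm ⁻¹' S, A.lc i h z * (cn n * A.f i z) := by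
  have h1 := A.ga_integral i (S.indicator h)
  rw [setIntegral_indicator hS, inter_eq_right.2 hs, integral_congr_ae (A.ga_T_congr i S h),
    setIntegral_indicator (A.ga_T_meas i hS), inter_eq_right.2 inter_subset_left] at h1
  exact h1

theorem integrableOn_chart (i : Fin N) {S : Set X} (hS : MeasurableSet S)
    (hs : S ⊆ A.Ci i 4) (h : X → ℝ) :
    IntegrableOn h S A.μ ↔
      IntegrableOn (A.lc i h) ((A.e i).target ∩ (A.e i).symm ⁻¹' S) volume := by
  rw [A.ga_integrableS i hS (fun x hx => (hs hx).1)]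
  have h2 : (A.e i).target ∩ (A.e i).symm ⁻¹' S ⊆ Metric.closedBall 0 4 := by
    rintro z ⟨hz, hz1⟩
    have h3 := (hs hz1).2
    rw [(A.e i).right_inv hz] at h3
    rw [mem_closedBall_zero_iff]
    exact h3
  have h5 : ContinuousOn (fun z => cn n * A.f i z) (Metric.closedBall (0 : V n) 4) :=
    continuousOn_const.mul ((A.f_smooth i).continuousOn.mono (A.ball i))
  have h6 : ∀ z ∈ Metric.closedBall (0 : V n) 4, cn n * A.f i z ≠ 0 := fun z hz =>
    (mul_pos (cn_pos n) (A.f_pos i z (A.ball i hz))).ne'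
  constructor
  · intro h7
    have h8 := h7.continuousOn_mul_of_subset (h5.inv₀ h6) (isCompact_closedBall 0 4)
      (A.ga_T_meas i hS) h2
    refine h8.congr_fun (fun z hz => ?_) (A.ga_T_meas i hS)
    have h9 := h6 z (h2 hz)
    show (cn n * A.f i z)⁻¹ * (A.lc i h z * (cn n * A.f i z)) = A.lc i h z
    rw [mul_comm, mul_assoc, mul_inv_cancel₀ h9, mul_one]
  · intro h7
    have h8 := h7.continuousOn_mul_of_subset h5 (isCompact_closedBall 0 4) (A.ga_T_meas i hS) h2
    exact h8.congr_fun (fun z _ => mul_comm _ _) (A.ga_T_meas i hS)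

private theorem ga_Bi_eq (i : Fin N) {r : ℝ} (hr : r ≤ 4) :
    (A.e i).target ∩ (A.e i).symm ⁻¹' (A.Bi i r) = Metric.ball 0 r := by
  ext z
  constructor
  · rintro ⟨hz, hz1⟩
    have h3 := hz1.2
    rw [(A.e i).right_inv hz] at h3
    rwa [mem_ball_zero_iff]
  · intro hz
    rw [mem_ball_zero_iff] at hz
    have hz' : z ∈ (A.e i).target := A.mem_target_of_norm_le (by linarith)
    refine ⟨hz', (A.e i).map_target hz', ?_⟩
    rw [(A.e i).right_inv hz']
    exact hz

theorem locallyIntegrable_lc {v : X → ℝ} (h : Integrable v A.μ) (i : Fin N) :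
    LocallyIntegrableOn (A.lc i v) (B3 n) volume := by
  have h1 := (A.integrableOn_chart i (A.isOpen_Bi i 3).measurableSet
    ((A.Bi_subset_Ci i 3).trans fun x hx => ⟨hx.1, hx.2.trans (by norm_num)⟩) v).1 h.integrableOn
  rw [A.ga_Bi_eq i (by norm_num)] at h1
  exact h1.locallyIntegrableOn

theorem integrable_of_local [CompactSpace X] {v : X → ℝ}
    (h : ∀ i, LocallyIntegrableOn (A.lc i v) (B3 n) volume) : Integrable v A.μ := by
  have h1 : ∀ i, IntegrableOn v (A.Bi i 1) A.μ := by
    intro i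
    rw [A.integrableOn_chart i (A.isOpen_Bi i 1).measurableSet
      ((A.Bi_subset_Ci i 1).trans fun x hx => ⟨hx.1, hx.2.trans (by norm_num)⟩) v,
      A.ga_Bi_eq i (by norm_num)]
    have h2 : Metric.closedBall (0 : V n) 1 ⊆ B3 n := Metric.closedBall_subset_ball (by norm_num)
    exact ((h i).integrableOn_compact_subset h2 (isCompact_closedBall 0 1)).mono_set
      Metric.ball_subset_closedBall
  have h2 : IntegrableOn v (⋃ i, A.Bi i 1) A.μ := integrableOn_finite_iUnion.2 h1
  have h3 : (⋃ i, A.Bi i 1) = univ := by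
    rw [eq_univ_iff_forall]
    intro x
    obtain ⟨i, hi, hn⟩ := A.cover x
    exact mem_iUnion.2 ⟨i, hi, hn⟩
  rw [h3, integrableOn_univ] at h2
  exact h2

theorem PSX.integrable [CompactSpace X] {v : X → ℝ} (h : A.PSX v) : Integrable v A.μ := by
  apply A.integrable_of_local
  intro i
  have h1 : LocallyIntegrableOn (A.pot i v) (B3 n) volume := (h i).int
  have h2 : LocallyIntegrableOn (A.g i) (B3 n) volume :=
    ((A.g_smooth i).continuousOn.mono (A.B3_subset i)).locallyIntegrableOn
      Metric.isOpen_ball.measurableSet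
  have h3 : A.lc i v = fun z => A.pot i v z - A.g i z := by
    funext z
    simp [pot]
  rw [h3]
  exact h1.sub h2

theorem St.psx {τ C : ℝ} {v : X → ℝ} (h : A.St τ C v) : A.PSX v := fun i => (h.gs i).psh

theorem St.integrable [CompactSpace X] {τ C : ℝ} {v : X → ℝ} (h : A.St τ C v) :
    Integrable v A.μ :=
  PSX.integrable A (St.psx A h)

/-- `L¹(X)` convergence gives `L¹_loc` convergence in the charts -/
theorem tendsto_L1_chart {vk : ℕ → X → ℝ} {v : X → ℝ} (hk : ∀ k, Integrable (vk k) A.μ)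
    (hv : Integrable v A.μ) (h : Tendsto (fun k => ∫ x, |vk k x - v x| ∂A.μ) atTop (𝓝 0))
    (i : Fin N) {K : Set (V n)} (hK : IsCompact K) (hKs : K ⊆ B3 n) :
    Tendsto (fun k => ∫ z in K, |A.pot i (vk k) z - A.pot i v z|) atTop (𝓝 0) := by
  obtain ⟨c, _, hc, _, hcb⟩ := A.exists_f_bounds
  have hKt : K ⊆ (A.e i).target := hKs.trans (A.B3_subset i)
  let S : Set X := (A.e i).source ∩ A.e i ⁻¹' K
  have hS : MeasurableSet S := by
    have h1 : S = Subtype.val '' ((fun x : (A.e i).source => A.e i x) ⁻¹' K) := by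
      ext x
      constructor
      · rintro ⟨hx, hxK⟩
        exact ⟨⟨x, hx⟩, hxK, rfl⟩
      · rintro ⟨y, hy, rfl⟩
        exact ⟨y.2, hy⟩
    rw [h1]
    exact (A.ga_val i).measurableSet_image.2 ((A.ga_emb i).measurable hK.measurableSet)
  have hT : (A.e i).target ∩ (A.e i).symm ⁻¹' S = K := by
    ext z
    constructor
    · rintro ⟨hz, _, hz2⟩
      rw [mem_preimage, (A.e i).right_inv hz] at hz2
      exact hz2
    · intro hz
      refine ⟨hKt hz, (A.e i).map_target (hKt hz), ?_⟩
      rw [mem_preimage, (A.e i).right_inv (hKt hz)]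
      exact hz
  have hS4 : S ⊆ A.Ci i 4 := by
    rintro x ⟨hx, hxK⟩
    refine ⟨hx, ?_⟩
    have h1 := hKs hxK
    rw [mem_ball_zero_iff] at h1
    linarith
  have hcn : 0 < cn n * c := mul_pos (cn_pos n) hc
  have hbd : ∀ k, ∫ z in K, |A.pot i (vk k) z - A.pot i v z| ≤
      (cn n * c)⁻¹ * ∫ x, |vk k x - v x| ∂A.μ := by
    intro k
    have hint : Integrable (fun x => |vk k x - v x|) A.μ := ((hk k).sub hv).abs
    have h1 := A.setIntegral_chart i hS (fun x hx => hx.1) (fun x => |vk k x - v x|)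
    rw [hT] at h1
    have h2 : IntegrableOn (A.lc i fun x => |vk k x - v x|) K volume := by
      rw [← hT]
      exact (A.integrableOn_chart i hS hS4 _).1 hint.integrableOn
    have h3 : IntegrableOn (fun z => A.lc i (fun x => |vk k x - v x|) z * (cn n * A.f i z)) K
        volume := by
      rw [← hT]
      exact (A.ga_integrableS i hS (fun x hx => hx.1) _).1 hint.integrableOn
    have h4 : ∫ z in K, |A.pot i (vk k) z - A.pot i v z| =
        ∫ z in K, A.lc i (fun x => |vk k x - v x|) z := by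
      refine integral_congr_ae (Eventually.of_forall fun z => ?_)
      show |A.g i z + A.lc i (vk k) z - (A.g i z + A.lc i v z)| = |A.lc i (vk k) z - A.lc i v z|
      congr 1
      ring
    have h5 : (cn n * c) * ∫ z in K, A.lc i (fun x => |vk k x - v x|) z ≤
        ∫ x in S, |vk k x - v x| ∂A.μ := by
      rw [h1, ← integral_const_mul]
      refine setIntegral_mono_on (h2.const_mul _) h3 hK.measurableSet fun z hz => ?_
      have h6 : 0 ≤ A.lc i (fun x => |vk k x - v x|) z := abs_nonneg _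
      have h7 := hKs hz
      rw [mem_ball_zero_iff] at h7
      have h8 := (hcb i z (by linarith)).1
      rw [mul_comm]
      exact mul_le_mul_of_nonneg_left (mul_le_mul_of_nonneg_left h8 (cn_pos n).le) h6
    have h9 : ∫ x in S, |vk k x - v x| ∂A.μ ≤ ∫ x, |vk k x - v x| ∂A.μ :=
      setIntegral_le_integral hint (Eventually.of_forall fun x => abs_nonneg _)
    rw [h4, inv_mul_eq_div, le_div_iff₀ hcn, mul_comm]
    exact h5.trans h9
  have h10 : Tendsto (fun k => (cn n * c)⁻¹ * ∫ x, |vk k x - v x| ∂A.μ) atTop (𝓝 0) := by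
    have := h.const_mul (cn n * c)⁻¹
    rwa [mul_zero] at this
  exact squeeze_zero (fun k => integral_nonneg fun z => abs_nonneg _) hbd h10

end Atl

end Pool.Agent.Helper29.AM
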