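import Pool.Agent.Helper29.AM.CV5a
import Pool.Agent.Helper29.AM.GA1

/-!
# Block AM-CV5: the potential of `T` is in `S_0`

`Adapted.exists_St`. PROOF. Let `u k z = A.g k z + φ ((A.e k).symm z)`, psh on `(A.e k).target` (`Adapted.psh`).
(1) `φ` is bounded above by a constant `C`: on the compact ball `closedBall 0 1` the functions `u k` (`PSH.exists_le`)
are bounded above and the `A.g k` are bounded, and the balls `A.Bi k 1` cover `X` (`A.cover`; `N` charts).
So `(φ x).toReal - C ≤ 0` wherever `φ x ≠ ⊥`, which holds `A.μ`-a.e. (`PSH.ae_bot` in the charts; transfer of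
null sets: `GA1`). (2) In the chart `k` the measure `ν` of `Adapted.isNP` (with `m = A.μ`) satisfies
`ofReal (cn n) • ν = (volume.restrict target).withDensity (ofReal (cn n * A.f k z))` (`A.μ_eq`), so
`ν = (volume.restrict target).withDensity (ofReal (A.f k z))` (`cn n > 0`, finite), and `isNP_GS` (N8) gives
`GS (A.e k).target (fun z => A.f k z ^ (1/n)) (fun z => (u k z).toReal)`; restrict to `B3 n` (`GS.mono`).
(3) `(u k z).toReal = A.g k z + (φ ((A.e k).symm z)).toReal` where `φ ≠ ⊥` (a.e.), subtract the constant `C`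
(`Δ_A` of a test function has integral `0`; see GS1b for `GS.congr`, `GS.add_const` or similar);
`A.Ft 0 k v z = (exp (0 * _) * A.f k z) ^ (1/n) = A.f k z ^ (1/n)`.
-/

set_option autoImplicit false

namespace Pool.Agent.Helper29.AM

open MeasureTheory Set Filter Topology
open scoped Manifold ContDiff ENNReal
open Pool.Agent.Helper13.AM

variable {n N : ℕ} {X : Type} [TopologicalSpace X] [ChartedSpace (V n) X] [MeasurableSpace X]
  {θ : Form n X} {A : Atl X n N} [IsManifold 𝓘(ℂ, V n) ω X]

private theorem lev_const56 (c : ℝ) (z w : V n) : lev (fun _ : V n => c) z w = 0 := by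
  have h1 : fderiv ℝ (fun _ : V n => c) = fun _ => 0 := by
    funext y
    simp
  have h2 : ∀ v w : V n, D2 (fun _ : V n => c) z v w = 0 := by
    intro v w
    unfold D2
    rw [h1]
    simp
  unfold lev
  rw [h2, h2]
  simp

/-- finite values -/
private theorem fin56 {g : ℝ} {y : EReal} (h1 : (g : EReal) + y ≠ ⊥) (h2 : (g : EReal) + y < ⊤) :
    ∃ t : ℝ, y = (t : EReal) := by
  induction y with
  | bot => exact absurd (EReal.add_bot _) h1
  | top => exact absurd (EReal.add_top_of_ne_bot (EReal.coe_ne_bot g)) h2.ne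
  | coe t => exact ⟨t, rfl⟩

theorem Adapted.exists_St [CompactSpace X] [T2Space X] [BorelSpace X] (hn : 0 < n)
    (hA : Adapted θ A) {φ : X → EReal} (hφ : θ.Psh φ) (hNP : θ.IsNPP φ A.μ) :
    ∃ C : ℝ, A.St 0 0 (fun x => (φ x).toReal - C) := by
  have hu : ∀ k, PSH (A.e k).target fun z => (A.g k z : EReal) + φ ((A.e k).symm z) := fun k => hA.psh hφ k
  have hB1 : ∀ k, Metric.closedBall (0 : V n) 1 ⊆ (A.e k).target := fun k =>
    (Metric.closedBall_subset_closedBall (by norm_num)).trans (A.ball k)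
  have hb : ∀ k, ∃ C : ℝ, ∀ z ∈ Metric.closedBall (0 : V n) 1, (A.g k z : EReal) + φ ((A.e k).symm z) ≤ (C : EReal) :=
    fun k => (hu k).exists_le (isCompact_closedBall _ _) (hB1 k)
  choose Ck hCk using hb
  obtain ⟨Cg, hCg0, hCg⟩ := A.exists_g_bound
  set C : ℝ := Cg + ∑ k, |Ck k| with hC
  have hsum : 0 ≤ ∑ k, |Ck k| := Finset.sum_nonneg fun k _ => abs_nonneg _
  have hle : ∀ x, (φ x).toReal ≤ C := by
    intro x
    obtain ⟨k, hx, hxk⟩ := A.cover x
    have hz : A.e k x ∈ Metric.closedBall (0 : V n) 1 := mem_closedBall_zero_iff.2 hxk.le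
    have h1 := hCk k _ hz
    have h2 := (hu k).lt_top _ (hB1 k hz)
    rw [(A.e k).left_inv hx] at h1 h2
    by_cases hbot : φ x = ⊥
    · rw [hbot, EReal.toReal_bot]
      positivity
    · have h3 : (A.g k (A.e k x) : EReal) + φ x ≠ ⊥ := by
        rw [Ne, EReal.add_eq_bot_iff]
        rintro (h | h)
        · exact EReal.coe_ne_bot _ h
        · exact hbot h
      obtain ⟨t, ht⟩ := fin56 h3 h2
      rw [ht, ← EReal.coe_add, EReal.coe_le_coe_iff] at h1
      rw [ht, EReal.toReal_coe]
      have h4 := (abs_le.1 (hCg k (A.e k x) (hxk.le.trans (by norm_num)))).1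
      have h5 : Ck k ≤ ∑ k, |Ck k| :=
        (le_abs_self _).trans (Finset.single_le_sum (f := fun k => |Ck k|) (fun j _ => abs_nonneg _) (Finset.mem_univ k))
      linarith
  refine ⟨C, Eventually.of_forall fun x => by linarith [hle x], fun k => ?_⟩
  obtain ⟨ν, hν, hμ⟩ := hA.isNP hφ hNP k
  have hcn : 0 < cn n := cn_pos n
  have hν1 : ν = (volume.restrict (A.e k).target).withDensity fun z => ENNReal.ofReal (A.f k z) := by
    rw [A.μ_eq k] at hμ
    have h1 : (fun z => ENNReal.ofReal (cn n * A.f k z)) = ENNReal.ofReal (cn n) • fun z => ENNReal.ofReal (A.f k z) := by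
      funext z
      rw [Pi.smul_apply, smul_eq_mul, ENNReal.ofReal_mul hcn.le]
    rw [h1, withDensity_smul' _ _ ENNReal.ofReal_ne_top] at hμ
    have h2 : ENNReal.ofReal (cn n) ≠ 0 := (ENNReal.ofReal_pos.2 hcn).ne'
    have h3 : ∀ ρ : Measure (V n), ρ = (ENNReal.ofReal (cn n))⁻¹ • (ENNReal.ofReal (cn n) • ρ) := fun ρ => by
      rw [smul_smul, ENNReal.inv_mul_cancel h2 ENNReal.ofReal_ne_top, one_smul]
    rw [h3 ν, ← hμ, ← h3]
  rw [hν1] at hν
  have hGS := isNP_GS hn (A.e k).open_target (hu k) (A.f_smooth k) (A.f_pos k) hν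
  have hGS2 := hGS.mono_set Metric.isOpen_ball (A.B3_subset k)
  have hcongr : ∀ᵐ z : V n, z ∈ Atl.B3 n → ((A.g k z : EReal) + φ ((A.e k).symm z)).toReal =
      A.g k z + (φ ((A.e k).symm z)).toReal := by
    filter_upwards [(hu k).ae_bot] with z hz hz3
    have hzt := A.B3_subset k hz3
    obtain ⟨t, ht⟩ := fin56 (hz hzt) ((hu k).lt_top z hzt)
    rw [ht, ← EReal.coe_add, EReal.toReal_coe, EReal.toReal_coe]
  have h4 := ((hGS2.congr Metric.isOpen_ball hcongr).add_ph Metric.isOpen_ball (q := fun _ => -C) contDiffOn_const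
    fun z _ w => lev_const56 _ z w)
  have h5 := h4.congr (v := A.pot k fun x => (φ x).toReal - C) Metric.isOpen_ball (Eventually.of_forall fun z _ => by
    change A.g k z + (φ ((A.e k).symm z)).toReal + -C = A.g k z + ((φ ((A.e k).symm z)).toReal - C)
    ring)
  refine h5.congrF Metric.isOpen_ball (Eventually.of_forall fun z _ => ?_) fun z hz => ?_
  · unfold Atl.Ft
    rw [zero_mul, Real.exp_zero, one_mul]
  · have hf := A.f_pos k z (A.B3_subset k hz)
    unfold Atl.Ft
    positivity

end Pool.Agent.Helper29.AM
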