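import Pool.Agent.Helper13.AM.P6
import Pool.Agent.Helper29.AM.GS5
import Pool.Agent.Helper13.AM.N

/-!
# Project AM: local facts on Monge-Ampère measures and non-pluripolar products used in section 14

Owner: helper13; all proved from the B/S files of Helper13/AM.
-/

set_option autoImplicit false

namespace Pool.Agent.Helper29.AM

open MeasureTheory Set Filter Topology
open Pool.Agent.Helper13.AM

variable {n : ℕ} {Ω Ω' : Set (V n)} {u : V n → EReal} {ν ν' : Measure (V n)}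

/-- (N1) -/
theorem exists_isNP (hΩ : IsOpen Ω) (hu : PSH Ω u) : ∃ ν : Measure (V n), IsNP Ω u ν :=
  exists_NP hΩ hu

/-- (N2) -/
theorem isNP_unique (hΩ : IsOpen Ω) (hu : PSH Ω u) (h : IsNP Ω u ν) (h' : IsNP Ω u ν') :
    ν = ν' :=
  h.unique hΩ hu h'

/-- (N3) -/
theorem isNP_mono (hΩ : IsOpen Ω) (hΩ' : IsOpen Ω') (hs : Ω' ⊆ Ω) (_hu : PSH Ω u)
    (h : IsNP Ω u ν) : IsNP Ω' u (ν.restrict Ω') :=
  h.mono hΩ hΩ' hs

/-- (N4) -/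
theorem isNP_comp {κ κi : V n → V n} (h : Bih Ω' Ω κ κi) (_hu : PSH Ω u) (hν : IsNP Ω u ν) :
    IsNP Ω' (fun z => u (κ z)) ((ν.restrict Ω).map κi) := by
  have h1 : ν.restrict Ω = ν := by
    have h2 := Measure.restrict_add_restrict_compl (μ := ν) h.open2.measurableSet
    rwa [Measure.restrict_eq_zero.2 hν.out, add_zero] at h2
  rw [h1]
  exact hν.comp h

/-- (N5) -/
theorem isNP_add_ph (hΩ : IsOpen Ω) {h : V n → ℝ} (hh : ContDiffOn ℝ (⊤ : ℕ∞) h Ω)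
    (hl : ∀ z ∈ Ω, ∀ w, lev h z w = 0) (hu : PSH Ω u) (hν : IsNP Ω u ν) :
    IsNP Ω (fun z => (h z : EReal) + u z) ν :=
  IsNP.add_ph' hΩ hu hν hh hl

theorem isNP_congr {u' : V n → EReal} (_hΩ : IsOpen Ω) (h : ∀ z ∈ Ω, u z = u' z)
    (hν : IsNP Ω u ν) : IsNP Ω u' ν :=
  hν.congr h

/-- (N6) -/
theorem isNP_isMA (hΩ : IsOpen Ω) (hΩ' : IsOpen Ω') (hs : Ω' ⊆ Ω) (hu : PSH Ω u)
    (hν : IsNP Ω u ν) {C : ℝ} (hC : ∀ z ∈ Ω', ((-C : ℝ) : EReal) ≤ u z) :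
    IsMA Ω' u (ν.restrict Ω') :=
  hν.isMA_of_le hΩ hu hΩ' hs hC

/-- (N7) -/
theorem isMA_tendsto_Phi (hΩ : IsOpen Ω) (hu : PSH Ω u) (hν : IsMA Ω u ν) {χ : V n → ℝ}
    (hχ : Tst Ω χ) :
    Tendsto (fun ε : ℝ => ∫ z, χ z * DD (fun y => Phi (fun x => (u x).toReal) y ε) z)
      (𝓝[>] 0) (𝓝 (∫ z, χ z ∂ν)) :=
  hν.tendsto_Phi hΩ hu ⟨hχ.smooth.continuous, hχ.cpt, hχ.sub⟩

/-- (N8), section 12 -/
theorem isNP_GS (hn : 0 < n) (hΩ : IsOpen Ω) (hu : PSH Ω u) {f : V n → ℝ}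
    (hf : ContDiffOn ℝ (⊤ : ℕ∞) f Ω) (h0 : ∀ z ∈ Ω, 0 < f z)
    (hν : IsNP Ω u ((volume.restrict Ω).withDensity fun z => ENNReal.ofReal (f z))) :
    GS Ω (fun z => f z ^ ((1 : ℝ) / n)) (fun z => (u z).toReal) :=
  subsolution hn hΩ hu hf.continuousOn h0 hν

/-- (N9) -/
theorem psh_eq_of_continuousOn (hΩ : IsOpen Ω) (hu : PSH Ω u) {w : V n → ℝ}
    (hw : ContinuousOn w Ω) (h : ∀ᵐ z, z ∈ Ω → (u z).toReal = w z) :
    ∀ z ∈ Ω, u z = (w z : EReal) :=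
  hu.eq_of_ae_continuousOn hΩ hw h

end Pool.Agent.Helper29.AM
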