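import Pool.Agent.Helper29.AM.CV3
import Pool.Agent.Helper29.AM.NPL

/-!
# Block AM-CV5a: non-pluripolar products in the adapted atlas

`Adapted.isNP`. PROOF. Let `e₀ ∈ atlas`, `i`, `c`, `r` be the data of `hA.chart k`, `ν₀` the local product on
`img e₀ (θ.U i)` of `hm i e₀`, `u₀ z = θ.g i (e₀.symm z) + φ (e₀.symm z)` (psh there: `hφ`). Put
`κ z = c + r • z`, `κi z = r⁻¹ • (z - c)`, `Ω' = (A.e k).target`, `Ω₁ = κi ⁻¹' Ω'` (open, `= κ '' Ω'`).
For `z ∈ Ω'`, `x = (A.e k).symm z ∈ (A.e k).source`: `e₀ x = κ z`, so `κ z ∈ e₀.target`, `e₀.symm (κ z) = x ∈ θ.U i`: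
`Ω₁ ⊆ img e₀ (θ.U i)` and `u₀ (κ z) = A.g k z + φ ((A.e k).symm z)`.
`isNP_mono` gives the product `ν₀.restrict Ω₁` on `Ω₁`; `isNP_comp` with `Bih Ω' Ω₁ κ κi` the product
`ν = ((ν₀.restrict Ω₁).restrict Ω₁).map κi` of `u₀ ∘ κ` on `Ω'`; `isNP_congr`.
Measures: for Borel `S`: `(m.restrict (A.e k).source).map (A.e k) S = m ((A.e k).source ∩ (A.e k)⁻¹ S)` and
`cn ν S = cn ν₀ (Ω₁ ∩ κi⁻¹ S) = m ((e₀.source ∩ θ.U i) ∩ e₀⁻¹ (Ω₁ ∩ κi⁻¹ S))`; the two sets are equal: for
`x ∈ (A.e k).source` we have `A.e k x = κi (e₀ x)`; conversely if `x ∈ e₀.source`, `e₀ x = κ z` with `z ∈ Ω'`, then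
`e₀ x = e₀ ((A.e k).symm z)`, so `x = (A.e k).symm z` (injectivity of `e₀`).
(The charts are only a.e. measurable for the restricted measures: `ContinuousOn.aemeasurable`,
`Measure.map_apply_of_aemeasurable`; see the proof of `rsc_measure` in CV1b.)
-/

set_option autoImplicit false

namespace Pool.Agent.Helper29.AM

open MeasureTheory Set Filter Topology
open scoped Manifold ContDiff ENNReal
open Pool.Agent.Helper13.AM

variable {n N : ℕ} {X : Type} [TopologicalSpace X] [ChartedSpace (V n) X] [MeasurableSpace X]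
  {θ : Form n X} {A : Atl X n N} [IsManifold 𝓘(ℂ, V n) ω X]

omit [ChartedSpace (V n) X] [MeasurableSpace X] [IsManifold 𝓘(ℂ, V n) ω X] in
private theorem chart52 {e0 ek : OpenPartialHomeomorph X (V n)} {S : Set X} {c : V n} {r : ℝ}
    (hs : ek.source ⊆ e0.source ∩ S) (hx : ∀ x ∈ ek.source, e0 x = c + r • ek x) {z : V n}
    (hz : z ∈ ek.target) : c + r • z ∈ e0.target ∧ e0.symm (c + r • z) = ek.symm z ∧
      ek.symm z ∈ S := by
  have hxs : ek.symm z ∈ ek.source := ek.map_target hz
  have h2 := hx _ hxs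
  rw [ek.right_inv hz] at h2
  refine ⟨?_, ?_, (hs hxs).2⟩
  · rw [← h2]
    exact e0.map_source (hs hxs).1
  · rw [← h2, e0.left_inv (hs hxs).1]

theorem Adapted.isNP [BorelSpace X] (hA : Adapted θ A) {φ : X → EReal} (hφ : θ.Psh φ)
    {m : Measure X} (hm : θ.IsNPP φ m) (k : Fin N) : ∃ ν : Measure (V n),
      Pool.Agent.Helper13.AM.IsNP (A.e k).target
        (fun z => (A.g k z : EReal) + φ ((A.e k).symm z)) ν ∧
      (m.restrict (A.e k).source).map (A.e k) = ENNReal.ofReal (cn n) • ν := by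
  obtain ⟨e0, he0, i, c, r, hr, hs, hx, hg⟩ := hA.chart k
  obtain ⟨ν0, hν0, hm0⟩ := hm i e0 he0
  have hu0 := hφ i e0 he0
  set u0 : V n → EReal := fun z => (θ.g i (e0.symm z) : EReal) + φ (e0.symm z) with hu0def
  set κ : V n → V n := fun z => c + r • z with hκ
  set κi : V n → V n := fun z => r⁻¹ • (z - c) with hκi
  have hcont : Continuous κi := by rw [hκi]; fun_prop
  have hlr : ∀ z, κi (κ z) = z := fun z => by
    simp only [hκ, hκi]
    rw [add_sub_cancel_left, smul_smul, inv_mul_cancel₀ hr.ne', one_smul]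
  have hrl : ∀ z, κ (κi z) = z := fun z => by
    simp only [hκ, hκi]
    rw [smul_smul, mul_inv_cancel₀ hr.ne', one_smul, add_sub_cancel]
  have hΩ' : IsOpen (A.e k).target := (A.e k).open_target
  have hΩ1 : IsOpen (κi ⁻¹' (A.e k).target) := hΩ'.preimage hcont
  have hΩ : IsOpen (img e0 (θ.U i)) := isOpen_img e0 (θ.isOpen i)
  have hsub : κi ⁻¹' (A.e k).target ⊆ img e0 (θ.U i) := by
    intro w hw
    have h1 := chart52 hs hx (z := κi w) hw
    have h2 : c + r • κi w = w := hrl w
    rw [h2] at h1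
    refine ⟨h1.1, ?_⟩
    rw [mem_preimage, h1.2.1]
    exact h1.2.2
  have hB : Bih (A.e k).target (κi ⁻¹' (A.e k).target) κ κi := by
    refine ⟨hΩ', hΩ1, ?_, ?_, ?_, ?_, fun z _ => hlr z, fun z _ => hrl z⟩
    · have h5 : κ = fun z => c + (r : ℂ) • z := by
        funext z
        rw [Complex.coe_smul]
      rw [h5]
      exact ((differentiable_id.const_smul (r : ℂ)).const_add c).differentiableOn
    · have h5 : κi = fun z => ((r⁻¹ : ℝ) : ℂ) • (z - c) := by
        funext z
        rw [Complex.coe_smul]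
      rw [h5]
      exact ((differentiable_id.sub_const c).const_smul ((r⁻¹ : ℝ) : ℂ)).differentiableOn
    · intro z hz
      rw [mem_preimage, hlr]
      exact hz
    · intro z hz
      exact hz
  have h1 := isNP_mono hΩ hΩ1 hsub hu0 hν0
  have h2 := isNP_comp hB (hu0.mono hsub) h1
  refine ⟨_, isNP_congr hΩ' ?_ h2, ?_⟩
  · intro z hz
    have h3 := (chart52 hs hx hz).2.1
    simp only [hu0def, hκ]
    rw [h3, hg z hz]
  · refine Measure.ext fun T hT => ?_
    have hks : MeasurableSet (A.e k).source := (A.e k).open_source.measurableSet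
    have h0s : MeasurableSet (e0.source ∩ θ.U i) :=
      (e0.open_source.inter (θ.isOpen i)).measurableSet
    have hae : AEMeasurable (A.e k) (m.restrict (A.e k).source) :=
      (A.e k).continuousOn.aemeasurable hks
    have hae0 : AEMeasurable e0 (m.restrict (e0.source ∩ θ.U i)) :=
      (e0.continuousOn.mono inter_subset_left).aemeasurable h0s
    have hT1 : MeasurableSet (κi ⁻¹' T ∩ κi ⁻¹' (A.e k).target) :=
      (hcont.measurable hT).inter hΩ1.measurableSet
    have h3 := congrArg (fun μ => μ (κi ⁻¹' T ∩ κi ⁻¹' (A.e k).target)) hm0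
    simp only [Measure.smul_apply, smul_eq_mul] at h3
    rw [Measure.map_apply_of_aemeasurable hae0 hT1, Measure.restrict_apply' h0s] at h3
    rw [Measure.map_apply_of_aemeasurable hae hT, Measure.restrict_apply' hks,
      Measure.smul_apply, smul_eq_mul, Measure.map_apply hcont.measurable hT,
      Measure.restrict_apply' hΩ1.measurableSet, Measure.restrict_apply' hΩ1.measurableSet,
      inter_assoc, inter_self, ← h3]
    congr 1
    ext x
    constructor
    · rintro ⟨hxT, hxs⟩
      have h4 : κi (e0 x) = A.e k x := by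
        rw [hx x hxs]
        exact hlr _
      refine ⟨⟨?_, ?_⟩, hs hxs⟩
      · rw [mem_preimage, h4]
        exact hxT
      · rw [mem_preimage, h4]
        exact (A.e k).map_source hxs
    · rintro ⟨⟨hxT, hxk⟩, hx0⟩
      have h5 := chart52 hs hx (z := κi (e0 x)) hxk
      have h6 : c + r • κi (e0 x) = e0 x := hrl _
      rw [h6, e0.left_inv hx0.1] at h5
      have hxs : x ∈ (A.e k).source := by
        rw [h5.2.1]
        exact (A.e k).map_target hxk
      have h7 : κi (e0 x) = A.e k x := by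
        rw [hx x hxs]
        exact hlr _
      refine ⟨?_, hxs⟩
      rw [mem_preimage, ← h7]
      exact hxT

end Pool.Agent.Helper29.AM
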