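import Pool.Agent.Helper29.AM.Local

/-!
# The objects of MP_5d2bda_an on a compact complex manifold

`X` is a complex manifold: a charted space over `V n = ℂ^n` whose transition maps are holomorphic. A class
`α` is given by a closed real `(1,1)`-form `θ` in it, and `θ` is given by local potentials: `θ = dd^c (g i)`
on `U i`. The positive closed currents in `α` are the currents `θ + dd^c φ` with a `θ`-psh function `φ`
(unique up to an additive constant), so all notions are stated for `φ`.
-/

set_option autoImplicit false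

namespace Pool.Agent.Helper29.AM

open MeasureTheory Set Filter Topology
open scoped Manifold ContDiff ENNReal
open Pool.Agent.Helper13.AM

/-- the image of a set `O` in the chart `ch` -/
def img {n : ℕ} {X : Type} [TopologicalSpace X] (ch : OpenPartialHomeomorph X (V n)) (O : Set X) :
    Set (V n) :=
  ch.target ∩ ch.symm ⁻¹' O

variable (n : ℕ) (X : Type) [TopologicalSpace X] [ChartedSpace (V n) X]

/-- `f` is a real `C^∞` function on the open set `O` -/
def SmoothFn {X : Type} [TopologicalSpace X] [ChartedSpace (V n) X] (O : Set X) (f : X → ℝ) :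
    Prop :=
  ∀ ch ∈ atlas (V n) X, ContDiffOn ℝ (⊤ : ℕ∞) (fun z => f (ch.symm z)) (img ch O)

/-- A closed real `(1,1)`-form `θ` on `X`, given by local potentials: `θ = dd^c (g i)` on `U i`, where
`g i` is a real `C^∞` function and `g i - g j` is pluriharmonic. -/
structure Form where
  ι : Type
  U : ι → Set X
  isOpen : ∀ i, IsOpen (U i)
  cover : ∀ x, ∃ i, x ∈ U i
  g : ι → X → ℝ
  smooth : ∀ i, SmoothFn n (U i) (g i)
  compat : ∀ i j, ∀ ch ∈ atlas (V n) X, ∀ z ∈ img ch (U i ∩ U j), ∀ w : V n,
    lev (fun y => g i (ch.symm y) - g j (ch.symm y)) z w = 0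

namespace Form

variable {n X}
variable (θ : Form n X)

/-- the function `φ` is `θ`-psh, i.e. `θ + dd^c φ` is a positive closed current in the class of `θ`:
`g i + φ` is plurisubharmonic in all charts -/
def Psh (φ : X → EReal) : Prop :=
  ∀ i, ∀ ch ∈ atlas (V n) X,
    PSH (img ch (θ.U i)) fun z => (θ.g i (ch.symm z) : EReal) + φ (ch.symm z)

/-- `θ + dd^c ψ` is a Kähler current: near every point `x`, in some chart,
`θ + dd^c ψ ≥ ε dd^c |z|²` for some `ε > 0` (as `X` is compact, this says `θ + dd^c ψ ≥ ε ω` for a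
smooth positive hermitian form `ω` and some `ε > 0`) -/
def KahlerCurrent (ψ : X → EReal) : Prop :=
  ∀ x, ∃ i, ∃ ch ∈ atlas (V n) X, ∃ W : Set X, IsOpen W ∧ x ∈ W ∧ W ⊆ ch.source ∩ θ.U i ∧
    ∃ ε : ℝ, 0 < ε ∧
      PSH (img ch W) fun z => ((θ.g i (ch.symm z) - ε * ‖z‖ ^ 2 : ℝ) : EReal) + ψ (ch.symm z)

/-- the class of `θ` is big -/
def Big : Prop := ∃ ψ, θ.KahlerCurrent ψ

/-- the ample locus: the points `x` near which some Kähler current in the class is smooth, i.e. its
potential `ψ` is a smooth function `s` -/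
def Amp : Set X :=
  {x | ∃ ψ : X → EReal, θ.KahlerCurrent ψ ∧ ∃ (W : Set X) (s : X → ℝ), IsOpen W ∧ x ∈ W ∧
    SmoothFn n W s ∧ ∀ y ∈ W, ψ y = (s y : EReal)}

/-- The measure `m` on `X` is the non-pluripolar product `⟨θ + dd^c φ⟩^n`: in every chart and for every
local potential `u = g i + φ` it is the increasing limit of `1_{u > -j} (dd^c max(u,-j))^n`. (`IsNP` is
normalised without the constant `c_n = 4^n n!` in `(dd^c u)^n = c_n det(u_{j k̄}) λ`; it enters here.) -/
def IsNPP [MeasurableSpace X] (φ : X → EReal) (m : Measure X) : Prop :=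
  ∀ i, ∀ ch ∈ atlas (V n) X, ∃ ν : Measure (V n),
    IsNP (img ch (θ.U i)) (fun z => (θ.g i (ch.symm z) : EReal) + φ (ch.symm z)) ν ∧
      (m.restrict (ch.source ∩ θ.U i)).map ch = ENNReal.ofReal (cn n) • ν

/-- the volume of the class: the supremum of the total masses of `⟨S⟩^n` over the positive closed
currents `S` in the class -/
noncomputable def vol [MeasurableSpace X] : ℝ≥0∞ :=
  ⨆ (φ : X → EReal) (_ : θ.Psh φ) (m : Measure X) (_ : θ.IsNPP φ m), m univ

end Form

variable {X}

/-- `μ` is a smooth positive volume form: in every chart it has a smooth positive density -/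
def SmoothVolume [MeasurableSpace X] (μ : Measure X) : Prop :=
  ∀ ch ∈ atlas (V n) X, ∃ f : V n → ℝ, ContDiffOn ℝ (⊤ : ℕ∞) f ch.target ∧ (∀ z ∈ ch.target, 0 < f z) ∧
    (μ.restrict ch.source).map ch =
      (volume.restrict ch.target).withDensity fun z => ENNReal.ofReal (f z)

end Pool.Agent.Helper29.AM
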