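import Pool.Agent.Helper29.AM.NPL
import Pool.Agent.Helper29.AM.Statement
import Pool.Agent.Helper29.AM.GS4

/-!
# Block AM-CV6a: the local non-pluripolar products in two charts agree

`np_compat`. PROOF. Let `W = img E (O ∩ O')`, `W' = img E' (O ∩ O')` (open), `κ z = E' (E.symm z)`, `κi z = E (E'.symm z)`.
`Bih W W' κ κi`: restriction of `hb` (the fields of `Bih` restrict; `κ` maps `W` to `W'`).
Let `u z = g z + φ (E.symm z)`, `u' z = g' z + φ (E'.symm z)`. For `z ∈ W`: `E'.symm (κ z) = E.symm z` (as `E.symm z ∈ O' ⊆ E'.source`),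
so `u z = (g z - g' (κ z)) + u' (κ z)`.
`isNP_mono`: `ν'.restrict W'` is the product of `u'` on `W'`; `isNP_comp`: `((ν'.restrict W').restrict W').map κi` that of
`u' ∘ κ` on `W`; `isNP_add_ph` (with `h z = g z - g' (κ z)`, `hs`, `hl`; `u' ∘ κ` is psh on `W` by `PSH.comp`) and
`isNP_congr`: the same measure is the product of `u` on `W`. Also `ν.restrict W` is the product of `u` on `W` (`isNP_mono`).
`isNP_unique`: `ν.restrict W = ((ν'.restrict W').restrict W').map κi`.
For Borel `S ⊆ O ∩ O'`: `img E S ⊆ W` is Borel (`E.symm` is continuous on the open set `E.target`), `κi` is continuous on `W'`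
(hence a.e. measurable for `ν'.restrict W'`), so `ν (img E S) = ν' (W' ∩ κi ⁻¹' (img E S)) = ν' (img E' S)`, because for
`z' ∈ W'`: `κi z' ∈ img E S ↔ E.symm (E (E'.symm z')) = E'.symm z' ∈ S`.
-/

set_option autoImplicit false

namespace Pool.Agent.Helper29.AM

open MeasureTheory Set Filter Topology
open scoped Manifold ContDiff ENNReal
open Pool.Agent.Helper13.AM

variable {n : ℕ} {X : Type} [TopologicalSpace X] [MeasurableSpace X]

omit [MeasurableSpace X] in
private theorem img_open92 (E : OpenPartialHomeomorph X (V n)) {U : Set X} (hU : IsOpen U) : IsOpen (img E U) :=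
  E.symm.isOpen_inter_preimage hU

private theorem img_meas92 [BorelSpace X] (E : OpenPartialHomeomorph X (V n)) {S : Set X} (hS : MeasurableSet S) :
    MeasurableSet (img E S) := by
  have h1 : ContinuousOn E.symm E.target := E.continuousOn_symm
  have h2 : Measurable (E.target.restrict E.symm) := (continuousOn_iff_continuous_restrict.1 h1).measurable
  have h3 : MeasurableSet ((E.target.restrict E.symm) ⁻¹' S) := h2 hS
  have h4 : img E S = Subtype.val '' ((E.target.restrict E.symm) ⁻¹' S) := by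
    ext z
    unfold img
    constructor
    · rintro ⟨hz, hzS⟩
      exact ⟨⟨z, hz⟩, hzS, rfl⟩
    · rintro ⟨⟨y, hy⟩, hyS, rfl⟩
      exact ⟨hy, hyS⟩
  rw [h4]
  exact E.open_target.measurableSet.subtype_image h3

/-- the local products in two charts agree -/
theorem np_compat [BorelSpace X] {E E' : OpenPartialHomeomorph X (V n)} {O O' : Set X}
    (hO : IsOpen O) (hO' : IsOpen O') (hOE : O ⊆ E.source) (hOE' : O' ⊆ E'.source)
    (hb : Bih (E.symm.trans E').source (E.symm.trans E').target
      (fun z => E' (E.symm z)) (fun z => E (E'.symm z)))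
    {g g' : V n → ℝ} {φ : X → EReal}
    (hs : ContDiffOn ℝ (⊤ : ℕ∞) (fun z => g z - g' (E' (E.symm z))) (img E (O ∩ O')))
    (hl : ∀ z ∈ img E (O ∩ O'), ∀ w, lev (fun y => g y - g' (E' (E.symm y))) z w = 0)
    (hu : PSH (img E O) fun z => (g z : EReal) + φ (E.symm z))
    (hu' : PSH (img E' O') fun z => (g' z : EReal) + φ (E'.symm z))
    {ν ν' : Measure (V n)}
    (hν : Pool.Agent.Helper13.AM.IsNP (img E O) (fun z => (g z : EReal) + φ (E.symm z)) ν)
    (hν' : Pool.Agent.Helper13.AM.IsNP (img E' O') (fun z => (g' z : EReal) + φ (E'.symm z)) ν')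
    {S : Set X} (hS : MeasurableSet S) (hSO : S ⊆ O ∩ O') : ν (img E S) = ν' (img E' S) := by
  have hW : IsOpen (img E (O ∩ O')) := img_open92 E (hO.inter hO')
  have hW' : IsOpen (img E' (O ∩ O')) := img_open92 E' (hO.inter hO')
  have hsub : img E (O ∩ O') ⊆ (E.symm.trans E').source := by
    rintro z ⟨hz, hzO⟩
    rw [OpenPartialHomeomorph.trans_source]
    exact ⟨hz, hOE' hzO.2⟩
  have hsub' : img E' (O ∩ O') ⊆ (E.symm.trans E').target := by
    rintro z ⟨hz, hzO⟩
    rw [OpenPartialHomeomorph.trans_target]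
    exact ⟨hz, hOE hzO.1⟩
  have hB : Bih (img E (O ∩ O')) (img E' (O ∩ O')) (fun z => E' (E.symm z)) (fun z => E (E'.symm z)) :=
    { open1 := hW
      open2 := hW'
      hol := hb.hol.mono hsub
      hol' := hb.hol'.mono hsub'
      maps := by
        rintro z ⟨hz, hzO⟩
        refine ⟨E'.map_source (hOE' hzO.2), ?_⟩
        show E'.symm (E' (E.symm z)) ∈ O ∩ O'
        rw [E'.left_inv (hOE' hzO.2)]
        exact hzO
      maps' := by
        rintro z ⟨hz, hzO⟩
        refine ⟨E.map_source (hOE hzO.1), ?_⟩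
        show E.symm (E (E'.symm z)) ∈ O ∩ O'
        rw [E.left_inv (hOE hzO.1)]
        exact hzO
      left := fun z hz => hb.left z (hsub hz)
      right := fun z hz => hb.right z (hsub' hz) }
  have hmono : img E (O ∩ O') ⊆ img E O := fun z hz => ⟨hz.1, hz.2.1⟩
  have hmono' : img E' (O ∩ O') ⊆ img E' O' := fun z hz => ⟨hz.1, hz.2.2⟩
  have h1 := isNP_mono (img_open92 E' hO') hW' hmono' hu' hν'
  have hu'W := hu'.mono hmono'
  have h2 := isNP_comp hB hu'W h1
  have h3 := PSH.comp hB hu'W
  have h4 := isNP_add_ph hW hs hl h3 h2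
  have h5 : Pool.Agent.Helper13.AM.IsNP (img E (O ∩ O')) (fun z => (g z : EReal) + φ (E.symm z))
      (((ν'.restrict (img E' (O ∩ O'))).restrict (img E' (O ∩ O'))).map (fun z => E (E'.symm z))) := by
    refine isNP_congr hW (fun z hz => ?_) h4
    show ((g z - g' (E' (E.symm z)) : ℝ) : EReal) + ((g' (E' (E.symm z)) : EReal) + φ (E'.symm (E' (E.symm z)))) =
      (g z : EReal) + φ (E.symm z)
    rw [E'.left_inv (hOE' hz.2.2), ← add_assoc, ← EReal.coe_add, sub_add_cancel]
  have h6 := isNP_mono (img_open92 E hO) hW hmono hu hν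
  have h7 := isNP_unique hW (hu.mono hmono) h6 h5
  have hSW : img E S ⊆ img E (O ∩ O') := fun z hz => ⟨hz.1, hSO hz.2⟩
  have hmeas : MeasurableSet (img E S) := img_meas92 E hS
  have h8 : ν (img E S) = ν.restrict (img E (O ∩ O')) (img E S) := by
    rw [Measure.restrict_apply' hW.measurableSet, inter_eq_self_of_subset_left hSW]
  have hae : AEMeasurable (fun z => E (E'.symm z)) ((ν'.restrict (img E' (O ∩ O'))).restrict (img E' (O ∩ O'))) :=
    (hB.hol'.continuousOn).aemeasurable hW'.measurableSet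
  rw [h8, h7, Measure.map_apply_of_aemeasurable hae hmeas, Measure.restrict_apply' hW'.measurableSet,
    Measure.restrict_apply' hW'.measurableSet]
  congr 1
  ext z
  constructor
  · rintro ⟨⟨hz1, hz2⟩, -⟩
    refine ⟨hz2.1, ?_⟩
    have h9 : E.symm (E (E'.symm z)) ∈ S := hz1.2
    rw [E.left_inv (hOE hz2.2.1)] at h9
    exact h9
  · rintro ⟨hz1, hz2⟩
    have hzW : z ∈ img E' (O ∩ O') := ⟨hz1, hSO hz2⟩
    refine ⟨⟨⟨E.map_source (hOE (hSO hz2).1), ?_⟩, hzW⟩, hzW⟩
    show E.symm (E (E'.symm z)) ∈ S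
    rw [E.left_inv (hOE (hSO hz2).1)]
    exact hz2

end Pool.Agent.Helper29.AM
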