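import Pool.Agent.Helper29.AM.CV5a
import Pool.Agent.Helper29.AM.CV6a

/-!
# Block AM-CV6: existence of the non-pluripolar product on `X`

`Form.exists_isNP`. PROOF. `P k = A.Bi k 1 \ ⋃_{l<k} A.Bi l 1` (`k : Fin N`): a Borel partition of `X` (`A.cover`; `Bi k 1` is
open), `P k ⊆ (A.e k).source`. Let `u k z = A.g k z + φ ((A.e k).symm z)`, psh on `(A.e k).target` (`Adapted.psh`), `ν k` its
product (`exists_isNP`), `m = ∑ k, ofReal (cn n) • ((ν k).map (A.e k).symm).restrict (P k)` (`(A.e k).symm` is continuous on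
the target and `ν k` is `0` outside of it, so it is a.e. measurable).
Let `i`, `e ∈ atlas` be given, `ν` the product on `img e (θ.U i)` (`exists_isNP`, `hφ i e he`). For Borel `S ⊆ V n` let
`T = (e.source ∩ θ.U i) ∩ e ⁻¹' S` (Borel). Then `m T = ∑ k, cn * ν k (img (A.e k) (T ∩ P k))`, and by `np_compat` with
`E = A.e k, O = (A.e k).source, E' = e, O' = e.source ∩ θ.U i, g = A.g k, g' = θ.g i ∘ e.symm` the `k`-th term is
`cn * ν (img e (T ∩ P k))`. [`img (A.e k) (A.e k).source = (A.e k).target`, `img e (e.source ∩ θ.U i) = img e (θ.U i)`;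
`hb = hA.bih k he`; for `z ∈ img (A.e k) ((A.e k).source ∩ (e.source ∩ θ.U i))` the function `g z - g' (e ((A.e k).symm z))` is
`A.g k z - θ.g i ((A.e k).symm z)`: smooth by `A.g_smooth`, `hA.contDiffOn (θ.isOpen i) (θ.smooth i) k`, and `lev = 0` by
`hA.lev_sub` (the two functions agree near `z`: `Filter.EventuallyEq.fderiv`).] The sum over `k` is
`cn * ν (img e T) = cn * ν (S ∩ img e (θ.U i)) = cn * ν S` (`out`).
-/

set_option autoImplicit false

namespace Pool.Agent.Helper29.AM

open MeasureTheory Set Filter Topology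
open scoped Manifold ContDiff ENNReal
open Pool.Agent.Helper13.AM

variable {n N : ℕ} {X : Type} [TopologicalSpace X] [ChartedSpace (V n) X] [MeasurableSpace X]
  {θ : Form n X} {A : Atl X n N} [IsManifold 𝓘(ℂ, V n) ω X]

omit [TopologicalSpace X] [ChartedSpace (V n) X] [IsManifold 𝓘(ℂ, V n) ω X] in
private theorem part50 (f : Fin N → Set X) (hf : ∀ k, MeasurableSet (f k)) (hc : ∀ x, ∃ k, x ∈ f k) :
    ∃ P : Fin N → Set X, (∀ k, MeasurableSet (P k)) ∧ (∀ k, P k ⊆ f k) ∧
      Pairwise (Function.onFun Disjoint P) ∧ ∀ x, ∃ k, x ∈ P k := by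
  refine ⟨fun k => f k ∩ ⋂ l, ⋂ (_ : l < k), (f l)ᶜ, fun k => (hf k).inter
    (MeasurableSet.iInter fun l => MeasurableSet.iInter fun _ => (hf l).compl), fun k => inter_subset_left, ?_, ?_⟩
  · have key : ∀ j k : Fin N, j < k → Disjoint (f j ∩ ⋂ l, ⋂ (_ : l < j), (f l)ᶜ) (f k ∩ ⋂ l, ⋂ (_ : l < k), (f l)ᶜ) := by
      intro j k hjk
      rw [Set.disjoint_left]
      rintro x ⟨hx, -⟩ ⟨-, hx'⟩
      exact mem_iInter₂.1 hx' j hjk hx
    intro j k hjk
    rcases lt_or_gt_of_ne hjk with h | h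
    · exact key j k h
    · exact (key k j h).symm
  · intro x
    obtain ⟨k, hk⟩ := hc x
    obtain ⟨m, hm, hmin⟩ := (wellFounded_lt (α := Fin N)).has_min {k | x ∈ f k} ⟨k, hk⟩
    exact ⟨m, hm, mem_iInter₂.2 fun l hl hx => hmin l hx hl⟩

private theorem pre_meas50 {α β : Type*} [TopologicalSpace α] [MeasurableSpace α] [OpensMeasurableSpace α]
    [TopologicalSpace β] [MeasurableSpace β] [BorelSpace β] {f : α → β} {R : Set α} (hf : ContinuousOn f R)
    (hR : MeasurableSet R) {S : Set β} (hS : MeasurableSet S) : MeasurableSet (R ∩ f ⁻¹' S) := by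
  have h2 : Measurable (R.restrict f) := (continuousOn_iff_continuous_restrict.1 hf).measurable
  have h3 : MeasurableSet ((R.restrict f) ⁻¹' S) := h2 hS
  have h4 : R ∩ f ⁻¹' S = Subtype.val '' ((R.restrict f) ⁻¹' S) := by
    ext z
    constructor
    · rintro ⟨hz, hzS⟩
      exact ⟨⟨z, hz⟩, hzS, rfl⟩
    · rintro ⟨⟨y, hy⟩, hyS, rfl⟩
      exact ⟨hy, hyS⟩
  rw [h4]
  exact hR.subtype_image h3

private theorem out50 {ν : Measure (V n)} {Ω : Set (V n)} (hΩ : IsOpen Ω) (h : ν Ωᶜ = 0) : ν.restrict Ω = ν := by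
  have h2 := Measure.restrict_add_restrict_compl (μ := ν) hΩ.measurableSet
  rwa [Measure.restrict_eq_zero.2 h, add_zero] at h2

theorem Form.exists_isNP [CompactSpace X] [T2Space X] [BorelSpace X] (hA : Adapted θ A)
    {φ : X → EReal} (hφ : θ.Psh φ) : ∃ m : Measure X, θ.IsNPP φ m := by
  have hBo : ∀ k, IsOpen (A.Bi k 1) := by
    intro k
    have h1 : IsOpen ((A.e k).source ∩ (A.e k) ⁻¹' Metric.ball 0 1) :=
      (A.e k).isOpen_inter_preimage Metric.isOpen_ball
    have h2 : A.Bi k 1 = (A.e k).source ∩ (A.e k) ⁻¹' Metric.ball 0 1 := by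
      ext y
      simp [Atl.Bi, Metric.mem_ball, dist_zero_right]
    rw [h2]
    exact h1
  obtain ⟨P, hPm, hPB, hPd, hPu⟩ := part50 (fun k => A.Bi k 1) (fun k => (hBo k).measurableSet) A.cover
  have hPs : ∀ k, P k ⊆ (A.e k).source := fun k x hx => (hPB k hx).1
  have hν : ∀ k, ∃ ν : Measure (V n), Pool.Agent.Helper13.AM.IsNP (A.e k).target
      (fun z => (A.g k z : EReal) + φ ((A.e k).symm z)) ν := fun k =>
    Pool.Agent.Helper29.AM.exists_isNP (A.e k).open_target (hA.psh hφ k)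
  choose ν hν using hν
  have hνr : ∀ k, (ν k).restrict (A.e k).target = ν k := fun k => out50 (A.e k).open_target (hν k).out
  have hae : ∀ k, AEMeasurable (A.e k).symm (ν k) := by
    intro k
    have h1 : AEMeasurable (A.e k).symm ((ν k).restrict (A.e k).target) :=
      (A.e k).continuousOn_symm.aemeasurable (A.e k).open_target.measurableSet
    rwa [hνr k] at h1
  set m : Measure X := ∑ k : Fin N, (ENNReal.ofReal (cn n) • (ν k).map (A.e k).symm).restrict (P k) with hm
  have hmT : ∀ T : Set X, MeasurableSet T → m T = ∑ k : Fin N, ENNReal.ofReal (cn n) * ν k (img (A.e k) (T ∩ P k)) := by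
    intro T hT
    rw [hm, Measure.finsetSum_apply]
    refine Finset.sum_congr rfl fun k _ => ?_
    rw [Measure.restrict_apply hT, Measure.smul_apply, smul_eq_mul,
      Measure.map_apply_of_aemeasurable (hae k) (hT.inter (hPm k))]
    congr 1
    conv_lhs => rw [← hνr k]
    rw [Measure.restrict_apply' (A.e k).open_target.measurableSet]
    congr 1
    ext z
    exact and_comm
  refine ⟨m, ?_⟩
  intro i e he
  have hU := θ.isOpen i
  obtain ⟨νe, hνe⟩ := Pool.Agent.Helper29.AM.exists_isNP (isOpen_img e hU) (hφ i e he)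
  refine ⟨νe, hνe, ?_⟩
  have hRo : IsOpen (e.source ∩ θ.U i) := e.open_source.inter hU
  have hRc : ContinuousOn e (e.source ∩ θ.U i) := e.continuousOn.mono inter_subset_left
  have i1 : ∀ k, img (A.e k) (A.e k).source = (A.e k).target := by
    intro k
    ext z
    exact ⟨fun h => h.1, fun h => ⟨h, (A.e k).map_target h⟩⟩
  have i2 : img e (e.source ∩ θ.U i) = img e (θ.U i) := by
    ext z
    exact ⟨fun h => ⟨h.1, h.2.2⟩, fun h => ⟨h.1, e.map_target h.1, h.2⟩⟩
  refine Measure.ext fun S hS => ?_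
  rw [Measure.map_apply_of_aemeasurable (hRc.aemeasurable hRo.measurableSet) hS,
    Measure.restrict_apply' hRo.measurableSet, inter_comm, Measure.smul_apply, smul_eq_mul]
  set T : Set X := (e.source ∩ θ.U i) ∩ e ⁻¹' S with hTdef
  have hT : MeasurableSet T := pre_meas50 hRc hRo.measurableSet hS
  rw [hmT T hT, ← Finset.mul_sum]
  congr 1
  -- the local products agree
  have hk : ∀ k, ν k (img (A.e k) (T ∩ P k)) = νe (img e (T ∩ P k)) := by
    intro k
    have hop : IsOpen (img (A.e k) ((A.e k).source ∩ (e.source ∩ θ.U i))) :=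
      isOpen_img (A.e k) ((A.e k).open_source.inter hRo)
    have hcg : ∀ z ∈ img (A.e k) ((A.e k).source ∩ (e.source ∩ θ.U i)),
        A.g k z - θ.g i (e.symm (e ((A.e k).symm z))) = A.g k z - θ.g i ((A.e k).symm z) := by
      intro z hz
      have h1 : (A.e k).symm z ∈ e.source := hz.2.2.1
      rw [e.left_inv h1]
    refine np_compat (E := A.e k) (E' := e) (O := (A.e k).source) (O' := e.source ∩ θ.U i) (g := A.g k)
      (g' := fun z => θ.g i (e.symm z)) (φ := φ) (A.e k).open_source hRo subset_rfl inter_subset_left (hA.bih k he)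
      ?_ ?_ ?_ ?_ ?_ ?_ (hT.inter (hPm k)) ?_
    · have h1 : ContDiffOn ℝ (⊤ : ℕ∞) (fun z => A.g k z - θ.g i ((A.e k).symm z))
          (img (A.e k) ((A.e k).source ∩ (e.source ∩ θ.U i))) := by
        refine ((A.g_smooth k).mono fun z hz => hz.1).sub ((hA.contDiffOn hU (θ.smooth i) k).mono ?_)
        intro z hz
        exact ⟨hz.1, hz.2.2.2⟩
      exact h1.congr hcg
    · intro z hz w
      have h1 : (fun y => A.g k y - θ.g i (e.symm (e ((A.e k).symm y)))) =ᶠ[𝓝 z]
          fun y => A.g k y - θ.g i ((A.e k).symm y) := by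
        filter_upwards [hop.mem_nhds hz] with y hy
        exact hcg y hy
      rw [lev_congr h1 w]
      exact hA.lev_sub k i z ⟨hz.1, hz.2.2.2⟩ w
    · rw [i1 k]
      exact hA.psh hφ k
    · rw [i2]
      exact hφ i e he
    · rw [i1 k]
      exact hν k
    · rw [i2]
      exact hνe
    · rintro x ⟨hx, hxP⟩
      exact ⟨hPs k hxP, hx.1⟩
  rw [Finset.sum_congr rfl fun k _ => hk k]
  have hmi : ∀ k, MeasurableSet (img e (T ∩ P k)) := fun k =>
    pre_meas50 e.continuousOn_symm e.open_target.measurableSet (hT.inter (hPm k))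
  have hdi : Pairwise (Function.onFun Disjoint fun k => img e (T ∩ P k)) := by
    intro j k hjk
    refine Set.disjoint_left.2 ?_
    rintro z ⟨-, -, hz⟩ ⟨-, -, hz'⟩
    exact Set.disjoint_left.1 (hPd hjk) hz hz'
  rw [← tsum_fintype (L := .unconditional _), ← measure_iUnion hdi hmi]
  conv_rhs => rw [← out50 (isOpen_img e hU) hνe.out]
  rw [Measure.restrict_apply' (isOpen_img e hU).measurableSet]
  congr 1
  ext z
  rw [mem_iUnion]
  constructor
  · rintro ⟨k, hz, ⟨⟨hzs, hzU⟩, hzS⟩, -⟩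
    refine ⟨?_, hz, hzU⟩
    have h1 : e (e.symm z) ∈ S := hzS
    rwa [e.right_inv hz] at h1
  · rintro ⟨hzS, hz, hzU⟩
    obtain ⟨k, hk⟩ := hPu (e.symm z)
    refine ⟨k, hz, ⟨⟨e.map_target hz, hzU⟩, ?_⟩, hk⟩
    show e (e.symm z) ∈ S
    rw [e.right_inv hz]
    exact hzS

end Pool.Agent.Helper29.AM
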