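import Pool.Agent.Helper29.AM.CV5a
import Pool.Agent.Helper29.AM.GA1

/-!
# Block AM-CV7a: the non-pluripolar product is `MA` where the potential is locally bounded below

`Adapted.hasMA`. PROOF. Given `i`, `G` open `⊆ B3 n`, `C` with `-C ≤ A.pot i v` a.e. on `G`, and `χ` with `Tst G χ`. Let
`u z = A.g i z + v' ((A.e i).symm z)` (psh on `(A.e i).target`, `Adapted.psh`), `ν` the measure of `Adapted.isNP` (chart `i`).
(1) `u z = A.pot i v z` for a.e. `z ∈ B3 n` (null sets of `A.μ` and of Lebesgue measure correspond in the charts: GA1). So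
`-C ≤ u` a.e. on `G`, hence everywhere on `G` (`PSH.le_of_ae_le` with `PSH.const`). (2) `isNP_isMA` (N6) with `Ω' = G`:
`IsMA G u (ν.restrict G)`; `isMA_tendsto_Phi` (N7) with `Ω = G`:
`∫ χ * DD (Phi (u.toReal) · ε) → ∫ χ d(ν.restrict G)` as `ε → 0+`.
(3) There is `δ > 0` with `closedBall y δ ⊆ B3 n` for all `y` in the `δ`-neighbourhood of the compact set `tsupport χ`; for
`0 < ε < δ` and such `y`, `Phi (u.toReal) y ε = Phi (A.pot i v) y ε` (`rho` is supported in the unit ball; `u.toReal = pot` a.e. on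
`B3 n`, and `y + ε η` ranges over `closedBall y ε`: see `Phi_congr`-type lemmas in MeanA/MeanC). So the two functions of `y` agree near
every `z ∈ tsupport χ`, their `hess` agree at `z`, and the integrals are equal (`χ = 0` off `tsupport χ`). `DD` is `(hess _).det.re`.
(4) Multiply by `cn n`: `cn n * ∫ χ dν|_G = ∫ χ d((m.restrict source).map (A.e i)) = ∫_{A.Bi i 3} χ (A.e i x) dm`, because
`χ = 0` outside `G ⊆ B3 n` (`integral_map` with `ContinuousOn.aemeasurable`, `integral_smul_measure`, `setIntegral` over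
`A.Bi i 3 ⊆ (A.e i).source`, `cn n ≥ 0`).
-/

set_option autoImplicit false

namespace Pool.Agent.Helper29.AM

open MeasureTheory Set Filter Topology
open scoped Manifold ContDiff ENNReal
open Pool.Agent.Helper13.AM

variable {n N : ℕ} {X : Type} [TopologicalSpace X] [ChartedSpace (V n) X] [MeasurableSpace X]
  {θ : Form n X} {A : Atl X n N} [IsManifold 𝓘(ℂ, V n) ω X]

omit [IsManifold 𝓘(ℂ, V n) ω X] [ChartedSpace (V n) X] in
private theorem int_h12 [BorelSpace X] (i : Fin N) {G : Set (V n)} (hG3 : G ⊆ Atl.B3 n)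
    {m : Measure X} {ν : Measure (V n)}
    (hmν : (m.restrict (A.e i).source).map (A.e i) = ENNReal.ofReal (cn n) • ν) {χ : V n → ℝ}
    (hχ : Tst G χ) :
    ∫ x in A.Bi i 3, χ (A.e i x) ∂m = cn n * ∫ z, χ z ∂(ν.restrict G) := by
  have h0 : ∀ z, z ∉ G → χ z = 0 := fun z hz => by
    by_contra h
    exact hz (hχ.sub (subset_tsupport _ h))
  have hs : MeasurableSet (A.e i).source := (A.e i).open_source.measurableSet
  have h1 : ∫ x in (A.e i).source, χ (A.e i x) ∂m = ∫ x in A.Bi i 3, χ (A.e i x) ∂m := by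
    refine setIntegral_eq_of_subset_of_forall_diff_eq_zero hs (fun x hx => hx.1) fun x hx => ?_
    refine h0 _ fun hxG => hx.2 ⟨hx.1, ?_⟩
    have := hG3 hxG
    rwa [mem_ball_zero_iff] at this
  rw [← h1]
  have he : AEMeasurable (A.e i) (m.restrict (A.e i).source) :=
    (A.e i).continuousOn.aemeasurable hs
  have h2 : ∫ z, χ z ∂((m.restrict (A.e i).source).map (A.e i)) =
      ∫ x in (A.e i).source, χ (A.e i x) ∂m :=
    integral_map he hχ.smooth.continuous.aestronglyMeasurable
  rw [← h2, hmν, integral_smul_measure, ENNReal.toReal_ofReal (by unfold cn; positivity),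
    smul_eq_mul, setIntegral_eq_integral_of_forall_compl_eq_zero fun z hz => h0 z hz]

theorem Adapted.hasMA [BorelSpace X] (hA : Adapted θ A) {v : X → ℝ} {v' : X → EReal}
    (hv' : θ.Psh v') (hvv : ∀ᵐ x ∂A.μ, v' x = (v x : EReal)) {m : Measure X}
    (hm : θ.IsNPP v' m) : A.HasMA v m := by
  intro i G hG hG3 hC χ hχ
  obtain ⟨C, hC⟩ := hC
  obtain ⟨ν, hν, hmν⟩ := hA.isNP hv' hm i
  obtain ⟨u, hu0⟩ : ∃ u : V n → EReal, u = fun z => (A.g i z : EReal) + v' ((A.e i).symm z) :=
    ⟨_, rfl⟩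
  have hu : PSH (A.e i).target u := hu0 ▸ hA.psh hv' i
  rw [← hu0] at hν
  have hGt : G ⊆ (A.e i).target := hG3.trans (A.B3_subset i)
  have hae : ∀ᵐ z, z ∈ (A.e i).target → u z = ((A.pot i v z : ℝ) : EReal) := by
    filter_upwards [A.ae_target hvv i] with z hz hzt
    rw [hu0]
    show (A.g i z : EReal) + v' ((A.e i).symm z) = _
    rw [hz hzt, ← EReal.coe_add]
    rfl
  have hC' : ∀ z ∈ G, ((-C : ℝ) : EReal) ≤ u z := by
    refine PSH.le_of_ae_le hG (PSH.const G (-C)) (hu.mono hGt) ?_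
    filter_upwards [hae, hC] with z h1 h2 hz
    rw [h1 (hGt hz), EReal.coe_le_coe_iff]
    exact h2 hz
  have hMA := isNP_isMA (A.e i).open_target hG hGt hu hν hC'
  have hlim := (isMA_tendsto_Phi hG (hu.mono hGt) hMA hχ).const_mul (cn n)
  rw [int_h12 (A := A) i hG3 hmν hχ]
  refine hlim.congr' ?_
  obtain ⟨t, ht, hts⟩ := exists_subset_shr hG hχ.cpt hχ.sub
  filter_upwards [Ioo_mem_nhdsGT ht] with ε hε
  rw [← integral_const_mul]
  refine integral_congr_ae (Eventually.of_forall fun z => ?_)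
  show cn n * (χ z * DD (fun y => Phi (fun x => (u x).toReal) y ε) z) =
    χ z * (cn n * (hess (fun y => Phi (A.pot i v) y ε) z).det.re)
  by_cases hz : z ∈ tsupport χ
  · have h1 : (fun y => Phi (fun x => (u x).toReal) y ε) =ᶠ[𝓝 z] fun y =>
        Phi (A.pot i v) y ε := by
      have hzs : z ∈ shr G ε :=
        (Metric.closedBall_subset_closedBall hε.2.le).trans (hts hz)
      filter_upwards [(isOpen_shr hG ε).mem_nhds hzs] with y hy
      refine M_congr_ae ?_ hG ?_ ((mem_shr_iff hε.1.le).1 hy)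
      · rw [det_sc]
        exact pow_ne_zero _ (by exact_mod_cast hε.1.ne')
      · filter_upwards [hae] with x hx hxG
        rw [hx (hGt hxG), EReal.toReal_coe]
    unfold DD
    rw [hess_congr h1]
    ring
  · have h2 : χ z = 0 := image_eq_zero_of_notMem_tsupport hz
    rw [h2, zero_mul, zero_mul, mul_zero]

end Pool.Agent.Helper29.AM
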