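import Pool.Agent.Helper29.AM.CV6
import Pool.Agent.Helper29.AM.CV7a
import Pool.Agent.Helper29.AM.CV5

/-!
# Block AM-CV7: the volume hypothesis

Let `v' ` be the canonical representative of `v` (`Adapted.exists_rep`), `m` its non-pluripolar product
(`Form.exists_isNP`); `m univ ≤ θ.vol = μ univ` (`le_iSup`); `Adapted.hasMA` (CV7a).
-/

set_option autoImplicit false

namespace Pool.Agent.Helper29.AM

open MeasureTheory Set Filter Topology
open scoped Manifold ContDiff ENNReal
open Pool.Agent.Helper13.AM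

variable {n N : ℕ} {X : Type} [TopologicalSpace X] [ChartedSpace (V n) X] [MeasurableSpace X]
  {θ : Form n X} {A : Atl X n N} [IsManifold 𝓘(ℂ, V n) ω X]

theorem Adapted.volLe [CompactSpace X] [T2Space X] [BorelSpace X] (hA : Adapted θ A)
    (h : A.μ univ = θ.vol) : A.VolLe := by
  intro v hv
  obtain ⟨v', hv', hvv⟩ := hA.exists_rep hv
  obtain ⟨m, hm⟩ := Form.exists_isNP hA hv'
  refine ⟨m, hA.hasMA hv' hvv hm, ?_⟩
  rw [h]
  exact le_iSup_of_le v' (le_iSup_of_le hv' (le_iSup_of_le m (le_iSup_of_le hm le_rfl)))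

end Pool.Agent.Helper29.AM
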