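import Pool.Agent.Helper29.AM.KL3
import Pool.Agent.Helper29.AM.GS5

/-!
# Block AM-KL4: the transform of a distributional psh function (3.4)

`u_ε = Φ_u(·,ε)` is smooth psh on `shr Ω ε` and `Φ_{u_ε}(z,t) ↓ Φ_u(z,t)` (`Phi_mollify_ge`,
`tendsto_Phi_mollify`), so `WW u ≤ WW u_ε` and `WW u_ε → WW u` where the infimum for `u` is attained
(test with the minimiser). For a.e. `z`, `Φ_u(z,t) ≥ u(z)` for all `t` (`le_Phi`), so it is attained and
`WW u ≥ u - c` (resp. `≥ u` for P1). Local integrability: `u - c ≤ WW u ≤ Φ_u(·,δ) + c`; measurability: limit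
of the continuous functions `WW u_ε`, `ε = 1/k` (a.e.). `L¹_loc` convergence: dominated by
`WW u_ε ≤ Φ_{u_ε}(·,δ) + c`, bounded on compacts for small `ε`.
`PSHd_WW`: by (3.3 i) for `u_ε`, `WW u_ε - ε₀|z|²` is smooth psh; `GS.limit`.
`usc`: `WW u` is an infimum of continuous functions.
-/

set_option autoImplicit false

namespace Pool.Agent.Helper29.AM

open MeasureTheory Set Filter Topology
open scoped ComplexOrder

variable {n : ℕ} {Ω : Set (V n)} {u F : V n → ℝ} {P : ℝ → ℝ} {c δ : ℝ}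

private theorem two_le63 : (2 : WithTop ℕ∞) ≤ ((⊤ : ℕ∞) : WithTop ℕ∞) := WithTop.coe_le_coe.2 le_top

private theorem log2_63 : Real.log 2 < 1 := by
  have := Real.log_two_lt_d9
  linarith

private theorem shr_mono63 {r s : ℝ} (h : s ≤ r) {z : V n} (hz : z ∈ shr Ω r) : z ∈ shr Ω s :=
  (Metric.closedBall_subset_closedBall h).trans hz

private theorem shr_self63 {r : ℝ} (h : 0 ≤ r) {z : V n} (hz : z ∈ shr Ω r) : z ∈ Ω :=
  hz (Metric.mem_closedBall_self h)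

private theorem shr_shr63 {r s t : ℝ} (h : r + s ≤ t) {z : V n} (hz : z ∈ shr Ω t) :
    z ∈ shr (shr Ω r) s := by
  intro y hy w hw
  refine hz ?_
  rw [Metric.mem_closedBall] at hy hw ⊢
  linarith [dist_triangle w y z]

private theorem rad63 (hδ : 0 < δ) {x : ℝ} (hx : x < Real.log 2) : δ * Real.exp x < 2 * δ := by
  have h1 : Real.exp x < 2 := by
    have := Real.exp_lt_exp.2 hx
    rwa [Real.exp_log (by norm_num)] at this
  nlinarith

open scoped Pointwise in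
private theorem roomK63 (hΩ : IsOpen Ω) {r : ℝ} (hr : 0 ≤ r) {K : Set (V n)} (hK : IsCompact K)
    (hKs : K ⊆ shr Ω r) : ∃ ε₁ : ℝ, 0 < ε₁ ∧ K ⊆ shr Ω (r + ε₁) := by
  have h1 : IsCompact (K + Metric.closedBall (0 : V n) r) := hK.add (isCompact_closedBall 0 r)
  have h2 : K + Metric.closedBall (0 : V n) r ⊆ Ω := by
    rintro _ ⟨z, hz, v, hv, rfl⟩
    exact hKs hz (by simpa using hv)
  obtain ⟨ε₁, hε₁, h3⟩ := h1.exists_cthickening_subset_open hΩ h2
  refine ⟨ε₁, hε₁, fun z hz => ?_⟩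
  have h4 : Metric.closedBall z r ⊆ K + Metric.closedBall (0 : V n) r := by
    intro y hy
    exact ⟨z, hz, y - z, by simpa [dist_eq_norm] using hy, by simp⟩
  have h5 : Metric.closedBall z (r + ε₁) = Metric.cthickening ε₁ (Metric.closedBall z r) := by
    rw [cthickening_closedBall hε₁.le hr, add_comm]
  change Metric.closedBall z (r + ε₁) ⊆ Ω
  rw [h5]
  exact (Metric.cthickening_subset_of_subset _ h4).trans h3

private theorem room63 (hΩ : IsOpen Ω) {r : ℝ} (hr : 0 ≤ r) {z : V n}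
    (hz : z ∈ shr Ω r) : ∃ ε₁ : ℝ, 0 < ε₁ ∧ z ∈ shr Ω (r + ε₁) := by
  obtain ⟨ε₁, h1, h2⟩ := roomK63 hΩ hr (isCompact_singleton (x := z)) (singleton_subset_iff.2 hz)
  exact ⟨ε₁, h1, h2 rfl⟩

private theorem GG_le63 (hΩ : IsOpen Ω) (hu : PSHd Ω u)
    (hδ : 0 < δ) {ε : ℝ} (hε : 0 < ε) {z : V n} (hz : z ∈ shr Ω (2 * δ + ε)) {y : ℝ}
    (hy : y < Real.log 2) : GG u P δ z y ≤ GG (fun w => Phi u w ε) P δ z y := by
  have h0 := rad63 hδ hy
  have h1 := Phi_mollify_ge hΩ hu hε (t := δ * Real.exp y) (by positivity) (z := z)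
    (shr_mono63 (by linarith) hz)
  unfold GG
  linarith

private theorem WW_le63 (hΩ : IsOpen Ω) (hu : PSHd Ω u)
    (hδ : 0 < δ) {ε : ℝ} (hε : 0 < ε) {z : V n} (hz : z ∈ shr Ω (2 * δ + ε)) {x : ℝ}
    (hx : IsMn u P δ z x) {y : ℝ} (hy : y < Real.log 2) :
    WW (fun w => Phi u w ε) P δ z ≤ GG (fun w => Phi u w ε) P δ z y := by
  refine ciInf_le ⟨GG u P δ z x, ?_⟩ (⟨y, hy⟩ : Iio (Real.log 2))
  rintro _ ⟨w, rfl⟩
  exact (hx.2 w w.2).trans (GG_le63 hΩ hu hδ hε hz w.2)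

private theorem pen_zero63 (h : IsPen P c) (hc : 0 < c) : P 0 ≤ c := by
  rcases h with rfl | rfl
  · simp [P1]
  · simp [P2, hc.le]

theorem ae_exists_IsMn (hΩ : IsOpen Ω) (hu : PSHd Ω u) (h : IsPen P c) (hc : 0 < c)
    (hδ : 0 < δ) : ∀ᵐ z, z ∈ shr Ω (2 * δ) → (∃ x, IsMn u P δ z x) ∧ u z - c ≤ WW u P δ z := by
  filter_upwards [le_Phi hΩ hu] with z hz hzs
  have h1 := hz (shr_self63 (by positivity) hzs)
  obtain ⟨x, hx⟩ := exists_IsMn_of_bdd hΩ hu h hc hδ hzs (m := u z)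
    (fun t ht htδ => h1 t ht (shr_mono63 (by linarith) hzs))
  refine ⟨⟨x, hx⟩, ?_⟩
  rw [hx.WW_eq]
  have h2 := h1 (δ * Real.exp x) (by positivity) (shr_mono63 (rad63 hδ hx.1).le hzs)
  have h3 := h.ge hc (hx.1.trans log2_63)
  unfold GG
  linarith

theorem ae_le_WW_P1 (hΩ : IsOpen Ω) (hu : PSHd Ω u) (hc : 0 < c)
    (hδ : 0 < δ) : ∀ᵐ z, z ∈ shr Ω (2 * δ) → u z ≤ WW u (P1 c) δ z := by
  filter_upwards [le_Phi hΩ hu] with z hz hzs
  have h1 := hz (shr_self63 (by positivity) hzs)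
  obtain ⟨x, hx⟩ := exists_IsMn_of_bdd hΩ hu (Or.inl rfl : IsPen (P1 c) c) hc hδ hzs (m := u z)
    (fun t ht htδ => h1 t ht (shr_mono63 (by linarith) hzs))
  rw [hx.WW_eq]
  have h2 := h1 (δ * Real.exp x) (by positivity) (shr_mono63 (rad63 hδ hx.1).le hzs)
  have h3 := (P1_ge hc x).1
  unfold GG
  linarith

theorem WW_le_mollify (hΩ : IsOpen Ω) (hu : PSHd Ω u) (h : IsPen P c) (hc : 0 < c)
    (hδ : 0 < δ) {ε : ℝ} (hε : 0 < ε) {z : V n} (hz : z ∈ shr Ω (2 * δ + ε)) {x : ℝ}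
    (hx : IsMn u P δ z x) : WW u P δ z ≤ WW (fun y => Phi u y ε) P δ z := by
  rw [hx.WW_eq]
  have : Nonempty (Iio (Real.log 2)) := ⟨⟨x, hx.1⟩⟩
  exact le_ciInf fun y => (hx.2 y y.2).trans (GG_le63 hΩ hu hδ hε hz y.2)

theorem tendsto_WW_mollify (hΩ : IsOpen Ω) (hu : PSHd Ω u) (h : IsPen P c) (hc : 0 < c)
    (hδ : 0 < δ) {z : V n} (hz : z ∈ shr Ω (2 * δ)) {x : ℝ} (hx : IsMn u P δ z x) :
    Tendsto (fun ε => WW (fun y => Phi u y ε) P δ z) (𝓝[>] 0) (𝓝 (WW u P δ z)) := by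
  obtain ⟨ε₁, hε₁, hz₁⟩ := room63 hΩ (by positivity) hz
  have hup : Tendsto (fun ε => GG (fun y => Phi u y ε) P δ z x) (𝓝[>] 0) (𝓝 (WW u P δ z)) := by
    rw [hx.WW_eq]
    exact (tendsto_Phi_mollify hΩ hu.int (by positivity)
      (shr_mono63 (rad63 hδ hx.1).le hz)).add_const _
  refine tendsto_of_tendsto_of_tendsto_of_le_of_le' tendsto_const_nhds hup ?_ ?_
  · filter_upwards [Ioc_mem_nhdsGT hε₁] with ε hε
    exact WW_le_mollify hΩ hu h hc hδ hε.1 (shr_mono63 (by linarith [hε.2]) hz₁) hx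
  · filter_upwards [Ioc_mem_nhdsGT hε₁] with ε hε
    exact WW_le63 hΩ hu hδ hε.1 (shr_mono63 (by linarith [hε.2]) hz₁) hx hx.1

theorem locallyIntegrable_WW (hΩ : IsOpen Ω) (hu : PSHd Ω u) (h : IsPen P c) (hc : 0 < c)
    (hδ : 0 < δ) : LocallyIntegrableOn (WW u P δ) (shr Ω (2 * δ)) volume := by
  rw [locallyIntegrableOn_iff (isOpen_shr hΩ _).isLocallyClosed]
  intro K hKs hK
  have hKΩ : K ⊆ Ω := fun z hz => shr_self63 (by positivity) (hKs hz)
  have hatt := isOpen_att hΩ hu h hc hδ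
  have hcont := (contDiffOn_WW hΩ hu h hc hδ).continuousOn
  have hae := ae_exists_IsMn hΩ hu h hc hδ
  set att : Set (V n) := {z | z ∈ shr Ω (2 * δ) ∧ ∃ x, IsMn u P δ z x} with hatt_def
  have hmeas : AEStronglyMeasurable (WW u P δ) (volume.restrict K) := by
    have h1 : AEStronglyMeasurable (WW u P δ) (volume.restrict att) :=
      hcont.aestronglyMeasurable hatt.measurableSet
    have h2 : K =ᵐ[volume] (K ∩ att : Set (V n)) := by
      filter_upwards [hae] with z hz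
      refine propext ⟨fun hzK => ⟨hzK, hKs hzK, (hz (hKs hzK)).1⟩, fun hzK => hzK.1⟩
    rw [Measure.restrict_congr_set h2]
    exact h1.mono_set inter_subset_right
  have hu1 : IntegrableOn u K := hu.int.integrableOn_compact_subset hKΩ hK
  have hP1 : IntegrableOn (fun z => Phi u z δ) K :=
    ((contDiffOn_Phi_left hΩ hu.int hδ).continuousOn.mono
      (fun z hz => shr_mono63 (by linarith) (hKs hz))).integrableOn_compact hK
  have hc1 : IntegrableOn (fun _ : V n => c) K := integrableOn_const hK.measure_lt_top.ne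
  refine Integrable.mono' ((hu1.abs.add hP1.abs).add hc1) hmeas ?_
  rw [ae_restrict_iff' hK.measurableSet]
  filter_upwards [hae] with z hz hzK
  obtain ⟨⟨x, hx⟩, h1⟩ := hz (hKs hzK)
  have h2 := WW_le hΩ hu h hc hδ (hKs hzK) hx
  simp only [Pi.add_apply]
  rw [Real.norm_eq_abs, abs_le]
  constructor
  · have h3 := neg_abs_le (u z)
    have h4 := abs_nonneg (Phi u z δ)
    linarith
  · have h3 := le_abs_self (Phi u z δ)
    have h4 := abs_nonneg (u z)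
    linarith

theorem tendsto_WW_L1 (hΩ : IsOpen Ω) (hu : PSHd Ω u) (h : IsPen P c) (hc : 0 < c)
    (hδ : 0 < δ) {K : Set (V n)} (hK : IsCompact K) (hKs : K ⊆ shr Ω (2 * δ)) :
    Tendsto (fun ε => ∫ z in K, |WW (fun y => Phi u y ε) P δ z - WW u P δ z|) (𝓝[>] 0) (𝓝 0) := by
  obtain ⟨ε₁, hε₁, hK₁⟩ := roomK63 hΩ (by positivity) hK hKs
  have hKΩ : K ⊆ Ω := fun z hz => shr_self63 (by positivity) (hKs hz)
  have hg : PSHd (shr Ω δ) fun y => Phi u y δ := SPsh.pshd (isOpen_shr hΩ δ) (PSHd.mollify hΩ hu hδ)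
  have hKg : ∀ z ∈ K, z ∈ shr (shr Ω δ) ε₁ := fun z hz => shr_shr63 (by linarith) (hK₁ hz)
  obtain ⟨B, hB⟩ := hK.exists_bound_of_continuousOn
    ((contDiffOn_Phi_left (isOpen_shr hΩ δ) hg.int hε₁).continuousOn.mono hKg)
  have hae := ae_exists_IsMn hΩ hu h hc hδ
  have hu1 : IntegrableOn u K := hu.int.integrableOn_compact_subset hKΩ hK
  have hWK : AEStronglyMeasurable (WW u P δ) (volume.restrict K) :=
    ((locallyIntegrable_WW hΩ hu h hc hδ).integrableOn_compact_subset hKs hK).aestronglyMeasurable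
  have hcc : IntegrableOn (fun _ : V n => B + 2 * c) K := integrableOn_const hK.measure_lt_top.ne
  have key := tendsto_integral_filter_of_dominated_convergence (μ := volume.restrict K)
    (l := 𝓝[>] (0 : ℝ))
    (F := fun ε z => |WW (fun y => Phi u y ε) P δ z - WW u P δ z|) (f := fun _ => (0 : ℝ))
    (fun z => (B + 2 * c) + |u z|) ?_ ?_ (hcc.add hu1.abs) ?_
  · simpa using key
  · filter_upwards [Ioc_mem_nhdsGT hε₁] with ε hε
    have h1 : PSHd (shr Ω ε) fun y => Phi u y ε :=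
      SPsh.pshd (isOpen_shr hΩ ε) (PSHd.mollify hΩ hu hε.1)
    have h2 := ((locallyIntegrable_WW (isOpen_shr hΩ ε) h1 h hc hδ).integrableOn_compact_subset
      (fun z hz => shr_shr63 (by linarith [hε.2]) (hK₁ hz)) hK).aestronglyMeasurable
    exact (h2.sub hWK).norm
  · filter_upwards [Ioc_mem_nhdsGT hε₁] with ε hε
    rw [ae_restrict_iff' hK.measurableSet]
    filter_upwards [hae] with z hz hzK
    obtain ⟨⟨x, hx⟩, h1⟩ := hz (hKs hzK)
    have hz2 : z ∈ shr Ω (2 * δ + ε) := shr_mono63 (by linarith [hε.2]) (hK₁ hzK)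
    have h2 := WW_le_mollify hΩ hu h hc hδ hε.1 hz2 hx
    have h3 := WW_le63 hΩ hu hδ hε.1 hz2 hx (Real.log_pos (by norm_num : (1 : ℝ) < 2))
    have h4 := pen_zero63 h hc
    have h5 : Phi (fun y => Phi u y ε) z δ = Phi (fun y => Phi u y δ) z ε :=
      Phi_Phi_comm hΩ hu.int hε.1 hδ (shr_mono63 (by linarith) hz2)
    have h6 := Phi_mono_radius (isOpen_shr hΩ δ) hg hε.1 hε.2 (hKg z hzK)
    have h7 := hB z hzK
    rw [Real.norm_eq_abs] at h7
    have h8 := (abs_le.1 h7).2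
    have h9 := neg_abs_le (u z)
    rw [GG, Real.exp_zero, mul_one, h5] at h3
    rw [Real.norm_eq_abs, abs_abs, abs_of_nonneg (by linarith)]
    linarith
  · rw [ae_restrict_iff' hK.measurableSet]
    filter_upwards [hae] with z hz hzK
    obtain ⟨⟨x, hx⟩, -⟩ := hz (hKs hzK)
    have h1 := tendsto_WW_mollify hΩ hu h hc hδ (hKs hzK) hx
    have h2 := (h1.sub_const (WW u P δ z)).abs
    simpa using h2

/-- the transform of a strictly psh function is strictly psh -/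
private theorem lev_sq63 (a : ℝ) (z v : V n) : lev (fun z : V n => a * ‖z‖ ^ 2) z v = a * ‖v‖ ^ 2 := by
  have hsm : ContDiff ℝ 2 fun z : V n => ‖z‖ ^ 2 := contDiff_norm_sq ℝ
  rw [lev_const_mul a hsm.contDiffAt v]
  have h1 := lev_normSq (z := z) (0 : V n) v
  simp only [sub_zero] at h1
  rw [h1]

private theorem lev_mollify63 (hn : 0 < n) (hΩ : IsOpen Ω) {ε₀ : ℝ} (hε₀ : 0 ≤ ε₀)
    (hu : PSHd Ω fun z => u z - ε₀ * ‖z‖ ^ 2) {ε : ℝ} (hε : 0 < ε) {y : V n} (hy : y ∈ shr Ω ε)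
    (v : V n) : ε₀ * ‖v‖ ^ 2 ≤ lev (fun y => Phi u y ε) y v := by
  have hu' : PSHd Ω u := (GS.of_strict hn hΩ hε₀ hu).psh
  have hw := PSHd.mollify hΩ hu hε
  have hnc : Continuous fun z : V n => ε₀ * ‖z‖ ^ 2 := continuous_const.mul (continuous_norm.pow 2)
  have hni : LocallyIntegrableOn (fun z : V n => ε₀ * ‖z‖ ^ 2) Ω volume :=
    hnc.locallyIntegrable.locallyIntegrableOn _
  have h1 : (fun y => Phi u y ε) =ᶠ[𝓝 y] fun y =>
      Phi (fun z => u z - ε₀ * ‖z‖ ^ 2) y ε + (ε₀ * ‖y‖ ^ 2 + ε₀ * (n * aa n * ε ^ 2)) := by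
    filter_upwards [(isOpen_shr hΩ ε).mem_nhds hy] with w hw'
    have h2 := Phi_add hΩ hu.int hni hε hw'
    have h3 : (fun y => u y - ε₀ * ‖y‖ ^ 2 + ε₀ * ‖y‖ ^ 2) = u := by
      funext y
      ring
    rw [h3] at h2
    have h4 : Phi (fun z : V n => ε₀ * ‖z‖ ^ 2) w ε = ε₀ * ‖w‖ ^ 2 + ε₀ * (n * aa n * ε ^ 2) := by
      have h5 := integral_rho_norm_add_sq w (ε : ℂ)
      rw [Complex.norm_real, Real.norm_eq_abs, sq_abs] at h5
      rw [Phi, M]
      have h6 : ∀ η : V n, rho η * (ε₀ * ‖w + (sc ε : Lin n) η‖ ^ 2) =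
          ε₀ * (rho η * ‖w + (ε : ℂ) • η‖ ^ 2) := by
        intro η
        rw [sc_apply]
        ring
      simp only [h6]
      rw [integral_const_mul, h5]
      ring
    rw [h2, h4]
  have hc1 : ContDiffAt ℝ 2 (fun y => Phi (fun z => u z - ε₀ * ‖z‖ ^ 2) y ε) y :=
    (hw.smooth.contDiffAt ((isOpen_shr hΩ ε).mem_nhds hy)).of_le (two_le63)
  have hsm : ContDiff ℝ 2 fun z : V n => ε₀ * ‖z‖ ^ 2 := contDiff_const.mul (contDiff_norm_sq ℝ)
  rw [lev_congr h1, lev_add hc1 (hsm.contDiffAt.add contDiffAt_const),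
    lev_add hsm.contDiffAt contDiffAt_const, lev_sq63, lev_const, add_zero]
  have := hw.psh y hy v
  linarith

theorem PSHd_WW (hn : 0 < n) (hΩ : IsOpen Ω) {ε₀ : ℝ} (hε₀ : 0 ≤ ε₀)
    (hu : PSHd Ω fun z => u z - ε₀ * ‖z‖ ^ 2) (h : IsPen P c) (hc : 0 < c) (hδ : 0 < δ) :
    PSHd (shr Ω (2 * δ)) fun z => WW u P δ z - ε₀ * ‖z‖ ^ 2 := by
  have hu' : PSHd Ω u := (GS.of_strict hn hΩ hε₀ hu).psh
  have hWi := locallyIntegrable_WW hΩ hu' h hc hδ
  have hnc : Continuous fun z : V n => ε₀ * ‖z‖ ^ 2 := continuous_const.mul (continuous_norm.pow 2)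
  have hnd : ContDiff ℝ (⊤ : ℕ∞) fun z : V n => (-ε₀) * ‖z‖ ^ 2 :=
    contDiff_const.mul (contDiff_norm_sq ℝ)
  refine GS.of_local (isOpen_shr hΩ _) fun z₀ hz₀ => ?_
  obtain ⟨ε₁, hε₁, hz₁⟩ := room63 hΩ (by positivity) hz₀
  have hU : ∀ z ∈ Metric.ball z₀ (ε₁ / 2), z ∈ shr Ω (2 * δ + ε₁ / 2) := by
    intro z hz y hy
    refine hz₁ ?_
    rw [Metric.mem_closedBall] at hy ⊢
    rw [Metric.mem_ball] at hz
    linarith [dist_triangle y z z₀]
  have hUs : Metric.ball z₀ (ε₁ / 2) ⊆ shr Ω (2 * δ) := fun z hz => shr_mono63 (by linarith) (hU z hz)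
  refine ⟨Metric.ball z₀ (ε₁ / 2), Metric.isOpen_ball, Metric.mem_ball_self (by positivity), hUs, ?_⟩
  set a : ℕ → ℝ := fun k => (ε₁ / 2) / ((k : ℝ) + 1) with ha_def
  have ha : ∀ k, 0 < a k := fun k => by positivity
  have ha' : ∀ k, a k ≤ ε₁ / 2 := fun k => by
    refine div_le_self (by positivity) ?_
    have : (0 : ℝ) ≤ k := Nat.cast_nonneg k
    linarith
  have hat : Tendsto a atTop (𝓝[>] 0) := by
    refine tendsto_nhdsWithin_iff.2 ⟨?_, Eventually.of_forall ha⟩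
    exact tendsto_const_nhds.div_atTop (tendsto_atTop_add_const_right _ _ tendsto_natCast_atTop_atTop)
  refine GS.limit Metric.isOpen_ball
    (uk := fun k z => WW (fun y => Phi u y (a k)) P δ z - ε₀ * ‖z‖ ^ 2) (Fk := fun _ _ => 0)
    (fun k => ?_) ?_ (locallyIntegrableOn_const 0) (fun _ _ => le_rfl) ?_
    (Eventually.of_forall fun z _ => ⟨0, le_rfl, tendsto_const_nhds⟩)
  · -- the transform of the mollified function is smooth
    have hsm := PSHd.mollify hΩ hu' (ha k)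
    have hpd : PSHd (shr Ω (a k)) fun y => Phi u y (a k) := SPsh.pshd (isOpen_shr hΩ _) hsm
    have hin : ∀ z ∈ Metric.ball z₀ (ε₁ / 2), z ∈ shr (shr Ω (a k)) (2 * δ) := fun z hz =>
      shr_shr63 (by linarith [ha' k]) (hU z hz)
    have hWs : ContDiffOn ℝ (⊤ : ℕ∞) (WW (fun y => Phi u y (a k)) P δ) (Metric.ball z₀ (ε₁ / 2)) :=
      (contDiffOn_WW (isOpen_shr hΩ _) hpd h hc hδ).mono fun z hz =>
        ⟨hin z hz, SPsh.exists_IsMn (isOpen_shr hΩ _) hsm h hc hδ (hin z hz)⟩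
    have hSP : SPsh (Metric.ball z₀ (ε₁ / 2))
        fun z => WW (fun y => Phi u y (a k)) P δ z + (-ε₀) * ‖z‖ ^ 2 := by
      refine ⟨hWs.add hnd.contDiffOn, fun z hz v => ?_⟩
      have hc2 : ContDiffAt ℝ 2 (WW (fun y => Phi u y (a k)) P δ) z :=
        (hWs.contDiffAt (Metric.isOpen_ball.mem_nhds hz)).of_le (two_le63)
      rw [lev_add hc2 (hnd.contDiffAt.of_le (two_le63)), lev_sq63]
      have := lev_WW_ge (isOpen_shr hΩ _) hsm h hc hδ (hin z hz) hε₀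
        (fun y hy v => lev_mollify63 hn hΩ hε₀ hu (ha k) hy v) v
      linarith
    have h1 := SPsh.pshd Metric.isOpen_ball hSP
    have h2 : (fun z => WW (fun y => Phi u y (a k)) P δ z - ε₀ * ‖z‖ ^ 2) =
        fun z => WW (fun y => Phi u y (a k)) P δ z + (-ε₀) * ‖z‖ ^ 2 := by
      funext z
      ring
    rw [h2]
    exact h1
  · exact (hWi.mono_set hUs).sub (hnc.locallyIntegrable.locallyIntegrableOn _)
  · intro K hKU hK
    have h1 := (tendsto_WW_L1 hΩ hu' h hc hδ hK (hKU.trans hUs)).comp hat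
    refine h1.congr fun k => ?_
    simp only [Function.comp]
    refine integral_congr_ae (Eventually.of_forall fun z => ?_)
    simp only
    congr 1
    ring

/-- pointwise version on the open set where the infimum is attained -/
theorem lev_WW_ge_att (hn : 0 < n) (hΩ : IsOpen Ω) {ε₀ : ℝ} (hε₀ : 0 ≤ ε₀)
    (hu : PSHd Ω fun z => u z - ε₀ * ‖z‖ ^ 2) (h : IsPen P c) (hc : 0 < c) (hδ : 0 < δ)
    {z : V n} (hz : z ∈ shr Ω (2 * δ)) (hx : ∃ x, IsMn u P δ z x) (v : V n) :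
    ε₀ * ‖v‖ ^ 2 ≤ lev (WW u P δ) z v := by
  have hu' : PSHd Ω u := (GS.of_strict hn hΩ hε₀ hu).psh
  have hatt := isOpen_att hΩ hu' h hc hδ
  have hsmW := contDiffOn_WW hΩ hu' h hc hδ
  set att : Set (V n) := {z | z ∈ shr Ω (2 * δ) ∧ ∃ x, IsMn u P δ z x} with hatt_def
  have hzatt : z ∈ att := ⟨hz, hx⟩
  have hW : GS att (fun _ => 0) fun z => WW u P δ z - ε₀ * ‖z‖ ^ 2 :=
    GS.mono_set (PSHd_WW hn hΩ hε₀ hu h hc hδ) hatt fun y hy => hy.1
  have hsm : ContDiff ℝ 2 fun z : V n => (-ε₀) * ‖z‖ ^ 2 := contDiff_const.mul (contDiff_norm_sq ℝ)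
  have hW2 : ContDiffOn ℝ 2 (WW u P δ) att := hsmW.of_le (two_le63)
  have heq : (fun z => WW u P δ z - ε₀ * ‖z‖ ^ 2) = fun z => WW u P δ z + (-ε₀) * ‖z‖ ^ 2 := by
    funext z
    ring
  rw [heq] at hW
  have hq2 : ContDiffOn ℝ 2 (fun z => WW u P δ z + (-ε₀) * ‖z‖ ^ 2) att := hW2.add hsm.contDiffOn
  have hGP := GS.GP_of_smooth hatt hq2 continuousOn_const hW z hzatt
  have hqz : ContDiffAt ℝ 2 (fun z => WW u P δ z + (-ε₀) * ‖z‖ ^ 2) z :=
    hq2.contDiffAt (hatt.mem_nhds hzatt)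
  have h1 : lev (fun z => WW u P δ z + (-ε₀) * ‖z‖ ^ 2) z =
      lf (hess (fun z => WW u P δ z + (-ε₀) * ‖z‖ ^ 2) z) := funext fun w => lev_eq_lf hqz w
  rw [h1] at hGP
  have h2 := hGP.nonneg hn le_rfl v
  rw [← h1, lev_add (hW2.contDiffAt (hatt.mem_nhds hzatt)) hsm.contDiffAt, lev_sq63] at h2
  linarith

/-- upper semicontinuity at the points where the infimum is `-∞` -/
theorem eventually_WW_lt (hΩ : IsOpen Ω) (hu : PSHd Ω u) (hc : 0 < c) (hδ : 0 < δ)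
    {z₀ : V n} (hz : z₀ ∈ shr Ω (2 * δ)) (hx : ¬ ∃ x, IsMn u (P2 c) δ z₀ x) (m : ℝ) :
    ∀ᶠ z in 𝓝 z₀, ∀ x, IsMn u (P2 c) δ z x → WW u (P2 c) δ z < m := by
  have h : IsPen (P2 c) c := Or.inr rfl
  have h1 : ∃ y < Real.log 2, GG u (P2 c) δ z₀ y < m := by
    by_contra hcon
    push Not at hcon
    exact hx (exists_IsMn_P2 hΩ hu hc hδ hz (m := m) hcon)
  obtain ⟨y, hy, hym⟩ := h1
  have h2 : ContinuousAt (fun z => GG u (P2 c) δ z y) z₀ := by
    have h3 := (contDiffOn_GG hΩ hu.int h hδ).continuousOn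
    have h4 : ContinuousOn (fun z => GG u (P2 c) δ z y) (shr Ω (2 * δ)) :=
      h3.comp (f := fun z : V n => (z, y)) (Continuous.continuousOn (by fun_prop))
        fun z hz => ⟨hz, hy⟩
    exact h4.continuousAt ((isOpen_shr hΩ _).mem_nhds hz)
  filter_upwards [h2.eventually (gt_mem_nhds hym)] with z hzm x hx'
  rw [hx'.WW_eq]
  exact (hx'.2 y hy).trans_lt hzm

/-- where `u` is bounded below near `z₀` the infimum is attained -/
theorem exists_IsMn_of_ae_bdd (hΩ : IsOpen Ω) (hu : PSHd Ω u) (h : IsPen P c) (hc : 0 < c)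
    (hδ : 0 < δ) {z₀ : V n} (hz : z₀ ∈ shr Ω (2 * δ)) {r m : ℝ} (hr : 0 < r)
    (hm : ∀ᵐ y, y ∈ Metric.ball z₀ r → m ≤ u y) : ∃ x, IsMn u P δ z₀ x := by
  refine exists_IsMn_of_bdd hΩ hu h hc hδ hz (m := m) fun t ht htδ => ?_
  set s := min t (r / 2) with hs
  have hs0 : 0 < s := lt_min ht (by positivity)
  have hst : s ≤ t := min_le_left _ _
  have hsr : s < r := (min_le_right _ _).trans_lt (by linarith)
  have hzt : z₀ ∈ shr Ω t := shr_mono63 (by linarith) hz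
  refine le_trans ?_ (Phi_mono_radius hΩ hu hs0 hst hzt)
  have hO : IsOpen (Metric.ball z₀ r ∩ Ω) := Metric.isOpen_ball.inter hΩ
  have hzO : z₀ ∈ shr (Metric.ball z₀ r ∩ Ω) s := fun y hy =>
    ⟨(Metric.mem_closedBall.1 hy).trans_lt hsr, hzt (Metric.closedBall_subset_closedBall hst hy)⟩
  have h1 := Phi_mono hO (u := fun _ => m) (v := u) (locallyIntegrableOn_const m)
    (hu.int.mono_set inter_subset_right) (by
      filter_upwards [hm] with y hy hyO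
      exact hy hyO.1) hs0 hzO
  rwa [Phi_const] at h1

end Pool.Agent.Helper29.AM
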