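import Pool.Agent.Helper29.AM.GA2
import Pool.Agent.Helper29.AM.KL4
import Pool.Agent.Helper22.AM.CC4

/-!
# Block AM-GA4: comparison of the transforms in two charts (4.4)

`exists_cmp1` (owner helper22, from (4.1)-(4.3)): for `v ∈ PSX`, `κ = e_j ∘ e_i⁻¹`, `pot j v ∘ κ = pot i v + h` with
`h = g_j∘κ - g_i` pluriharmonic (`Φ_h = h`), `Φ_{pot j v}(κ z, t) ≤ Φ_{pot j v ∘ κ}(z, C₂ t)`.
`exists_cmp2`: with `t' = C₂ t`, `y' = y + log C₂`: for `y' < log 2` and `δ e^y ≤ d₁`,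
`GG_j(y) - g_j ≤ Φ_i(z, δe^{y'}) - g_i + P(y' - log C₂) ≤ GG_i(y') - g_i + c log C₂`
(`P(x - s) ≤ P(x) + c s` for `s ≥ 0`, both penalties). If `y'` is the minimiser in the chart `i` then `y' ≤ 0`, fine.
The `GG_i` bounded below gives `GG_j` bounded below by the inequality with `i` and `j` exchanged
(for `y` near `log 2` use monotonicity of the means and boundedness of `P` on compacts).
`ae_attained`: `ae_exists_IsMn` in all charts and `ae_iff`.
`attained_of_cont`: `exists_IsMn_of_ae_bdd`.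
-/

set_option autoImplicit false

namespace Pool.Agent.Helper29.AM

open MeasureTheory Set Filter Topology
open scoped ComplexOrder

namespace Atl

variable {X : Type} [TopologicalSpace X] [MeasurableSpace X] {n N : ℕ} (A : Atl X n N)

/-- the infimum defining `tr v P δ i x` is attained -/
def Att (v : X → ℝ) (P : ℝ → ℝ) (δ : ℝ) (i : Fin N) (x : X) : Prop :=
  ∃ y, IsMn (A.pot i v) P δ (A.e i x) y

variable [CompactSpace X] [T2Space X] [BorelSpace X]

theorem exists_cmp1 (hn : 0 < n) : ∃ C₂ d₁ : ℝ, 1 ≤ C₂ ∧ 0 < d₁ ∧ C₂ * d₁ ≤ 1 ∧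
    ∀ (v : X → ℝ), A.PSX v → ∀ (i j : Fin N) (x : X), x ∈ A.Ci i 2 → x ∈ A.Ci j 2 →
      ∀ t, 0 < t → t ≤ d₁ →
      Phi (A.pot j v) (A.e j x) t - A.g j (A.e j x) ≤
        Phi (A.pot i v) (A.e i x) (C₂ * t) - A.g i (A.e i x) :=
  Pool.Agent.Helper22.AM.exists_cmp1 A hn

theorem pen_shift {P : ℝ → ℝ} {c : ℝ} (h : IsPen P c) (hc : 0 < c) {x s : ℝ} (hs : 0 ≤ s)
    (hx : x < 1) : P (x - s) ≤ P x + c * s := by
  have hexp : Real.exp (x - s) ≤ Real.exp x := Real.exp_le_exp.2 (by linarith)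
  rcases h with rfl | rfl
  · unfold P1
    nlinarith
  · have hsq : Real.sqrt (1 - x) ≤ Real.sqrt (1 - (x - s)) := Real.sqrt_le_sqrt (by linarith)
    unfold P2
    nlinarith

private theorem shr_mem26 {n : ℕ} {z : V n} (hz : ‖z‖ ≤ 2) {δ : ℝ} (hδ : δ ≤ 1 / 8) :
    z ∈ shr (B3 n) (2 * δ) := by
  intro y hy
  rw [Metric.mem_closedBall, dist_eq_norm] at hy
  rw [Metric.mem_ball, dist_zero_right]
  have h1 : ‖y‖ ≤ ‖z‖ + ‖y - z‖ := by
    have := norm_add_le z (y - z)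
    rwa [add_sub_cancel] at this
  linarith

theorem exists_cmp2 (hn : 0 < n) : ∃ L d₁ : ℝ, 0 < L ∧ 0 < d₁ ∧ d₁ ≤ 1 / 8 ∧
    ∀ (v : X → ℝ), A.PSX v → ∀ (P : ℝ → ℝ) (c δ : ℝ), IsPen P c → 0 < c → 0 < δ → δ ≤ d₁ →
      ∀ (i j : Fin N) (x : X), x ∈ A.Ci i 2 → x ∈ A.Ci j 2 →
      (A.Att v P δ i x → A.Att v P δ j x → |A.tr v P δ i x - A.tr v P δ j x| ≤ L * c) ∧
      (P = P2 c → A.Att v P δ i x → A.Att v P δ j x) := by
  obtain ⟨C₂, d₁, hC₂, hd₁, -, hcmp⟩ := A.exists_cmp1 hn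
  have hC0 : 0 < C₂ := by linarith
  have hlog : 0 ≤ Real.log C₂ := Real.log_nonneg hC₂
  refine ⟨Real.log C₂ + 1, min (1 / 8) (d₁ / 2), by linarith, lt_min (by norm_num) (by linarith),
    min_le_left _ _, ?_⟩
  intro v hv P c δ hP hc hδ hδ1 i j x hi hj
  have hδ8 : δ ≤ 1 / 8 := hδ1.trans (min_le_left _ _)
  have hδd : δ ≤ d₁ / 2 := hδ1.trans (min_le_right _ _)
  -- the main comparison, in both directions
  have key : ∀ i j : Fin N, x ∈ A.Ci i 2 → x ∈ A.Ci j 2 → ∀ y, y < Real.log 2 →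
      GG (A.pot j v) P δ (A.e j x) (y - Real.log C₂) - A.g j (A.e j x) ≤
        GG (A.pot i v) P δ (A.e i x) y - A.g i (A.e i x) + c * Real.log C₂ := by
    intro i j hi hj y hy
    have hy1 : y < 1 := by
      have := Real.log_two_lt_d9
      linarith
    have h1 : δ * Real.exp (y - Real.log C₂) ≤ d₁ := by
      have h2 : Real.exp (y - Real.log C₂) ≤ 2 := by
        rw [← Real.exp_log (show (0 : ℝ) < 2 by norm_num)]
        exact Real.exp_le_exp.2 (by linarith)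
      nlinarith [Real.exp_pos (y - Real.log C₂)]
    have h3 := hcmp v hv i j x hi hj (δ * Real.exp (y - Real.log C₂)) (by positivity) h1
    have h4 : C₂ * (δ * Real.exp (y - Real.log C₂)) = δ * Real.exp y := by
      rw [Real.exp_sub, Real.exp_log hC0]
      field_simp
    rw [h4] at h3
    have h5 := pen_shift hP hc hlog hy1
    unfold GG
    linarith
  have half : ∀ i j : Fin N, x ∈ A.Ci i 2 → x ∈ A.Ci j 2 → A.Att v P δ i x → A.Att v P δ j x →
      A.tr v P δ j x ≤ A.tr v P δ i x + c * Real.log C₂ := by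
    rintro i j hi hj ⟨yi, hyi⟩ ⟨yj, hyj⟩
    unfold Atl.tr
    rw [hyi.WW_eq, hyj.WW_eq]
    have h1 := key i j hi hj yi hyi.1
    have h2 := hyj.2 (yi - Real.log C₂) (by linarith [hyi.1])
    linarith
  refine ⟨fun hai haj => ?_, fun hP2 hai => ?_⟩
  · have h1 := half i j hi hj hai haj
    have h2 := half j i hj hi haj hai
    rw [abs_le]
    constructor <;> nlinarith
  · subst hP2
    obtain ⟨yi, hyi⟩ := hai
    refine exists_IsMn_P2 Metric.isOpen_ball (hv j) hc hδ (shr_mem26 hj.2 hδ8)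
      (m := GG (A.pot i v) (P2 c) δ (A.e i x) yi - A.g i (A.e i x) - c * Real.log C₂ +
        A.g j (A.e j x)) fun y hy => ?_
    have h1 := key j i hj hi y hy
    have h2 := hyi.2 (y - Real.log C₂) (by linarith)
    linarith

omit [CompactSpace X] [T2Space X] in
private theorem ae_chart26 (i : Fin N) {q : V n → Prop} (h : ∀ᵐ z : V n, q z) :
    ∀ᵐ x ∂A.μ, x ∈ (A.e i).source → q (A.e i x) := by
  have hms : MeasurableSet (A.e i).source := (A.e i).open_source.measurableSet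
  rw [← ae_restrict_iff' hms]
  refine ae_of_ae_map ((A.e i).continuousOn.aemeasurable hms) ?_
  rw [A.μ_eq i]
  exact (withDensity_absolutelyContinuous _ _).ae_le (ae_restrict_of_ae h)

theorem ae_attained {v : X → ℝ} (hv : A.PSX v) {P : ℝ → ℝ} {c δ : ℝ} (hP : IsPen P c)
    (hc : 0 < c) (hδ : 0 < δ) (hδ1 : δ ≤ 1 / 8) :
    ∀ᵐ x ∂A.μ, ∀ i, x ∈ A.Ci i 2 → A.Att v P δ i x ∧ v x - c ≤ A.tr v P δ i x ∧
      (P = P1 c → v x ≤ A.tr v P δ i x) := by
  rw [ae_all_iff]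
  intro i
  have h1 : ∀ᵐ z : V n, z ∈ shr (B3 n) (2 * δ) → (∃ y, IsMn (A.pot i v) P δ z y) ∧
      A.pot i v z - c ≤ WW (A.pot i v) P δ z ∧ (P = P1 c → A.pot i v z ≤ WW (A.pot i v) P δ z) := by
    filter_upwards [ae_exists_IsMn Metric.isOpen_ball (hv i) hP hc hδ,
      ae_le_WW_P1 Metric.isOpen_ball (hv i) hc hδ] with z h1 h2 hz
    refine ⟨(h1 hz).1, (h1 hz).2, fun h => ?_⟩
    rw [h]
    exact h2 hz
  filter_upwards [A.ae_chart26 i h1] with x hx hxi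
  have h2 := hx hxi.1 (shr_mem26 hxi.2 hδ1)
  have h3 : A.pot i v (A.e i x) = A.g i (A.e i x) + v x := by
    unfold Atl.pot Atl.lc
    rw [(A.e i).left_inv hxi.1]
  rw [h3] at h2
  refine ⟨h2.1, ?_, fun h => ?_⟩
  · have := h2.2.1
    unfold Atl.tr
    linarith
  · have := h2.2.2 h
    unfold Atl.tr
    linarith

theorem attained_of_bdd {v : X → ℝ} (hv : A.PSX v) {P : ℝ → ℝ} {c δ : ℝ} (hP : IsPen P c)
    (hc : 0 < c) (hδ : 0 < δ) (hδ1 : δ ≤ 1 / 8) {O : Set X} (hO : IsOpen O) {m : ℝ}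
    (hm : ∀ᵐ x ∂A.μ, x ∈ O → m ≤ v x) {x : X} (hx : x ∈ O) {i : Fin N} (hi : x ∈ A.Ci i 2) :
    A.Att v P δ i x := by
  obtain ⟨Cg, hCg, hg⟩ := A.exists_g_bound
  have h1 : IsOpen ((A.e i).target ∩ (A.e i).symm ⁻¹' O) := A.isOpen_preimage_symm i hO
  have h2 : A.e i x ∈ (A.e i).target ∩ (A.e i).symm ⁻¹' O := by
    refine ⟨(A.e i).map_source hi.1, ?_⟩
    rw [mem_preimage, (A.e i).left_inv hi.1]
    exact hx
  obtain ⟨r, hr, hball⟩ := Metric.isOpen_iff.1 h1 _ h2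
  refine exists_IsMn_of_ae_bdd Metric.isOpen_ball (hv i) hP hc hδ (shr_mem26 hi.2 hδ1)
    (r := min r 1) (m := m - Cg) (lt_min hr one_pos) ?_
  filter_upwards [A.ae_target hm i] with y hy hyb
  rw [Metric.mem_ball] at hyb
  have h3 := hball (Metric.mem_ball.2 (hyb.trans_le (min_le_left _ _)))
  have h4 := hy h3.1 h3.2
  have h5 : ‖y‖ ≤ 4 := by
    have h6 := norm_add_le (A.e i x) (y - A.e i x)
    rw [add_sub_cancel] at h6
    rw [dist_eq_norm] at hyb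
    have h7 := hyb.trans_le (min_le_right _ _)
    have := hi.2
    linarith
  have h8 := (abs_le.1 (hg i y h5)).1
  unfold Atl.pot Atl.lc
  linarith

/-- upper bound of the transform: `v ≤ C` gives `tr ≤ C + c + C_g δ²` -/
theorem exists_tr_le : ∃ Cg : ℝ, 0 < Cg ∧ ∀ (v : X → ℝ), A.PSX v → ∀ C : ℝ,
    (∀ᵐ x ∂A.μ, v x ≤ C) → ∀ (P : ℝ → ℝ) (c δ : ℝ), IsPen P c → 0 < c → 0 < δ → δ ≤ 1 / 8 →
    ∀ (i : Fin N) (x : X), x ∈ A.Ci i 2 → A.Att v P δ i x →
      A.tr v P δ i x ≤ C + c + Cg * δ ^ 2 := by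
  obtain ⟨Cg, hCg, hg⟩ := A.exists_Phi_g_bound
  refine ⟨Cg, hCg, ?_⟩
  rintro v hv C hC P c δ hP hc hδ hδ1 i x hi ⟨y, hy⟩
  have hz := shr_mem26 (n := n) hi.2 hδ1
  have hz1 : A.e i x ∈ shr (B3 n) δ :=
    (Metric.closedBall_subset_closedBall (by linarith)).trans hz
  have h1 := WW_le Metric.isOpen_ball (hv i) hP hc hδ hz hy
  have hgi : LocallyIntegrableOn (A.g i) (B3 n) volume :=
    ((A.g_smooth i).continuousOn.mono (A.B3_subset i)).locallyIntegrableOn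
      Metric.isOpen_ball.measurableSet
  have h2 : Phi (A.pot i v) (A.e i x) δ ≤ Phi (fun y => A.g i y + C) (A.e i x) δ := by
    refine Phi_mono Metric.isOpen_ball (hv i).int (hgi.add (locallyIntegrableOn_const C)) ?_ hδ hz1
    filter_upwards [A.ae_target hC i] with y hy hyb
    have := hy (A.B3_subset i hyb)
    change A.g i y + v ((A.e i).symm y) ≤ A.g i y + C
    linarith
  rw [Phi_add Metric.isOpen_ball hgi (locallyIntegrableOn_const C) hδ hz1, Phi_const] at h2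
  have h3 := (abs_le.1 (hg i (A.e i x) hi.2 δ hδ.le (by linarith))).2
  unfold Atl.tr
  linarith

end Atl

end Pool.Agent.Helper29.AM
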