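import Pool.Agent.Helper29.AM.GA3
import Pool.Agent.Helper29.AM.GA4
import Pool.Agent.Helper32.Hol

/-!
# Block AM-N1: nice Kähler currents (5.2)

`ψ₀` Kähler current, bounded a.e. near `x₀`; it is bounded above on `X` (a.e. `pot i ψ₀ ≤ Φ(·,1)` on
`B(2)`, continuous, hence bounded on `closedBall 0 1`). Use `P2 c`, `δ = d₁` fixed, `c > 0` small:
`κ := L c` with `κ + ε₁' ≤ ε₀` where `ε₁' = ε₀/2`. `s i := tr ψ₀ (P2 c) δ i`.
`D := {x | ∀ i, x ∈ C_i(2) → Att i x}` = `{x | ∃ i, x ∈ C_i(2) ∧ Att i x}` (`exists_cmp2`), open (`isOpen_att`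
in a chart with `x ∈ B_i(1)`), conull (`ae_attained`), `x₀ ∈ D` (`attained_of_bdd`).
`ψ := glue s κ - const` on `D`, and `-1` (say) outside `D`. Pieces: `k = i`, `D_k = D ∩ B_i(2)`,
`ψ_k = s i - κ|z_i|² - const`, smooth by `contDiffOn_WW`; `lev (pot i ψ_i) = lev WW - κ ≥ ε₀ - κ` by
`lev_WW_ge_att`, in the other charts by `exists_KCX_const`. KCX: `exists_KCX_of_glue`, `PSHd_WW`.
`cont`: near `x ∈ D` the function is a maximum of finitely many continuous functions (`eventually_glue`).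
`cpt`: `{ψ ≥ -j} ∩ D` is closed: if `x ∉ D`, `eventually_WW_lt` in all the charts `i` with `x ∈ B_i(2)` and
`eventually_glue` show `ψ < -j` near `x` on `D`.
-/

set_option autoImplicit false

namespace Pool.Agent.Helper29.AM

open MeasureTheory Set Filter Topology
open scoped ComplexOrder

private theorem mem_shr52 {n : ℕ} {z : V n} {r s : ℝ} (hz : ‖z‖ + r < s) : z ∈ shr (Metric.ball 0 s) r := by
  intro y hy
  rw [Metric.mem_closedBall, dist_eq_norm] at hy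
  rw [Metric.mem_ball, dist_zero_right]
  have h : ‖y‖ ≤ ‖y - z‖ + ‖z‖ := by simpa using norm_add_le (y - z) z
  linarith

private theorem two_le52 : (2 : WithTop ℕ∞) ≤ ((⊤ : ℕ∞) : WithTop ℕ∞) := WithTop.coe_le_coe.2 le_top

namespace Atl

variable {X : Type} [TopologicalSpace X] [MeasurableSpace X] {n N : ℕ} (A : Atl X n N)

private theorem pot_tr52 (v : X → ℝ) (P : ℝ → ℝ) (δ : ℝ) (i : Fin N) {z : V n} (hz : z ∈ (A.e i).target) :
    A.pot i (A.tr v P δ i) z = WW (A.pot i v) P δ z := by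
  unfold pot lc tr
  rw [(A.e i).right_inv hz]
  ring_nf
  rfl

private theorem cover52 (x : X) : ∃ i, x ∈ A.Bi i 1 := A.cover x

private theorem Bi_mono52 {i : Fin N} {r s : ℝ} (h : r ≤ s) : A.Bi i r ⊆ A.Bi i s :=
  fun _ hx => ⟨hx.1, hx.2.trans_le h⟩

variable [CompactSpace X] [T2Space X] [BorelSpace X]

theorem PSX.bddAbove {v : X → ℝ} (h : A.PSX v) : ∃ C : ℝ, ∀ᵐ x ∂A.μ, v x ≤ C := by
  obtain ⟨Cg, hCg, hg⟩ := A.exists_g_bound
  have key : ∀ i, ∃ C : ℝ, ∀ᵐ z : V n, z ∈ Metric.ball 0 1 → v ((A.e i).symm z) ≤ C := by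
    intro i
    have hO : IsOpen (B3 n) := Metric.isOpen_ball
    have hcont : ContinuousOn (fun z => Phi (A.pot i v) z 1) (shr (B3 n) 1) :=
      (contDiffOn_Phi_left hO (h i).int one_pos).continuousOn
    have hsub : Metric.closedBall (0 : V n) 1 ⊆ shr (B3 n) 1 := fun z hz => mem_shr52 (by
      rw [Metric.mem_closedBall, dist_zero_right] at hz
      linarith)
    obtain ⟨M, hM⟩ := (isCompact_closedBall (0 : V n) 1).exists_bound_of_continuousOn (hcont.mono hsub)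
    refine ⟨M + Cg, ?_⟩
    filter_upwards [le_Phi hO (h i)] with z hz hz1
    have hz2 : ‖z‖ < 1 := by rwa [Metric.mem_ball, dist_zero_right] at hz1
    have hz3 : z ∈ Metric.closedBall (0 : V n) 1 := Metric.ball_subset_closedBall hz1
    have h1 := hz (by rw [Metric.mem_ball, dist_zero_right]; linarith) 1 one_pos (hsub hz3)
    have h2 := (le_abs_self _).trans (hM z hz3)
    have h3 := (abs_le.1 (hg i z (by linarith))).1
    have h4 : A.pot i v z = A.g i z + v ((A.e i).symm z) := rfl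
    linarith
  choose C hC using key
  obtain ⟨M, hM⟩ := (Set.finite_range C).bddAbove
  refine ⟨M, (A.ae_iff_ball).2 fun i => ?_⟩
  filter_upwards [hC i] with z hz hz1
  exact (hz hz1).trans (hM ⟨i, rfl⟩)

section pieces52

variable {ψ₀ : X → ℝ} {c δ κ : ℝ}

omit [CompactSpace X] [T2Space X] [BorelSpace X]

/-- the set of points of a chart where the transform is attained -/
private def att52 (ψ₀ : X → ℝ) (c δ : ℝ) (i : Fin N) : Set (V n) :=
  {z | z ∈ shr (B3 n) (2 * δ) ∧ ∃ y, IsMn (A.pot i ψ₀) (P2 c) δ z y}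

private theorem isOpen_att52 (hψ : A.PSX ψ₀) (hc : 0 < c) (hδ : 0 < δ) (i : Fin N) :
    IsOpen (A.att52 ψ₀ c δ i) := isOpen_att Metric.isOpen_ball (hψ i) (Or.inr rfl) hc hδ

private theorem mem_att52 (hδ1 : δ ≤ 1 / 8) {i : Fin N} {x : X} (hx : ‖A.e i x‖ ≤ 2)
    (h : A.Att ψ₀ (P2 c) δ i x) : A.e i x ∈ A.att52 ψ₀ c δ i :=
  ⟨mem_shr52 (by linarith), h⟩

private theorem WW_cd52 (hψ : A.PSX ψ₀) (hc : 0 < c) (hδ : 0 < δ) {i : Fin N} {z : V n}
    (hz : z ∈ A.att52 ψ₀ c δ i) : ContDiffAt ℝ (⊤ : ℕ∞) (WW (A.pot i ψ₀) (P2 c) δ) z :=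
  (contDiffOn_WW Metric.isOpen_ball (hψ i) (Or.inr rfl) hc hδ).contDiffAt
    ((A.isOpen_att52 hψ hc hδ i).mem_nhds hz)

/-- the piece of the chart `i` -/
private noncomputable def pc52 (ψ₀ : X → ℝ) (c δ κ K : ℝ) (i : Fin N) (x : X) : ℝ :=
  A.tr ψ₀ (P2 c) δ i x - κ * ‖A.e i x‖ ^ 2 - K

private theorem pc_cont52 (hψ : A.PSX ψ₀) (hc : 0 < c) (hδ : 0 < δ) (hδ1 : δ ≤ 1 / 8) {K : ℝ} {i : Fin N} {x : X}
    (hx : x ∈ A.Bi i 2) (h : A.Att ψ₀ (P2 c) δ i x) : ContinuousAt (A.pc52 ψ₀ c δ κ K i) x := by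
  have h1 : ContinuousAt (A.e i) x := (A.e i).continuousAt hx.1
  have h2 : ContinuousAt (WW (A.pot i ψ₀) (P2 c) δ) (A.e i x) :=
    (A.WW_cd52 hψ hc hδ (A.mem_att52 hδ1 hx.2.le h)).continuousAt
  have h3 : ContinuousAt (A.g i) (A.e i x) :=
    (A.g_smooth i).continuousOn.continuousAt ((A.e i).open_target.mem_nhds ((A.e i).map_source hx.1))
  exact (((h2.comp h1).sub (h3.comp h1)).sub (continuousAt_const.mul (h1.norm.pow 2))).sub continuousAt_const

/-- the transition maps are smooth -/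
private theorem trans_cd52 (i k : Fin N) {z : V n} (hz : z ∈ ((A.e i).symm.trans (A.e k)).source) :
    ContDiffAt ℝ (⊤ : ℕ∞) (fun y => A.e k ((A.e i).symm y)) z :=
  (Pool.Agent.Helper32.contDiffOn_hol_real ((A.e i).symm.trans (A.e k)).open_source (A.hol i k)).contDiffAt
    (((A.e i).symm.trans (A.e k)).open_source.mem_nhds hz)

/-- a piece in its own chart -/
private theorem pot_pc52 {K : ℝ} {k : Fin N} {w : V n} (hw : w ∈ (A.e k).target) :
    A.pot k (A.pc52 ψ₀ c δ κ K k) w = WW (A.pot k ψ₀) (P2 c) δ w + ((-κ) * ‖w - 0‖ ^ 2 + (-K)) := by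
  have h := A.pot_tr52 ψ₀ (P2 c) δ k hw
  unfold pot lc at h
  unfold pot lc pc52
  rw [(A.e k).right_inv hw, sub_zero]
  linarith

private theorem pot_pc_cd52 (hψ : A.PSX ψ₀) (hc : 0 < c) (hδ : 0 < δ) {K : ℝ} {k : Fin N} {w : V n}
    (hwt : w ∈ (A.e k).target) (hw : w ∈ A.att52 ψ₀ c δ k) :
    ContDiffAt ℝ (⊤ : ℕ∞) (A.pot k (A.pc52 ψ₀ c δ κ K k)) w := by
  have h1 : ContDiffAt ℝ (⊤ : ℕ∞) (fun w : V n => WW (A.pot k ψ₀) (P2 c) δ w + ((-κ) * ‖w - 0‖ ^ 2 + (-K))) w := by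
    refine (A.WW_cd52 hψ hc hδ hw).add ((contDiffAt_const.mul ?_).add contDiffAt_const)
    exact ((contDiff_norm_sq ℝ).contDiffAt (x := w - 0)).comp w (contDiffAt_id.sub contDiffAt_const)
  refine h1.congr_of_eventuallyEq ?_
  filter_upwards [(A.e k).open_target.mem_nhds hwt] with y hy
  exact A.pot_pc52 hy

private theorem lev_pc52 (hn : 0 < n) (hψ : A.PSX ψ₀) (hc : 0 < c) (hδ : 0 < δ) {ε₀ K : ℝ} (hε₀ : 0 ≤ ε₀)
    (hψ₀ : A.KCX ε₀ ψ₀) {k : Fin N} {w : V n} (hwt : w ∈ (A.e k).target) (hw : w ∈ A.att52 ψ₀ c δ k) (v : V n) :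
    (ε₀ - κ) * ‖v‖ ^ 2 ≤ lev (A.pot k (A.pc52 ψ₀ c δ κ K k)) w v := by
  have h0 : ContDiffAt ℝ 2 (WW (A.pot k ψ₀) (P2 c) δ) w := (A.WW_cd52 hψ hc hδ hw).of_le two_le52
  have hN : ContDiffAt ℝ 2 (fun y : V n => ‖y - 0‖ ^ 2) w :=
    (((contDiff_norm_sq ℝ).contDiffAt (x := w - 0)).comp w (contDiffAt_id.sub contDiffAt_const))
  have h1 : lev (A.pot k (A.pc52 ψ₀ c δ κ K k)) w v =
      lev (fun w : V n => WW (A.pot k ψ₀) (P2 c) δ w + ((-κ) * ‖w - 0‖ ^ 2 + (-K))) w v := by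
    refine lev_congr ?_ v
    filter_upwards [(A.e k).open_target.mem_nhds hwt] with y hy
    exact A.pot_pc52 hy
  rw [h1, lev_add h0 ((contDiffAt_const.mul hN).add contDiffAt_const), lev_add (contDiffAt_const.mul hN) contDiffAt_const,
    lev_const_mul _ hN, lev_normSq, lev_const]
  have h2 := lev_WW_ge_att hn Metric.isOpen_ball hε₀ (hψ₀ k) (Or.inr rfl) hc hδ hw.1 hw.2 v
  nlinarith

end pieces52

theorem exists_nice (hn : 0 < n) {ε₀ : ℝ} (hε₀ : 0 < ε₀) {ψ₀ : X → ℝ} (hψ₀ : A.KCX ε₀ ψ₀)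
    {x₀ : X} {U : Set X} (hU : IsOpen U) (hx₀ : x₀ ∈ U) {C : ℝ}
    (hb : ∀ᵐ x ∂A.μ, x ∈ U → |ψ₀ x| ≤ C) :
    ∃ (D : Set X) (ψ : X → ℝ) (ε : ℝ), x₀ ∈ D ∧ A.Nice D ψ ε := by
  classical
  have hOB : IsOpen (B3 n) := Metric.isOpen_ball
  have hψ : A.PSX ψ₀ := fun i => (GS.of_strict hn hOB hε₀.le (hψ₀ i)).psh
  obtain ⟨L, d₁, hL, hd, hd8, hcmp⟩ := A.exists_cmp2 hn
  obtain ⟨ρ₁, hρ₁, hρ₁', hglue⟩ := A.exists_KCX_of_glue
  obtain ⟨ρ₂, hρ₂, hρ₂', -, htrans⟩ := A.exists_KCX_const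
  obtain ⟨Cu, hCu⟩ := PSX.bddAbove A hψ
  obtain ⟨Ct, hCt, htr⟩ := A.exists_tr_le
  obtain ⟨Cg, hCg, hg⟩ := A.exists_g_bound
  obtain ⟨c, hcdef⟩ : ∃ c : ℝ, c = ε₀ / (2 * L) := ⟨_, rfl⟩
  have hc : 0 < c := by rw [hcdef]; positivity
  have hLc : L * c = ε₀ / 2 := by rw [hcdef]; field_simp
  have hP : IsPen (P2 c) c := Or.inr rfl
  obtain ⟨K, hK⟩ : ∃ K : ℝ, K = Cu + c + Ct * d₁ ^ 2 + 1 := ⟨_, rfl⟩
  set κ : ℝ := ε₀ / 2 with hκ
  have hκ0 : 0 < κ := by positivity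
  set s : Fin N → X → ℝ := fun i => A.tr ψ₀ (P2 c) d₁ i with hs
  set D : Set X := {x | ∃ i, x ∈ A.Ci i 2 ∧ A.Att ψ₀ (P2 c) d₁ i x} with hD
  -- all charts see the same set
  have hDall : ∀ x ∈ D, ∀ i, x ∈ A.Ci i 2 → A.Att ψ₀ (P2 c) d₁ i x := by
    rintro x ⟨j, hj, hatt⟩ i hi
    exact (hcmp ψ₀ hψ (P2 c) c d₁ hP hc hd le_rfl j i x hj hi).2 rfl hatt
  have hov : ∀ x ∈ D, ∀ i j, x ∈ A.Bi i 2 → x ∈ A.Bi j 2 → |s i x - s j x| ≤ κ := by
    intro x hx i j hi hj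
    have h1 := (hcmp ψ₀ hψ (P2 c) c d₁ hP hc hd le_rfl i j x (A.Bi_subset_Ci i 2 hi) (A.Bi_subset_Ci j 2 hj)).1
      (hDall x hx i (A.Bi_subset_Ci i 2 hi)) (hDall x hx j (A.Bi_subset_Ci j 2 hj))
    rw [hLc] at h1
    exact h1
  -- `D` is open
  have hDo : IsOpen D := by
    rw [isOpen_iff_mem_nhds]
    intro x hx
    obtain ⟨i, hi⟩ := A.cover52 x
    have hi2 : x ∈ A.Bi i 2 := A.Bi_mono52 (by norm_num) hi
    have h1 : A.e i x ∈ A.att52 ψ₀ c d₁ i := A.mem_att52 hd8 hi2.2.le (hDall x hx i (A.Bi_subset_Ci i 2 hi2))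
    filter_upwards [(A.isOpen_Bi i 2).mem_nhds hi2,
      ((A.e i).continuousAt hi.1).preimage_mem_nhds ((A.isOpen_att52 hψ hc hd i).mem_nhds h1)] with y hy hy2
    exact ⟨i, A.Bi_subset_Ci i 2 hy, hy2.2⟩
  -- `D` is conull
  have hDae : ∀ᵐ x ∂A.μ, x ∈ D := by
    filter_upwards [A.ae_attained hψ hP hc hd hd8] with x hx
    obtain ⟨i, hi⟩ := A.cover52 x
    have hi2 : x ∈ A.Ci i 2 := A.Bi_subset_Ci i 2 (A.Bi_mono52 (by norm_num) hi)
    exact ⟨i, hi2, (hx i hi2).1⟩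
  have hx₀D : x₀ ∈ D := by
    obtain ⟨i, hi⟩ := A.cover52 x₀
    have hi2 : x₀ ∈ A.Ci i 2 := A.Bi_subset_Ci i 2 (A.Bi_mono52 (by norm_num) hi)
    refine ⟨i, hi2, A.attained_of_bdd hψ hP hc hd hd8 hU (m := -C) ?_ hx₀ hi2⟩
    filter_upwards [hb] with x hx hxU
    exact (abs_le.1 (hx hxU)).1
  -- the function
  set G : X → ℝ := A.glue s κ with hG
  set ψ : X → ℝ := fun x => if x ∈ D then G x - K else -1 with hψdef
  have hψD : ∀ x ∈ D, ψ x = G x - K := fun x hx => if_pos hx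
  have hGle : ∀ x ∈ D, G x ≤ K - 1 := by
    intro x hx
    obtain ⟨i, hi, he⟩ := A.exists_eq_glue s κ x
    rw [hG, he]
    have h1 := htr ψ₀ hψ Cu hCu (P2 c) c d₁ hP hc hd hd8 i x (A.Bi_subset_Ci i 2 hi) (hDall x hx i (A.Bi_subset_Ci i 2 hi))
    have h2 : 0 ≤ κ * ‖A.e i x‖ ^ 2 := by positivity
    have h3 : s i x = A.tr ψ₀ (P2 c) d₁ i x := rfl
    rw [h3]
    linarith
  -- continuity
  have hcont : ∀ x ∈ D, ContinuousAt ψ x := by
    intro x hx
    obtain ⟨O, hO, hxO, hOB2, hOg⟩ := A.eventually_glue x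
    obtain ⟨j, hj⟩ := A.cover52 x
    have hj2 : x ∈ A.Bi j 2 := A.Bi_mono52 (by norm_num) hj
    set I : Finset (Fin N) := Finset.univ.filter fun i => x ∈ A.Bi i 2 with hI
    have hIne : I.Nonempty := ⟨j, by simp [hI, hj2]⟩
    have h1 : ContinuousAt (fun y => I.sup' hIne fun i => A.pc52 ψ₀ c d₁ κ K i y) x := by
      refine ContinuousAt.finset_sup'_apply hIne fun i hi => ?_
      have hi2 : x ∈ A.Bi i 2 := (Finset.mem_filter.1 hi).2
      exact A.pc_cont52 hψ hc hd hd8 hi2 (hDall x hx i (A.Bi_subset_Ci i 2 hi2))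
    refine h1.congr ?_
    filter_upwards [hO.mem_nhds hxO, hDo.mem_nhds hx] with y hyO hyD
    rw [hψD y hyD]
    refine le_antisymm ?_ ?_
    · refine Finset.sup'_le hIne _ fun i hi => ?_
      have hi2 : y ∈ A.Bi i 2 := hOB2 i (Finset.mem_filter.1 hi).2 hyO
      exact sub_le_sub_right (A.le_glue s κ hi2) K
    · obtain ⟨i, hi, he⟩ := hOg s κ hκ0.le y hyO (hov y hyD)
      rw [hG, he]
      exact Finset.le_sup' (fun i => A.pc52 ψ₀ c d₁ κ K i y) (Finset.mem_filter.2 ⟨Finset.mem_univ i, hi⟩)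
  -- the constant
  obtain ⟨ε, hε⟩ : ∃ ε : ℝ, ε = min (ρ₁ * κ) (ρ₂ * κ) := ⟨_, rfl⟩
  have hε0 : 0 < ε := by
    rw [hε]
    exact lt_min (by positivity) (by positivity)
  -- strict positivity of the glued function
  have hKG : A.KCX (ρ₁ * κ) G := by
    refine hglue κ κ hκ0.le hκ0.le s ?_ fun i => ?_
    · filter_upwards [hDae] with x hx
      exact hov x hx
    · have h1 := PSHd_WW hn hOB hε₀.le (hψ₀ i) hP hc hd
      have h2 : Metric.ball (0 : V n) 2 ⊆ shr (B3 n) (2 * d₁) := by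
        intro z hz
        rw [Metric.mem_ball, dist_zero_right] at hz
        exact mem_shr52 (by linarith)
      refine (GS.mono_set h1 Metric.isOpen_ball h2).congr Metric.isOpen_ball (Eventually.of_forall fun z hz => ?_)
      have hz4 : ‖z‖ ≤ 4 := by
        rw [Metric.mem_ball, dist_zero_right] at hz
        linarith
      have h3 : A.pot i (s i) z = WW (A.pot i ψ₀) (P2 c) d₁ z := A.pot_tr52 ψ₀ (P2 c) d₁ i (A.mem_target_of_norm_le hz4)
      have h4 : κ + κ = ε₀ := by rw [hκ]; ring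
      simp only [h3, h4]
  refine ⟨D, ψ, ε, hx₀D, hDo, ?_, hε0, ?_, fun x hx => (hcont x hx).continuousWithinAt, ?_, ?_, ?_⟩
  · exact hDae
  · intro i
    have h1 : PSHd (B3 n) fun z => A.pot i G z - ε * ‖z‖ ^ 2 := by
      refine (GS.of_strict hn hOB (ε := ρ₁ * κ - ε) ?_ ?_).psh
      · rw [hε]
        exact sub_nonneg.2 (min_le_left _ _)
      · have h2 : (fun z : V n => A.pot i G z - ε * ‖z‖ ^ 2 - (ρ₁ * κ - ε) * ‖z‖ ^ 2) =
            fun z : V n => A.pot i G z - ρ₁ * κ * ‖z‖ ^ 2 := by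
          funext z
          ring
        rw [h2]
        exact hKG i
    have h2 := GS.add_ph hOB h1 (q := fun _ => -K) contDiffOn_const fun z _ w => lev_const (-K) w
    refine h2.congr hOB ?_
    filter_upwards [(A.ae_iff.1 hDae) i] with z hz hzB
    have h3 : A.pot i ψ z = A.g i z + ψ ((A.e i).symm z) := rfl
    have h4 : A.pot i G z = A.g i z + G ((A.e i).symm z) := rfl
    rw [h3, h4, hψD _ (hz hzB)]
    ring
  · intro x
    by_cases hx : x ∈ D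
    · rw [hψD x hx]
      linarith [hGle x hx]
    · exact (if_neg hx).le
  · intro j
    refine IsClosed.isCompact ?_
    rw [← isOpen_compl_iff, isOpen_iff_mem_nhds]
    intro x hx
    by_cases hxD : x ∈ D
    · have h1 : ψ x < -j := by
        by_contra hcon
        exact hx ⟨hxD, not_lt.1 hcon⟩
      filter_upwards [(hcont x hxD).eventually_lt continuousAt_const h1] with y hy hy2
      exact absurd hy2.2 (not_le.2 hy)
    · obtain ⟨O, hO, hxO, hOB2, hOg⟩ := A.eventually_glue x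
      have h1 : ∀ i, ∀ᶠ y in 𝓝 x, x ∈ A.Bi i 2 → ∀ t, IsMn (A.pot i ψ₀) (P2 c) d₁ (A.e i y) t →
          WW (A.pot i ψ₀) (P2 c) d₁ (A.e i y) < -j + K - Cg := by
        intro i
        by_cases hi : x ∈ A.Bi i 2
        · have h2 : A.e i x ∈ shr (B3 n) (2 * d₁) := mem_shr52 (by linarith [hi.2])
          have h3 : ¬ ∃ t, IsMn (A.pot i ψ₀) (P2 c) d₁ (A.e i x) t := fun h4 =>
            hxD ⟨i, A.Bi_subset_Ci i 2 hi, h4⟩
          have h4 := eventually_WW_lt hOB (hψ i) hc hd h2 h3 (-j + K - Cg)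
          filter_upwards [((A.e i).continuousAt hi.1).eventually h4] with y hy _ t ht
          exact hy t ht
        · exact Eventually.of_forall fun y h2 => absurd h2 hi
      filter_upwards [hO.mem_nhds hxO, Filter.eventually_all.2 h1] with y hyO hy hy2
      obtain ⟨i, hi, he⟩ := hOg s κ hκ0.le y hyO (hov y hy2.1)
      have hi2 : y ∈ A.Bi i 2 := hOB2 i hi hyO
      obtain ⟨t, ht⟩ := hDall y hy2.1 i (A.Bi_subset_Ci i 2 hi2)
      have h2 := hy i hi t ht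
      have h3 := hy2.2
      rw [hψD y hy2.1, hG, he] at h3
      have h4 : s i y = WW (A.pot i ψ₀) (P2 c) d₁ (A.e i y) - A.g i (A.e i y) := rfl
      have h5 := (abs_le.1 (hg i (A.e i y) (by linarith [hi2.2]))).1
      have h6 : 0 ≤ κ * ‖A.e i y‖ ^ 2 := by positivity
      rw [h4] at h3
      linarith
  · refine ⟨N, fun k => D ∩ A.Bi k 2, fun k => A.pc52 ψ₀ c d₁ κ K k, fun k => hDo.inter (A.isOpen_Bi k 2),
      fun k => Set.inter_subset_left, ?_, ?_, ?_, ?_⟩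
    · -- smoothness
      intro k i z hz
      have hzt : z ∈ (A.e i).target := hz.1
      have hzD : (A.e i).symm z ∈ D := hz.2.1
      have hzB : (A.e i).symm z ∈ A.Bi k 2 := hz.2.2
      have hzs : z ∈ ((A.e i).symm.trans (A.e k)).source := by
        rw [OpenPartialHomeomorph.trans_source]
        exact ⟨hzt, hzB.1⟩
      have hatt : A.e k ((A.e i).symm z) ∈ A.att52 ψ₀ c d₁ k :=
        A.mem_att52 hd8 hzB.2.le (hDall _ hzD k (A.Bi_subset_Ci k 2 hzB))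
      have hτ := A.trans_cd52 i k hzs
      have h1 := (A.WW_cd52 hψ hc hd hatt).comp z hτ
      have h2 : ContDiffAt ℝ (⊤ : ℕ∞) (A.g k) (A.e k ((A.e i).symm z)) :=
        (A.g_smooth k).contDiffAt ((A.e k).open_target.mem_nhds ((A.e k).map_source hzB.1))
      have h3 := h2.comp z hτ
      have h4 := ((contDiff_norm_sq ℝ).contDiffAt (x := A.e k ((A.e i).symm z))).comp z hτ
      exact (((h1.sub h3).sub (contDiffAt_const.mul h4)).sub contDiffAt_const).contDiffWithinAt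
    · intro k x hx
      rw [hψD x hx.1]
      exact sub_le_sub_right (A.le_glue s κ hx.2) K
    · intro x hx
      obtain ⟨i, hi, he⟩ := A.exists_eq_glue s κ x
      refine ⟨i, ⟨hx, hi⟩, ?_⟩
      rw [hψD x hx, hG, he]
      rfl
    · intro k i z hzt hz3 hzD w
      have hzB : (A.e i).symm z ∈ A.Bi k 2 := hzD.2
      have hatt : A.e k ((A.e i).symm z) ∈ A.att52 ψ₀ c d₁ k :=
        A.mem_att52 hd8 hzB.2.le (hDall _ hzD.1 k (A.Bi_subset_Ci k 2 hzB))
      have hwt : A.e k ((A.e i).symm z) ∈ (A.e k).target := (A.e k).map_source hzB.1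
      have h1 := htrans (A.pc52 ψ₀ c d₁ κ K k) κ i k z hκ0.le hz3.le
        (A.Bi_subset_Ci k 3 (A.Bi_mono52 (by norm_num) hzB))
        ((A.pot_pc_cd52 hψ hc hd hwt hatt).of_le two_le52)
        (fun v => by
          have h2 := A.lev_pc52 (κ := κ) (K := K) hn hψ hc hd hε₀.le hψ₀ hwt hatt v
          have h3 : ε₀ - κ = κ := by rw [hκ]; ring
          rwa [h3] at h2) w
      refine le_trans ?_ h1
      refine mul_le_mul_of_nonneg_right ?_ (by positivity)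
      rw [hε]
      exact min_le_right _ _

end Atl

end Pool.Agent.Helper29.AM
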