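import Pool.Agent.Helper29.AM.Glob

/-!
# Project AM: pairs of nice Kähler currents
-/

set_option autoImplicit false

namespace Pool.Agent.Helper29.AM

open MeasureTheory Set Filter Topology
open scoped ComplexOrder

namespace Atl

variable {X : Type} [TopologicalSpace X] [MeasurableSpace X] {n N : ℕ} (A : Atl X n N)

/-- a pair of nice Kähler currents, `ψ2` more singular than `ψ` (5.3) -/
structure NicePair (D : Set X) (ψ ψ2 : X → ℝ) (ε a₀ : ℝ) : Prop where
  nice : A.Nice D ψ ε
  nice2 : A.Nice D ψ2 ε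
  pos : 0 < a₀
  eq : ∀ x ∈ D, ψ2 x = ψ x - a₀ * Real.log (-ψ x)

end Atl

end Pool.Agent.Helper29.AM
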