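import Pool.Agent.Helper29.AM.GA3
import Pool.Agent.Helper29.AM.Core0

/-!
# Block AM-N2: the more singular nice current `ψ2 = ψ - a₀ log(-ψ)` (5.3)

`Λ(s) = s - a₀ log(-s)` on `s < 0`: `Λ' = 1 + a₀/(-s) ∈ [1, 1+a₀]` for `s ≤ -1`, `Λ'' = a₀/s² ≥ 0`, increasing, `Λ(s) ≤ s ≤ -1`
for `s ≤ -1`. Pieces `Λ(ψ_k)`: `lev(g + Λ(ψ_k)) = Λ' lev(g+ψ_k) + (1-Λ') lev g + Λ''|∂ψ_k|² ≥ ε - a₀ C_g`
(`|lev g| ≤ C_g` on `‖z‖ ≤ 3`). KCX: in a chart, `u = g + ψ`; `Λ` has to be applied to the mollified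
function `Φ_u(·,ε') - g ≤ -1/2` near a compact subset for small `ε'` (extend `Λ` smoothly, convex and increasing
with the same bounds `Λ' ∈ [1, 1+2a₀]` on `(-∞, -1/2]`): `g + Λ(Φ_u(·,ε')-g)` has `lev ≥ Λ'(ε) + (1-Λ')lev g`,
so it is `PSHd` after subtracting `(ε - 2a₀C_g)|z|²`; `ε' → 0` (`GS.limit`; `|Λ(s)-Λ(s')| ≤ (1+2a₀)|s-s'|`).
Choose `a₀` with `2a₀C_g ≤ ε/2`; then both `ψ`, `ψ2` are nice with the constant `ε/2`.
`cpt`: `ψ2 ≥ -j` gives `ψ ≥ -j` and `ψ2` is continuous on `D`: closed subset of a compact set.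
Outside `D`, `ψ2` may be defined as `-1` (or by the same formula: `ψ ≤ -1` everywhere).
-/

set_option autoImplicit false

namespace Pool.Agent.Helper29.AM

open MeasureTheory Set Filter Topology
open scoped ComplexOrder

section Loc50

variable {n : ℕ}

private noncomputable def Lam50 (a s : ℝ) : ℝ := s - a * Real.log (-s)

private theorem Lam_hd50 (a : ℝ) {s : ℝ} (hs : s < 0) : HasDerivAt (Lam50 a) (1 - a / s) s := by
  have h1 : HasDerivAt (fun y : ℝ => Real.log (-y)) (-1 / -s) s := (hasDerivAt_neg s).log (by linarith)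
  have h2 := (hasDerivAt_id s).sub (h1.const_mul a)
  have e : (1 : ℝ) - a * (-1 / -s) = 1 - a / s := by
    rw [neg_div_neg_eq]
    ring
  rw [e] at h2
  exact h2

private theorem Lam_d50 (a : ℝ) {s : ℝ} (hs : s < 0) : deriv (Lam50 a) s = 1 - a / s := (Lam_hd50 a hs).deriv

private theorem Lam_dd50 (a : ℝ) {s : ℝ} (hs : s < 0) : deriv (deriv (Lam50 a)) s = a / s ^ 2 := by
  have h1 : deriv (Lam50 a) =ᶠ[𝓝 s] fun y => 1 - a / y := by
    filter_upwards [isOpen_Iio.mem_nhds (show s ∈ Iio (0 : ℝ) from hs)] with y hy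
    exact Lam_d50 a hy
  rw [h1.deriv_eq]
  have h2 : HasDerivAt (fun y : ℝ => 1 - a / y) (a / s ^ 2) s := by
    have h3 : HasDerivAt (fun y : ℝ => y⁻¹) (-(s ^ 2)⁻¹) s := hasDerivAt_inv hs.ne
    have h4 := (h3.const_mul a).const_sub 1
    have e : -(a * -(s ^ 2)⁻¹) = a / s ^ 2 := by
      rw [div_eq_mul_inv]
      ring
    rw [e] at h4
    exact h4
  exact h2.deriv

private theorem Lam_cd50 (a : ℝ) {s : ℝ} (hs : s < 0) (k : WithTop ℕ∞) : ContDiffAt ℝ k (Lam50 a) s :=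
  contDiffAt_id.sub (contDiffAt_const.mul (contDiffAt_id.neg.log (by simpa using hs.ne)))

private theorem Lam_mono50 {a : ℝ} (ha : 0 ≤ a) {s t : ℝ} (hst : s ≤ t) (ht : t < 0) : Lam50 a s ≤ Lam50 a t := by
  unfold Lam50
  have h1 : Real.log (-t) ≤ Real.log (-s) := Real.log_le_log (by linarith) (by linarith)
  have h2 := mul_le_mul_of_nonneg_left h1 ha
  linarith

private theorem log_lip50 {x y : ℝ} (hx : 1 / 2 ≤ x) (hy : 1 / 2 ≤ y) : |Real.log x - Real.log y| ≤ 2 * |x - y| := by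
  have key : ∀ x y : ℝ, 1 / 2 ≤ x → 1 / 2 ≤ y → Real.log x - Real.log y ≤ 2 * |x - y| := by
    intro x y hx hy
    have hx0 : 0 < x := by linarith
    have hy0 : 0 < y := by linarith
    rw [← Real.log_div hx0.ne' hy0.ne']
    have h1 := Real.log_le_sub_one_of_pos (div_pos hx0 hy0)
    have h2 : x / y - 1 = (x - y) / y := by field_simp
    have h3 : (x - y) / y ≤ 2 * |x - y| := by
      rw [div_le_iff₀ hy0]
      have h4 := le_abs_self (x - y)
      have h5 := abs_nonneg (x - y)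
      nlinarith
    linarith
  rw [abs_le]
  have h1 := key x y hx hy
  have h2 := key y x hy hx
  rw [abs_sub_comm] at h2
  constructor <;> linarith

private theorem Lam_lip50 {a : ℝ} (ha : 0 ≤ a) {s t : ℝ} (hs : s ≤ -(1 / 2)) (ht : t ≤ -(1 / 2)) :
    |Lam50 a s - Lam50 a t| ≤ (1 + 2 * a) * |s - t| := by
  unfold Lam50
  have h1 := log_lip50 (x := -s) (y := -t) (by linarith) (by linarith)
  have h2 : |(-s) - (-t)| = |s - t| := by
    rw [← abs_neg]
    congr 1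
    ring
  rw [h2] at h1
  have h3 : s - a * Real.log (-s) - (t - a * Real.log (-t)) = (s - t) - a * (Real.log (-s) - Real.log (-t)) := by ring
  rw [h3]
  refine (abs_sub _ _).trans ?_
  rw [abs_mul, abs_of_nonneg ha]
  nlinarith [mul_le_mul_of_nonneg_left h1 ha]

private theorem Lam_bd50 {a : ℝ} (ha : 0 ≤ a) {s : ℝ} (hs : s ≤ -1) : |Lam50 a s| ≤ (1 + a) * |s| := by
  unfold Lam50
  have h1 : 0 ≤ Real.log (-s) := Real.log_nonneg (by linarith)
  have h2 : Real.log (-s) ≤ -s - 1 := Real.log_le_sub_one_of_pos (by linarith)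
  rw [abs_of_nonpos (show s - a * Real.log (-s) ≤ 0 by nlinarith), abs_of_nonpos (show s ≤ 0 by linarith)]
  nlinarith [mul_le_mul_of_nonneg_left h2 ha]

private theorem cdN50 : ContDiff ℝ (⊤ : ℕ∞) fun y : V n => ‖y‖ ^ 2 := contDiff_norm_sq ℝ

private theorem levN50 {q : V n → ℝ} {z : V n} (hq : ContDiffAt ℝ 2 q z) (c : ℝ) (w : V n) :
    lev (fun y => q y - c * ‖y‖ ^ 2) z w = lev q z w - c * ‖w‖ ^ 2 := by
  have h1 : ContDiffAt ℝ 2 (fun y : V n => ‖y - 0‖ ^ 2) z := ((contDiff_id.sub contDiff_const).norm_sq ℝ).contDiffAt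
  have e : (fun y : V n => q y - c * ‖y‖ ^ 2) = fun y => q y + (-c) * ‖y - 0‖ ^ 2 := by
    funext y
    rw [sub_zero]
    ring
  rw [e, lev_add hq (contDiffAt_const.mul h1), lev_const_mul _ h1, lev_normSq]
  ring

/-- the Levi form of `g + Λ(s)` -/
private theorem levA50 {g s : V n → ℝ} {z : V n} (hg : ContDiffAt ℝ 2 g z) (hs : ContDiffAt ℝ 2 s z) {a C ε ε' : ℝ}
    (ha : 0 ≤ a) (hC : 0 ≤ C) (hε : 0 ≤ ε) (hsz : s z ≤ -(1 / 2)) {w : V n}
    (h1 : ε * ‖w‖ ^ 2 ≤ lev (fun y => g y + s y) z w) (h2 : |lev g z w| ≤ C * ‖w‖ ^ 2) (hε' : ε' + 2 * a * C ≤ ε) :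
    ε' * ‖w‖ ^ 2 ≤ lev (fun y => g y + Lam50 a (s y)) z w := by
  have hs0 : s z < 0 := by linarith
  have hL : ContDiffAt ℝ 2 (Lam50 a) (s z) := Lam_cd50 a hs0 2
  have hLs : ContDiffAt ℝ 2 (fun y => Lam50 a (s y)) z := hL.comp z hs
  rw [lev_add hg hLs, lev_comp_real hL hs, Lam_d50 a hs0, Lam_dd50 a hs0]
  rw [lev_add hg hs] at h1
  set G := lev g z w
  set S := lev s z w
  set W := ‖w‖ ^ 2 with hW
  have hW0 : 0 ≤ W := by positivity
  have hQ : 0 ≤ a / s z ^ 2 * (fderiv ℝ s z w ^ 2 + fderiv ℝ s z (Complex.I • w) ^ 2) / 4 := by positivity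
  set Q := a / s z ^ 2 * (fderiv ℝ s z w ^ 2 + fderiv ℝ s z (Complex.I • w) ^ 2) / 4
  set R := -(a / s z) with hR
  have hR0 : 0 ≤ R := by
    rw [hR, ← div_neg]
    exact div_nonneg ha (by linarith)
  have hR1 : R ≤ 2 * a := by
    rw [hR, ← div_neg, div_le_iff₀ (by linarith)]
    nlinarith
  have e : 1 - a / s z = 1 + R := by rw [hR]; ring
  rw [e]
  obtain ⟨h3, h4⟩ := abs_le.1 h2
  have h5 : 0 ≤ R * (G + S - ε * W) := mul_nonneg hR0 (by linarith)
  have h6 : 0 ≤ R * (ε * W) := by positivity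
  have h7 : R * G ≤ R * (C * W) := mul_le_mul_of_nonneg_left h4 hR0
  have h8 : R * (C * W) ≤ 2 * a * (C * W) := mul_le_mul_of_nonneg_right hR1 (by positivity)
  have h9 : (ε' + 2 * a * C) * W ≤ ε * W := mul_le_mul_of_nonneg_right hε' hW0
  nlinarith

private theorem liN50 {Ω : Set (V n)} (hΩ : IsOpen Ω) (c : ℝ) : LocallyIntegrableOn (fun z : V n => c * ‖z‖ ^ 2) Ω volume :=
  (by fun_prop : Continuous fun z : V n => c * ‖z‖ ^ 2).continuousOn.locallyIntegrableOn hΩ.measurableSet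

private theorem PhiN50 {Ω : Set (V n)} (hΩ : IsOpen Ω) {u : V n → ℝ} {ε : ℝ}
    (hu : LocallyIntegrableOn (fun z => u z - ε * ‖z‖ ^ 2) Ω volume) {δ : ℝ} (hδ : 0 < δ) {y : V n} (hy : y ∈ shr Ω δ) :
    Phi (fun z => u z - ε * ‖z‖ ^ 2) y δ = Phi u y δ - ε * (‖y‖ ^ 2 + n * aa n * δ ^ 2) := by
  have h1 := Phi_add hΩ hu (liN50 hΩ ε) hδ hy
  have e1 : (fun y => u y - ε * ‖y‖ ^ 2 + ε * ‖y‖ ^ 2) = u := by
    funext y
    ring
  rw [e1] at h1
  have h2 : Phi (fun z : V n => ε * ‖z‖ ^ 2) y δ = ε * (‖y‖ ^ 2 + n * aa n * δ ^ 2) := by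
    unfold Phi M
    have h3 := integral_rho_norm_add_sq y (δ : ℂ)
    rw [Complex.norm_real, Real.norm_of_nonneg hδ.le] at h3
    rw [← h3, ← integral_const_mul]
    refine integral_congr_ae (Eventually.of_forall fun η => ?_)
    simp only [sc_apply]
    ring
  rw [h2] at h1
  linarith

/-- the Levi form of the mollification -/
private theorem levM50 {Ω : Set (V n)} (hΩ : IsOpen Ω) {u : V n → ℝ} (hu : LocallyIntegrableOn u Ω volume) {ε : ℝ}
    (h : PSHd Ω fun z => u z - ε * ‖z‖ ^ 2) {δ : ℝ} (hδ : 0 < δ) {y : V n} (hy : y ∈ shr Ω δ) (w : V n) :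
    ε * ‖w‖ ^ 2 ≤ lev (fun y => Phi u y δ) y w := by
  have hS := h.mollify hΩ hδ
  have ho := isOpen_shr hΩ δ
  have hc : ContDiffAt ℝ 2 (fun y => Phi u y δ) y :=
    ((contDiffOn_Phi_left hΩ hu hδ).contDiffAt (ho.mem_nhds hy)).of_le (WithTop.coe_le_coe.2 le_top)
  have h1 : (fun y => Phi (fun z => u z - ε * ‖z‖ ^ 2) y δ) =ᶠ[𝓝 y]
      fun y => (Phi u y δ + -(ε * (n * aa n * δ ^ 2))) - ε * ‖y‖ ^ 2 := by
    filter_upwards [ho.mem_nhds hy] with y' hy'
    rw [PhiN50 hΩ h.int hδ hy']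
    ring
  have h2 := hS.psh y hy w
  rw [lev_congr h1, levN50 (hc.add contDiffAt_const), lev_add hc contDiffAt_const, lev_const] at h2
  linarith


private theorem subLi50 {Ω : Set (V n)} {f g : V n → ℝ} (hΩ : IsOpen Ω)
    (h : ∀ K ⊆ Ω, IsCompact K → IntegrableOn f K volume) : LocallyIntegrableOn f Ω volume :=
  (locallyIntegrableOn_iff hΩ.isLocallyClosed).2 fun K hK hc => h K hK hc

private theorem Lam_zero50 (s : ℝ) : Lam50 0 s = s := by
  unfold Lam50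
  ring

private theorem Lam_meas50 (a : ℝ) : Measurable (Lam50 a) := by
  unfold Lam50
  exact measurable_id.sub (measurable_const.mul measurable_neg.log)

/-- composition with `Λ` of a strictly plurisubharmonic potential -/
private theorem locN50 {Ω : Set (V n)} (hΩ : IsOpen Ω) {g s : V n → ℝ} (hg : ContDiffOn ℝ (⊤ : ℕ∞) g Ω)
    {a C ε ε' : ℝ} (ha : 0 ≤ a) (hC : 0 ≤ C) (hε : 0 ≤ ε) (hεε : ε' + 2 * a * C ≤ ε)
    (hlev : ∀ z ∈ Ω, ∀ w, |lev g z w| ≤ C * ‖w‖ ^ 2) (hs : ∀ z ∈ Ω, s z ≤ -1)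
    (h : PSHd Ω fun z => g z + s z - ε * ‖z‖ ^ 2) :
    PSHd Ω fun z => g z + Lam50 a (s z) - ε' * ‖z‖ ^ 2 := by
  refine GS.of_local hΩ fun z₀ hz₀ => ?_
  obtain ⟨R, hR, hRb⟩ := Metric.nhds_basis_closedBall.mem_iff.1 (hΩ.mem_nhds hz₀)
  obtain ⟨r, hr, hball⟩ : ∃ r, 0 < r ∧ Metric.closedBall z₀ (2 * r) ⊆ Ω := by
    refine ⟨R / 2, by positivity, ?_⟩
    have e : 2 * (R / 2) = R := by ring
    rw [e]
    exact hRb
  have hUo : IsOpen (Metric.ball z₀ r) := Metric.isOpen_ball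
  have hKr : Metric.closedBall z₀ r ⊆ shr Ω r := by
    intro z hz y hy
    refine hball ?_
    rw [Metric.mem_closedBall] at *
    have := dist_triangle y z z₀
    linarith
  have hUr : Metric.ball z₀ r ⊆ shr Ω r := Metric.ball_subset_closedBall.trans hKr
  have hUΩ : Metric.ball z₀ r ⊆ Ω := fun z hz => hUr hz (Metric.mem_closedBall_self hr.le)
  obtain ⟨C', hC'0, hC'⟩ := abs_Phi_sub_le hΩ (hg.of_le (show ((2 : ℕ∞) : WithTop ℕ∞) ≤ ((⊤ : ℕ∞) : WithTop ℕ∞) from WithTop.coe_le_coe.2 le_top))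
    (isCompact_closedBall z₀ r) hr.le hKr
  have hgi : LocallyIntegrableOn g Ω volume := hg.continuousOn.locallyIntegrableOn hΩ.measurableSet
  have hui : LocallyIntegrableOn (fun z => g z + s z) Ω volume := by
    have h1 := h.int.add (liN50 hΩ ε)
    have e : (fun z => g z + s z - ε * ‖z‖ ^ 2) + (fun z : V n => ε * ‖z‖ ^ 2) = fun z => g z + s z := by
      funext z
      simp only [Pi.add_apply]
      ring
    rw [e] at h1
    exact h1
  have hsi : LocallyIntegrableOn s Ω volume := by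
    have h1 := hui.sub hgi
    have e : (fun z => g z + s z) - g = s := by
      funext z
      simp only [Pi.sub_apply]
      ring
    rw [e] at h1
    exact h1
  set u : V n → ℝ := fun z => g z + s z with hu
  refine ⟨Metric.ball z₀ r, hUo, Metric.mem_ball_self hr, hUΩ, ?_⟩
  obtain ⟨δ₀, hδ₀, hδr, hδC⟩ : ∃ δ₀ : ℝ, 0 < δ₀ ∧ δ₀ ≤ r ∧ ∀ δ, 0 < δ → δ ≤ δ₀ → C' * δ ^ 2 ≤ 1 / 2 := by
    refine ⟨min r (1 / (1 + 2 * C')), lt_min hr (by positivity), min_le_left _ _, ?_⟩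
    intro δ h0 h1
    have h2 : δ ≤ 1 / (1 + 2 * C') := h1.trans (min_le_right _ _)
    rw [le_div_iff₀ (by positivity)] at h2
    have h3 : δ ≤ 1 := by nlinarith
    nlinarith
  -- the mollified function
  have hsub : ∀ δ, 0 < δ → δ ≤ δ₀ → Metric.ball z₀ r ⊆ shr Ω δ := fun δ _ h1 =>
    hUr.trans fun z hz => (Metric.closedBall_subset_closedBall (h1.trans hδr)).trans hz
  have hle : ∀ δ, 0 < δ → δ ≤ δ₀ → ∀ z ∈ Metric.ball z₀ r, Phi u z δ - g z ≤ -(1 / 2) := by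
    intro δ h0 h1 z hz
    have hzs := hsub δ h0 h1 hz
    have hci : LocallyIntegrableOn (fun _ : V n => (-1 : ℝ)) Ω volume := continuousOn_const.locallyIntegrableOn hΩ.measurableSet
    have h2 := Phi_mono hΩ hui (hgi.add hci) (Eventually.of_forall fun y hy => by
      have := hs y hy
      simp only [hu, Pi.add_apply]
      linarith) h0 hzs
    have h3 := Phi_add hΩ hgi hci h0 hzs
    rw [Phi_const] at h3
    have h4 := (abs_le.1 (hC' z (Metric.ball_subset_closedBall hz) δ h0.le (h1.trans hδr))).2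
    have h5 := hδC δ h0 h1
    have h6 : Phi u z δ ≤ Phi g z δ + -1 := h2.trans h3.le
    linarith
  have hq : ∀ δ, 0 < δ → δ ≤ δ₀ → PSHd (Metric.ball z₀ r) fun y => g y + Lam50 a (Phi u y δ - g y) - ε' * ‖y‖ ^ 2 := by
    intro δ h0 h1
    have hg' : ContDiffOn ℝ (⊤ : ℕ∞) g (Metric.ball z₀ r) := hg.mono hUΩ
    have hP : ContDiffOn ℝ (⊤ : ℕ∞) (fun y => Phi u y δ) (Metric.ball z₀ r) := (contDiffOn_Phi_left hΩ hui h0).mono (hsub δ h0 h1)
    have hS : ContDiffOn ℝ (⊤ : ℕ∞) (fun y => Phi u y δ - g y) (Metric.ball z₀ r) := hP.sub hg'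
    have hLS : ContDiffOn ℝ (⊤ : ℕ∞) (fun y => Lam50 a (Phi u y δ - g y)) (Metric.ball z₀ r) := by
      intro y hy
      have h2 := hle δ h0 h1 y hy
      exact (Lam_cd50 a (show Phi u y δ - g y < 0 by linarith) _).comp_contDiffWithinAt y (hS y hy)
    have hsm : SPsh (Metric.ball z₀ r) fun y => g y + Lam50 a (Phi u y δ - g y) - ε' * ‖y‖ ^ 2 := by
      refine ⟨(hg'.add hLS).sub (contDiffOn_const.mul cdN50.contDiffOn), fun y hy w => ?_⟩
      have hn := hUo.mem_nhds hy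
      have c1 : ContDiffAt ℝ 2 g y := (hg'.contDiffAt hn).of_le (WithTop.coe_le_coe.2 le_top)
      have c2 : ContDiffAt ℝ 2 (fun y => Phi u y δ - g y) y := (hS.contDiffAt hn).of_le (WithTop.coe_le_coe.2 le_top)
      have c3 : ContDiffAt ℝ 2 (fun y => Lam50 a (Phi u y δ - g y)) y := (hLS.contDiffAt hn).of_le (WithTop.coe_le_coe.2 le_top)
      have h2 := levM50 hΩ hui h h0 (hsub δ h0 h1 hy) w
      have e : (fun y => g y + (Phi u y δ - g y)) = fun y => Phi u y δ := by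
        funext y
        ring
      have h3 := levA50 c1 c2 ha hC hε (hle δ h0 h1 y hy) (w := w) (by rw [e]; exact h2) (hlev y (hUΩ hy) w) hεε
      rw [levN50 (c1.add c3)]
      linarith
    exact hsm.pshd hUo
  -- the limit
  let δ : ℕ → ℝ := fun k => δ₀ / ((k : ℝ) + 1)
  have hδ0 : ∀ k, 0 < δ k := fun k => by positivity
  have hδδ : ∀ k, δ k ≤ δ₀ := fun k => by
    refine div_le_self hδ₀.le ?_
    have : (0 : ℝ) ≤ k := Nat.cast_nonneg k
    linarith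
  have hδt : Tendsto δ atTop (𝓝[>] 0) := by
    refine tendsto_nhdsWithin_iff.2 ⟨?_, Eventually.of_forall hδ0⟩
    have h1 := (tendsto_const_div_atTop_nhds_zero_nat δ₀).comp (tendsto_add_atTop_nat 1)
    refine h1.congr fun k => ?_
    simp [δ]
  have zi : LocallyIntegrableOn (fun _ : V n => (0 : ℝ)) (Metric.ball z₀ r) volume :=
    continuousOn_const.locallyIntegrableOn hUo.measurableSet
  refine GS.limit (uk := fun k y => g y + Lam50 a (Phi u y (δ k) - g y) - ε' * ‖y‖ ^ 2) (Fk := fun _ _ => 0) hUo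
    (fun k => hq (δ k) (hδ0 k) (hδδ k)) ?_ zi (fun _ _ => le_rfl) ?_ (Eventually.of_forall fun z _ => ⟨0, le_rfl, tendsto_const_nhds⟩)
  · refine subLi50 (g := g) hUo fun K hK hKc => ?_
    have a1 := hgi.integrableOn_compact_subset (hK.trans hUΩ) hKc
    have a2 := hsi.integrableOn_compact_subset (hK.trans hUΩ) hKc
    have a3 := (liN50 hΩ ε').integrableOn_compact_subset (hK.trans hUΩ) hKc
    have a4 : IntegrableOn (fun z => Lam50 a (s z)) K volume := by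
      refine Integrable.mono' (a2.abs.const_mul (1 + a)) ?_ ?_
      · exact ((Lam_meas50 a).comp_aemeasurable a2.aestronglyMeasurable.aemeasurable).aestronglyMeasurable
      · filter_upwards [ae_restrict_mem hKc.measurableSet] with z hz
        exact Lam_bd50 ha (hs z (hUΩ (hK hz)))
    exact (a1.add a4).sub a3
  · intro K hK hKc
    have h1 := ((tendsto_Phi_L1 hΩ hui hKc (hK.trans hUΩ)).comp hδt).const_mul (1 + 2 * a)
    rw [mul_zero] at h1
    refine squeeze_zero (fun k => integral_nonneg fun z => abs_nonneg _) (fun k => ?_) h1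
    simp only [Function.comp]
    rw [← integral_const_mul]
    refine integral_mono_of_nonneg (Eventually.of_forall fun z => abs_nonneg _) ?_ ?_
    · have b1 : IntegrableOn (fun z => Phi u z (δ k)) K volume :=
        ((contDiffOn_Phi_left hΩ hui (hδ0 k)).continuousOn.mono (hK.trans (hsub _ (hδ0 k) (hδδ k)))).integrableOn_compact hKc
      have b2 := hui.integrableOn_compact_subset (hK.trans hUΩ) hKc
      exact (b1.sub b2).abs.const_mul _
    · filter_upwards [ae_restrict_mem hKc.measurableSet] with z hz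
      have c1 := hle (δ k) (hδ0 k) (hδδ k) z (hK hz)
      have c2 := hs z (hUΩ (hK hz))
      have c3 := Lam_lip50 ha c1 (show s z ≤ -(1 / 2) by linarith)
      have e1 : g z + Lam50 a (Phi u z (δ k) - g z) - ε' * ‖z‖ ^ 2 - (g z + Lam50 a (s z) - ε' * ‖z‖ ^ 2) =
          Lam50 a (Phi u z (δ k) - g z) - Lam50 a (s z) := by ring
      have e2 : Phi u z (δ k) - u z = Phi u z (δ k) - g z - s z := by
        simp only [hu]
        ring
      rw [e1, e2]
      exact c3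

private theorem levB50 {Ω : Set (V n)} (hΩ : IsOpen Ω) {g : V n → ℝ} (hg : ContDiffOn ℝ (⊤ : ℕ∞) g Ω) {K : Set (V n)}
    (hK : IsCompact K) (hKΩ : K ⊆ Ω) : ∃ C : ℝ, 0 ≤ C ∧ ∀ z ∈ K, ∀ w, |lev g z w| ≤ C * ‖w‖ ^ 2 := by
  have h1 : ContDiffOn ℝ (⊤ : ℕ∞) (fderiv ℝ g) Ω := hg.fderiv_of_isOpen hΩ (by simp)
  have h2 : ContDiffOn ℝ (⊤ : ℕ∞) (fderiv ℝ (fderiv ℝ g)) Ω := h1.fderiv_of_isOpen hΩ (by simp)
  have h3 : ContinuousOn (fun z => fderiv ℝ (fderiv ℝ g) z) K := h2.continuousOn.mono hKΩ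
  have h4 : ContinuousOn (fun z => ‖fderiv ℝ (fderiv ℝ g) z‖) K :=
    (continuous_norm (E := V n →L[ℝ] V n →L[ℝ] ℝ)).comp_continuousOn h3
  obtain ⟨C, hC⟩ := hK.bddAbove_image h4
  replace hC : ∀ z ∈ K, ‖fderiv ℝ (fderiv ℝ g) z‖ ≤ C := fun z hz => hC (mem_image_of_mem _ hz)
  refine ⟨|C|, abs_nonneg C, fun z hz w => ?_⟩
  have h3 : ∀ v : V n, |D2 g z v v| ≤ |C| * ‖v‖ ^ 2 := by
    intro v
    have h4 := (fderiv ℝ (fderiv ℝ g) z).le_opNorm₂ v v
    rw [Real.norm_eq_abs] at h4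
    have h5 : ‖fderiv ℝ (fderiv ℝ g) z‖ ≤ |C| := (hC z hz).trans (le_abs_self C)
    have h6 : ‖fderiv ℝ (fderiv ℝ g) z‖ * ‖v‖ * ‖v‖ ≤ |C| * ‖v‖ * ‖v‖ := by gcongr
    have h7 : |C| * ‖v‖ * ‖v‖ = |C| * ‖v‖ ^ 2 := by ring
    unfold D2
    linarith
  have h4 := h3 w
  have h5 := h3 (Complex.I • w)
  rw [norm_smul, Complex.norm_I, one_mul] at h5
  unfold lev
  rw [abs_le] at h4 h5 ⊢
  have h6 : 0 ≤ |C| * ‖w‖ ^ 2 := by positivity
  constructor <;> linarith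

end Loc50

namespace Atl

variable {X : Type} [TopologicalSpace X] [MeasurableSpace X] {n N : ℕ} (A : Atl X n N)
variable [CompactSpace X] [T2Space X] [BorelSpace X]

theorem Nice.exists_pair (hn : 0 < n) {D : Set X} {ψ : X → ℝ} {ε : ℝ} (h : A.Nice D ψ ε) :
    ∃ (ψ2 : X → ℝ) (ε' a₀ : ℝ), A.NicePair D ψ ψ2 ε' a₀ := by
  have hε := h.eps
  -- bound for the Levi forms of the potentials
  obtain ⟨C, hC0, hC⟩ : ∃ C : ℝ, 0 ≤ C ∧ ∀ i, ∀ z : V n, ‖z‖ ≤ 3 → ∀ w, |lev (A.g i) z w| ≤ C * ‖w‖ ^ 2 := by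
    have h1 : ∀ i, ∃ C : ℝ, 0 ≤ C ∧ ∀ z ∈ Metric.closedBall (0 : V n) 3, ∀ w, |lev (A.g i) z w| ≤ C * ‖w‖ ^ 2 := fun i =>
      levB50 (A.e i).open_target (A.g_smooth i) (isCompact_closedBall 0 3)
        ((Metric.closedBall_subset_closedBall (by norm_num)).trans (A.ball i))
    choose c hc0 hc using h1
    refine ⟨∑ i, c i, Finset.sum_nonneg fun i _ => hc0 i, fun i z hz w => ?_⟩
    have h2 := hc i z (by rw [mem_closedBall_zero_iff]; exact hz) w
    have h3 : c i ≤ ∑ i, c i := Finset.single_le_sum (fun j _ => hc0 j) (Finset.mem_univ i)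
    exact h2.trans (mul_le_mul_of_nonneg_right h3 (by positivity))
  set a₀ := ε / (4 * (C + 1)) with ha₀
  have ha0 : 0 < a₀ := by positivity
  have haC : ε / 2 + 2 * a₀ * C ≤ ε := by
    have h1 : a₀ * (4 * (C + 1)) = ε := by
      rw [ha₀]
      field_simp
    nlinarith
  have hε2 : 0 < ε / 2 := by positivity
  have hB3 : ∀ i, B3 n ⊆ (A.e i).target := fun i =>
    (Metric.ball_subset_closedBall.trans (Metric.closedBall_subset_closedBall (by norm_num))).trans (A.ball i)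
  have hlevB : ∀ i, ∀ z ∈ B3 n, ∀ w, |lev (A.g i) z w| ≤ C * ‖w‖ ^ 2 := fun i z hz w =>
    hC i z (by rw [mem_ball_zero_iff] at hz; exact hz.le) w
  have kcx : ∀ a : ℝ, 0 ≤ a → ε / 2 + 2 * a * C ≤ ε → A.KCX (ε / 2) fun x => Lam50 a (ψ x) := by
    intro a ha haC i
    exact locN50 (s := A.lc i ψ) Metric.isOpen_ball ((A.g_smooth i).mono (hB3 i)) ha hC0 hε.le haC (hlevB i)
      (fun z _ => h.le _) (h.kcx i)
  obtain ⟨K, Dk, ψk, p1, p2, p3, p4, p5, p6⟩ := h.pieces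
  have hnice : A.Nice D ψ (ε / 2) := by
    refine ⟨h.isOpen, h.null, hε2, ?_, h.cont, h.le, h.cpt, K, Dk, ψk, p1, p2, p3, p4, p5, ?_⟩
    · have h1 := kcx 0 le_rfl (by linarith)
      have e : (fun x => Lam50 0 (ψ x)) = ψ := by
        funext x
        exact Lam_zero50 _
      rw [e] at h1
      exact h1
    · intro k i z hz hz3 hzD w
      have h1 := p6 k i z hz hz3 hzD w
      have h2 : 0 ≤ ‖w‖ ^ 2 := by positivity
      nlinarith
  have hψ0 : ∀ x, ψ x < 0 := fun x => by linarith [h.le x]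
  have hcont : ContinuousOn (fun x => Lam50 a₀ (ψ x)) D := by
    unfold Lam50
    have hne : ∀ x ∈ D, (fun x => -ψ x) x ≠ 0 := fun x _ => (neg_pos.2 (hψ0 x)).ne'
    exact h.cont.sub (continuousOn_const.mul (h.cont.neg.log hne))
  have hlog : ∀ x, 0 ≤ Real.log (-ψ x) := fun x => Real.log_nonneg (by linarith [h.le x])
  have hle2 : ∀ x, Lam50 a₀ (ψ x) ≤ ψ x := by
    intro x
    have := mul_nonneg ha0.le (hlog x)
    unfold Lam50
    linarith
  refine ⟨fun x => Lam50 a₀ (ψ x), ε / 2, a₀, hnice, ?_, ha0, fun x _ => rfl⟩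
  refine ⟨h.isOpen, h.null, hε2, kcx a₀ ha0.le haC, hcont, fun x => (hle2 x).trans (h.le x), ?_,
    K, Dk, fun k x => Lam50 a₀ (ψk k x), p1, p2, ?_, ?_, ?_, ?_⟩
  · intro j
    have h1 := h.cpt j
    have h2 : IsClosed ({x | x ∈ D ∧ -j ≤ ψ x} ∩ (fun x => Lam50 a₀ (ψ x)) ⁻¹' Ici (-j)) :=
      (hcont.mono fun x hx => hx.1).preimage_isClosed_of_isClosed h1.isClosed isClosed_Ici
    have e : {x | x ∈ D ∧ -j ≤ Lam50 a₀ (ψ x)} = {x | x ∈ D ∧ -j ≤ ψ x} ∩ (fun x => Lam50 a₀ (ψ x)) ⁻¹' Ici (-j) := by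
      ext x
      constructor
      · rintro ⟨hx, hx2⟩
        exact ⟨⟨hx, hx2.trans (hle2 x)⟩, hx2⟩
      · rintro ⟨⟨hx, _⟩, hx2⟩
        exact ⟨hx, hx2⟩
    show IsCompact {x | x ∈ D ∧ -j ≤ Lam50 a₀ (ψ x)}
    rw [e]
    exact h1.of_isClosed_subset h2 inter_subset_left
  · intro k i z hz
    have h1 : A.lc i (ψk k) z ≤ -1 := (p4 k _ hz.2).trans (h.le _)
    exact (Lam_cd50 a₀ (show A.lc i (ψk k) z < 0 by linarith) _).comp_contDiffWithinAt z (p3 k i z hz)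
  · intro k x hx
    exact Lam_mono50 ha0.le (p4 k x hx) (hψ0 x)
  · intro x hx
    obtain ⟨k, hk, hk2⟩ := p5 x hx
    exact ⟨k, hk, congrArg (Lam50 a₀) hk2⟩
  · intro k i z hz hz3 hzD w
    have ho := A.isOpen_preimage_symm i (p1 k)
    have hn := ho.mem_nhds (show z ∈ (A.e i).target ∩ (A.e i).symm ⁻¹' Dk k from ⟨hz, hzD⟩)
    have c1 : ContDiffAt ℝ 2 (A.g i) z :=
      ((A.g_smooth i).contDiffAt ((A.e i).open_target.mem_nhds hz)).of_le (WithTop.coe_le_coe.2 le_top)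
    have c2 : ContDiffAt ℝ 2 (A.lc i (ψk k)) z := ((p3 k i).contDiffAt hn).of_le (WithTop.coe_le_coe.2 le_top)
    have h1 : A.lc i (ψk k) z ≤ -1 := (p4 k _ hzD).trans (h.le _)
    exact levA50 c1 c2 ha0.le hC0 hε.le (by linarith) (p6 k i z hz hz3 hzD w) (hC i z hz3.le w) haC

end Atl

end Pool.Agent.Helper29.AM
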