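import Pool.Agent.Helper29.AM.KL4

/-!
# Block AM-KL5: from `W ≤ u + C δ²` to second order bounds (6.3)

`P = P1 (δ²)`. For a.e. `z` the infimum is attained at some `x ≤ 0` and `Φ_u(z,t) ≥ u(z)` for all `t`.
`WW = Φ_u(z,δe^x) + δ²(e^x - x) ≤ u(z) + Cδ²` gives `-x ≤ C`, so `e^{-C}δ ≤ δe^x` and
`Φ_u(z,e^{-C}δ) ≤ Φ_u(z,δe^x) ≤ u(z) + Cδ²`.
`lower bound`: if `Φ_u(z,t) - v(z) ≥ (aL - ω) t²`..., see the statement: `min_x (A e^{2x} - x) ≥
(1/2)(1 + log(2A))`.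
-/

set_option autoImplicit false

namespace Pool.Agent.Helper29.AM

open MeasureTheory Set Filter Topology
open scoped ComplexOrder

variable {n : ℕ} {Ω : Set (V n)} {u F : V n → ℝ} {δ : ℝ}

theorem means_le_of_WW_le (hΩ : IsOpen Ω) (hu : PSHd Ω u) (hδ : 0 < δ) {C : ℝ} {K : Set (V n)}
    (h : ∀ᵐ z, z ∈ K → z ∈ shr Ω (2 * δ) → WW u (P1 (δ ^ 2)) δ z ≤ u z + C * δ ^ 2) :
    ∀ᵐ z, z ∈ K → z ∈ shr Ω (2 * δ) →
      Phi u z (Real.exp (-C) * δ) - u z ≤ C * δ ^ 2 := by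
  have hpen : IsPen (P1 (δ ^ 2)) (δ ^ 2) := Or.inl rfl
  filter_upwards [ae_exists_IsMn hΩ hu hpen (by positivity) hδ, le_Phi hΩ hu, h] with z h1 h2 h3 hK hz
  obtain ⟨⟨x, hx⟩, -⟩ := h1 hz
  have hx0 : x ≤ 0 := hx.nonpos hΩ hu hpen (by positivity) hδ hz
  obtain ⟨h4, h5⟩ := le_WW_P1 hΩ hu (by positivity) hδ hz hx
  have h6 : Real.exp x ≤ 1 := Real.exp_le_one_iff.2 hx0
  have h7 : δ * Real.exp x ≤ 2 * δ := by nlinarith
  have h8 : z ∈ shr Ω (δ * Real.exp x) := (Metric.closedBall_subset_closedBall h7).trans hz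
  have h9 : z ∈ Ω := hz (Metric.mem_closedBall_self (by positivity))
  have h10 := h2 h9 (δ * Real.exp x) (by positivity) h8
  have h11 := h3 hK hz
  have h12 : δ ^ 2 * (Real.exp x - x) ≤ δ ^ 2 * C := by
    rw [h4] at h11
    linarith
  have h13 : Real.exp x - x ≤ C := le_of_mul_le_mul_left h12 (by positivity)
  have h14 : Real.exp (-C) ≤ Real.exp x := Real.exp_le_exp.2 (by linarith [Real.exp_pos x])
  have h15 : Phi u z (Real.exp (-C) * δ) ≤ Phi u z (δ * Real.exp x) :=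
    Phi_mono_radius hΩ hu (by positivity) (by rw [mul_comm]; exact mul_le_mul_of_nonneg_left h14 hδ.le) h8
  linarith

/-- pointwise lower bound of the transform by the Laplacian, `A > 0` a lower bound for
`(Φ_u(z,t) - u(z))/t²`, `t ≤ δ` -/
theorem WW_ge_of_means {z : V n} {uz A : ℝ} (hA : 0 < A) (hδ : 0 < δ)
    (h : ∀ t, 0 < t → t ≤ δ → A * t ^ 2 ≤ Phi u z t - uz) {x : ℝ} (hx0 : x ≤ 0)
    (hx : IsMn u (P1 (δ ^ 2)) δ z x) :
    δ ^ 2 * ((1 / 2) * (1 + Real.log (2 * A))) ≤ WW u (P1 (δ ^ 2)) δ z - uz := by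
  have h1 := hx.WW_eq
  have h2 : Real.exp x ≤ 1 := Real.exp_le_one_iff.2 hx0
  have h3 := h (δ * Real.exp x) (by positivity) (by nlinarith)
  have h4 : WW u (P1 (δ ^ 2)) δ z = Phi u z (δ * Real.exp x) + (-δ ^ 2 * x + δ ^ 2 * Real.exp x) := by
    rw [h1]
    rfl
  have h5 : Real.exp (2 * x + Real.log (2 * A)) = 2 * A * Real.exp x ^ 2 := by
    rw [Real.exp_add, Real.exp_log (by positivity), two_mul x, Real.exp_add]
    ring
  have h6 := Real.add_one_le_exp (2 * x + Real.log (2 * A))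
  rw [h5] at h6
  have h7 : (1 / 2) * (1 + Real.log (2 * A)) ≤ A * Real.exp x ^ 2 - x := by linarith
  have h8 : δ ^ 2 * ((1 / 2) * (1 + Real.log (2 * A))) ≤ δ ^ 2 * (A * Real.exp x ^ 2 - x) :=
    mul_le_mul_of_nonneg_left h7 (by positivity)
  have h9 : 0 ≤ δ ^ 2 * Real.exp x := by positivity
  rw [h4]
  have h10 : A * (δ * Real.exp x) ^ 2 = δ ^ 2 * (A * Real.exp x ^ 2) := by ring
  rw [h10] at h3
  nlinarith

end Pool.Agent.Helper29.AM
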