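import Pool.Agent.Helper29.AM.PE2
import Pool.Agent.Helper29.AM.KL5

/-!
# Block AM-PE3: `C^{1,1}` bound for the Perron solution (6.3)

On a compact `K ⊆ D`, `ψ ≥ -C_K`. `stage_one` with `δ = δ₀ 2^{-k-1}`: on `K ∩ B_i(1)`:
`gl ≥ tr_i - κ₀δ²`, `tr_i ≤ C'` (`exists_tr_le`), so `tr_i ≤ φ + C'_K δ²` a.e.; in the chart
`WW (pot i φ) ≤ pot i φ + C'_K δ²`. `means_le_of_WW_le`, `laplace_le_of_means`, `exists_BH` give a bounded
Hessian on the part of the chart over `D ∩ B_i(1)`. All points of `D` are in some `B_j(1)`; a bounded Hessian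
is a local property and is transferred between charts (`exists_BH` needs a bound for `∫ u Δη` on compact
sets: near each point change the chart: `PSHd` and `|∫ u η_{jk}|` bounded by `C∫|η|`; or: the mean value
inequality `Φ_u(z,r) - u(z) ≤ C r²` transfers by (4.1)-type comparison `exists_cmp1`).
Continuous representative: `BH.exists_continuous` in each chart, the local limits
`lim Φ_{pot i φ}(z,t) - g_i` agree a.e., hence everywhere; define `φ'` on `D` by it, `φ' = φ` off `D`.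
-/

set_option autoImplicit false

namespace Pool.Agent.Helper29.AM

open MeasureTheory Set Filter Topology
open scoped ComplexOrder

variable {n : ℕ}

private theorem two_le_h12 : (2 : WithTop ℕ∞) ≤ ((⊤ : ℕ∞) : WithTop ℕ∞) :=
  WithTop.coe_le_coe.2 (le_top : (2 : ℕ∞) ≤ ⊤)

private theorem nsq_smooth_h12 {k : WithTop ℕ∞} : ContDiff ℝ k fun z : V n => ‖z‖ ^ 2 :=
  contDiff_norm_sq ℝ

private theorem cnsq_smooth_h12 {k : WithTop ℕ∞} (C : ℝ) :
    ContDiff ℝ k fun z : V n => C * ‖z‖ ^ 2 := contDiff_const.mul nsq_smooth_h12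

private theorem lev_nsq_h12 (z w : V n) : lev (fun y : V n => ‖y‖ ^ 2) z w = ‖w‖ ^ 2 := by
  have h := lev_normSq (z := z) (0 : V n) w
  simpa using h

private theorem lev_cnsq_h12 (C : ℝ) (z w : V n) :
    lev (fun y : V n => C * ‖y‖ ^ 2) z w = C * ‖w‖ ^ 2 := by
  rw [lev_const_mul C (nsq_smooth_h12.contDiffAt), lev_nsq_h12]

private theorem int_h12 {W : Set (V n)} {u φ : V n → ℝ} (hu : LocallyIntegrableOn u W volume)
    (hφ : Continuous φ) (hc : HasCompactSupport φ) (hs : tsupport φ ⊆ W) :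
    Integrable (fun z => u z * φ z) := by
  have hK : IsCompact (tsupport φ) := hc
  have h1 : IntegrableOn u (tsupport φ) := hu.integrableOn_compact_subset hs hK
  have h2 : IntegrableOn (fun z => u z * φ z) (tsupport φ) :=
    h1.mul_continuousOn hφ.continuousOn hK
  refine (integrableOn_iff_integrable_of_support_subset ?_).1 h2
  intro z hz
  apply subset_tsupport φ
  intro h0
  exact hz (by simp [h0])

private theorem intC_h12 {W : Set (V n)} {u : V n → ℝ} {φ : V n → ℂ}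
    (hu : LocallyIntegrableOn u W volume)
    (hφ : Continuous φ) (hc : HasCompactSupport φ) (hs : tsupport φ ⊆ W) :
    Integrable (fun z => (u z : ℂ) * φ z) := by
  have hK : IsCompact (tsupport φ) := hc
  have h1 : IntegrableOn u (tsupport φ) := hu.integrableOn_compact_subset hs hK
  have h1' : IntegrableOn (fun z => (u z : ℂ)) (tsupport φ) := h1.ofReal
  have h2 : IntegrableOn (fun z => (u z : ℂ) * φ z) (tsupport φ) :=
    h1'.mul_continuousOn hφ.continuousOn hK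
  refine (integrableOn_iff_integrable_of_support_subset ?_).1 h2
  intro z hz
  apply subset_tsupport φ
  intro h0
  exact hz (by simp [h0])

private theorem hess_zero_h12 {η : V n → ℝ} {z : V n} (hz : z ∉ tsupport η) : hess η z = 0 := by
  have h : η =ᶠ[𝓝 z] fun _ => (0 : ℝ) := notMem_tsupport_iff_eventuallyEq.1 hz
  have h1 : hess η z = hess (fun _ => (0 : ℝ)) z := hess_congr h
  rw [h1]
  ext j k
  simp [hess, D2]

private theorem hess_supp_h12 (η : V n → ℝ) (j k : Fin n) :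
    tsupport (fun z => hess η z j k) ⊆ tsupport η := by
  apply closure_minimal _ (isClosed_tsupport η)
  intro z hz
  by_contra hc
  exact hz (by simp [hess_zero_h12 hc])

private theorem tst2_h12 {W : Set (V n)} {η : V n → ℝ} (h : Tst W η) : ContDiff ℝ 2 η :=
  h.smooth.of_le two_le_h12

private theorem hess_cont_h12 {η : V n → ℝ} (h : ContDiff ℝ 2 η) (j k : Fin n) :
    Continuous fun z => hess η z j k :=
  continuousOn_univ.1 (continuousOn_hess isOpen_univ h.contDiffOn j k)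

private theorem tst0_h12 {W : Set (V n)} {η : V n → ℝ} (h : Tst W η) {z : V n} (hz : z ∉ W) :
    η z = 0 := by
  by_contra h0
  exact hz (h.sub (subset_tsupport _ h0))

private theorem intH_h12 {W : Set (V n)} {u : V n → ℝ} {H : V n → Mat n} (h : BH W u H) {C : ℝ}
    (hb : ∀ z ∈ W, ∀ j k, ‖H z j k‖ ≤ C) {η : V n → ℝ} (hη : Tst W η) (j k : Fin n) :
    Integrable fun z => H z j k * (η z : ℂ) := by
  have h1 : Integrable fun z => ((η z : ℝ) : ℂ) :=
    (hη.smooth.continuous.integrable_of_hasCompactSupport hη.cpt).ofReal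
  have h2 : Integrable fun z => C * ‖((η z : ℝ) : ℂ)‖ := h1.norm.const_mul C
  refine h2.mono' (((h.meas j k).aestronglyMeasurable).mul h1.aestronglyMeasurable)
    (Eventually.of_forall fun z => ?_)
  rw [norm_mul]
  by_cases hz : z ∈ W
  · exact mul_le_mul_of_nonneg_right (hb z hz j k) (norm_nonneg _)
  · rw [tst0_h12 hη hz]
    simp

/-- the weak identity for the quadratic forms -/
private theorem weak_lf_h12 {W : Set (V n)} {u : V n → ℝ} {H : V n → Mat n} (h : BH W u H) {C : ℝ}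
    (hb : ∀ z ∈ W, ∀ j k, ‖H z j k‖ ≤ C) {η : V n → ℝ} (hη : Tst W η) (v : V n) :
    Integrable (fun z => u z * lev η z v) ∧ Integrable (fun z => lf (H z) v * η z) ∧
      ∫ z, u z * lev η z v = ∫ z, lf (H z) v * η z := by
  have h2 := tst2_h12 hη
  have i1 : ∀ j k, Integrable fun z => (u z : ℂ) * hess η z j k := fun j k =>
    intC_h12 h.int (hess_cont_h12 h2 j k)
      (hη.cpt.mono' (subset_trans (subset_tsupport _) (hess_supp_h12 η j k)))
      ((hess_supp_h12 η j k).trans hη.sub)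
  have i2 := intH_h12 h hb hη
  have e1 : ∀ z, u z * lev η z v =
      (∑ j, ∑ k, (u z : ℂ) * hess η z j k * (v j * (starRingEnd ℂ) (v k))).re := by
    intro z
    rw [lev_eq_lf h2.contDiffAt, lf, ← Complex.re_ofReal_mul, Finset.mul_sum]
    congr 1
    refine Finset.sum_congr rfl fun j _ => ?_
    rw [Finset.mul_sum]
    exact Finset.sum_congr rfl fun k _ => by ring
  have e2 : ∀ z, lf (H z) v * η z =
      (∑ j, ∑ k, H z j k * (η z : ℂ) * (v j * (starRingEnd ℂ) (v k))).re := by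
    intro z
    rw [lf, mul_comm, ← Complex.re_ofReal_mul, Finset.mul_sum]
    congr 1
    refine Finset.sum_congr rfl fun j _ => ?_
    rw [Finset.mul_sum]
    exact Finset.sum_congr rfl fun k _ => by ring
  have i3 : Integrable fun z =>
      ∑ j, ∑ k, (u z : ℂ) * hess η z j k * (v j * (starRingEnd ℂ) (v k)) :=
    integrable_finsetSum _ fun j _ => integrable_finsetSum _ fun k _ => (i1 j k).mul_const _
  have i4 : Integrable fun z =>
      ∑ j, ∑ k, H z j k * (η z : ℂ) * (v j * (starRingEnd ℂ) (v k)) :=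
    integrable_finsetSum _ fun j _ => integrable_finsetSum _ fun k _ => (i2 j k).mul_const _
  simp only [e1, e2]
  refine ⟨i3.re, i4.re, ?_⟩
  have e3 := integral_re i3
  have e4 := integral_re i4
  simp only [RCLike.re_to_complex] at e3 e4
  rw [e3, e4]
  congr 1
  rw [integral_finsetSum _ fun j _ => integrable_finsetSum _ fun k _ => (i1 j k).mul_const _,
    integral_finsetSum _ fun j _ => integrable_finsetSum _ fun k _ => (i2 j k).mul_const _]
  refine Finset.sum_congr rfl fun j _ => ?_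
  rw [integral_finsetSum _ fun k _ => (i1 j k).mul_const _,
    integral_finsetSum _ fun k _ => (i2 j k).mul_const _]
  refine Finset.sum_congr rfl fun k _ => ?_
  rw [integral_mul_const, integral_mul_const, h.weak η hη j k]

private theorem lf_le_h12 {K : Mat n} {C : ℝ} (hC : 0 ≤ C) (hb : ∀ j k, ‖K j k‖ ≤ C) (v : V n) :
    lf K v ≤ n * C * ‖v‖ ^ 2 := by
  have h1 : lf K v ≤ ∑ j, ∑ k, C * (‖v j‖ * ‖v k‖) := by
    unfold lf
    refine (Complex.re_le_norm _).trans ((norm_sum_le _ _).trans ?_)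
    refine Finset.sum_le_sum fun j _ => (norm_sum_le _ _).trans ?_
    refine Finset.sum_le_sum fun k _ => ?_
    rw [norm_mul, norm_mul, RCLike.norm_conj, mul_assoc]
    exact mul_le_mul_of_nonneg_right (hb j k) (by positivity)
  have h2 : ∑ j, ∑ k, C * (‖v j‖ * ‖v k‖) = C * (∑ j, ‖v j‖) ^ 2 := by
    rw [sq, Finset.sum_mul_sum, Finset.mul_sum]
    exact Finset.sum_congr rfl fun j _ => by rw [Finset.mul_sum]
  have h3 : (∑ j, ‖v j‖) ^ 2 ≤ n * ∑ j, ‖v j‖ ^ 2 := by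
    have := sq_sum_le_card_mul_sum_sq (s := (Finset.univ : Finset (Fin n))) (f := fun j => ‖v j‖)
    simpa using this
  have h4 : ‖v‖ ^ 2 = ∑ j, ‖v j‖ ^ 2 := EuclideanSpace.norm_sq_eq v
  rw [h4]
  calc lf K v ≤ C * (∑ j, ‖v j‖) ^ 2 := h1.trans_eq h2
    _ ≤ C * (n * ∑ j, ‖v j‖ ^ 2) := mul_le_mul_of_nonneg_left h3 hC
    _ = n * C * ∑ j, ‖v j‖ ^ 2 := by ring

/-- a bounded Hessian gives `C|z|² - u` psh -/
private theorem pshd_of_bh_h12 {W : Set (V n)} (hW : IsOpen W) {u : V n → ℝ} {H : V n → Mat n}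
    (h : BH W u H) {C : ℝ} (hC : 0 ≤ C) (hb : ∀ z ∈ W, ∀ j k, ‖H z j k‖ ≤ C) :
    PSHd W fun z => n * C * ‖z‖ ^ 2 - u z := by
  have hq : ContDiffOn ℝ 2 (fun z : V n => n * C * ‖z‖ ^ 2) W := (cnsq_smooth_h12 _).contDiffOn
  refine ⟨(hq.continuousOn.locallyIntegrableOn hW.measurableSet).sub h.int,
    continuousOn_const.locallyIntegrableOn hW.measurableSet, fun _ _ => le_rfl, ?_⟩
  intro A η hη
  have h2 := tst2_h12 hη
  have e0 : (n : ℝ) * ‖A.det‖ ^ ((2 : ℝ) / n) * ∫ z, (0 : ℝ) * η z = 0 := by simp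
  rw [e0]
  have w := fun l : Fin n => weak_lf_h12 h hb hη (A (e l))
  have i1 : Integrable fun z => u z * DA A η z := by
    unfold DA
    simp only [Finset.mul_sum]
    exact integrable_finsetSum _ fun l _ => (w l).1
  have e1 : ∫ z, u z * DA A η z = ∫ z, (∑ l, lf (H z) (A (e l))) * η z := by
    unfold DA
    simp only [Finset.mul_sum, Finset.sum_mul]
    rw [integral_finsetSum _ fun l _ => (w l).1, integral_finsetSum _ fun l _ => (w l).2.1]
    exact Finset.sum_congr rfl fun l _ => (w l).2.2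
  have i3 : Integrable fun z => (∑ l, lf (H z) (A (e l))) * η z := by
    simp only [Finset.sum_mul]
    exact integrable_finsetSum _ fun l _ => (w l).2.1
  have hDAc : Continuous (DA A η) := by
    have : DA A η = fun z => ∑ l, lev η z (A (e l)) := rfl
    rw [this]
    exact continuous_finsetSum _ fun l _ =>
      continuousOn_univ.1 (continuousOn_lev (u := η) isOpen_univ h2.contDiffOn (A (e l)))
  have hDA0 : tsupport (DA A η) ⊆ tsupport η := by
    apply closure_minimal _ (isClosed_tsupport η)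
    intro z hz
    by_contra hc
    refine hz ?_
    unfold DA
    refine Finset.sum_eq_zero fun l _ => ?_
    rw [lev_eq_lf h2.contDiffAt, hess_zero_h12 hc]
    simp [lf]
  have i2 : Integrable fun z => n * C * ‖z‖ ^ 2 * DA A η z :=
    int_h12 (hq.continuousOn.locallyIntegrableOn hW.measurableSet) hDAc
      (hη.cpt.mono' (subset_trans (subset_tsupport _) hDA0)) (hDA0.trans hη.sub)
  have e2 : ∫ z, n * C * ‖z‖ ^ 2 * DA A η z = ∫ z, (∑ l, n * C * ‖A (e l)‖ ^ 2) * η z := by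
    rw [integral_mul_DA hW A hq h2 hη.cpt hη.sub]
    refine integral_congr_ae (Eventually.of_forall fun z => ?_)
    change DA A (fun z : V n => n * C * ‖z‖ ^ 2) z * η z = _
    unfold DA
    simp only [lev_cnsq_h12]
  have e3 : ∫ z, (n * C * ‖z‖ ^ 2 - u z) * DA A η z =
      (∫ z, n * C * ‖z‖ ^ 2 * DA A η z) - ∫ z, u z * DA A η z := by
    rw [← integral_sub i2 i1]
    refine integral_congr_ae (Eventually.of_forall fun z => ?_)
    change (n * C * ‖z‖ ^ 2 - u z) * DA A η z = n * C * ‖z‖ ^ 2 * DA A η z - u z * DA A η z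
    ring
  rw [e3, e2, e1, sub_nonneg]
  refine integral_mono_ae i3
    ((hη.smooth.continuous.integrable_of_hasCompactSupport hη.cpt).const_mul _)
    (Eventually.of_forall fun z => ?_)
  change (∑ l, lf (H z) (A (e l))) * η z ≤ (∑ l, n * C * ‖A (e l)‖ ^ 2) * η z
  by_cases hz : z ∈ W
  · exact mul_le_mul_of_nonneg_right
      (Finset.sum_le_sum fun l _ => lf_le_h12 hC (hb z hz) _) (hη.nonneg z)
  · rw [tst0_h12 hη hz, mul_zero, mul_zero]

/-- `C|z|² - u` psh gives the bound of the Laplacian -/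
private theorem laplace_of_pshd_h12 {W : Set (V n)} (hW : IsOpen W) {u : V n → ℝ}
    (hu : LocallyIntegrableOn u W volume) {C : ℝ} (h : PSHd W fun z => C * ‖z‖ ^ 2 - u z)
    {η : V n → ℝ} (hη : Tst W η) : ∫ z, u z * DA 1 η z ≤ C * n * ∫ z, η z := by
  have h2 := tst2_h12 hη
  have hq : ContDiffOn ℝ 2 (fun z : V n => C * ‖z‖ ^ 2) W := (cnsq_smooth_h12 _).contDiffOn
  have h1 := h.ineq 1 η hη
  have hDAc : Continuous (DA 1 η) := by
    have : DA 1 η = fun z => ∑ l, lev η z ((1 : Lin n) (e l)) := rfl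
    rw [this]
    exact continuous_finsetSum _ fun l _ =>
      continuousOn_univ.1 (continuousOn_lev (u := η) isOpen_univ h2.contDiffOn _)
  have hDA0 : tsupport (DA 1 η) ⊆ tsupport η := by
    apply closure_minimal _ (isClosed_tsupport η)
    intro z hz
    by_contra hc
    refine hz ?_
    unfold DA
    refine Finset.sum_eq_zero fun l _ => ?_
    rw [lev_eq_lf h2.contDiffAt, hess_zero_h12 hc]
    simp [lf]
  have hcD : HasCompactSupport (DA 1 η) :=
    hη.cpt.mono' (subset_trans (subset_tsupport _) hDA0)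
  have i1 : Integrable fun z => u z * DA 1 η z := int_h12 hu hDAc hcD (hDA0.trans hη.sub)
  have i2 : Integrable fun z => C * ‖z‖ ^ 2 * DA 1 η z :=
    int_h12 (hq.continuousOn.locallyIntegrableOn hW.measurableSet) hDAc hcD (hDA0.trans hη.sub)
  have e2 : ∫ z, C * ‖z‖ ^ 2 * DA 1 η z = C * n * ∫ z, η z := by
    rw [integral_mul_DA hW 1 hq h2 hη.cpt hη.sub, ← integral_const_mul]
    refine integral_congr_ae (Eventually.of_forall fun z => ?_)
    change DA 1 (fun z : V n => C * ‖z‖ ^ 2) z * η z = C * n * η z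
    unfold DA
    simp only [lev_cnsq_h12]
    congr 1
    have : ∀ l : Fin n, C * ‖(1 : Lin n) (e l)‖ ^ 2 = C := by
      intro l
      have h3 : ‖(1 : Lin n) (e l)‖ = 1 := by simp [e]
      rw [h3]
      ring
    simp only [this, Finset.sum_const, Finset.card_univ, Fintype.card_fin, nsmul_eq_mul]
    ring
  have e3 : ∫ z, (C * ‖z‖ ^ 2 - u z) * DA 1 η z =
      (∫ z, C * ‖z‖ ^ 2 * DA 1 η z) - ∫ z, u z * DA 1 η z := by
    rw [← integral_sub i2 i1]
    refine integral_congr_ae (Eventually.of_forall fun z => ?_)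
    change (C * ‖z‖ ^ 2 - u z) * DA 1 η z = C * ‖z‖ ^ 2 * DA 1 η z - u z * DA 1 η z
    ring
  have e0 : (n : ℝ) * ‖(1 : Lin n).det‖ ^ ((2 : ℝ) / n) * ∫ z, (0 : ℝ) * η z = 0 := by simp
  rw [e0, e3, e2] at h1
  linarith

/-- from a bounded Hessian near a point to `C|z|² - u` psh on a ball -/
private theorem pshd_ball_h12 {W : Set (V n)} (hW : IsOpen W) {u : V n → ℝ} {H : V n → Mat n}
    (h : BH W u H) {z₀ : V n} (hz₀ : z₀ ∈ W) :
    ∃ r C : ℝ, 0 < r ∧ 0 ≤ C ∧ Metric.ball z₀ r ⊆ W ∧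
      PSHd (Metric.ball z₀ r) fun z => C * ‖z‖ ^ 2 - u z := by
  obtain ⟨r, hr, hrW⟩ := Metric.nhds_basis_closedBall.mem_iff.1 (hW.mem_nhds hz₀)
  obtain ⟨C, hC⟩ := h.bdd _ hrW (isCompact_closedBall z₀ r)
  have hsub : Metric.ball z₀ r ⊆ W := Metric.ball_subset_closedBall.trans hrW
  have h1 : BH (Metric.ball z₀ r) u H := h.mono Metric.isOpen_ball hsub
  refine ⟨r, n * |C|, hr, by positivity, hsub, ?_⟩
  exact pshd_of_bh_h12 Metric.isOpen_ball h1 (abs_nonneg C) fun z hz j k =>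
    (hC z (Metric.ball_subset_closedBall hz) j k).trans (le_abs_self C)

/-- increase the constant -/
private theorem pshd_mono_h12 {W : Set (V n)} (hW : IsOpen W) {u : V n → ℝ} {C C' : ℝ}
    (hCC : C ≤ C') (h : PSHd W fun z => C * ‖z‖ ^ 2 - u z) :
    PSHd W fun z => C' * ‖z‖ ^ 2 - u z := by
  have h1 : PSHd W fun z : V n => (C' - C) * ‖z‖ ^ 2 := by
    refine SPsh.pshd hW ⟨(cnsq_smooth_h12 _).contDiffOn, fun z _ v => ?_⟩
    rw [lev_cnsq_h12]
    exact mul_nonneg (sub_nonneg.2 hCC) (by positivity)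
  have h2 := GS.add hW h1 h
  have h3 := h2.psh
  refine h3.congr hW (Eventually.of_forall fun z _ => ?_)
  ring

/-- local statement to a bounded Hessian on the whole set -/
private theorem exists_BH_of_local_h12 (hn : 0 < n) {W : Set (V n)} (hW : IsOpen W) {u : V n → ℝ}
    (hu : PSHd W u)
    (h : ∀ z₀ ∈ W, ∃ r C : ℝ, 0 < r ∧ 0 ≤ C ∧ Metric.ball z₀ r ⊆ W ∧
      PSHd (Metric.ball z₀ r) fun z => C * ‖z‖ ^ 2 - u z) : ∃ H, BH W u H := by
  refine exists_BH hn hW hu fun K hK hKc => ?_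
  have key : ∃ (U : Set (V n)) (C : ℝ), IsOpen U ∧ K ⊆ U ∧ U ⊆ W ∧
      PSHd U fun z => C * ‖z‖ ^ 2 - u z := by
    refine hKc.induction_on (p := fun S => ∃ (U : Set (V n)) (C : ℝ), IsOpen U ∧ S ⊆ U ∧ U ⊆ W ∧
      PSHd U fun z => C * ‖z‖ ^ 2 - u z) ?_ ?_ ?_ ?_
    · refine ⟨∅, 0, isOpen_empty, subset_rfl, empty_subset _, ?_⟩
      exact GS.of_local isOpen_empty fun z hz => absurd hz (notMem_empty z)
    · rintro s t hst ⟨U, C, h1, h2, h3, h4⟩
      exact ⟨U, C, h1, hst.trans h2, h3, h4⟩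
    · rintro s t ⟨U, C, h1, h2, h3, h4⟩ ⟨U', C', h1', h2', h3', h4'⟩
      refine ⟨U ∪ U', max C C', h1.union h1', union_subset_union h2 h2', union_subset h3 h3', ?_⟩
      refine GS.of_local (h1.union h1') fun z hz => ?_
      rcases hz with hz | hz
      · exact ⟨U, h1, hz, subset_union_left, pshd_mono_h12 h1 (le_max_left _ _) h4⟩
      · exact ⟨U', h1', hz, subset_union_right, pshd_mono_h12 h1' (le_max_right _ _) h4'⟩
    · intro x hx
      obtain ⟨r, C, hr, -, hs, hp⟩ := h x (hK hx)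
      exact ⟨Metric.ball x r, mem_nhdsWithin_of_mem_nhds (Metric.ball_mem_nhds x hr),
        Metric.ball x r, C, Metric.isOpen_ball, subset_rfl, hs, hp⟩
  obtain ⟨U, C, hU, hKU, hUW, hp⟩ := key
  refine ⟨C * n, fun η hη hs => ?_⟩
  have hη' : Tst U η := ⟨hη.smooth, hη.cpt, hs.trans hKU, hη.nonneg⟩
  exact laplace_of_pshd_h12 hU (hu.int.mono_set hUW) hp hη'

namespace Atl

variable {X : Type} [TopologicalSpace X] [MeasurableSpace X] {n N : ℕ} (A : Atl X n N)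

/-- the part of the chart `i` over `D` (inside `B(3)`) -/
def Om (D : Set X) (i : Fin N) : Set (V n) := B3 n ∩ ((A.e i).target ∩ (A.e i).symm ⁻¹' D)

variable [CompactSpace X] [T2Space X] [BorelSpace X]

private theorem kap_contDiffAt_h12 {i j : Fin N} {z : V n}
    (hz : z ∈ ((A.e i).symm.trans (A.e j)).source) {k : ℕ∞} :
    ContDiffAt ℂ k (fun y => A.e j ((A.e i).symm y)) z :=
  Helper32.contDiffAt_hol ((A.e i).symm.trans (A.e j)).open_source (A.hol i j) hz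

private theorem g_contDiffAt_h12 {i : Fin N} {z : V n} (hz : z ∈ (A.e i).target) :
    ContDiffAt ℝ 2 (A.g i) z :=
  ((A.g_smooth i).contDiffAt ((A.e i).open_target.mem_nhds hz)).of_le two_le_h12

private theorem gk_contDiffAt_h12 {i j : Fin N} {z : V n}
    (hz : z ∈ ((A.e i).symm.trans (A.e j)).source) :
    ContDiffAt ℝ 2 (fun y => A.g j (A.e j ((A.e i).symm y)) - A.g i y) z := by
  have h1 : ContDiffAt ℝ 2 (fun y => A.e j ((A.e i).symm y)) z :=
    (A.kap_contDiffAt_h12 hz (k := 2)).restrict_scalars ℝ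
  have h2 : ContDiffAt ℝ 2 (A.g j) (A.e j ((A.e i).symm z)) :=
    A.g_contDiffAt_h12 ((A.e j).map_source hz.2)
  exact (h2.comp z h1).sub (A.g_contDiffAt_h12 hz.1)

/-- the set in the chart `i` which corresponds to `W` in the chart `j` -/
private def OO_h12 (i j : Fin N) (W : Set (V n)) : Set (V n) :=
  (A.e i).target ∩ (A.e i).symm ⁻¹' ((A.e j).source ∩ (A.e j) ⁻¹' W)

private theorem OO_open_h12 (i j : Fin N) {W : Set (V n)} (hW : IsOpen W) :
    IsOpen (A.OO_h12 i j W) :=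
  A.isOpen_preimage_symm i ((A.e j).isOpen_inter_preimage hW)

private theorem OO_sub_h12 {i j : Fin N} {W : Set (V n)} {z : V n} (hz : z ∈ A.OO_h12 i j W) :
    z ∈ ((A.e i).symm.trans (A.e j)).source := ⟨hz.1, hz.2.1⟩

private theorem OO_bih_h12 (i j : Fin N) {W : Set (V n)} (hW : IsOpen W) :
    Bih (A.OO_h12 i j W) (((A.e i).symm.trans (A.e j)).target ∩ W)
      (fun z => A.e j ((A.e i).symm z)) (fun z => A.e i ((A.e j).symm z)) := by
  have hb := A.bih i j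
  refine ⟨A.OO_open_h12 i j hW, hb.open2.inter hW, hb.hol.mono fun z hz => A.OO_sub_h12 hz,
    hb.hol'.mono inter_subset_left, ?_, ?_, fun z hz => hb.left z (A.OO_sub_h12 hz),
    fun z hz => hb.right z hz.1⟩
  · intro z hz
    exact ⟨hb.maps (A.OO_sub_h12 hz), hz.2.2⟩
  · intro y hy
    have h1 := hb.maps' hy.1
    have h2 : A.e j ((A.e i).symm (A.e i ((A.e j).symm y))) = y := hb.right y hy.1
    refine ⟨h1.1, h1.2, ?_⟩
    show A.e j ((A.e i).symm (A.e i ((A.e j).symm y))) ∈ W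
    rw [h2]
    exact hy.2

/-- transfer of `C|z|² - u` psh between two charts -/
private theorem transfer_h12 (v : X → ℝ) (i j : Fin N) {W : Set (V n)} (hW : IsOpen W)
    {C : ℝ} (hC : 0 ≤ C) (h : PSHd W fun z => C * ‖z‖ ^ 2 - A.pot j v z) {z₀ : V n}
    (hz : z₀ ∈ A.OO_h12 i j W) {O : Set (V n)} (hO : IsOpen O) (hzO : z₀ ∈ O) :
    ∃ r C' : ℝ, 0 < r ∧ 0 ≤ C' ∧ Metric.ball z₀ r ⊆ O ∧
      PSHd (Metric.ball z₀ r) fun z => C' * ‖z‖ ^ 2 - A.pot i v z := by
  obtain ⟨κ, hκ⟩ : ∃ κ : V n → V n, κ = fun y => A.e j ((A.e i).symm y) := ⟨_, rfl⟩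
  have hb := A.OO_bih_h12 i j hW
  have hOO := A.OO_open_h12 i j hW
  have hκs : ∀ z ∈ A.OO_h12 i j W, ∀ k : ℕ∞, ContDiffAt ℂ k κ z := fun z hz k => by
    rw [hκ]
    exact A.kap_contDiffAt_h12 (A.OO_sub_h12 hz)
  have h1 := (GS.comp hb (h.mono_set hb.open2 inter_subset_right)).psh
  have h3 := h1.add_ph hOO (q := fun y => A.g j (A.e j ((A.e i).symm y)) - A.g i y)
    (fun z hz => (A.gk_contDiffAt_h12 (A.OO_sub_h12 hz)).contDiffWithinAt)
    (fun z hz w => A.g_compat i j z (A.OO_sub_h12 hz) w)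
  have h4 : PSHd (A.OO_h12 i j W) fun z => C * ‖κ z‖ ^ 2 - A.pot i v z := by
    refine h3.congr hOO (Eventually.of_forall fun z hz => ?_)
    rw [A.pot_comp i j v (A.OO_sub_h12 hz), hκ]
    ring
  obtain ⟨r, hr, hrO⟩ := Metric.nhds_basis_closedBall.mem_iff.1
    (inter_mem (hOO.mem_nhds hz) (hO.mem_nhds hzO))
  have hfd : ContinuousOn (fun z => fderiv ℂ κ z) (Metric.closedBall z₀ r) := fun z hz =>
    (((hκs z (hrO hz).1 1).fderiv_right (m := 0) (by norm_num)).continuousAt).continuousWithinAt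
  obtain ⟨L, hL⟩ := (isCompact_closedBall z₀ r).exists_bound_of_continuousOn hfd
  have hL0 : 0 ≤ L := (norm_nonneg _).trans (hL z₀ (Metric.mem_closedBall_self hr.le))
  have hsub : Metric.ball z₀ r ⊆ A.OO_h12 i j W := fun z hz =>
    (hrO (Metric.ball_subset_closedBall hz)).1
  have h5 : SPsh (Metric.ball z₀ r) fun z => C * L ^ 2 * ‖z‖ ^ 2 + (-C) * ‖κ z‖ ^ 2 := by
    refine ⟨fun z hz => ?_, fun z hz w => ?_⟩
    · have h6 : ContDiffAt ℝ ((⊤ : ℕ∞) : WithTop ℕ∞) κ z :=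
        (hκs z (hsub hz) ⊤).restrict_scalars ℝ
      have h7 : ContDiffAt ℝ ((⊤ : ℕ∞) : WithTop ℕ∞) (fun z => ‖κ z‖ ^ 2) z :=
        (nsq_smooth_h12.contDiffAt).comp z h6
      exact ((cnsq_smooth_h12 _).contDiffAt.add (contDiffAt_const.mul h7)).contDiffWithinAt
    · have h6 : ContDiffAt ℝ 2 κ z := (hκs z (hsub hz) 2).restrict_scalars ℝ
      have h7 : ContDiffAt ℝ 2 (fun z => ‖κ z‖ ^ 2) z := (nsq_smooth_h12.contDiffAt).comp z h6
      have h8 : lev (fun y => ‖κ y‖ ^ 2) z w = ‖fderiv ℂ κ z w‖ ^ 2 := by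
        rw [lev_comp_holo (u := fun y : V n => ‖y‖ ^ 2) (hκs z (hsub hz) 2)
          nsq_smooth_h12.contDiffAt, lev_nsq_h12]
      rw [lev_add (cnsq_smooth_h12 _).contDiffAt (contDiffAt_const.mul h7), lev_cnsq_h12,
        lev_const_mul _ h7, h8]
      have h9 : ‖fderiv ℂ κ z w‖ ≤ L * ‖w‖ :=
        ((fderiv ℂ κ z).le_opNorm w).trans (mul_le_mul_of_nonneg_right
          (hL z (Metric.ball_subset_closedBall hz)) (norm_nonneg w))
      have h10 : ‖fderiv ℂ κ z w‖ ^ 2 ≤ (L * ‖w‖) ^ 2 := pow_le_pow_left₀ (norm_nonneg _) h9 2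
      have h11 := mul_le_mul_of_nonneg_left h10 hC
      have h12 : C * (L * ‖w‖) ^ 2 = C * L ^ 2 * ‖w‖ ^ 2 := by ring
      linarith
  refine ⟨r, C * L ^ 2, hr, by positivity,
    fun z hz => (hrO (Metric.ball_subset_closedBall hz)).2, ?_⟩
  have h6 := (GS.add Metric.isOpen_ball (h5.pshd Metric.isOpen_ball)
    (h4.mono_set Metric.isOpen_ball hsub)).psh
  refine h6.congr Metric.isOpen_ball (Eventually.of_forall fun z _ => ?_)
  ring

/-- Stage 1 gives an upper bound for the transforms on compact subsets of `D` -/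
private theorem tr_le_h12 (hn : 0 < n) {D : Set X} {ψ : X → ℝ} {ε : ℝ} (hψ : A.Nice D ψ ε)
    {τ C : ℝ} {φ : X → ℝ} (hτ : 0 < τ) (hC : 0 ≤ C) (hφ : A.St τ C φ)
    (hmax : ∀ v, A.St τ C v → ∀ᵐ x ∂A.μ, v x ≤ φ x) {K : Set X} (hK : IsCompact K)
    (hKD : K ⊆ D) :
    ∃ C' δ₀ : ℝ, 0 < δ₀ ∧ δ₀ ≤ 1 / 8 ∧ ∀ δ, 0 < δ → δ < δ₀ → ∀ᵐ x ∂A.μ, x ∈ K →
      ∀ i, x ∈ A.Bi i 2 → A.tr φ (P1 (δ ^ 2)) δ i x ≤ φ x + C' * δ ^ 2 := by
  obtain ⟨κ₀, d₁, hκ₀, hd₁, hd₁8, -, hst⟩ := A.stage_one hn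
  have hε := hψ.eps
  obtain ⟨B, hB⟩ : ∃ B, B = 2 * κ₀ / ε := ⟨_, rfl⟩
  have hB0 : 0 < B := by rw [hB]; positivity
  obtain ⟨M, δ₁, hM, hδ₁, hδ₁d, hS⟩ := hst D ψ ε hψ τ C φ hτ hC hφ hmax B hB0
    (by rw [hB, div_mul_cancel₀ _ hε.ne'])
  obtain ⟨Cg, hCg, htr⟩ := A.exists_tr_le
  obtain ⟨m, hm⟩ : ∃ m : ℝ, ∀ x ∈ K, -m ≤ ψ x := by
    obtain ⟨m, hm⟩ := hK.exists_bound_of_continuousOn (hψ.cont.mono hKD)
    exact ⟨m, fun x hx => (abs_le.1 (hm x hx)).1⟩
  refine ⟨B * (C + 1 + Cg) + 4 * κ₀ + B * m + M, min δ₁ (1 / (1 + B)), by positivity,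
    (min_le_left _ _).trans (hδ₁d.trans hd₁8), fun δ hδ hδ0 => ?_⟩
  have hδ1 : δ < δ₁ := hδ0.trans_le (min_le_left _ _)
  have hδ2 : δ < 1 / (1 + B) := hδ0.trans_le (min_le_right _ _)
  have hδ8 : δ ≤ 1 / 8 := hδ1.le.trans (hδ₁d.trans hd₁8)
  have hδB : B * δ ^ 2 ≤ 1 := by
    rw [lt_div_iff₀ (by positivity)] at hδ2
    nlinarith
  have hδs : δ ^ 2 ≤ 1 := by nlinarith
  have hδp : 0 < δ ^ 2 := by positivity
  have hpen : IsPen (P1 (δ ^ 2)) (δ ^ 2) := Or.inl rfl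
  filter_upwards [hS δ hδ hδ1, A.ae_attained hφ.psx hpen hδp hδ hδ8] with x h1 h2 hxK i hi
  have hci : x ∈ A.Ci i 2 := A.Bi_subset_Ci i 2 hi
  obtain ⟨h3, -, -⟩ := h2 i hci
  have h4 := htr φ hφ.psx C hφ.le (P1 (δ ^ 2)) (δ ^ 2) δ hpen hδp hδ hδ8 i x hci h3
  have h5 := A.le_glue (fun i => A.tr φ (P1 (δ ^ 2)) δ i) (κ₀ * δ ^ 2) hi
  rw [← A.gl_eq_glue] at h5
  have h6 := mul_le_mul_of_nonneg_left h5 (sub_nonneg.2 hδB)
  have h7 := hm x hxK
  obtain ⟨t, ht⟩ : ∃ t, t = A.tr φ (P1 (δ ^ 2)) δ i x := ⟨_, rfl⟩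
  obtain ⟨q, hq⟩ : ∃ q, q = ‖A.e i x‖ ^ 2 := ⟨_, rfl⟩
  have hq0 : 0 ≤ q := by rw [hq]; positivity
  have hq4 : q ≤ 4 := by
    have := hi.2
    rw [hq]
    nlinarith [norm_nonneg (A.e i x)]
  rw [← ht] at h4 ⊢
  simp only [← ht, ← hq] at h6
  have h8 : B * δ ^ 2 * (-m) ≤ B * δ ^ 2 * ψ x :=
    mul_le_mul_of_nonneg_left h7 (by positivity)
  have h9 : (1 - B * δ ^ 2) * (κ₀ * δ ^ 2 * q) ≤ 1 * (κ₀ * δ ^ 2 * 4) := by
    refine mul_le_mul (by nlinarith) (mul_le_mul_of_nonneg_left hq4 (by positivity))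
      (by positivity) zero_le_one
  have h10 : B * δ ^ 2 * t ≤ B * δ ^ 2 * (C + 1 + Cg) := by
    refine mul_le_mul_of_nonneg_left (h4.trans ?_) (by positivity)
    nlinarith
  nlinarith

/-- bound for the means -/
private theorem means_le_h12 (hn : 0 < n) {D : Set X} {ψ : X → ℝ} {ε : ℝ} (hψ : A.Nice D ψ ε)
    {τ C : ℝ} {φ : X → ℝ} (hτ : 0 < τ) (hC : 0 ≤ C) (hφ : A.St τ C φ)
    (hmax : ∀ v, A.St τ C v → ∀ᵐ x ∂A.μ, v x ≤ φ x) {K : Set X} (hK : IsCompact K)
    (hKD : K ⊆ D) (i : Fin N) {W : Set (V n)} (hW2 : W ⊆ Metric.ball 0 2)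
    (hWK : ∀ z ∈ W, (A.e i).symm z ∈ K) :
    ∃ C' δ₀ : ℝ, 0 < δ₀ ∧ δ₀ ≤ 1 / 8 ∧ ∀ δ, 0 < δ → δ < δ₀ → ∀ᵐ z, z ∈ W →
      Phi (A.pot i φ) z (Real.exp (-C') * δ) - A.pot i φ z ≤ C' * δ ^ 2 := by
  obtain ⟨C', δ₀, hδ₀, hδ₀8, h⟩ := A.tr_le_h12 hn hψ hτ hC hφ hmax hK hKD
  refine ⟨C', δ₀, hδ₀, hδ₀8, fun δ hδ hδ0 => ?_⟩
  have h1 := A.ae_target (h δ hδ hδ0) i
  have h2 := means_le_of_WW_le (C := C') (K := W) Metric.isOpen_ball ((St.psx A hφ) i) hδ (by
    filter_upwards [h1] with z hz hzW _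
    have hz2 := hW2 hzW
    rw [mem_ball_zero_iff] at hz2
    have hzt : z ∈ (A.e i).target := A.mem_target_of_norm_le (by linarith)
    have h3 := hz hzt (hWK z hzW) i ⟨(A.e i).map_target hzt, by
      rw [(A.e i).right_inv hzt]
      exact hz2⟩
    unfold tr at h3
    rw [(A.e i).right_inv hzt] at h3
    have h4 : A.pot i φ z = A.g i z + φ ((A.e i).symm z) := rfl
    rw [h4]
    linarith)
  filter_upwards [h2] with z hz hzW
  refine hz hzW fun y hy => ?_
  have hz2 := hW2 hzW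
  rw [mem_ball_zero_iff] at hz2 ⊢
  rw [Metric.mem_closedBall, dist_eq_norm] at hy
  have h3 : ‖y‖ ≤ ‖y - z‖ + ‖z‖ := by
    have := norm_add_le (y - z) z
    rwa [sub_add_cancel] at this
  linarith

/-- a bounded Hessian near the points of `B(2)` -/
private theorem local_h12 (hn : 0 < n) {D : Set X} {ψ : X → ℝ} {ε : ℝ} (hψ : A.Nice D ψ ε)
    {τ C : ℝ} {φ : X → ℝ} (hτ : 0 < τ) (hC : 0 ≤ C) (hφ : A.St τ C φ)
    (hmax : ∀ v, A.St τ C v → ∀ᵐ x ∂A.μ, v x ≤ φ x) (i : Fin N) {z₀ : V n} (hz : ‖z₀‖ < 2)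
    (hzD : (A.e i).symm z₀ ∈ D) :
    ∃ r C : ℝ, 0 < r ∧ 0 ≤ C ∧
      PSHd (Metric.ball z₀ r) fun z => C * ‖z‖ ^ 2 - A.pot i φ z := by
  have hzt : z₀ ∈ (A.e i).target := A.mem_target_of_norm_le (by linarith)
  have hO := A.isOpen_preimage_symm i hψ.isOpen
  obtain ⟨r, hr, hrO⟩ := Metric.nhds_basis_closedBall.mem_iff.1
    (inter_mem (Metric.isOpen_ball.mem_nhds (mem_ball_zero_iff.2 hz)) (hO.mem_nhds ⟨hzt, hzD⟩))
  have hK : IsCompact ((A.e i).symm '' Metric.closedBall z₀ r) :=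
    (isCompact_closedBall z₀ r).image_of_continuousOn
      ((A.e i).continuousOn_symm.mono fun z hz => (hrO hz).2.1)
  have hKD : (A.e i).symm '' Metric.closedBall z₀ r ⊆ D := by
    rintro _ ⟨z, hz, rfl⟩
    exact (hrO hz).2.2
  have hW2 : Metric.ball z₀ r ⊆ Metric.ball 0 2 := fun z hz =>
    (hrO (Metric.ball_subset_closedBall hz)).1
  have hW3 : Metric.ball z₀ r ⊆ B3 n := hW2.trans (Metric.ball_subset_ball (by norm_num))
  obtain ⟨C', δ₀, hδ₀, hδ₀8, h⟩ := A.means_le_h12 hn hψ hτ hC hφ hmax hK hKD i hW2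
    fun z hz => ⟨z, Metric.ball_subset_closedBall hz, rfl⟩
  have hu : PSHd (Metric.ball z₀ r) (A.pot i φ) := ((St.psx A hφ) i).mono_set Metric.isOpen_ball hW3
  have hlap := laplace_le_of_means (Ω := B3 n) (W := Metric.ball z₀ r) (u := A.pot i φ)
    Metric.isOpen_ball Metric.isOpen_ball hW3 ((St.psx A hφ) i).int (C := C' * Real.exp (2 * C'))
    (r := fun k : ℕ => Real.exp (-C') * (δ₀ * (1 / 2) * (1 / ((k : ℝ) + 1))))
    (fun k => by positivity) (by
      have h1 := (tendsto_one_div_add_atTop_nhds_zero_nat (𝕜 := ℝ)).const_mul (δ₀ * (1 / 2))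
      have h2 := h1.const_mul (Real.exp (-C'))
      simpa using h2) (fun k => by
      obtain ⟨δ, hδ⟩ : ∃ δ, δ = δ₀ * (1 / 2) * (1 / ((k : ℝ) + 1)) := ⟨_, rfl⟩
      rw [← hδ]
      have hδ1 : 0 < δ := by rw [hδ]; positivity
      have hδ2 : δ < δ₀ := by
        have h1 : 1 / ((k : ℝ) + 1) ≤ 1 := by
          rw [div_le_one (by positivity)]
          have := Nat.cast_nonneg (α := ℝ) k
          linarith
        have h2 : 0 < 1 / ((k : ℝ) + 1) := by positivity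
        rw [hδ]
        nlinarith
      filter_upwards [h δ hδ1 hδ2] with z hz hzW _
      refine (hz hzW).trans_eq ?_
      have h3 : Real.exp (2 * C') * Real.exp (-C') ^ 2 = 1 := by
        rw [sq, ← Real.exp_add, ← Real.exp_add]
        rw [show 2 * C' + (-C' + -C') = 0 by ring, Real.exp_zero]
      calc C' * δ ^ 2 = C' * (Real.exp (2 * C') * Real.exp (-C') ^ 2) * δ ^ 2 := by
            rw [h3, mul_one]
        _ = C' * Real.exp (2 * C') * (Real.exp (-C') * δ) ^ 2 := by ring)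
  obtain ⟨H, hH⟩ := exists_BH hn Metric.isOpen_ball hu fun K _ _ =>
    ⟨_, fun η hη _ => hlap η hη⟩
  obtain ⟨r', C'', hr', hC'', -, hp⟩ := pshd_ball_h12 Metric.isOpen_ball hH
    (Metric.mem_ball_self hr)
  exact ⟨r', C'', hr', hC'', hp⟩

theorem perron_c11 (hn : 0 < n) {D : Set X} {ψ : X → ℝ} {ε : ℝ} (hψ : A.Nice D ψ ε) {τ C : ℝ}
    {φ : X → ℝ} (hτ : 0 < τ) (hC : 0 ≤ C) (hφ : A.St τ C φ)
    (hmax : ∀ v, A.St τ C v → ∀ᵐ x ∂A.μ, v x ≤ φ x) :
    ∃ φ' : X → ℝ, (∀ᵐ x ∂A.μ, φ x = φ' x) ∧ ContinuousOn φ' D ∧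
      ∀ i, ∃ H, BH (A.Om D i) (A.pot i φ') H := by
  classical
  have hD := hψ.isOpen
  have hOm : ∀ i, IsOpen (A.Om D i) := fun i =>
    Metric.isOpen_ball.inter (A.isOpen_preimage_symm i hD)
  have hBH : ∀ i, ∃ H, BH (A.Om D i) (A.pot i φ) H := by
    intro i
    refine exists_BH_of_local_h12 hn (hOm i)
      (((St.psx A hφ) i).mono_set (hOm i) inter_subset_left) fun z₀ hz₀ => ?_
    obtain ⟨j, hjs, hj1⟩ := A.cover ((A.e i).symm z₀)
    obtain ⟨r, C₁, hr, hC₁, hp⟩ := A.local_h12 hn hψ hτ hC hφ hmax j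
      (z₀ := A.e j ((A.e i).symm z₀)) (by linarith) (by
        rw [(A.e j).left_inv hjs]
        exact hz₀.2.2)
    exact A.transfer_h12 φ i j Metric.isOpen_ball hC₁ hp
      ⟨hz₀.2.1, hjs, Metric.mem_ball_self hr⟩ (hOm i) hz₀
  choose H hH using hBH
  choose v hvc hve _ _ using fun i => (hH i).exists_continuous (hOm i)
  obtain ⟨w, hw⟩ : ∃ w : Fin N → X → ℝ, w = fun i x => v i (A.e i x) - A.g i (A.e i x) := ⟨_, rfl⟩
  have hO : ∀ i, IsOpen (D ∩ A.Bi i 3) := fun i => hD.inter (A.isOpen_Bi i 3)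
  have hmap : ∀ i, ∀ x ∈ D ∩ A.Bi i 3, A.e i x ∈ A.Om D i := by
    intro i x hx
    refine ⟨mem_ball_zero_iff.2 hx.2.2, (A.e i).map_source hx.2.1, ?_⟩
    show (A.e i).symm (A.e i x) ∈ D
    rw [(A.e i).left_inv hx.2.1]
    exact hx.1
  have hwc : ∀ i, ContinuousOn (w i) (D ∩ A.Bi i 3) := by
    intro i
    rw [hw]
    have h1 : ContinuousOn (A.e i) (D ∩ A.Bi i 3) := (A.e i).continuousOn.mono fun x hx => hx.2.1
    exact ((hvc i).comp h1 (hmap i)).sub ((A.g_smooth i).continuousOn.comp h1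
      fun x hx => (A.e i).map_source hx.2.1)
  have hwe : ∀ i, ∀ᵐ x ∂A.μ, x ∈ D ∩ A.Bi i 3 → φ x = w i x := by
    intro i
    rw [A.ae_on_iff]
    intro j
    have h1 := (A.bih j i).ae (p := fun y => y ∈ A.Om D i → A.pot i φ y = v i y)
      ((hve i).mono fun y hy _ => hy)
    filter_upwards [h1] with z hz hz3 hzO
    have h2 := hz ⟨A.B3_subset j hz3, hzO.2.1⟩ (hmap i _ hzO)
    have h3 : A.pot i φ (A.e i ((A.e j).symm z)) =
        A.g i (A.e i ((A.e j).symm z)) + φ ((A.e j).symm z) := by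
      unfold pot lc
      rw [(A.e i).left_inv hzO.2.1]
    rw [h3] at h2
    rw [hw]
    show φ ((A.e j).symm z) = v i (A.e i ((A.e j).symm z)) - A.g i (A.e i ((A.e j).symm z))
    linarith
  have hwij : ∀ i j, ∀ x ∈ D ∩ A.Bi i 3, x ∈ D ∩ A.Bi j 3 → w i x = w j x := by
    intro i j x hxi hxj
    refine A.eq_on_of_ae (O := (D ∩ A.Bi i 3) ∩ (D ∩ A.Bi j 3)) ((hO i).inter (hO j))
      ((hwc i).mono inter_subset_left) ((hwc j).mono inter_subset_right) ?_ x ⟨hxi, hxj⟩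
    filter_upwards [hwe i, hwe j] with y h1 h2 hy
    rw [← h1 hy.1, ← h2 hy.2]
  choose c hcs hc1 using A.cover
  have hc3 : ∀ x ∈ D, x ∈ D ∩ A.Bi (c x) 3 := fun x hx => ⟨hx, hcs x, by
    have := hc1 x
    linarith⟩
  obtain ⟨φ', hφ'⟩ : ∃ φ' : X → ℝ, φ' = fun x => if x ∈ D then w (c x) x else φ x := ⟨_, rfl⟩
  have hφ'1 : ∀ i, ∀ x ∈ D ∩ A.Bi i 3, φ' x = w i x := by
    intro i x hx
    rw [hφ']
    simp only [if_pos hx.1]
    exact hwij _ _ x (hc3 x hx.1) hx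
  have hae : ∀ᵐ x ∂A.μ, φ x = φ' x := by
    filter_upwards [ae_all_iff.2 hwe] with x hx
    rw [hφ']
    by_cases hxD : x ∈ D
    · simp only [if_pos hxD]
      exact hx _ (hc3 x hxD)
    · simp only [if_neg hxD]
  refine ⟨φ', hae, fun x hx => ?_, fun i => ⟨H i, (hH i).congr (hOm i) ?_⟩⟩
  · have h1 : ContinuousAt (w (c x)) x := (hwc (c x)).continuousAt ((hO (c x)).mem_nhds (hc3 x hx))
    have h2 : φ' =ᶠ[𝓝 x] w (c x) := by
      filter_upwards [(hO (c x)).mem_nhds (hc3 x hx)] with y hy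
      exact hφ'1 _ y hy
    exact (h1.congr h2.symm).continuousWithinAt
  · filter_upwards [A.ae_target hae i] with z hz hzO
    have h1 := hz hzO.2.1
    unfold pot lc
    rw [h1]

end Atl

end Pool.Agent.Helper29.AM
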