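import Pool.Agent.Helper29.AM.GA2
import Pool.Agent.Helper29.AM.PE3
import Pool.Agent.Helper32.Hol

/-!
# Block AM-GA5: smooth functions on open subsets of `X`

`κ = e_j ∘ e_i⁻¹` is holomorphic, so smooth. `hess_det_transfer`: `lev_comp_holo`, `lev_eq_lf`:
`hess (pot i v) z = Jᵀ hess(pot j v)(κz) J̄`, `J = κ'(z)` (adding the pluriharmonic `h` does not change the
Hessian: `lev h = 0` for all vectors gives `hess h = 0` by polarisation, `eq_of_lf`).
`SmoothOn.of_Om`: a point of `D` lies in some `B_j(1)`.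
-/

set_option autoImplicit false

namespace Pool.Agent.Helper29.AM

open MeasureTheory Set Filter Topology
open scoped ComplexOrder

namespace Atl

variable {X : Type} [TopologicalSpace X] [MeasurableSpace X] {n N : ℕ} (A : Atl X n N)

theorem isOpen_Om {D : Set X} (hD : IsOpen D) (i : Fin N) : IsOpen (A.Om D i) := by
  exact Metric.isOpen_ball.inter (A.isOpen_preimage_symm i hD)

theorem SmoothOn.mono {D D' : Set X} {v : X → ℝ} (h : A.SmoothOn D v) (hD : D' ⊆ D) :
    A.SmoothOn D' v := by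
  intro i
  exact (h i).mono fun z hz => ⟨hz.1, hD hz.2⟩

private theorem ga5_trans_real (i j : Fin N) :
    ContDiffOn ℝ (⊤ : ℕ∞) (fun y => A.e j ((A.e i).symm y)) ((A.e i).symm.trans (A.e j)).source :=
  Pool.Agent.Helper32.contDiffOn_hol_real ((A.e i).symm.trans (A.e j)).open_source (A.hol i j)

private theorem ga5_trans (i j : Fin N) {z : V n} (hz : z ∈ ((A.e i).symm.trans (A.e j)).source) :
    ContDiffAt ℂ 2 (fun y => A.e j ((A.e i).symm y)) z := by
  have := Pool.Agent.Helper32.contDiffAt_hol (n := 2) ((A.e i).symm.trans (A.e j)).open_source (A.hol i j) hz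
  exact this

theorem SmoothOn.of_Om {D : Set X} (hD : IsOpen D) {v : X → ℝ}
    (h : ∀ i, ContDiffOn ℝ (⊤ : ℕ∞) (A.lc i v) (A.Om D i)) : A.SmoothOn D v := by
  intro i z hz
  obtain ⟨j, hj1, hj2⟩ := A.cover ((A.e i).symm z)
  have hzs : z ∈ ((A.e i).symm.trans (A.e j)).source := by
    rw [OpenPartialHomeomorph.trans_source]
    exact ⟨hz.1, hj1⟩
  have hmem : A.e j ((A.e i).symm z) ∈ A.Om D j := by
    refine ⟨?_, (A.e j).map_source hj1, ?_⟩
    · rw [Metric.mem_ball, dist_zero_right]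
      linarith
    · rw [mem_preimage, (A.e j).left_inv hj1]
      exact hz.2
  have h1 : ContDiffAt ℝ (⊤ : ℕ∞) (A.lc j v) (A.e j ((A.e i).symm z)) :=
    (h j).contDiffAt ((A.isOpen_Om hD j).mem_nhds hmem)
  have h2 : ContDiffAt ℝ (⊤ : ℕ∞) (fun y => A.e j ((A.e i).symm y)) z :=
    (A.ga5_trans_real i j).contDiffAt (((A.e i).symm.trans (A.e j)).open_source.mem_nhds hzs)
  refine ContDiffAt.contDiffWithinAt ?_
  refine (ContDiffAt.comp z h1 h2).congr_of_eventuallyEq ?_
  filter_upwards [((A.e i).symm.trans (A.e j)).open_source.mem_nhds hzs] with y hy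
  rw [OpenPartialHomeomorph.trans_source] at hy
  show v ((A.e i).symm y) = v ((A.e j).symm (A.e j ((A.e i).symm y)))
  rw [(A.e j).left_inv hy.2]

theorem SmoothOn.pot {D : Set X} {v : X → ℝ} (h : A.SmoothOn D v) (i : Fin N) :
    ContDiffOn ℝ (⊤ : ℕ∞) (A.pot i v) ((A.e i).target ∩ (A.e i).symm ⁻¹' D) := by
  have h1 : ContDiffOn ℝ (⊤ : ℕ∞) (A.g i) ((A.e i).target ∩ (A.e i).symm ⁻¹' D) :=
    (A.g_smooth i).mono inter_subset_left
  exact h1.add (h i)

theorem SmoothOn.continuousOn {D : Set X} {v : X → ℝ} (h : A.SmoothOn D v) (hD : IsOpen D) :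
    ContinuousOn v D := by
  intro x hx
  obtain ⟨i, hi, -⟩ := A.cover x
  refine ContinuousAt.continuousWithinAt ?_
  have hmem : A.e i x ∈ (A.e i).target ∩ (A.e i).symm ⁻¹' D := by
    refine ⟨(A.e i).map_source hi, ?_⟩
    rw [mem_preimage, (A.e i).left_inv hi]
    exact hx
  have h1 : ContinuousAt (A.lc i v) (A.e i x) :=
    ((h i).continuousOn).continuousAt ((A.isOpen_preimage_symm i hD).mem_nhds hmem)
  have h2 : ContinuousAt (A.e i) x := (A.e i).continuousAt hi
  refine (ContinuousAt.comp h1 h2).congr ?_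
  filter_upwards [(A.e i).open_source.mem_nhds hi] with y hy
  show v ((A.e i).symm (A.e i y)) = v y
  rw [(A.e i).left_inv hy]

theorem SmoothOn.congr {D : Set X} {v w : X → ℝ} (h : A.SmoothOn D v) (hvw : ∀ x ∈ D, w x = v x) :
    A.SmoothOn D w := by
  intro i
  exact (h i).congr fun z hz => hvw _ hz.2

/-- the same in terms of a potential -/
theorem SmoothOn.of_pot {D : Set X} (hD : IsOpen D) {v : X → ℝ}
    (h : ∀ i, ContDiffOn ℝ (⊤ : ℕ∞) (A.pot i v) (A.Om D i)) : A.SmoothOn D v := by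
  refine SmoothOn.of_Om A hD fun i => ?_
  have h1 : ContDiffOn ℝ (⊤ : ℕ∞) (A.g i) (A.Om D i) :=
    (A.g_smooth i).mono fun z hz => hz.2.1
  refine ((h i).sub h1).congr fun z _ => ?_
  show A.lc i v z = A.g i z + A.lc i v z - A.g i z
  ring

private theorem ga5_lf_eq (H : Mat n) (v : V n) :
    lf H v = (dotProduct (fun j => v j) (H.mulVec fun k => starRingEnd ℂ (v k))).re := by
  unfold lf
  congr 1
  simp only [dotProduct, Matrix.mulVec, Finset.mul_sum]
  refine Finset.sum_congr rfl fun j _ => Finset.sum_congr rfl fun k _ => ?_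
  ring

private theorem ga5_lf (H : Mat n) (B : Lin n) (w : V n) :
    lf H (B w) = lf ((LinearMap.toMatrix (EuclideanSpace.basisFun (Fin n) ℂ).toBasis
      (EuclideanSpace.basisFun (Fin n) ℂ).toBasis (B : V n →ₗ[ℂ] V n)).transpose * H *
      (LinearMap.toMatrix (EuclideanSpace.basisFun (Fin n) ℂ).toBasis
      (EuclideanSpace.basisFun (Fin n) ℂ).toBasis (B : V n →ₗ[ℂ] V n)).map (starRingEnd ℂ)) w := by
  set J := LinearMap.toMatrix (EuclideanSpace.basisFun (Fin n) ℂ).toBasis
      (EuclideanSpace.basisFun (Fin n) ℂ).toBasis (B : V n →ₗ[ℂ] V n) with hJ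
  have hB : ∀ j, (B w) j = ∑ a, J j a * w a := by
    intro j
    have := LinearMap.toMatrix_mulVec_repr (EuclideanSpace.basisFun (Fin n) ℂ).toBasis
      (EuclideanSpace.basisFun (Fin n) ℂ).toBasis (B : V n →ₗ[ℂ] V n) w
    have h2 := congrFun this j
    simp only [Matrix.mulVec, dotProduct, OrthonormalBasis.coe_toBasis_repr_apply,
      EuclideanSpace.basisFun_repr] at h2
    exact h2.symm
  have hu : (fun k => starRingEnd ℂ ((B w) k)) = (J.map (starRingEnd ℂ)).mulVec (fun k => starRingEnd ℂ (w k)) := by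
    funext k
    rw [hB k, map_sum]
    simp only [Matrix.mulVec, dotProduct, Matrix.map_apply, map_mul]
  have hv : (fun j => (B w) j) = J.mulVec (fun k => w k) := by
    funext k
    rw [hB k]
    rfl
  rw [ga5_lf_eq, ga5_lf_eq, hu, hv, ← Matrix.mulVec_mulVec, ← Matrix.mulVec_mulVec, Matrix.dotProduct_mulVec (fun k => w k),
    Matrix.vecMul_transpose]

private theorem ga5_det {H K : Mat n} (hK : K.IsHermitian) (hH : H.IsHermitian) (B : Lin n)
    (h : ∀ w, lf K w = lf H (B w)) : K.det.re = ‖B.det‖ ^ 2 * H.det.re := by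
  set J := LinearMap.toMatrix (EuclideanSpace.basisFun (Fin n) ℂ).toBasis
      (EuclideanSpace.basisFun (Fin n) ℂ).toBasis (B : V n →ₗ[ℂ] V n) with hJ
  have hK' : K = J.transpose * H * J.map (starRingEnd ℂ) := by
    refine eq_of_lf hK ?_ fun w => ?_
    · unfold Matrix.IsHermitian
      have e1 : (J.map (starRingEnd ℂ)).conjTranspose = J.transpose := by
        ext a b
        simp [Matrix.conjTranspose_apply]
      have e2 : J.transpose.conjTranspose = J.map (starRingEnd ℂ) := by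
        ext a b
        simp [Matrix.conjTranspose_apply]
      rw [Matrix.conjTranspose_mul, Matrix.conjTranspose_mul, hH.eq, e1, e2, Matrix.mul_assoc]
    · rw [h, ga5_lf]
  have hdet : J.det = B.det := LinearMap.det_toMatrix _ _
  rw [hK', Matrix.det_mul, Matrix.det_mul, Matrix.det_transpose,
    show (J.map (starRingEnd ℂ)).det = starRingEnd ℂ J.det from (RingHom.map_det (starRingEnd ℂ) J).symm, hdet]
  have : B.det * H.det * (starRingEnd ℂ) B.det = ((‖B.det‖ ^ 2 : ℝ) : ℂ) * H.det := by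
    rw [mul_right_comm, Complex.mul_conj, Complex.normSq_eq_norm_sq]
  rw [this, Complex.re_ofReal_mul]

theorem hess_det_transfer {v : X → ℝ} (i j : Fin N) {z : V n}
    (hz : z ∈ ((A.e i).symm.trans (A.e j)).source)
    (hv : ContDiffAt ℝ 2 (A.pot j v) (A.e j ((A.e i).symm z))) :
    (hess (A.pot i v) z).det.re = ‖(fderiv ℂ (fun y => A.e j ((A.e i).symm y)) z).det‖ ^ 2 *
      (hess (A.pot j v) (A.e j ((A.e i).symm z))).det.re := by
  have hO := ((A.e i).symm.trans (A.e j)).open_source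
  have hκ := A.ga5_trans i j hz
  have hκr : ContDiffAt ℝ 2 (fun y => A.e j ((A.e i).symm y)) z := hκ.restrict_scalars ℝ
  rw [OpenPartialHomeomorph.trans_source] at hz
  have hzi : z ∈ (A.e i).target := hz.1
  have hzj : (A.e i).symm z ∈ (A.e j).source := hz.2
  have hz' : z ∈ ((A.e i).symm.trans (A.e j)).source := by
    rw [OpenPartialHomeomorph.trans_source]
    exact hz
  have hgj : ContDiffAt ℝ 2 (A.g j) (A.e j ((A.e i).symm z)) :=
    ((A.g_smooth j).contDiffAt ((A.e j).open_target.mem_nhds ((A.e j).map_source hzj))).of_le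
      (WithTop.coe_le_coe.2 le_top)
  have hgi : ContDiffAt ℝ 2 (A.g i) z :=
    ((A.g_smooth i).contDiffAt ((A.e i).open_target.mem_nhds hzi)).of_le (WithTop.coe_le_coe.2 le_top)
  have hh : ContDiffAt ℝ 2 (fun y => A.g j (A.e j ((A.e i).symm y)) - A.g i y) z :=
    (ContDiffAt.comp z hgj hκr).sub hgi
  have hvκ : ContDiffAt ℝ 2 (fun y => A.pot j v (A.e j ((A.e i).symm y))) z :=
    ContDiffAt.comp (g := A.pot j v) z hv hκr
  have heq : A.pot i v =ᶠ[𝓝 z] fun y => A.pot j v (A.e j ((A.e i).symm y)) +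
      (-1) * (A.g j (A.e j ((A.e i).symm y)) - A.g i y) := by
    filter_upwards [hO.mem_nhds hz'] with y hy
    rw [A.pot_comp i j v hy]
    ring
  have hvi : ContDiffAt ℝ 2 (A.pot i v) z :=
    (hvκ.add (contDiffAt_const.mul hh)).congr_of_eventuallyEq heq
  refine ga5_det (hess_isHermitian hvi) (hess_isHermitian hv) _ fun w => ?_
  rw [← lev_eq_lf hvi, ← lev_eq_lf hv, lev_congr heq, lev_add hvκ (contDiffAt_const.mul hh),
    lev_const_mul (-1) hh, A.g_compat i j z hz' w, mul_zero, add_zero, lev_comp_holo hκ hv]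

/-- the Monge-Ampère equation may be checked over `B(3)` -/
theorem det_eq_of_Om {D : Set X} (hD : IsOpen D) {v : X → ℝ} (hv : A.SmoothOn D v) {τ : ℝ}
    (h : ∀ i, ∀ z ∈ A.Om D i,
      (hess (A.pot i v) z).det.re = Real.exp (τ * A.lc i v z) * A.f i z) :
    ∀ i, ∀ z ∈ (A.e i).target, (A.e i).symm z ∈ D →
      (hess (A.pot i v) z).det.re = Real.exp (τ * A.lc i v z) * A.f i z := by
  intro i z hz hzD
  obtain ⟨j, hj1, hj2⟩ := A.cover ((A.e i).symm z)
  have hzs : z ∈ ((A.e i).symm.trans (A.e j)).source := by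
    rw [OpenPartialHomeomorph.trans_source]
    exact ⟨hz, hj1⟩
  have hmem : A.e j ((A.e i).symm z) ∈ A.Om D j := by
    refine ⟨?_, (A.e j).map_source hj1, ?_⟩
    · rw [Metric.mem_ball, dist_zero_right]
      linarith
    · rw [mem_preimage, (A.e j).left_inv hj1]
      exact hzD
  have hsm : ContDiffAt ℝ 2 (A.pot j v) (A.e j ((A.e i).symm z)) :=
    ((SmoothOn.pot A hv j).contDiffAt ((A.isOpen_preimage_symm j hD).mem_nhds hmem.2)).of_le
      (WithTop.coe_le_coe.2 le_top)
  rw [A.hess_det_transfer i j hzs hsm, h j _ hmem, A.f_compat i j z hzs]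
  have : A.lc j v (A.e j ((A.e i).symm z)) = A.lc i v z := by
    show v ((A.e j).symm (A.e j ((A.e i).symm z))) = v ((A.e i).symm z)
    rw [(A.e j).left_inv hj1]
  rw [this]
  ring

/-- a smooth function which is in `PSX` has `lev ≥ 0` -/
theorem SmoothOn.lev_nonneg {D : Set X} (hD : IsOpen D) {v : X → ℝ} (hv : A.SmoothOn D v)
    (hp : A.PSX v) (i : Fin N) {z : V n} (hz : z ∈ A.Om D i) (w : V n) :
    0 ≤ lev (A.pot i v) z w := by
  have hO := A.isOpen_Om hD i
  have hs : ContDiffOn ℝ 2 (A.pot i v) (A.Om D i) :=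
    ((SmoothOn.pot A hv i).of_le (WithTop.coe_le_coe.2 le_top)).mono inter_subset_right
  have h1 : GS (A.Om D i) (fun _ => 0) (A.pot i v) := GS.mono_set (hp i) hO inter_subset_left
  have hc : ContDiffAt ℝ 2 (A.pot i v) z := hs.contDiffAt (hO.mem_nhds hz)
  rcases Nat.eq_zero_or_pos n with hn | hn
  · subst hn
    rw [Subsingleton.elim w 0]
    unfold lev D2
    simp
  · have h2 := GS.GP_of_smooth hO hs continuousOn_const h1 z hz
    rw [lev_eq_lf hc]
    refine GP.nonneg hn (le_refl 0) (H := hess (A.pot i v) z) ?_ w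
    have : lev (A.pot i v) z = lf (hess (A.pot i v) z) := funext fun w' => lev_eq_lf hc w'
    rw [← this]
    exact h2

theorem SmoothOn.spsh {D : Set X} (hD : IsOpen D) {v : X → ℝ} (hv : A.SmoothOn D v)
    (hp : A.PSX v) (i : Fin N) : SPsh (A.Om D i) (A.pot i v) := by
  exact ⟨(SmoothOn.pot A hv i).mono inter_subset_right, fun _ hz w => SmoothOn.lev_nonneg A hD hv hp i hz w⟩

end Atl

end Pool.Agent.Helper29.AM
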