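import Pool.Agent.Helper29.AM.Mean1
import Pool.Agent.Helper29.AM.Lev

/-!
# Block AM-M2: means of `C²` functions, the formula (0.2), second derivatives of means

`hasDerivAt_M`: `d/dt u(z + tAη) = Du(z+tAη)(Aη)`; write `Aη = ∑_m η_m A e_m` and
`Du(y)(c v) = re`-type: with `∂u(y)(v) = (Du(y)(v) - i Du(y)(iv))/2` (complex linear in `v`),
`Du(y)(v) = 2 re ∂u(y)(v)`. `re⟪η,w⟫ρ(η) = -(1/2) D ρ₁(η)(w)` (`fderiv_rho1`); summing over the real basis
`w = e_m, i e_m` and integrating by parts gives `2t ∫ (Δ_A u)(z+tAη) ρ₁`.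
`hess_M`: differentiate under the integral sign (`u` is `C²` near the compact ellipsoid).
All statements are local: `u` is only `C²` on the open set `Ω` containing the ellipsoid.
-/

set_option autoImplicit false

namespace Pool.Agent.Helper29.AM

open MeasureTheory Set Filter Topology
open scoped ComplexOrder Manifold

variable {n : ℕ}

private lemma two_le24 : (2 : WithTop ℕ∞) ≤ ((⊤ : ℕ∞) : WithTop ℕ∞) := by
  have h : ((2 : ℕ∞) : WithTop ℕ∞) ≤ ((⊤ : ℕ∞) : WithTop ℕ∞) := WithTop.coe_le_coe.2 le_top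
  exact h

section tools

variable {P : Type} [NormedAddCommGroup P] [NormedSpace ℝ P] {s : Set P} {Ψ : P → V n → ℝ}

private lemma cd_at24 {k : WithTop ℕ∞} (hs : IsOpen s)
    (hΨ : ContDiffOn ℝ k (fun q : P × V n => Ψ q.1 q.2) (s ×ˢ univ)) {p : P} (hp : p ∈ s) (η : V n) :
    ContDiffAt ℝ k (fun q : P × V n => Ψ q.1 q.2) (p, η) :=
  hΨ.contDiffAt ((hs.prod isOpen_univ).mem_nhds ⟨hp, mem_univ _⟩)

private lemma cont24 {k : WithTop ℕ∞} (hs : IsOpen s)
    (hΨ : ContDiffOn ℝ k (fun q : P × V n => Ψ q.1 q.2) (s ×ˢ univ)) {p : P} (hp : p ∈ s) :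
    Continuous (Ψ p) := by
  rw [continuous_iff_continuousAt]
  intro η
  have h1 := (cd_at24 hs hΨ hp η).continuousAt
  exact ContinuousAt.comp (f := fun η : V n => (p, η)) h1 (by fun_prop)

private lemma tool_cd24 {k : ℕ∞} (hs : IsOpen s)
    (hΨ : ContDiffOn ℝ k (fun q : P × V n => Ψ q.1 q.2) (s ×ˢ univ))
    (h0 : ∀ p ∈ s, ∀ η : V n, 1 < ‖η‖ → Ψ p η = 0) :
    ContDiffOn ℝ k (fun p => ∫ η, Ψ p η) s := by
  have h1 : ContDiffOn ℝ k (fun q : P × V n => Ψ q.1 (-q.2)) (s ×ˢ univ) := by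
    have h2 : ContDiff ℝ k (fun q : P × V n => (q.1, -q.2)) := contDiff_fst.prodMk contDiff_snd.neg
    exact hΨ.comp h2.contDiffOn fun q hq => ⟨hq.1, mem_univ _⟩
  have h3 := contDiffOn_convolution_right_with_param (𝕜 := ℝ) (μ := (volume : Measure (V n)))
    (f := fun _ : V n => (1 : ℝ)) (n := k) (ContinuousLinearMap.mul ℝ ℝ)
    (g := fun p η => Ψ p (-η)) (s := s) (k := Metric.closedBall 0 1) hs (isCompact_closedBall 0 1)
    (fun p η hp hη => h0 p hp _ (by
      rw [norm_neg]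
      rw [mem_closedBall_zero_iff] at hη
      exact lt_of_not_ge hη)) (continuous_const.locallyIntegrable) h1
  have h4 : ContDiffOn ℝ k (fun p : P => (p, (0 : V n))) s := (contDiff_id.prodMk contDiff_const).contDiffOn
  refine (h3.comp h4 fun p hp => ⟨hp, mem_univ _⟩).congr fun p _ => ?_
  simp [MeasureTheory.convolution]

private lemma fd_part24 (hs : IsOpen s)
    (hΨ : ContDiffOn ℝ 1 (fun q : P × V n => Ψ q.1 q.2) (s ×ˢ univ)) {p : P} (hp : p ∈ s) (η : V n) :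
    HasFDerivAt (fun q => Ψ q η) ((fderiv ℝ (fun q : P × V n => Ψ q.1 q.2) (p, η)).comp
      (ContinuousLinearMap.inl ℝ P (V n))) p := by
  have h1 := ((cd_at24 hs hΨ hp η).differentiableAt (by norm_num)).hasFDerivAt
  have h2 : HasFDerivAt (fun q : P => (q, η)) (ContinuousLinearMap.inl ℝ P (V n)) p :=
    hasFDerivAt_prodMk_left p η
  exact HasFDerivAt.comp (f := fun q : P => (q, η)) p h1 h2

private lemma fd_cont24 (hs : IsOpen s)
    (hΨ : ContDiffOn ℝ 1 (fun q : P × V n => Ψ q.1 q.2) (s ×ˢ univ)) {q : P × V n} (hq : q.1 ∈ s) :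
    ContinuousAt (fderiv ℝ (fun q : P × V n => Ψ q.1 q.2)) q :=
  ((hΨ.fderiv_of_isOpen (m := 0) (hs.prod isOpen_univ) (by norm_num)).continuousOn).continuousAt
    ((hs.prod isOpen_univ).mem_nhds ⟨hq, mem_univ _⟩)

private lemma fd_zero24 (hs : IsOpen s) (h0 : ∀ p ∈ s, ∀ η : V n, 1 < ‖η‖ → Ψ p η = 0) {p : P} (hp : p ∈ s)
    {η : V n} (hη : 1 < ‖η‖) : fderiv ℝ (fun q => Ψ q η) p = 0 := by
  have h1 : (fun q => Ψ q η) =ᶠ[𝓝 p] fun _ => 0 := by
    filter_upwards [hs.mem_nhds hp] with q hq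
    exact h0 q hq η hη
  rw [h1.fderiv_eq]
  simp

private lemma fd_cont'24 (hs : IsOpen s)
    (hΨ : ContDiffOn ℝ 1 (fun q : P × V n => Ψ q.1 q.2) (s ×ˢ univ)) {p : P} (hp : p ∈ s) :
    Continuous fun η => fderiv ℝ (fun q => Ψ q η) p := by
  have h1 : (fun η => fderiv ℝ (fun q => Ψ q η) p) = fun η =>
      (fderiv ℝ (fun q : P × V n => Ψ q.1 q.2) (p, η)).comp (ContinuousLinearMap.inl ℝ P (V n)) := by
    funext η
    exact (fd_part24 hs hΨ hp η).fderiv
  rw [h1, continuous_iff_continuousAt]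
  intro η
  have h2 : ContinuousAt (fun η : V n => fderiv ℝ (fun q : P × V n => Ψ q.1 q.2) (p, η)) η :=
    ContinuousAt.comp (f := fun η : V n => (p, η)) (fd_cont24 hs hΨ (q := (p, η)) hp) (by fun_prop)
  exact h2.clm_comp continuousAt_const

private lemma cpt24 {E : Type} [NormedAddCommGroup E] {g : V n → E} (h : ∀ η : V n, 1 < ‖η‖ → g η = 0) :
    HasCompactSupport g :=
  HasCompactSupport.intro (isCompact_closedBall (0 : V n) 1) fun η hη => h η (by
    rw [mem_closedBall_zero_iff] at hη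
    exact lt_of_not_ge hη)

private lemma tool_fd24 (hs : IsOpen s)
    (hΨ : ContDiffOn ℝ 1 (fun q : P × V n => Ψ q.1 q.2) (s ×ˢ univ))
    (h0 : ∀ p ∈ s, ∀ η : V n, 1 < ‖η‖ → Ψ p η = 0) {p : P} (hp : p ∈ s) :
    Integrable (fun η => fderiv ℝ (fun q => Ψ q η) p) ∧
      HasFDerivAt (fun p => ∫ η, Ψ p η) (∫ η, fderiv ℝ (fun q => Ψ q η) p) p := by
  have hcont := fd_cont'24 hs hΨ hp
  have hint : Integrable (fun η => fderiv ℝ (fun q => Ψ q η) p) :=
    hcont.integrable_of_hasCompactSupport (cpt24 fun η hη => fd_zero24 hs h0 hp hη)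
  refine ⟨hint, ?_⟩
  -- a local bound
  obtain ⟨C, hC⟩ : ∃ C, ∀ η ∈ Metric.closedBall (0 : V n) 1, ‖fderiv ℝ (fun q => Ψ q η) p‖ ≤ C :=
    (isCompact_closedBall (0 : V n) 1).exists_bound_of_continuousOn hcont.continuousOn
  have hC0 : 0 ≤ C := (norm_nonneg _).trans (hC 0 (by simp))
  have hev : ∀ᶠ x in 𝓝 p, ∀ η ∈ Metric.closedBall (0 : V n) 1, ‖(fderiv ℝ (fun q : P × V n => Ψ q.1 q.2) (x, η)).comp
      (ContinuousLinearMap.inl ℝ P (V n))‖ < C + 1 := by
    refine (isCompact_closedBall (0 : V n) 1).eventually_forall_of_forall_eventually fun η hη => ?_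
    have h1 : ContinuousAt (fun z : P × V n => ‖(fderiv ℝ (fun q : P × V n => Ψ q.1 q.2) z).comp
        (ContinuousLinearMap.inl ℝ P (V n))‖) (p, η) :=
      ((fd_cont24 hs hΨ (q := (p, η)) hp).clm_comp continuousAt_const).norm
    have h2 : ‖(fderiv ℝ (fun q : P × V n => Ψ q.1 q.2) (p, η)).comp
        (ContinuousLinearMap.inl ℝ P (V n))‖ < C + 1 := by
      rw [← (fd_part24 hs hΨ hp η).fderiv]
      linarith [hC η hη]
    exact h1.eventually (gt_mem_nhds h2)
  refine hasFDerivAt_integral_of_dominated_of_fderiv_le (𝕜 := ℝ) (μ := (volume : Measure (V n)))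
    (F := Ψ) (F' := fun x η => fderiv ℝ (fun q => Ψ q η) x) (x₀ := p)
    (s := {x | x ∈ s ∧ ∀ η ∈ Metric.closedBall (0 : V n) 1, ‖(fderiv ℝ (fun q : P × V n => Ψ q.1 q.2) (x, η)).comp
      (ContinuousLinearMap.inl ℝ P (V n))‖ < C + 1})
    (bound := (Metric.closedBall (0 : V n) 1).indicator fun _ => C + 1) ?_ ?_ ?_ ?_ ?_ ?_ ?_
  · filter_upwards [hs.mem_nhds hp, hev] with x hx hx'
    exact ⟨hx, hx'⟩
  · filter_upwards [hs.mem_nhds hp] with x hx
    exact (cont24 hs hΨ hx).aestronglyMeasurable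
  · exact (cont24 hs hΨ hp).integrable_of_hasCompactSupport (cpt24 (h0 p hp))
  · exact hcont.aestronglyMeasurable
  · refine Filter.Eventually.of_forall fun η x hx => ?_
    by_cases hη : η ∈ Metric.closedBall (0 : V n) 1
    · rw [Set.indicator_of_mem hη, (fd_part24 hs hΨ hx.1 η).fderiv]
      exact (hx.2 η hη).le
    · rw [Set.indicator_of_notMem hη]
      rw [mem_closedBall_zero_iff] at hη
      rw [fd_zero24 hs h0 hx.1 (lt_of_not_ge hη), norm_zero]
  · rw [integrable_indicator_iff measurableSet_closedBall]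
    exact integrableOn_const (measure_closedBall_lt_top.ne)
  · refine Filter.Eventually.of_forall fun η x hx => ?_
    exact (fd_part24 hs hΨ hx.1 η).differentiableAt.hasFDerivAt

end tools

private lemma fd_apply24 {E : Type} [NormedAddCommGroup E] [NormedSpace ℝ E] {g : E → E →L[ℝ] ℝ} {p : E}
    (hd : DifferentiableAt ℝ g p) (v w : E) :
    fderiv ℝ (fun q => g q w) p v = fderiv ℝ g p v w := by
  rw [fderiv_clm_apply hd (differentiableAt_const w)]
  simp

/-- second derivatives of integrals with parameters -/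
private lemma tool_D2_24 {s : Set (V n)} {Ψ : V n → V n → ℝ} (hs : IsOpen s)
    (hΨ : ContDiffOn ℝ 2 (fun q : V n × V n => Ψ q.1 q.2) (s ×ˢ univ))
    (h0 : ∀ p ∈ s, ∀ η : V n, 1 < ‖η‖ → Ψ p η = 0) {p : V n} (hp : p ∈ s) (v w : V n) :
    Integrable (fun η => D2 (fun q => Ψ q η) p v w) ∧
      D2 (fun p => ∫ η, Ψ p η) p v w = ∫ η, D2 (fun q => Ψ q η) p v w := by
  have hΨ1 : ContDiffOn ℝ 1 (fun q : V n × V n => Ψ q.1 q.2) (s ×ˢ univ) := hΨ.of_le (by norm_num)
  -- the first derivative in the direction `w`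
  have hd1 : ContDiffOn ℝ 1 (fun q : V n × V n => fderiv ℝ (fun x => Ψ x q.2) q.1 w) (s ×ˢ univ) := by
    have h1 : ContDiffOn ℝ 1 (fderiv ℝ (fun q : V n × V n => Ψ q.1 q.2)) (s ×ˢ univ) :=
      hΨ.fderiv_of_isOpen (hs.prod isOpen_univ) (by norm_num)
    have h2 : ContDiffOn ℝ 1 (fun q => fderiv ℝ (fun q : V n × V n => Ψ q.1 q.2) q (w, 0)) (s ×ˢ univ) :=
      h1.clm_apply contDiffOn_const
    refine h2.congr fun q hq => ?_
    rw [(fd_part24 hs hΨ1 hq.1 q.2).fderiv]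
    simp
  have hz1 : ∀ q ∈ s, ∀ η : V n, 1 < ‖η‖ → fderiv ℝ (fun x => Ψ x η) q w = 0 := by
    intro q hq η hη
    rw [fd_zero24 hs h0 hq hη]
    simp
  obtain ⟨hi2, hf2⟩ := tool_fd24 hs (Ψ := fun q η => fderiv ℝ (fun x => Ψ x η) q w) hd1 hz1 hp
  -- second derivatives at fixed `η`
  have hD : ∀ η, fderiv ℝ (fun q => fderiv ℝ (fun x => Ψ x η) q w) p v = D2 (fun q => Ψ q η) p v w := by
    intro η
    have h1 : ContDiffAt ℝ 2 (fun q => Ψ q η) p := by
      have h2 := cd_at24 hs hΨ hp η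
      exact ContDiffAt.comp (f := fun q : V n => (q, η)) p h2 (contDiffAt_id.prodMk contDiffAt_const)
    have h3 : DifferentiableAt ℝ (fderiv ℝ (fun q => Ψ q η)) p :=
      (h1.fderiv_right (m := 1) (by norm_num)).differentiableAt (by norm_num)
    exact fd_apply24 h3 v w
  have hi3 : Integrable (fun η => fderiv ℝ (fun q => fderiv ℝ (fun x => Ψ x η) q w) p v) :=
    hi2.apply_continuousLinearMap v
  refine ⟨hi3.congr (Filter.Eventually.of_forall hD), ?_⟩
  have hI : ContDiffOn ℝ ((2 : ℕ) : ℕ∞) (fun p => ∫ η, Ψ p η) s := tool_cd24 hs (by exact_mod_cast hΨ) h0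
  have hI2 : ContDiffAt ℝ 2 (fun p => ∫ η, Ψ p η) p := by
    have := hI.contDiffAt (hs.mem_nhds hp)
    exact_mod_cast this
  have h3 : DifferentiableAt ℝ (fderiv ℝ (fun p => ∫ η, Ψ p η)) p :=
    (hI2.fderiv_right (m := 1) (by norm_num)).differentiableAt (by norm_num)
  have h4 : (fun q => fderiv ℝ (fun p => ∫ η, Ψ p η) q w) =ᶠ[𝓝 p]
      fun q => ∫ η, fderiv ℝ (fun x => Ψ x η) q w := by
    filter_upwards [hs.mem_nhds hp] with q hq
    obtain ⟨a1, a2⟩ := tool_fd24 hs hΨ1 h0 hq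
    rw [a2.fderiv, ContinuousLinearMap.integral_apply a1]
  rw [D2, ← fd_apply24 h3 v w, h4.fderiv_eq, hf2.fderiv, ContinuousLinearMap.integral_apply hi2]
  exact integral_congr_ae (Filter.Eventually.of_forall hD)

private lemma joint24 {P : Type} [NormedAddCommGroup P] [NormedSpace ℝ P] {s : Set P} {Ω : Set (V n)} {u : V n → ℝ}
    {k : WithTop ℕ∞} (hk : k ≤ (⊤ : ℕ∞)) (hs : IsOpen s) (hΩ : IsOpen Ω) (hu : ContDiffOn ℝ k u Ω) {c : P × V n → V n}
    (hc : ContDiffOn ℝ k c (s ×ˢ univ)) (hcΩ : ∀ p ∈ s, ∀ η : V n, ‖η‖ ≤ 1 → c (p, η) ∈ Ω) :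
    ContDiffOn ℝ k (fun q : P × V n => rho q.2 * u (c q)) (s ×ˢ univ) := by
  rintro ⟨p, η⟩ hq
  apply ContDiffAt.contDiffWithinAt
  rcases le_or_gt ‖η‖ 1 with hη | hη
  · have h1 : ContDiffAt ℝ k u (c (p, η)) := hu.contDiffAt (hΩ.mem_nhds (hcΩ p hq.1 η hη))
    have h2 : ContDiffAt ℝ k c (p, η) := hc.contDiffAt ((hs.prod isOpen_univ).mem_nhds hq)
    have h3 : ContDiffAt ℝ k (fun q : P × V n => rho q.2) (p, η) :=
      ((rho_contDiff.of_le hk).contDiffAt).comp (p, η) contDiffAt_snd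
    exact h3.mul (h1.comp (p, η) h2)
  · have h1 : (fun q : P × V n => rho q.2 * u (c q)) =ᶠ[𝓝 (p, η)] fun _ => 0 := by
      have h2 : ∀ᶠ q : P × V n in 𝓝 (p, η), 1 < ‖q.2‖ :=
        (continuous_snd.norm.continuousAt (x := (p, η))).eventually (lt_mem_nhds hη)
      filter_upwards [h2] with q hq'
      rw [rho_eq_zero hq'.le, zero_mul]
    exact contDiffAt_const.congr_of_eventuallyEq h1

private lemma tube24 {P : Type} [TopologicalSpace P] {c : P × V n → V n} {Ω : Set (V n)} (hΩ : IsOpen Ω) {p : P}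
    (hc : ∀ η : V n, ‖η‖ ≤ 1 → ContinuousAt c (p, η)) (h : ∀ η : V n, ‖η‖ ≤ 1 → c (p, η) ∈ Ω) :
    ∀ᶠ q in 𝓝 p, ∀ η : V n, ‖η‖ ≤ 1 → c (q, η) ∈ Ω := by
  have h1 := (isCompact_closedBall (0 : V n) 1).eventually_forall_of_forall_eventually (x₀ := p)
    (P := fun q η => c (q, η) ∈ Ω) fun η hη => by
      rw [mem_closedBall_zero_iff] at hη
      exact (hc η hη).eventually (hΩ.mem_nhds (h η hη))
  filter_upwards [h1] with q hq η hη
  exact hq η (mem_closedBall_zero_iff.2 hη)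

private lemma isOpen_tube24 {P : Type} [TopologicalSpace P] {c : P × V n → V n} {Ω : Set (V n)} (hΩ : IsOpen Ω)
    (hc : Continuous c) : IsOpen {p : P | ∀ η : V n, ‖η‖ ≤ 1 → c (p, η) ∈ Ω} := by
  rw [isOpen_iff_eventually]
  intro p hp
  exact tube24 hΩ (fun η _ => hc.continuousAt) hp

private lemma cT24 (T : Lin n) : ContDiff ℝ (⊤ : ℕ∞) (fun q : V n × V n => q.1 + T q.2) :=
  contDiff_fst.add ((T.restrictScalars ℝ).contDiff.comp contDiff_snd)

private lemma cA24 (A : Lin n) :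
    ContDiff ℝ (⊤ : ℕ∞) (fun q : (V n × ℝ) × V n => q.1.1 + ((q.1.2 : ℂ) • A) q.2) := by
  have h1 : (fun q : (V n × ℝ) × V n => q.1.1 + ((q.1.2 : ℂ) • A) q.2) =
      fun q => q.1.1 + q.1.2 • (A.restrictScalars ℝ) q.2 := by
    funext q
    show q.1.1 + (q.1.2 : ℂ) • A q.2 = q.1.1 + q.1.2 • A q.2
    rw [Complex.coe_smul]
  rw [h1]
  exact (contDiff_fst.comp contDiff_fst).add
    ((contDiff_snd.comp contDiff_fst).smul ((A.restrictScalars ℝ).contDiff.comp contDiff_snd))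

private lemma D2_const_mul24 {f : V n → ℝ} {z : V n} (c : ℝ) (hf : ContDiffAt ℝ 2 f z) (v w : V n) :
    D2 (fun y => c * f y) z v w = c * D2 f z v w := by
  have h1 : ∀ᶠ y in 𝓝 z, DifferentiableAt ℝ f y := by
    filter_upwards [hf.eventually (by norm_num)] with y hy
    exact hy.differentiableAt (by norm_num)
  have h2 : fderiv ℝ (fun y => c * f y) =ᶠ[𝓝 z] fun y => c • fderiv ℝ f y := by
    filter_upwards [h1] with y hy
    exact fderiv_const_mul hy c
  have h3 : DifferentiableAt ℝ (fderiv ℝ f) z := (hf.fderiv_right (m := 1) (by norm_num)).differentiableAt (by norm_num)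
  rw [D2, h2.fderiv_eq, fderiv_fun_const_smul h3 c]
  rfl

private lemma D2_trans24 (f : V n → ℝ) (z a v w : V n) : D2 (fun y => f (y + a)) z v w = D2 f (z + a) v w := by
  have h1 : fderiv ℝ (fun y => f (y + a)) = fun y => fderiv ℝ f (y + a) := by
    funext y
    exact fderiv_comp_add_right a
  rw [D2, h1, fderiv_comp_add_right, D2]

private lemma D2_zero24 (z v w : V n) : D2 (fun _ : V n => (0 : ℝ)) z v w = 0 := by
  have h1 : fderiv ℝ (fun _ : V n => (0 : ℝ)) = fun _ => 0 := by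
    funext y
    simp
  rw [D2, h1]
  simp

private lemma D2_rho24 {T : Lin n} {Ω : Set (V n)} (hΩ : IsOpen Ω) {u : V n → ℝ}
    (hu : ContDiffOn ℝ 2 u Ω) {z : V n} (hz : ∀ η : V n, ‖η‖ ≤ 1 → z + T η ∈ Ω) (v w η : V n) :
    D2 (fun y => rho η * u (y + T η)) z v w = rho η * D2 u (z + T η) v w := by
  rcases lt_or_ge ‖η‖ 1 with hη | hη
  · have h1 : ContDiffAt ℝ 2 u (z + T η) := hu.contDiffAt (hΩ.mem_nhds (hz η hη.le))
    have h2 : ContDiffAt ℝ 2 (fun y => u (y + T η)) z :=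
      ContDiffAt.comp (f := fun y : V n => y + T η) z h1 (contDiffAt_id.add contDiffAt_const)
    rw [D2_const_mul24 _ h2, D2_trans24]
  · rw [rho_eq_zero hη, zero_mul]
    simp only [zero_mul]
    exact D2_zero24 _ _ _

private lemma D2_M24 {T : Lin n} {Ω : Set (V n)} (hΩ : IsOpen Ω) {u : V n → ℝ}
    (hu : ContDiffOn ℝ 2 u Ω) {z : V n} (hz : ∀ η : V n, ‖η‖ ≤ 1 → z + T η ∈ Ω) (v w : V n) :
    Integrable (fun η => rho η * D2 u (z + T η) v w) ∧
      D2 (M T u) z v w = ∫ η, rho η * D2 u (z + T η) v w := by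
  have hk : (2 : WithTop ℕ∞) ≤ (⊤ : ℕ∞) := two_le24
  have hs : IsOpen {z | ∀ η : V n, ‖η‖ ≤ 1 → z + T η ∈ Ω} := isOpen_tube24 hΩ (cT24 T).continuous
  obtain ⟨h1, h2⟩ := tool_D2_24 (Ψ := fun z η => rho η * u (z + T η)) hs
    (joint24 hk hs hΩ hu ((cT24 T).of_le hk).contDiffOn fun p hp η hη => hp η hη)
    (fun p _ η hη => by rw [rho_eq_zero hη.le, zero_mul]) (p := z) hz v w
  simp only [D2_rho24 hΩ hu hz] at h1 h2
  exact ⟨h1, h2⟩

private lemma cutoff24 {Ω K : Set (V n)} (hΩ : IsOpen Ω) (hK : IsCompact K) (hKΩ : K ⊆ Ω) {u : V n → ℝ}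
    (hu : ContDiffOn ℝ 2 u Ω) : ∃ u' : V n → ℝ, ContDiff ℝ 2 u' ∧ ∀ᶠ y in 𝓝ˢ K, u' y = u y := by
  obtain ⟨K', hK', hKK', hK'Ω⟩ := exists_compact_between hK hΩ hKΩ
  obtain ⟨f, hf1, hf0, -⟩ := exists_contMDiffMap_one_nhds_of_subset_interior (n := (⊤ : ℕ∞))
    𝓘(ℝ, V n) (s := K) (t := K') hK.isClosed hKK'
  have hfc : ContDiff ℝ 2 f := f.contMDiff.contDiff.of_le (two_le24)
  refine ⟨fun y => f y * u y, ?_, ?_⟩
  · rw [contDiff_iff_contDiffAt]
    intro y
    by_cases hy : y ∈ Ω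
    · exact hfc.contDiffAt.mul (hu.contDiffAt (hΩ.mem_nhds hy))
    · have h1 : (fun y => f y * u y) =ᶠ[𝓝 y] fun _ => 0 := by
        filter_upwards [hK'.isClosed.isOpen_compl.mem_nhds fun h => hy (hK'Ω h)] with x hx
        rw [hf0 x hx, zero_mul]
      exact contDiffAt_const.congr_of_eventuallyEq h1
  · filter_upwards [hf1] with y hy
    rw [hy, one_mul]

private lemma int_rho24 {g : V n → ℝ} (hg : Continuous g) : Integrable (fun η => rho η * g η) :=
  (rho_contDiff.continuous.mul hg).integrable_of_hasCompactSupport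
    (cpt24 fun η hη => by
      show rho η * g η = 0
      rw [rho_eq_zero hη.le, zero_mul])

private lemma int_rho1_24 {g : V n → ℝ} (hg : Continuous g) : Integrable (fun η => rho1 η * g η) :=
  (rho1_contDiff.continuous.mul hg).integrable_of_hasCompactSupport
    (cpt24 fun η hη => by
      show rho1 η * g η = 0
      rw [rho1_eq_zero hη.le, zero_mul])

private lemma inner_e24 (η : V n) (m : Fin n) : (inner ℂ η (e m)).re = (η m).re := by
  rw [e, EuclideanSpace.inner_single_right]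
  simp

private lemma inner_Ie24 (η : V n) (m : Fin n) : (inner ℂ η (Complex.I • e m)).re = (η m).im := by
  rw [inner_smul_right, e, EuclideanSpace.inner_single_right]
  simp

private lemma sum_e24 (η : V n) : η = ∑ m, ((η m).re • e m + (η m).im • (Complex.I • e m)) := by
  ext j
  rw [WithLp.ofLp_sum, Finset.sum_apply, Finset.sum_eq_single j]
  · simp only [e, PiLp.add_apply, PiLp.smul_apply, EuclideanSpace.single_apply, if_true, smul_eq_mul,
      Complex.real_smul, mul_one]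
    exact (Complex.re_add_im (η j)).symm
  · intro m _ hm
    simp [e, EuclideanSpace.single_apply, Ne.symm hm]
  · intro h
    exact absurd (Finset.mem_univ j) h

private lemma step24 {u : V n → ℝ} (hu : ContDiff ℝ 2 u) (z : V n) (t : ℝ) (A : Lin n) (v w : V n) :
    ∫ η, rho η * ((inner ℂ η w).re * fderiv ℝ u (z + ((t : ℂ) • A) η) v) =
      (1 / 2) * ∫ η, rho1 η * (t * D2 u (z + ((t : ℂ) • A) η) (A w) v) := by
  have h1 : ContDiff ℝ 1 (fderiv ℝ u) := hu.fderiv_right (by norm_num)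
  have hc : ContDiff ℝ 1 (fun η : V n => z + ((t : ℂ) • A) η) :=
    contDiff_const.add ((((t : ℂ) • A).restrictScalars ℝ).contDiff)
  have h2 : ContDiff ℝ 1 (fun η : V n => fderiv ℝ u (z + ((t : ℂ) • A) η) v) :=
    (h1.comp hc).clm_apply contDiff_const
  rw [integral_rho_inner_mul h2 w]
  congr 1
  refine integral_congr_ae (Filter.Eventually.of_forall fun η => ?_)
  show rho1 η * fderiv ℝ (fun η : V n => fderiv ℝ u (z + ((t : ℂ) • A) η) v) η w = _
  congr 1
  have h3 : HasFDerivAt (fun η : V n => z + ((t : ℂ) • A) η) (((t : ℂ) • A).restrictScalars ℝ) η :=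
    ((((t : ℂ) • A).restrictScalars ℝ).hasFDerivAt).const_add z
  have h4 : HasFDerivAt (fderiv ℝ u) (fderiv ℝ (fderiv ℝ u) (z + ((t : ℂ) • A) η)) (z + ((t : ℂ) • A) η) :=
    ((h1.differentiable (by norm_num)) _).hasFDerivAt
  have h5 := (HasFDerivAt.comp (f := fun η : V n => z + ((t : ℂ) • A) η) η h4 h3).clm_apply (hasFDerivAt_const v η)
  have h6 : fderiv ℝ (fun η : V n => fderiv ℝ u (z + ((t : ℂ) • A) η) v) η w =
      fderiv ℝ (fderiv ℝ u) (z + ((t : ℂ) • A) η) (((t : ℂ) • A) w) v := by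
    rw [show (fun η : V n => fderiv ℝ u (z + ((t : ℂ) • A) η) v) =
      fun η => (fderiv ℝ u ∘ fun η : V n => z + ((t : ℂ) • A) η) η v from rfl, h5.fderiv]
    simp
  rw [h6, D2]
  have h7 : ((t : ℂ) • A) w = t • A w := by
    show (t : ℂ) • A w = t • A w
    rw [Complex.coe_smul]
  rw [h7, map_smul]
  rfl

private lemma hasDerivAt_M_glob24 (A : Lin n) {u : V n → ℝ} (hu : ContDiff ℝ 2 u) (z : V n) (t : ℝ) :
    HasDerivAt (fun s : ℝ => M ((s : ℂ) • A) u z) (2 * t * M1 ((t : ℂ) • A) (DA A u) z) t := by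
  have hu1 : ContDiff ℝ 1 u := hu.of_le (by norm_num)
  have hcA : ContDiff ℝ (⊤ : ℕ∞) (fun q : ℝ × V n => z + ((q.1 : ℂ) • A) q.2) :=
    (cA24 A).comp ((contDiff_const.prodMk contDiff_fst).prodMk contDiff_snd)
  have hcA1 : ContDiff ℝ 1 (fun q : ℝ × V n => z + ((q.1 : ℂ) • A) q.2) :=
    hcA.of_le (by exact_mod_cast (le_top : (1 : ℕ∞) ≤ ⊤))
  have hΨ : ContDiffOn ℝ 1 (fun q : ℝ × V n => rho q.2 * u (z + ((q.1 : ℂ) • A) q.2)) (univ ×ˢ univ) :=
    joint24 (by exact_mod_cast (le_top : (1 : ℕ∞) ≤ ⊤)) isOpen_univ isOpen_univ hu1.contDiffOn hcA1.contDiffOn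
      fun _ _ _ _ => mem_univ _
  obtain ⟨i1, h1⟩ := tool_fd24 (Ψ := fun (q : ℝ) (η : V n) => rho η * u (z + ((q : ℂ) • A) η)) isOpen_univ hΨ
    (fun p _ η hη => by rw [rho_eq_zero hη.le, zero_mul]) (mem_univ t)
  have hd : ∀ η : V n, fderiv ℝ (fun q : ℝ => rho η * u (z + ((q : ℂ) • A) η)) t 1 =
      rho η * fderiv ℝ u (z + ((t : ℂ) • A) η) (A η) := by
    intro η
    have h3 : HasFDerivAt (fun q : ℝ => z + ((q : ℂ) • A) η) ((ContinuousLinearMap.id ℝ ℝ).smulRight (A η)) t := by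
      have h4 : (fun q : ℝ => z + ((q : ℂ) • A) η) = fun q => z + q • A η := by
        funext q
        show z + (q : ℂ) • A η = z + q • A η
        rw [Complex.coe_smul]
      rw [h4]
      exact (((hasFDerivAt_id t).smul_const (A η)).const_add z)
    have h4 : HasFDerivAt u (fderiv ℝ u (z + ((t : ℂ) • A) η)) (z + ((t : ℂ) • A) η) :=
      ((hu.differentiable (by norm_num)) _).hasFDerivAt
    have h5 := (HasFDerivAt.comp (f := fun q : ℝ => z + ((q : ℂ) • A) η) t h4 h3).const_mul (rho η)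
    rw [show (fun q : ℝ => rho η * u (z + ((q : ℂ) • A) η)) =
      fun q => rho η * (u ∘ fun q : ℝ => z + ((q : ℂ) • A) η) q from rfl, h5.fderiv]
    simp
  have h2 : HasDerivAt (fun s : ℝ => M ((s : ℂ) • A) u z)
      (∫ η, rho η * fderiv ℝ u (z + ((t : ℂ) • A) η) (A η)) t := by
    have h6 := h1.hasDerivAt
    rw [ContinuousLinearMap.integral_apply i1] at h6
    simp only [hd] at h6
    exact h6
  convert h2 using 1
  -- integration by parts
  have hfd : Continuous (fderiv ℝ u) := hu.continuous_fderiv (by norm_num)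
  have hcont : Continuous fun η : V n => z + ((t : ℂ) • A) η := by fun_prop
  have e1 : ∀ η : V n, rho η * fderiv ℝ u (z + ((t : ℂ) • A) η) (A η) =
      ∑ m, (rho η * ((inner ℂ η (e m)).re * fderiv ℝ u (z + ((t : ℂ) • A) η) (A (e m))) +
        rho η * ((inner ℂ η (Complex.I • e m)).re * fderiv ℝ u (z + ((t : ℂ) • A) η) (A (Complex.I • e m)))) := by
    intro η
    have h7 : A η = ∑ m, ((η m).re • A (e m) + (η m).im • A (Complex.I • e m)) := by
      conv_lhs => rw [sum_e24 η, map_sum]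
      refine Finset.sum_congr rfl fun m _ => ?_
      rw [map_add]
      congr 1
      · exact (A.restrictScalars ℝ).map_smul (η m).re (e m)
      · exact (A.restrictScalars ℝ).map_smul (η m).im (Complex.I • e m)
    rw [h7, map_sum, Finset.mul_sum]
    refine Finset.sum_congr rfl fun m _ => ?_
    rw [map_add, map_smul, map_smul, inner_e24, inner_Ie24, smul_eq_mul, smul_eq_mul]
    ring
  have hin : ∀ w v : V n, Integrable fun η : V n =>
      rho η * ((inner ℂ η w).re * fderiv ℝ u (z + ((t : ℂ) • A) η) v) := by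
    intro w v
    refine int_rho24 ?_
    exact (Complex.continuous_re.comp (continuous_id.inner continuous_const)).mul
      ((hfd.comp hcont).clm_apply continuous_const)
  have hD2 : ∀ v w : V n, Continuous fun η : V n => D2 u (z + ((t : ℂ) • A) η) v w := by
    intro v w
    have h8 : Continuous (fderiv ℝ (fderiv ℝ u)) :=
      (hu.fderiv_right (m := 1) (by norm_num)).continuous_fderiv (by norm_num)
    exact ((h8.comp hcont).clm_apply continuous_const).clm_apply continuous_const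
  simp only [e1]
  have hadd : ∀ m : Fin n, Integrable fun η : V n =>
      (rho η * ((inner ℂ η (e m)).re * fderiv ℝ u (z + ((t : ℂ) • A) η) (A (e m))) +
        rho η * ((inner ℂ η (Complex.I • e m)).re * fderiv ℝ u (z + ((t : ℂ) • A) η) (A (Complex.I • e m)))) :=
    fun m => (hin _ _).add (hin _ _)
  rw [integral_finsetSum _ fun m _ => hadd m]
  have e2 : ∀ m : Fin n, ∫ η, (rho η * ((inner ℂ η (e m)).re * fderiv ℝ u (z + ((t : ℂ) • A) η) (A (e m))) +
        rho η * ((inner ℂ η (Complex.I • e m)).re * fderiv ℝ u (z + ((t : ℂ) • A) η) (A (Complex.I • e m)))) =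
      ∫ η, 2 * t * (rho1 η * lev u (z + ((t : ℂ) • A) η) (A (e m))) := by
    intro m
    rw [integral_add (hin _ _) (hin _ _), step24 hu, step24 hu, ← mul_add, ← integral_add, ← integral_const_mul]
    · refine integral_congr_ae (Filter.Eventually.of_forall fun η => ?_)
      simp only [lev, map_smul]
      ring
    · exact int_rho1_24 (continuous_const.mul (hD2 _ _))
    · exact int_rho1_24 (continuous_const.mul (hD2 _ _))
  rw [Finset.sum_congr rfl fun m _ => e2 m]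
  have hlev : ∀ m : Fin n, Integrable fun η : V n => 2 * t * (rho1 η * lev u (z + ((t : ℂ) • A) η) (A (e m))) := by
    intro m
    refine (int_rho1_24 ?_).const_mul _
    exact ((hD2 _ _).add (hD2 _ _)).div_const 4
  rw [← integral_finsetSum _ fun m _ => hlev m, M1, ← integral_const_mul]
  refine integral_congr_ae (Filter.Eventually.of_forall fun η => ?_)
  simp only [DA, Finset.mul_sum]

theorem hasDerivAt_M (A : Lin n) {Ω : Set (V n)} (hΩ : IsOpen Ω) {u : V n → ℝ}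
    (hu : ContDiffOn ℝ 2 u Ω) {z : V n} {t : ℝ}
    (hz : ∀ η : V n, ‖η‖ ≤ 1 → z + ((t : ℂ) • A) η ∈ Ω) :
    HasDerivAt (fun s : ℝ => M ((s : ℂ) • A) u z) (2 * t * M1 ((t : ℂ) • A) (DA A u) z) t := by
  have hcont : Continuous fun η : V n => z + ((t : ℂ) • A) η := by fun_prop
  set K : Set (V n) := (fun η : V n => z + ((t : ℂ) • A) η) '' Metric.closedBall 0 1 with hKdef
  have hK : IsCompact K := (isCompact_closedBall 0 1).image hcont
  have hKΩ : K ⊆ Ω := by
    rintro _ ⟨η, hη, rfl⟩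
    exact hz η (mem_closedBall_zero_iff.1 hη)
  obtain ⟨u', hu', heq⟩ := cutoff24 hΩ hK hKΩ hu
  rw [eventually_nhdsSet_iff_exists] at heq
  obtain ⟨U, hU, hKU, hUeq⟩ := heq
  have hev : ∀ᶠ q : ℝ in 𝓝 t, ∀ η : V n, ‖η‖ ≤ 1 → z + ((q : ℂ) • A) η ∈ U := by
    have hcA : Continuous (fun q : ℝ × V n => z + ((q.1 : ℂ) • A) q.2) :=
      ((cA24 A).comp ((contDiff_const.prodMk contDiff_fst).prodMk contDiff_snd)).continuous
    exact tube24 hU (fun η _ => hcA.continuousAt) fun η hη => hKU ⟨η, mem_closedBall_zero_iff.2 hη, rfl⟩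
  have h1 := hasDerivAt_M_glob24 A hu' z t
  have h2 : M1 ((t : ℂ) • A) (DA A u') z = M1 ((t : ℂ) • A) (DA A u) z := by
    refine M1_congr fun η hη => ?_
    have h3 : u' =ᶠ[𝓝 (z + ((t : ℂ) • A) η)] u := by
      filter_upwards [hU.mem_nhds (hKU ⟨η, mem_closedBall_zero_iff.2 hη.le, rfl⟩)] with y hy
      exact hUeq y hy
    exact Finset.sum_congr rfl fun l _ => lev_congr h3 _
  rw [h2] at h1
  refine h1.congr_of_eventuallyEq ?_
  filter_upwards [hev] with q hq
  exact M_congr fun η hη => (hUeq _ (hq η hη.le)).symm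

theorem hasDerivAt_Phi {Ω : Set (V n)} (hΩ : IsOpen Ω) {u : V n → ℝ}
    (hu : ContDiffOn ℝ 2 u Ω) {z : V n} {t : ℝ} (ht : 0 ≤ t) (hz : z ∈ shr Ω t) :
    HasDerivAt (fun s : ℝ => Phi u z s) (2 * t * M1 (sc t) (DA 1 u) z) t := by
  exact hasDerivAt_M 1 hΩ hu ((mem_shr_iff ht).1 hz)

/-- the mean of a `C^k` function is `C^k` (any frame, also `t = 0`) -/
theorem contDiffOn_M_of_contDiffOn (T : Lin n) {Ω : Set (V n)} (hΩ : IsOpen Ω) {u : V n → ℝ}
    {k : ℕ∞} (hu : ContDiffOn ℝ k u Ω) :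
    ContDiffOn ℝ k (M T u) {z | ∀ η : V n, ‖η‖ ≤ 1 → z + T η ∈ Ω} := by
  have hk : (k : WithTop ℕ∞) ≤ (⊤ : ℕ∞) := by exact_mod_cast le_top
  have hs : IsOpen {z | ∀ η : V n, ‖η‖ ≤ 1 → z + T η ∈ Ω} := isOpen_tube24 hΩ (cT24 T).continuous
  exact tool_cd24 (Ψ := fun z η => rho η * u (z + T η)) hs
    (joint24 hk hs hΩ hu ((cT24 T).of_le hk).contDiffOn fun p hp η hη => hp η hη)
    fun p _ η hη => by rw [rho_eq_zero hη.le, zero_mul]

/-- jointly in `(z,t)` -/
theorem contDiffOn_M_joint (A : Lin n) {Ω : Set (V n)} (hΩ : IsOpen Ω) {u : V n → ℝ}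
    {k : ℕ∞} (hu : ContDiffOn ℝ k u Ω) :
    ContDiffOn ℝ k (fun p : V n × ℝ => M ((p.2 : ℂ) • A) u p.1)
      {p | ∀ η : V n, ‖η‖ ≤ 1 → p.1 + ((p.2 : ℂ) • A) η ∈ Ω} := by
  have hk : (k : WithTop ℕ∞) ≤ (⊤ : ℕ∞) := by exact_mod_cast le_top
  have hs : IsOpen {p : V n × ℝ | ∀ η : V n, ‖η‖ ≤ 1 → p.1 + ((p.2 : ℂ) • A) η ∈ Ω} :=
    isOpen_tube24 hΩ (cA24 A).continuous
  exact tool_cd24 (Ψ := fun p η => rho η * u (p.1 + ((p.2 : ℂ) • A) η)) hs
    (joint24 hk hs hΩ hu ((cA24 A).of_le hk).contDiffOn fun p hp η hη => hp η hη)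
    fun p _ η hη => by rw [rho_eq_zero hη.le, zero_mul]

theorem lev_M (T : Lin n) {Ω : Set (V n)} (hΩ : IsOpen Ω) {u : V n → ℝ}
    (hu : ContDiffOn ℝ 2 u Ω) {z : V n} (hz : ∀ η : V n, ‖η‖ ≤ 1 → z + T η ∈ Ω) (v : V n) :
    lev (M T u) z v = ∫ η, rho η * lev u (z + T η) v := by
  obtain ⟨i1, h1⟩ := D2_M24 hΩ hu hz v v
  obtain ⟨i2, h2⟩ := D2_M24 hΩ hu hz (Complex.I • v) (Complex.I • v)
  rw [lev, h1, h2, ← integral_add i1 i2, ← integral_div]
  refine integral_congr_ae (Filter.Eventually.of_forall fun η => ?_)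
  simp only [lev]
  ring

theorem hess_M (T : Lin n) {Ω : Set (V n)} (hΩ : IsOpen Ω) {u : V n → ℝ}
    (hu : ContDiffOn ℝ 2 u Ω) {z : V n} (hz : ∀ η : V n, ‖η‖ ≤ 1 → z + T η ∈ Ω) :
    hess (M T u) z = MH T (hess u) z := by
  ext j k
  obtain ⟨i1, h1⟩ := D2_M24 hΩ hu hz (e j) (e k)
  obtain ⟨i2, h2⟩ := D2_M24 hΩ hu hz (Complex.I • e j) (Complex.I • e k)
  obtain ⟨i3, h3⟩ := D2_M24 hΩ hu hz (e j) (Complex.I • e k)
  obtain ⟨i4, h4⟩ := D2_M24 hΩ hu hz (Complex.I • e j) (e k)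
  have e1 : hess (M T u) z j k = (((D2 (M T u) z (e j) (e k) + D2 (M T u) z (Complex.I • e j) (Complex.I • e k) : ℝ) : ℂ) +
    ((D2 (M T u) z (e j) (Complex.I • e k) - D2 (M T u) z (Complex.I • e j) (e k) : ℝ) : ℂ) * Complex.I) / 4 := rfl
  have e2 : MH T (hess u) z j k = ∫ η : V n, (rho η : ℂ) * hess u (z + T η) j k := rfl
  rw [e1, e2, h1, h2, h3, h4, ← integral_add i1 i2, ← integral_sub i3 i4, ← integral_complex_ofReal,
    ← integral_complex_ofReal, ← integral_mul_const, ← integral_add (i1.add i2).ofReal ((i3.sub i4).ofReal.mul_const _),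
    ← integral_div]
  refine integral_congr_ae (Filter.Eventually.of_forall fun η => ?_)
  simp only [hess]
  push_cast
  ring

/-- a more general version for a family of holomorphic maps: `κ z η` holomorphic in `z` near `z₀`
with derivative `B η` at `z₀`, everything continuous in `η` -/
theorem lev_integral_comp {Ω : Set (V n)} (hΩ : IsOpen Ω) {u : V n → ℝ}
    (hu : ContDiffOn ℝ (⊤ : ℕ∞) u Ω) {w : V n → ℂ} {z₀ : V n} (hw : ContDiffAt ℂ (⊤ : ℕ∞) w z₀)
    (hz : ∀ η : V n, ‖η‖ ≤ 1 → z₀ + w z₀ • η ∈ Ω) (v : V n) :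
    ContDiffAt ℝ 2 (fun z => ∫ η, rho η * u (z + w z • η)) z₀ ∧
    lev (fun z => ∫ η, rho η * u (z + w z • η)) z₀ v =
      ∫ η, rho η * lev u (z₀ + w z₀ • η) (v + fderiv ℂ w z₀ v • η) := by
  have hk : (2 : WithTop ℕ∞) ≤ (⊤ : ℕ∞) := two_le24
  have hw2 : ContDiffAt ℂ 2 w z₀ := hw.of_le hk
  have hu2 : ContDiffOn ℝ 2 u Ω := hu.of_le hk
  have hev1 : ∀ᶠ z in 𝓝 z₀, ContDiffAt ℂ 2 w z := hw2.eventually (by norm_num)
  have hev2 : ∀ᶠ z in 𝓝 z₀, ∀ η : V n, ‖η‖ ≤ 1 → z + w z • η ∈ Ω := by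
    refine tube24 (c := fun q : V n × V n => q.1 + w q.1 • q.2) hΩ (fun η _ => ?_) hz
    have h1 : ContinuousAt (fun q : V n × V n => w q.1) (z₀, η) :=
      ContinuousAt.comp (f := fun q : V n × V n => q.1) hw.continuousAt continuousAt_fst
    exact continuousAt_fst.add (h1.smul continuousAt_snd)
  obtain ⟨s, hsP, hs, hzs⟩ := eventually_nhds_iff.1 (hev1.and hev2)
  have hc : ContDiffOn ℝ 2 (fun q : V n × V n => q.1 + w q.1 • q.2) (s ×ˢ univ) := by
    rintro ⟨z, η⟩ hq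
    apply ContDiffAt.contDiffWithinAt
    have h1 : ContDiffAt ℝ 2 w z := ((hsP z hq.1).1).restrict_scalars ℝ
    have h2 : ContDiffAt ℝ 2 (fun q : V n × V n => w q.1) (z, η) :=
      ContDiffAt.comp (f := fun q : V n × V n => q.1) (z, η) h1 contDiffAt_fst
    exact contDiffAt_fst.add (h2.smul contDiffAt_snd)
  have hΨ : ContDiffOn ℝ 2 (fun q : V n × V n => rho q.2 * u (q.1 + w q.1 • q.2)) (s ×ˢ univ) :=
    joint24 hk hs hΩ hu2 hc fun p hp η hη => (hsP p hp).2 η hη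
  have h0 : ∀ p ∈ s, ∀ η : V n, 1 < ‖η‖ → rho η * u (p + w p • η) = 0 :=
    fun p _ η hη => by rw [rho_eq_zero hη.le, zero_mul]
  refine ⟨?_, ?_⟩
  · have h1 : ContDiffOn ℝ ((2 : ℕ) : ℕ∞) (fun z => ∫ η, rho η * u (z + w z • η)) s :=
      tool_cd24 (Ψ := fun z η => rho η * u (z + w z • η)) hs (by exact_mod_cast hΨ) h0
    have h2 := h1.contDiffAt (hs.mem_nhds hzs)
    exact_mod_cast h2
  · obtain ⟨i1, h1⟩ := tool_D2_24 (Ψ := fun z η => rho η * u (z + w z • η)) hs hΨ h0 hzs v v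
    obtain ⟨i2, h2⟩ := tool_D2_24 (Ψ := fun z η => rho η * u (z + w z • η)) hs hΨ h0 hzs
      (Complex.I • v) (Complex.I • v)
    rw [lev, h1, h2, ← integral_add i1 i2, ← integral_div]
    refine integral_congr_ae (Filter.Eventually.of_forall fun η => ?_)
    show lev (fun q => rho η * u (q + w q • η)) z₀ v = rho η * lev u (z₀ + w z₀ • η) (v + fderiv ℂ w z₀ v • η)
    rcases lt_or_ge ‖η‖ 1 with hη | hη
    · have hκ : ContDiffAt ℂ 2 (fun q : V n => q + w q • η) z₀ :=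
        contDiffAt_id.add (hw2.smul contDiffAt_const)
      have hκd : fderiv ℂ (fun q : V n => q + w q • η) z₀ v = v + fderiv ℂ w z₀ v • η := by
        have h3 : HasFDerivAt (fun q : V n => q + w q • η)
            (ContinuousLinearMap.id ℂ (V n) + (fderiv ℂ w z₀).smulRight η) z₀ :=
          (hasFDerivAt_id z₀).add ((hw2.differentiableAt (by norm_num)).hasFDerivAt.smul_const η)
        rw [h3.fderiv]
        rfl
      have hu' : ContDiffAt ℝ 2 u (z₀ + w z₀ • η) := hu2.contDiffAt (hΩ.mem_nhds (hz η hη.le))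
      have hc' : ContDiffAt ℝ 2 (fun q : V n => u (q + w q • η)) z₀ :=
        ContDiffAt.comp (f := fun q : V n => q + w q • η) z₀ hu' (hκ.restrict_scalars ℝ)
      rw [lev_const_mul _ hc', lev_comp_holo hκ hu', hκd]
    · rw [rho_eq_zero hη, zero_mul]
      simp only [zero_mul]
      exact lev_const 0 v

/-- quadratic bound for means of smooth functions -/
theorem abs_Phi_sub_le {Ω : Set (V n)} (hΩ : IsOpen Ω) {g : V n → ℝ}
    (hg : ContDiffOn ℝ 2 g Ω) {K : Set (V n)} (hK : IsCompact K) {r : ℝ} (hr : 0 ≤ r)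
    (hKr : K ⊆ shr Ω r) :
    ∃ C : ℝ, 0 ≤ C ∧ ∀ z ∈ K, ∀ t, 0 ≤ t → t ≤ r → |Phi g z t - g z| ≤ C * t ^ 2 := by
  have hK' : IsCompact (Metric.cthickening r K) := hK.cthickening
  have hK'Ω : Metric.cthickening r K ⊆ Ω := by
    rw [hK.cthickening_eq_biUnion_closedBall hr]
    intro y hy
    obtain ⟨x, hx, hxy⟩ := Set.mem_iUnion₂.1 hy
    exact hKr hx hxy
  have hcont : ContinuousOn (fun y => DA 1 g y) (Metric.cthickening r K) := by
    unfold DA
    exact continuousOn_finsetSum _ fun l _ => (continuousOn_lev hΩ hg _).mono hK'Ω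
  obtain ⟨C, hC⟩ := hK'.exists_bound_of_continuousOn hcont
  refine ⟨2 * max C 0, by positivity, fun z hz t ht htr => ?_⟩
  have hC0 : 0 ≤ max C 0 := le_max_right _ _
  have hball : ∀ x, 0 ≤ x → x ≤ r → Metric.closedBall z x ⊆ Metric.cthickening r K := by
    intro x _ hxr
    rw [hK.cthickening_eq_biUnion_closedBall hr]
    intro y hy
    exact Set.mem_iUnion₂.2 ⟨z, hz, Metric.closedBall_subset_closedBall hxr hy⟩
  have hM1 : ∀ x, 0 ≤ x → x ≤ r → |M1 (sc x) (DA 1 g) z| ≤ max C 0 := by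
    intro x hx hxr
    have h1 : ‖∫ η : V n, rho1 η * DA 1 g (z + (sc x : Lin n) η)‖ ≤ ∫ η : V n, rho1 η * max C 0 := by
      refine norm_integral_le_of_norm_le (rho1_integrable.mul_const _) (Filter.Eventually.of_forall fun η => ?_)
      rcases le_or_gt ‖η‖ 1 with hη | hη
      · rw [norm_mul, Real.norm_of_nonneg (rho1_nonneg η)]
        refine mul_le_mul_of_nonneg_left ?_ (rho1_nonneg η)
        refine (hC _ (hball x hx hxr ?_)).trans (le_max_left _ _)
        rw [Metric.mem_closedBall, dist_eq_norm, add_sub_cancel_left, sc_apply, norm_smul, Complex.norm_real,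
          Real.norm_of_nonneg hx]
        nlinarith [norm_nonneg η]
      · rw [rho1_eq_zero hη.le, zero_mul, zero_mul, norm_zero]
    rw [integral_mul_const] at h1
    have h2 : (∫ η : V n, rho1 η) * max C 0 ≤ 1 * max C 0 := mul_le_mul_of_nonneg_right aa_le_one hC0
    rw [one_mul] at h2
    exact h1.trans h2
  have hmem : ∀ x, 0 ≤ x → x ≤ r → z ∈ shr Ω x := fun x hx hxr => (hball x hx hxr).trans hK'Ω
  have key := norm_image_sub_le_of_norm_deriv_le_segment' (f := fun s : ℝ => Phi g z s)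
    (f' := fun x => 2 * x * M1 (sc x) (DA 1 g) z) (C := 2 * t * max C 0) (a := 0) (b := t)
    (fun x hx => (hasDerivAt_Phi hΩ hg hx.1 (hmem x hx.1 (hx.2.trans htr))).hasDerivWithinAt)
    (fun x hx => by
      rw [norm_mul, Real.norm_of_nonneg (by linarith [hx.1] : (0 : ℝ) ≤ 2 * x), Real.norm_eq_abs]
      have h1 := hM1 x hx.1 (hx.2.le.trans htr)
      have h2 : 2 * x * |M1 (sc x) (DA 1 g) z| ≤ 2 * x * max C 0 :=
        mul_le_mul_of_nonneg_left h1 (by linarith [hx.1])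
      have h3 : 2 * x * max C 0 ≤ 2 * t * max C 0 :=
        mul_le_mul_of_nonneg_right (by linarith [hx.2]) hC0
      exact h2.trans h3) t ⟨ht, le_rfl⟩
  rw [Phi_zero, sub_zero, Real.norm_eq_abs] at key
  calc |Phi g z t - g z| ≤ 2 * t * max C 0 * t := key
    _ = 2 * max C 0 * t ^ 2 := by ring

end Pool.Agent.Helper29.AM
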