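import Pool.Agent.Helper29.AM.Defs
import Pool.Agent.Helper87.RG.D16

/-!
# Project AM: the regularity theorem (section 7), proved by helper87 (project REG)
-/

set_option autoImplicit false

namespace Pool.Agent.Helper29.AM

open MeasureTheory Set Filter Topology
open scoped ComplexOrder

theorem regularity {n : ℕ} (hn : 0 < n) {O : Set (V n)} (hO : IsOpen O) {u : V n → ℝ}
    {H : V n → Mat n} (h : BH O u H) {τ : ℝ} (hτ : 0 ≤ τ) {k : V n → ℝ}
    (hk : ContDiffOn ℝ (⊤ : ℕ∞) k O)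
    (heq : ∀ᵐ z, z ∈ O → (H z).det = ((Real.exp (τ * u z + k z) : ℝ) : ℂ)) :
    ∃ u' : V n → ℝ, ContDiffOn ℝ (⊤ : ℕ∞) u' O ∧ ∀ᵐ z, z ∈ O → u z = u' z :=
  Pool.Agent.Helper87.RG.regularity hn hO h hτ hk heq

end Pool.Agent.Helper29.AM
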