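import Pool.Agent.Helper29.AM.PE4
import Pool.Agent.Helper29.AM.GA5
import Pool.Agent.Helper29.AM.Reg

/-!
# Block AM-PE5: the smooth solution (6.6)

Choose `C ≥ C₀` (`exists_cap`), `C ≥ 0`; the family is not empty (`Nice.mem_St`); `φ` from
`exists_perron`; replace it by the continuous version `φ'` of `perron_c11` (`St.congr`); `perron_eq` gives
`det H = e^{τφ'} f` a.e. on `Om D i`, i.e. `exp(τ u + k)` with `u = pot i φ'`, `k = -τ g_i + log f_i` smooth
(the determinant of a positive semidefinite matrix is real). `regularity` gives a smooth function equal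
to `pot i φ'` a.e., hence everywhere on `Om D i` by continuity. `SmoothOn.of_pot`. `H = hess` a.e.
(test functions, or `BH.ae_tendsto` and smoothness), by continuity the equation holds everywhere on
`Om D i`; `det_eq_of_Om`.
-/

set_option autoImplicit false

namespace Pool.Agent.Helper29.AM

open MeasureTheory Set Filter Topology
open scoped ComplexOrder

variable {n : ℕ}

/-- a smooth function with compact support is a difference of two test functions -/
private theorem cut_h54 {Ω : Set (V n)} (hΩ : IsOpen Ω) {g : V n → ℝ} (hg : ContDiff ℝ (⊤ : ℕ∞) g)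
    (hc : HasCompactSupport g) (hs : tsupport g ⊆ Ω) :
    ∃ a b : V n → ℝ, Tst Ω a ∧ Tst Ω b ∧ ∀ z, g z = a z - b z := by
  obtain ⟨L, hL, h1, h2⟩ := exists_compact_between hc hΩ hs
  obtain ⟨f, hf1, hf0, hf⟩ := exists_contMDiffMap_one_nhds_of_subset_interior (n := (⊤ : ℕ∞))
    (modelWithCornersSelf ℝ (V n)) (isClosed_tsupport g) h1
  have hfs : ContDiff ℝ (⊤ : ℕ∞) (f : V n → ℝ) := f.contMDiff.contDiff
  have hfL : tsupport (f : V n → ℝ) ⊆ L :=
    closure_minimal (fun z hz => by_contra fun h => hz (hf0 z h)) hL.isClosed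
  have hfc : HasCompactSupport (f : V n → ℝ) := hL.of_isClosed_subset (isClosed_tsupport _) hfL
  obtain ⟨C, hC⟩ := hc.exists_bound_of_continuous hg.continuous
  have hC0 : 0 ≤ C := (norm_nonneg (g 0)).trans (hC 0)
  refine ⟨fun z => (C + g z) * f z, fun z => C * f z, ⟨?_, ?_, ?_, ?_⟩, ⟨?_, ?_, ?_, ?_⟩, ?_⟩
  · exact (contDiff_const.add hg).mul hfs
  · exact hfc.mul_left
  · exact (tsupport_mul_subset_right.trans hfL).trans h2
  · intro z
    have h3 := hC z
    rw [Real.norm_eq_abs] at h3
    exact mul_nonneg (by linarith [neg_abs_le (g z)]) (hf z).1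
  · exact contDiff_const.mul hfs
  · exact hfc.mul_left
  · exact (tsupport_mul_subset_right.trans hfL).trans h2
  · exact fun z => mul_nonneg hC0 (hf z).1
  · intro z
    by_cases hz : z ∈ tsupport g
    · have h3 : f z = 1 := (hf1.self_of_nhdsSet z hz)
      simp only [h3]
      ring
    · have h4 := image_eq_zero_of_notMem_tsupport hz
      simp only [h4]
      ring

private theorem two_le_h54 : (2 : WithTop ℕ∞) ≤ ((⊤ : ℕ∞) : WithTop ℕ∞) := by
  have h : ((2 : ℕ∞) : WithTop ℕ∞) ≤ ((⊤ : ℕ∞) : WithTop ℕ∞) := WithTop.coe_le_coe.2 le_top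
  exact h

private theorem int_h54 {Ω : Set (V n)} {F : V n → ℂ} (hF : LocallyIntegrableOn F Ω volume) {η : V n → ℝ}
    (hη : Tst Ω η) : Integrable fun z => F z * (η z : ℂ) := by
  have h1 : IntegrableOn F (tsupport η) := hF.integrableOn_compact_subset hη.sub hη.cpt
  have h2 : IntegrableOn (fun z => F z * (η z : ℂ)) (tsupport η) :=
    h1.mul_continuousOn (Complex.continuous_ofReal.comp hη.smooth.continuous).continuousOn hη.cpt
  rw [← integrableOn_iff_integrable_of_support_subset (s := tsupport η)]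
  · exact h2
  · intro z hz
    by_contra h3
    apply hz
    simp only
    rw [image_eq_zero_of_notMem_tsupport h3]
    simp

/-- for a smooth function the weak Hessian is the Hessian -/
theorem BH.eq_hess {Ω : Set (V n)} (hΩ : IsOpen Ω) {u : V n → ℝ} {H : V n → Mat n} (h : BH Ω u H)
    (hu : ContDiffOn ℝ (⊤ : ℕ∞) u Ω) : ∀ᵐ z, z ∈ Ω → H z = hess u z := by
  have hjk : ∀ j k : Fin n, ∀ᵐ z, z ∈ Ω → H z j k - hess u z j k = 0 := by
    intro j k
    have hH : LocallyIntegrableOn (fun z => H z j k) Ω volume := by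
      rw [locallyIntegrableOn_iff hΩ.isLocallyClosed]
      intro K hK hKc
      obtain ⟨C, hC⟩ := h.bdd K hK hKc
      refine Measure.integrableOn_of_bounded (M := C) hKc.measure_lt_top.ne (h.meas j k).aestronglyMeasurable ?_
      exact (ae_restrict_iff' hKc.measurableSet).2 (Eventually.of_forall fun z hz => hC z hz j k)
    have hh : LocallyIntegrableOn (fun z => hess u z j k) Ω volume :=
      (contDiffOn_hess hΩ hu j k).continuousOn.locallyIntegrableOn hΩ.measurableSet
    have h2 : ∀ η : V n → ℝ, Tst Ω η → ∫ z, (H z j k - hess u z j k) * (η z : ℂ) = 0 := by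
      intro η hη
      have h3 := h.weak η hη j k
      have h4 := integral_mul_hess hΩ (hu.of_le two_le_h54) (hη.smooth.of_le two_le_h54)
        hη.cpt hη.sub j k
      have h5 : (fun z => (H z j k - hess u z j k) * (η z : ℂ)) =
          fun z => H z j k * (η z : ℂ) - hess u z j k * (η z : ℂ) := by
        funext z
        ring
      rw [h5, integral_sub (int_h54 hH hη) (int_h54 hh hη), ← h3, ← h4, sub_self]
    have hHh : LocallyIntegrableOn (fun z => H z j k - hess u z j k) Ω volume := hH.sub hh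
    refine hΩ.ae_eq_zero_of_integral_contDiff_smul_eq_zero hHh fun g hg hgc hgs => ?_
    obtain ⟨a, b, ha, hb, hab⟩ := cut_h54 hΩ hg hgc hgs
    have h6 : (fun z => g z • (H z j k - hess u z j k)) =
        fun z => (H z j k - hess u z j k) * (a z : ℂ) - (H z j k - hess u z j k) * (b z : ℂ) := by
      funext z
      rw [hab z, Complex.real_smul]
      push_cast
      ring
    change ∫ z, g z • (H z j k - hess u z j k) = 0
    rw [h6, integral_sub (int_h54 hHh ha) (int_h54 hHh hb), h2 a ha, h2 b hb, sub_self]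
  have h7 : ∀ᵐ z, ∀ j k : Fin n, z ∈ Ω → H z j k - hess u z j k = 0 :=
    ae_all_iff.2 fun j => ae_all_iff.2 fun k => hjk j k
  filter_upwards [h7] with z hz hzΩ
  ext j k
  exact sub_eq_zero.1 (hz j k hzΩ)

namespace Atl

variable {X : Type} [TopologicalSpace X] [MeasurableSpace X] {N : ℕ} (A : Atl X n N)
variable [CompactSpace X] [T2Space X] [BorelSpace X]

/-- from a weak solution with bounded Hessian to a smooth solution -/
theorem smooth_of_BH (hn : 0 < n) {D : Set X} (hD : IsOpen D) {τ : ℝ} (hτ : 0 ≤ τ) {φ : X → ℝ}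
    (hcont : ContinuousOn φ D) {H : Fin N → V n → Mat n}
    (hH : ∀ i, BH (A.Om D i) (A.pot i φ) (H i))
    (heq : ∀ i, ∀ᵐ z, z ∈ A.Om D i →
      (H i z).det.re = Real.exp (τ * A.lc i φ z) * A.f i z) :
    A.SmoothOn D φ ∧ ∀ i, ∀ z ∈ (A.e i).target, (A.e i).symm z ∈ D →
      (hess (A.pot i φ) z).det.re = Real.exp (τ * A.lc i φ z) * A.f i z := by
  have hO : ∀ i, IsOpen (A.Om D i) := fun i => isOpen_Om A hD i
  have hOt : ∀ i, A.Om D i ⊆ (A.e i).target := fun i z hz => hz.2.1
  have hlc : ∀ i, ContinuousOn (A.lc i φ) (A.Om D i) := fun i =>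
    hcont.comp ((A.e i).continuousOn_symm.mono (hOt i)) fun z hz => hz.2.2
  have hpot : ∀ i, ContinuousOn (A.pot i φ) (A.Om D i) := fun i =>
    ((A.g_smooth i).continuousOn.mono (hOt i)).add (hlc i)
  have hsm : ∀ i, ContDiffOn ℝ (⊤ : ℕ∞) (A.pot i φ) (A.Om D i) := by
    intro i
    have hk : ContDiffOn ℝ (⊤ : ℕ∞) (fun z => Real.log (A.f i z) - τ * A.g i z) (A.Om D i) := by
      refine ContDiffOn.sub ?_ (contDiffOn_const.mul ((A.g_smooth i).mono (hOt i)))
      exact ((A.f_smooth i).mono (hOt i)).log fun z hz => (A.f_pos i z (hOt i hz)).ne'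
    obtain ⟨u', hu', hae⟩ := regularity hn (hO i) (hH i) hτ hk (by
      filter_upwards [heq i] with z hz hzO
      have h1 := hz hzO
      have h2 : (H i z).det = (((H i z).det.re : ℝ) : ℂ) := by
        have h3 := ((hH i).psd z).det_nonneg
        rw [Complex.le_def] at h3
        refine Complex.ext (by simp) ?_
        simpa using h3.2.symm
      rw [h2, h1]
      congr 1
      have h4 := A.f_pos i z (hOt i hzO)
      unfold pot
      rw [show τ * (A.g i z + A.lc i φ z) + (Real.log (A.f i z) - τ * A.g i z) = τ * A.lc i φ z + Real.log (A.f i z) by ring,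
        Real.exp_add, Real.exp_log h4])
    have h5 : EqOn (A.pot i φ) u' (A.Om D i) := by
      refine Measure.eqOn_open_of_ae_eq (μ := volume) ?_ (hO i) (hpot i) hu'.continuousOn
      exact (ae_restrict_iff' (hO i).measurableSet).2 hae
    exact hu'.congr h5
  have hS : A.SmoothOn D φ := SmoothOn.of_pot A hD hsm
  refine ⟨hS, det_eq_of_Om A hD hS fun i => ?_⟩
  have h6 : EqOn (fun z => (hess (A.pot i φ) z).det.re) (fun z => Real.exp (τ * A.lc i φ z) * A.f i z) (A.Om D i) := by
    refine Measure.eqOn_open_of_ae_eq (μ := volume) ?_ (hO i) ?_ ?_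
    · refine (ae_restrict_iff' (hO i).measurableSet).2 ?_
      filter_upwards [heq i, (hH i).eq_hess (hO i) (hsm i)] with z h1 h2 hz
      rw [← h2 hz]
      exact h1 hz
    · have h7 : ContinuousOn (fun z => (hess (A.pot i φ) z).det) (A.Om D i) := by
        simp only [Matrix.det_apply]
        refine continuousOn_finsetSum _ fun σ _ => ContinuousOn.const_smul ?_ _
        exact continuousOn_finsetProd _ fun j _ => (contDiffOn_hess (hO i) (hsm i) _ _).continuousOn
      exact Complex.continuous_re.comp_continuousOn h7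
    · exact (Real.continuous_exp.comp_continuousOn (continuousOn_const.mul (hlc i))).mul
        ((A.f_smooth i).continuousOn.mono (hOt i))
  exact h6

theorem exists_sol' (hn : 0 < n) {D : Set X} {ψ : X → ℝ} {ε : ℝ} (hψ : A.Nice D ψ ε) {τ : ℝ}
    (hτ : 0 < τ) : ∃ (C : ℝ) (φ : X → ℝ), 0 ≤ C ∧ A.Sol D τ C φ := by
  obtain ⟨C₀, hC₀, hcap⟩ := A.exists_cap hn hτ
  obtain ⟨C', -, hmem⟩ := hψ.mem_St A hn hτ
  obtain ⟨φ, hφ, hmax⟩ := A.exists_perron (τ := τ) (C := C₀) ⟨_, hmem C' le_rfl C₀ hC₀⟩
  obtain ⟨φ', hae, hcont, hBH⟩ := A.perron_c11 hn hψ hτ hC₀ hφ hmax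
  have hφ' : A.St τ C₀ φ' := hφ.congr A hae
  have hmax' : ∀ v, A.St τ C₀ v → ∀ᵐ x ∂A.μ, v x ≤ φ' x := by
    intro v hv
    filter_upwards [hmax v hv, hae] with x h1 h2
    exact h1.trans h2.le
  choose H hH using hBH
  have hlt := hcap C₀ le_rfl φ' D hφ' hψ.isOpen hcont
  obtain ⟨h1, h2⟩ := A.smooth_of_BH hn hψ.isOpen hτ.le hcont hH fun i =>
    A.perron_eq hn hψ.isOpen hτ hφ' hmax' hcont hlt i (hH i)
  exact ⟨C₀, φ', hC₀, hφ', hmax', h1, h2⟩

end Atl

end Pool.Agent.Helper29.AM
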