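import Pool.Agent.Helper29.AM.C8
import Pool.Agent.Helper29.AM.Nice1
import Pool.Agent.Helper29.AM.Nice2
import Pool.Agent.Helper29.AM.PE5
import Pool.Agent.Helper76.AM.UL11
import Pool.Agent.Helper64.AM.Fin

/-!
# Project AM: the top level statements of the analytic part (sections 5, 6, 8, 9, 10, 13)

This file only fixes the statements (owners: 5, 6 helper29; 8 helper61/helper22; 9 helper76;
10, 13 helper64) and contains the assembly `core`. The proofs are in other files; when a section is done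
its theorem replaces the stub.
-/

set_option autoImplicit false

namespace Pool.Agent.Helper29.AM

open MeasureTheory Set Filter Topology
open scoped ComplexOrder

namespace Atl

variable {X : Type} [TopologicalSpace X] [MeasurableSpace X] {n N : ℕ} (A : Atl X n N)

variable [CompactSpace X] [T2Space X] [BorelSpace X]

/-- section 5 -/
theorem exists_nicePair (hn : 0 < n) {ε₀ : ℝ} (hε₀ : 0 < ε₀) {ψ₀ : X → ℝ} (hψ₀ : A.KCX ε₀ ψ₀)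
    {x₀ : X} {U : Set X} (hU : IsOpen U) (hx₀ : x₀ ∈ U) {C : ℝ}
    (hb : ∀ᵐ x ∂A.μ, x ∈ U → |ψ₀ x| ≤ C) :
    ∃ (D : Set X) (ψ ψ2 : X → ℝ) (ε a₀ : ℝ), x₀ ∈ D ∧ A.NicePair D ψ ψ2 ε a₀ := by
  obtain ⟨D, ψ, ε, hx, hN⟩ := A.exists_nice hn hε₀ hψ₀ hU hx₀ hb
  obtain ⟨ψ2, ε', a₀, hP⟩ := hN.exists_pair A hn
  exact ⟨D, ψ, ψ2, ε', a₀, hx, hP⟩

/-- section 6 -/
theorem exists_sol (hn : 0 < n) {D : Set X} {ψ : X → ℝ} {ε : ℝ} (hψ : A.Nice D ψ ε) {τ : ℝ}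
    (hτ : 0 < τ) : ∃ (C : ℝ) (φ : X → ℝ), 0 ≤ C ∧ A.Sol D τ C φ :=
  A.exists_sol' hn hψ hτ

/-- section 9 -/
theorem sol_laplace (hn : 0 < n) (hV : A.VolLe) {D : Set X} {ψ ψ2 : X → ℝ} {ε a₀ : ℝ}
    (hψ : A.NicePair D ψ ψ2 ε a₀) {φ : X → ℝ} (hφ : A.St 0 0 φ) {K : Set X} (hK : IsCompact K)
    (hKD : K ⊆ D) : ∃ C₁ : ℝ, ∀ τ : ℝ, 0 < τ → τ ≤ 1 → ∀ (C : ℝ) (φτ : X → ℝ), 0 ≤ C →
      A.Sol D τ C φτ → ∀ i, ∀ z : V n, ‖z‖ ≤ 1 → (A.e i).symm z ∈ K →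
      DA 1 (A.pot i φτ) z ≤ C₁ :=
  Pool.Agent.Helper76.AM.sol_laplace A hn hV hψ hφ hK hKD

/-- section 10 -/
theorem exists_limit (hn : 0 < n) (hV : A.VolLe) {D : Set X} {ψ ψ2 : X → ℝ} {ε a₀ : ℝ}
    (hψ : A.NicePair D ψ ψ2 ε a₀) {φ : X → ℝ} (hφ : A.St 0 0 φ) :
    ∃ (C : ℝ) (Φ : X → ℝ), A.St 0 C Φ ∧ A.SmoothOn D Φ ∧
      ∀ i, ∀ z ∈ (A.e i).target, (A.e i).symm z ∈ D →
        (hess (A.pot i Φ) z).det.re = A.f i z :=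
  A.exists_limit64 hn hV hψ hφ

/-- section 13 -/
theorem identification (hn : 0 < n) (hV : A.VolLe) {D : Set X} (hD : IsOpen D)
    (hD0 : A.μ Dᶜ = 0) {φ : X → ℝ} (hφ : A.St 0 0 φ) {C : ℝ} {Φ : X → ℝ} (hΦ : A.St 0 C Φ)
    (hs : A.SmoothOn D Φ) (heq : ∀ i, ∀ z ∈ (A.e i).target, (A.e i).symm z ∈ D →
        (hess (A.pot i Φ) z).det.re = A.f i z) :
    ∃ φ' : X → ℝ, A.SmoothOn D φ' ∧ ∀ᵐ x ∂A.μ, φ x = φ' x :=
  A.identification64 hn hV hD hD0 hφ hΦ hs heq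

/-- the analytic core: a subsolution `φ` (the potential of `T`) is smooth near every point near which
some Kähler current is bounded -/
theorem core (hn : 0 < n) (hV : A.VolLe) {ε₀ : ℝ} (hε₀ : 0 < ε₀) {ψ₀ : X → ℝ}
    (hψ₀ : A.KCX ε₀ ψ₀) {x₀ : X} {U : Set X} (hU : IsOpen U) (hx₀ : x₀ ∈ U) {C : ℝ}
    (hb : ∀ᵐ x ∂A.μ, x ∈ U → |ψ₀ x| ≤ C) {φ : X → ℝ} (hφ : A.St 0 0 φ) :
    ∃ (D : Set X) (φ' : X → ℝ), IsOpen D ∧ x₀ ∈ D ∧ A.SmoothOn D φ' ∧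
      ∀ᵐ x ∂A.μ, φ x = φ' x := by
  obtain ⟨D, ψ, ψ2, ε, a₀, hxD, hψ⟩ := A.exists_nicePair hn hε₀ hψ₀ hU hx₀ hb
  obtain ⟨C', Φ, h1, h2, h3⟩ := A.exists_limit hn hV hψ hφ
  obtain ⟨φ', h4, h5⟩ := A.identification hn hV hψ.nice.isOpen hψ.nice.null hφ h1 h2 h3
  exact ⟨D, φ', hψ.nice.isOpen, hxD, h4, h5⟩

end Atl

end Pool.Agent.Helper29.AM
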