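import Pool.Agent.Helper29.AM.Local

/-!
# Project AM (MP_5d2bda_an): working definitions, local part

Everything lives on `V n = EuclideanSpace ℂ (Fin n)` with its volume (Lebesgue measure).
The paper proof is `/team-store/h29_MP_5d2bda_an_proof.md`; the numbers of its statements are used
in all files of the project.
-/

set_option autoImplicit false

namespace Pool.Agent.Helper29.AM

open MeasureTheory Set Filter Topology
open scoped ComplexOrder

/-- Complex linear maps of `ℂ^n` (frames). -/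
abbrev Lin (n : ℕ) : Type := V n →L[ℂ] V n

variable {n : ℕ}

/-- `Δ_A u = ∑_l L_u(·; A e_l)`. For `A = 1` this is `tr (u_{j k̄})`. -/
noncomputable def DA (A : Lin n) (u : V n → ℝ) (z : V n) : ℝ := ∑ l, lev u z (A (e l))

/-- The hermitian form `∑ H_{jk} v_j v̄_k` of a matrix. -/
noncomputable def lf (H : Mat n) (v : V n) : ℝ :=
  (∑ j, ∑ k, H j k * v j * (starRingEnd ℂ) (v k)).re

/-- `s_A(H) = ∑_l L_H(A e_l)`. -/
noncomputable def sA (A : Lin n) (H : Mat n) : ℝ := ∑ l, lf H (A (e l))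

/-- Gaveau property of a hermitian form `L` (given as a function of vectors):
`∑_l L(A e_l) ≥ n |det A|^{2/n} F` for all `A`; for forms this says `L ≥ 0` and `(det L)^{1/n} ≥ F`. -/
def GP (L : V n → ℝ) (F : ℝ) : Prop :=
  ∀ A : Lin n, (n : ℝ) * ‖A.det‖ ^ ((2 : ℝ) / n) * F ≤ ∑ l, L (A (e l))

/-! ### The kernel -/

/-- the profile (not normalised) -/
noncomputable def chi0 (s : ℝ) : ℝ := expNegInvGlue (1 - s)

/-- the normalising constant -/
noncomputable def nrm (n : ℕ) : ℝ := ∫ η : V n, chi0 (‖η‖ ^ 2)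

/-- the kernel `ρ(η) = χ(|η|²)`, a radial smooth probability density supported in the unit ball -/
noncomputable def rho (η : V n) : ℝ := chi0 (‖η‖ ^ 2) / nrm n

/-- the kernel `ρ₁(η) = χ₁(|η|²)`, `χ₁(s) = ∫_s^∞ χ`; `η_l ρ = - ∂ρ₁/∂η̄_l` -/
noncomputable def rho1 (η : V n) : ℝ := (∫ s in (‖η‖ ^ 2)..1, chi0 s) / nrm n

/-- `a = ∫ ρ₁ > 0` -/
noncomputable def aa (n : ℕ) : ℝ := ∫ η : V n, rho1 η

/-! ### Means -/

/-- `M T u z = ∫ u(z + T η) ρ(η) dη`. -/
noncomputable def M (T : Lin n) (u : V n → ℝ) (z : V n) : ℝ := ∫ η : V n, rho η * u (z + T η)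

/-- `M1 T u z = ∫ u(z + T η) ρ₁(η) dη`. -/
noncomputable def M1 (T : Lin n) (u : V n → ℝ) (z : V n) : ℝ := ∫ η : V n, rho1 η * u (z + T η)

/-- `MH T H z = ∫ H(z + T η) ρ(η) dη` for matrix valued functions. -/
noncomputable def MH (T : Lin n) (H : V n → Mat n) (z : V n) : Mat n := fun j k =>
  ∫ η : V n, (rho η : ℂ) * H (z + T η) j k

/-- the homothety `t` -/
noncomputable def sc (t : ℝ) : Lin n := (t : ℂ) • (1 : Lin n)

/-- `Φ_u(z,t) = ∫ u(z + t η) ρ(η) dη`. -/
noncomputable def Phi (u : V n → ℝ) (z : V n) (t : ℝ) : ℝ := M (sc t) u z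

/-- the points at distance `≥ r` from the complement -/
def shr (Ω : Set (V n)) (r : ℝ) : Set (V n) := {z | Metric.closedBall z r ⊆ Ω}

/-! ### Test functions and the classes -/

/-- nonnegative smooth test functions with compact support in `Ω` -/
structure Tst (Ω : Set (V n)) (η : V n → ℝ) : Prop where
  smooth : ContDiff ℝ (⊤ : ℕ∞) η
  cpt : HasCompactSupport η
  sub : tsupport η ⊆ Ω
  nonneg : ∀ z, 0 ≤ η z

/-- The class `GS(Ω, F)`: `Δ_A u ≥ n |det A|^{2/n} F` in the sense of distributions, for all `A`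
(i.e. `u` is plurisubharmonic and `(det u_{j k̄})^{1/n} ≥ F` in the sense of Gaveau). -/
structure GS (Ω : Set (V n)) (F u : V n → ℝ) : Prop where
  int : LocallyIntegrableOn u Ω volume
  intF : LocallyIntegrableOn F Ω volume
  nonneg : ∀ z ∈ Ω, 0 ≤ F z
  ineq : ∀ (A : Lin n) (η : V n → ℝ), Tst Ω η →
    (n : ℝ) * ‖A.det‖ ^ ((2 : ℝ) / n) * ∫ z, F z * η z ≤ ∫ z, u z * DA A η z

/-- Distributional plurisubharmonic functions. -/
def PSHd (Ω : Set (V n)) (u : V n → ℝ) : Prop := GS Ω (fun _ => 0) u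

/-- `u` has the locally bounded measurable complex Hessian `H ≥ 0` on `Ω` (in the sense of distributions). -/
structure BH (Ω : Set (V n)) (u : V n → ℝ) (H : V n → Mat n) : Prop where
  int : LocallyIntegrableOn u Ω volume
  meas : ∀ j k, Measurable fun z => H z j k
  psd : ∀ z, (H z).PosSemidef
  bdd : ∀ K ⊆ Ω, IsCompact K → ∃ C : ℝ, ∀ z ∈ K, ∀ j k, ‖H z j k‖ ≤ C
  weak : ∀ η : V n → ℝ, Tst Ω η → ∀ j k, ∫ z, (u z : ℂ) * hess η z j k = ∫ z, H z j k * (η z : ℂ)

/-! ### The Kiselev-Legendre transform -/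

/-- penalty (V1): `-c x + c e^x` -/
noncomputable def P1 (c x : ℝ) : ℝ := -c * x + c * Real.exp x

/-- penalty (V2): `-c x + c e^x - c √(1-x)` -/
noncomputable def P2 (c x : ℝ) : ℝ := -c * x + c * Real.exp x - c * Real.sqrt (1 - x)

/-- `G(z, δ e^x) = Φ_u(z, δ e^x) + P(x)`, `x < log 2` -/
noncomputable def GG (u : V n → ℝ) (P : ℝ → ℝ) (δ : ℝ) (z : V n) (x : ℝ) : ℝ :=
  Phi u z (δ * Real.exp x) + P x

/-- the transform `W(z) = inf_{x < log 2} G(z, δ e^x)` (a real infimum, `0` where it is `-∞`) -/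
noncomputable def WW (u : V n → ℝ) (P : ℝ → ℝ) (δ : ℝ) (z : V n) : ℝ :=
  ⨅ x : Iio (Real.log 2), GG u P δ z x

end Pool.Agent.Helper29.AM
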