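import Pool.Agent.Helper29.AM.CV4
import Pool.Agent.Helper29.AM.CV7
import Pool.Agent.Helper29.AM.Core

/-!
# Project AM: the final theorem
-/

set_option autoImplicit false

namespace Pool.Agent.Helper29.AM

open MeasureTheory Set Filter Topology
open scoped Manifold ContDiff ENNReal
open Pool.Agent.Helper13.AM

variable {n : ℕ} {X : Type} [TopologicalSpace X] [ChartedSpace (V n) X]

theorem coe_add_cancel {a b : ℝ} {x : EReal} (h : (a : EReal) + x = ((a + b : ℝ) : EReal)) :
    x = (b : EReal) := by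
  induction x using EReal.rec with
  | bot => rw [EReal.add_bot] at h; exact absurd h.symm (EReal.coe_ne_bot _)
  | coe r =>
    rw [← EReal.coe_add, EReal.coe_eq_coe_iff] at h
    rw [EReal.coe_eq_coe_iff]
    linarith
  | top => rw [EReal.coe_add_top] at h; exact absurd h.symm (EReal.coe_ne_top _)

/-- the case `n > 0`, near one point -/
theorem smooth_near [T2Space X] [CompactSpace X] [IsManifold 𝓘(ℂ, V n) ω X]
    [MeasurableSpace X] [BorelSpace X] (hn : 0 < n) (θ : Form n X) (μ : Measure X)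
    (hμ : SmoothVolume n μ) (hvol : μ univ = θ.vol) (φ : X → EReal) (hφ : θ.Psh φ)
    (hNP : θ.IsNPP φ μ) {x₀ : X} (hx₀ : x₀ ∈ θ.Amp) :
    ∃ (D : Set X) (f : X → ℝ), IsOpen D ∧ x₀ ∈ D ∧ SmoothFn n D f ∧
      ∀ x ∈ D, φ x = (f x : EReal) := by
  obtain ⟨N, A, hAμ, hA⟩ := exists_atl θ hμ
  have hV : A.VolLe := hA.volLe (by rw [hAμ]; exact hvol)
  obtain ⟨c, hSt⟩ := hA.exists_St hn hφ (by rw [hAμ]; exact hNP)
  obtain ⟨ψ, hψ, W, s, hW, hxW, hs, hψs⟩ := hx₀
  obtain ⟨ε, hε, hK⟩ := hA.exists_KCX hψ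
  have hsc := hs.continuousOn hW
  -- the Kähler current is bounded near `x₀`
  obtain ⟨U, hU, hxU, C, hC⟩ : ∃ U : Set X, IsOpen U ∧ x₀ ∈ U ∧ ∃ C : ℝ, ∀ x ∈ U,
      |(ψ x).toReal| ≤ C := by
    have h1 : ContinuousAt s x₀ := hsc.continuousAt (hW.mem_nhds hxW)
    have h2 : ∀ᶠ x in 𝓝 x₀, |s x| < |s x₀| + 1 :=
      h1.abs.eventually (gt_mem_nhds (lt_add_one _))
    obtain ⟨U, hU1, hU2, hU3⟩ := eventually_nhds_iff.1 (h2.and (hW.mem_nhds hxW))
    refine ⟨U, hU2, hU3, |s x₀| + 1, fun x hx => ?_⟩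
    obtain ⟨h3, h4⟩ := hU1 x hx
    rw [hψs x h4, EReal.toReal_coe]
    exact h3.le
  obtain ⟨D, φ', hD, hxD, hsm, hae⟩ := A.core hn hV hε hK hU hxU
    (Eventually.of_forall hC) hSt
  refine ⟨D, fun x => φ' x + c, hD, hxD, ?_, ?_⟩
  · refine hA.smoothFn hD fun i => ?_
    exact (hsm i).add contDiffOn_const
  · intro x hx
    obtain ⟨k, hk, -⟩ := A.cover x
    have hop : IsOpen (img (A.e k) D) := isOpen_img (A.e k) hD
    have hcont : ContinuousOn (fun z => A.g k z + (φ' ((A.e k).symm z) + c)) (img (A.e k) D) :=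
      (((A.g_smooth k).continuousOn).mono inter_subset_left).add
        ((hsm k).continuousOn.add continuousOn_const)
    have hpsh := (hA.psh hφ k).mono (inter_subset_left : img (A.e k) D ⊆ (A.e k).target)
    have hae' := A.ae_target hae k
    have hbot := hpsh.ae_bot
    have key := psh_eq_of_continuousOn hop hpsh hcont (by
      filter_upwards [hae', hbot] with z h1 h2 hz
      have h3 := h1 hz.1
      have h4 := h2 hz
      have h5 := hpsh.lt_top z hz
      have h6 : φ ((A.e k).symm z) ≠ ⊥ := by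
        intro h
        apply h4
        rw [h]
        exact EReal.add_bot _
      have h7 : φ ((A.e k).symm z) ≠ ⊤ := by
        intro h
        rw [h, EReal.coe_add_top] at h5
        exact lt_irrefl _ h5
      rw [EReal.toReal_add (EReal.coe_ne_top _) (EReal.coe_ne_bot _) h7 h6, EReal.toReal_coe]
      linarith)
    have hz : A.e k x ∈ img (A.e k) D :=
      ⟨(A.e k).map_source hk, by
        show (A.e k).symm (A.e k x) ∈ D
        rw [(A.e k).left_inv hk]; exact hx⟩
    have h8 := key _ hz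
    rw [(A.e k).left_inv hk] at h8
    exact coe_add_cancel h8

/-- the case `n = 0` -/
theorem real_of_zero [MeasurableSpace X] (hn : n = 0) (θ : Form n X) {φ : X → EReal}
    (hφ : θ.Psh φ) (x : X) : φ x = ((φ x).toReal : EReal) := by
  subst hn
  obtain ⟨i, hi⟩ := θ.cover x
  have he := chart_mem_atlas (V 0) x
  have h := hφ i _ he
  have hz : chartAt (V 0) x x ∈ img (chartAt (V 0) x) (θ.U i) :=
    ⟨(chartAt (V 0) x).map_source (mem_chart_source _ x), by
      show (chartAt (V 0) x).symm (chartAt (V 0) x x) ∈ θ.U i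
      rw [(chartAt (V 0) x).left_inv (mem_chart_source _ x)]; exact hi⟩
  have h1 := h.lt_top _ hz
  have h2 : ∃ z : V 0, z ∈ img (chartAt (V 0) x) (θ.U i) →
      (θ.g i ((chartAt (V 0) x).symm z) : EReal) + φ ((chartAt (V 0) x).symm z) ≠ ⊥ :=
    h.ae_bot.exists
  obtain ⟨z, h2⟩ := h2
  rw [Subsingleton.elim z (chartAt (V 0) x x)] at h2
  have h3 := h2 hz
  rw [(chartAt (V 0) x).left_inv (mem_chart_source _ x)] at h1 h3
  symm
  apply EReal.coe_toReal
  · intro h4
    rw [h4, EReal.coe_add_top] at h1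
    exact lt_irrefl _ h1
  · intro h4
    rw [h4] at h3
    exact h3 (EReal.add_bot _)

/-- the final theorem: the potential of `T` is smooth on the ample locus -/
theorem smooth_on_ample [T2Space X] [CompactSpace X] [IsManifold 𝓘(ℂ, V n) ω X]
    [MeasurableSpace X] [BorelSpace X] (θ : Form n X) (μ : Measure X) (hμ : SmoothVolume n μ)
    (hvol : μ univ = θ.vol) (φ : X → EReal) (hφ : θ.Psh φ) (hNP : θ.IsNPP φ μ) :
    ∃ f : X → ℝ, SmoothFn n θ.Amp f ∧ ∀ x ∈ θ.Amp, φ x = (f x : EReal) := by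
  refine ⟨fun x => (φ x).toReal, ?_, ?_⟩
  · rcases Nat.eq_zero_or_pos n with hn | hn
    · subst hn
      intro e he
      have h0 : (fun z : V 0 => (φ (e.symm z)).toReal) =
          fun _ => (φ (e.symm 0)).toReal := by
        funext z
        rw [Subsingleton.elim z 0]
      show ContDiffOn ℝ _ (fun z : V 0 => (φ (e.symm z)).toReal) _
      rw [h0]
      exact contDiffOn_const
    · refine SmoothFn.of_local fun x hx => ?_
      obtain ⟨D, f, hD, hxD, hf, hφf⟩ := smooth_near hn θ μ hμ hvol φ hφ hNP hx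
      refine ⟨D, hD, hxD, fun e he => (hf e he).congr fun z hz => ?_⟩
      show (φ (e.symm z)).toReal = f (e.symm z)
      rw [hφf _ hz.2, EReal.toReal_coe]
  · intro x hx
    rcases Nat.eq_zero_or_pos n with hn | hn
    · exact real_of_zero hn θ hφ x
    · obtain ⟨D, f, hD, hxD, hf, hφf⟩ := smooth_near hn θ μ hμ hvol φ hφ hNP hx
      show φ x = ((φ x).toReal : EReal)
      rw [hφf _ hxD, EReal.toReal_coe]

end Pool.Agent.Helper29.AM
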