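import Pool.Agent.Helper29.AM.GS2

/-!
# Block AM-G3: maxima (2.5) and convex increasing functions

Smooth case: `m_s(x) = s m(x/s)` with `m` smooth convex, `m = 0` on `(-∞,0]`, `m' ∈ [0,1]`, `m(x) ≥ x - 1`
(e.g. integrate `Real.smoothTransition` twice): `0 ≤ m_s(x) ≤ x_+`, `m_s → x_+`, `m_s'(x) → 1_{x>0}`.
`w = v + m_s(u-v)`: `L_w = (1-m')L_v + m' L_u + m'' |∂(u-v)|² ≥ ...`, so `GP(L_w, (1-m')G + m'F)`.
Let `s → 0` (`GS.limit`). General case: mollify `u, v` (`GS.mollify`), the indicator functions converge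
a.e. on `{u ≠ v}`; on `{u = v}` every convex combination of `F,G` is `≥ min F G`.
-/

set_option autoImplicit false

namespace Pool.Agent.Helper29.AM

open MeasureTheory Set Filter Topology
open scoped ComplexOrder

variable {n : ℕ} {Ω : Set (V n)} {F G K u v : V n → ℝ}

/-- the regularised positive part -/
private noncomputable def gg (s x : ℝ) : ℝ := (x + Real.sqrt (x ^ 2 + s ^ 2)) / 2

private theorem gg_pos {s : ℝ} (hs : 0 < s) (x : ℝ) : 0 < x ^ 2 + s ^ 2 := by positivity

private theorem gg_contDiff {s : ℝ} (hs : 0 < s) {k : WithTop ℕ∞} : ContDiff ℝ k (gg s) := by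
  unfold gg
  refine ContDiff.div_const (contDiff_id.add ?_) 2
  refine ContDiff.sqrt ((contDiff_id.pow 2).add contDiff_const) fun x => (gg_pos hs x).ne'

private theorem gg_hasDerivAt {s : ℝ} (hs : 0 < s) (x : ℝ) :
    HasDerivAt (gg s) ((1 + x / Real.sqrt (x ^ 2 + s ^ 2)) / 2) x := by
  have h1 : HasDerivAt (fun x : ℝ => x ^ 2 + s ^ 2) (2 * x) x := by
    have := (hasDerivAt_pow 2 x).add_const (s ^ 2)
    simpa using this
  have h2 := h1.sqrt (gg_pos hs x).ne'
  have h3 := ((hasDerivAt_id x).add h2).div_const 2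
  have e : (1 + 2 * x / (2 * Real.sqrt (x ^ 2 + s ^ 2))) / 2 = (1 + x / Real.sqrt (x ^ 2 + s ^ 2)) / 2 := by
    rw [mul_div_mul_left _ _ (two_ne_zero)]
  rw [e] at h3
  exact h3

private theorem gg_deriv {s : ℝ} (hs : 0 < s) :
    deriv (gg s) = fun x => (1 + x / Real.sqrt (x ^ 2 + s ^ 2)) / 2 :=
  funext fun x => (gg_hasDerivAt hs x).deriv

private theorem gg_deriv2_nonneg {s : ℝ} (hs : 0 < s) (x : ℝ) : 0 ≤ deriv (deriv (gg s)) x := by
  rw [gg_deriv hs]
  have hp := gg_pos hs x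
  have h1 : HasDerivAt (fun x : ℝ => x ^ 2 + s ^ 2) (2 * x) x := by
    have := (hasDerivAt_pow 2 x).add_const (s ^ 2)
    simpa using this
  have h2 := h1.sqrt hp.ne'
  have hq : 0 < Real.sqrt (x ^ 2 + s ^ 2) := Real.sqrt_pos.2 hp
  have h3 := (((hasDerivAt_id x).div h2 hq.ne').const_add 1).div_const 2
  have h4 : deriv (fun x : ℝ => (1 + x / Real.sqrt (x ^ 2 + s ^ 2)) / 2) x = _ := h3.deriv
  rw [h4]
  have hsq : Real.sqrt (x ^ 2 + s ^ 2) ^ 2 = x ^ 2 + s ^ 2 := Real.sq_sqrt hp.le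
  have h5 : 1 * Real.sqrt (x ^ 2 + s ^ 2) - x * (2 * x / (2 * Real.sqrt (x ^ 2 + s ^ 2))) =
      s ^ 2 / Real.sqrt (x ^ 2 + s ^ 2) := by
    field_simp
    linarith
  simp only [id] at *
  rw [h5]
  positivity

private theorem theta_mem {s : ℝ} (hs : 0 < s) (x : ℝ) :
    0 ≤ (1 + x / Real.sqrt (x ^ 2 + s ^ 2)) / 2 ∧ (1 + x / Real.sqrt (x ^ 2 + s ^ 2)) / 2 ≤ 1 := by
  have hp := gg_pos hs x
  have hq : 0 < Real.sqrt (x ^ 2 + s ^ 2) := Real.sqrt_pos.2 hp
  have h1 : |x| ≤ Real.sqrt (x ^ 2 + s ^ 2) := by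
    rw [← Real.sqrt_sq_eq_abs]
    exact Real.sqrt_le_sqrt (by nlinarith [sq_nonneg s])
  have h2 : |x / Real.sqrt (x ^ 2 + s ^ 2)| ≤ 1 := by
    rw [abs_div, abs_of_pos hq, div_le_one hq]
    exact h1
  have h3 := abs_le.1 h2
  constructor <;> linarith

private theorem gg_sub {s : ℝ} (hs : 0 < s) (x : ℝ) : |gg s x - Max.max x 0| ≤ s := by
  have hp := gg_pos hs x
  have h0 : 0 ≤ Real.sqrt (x ^ 2 + s ^ 2) := Real.sqrt_nonneg _
  have h1 : |x| ≤ Real.sqrt (x ^ 2 + s ^ 2) := by
    rw [← Real.sqrt_sq_eq_abs]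
    exact Real.sqrt_le_sqrt (by nlinarith [sq_nonneg s])
  have h2 : Real.sqrt (x ^ 2 + s ^ 2) ≤ |x| + s := by
    rw [← Real.sqrt_sq (by positivity : 0 ≤ |x| + s)]
    refine Real.sqrt_le_sqrt ?_
    rw [add_sq, sq_abs]
    have := abs_nonneg x
    nlinarith
  unfold gg
  rw [abs_le]
  rcases le_total 0 x with h | h
  · rw [max_eq_left h]
    rw [abs_of_nonneg h] at h1 h2
    constructor <;> linarith
  · rw [max_eq_right h]
    rw [abs_of_nonpos h] at h1 h2
    constructor <;> linarith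

/-- smooth case of (2.5) -/
private theorem gs_max_aux (hΩ : IsOpen Ω) {a b f g : V n → ℝ} (ha : ContDiffOn ℝ 2 a Ω) (hb : ContDiffOn ℝ 2 b Ω)
    (hf : ContinuousOn f Ω) (hg : ContinuousOn g Ω) (hf0 : ∀ z ∈ Ω, 0 ≤ f z) (hg0 : ∀ z ∈ Ω, 0 ≤ g z)
    (haf : ∀ z ∈ Ω, GP (lev a z) (f z)) (hbg : ∀ z ∈ Ω, GP (lev b z) (g z)) {s : ℝ} (hs : 0 < s) :
    GS Ω (fun z => (1 - (1 + (a z - b z) / Real.sqrt ((a z - b z) ^ 2 + s ^ 2)) / 2) * g z +
      (1 + (a z - b z) / Real.sqrt ((a z - b z) ^ 2 + s ^ 2)) / 2 * f z) fun z => b z + gg s (a z - b z) := by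
  have hab : ContDiffOn ℝ 2 (fun z => a z - b z) Ω := ha.sub hb
  have hw : ContDiffOn ℝ 2 (fun z => b z + gg s (a z - b z)) Ω :=
    hb.add ((gg_contDiff hs).comp_contDiffOn hab)
  have hθ : ContinuousOn (fun z => (1 + (a z - b z) / Real.sqrt ((a z - b z) ^ 2 + s ^ 2)) / 2) Ω := by
    have h1 := hab.continuousOn
    refine ContinuousOn.div_const (continuousOn_const.add (h1.div ?_ ?_)) 2
    · exact ((h1.pow 2).add continuousOn_const).sqrt
    · exact fun z _ => (Real.sqrt_pos.2 (gg_pos hs _)).ne'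
  refine GS.of_smooth hΩ hw ?_ ?_ (ae_of_all _ fun z hz => ?_)
  · refine ContinuousOn.locallyIntegrableOn ?_ hΩ.measurableSet
    exact ((continuousOn_const.sub hθ).mul hg).add (hθ.mul hf)
  · intro z hz
    obtain ⟨h1, h2⟩ := theta_mem hs (a z - b z)
    have := hf0 z hz
    have := hg0 z hz
    have h3 : 0 ≤ 1 - (1 + (a z - b z) / Real.sqrt ((a z - b z) ^ 2 + s ^ 2)) / 2 := by linarith
    positivity
  · obtain ⟨h1, h2⟩ := theta_mem hs (a z - b z)
    have hza : ContDiffAt ℝ 2 a z := ha.contDiffAt (hΩ.mem_nhds hz)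
    have hzb : ContDiffAt ℝ 2 b z := hb.contDiffAt (hΩ.mem_nhds hz)
    have hzab : ContDiffAt ℝ 2 (fun z => a z - b z) z := hza.sub hzb
    have h3 := ((hbg z hz).smul (c := 1 - (1 + (a z - b z) / Real.sqrt ((a z - b z) ^ 2 + s ^ 2)) / 2) (by linarith)).add
      ((haf z hz).smul (c := (1 + (a z - b z) / Real.sqrt ((a z - b z) ^ 2 + s ^ 2)) / 2) h1)
    refine h3.mono le_rfl fun v => ?_
    have e1 : lev (fun z => b z + gg s (a z - b z)) z v = lev b z v + lev (fun z => gg s (a z - b z)) z v :=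
      lev_add hzb ((gg_contDiff hs).contDiffAt.comp z hzab) v
    have e2 := lev_comp_real (u := fun z => a z - b z) (g := gg s) (z := z) (gg_contDiff hs).contDiffAt hzab v
    have e3 : lev (fun z => a z - b z) z v = lev a z v - lev b z v := by
      have h4 : (fun z => a z - b z) = fun z => a z + (-1) * b z := by funext z; ring
      have h5 : ContDiffAt ℝ 2 (fun z => (-1 : ℝ) * b z) z := contDiffAt_const.mul hzb
      rw [h4, lev_add hza h5, lev_const_mul (-1) hzb]
      ring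
    rw [e1, e2, e3, gg_deriv hs]
    have h6 := gg_deriv2_nonneg hs (a z - b z)
    rw [gg_deriv hs] at h6
    have h7 : 0 ≤ deriv (fun x => (1 + x / Real.sqrt (x ^ 2 + s ^ 2)) / 2) (a z - b z) *
        ((fderiv ℝ (fun z => a z - b z) z v) ^ 2 + (fderiv ℝ (fun z => a z - b z) z (Complex.I • v)) ^ 2) / 4 := by
      positivity
    simp only at *
    linarith

private theorem li_min {U : Set (V n)} {f g : V n → ℝ} (hf : LocallyIntegrableOn f U volume)
    (hg : LocallyIntegrableOn g U volume) : LocallyIntegrableOn (fun z => min (f z) (g z)) U volume := by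
  have h : (fun z => min (f z) (g z)) = fun z => (1 / 2 : ℝ) • ((f z + g z) - ‖f z - g z‖) := by
    funext z
    rw [Real.norm_eq_abs, smul_eq_mul]
    rcases le_total (f z) (g z) with h | h
    · rw [min_eq_left h, abs_of_nonpos (by linarith)]; ring
    · rw [min_eq_right h, abs_of_nonneg (by linarith)]; ring
  rw [h]
  exact ((hf.add hg).sub (hf.sub hg).norm).smul (1 / 2 : ℝ)

private theorem li_max {U : Set (V n)} {f g : V n → ℝ} (hf : LocallyIntegrableOn f U volume)
    (hg : LocallyIntegrableOn g U volume) : LocallyIntegrableOn (fun z => Max.max (f z) (g z)) U volume := by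
  have h : (fun z => Max.max (f z) (g z)) = fun z => (1 / 2 : ℝ) • ((f z + g z) + ‖f z - g z‖) := by
    funext z
    rw [Real.norm_eq_abs, smul_eq_mul]
    rcases le_total (f z) (g z) with h | h
    · rw [max_eq_right h, abs_of_nonpos (by linarith)]; ring
    · rw [max_eq_left h, abs_of_nonneg (by linarith)]; ring
  rw [h]
  exact ((hf.add hg).add (hf.sub hg).norm).smul (1 / 2 : ℝ)

private theorem tendsto_theta {x s : ℕ → ℝ} {d : ℝ} (hd : d ≠ 0) (hx : Tendsto x atTop (𝓝 d))
    (hs : Tendsto s atTop (𝓝 0)) :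
    Tendsto (fun k => (1 + x k / Real.sqrt (x k ^ 2 + s k ^ 2)) / 2) atTop (𝓝 ((1 + d / |d|) / 2)) := by
  have h1 : Tendsto (fun k => Real.sqrt (x k ^ 2 + s k ^ 2)) atTop (𝓝 |d|) := by
    have h2 := ((hx.pow 2).add (hs.pow 2)).sqrt
    have e : Real.sqrt (d ^ 2 + 0 ^ 2) = |d| := by
      rw [zero_pow two_ne_zero, add_zero, Real.sqrt_sq_eq_abs]
    rwa [e] at h2
  exact ((hx.div h1 (abs_ne_zero.2 hd)).const_add 1).div_const 2

theorem GS.max (hΩ : IsOpen Ω) (hu : GS Ω F u) (hv : GS Ω G v)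
    (hK : LocallyIntegrableOn K Ω volume) (h0 : ∀ z ∈ Ω, 0 ≤ K z)
    (h1 : ∀ᵐ z, z ∈ Ω → v z < u z → K z ≤ F z) (h2 : ∀ᵐ z, z ∈ Ω → u z < v z → K z ≤ G z)
    (h3 : ∀ᵐ z, z ∈ Ω → u z = v z → K z ≤ min (F z) (G z)) :
    GS Ω K fun z => Max.max (u z) (v z) := by
  refine GS.of_local hΩ fun z₀ hz₀ => ?_
  obtain ⟨r₀, hr₀, hball⟩ := Metric.isOpen_iff.1 hΩ z₀ hz₀
  obtain ⟨r, hr, hr3⟩ : ∃ r : ℝ, 0 < r ∧ 3 * r = r₀ := ⟨r₀ / 3, by positivity, by ring⟩
  have hUs : ∀ ε, ε ≤ r → Metric.ball z₀ r ⊆ shr Ω ε := by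
    intro ε hε z hz w hw
    apply hball
    rw [Metric.mem_ball] at hz ⊢
    rw [Metric.mem_closedBall] at hw
    have := dist_triangle w z z₀
    linarith
  have hUΩ : Metric.ball z₀ r ⊆ Ω := (Metric.ball_subset_ball (by linarith)).trans hball
  set U : Set (V n) := Metric.ball z₀ r with hU
  have hUo : IsOpen U := Metric.isOpen_ball
  set sk : ℕ → ℝ := fun k => 1 / ((k : ℝ) + 1) with hsk
  have hskpos : ∀ k, 0 < sk k := fun k => by positivity
  have hskle : ∀ k, sk k ≤ 1 := fun k => by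
    rw [hsk]
    simp only
    rw [div_le_one (by positivity)]
    have : (0 : ℝ) ≤ k := Nat.cast_nonneg k
    linarith
  have hsklim : Tendsto sk atTop (𝓝 0) := tendsto_one_div_add_atTop_nhds_zero_nat
  set εk : ℕ → ℝ := fun k => r * sk k with hεk
  have hεpos : ∀ k, 0 < εk k := fun k => mul_pos hr (hskpos k)
  have hεr : ∀ k, εk k ≤ r := fun k => by
    have := mul_le_mul_of_nonneg_left (hskle k) hr.le
    simpa [hεk] using this
  have hεlim : Tendsto εk atTop (𝓝[>] 0) := by
    refine tendsto_nhdsWithin_iff.2 ⟨?_, Eventually.of_forall hεpos⟩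
    have := hsklim.const_mul r
    rwa [mul_zero] at this
  set a : ℕ → V n → ℝ := fun k z => Phi u z (εk k) with ha
  set b : ℕ → V n → ℝ := fun k z => Phi v z (εk k) with hb
  set f : ℕ → V n → ℝ := fun k z => Phi F z (εk k) with hf
  set g : ℕ → V n → ℝ := fun k z => Phi G z (εk k) with hg
  set θ : ℕ → V n → ℝ := fun k z => (1 + (a k z - b k z) / Real.sqrt ((a k z - b k z) ^ 2 + sk k ^ 2)) / 2 with hθ
  have h2top : (2 : WithTop ℕ∞) ≤ ((⊤ : ℕ∞) : WithTop ℕ∞) := WithTop.coe_le_coe.2 (le_top : (2 : ℕ∞) ≤ ⊤)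
  have hcd : ∀ {q : V n → ℝ} (_ : LocallyIntegrableOn q Ω volume) (k : ℕ),
      ContDiffOn ℝ 2 (fun z => Phi q z (εk k)) (shr Ω (εk k)) := fun hq k =>
    (contDiffOn_Phi_left hΩ hq (hεpos k)).of_le h2top
  have hnn : ∀ {q : V n → ℝ} (_ : LocallyIntegrableOn q Ω volume) (_ : ∀ z ∈ Ω, 0 ≤ q z) (k : ℕ),
      ∀ z ∈ shr Ω (εk k), 0 ≤ Phi q z (εk k) := by
    intro q hq hq0 k z hz
    have h := Phi_mono hΩ (u := fun _ => (0 : ℝ)) (v := q) locallyIntegrableOn_zero hq
      (ae_of_all _ fun y hy => hq0 y hy) (hεpos k) hz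
    rwa [Phi_const] at h
  have hGS : ∀ k, GS (shr Ω (εk k)) (fun z => (1 - θ k z) * g k z + θ k z * f k z)
      fun z => b k z + gg (sk k) (a k z - b k z) := fun k =>
    gs_max_aux (isOpen_shr hΩ _) (hcd hu.int k) (hcd hv.int k) (hcd hu.intF k).continuousOn
      (hcd hv.intF k).continuousOn (hnn hu.intF hu.nonneg k) (hnn hv.intF hv.nonneg k)
      (fun z hz => hu.mollify hΩ (hεpos k) hz) (fun z hz => hv.mollify hΩ (hεpos k) hz) (hskpos k)
  have hKU : LocallyIntegrableOn K U volume := hK.mono_set hUΩ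
  refine ⟨U, hUo, Metric.mem_ball_self hr, hUΩ, ?_⟩
  refine GS.limit hUo (uk := fun k z => b k z + gg (sk k) (a k z - b k z))
    (Fk := fun k z => min ((1 - θ k z) * g k z + θ k z * f k z) (K z)) (fun k => ?_)
    (li_max (hu.int.mono_set hUΩ) (hv.int.mono_set hUΩ)) hKU (fun z hz => h0 z (hUΩ hz)) (fun K' hK'U hK' => ?_) ?_
  · have h := (hGS k).mono_set hUo (hUs _ (hεr k))
    exact h.mono (li_min h.intF hKU) (fun z hz => le_min (h.nonneg z hz) (h0 z (hUΩ hz)))
      (ae_of_all _ fun z _ => min_le_left _ _)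
  · have hK'Ω : K' ⊆ Ω := hK'U.trans hUΩ
    have hLu := (tendsto_Phi_L1 hΩ hu.int hK' hK'Ω).comp hεlim
    have hLv := (tendsto_Phi_L1 hΩ hv.int hK' hK'Ω).comp hεlim
    have hi : ∀ {q : V n → ℝ} (_ : LocallyIntegrableOn q Ω volume) (k : ℕ),
        IntegrableOn (fun z => |Phi q z (εk k) - q z|) K' volume := by
      intro q hq k
      have h1 : IntegrableOn (fun z => Phi q z (εk k)) K' volume :=
        ((hcd hq k).continuousOn.mono (hK'U.trans (hUs _ (hεr k)))).integrableOn_compact hK'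
      exact (h1.sub (hq.integrableOn_compact_subset hK'Ω hK')).abs
    have hbound : ∀ k z, |b k z + gg (sk k) (a k z - b k z) - Max.max (u z) (v z)| ≤
        (2 * |b k z - v z| + |a k z - u z|) + sk k := by
      intro k z
      have e1 : Max.max (u z) (v z) = v z + Max.max (u z - v z) 0 := by
        rw [← max_add_add_left]; simp
      have e2 : b k z + gg (sk k) (a k z - b k z) - Max.max (u z) (v z) = (b k z - v z) +
          ((gg (sk k) (a k z - b k z) - Max.max (a k z - b k z) 0) +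
            (Max.max (a k z - b k z) 0 - Max.max (u z - v z) 0)) := by rw [e1]; ring
      have e3 := abs_max_sub_max_le_abs (a k z - b k z) (u z - v z) 0
      have e4 : |a k z - b k z - (u z - v z)| ≤ |a k z - u z| + |b k z - v z| := by
        have : a k z - b k z - (u z - v z) = (a k z - u z) - (b k z - v z) := by ring
        rw [this]
        exact abs_sub _ _
      have e5 := gg_sub (hskpos k) (a k z - b k z)
      rw [e2]
      have e6 := abs_add_le (b k z - v z) ((gg (sk k) (a k z - b k z) - Max.max (a k z - b k z) 0) +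
            (Max.max (a k z - b k z) 0 - Max.max (u z - v z) 0))
      have e7 := abs_add_le (gg (sk k) (a k z - b k z) - Max.max (a k z - b k z) 0)
            (Max.max (a k z - b k z) 0 - Max.max (u z - v z) 0)
      linarith
    have hconst : ∀ k, IntegrableOn (fun _ : V n => sk k) K' volume := fun k =>
      integrableOn_const hK'.measure_lt_top.ne
    have hupper : ∀ k, ∫ z in K', |b k z + gg (sk k) (a k z - b k z) - Max.max (u z) (v z)| ≤
        (2 * ∫ z in K', |b k z - v z|) + (∫ z in K', |a k z - u z|) + sk k * volume.real K' := by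
      intro k
      have h4 := hi hv.int k
      have h5 := hi hu.int k
      refine (integral_mono_of_nonneg (ae_of_all _ fun z => abs_nonneg _)
        (((h4.const_mul 2).add h5).add (hconst k)) (ae_of_all _ fun z => hbound k z)).trans (le_of_eq ?_)
      have h6 : ∫ z in K', ((2 * |b k z - v z| + |a k z - u z|) + sk k) =
          (∫ z in K', (2 * |b k z - v z| + |a k z - u z|)) + ∫ z in K', sk k :=
        integral_add ((h4.const_mul 2).add h5) (hconst k)
      have h7 : ∫ z in K', (2 * |b k z - v z| + |a k z - u z|) = (∫ z in K', 2 * |b k z - v z|) + ∫ z in K', |a k z - u z| :=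
        integral_add (h4.const_mul 2) h5
      show ∫ z in K', ((2 * |b k z - v z| + |a k z - u z|) + sk k) = _
      rw [h6, h7, integral_const_mul, setIntegral_const, smul_eq_mul, mul_comm (volume.real K')]
    have hlim : Tendsto (fun k => (2 * ∫ z in K', |b k z - v z|) + (∫ z in K', |a k z - u z|) + sk k * volume.real K')
        atTop (𝓝 0) := by
      have h8 := ((hLv.const_mul 2).add hLu).add (hsklim.mul_const (volume.real K'))
      simp only [mul_zero, zero_mul, add_zero] at h8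
      exact h8
    exact squeeze_zero (fun k => integral_nonneg fun z => abs_nonneg _) hupper hlim
  · filter_upwards [ae_tendsto_Phi hΩ hu.int, ae_tendsto_Phi hΩ hv.int, ae_tendsto_Phi hΩ hu.intF,
      ae_tendsto_Phi hΩ hv.intF, h1, h2, h3] with z a1 a2 a3 a4 b1 b2 b3 hz
    have hzΩ := hUΩ hz
    have ta : Tendsto (fun k => a k z) atTop (𝓝 (u z)) := (a1 hzΩ).comp hεlim
    have tb : Tendsto (fun k => b k z) atTop (𝓝 (v z)) := (a2 hzΩ).comp hεlim
    have tf : Tendsto (fun k => f k z) atTop (𝓝 (F z)) := (a3 hzΩ).comp hεlim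
    have tg : Tendsto (fun k => g k z) atTop (𝓝 (G z)) := (a4 hzΩ).comp hεlim
    refine ⟨K z, le_rfl, ?_⟩
    rcases lt_trichotomy (u z) (v z) with h | h | h
    · have hd : u z - v z < 0 := by linarith
      have t1 : Tendsto (fun k => θ k z) atTop (𝓝 0) := by
        have := tendsto_theta hd.ne (ta.sub tb) hsklim
        rwa [abs_of_neg hd, div_neg, div_self hd.ne, add_neg_cancel, zero_div] at this
      have t2 : Tendsto (fun k => (1 - θ k z) * g k z + θ k z * f k z) atTop (𝓝 ((1 - 0) * G z + 0 * F z)) :=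
        ((t1.const_sub 1).mul tg).add (t1.mul tf)
      have t3 := t2.min (tendsto_const_nhds (x := K z))
      have e : min ((1 - 0) * G z + 0 * F z) (K z) = K z := by
        rw [sub_zero, one_mul, zero_mul, add_zero]
        exact min_eq_right (b2 hzΩ h)
      rwa [e] at t3
    · have t4 := (tf.min tg).min (tendsto_const_nhds (x := K z))
      rw [min_eq_right (b3 hzΩ h)] at t4
      refine tendsto_of_tendsto_of_tendsto_of_le_of_le t4 tendsto_const_nhds (fun k => ?_) fun k => min_le_right _ _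
      refine min_le_min ?_ le_rfl
      obtain ⟨c1, c2⟩ := theta_mem (hskpos k) (a k z - b k z)
      have c3 : 0 ≤ θ k z := c1
      have c4 : θ k z ≤ 1 := c2
      have c5 := min_le_left (f k z) (g k z)
      have c6 := min_le_right (f k z) (g k z)
      nlinarith
    · have hd : 0 < u z - v z := by linarith
      have t1 : Tendsto (fun k => θ k z) atTop (𝓝 1) := by
        have := tendsto_theta hd.ne' (ta.sub tb) hsklim
        rwa [abs_of_pos hd, div_self hd.ne', one_add_one_eq_two, div_self two_ne_zero] at this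
      have t2 : Tendsto (fun k => (1 - θ k z) * g k z + θ k z * f k z) atTop (𝓝 ((1 - 1) * G z + 1 * F z)) :=
        ((t1.const_sub 1).mul tg).add (t1.mul tf)
      have t3 := t2.min (tendsto_const_nhds (x := K z))
      have e : min ((1 - 1) * G z + 1 * F z) (K z) = K z := by
        rw [sub_self, zero_mul, one_mul, zero_add]
        exact min_eq_right (b1 hzΩ h)
      rwa [e] at t3

theorem PSHd.max (hΩ : IsOpen Ω) (hu : PSHd Ω u) (hv : PSHd Ω v) :
    PSHd Ω fun z => Max.max (u z) (v z) := by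
  refine GS.max hΩ hu hv hu.intF (fun _ _ => le_rfl) ?_ ?_ ?_
  · exact ae_of_all _ fun _ _ _ => le_rfl
  · exact ae_of_all _ fun _ _ _ => le_rfl
  · exact ae_of_all _ fun _ _ _ => by simp

/-- maximum with a constant barrier (truncation) -/
theorem PSHd.max_const (hΩ : IsOpen Ω) (hu : PSHd Ω u) (c : ℝ) :
    PSHd Ω fun z => Max.max (u z) c := by
  refine PSHd.max hΩ hu (GS.of_smooth hΩ contDiffOn_const hu.intF (fun _ _ => le_rfl) (ae_of_all _ fun z _ A => ?_))
  simp [lev_const]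

end Pool.Agent.Helper29.AM
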