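import Pool.Agent.Helper29.AM.GA2
import Pool.Agent.Helper29.AM.GS3
import Pool.Agent.Helper32.Hol

/-!
# Block AM-GA3: gluing (5.1)

`s i` functions on `B_i(2)` with `|s_i - s_j| ≤ κ` a.e. on the overlaps,
`G(x) = max {s_i(x) - κ|z_i|² : x ∈ B_i(2)}`. Fix `x`, `I = {i : x ∈ B_i(2)}` (nonempty). For `y` near `x`:
`y ∈ B_i(2)` for all `i ∈ I`; if `y ∈ B_i(2)` with `i ∉ I` then (for `y` near `x`) `|z_i(y)|² ≥ 3`
(otherwise `x` is in the closure of `B_i(√3)`, which is `⊆ C_i(√3) ⊆ B_i(2)`, compact sets are closed in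
the Hausdorff space `X`), and for the `j ∈ I` with `x ∈ B_j(1)`: `s_j - κ|z_j|² ≥ s_i - κ - κ ≥ s_i - κ|z_i|²`.
So a.e. near `x`, `G = max_{i ∈ I} (s_i - κ|z_i|²)` (`ae_gl_eq`).
`St_of_glue`: near `x` use the chart `j`, transfer each `a (s_i - κ|z_i|²) + ψ`, `i ∈ I`, to the chart
`j` (`GS_transfer`), and take the maximum of finitely many functions (`GS.max`: where two of the functions
agree the lower bounds `(e^{τ v} f)^{1/n}` agree as well).
-/

set_option autoImplicit false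

namespace Pool.Agent.Helper29.AM

open MeasureTheory Set Filter Topology
open scoped ComplexOrder

namespace Atl

variable {X : Type} [TopologicalSpace X] [MeasurableSpace X] {n N : ℕ} (A : Atl X n N)

/-- glued maximum -/
noncomputable def glue (s : Fin N → X → ℝ) (κ : ℝ) (x : X) : ℝ :=
  ⨆ i : {i : Fin N // x ∈ A.Bi i 2}, (s i x - κ * ‖A.e i x‖ ^ 2)

theorem gl_eq_glue (v : X → ℝ) (P : ℝ → ℝ) (δ κ : ℝ) :
    A.gl v P δ κ = A.glue (fun i => A.tr v P δ i) κ := by
  rfl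

theorem le_glue (s : Fin N → X → ℝ) (κ : ℝ) {x : X} {i : Fin N} (hi : x ∈ A.Bi i 2) :
    s i x - κ * ‖A.e i x‖ ^ 2 ≤ A.glue s κ x := by
  unfold glue
  exact le_ciSup (f := fun i : {i : Fin N // x ∈ A.Bi i 2} => s i x - κ * ‖A.e i x‖ ^ 2)
    (Set.finite_range _).bddAbove ⟨i, hi⟩

private theorem Bi_mono_ga3 {i : Fin N} {r r' : ℝ} (h : r ≤ r') : A.Bi i r ⊆ A.Bi i r' :=
  fun _ hx => ⟨hx.1, hx.2.trans_le h⟩

theorem exists_eq_glue (s : Fin N → X → ℝ) (κ : ℝ) (x : X) :
    ∃ i, x ∈ A.Bi i 2 ∧ A.glue s κ x = s i x - κ * ‖A.e i x‖ ^ 2 := by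
  obtain ⟨j, hj1, hj2⟩ := A.cover x
  haveI : Nonempty {i : Fin N // x ∈ A.Bi i 2} := ⟨⟨j, hj1, by linarith⟩⟩
  obtain ⟨i, hi⟩ := exists_eq_ciSup_of_finite
    (f := fun i : {i : Fin N // x ∈ A.Bi i 2} => s i x - κ * ‖A.e i x‖ ^ 2)
  exact ⟨i, i.2, hi.symm⟩

variable [CompactSpace X] [T2Space X]

/-- near `x` only the indices `i` with `x ∈ B_i(2)` matter -/
theorem eventually_glue (x : X) : ∃ O : Set X, IsOpen O ∧ x ∈ O ∧
    (∀ i, x ∈ A.Bi i 2 → O ⊆ A.Bi i 2) ∧
    ∀ (s : Fin N → X → ℝ) (κ : ℝ), 0 ≤ κ → ∀ y ∈ O,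
      (∀ i j, y ∈ A.Bi i 2 → y ∈ A.Bi j 2 → |s i y - s j y| ≤ κ) →
      ∃ i, x ∈ A.Bi i 2 ∧ A.glue s κ y = s i y - κ * ‖A.e i y‖ ^ 2 := by
  classical
  obtain ⟨j, hj1, hj2⟩ := A.cover x
  have hxj : x ∈ A.Bi j 1 := ⟨hj1, hj2⟩
  set S : Fin N → Set X := fun i => if x ∈ A.Bi i 2 then A.Bi i 2 else (A.Ci i (3 / 2))ᶜ with hS
  have hSo : ∀ i, IsOpen (S i) := by
    intro i
    simp only [hS]
    split_ifs
    · exact A.isOpen_Bi i 2
    · exact (A.isCompact_Ci i (by norm_num)).isClosed.isOpen_compl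
  have hxS : ∀ i, x ∈ S i := by
    intro i
    simp only [hS]
    split_ifs with h
    · exact h
    · intro h'
      exact h ⟨h'.1, h'.2.trans_lt (by norm_num)⟩
  refine ⟨(⋂ i, S i) ∩ A.Bi j 1, (isOpen_iInter_of_finite hSo).inter (A.isOpen_Bi j 1),
    ⟨mem_iInter.2 hxS, hxj⟩, ?_, ?_⟩
  · intro i hi y hy
    have h1 := mem_iInter.1 hy.1 i
    simp only [hS, if_pos hi] at h1
    exact h1
  · intro s κ hκ y hy hyb
    obtain ⟨i, hi, he⟩ := A.exists_eq_glue s κ y
    by_cases hxi : x ∈ A.Bi i 2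
    · exact ⟨i, hxi, he⟩
    · have h1 := mem_iInter.1 hy.1 i
      simp only [hS, if_neg hxi] at h1
      have h2 : 3 / 2 < ‖A.e i y‖ := by
        by_contra hle
        exact h1 ⟨hi.1, not_lt.1 hle⟩
      have h3 : (2 : ℝ) ≤ ‖A.e i y‖ ^ 2 := by nlinarith
      have hyj : y ∈ A.Bi j 2 := A.Bi_mono_ga3 (by norm_num) hy.2
      have h4 : ‖A.e j y‖ ^ 2 ≤ 1 := by
        have := hy.2.2
        have h0 := norm_nonneg (A.e j y)
        nlinarith
      have h5 := (abs_le.1 (hyb i j hi hyj)).2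
      have h6 := A.le_glue s κ hyj
      refine ⟨j, A.Bi_mono_ga3 (by norm_num) hxj, le_antisymm ?_ h6⟩
      rw [he]
      have h7 := mul_le_mul_of_nonneg_left h3 hκ
      have h8 := mul_le_mul_of_nonneg_left h4 hκ
      linarith

omit [CompactSpace X] [T2Space X] in
private theorem pot_max_ga3 (j : Fin N) (v w : X → ℝ) (z : V n) :
    A.pot j (fun x => max (v x) (w x)) z = max (A.pot j v z) (A.pot j w z) := by
  unfold pot lc
  rw [max_add_add_left]

private theorem li_min_ga3 {U : Set (V n)} {f g : V n → ℝ} (hf : LocallyIntegrableOn f U volume)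
    (hg : LocallyIntegrableOn g U volume) :
    LocallyIntegrableOn (fun z => min (f z) (g z)) U volume := by
  have h : (fun z => min (f z) (g z)) =
      fun z => (1 / 2 : ℝ) • ((f z + g z) - ‖f z - g z‖) := by
    funext z
    rw [Real.norm_eq_abs, smul_eq_mul]
    rcases le_total (f z) (g z) with h | h
    · rw [min_eq_left h, abs_of_nonpos (by linarith)]; ring
    · rw [min_eq_right h, abs_of_nonneg (by linarith)]; ring
  rw [h]
  exact ((hf.add hg).sub (hf.sub hg).norm).smul (1 / 2 : ℝ)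

private theorem li_max_ga3 {U : Set (V n)} {f g : V n → ℝ} (hf : LocallyIntegrableOn f U volume)
    (hg : LocallyIntegrableOn g U volume) :
    LocallyIntegrableOn (fun z => max (f z) (g z)) U volume := by
  have h : (fun z => max (f z) (g z)) =
      fun z => (1 / 2 : ℝ) • ((f z + g z) + ‖f z - g z‖) := by
    funext z
    rw [Real.norm_eq_abs, smul_eq_mul]
    rcases le_total (f z) (g z) with h | h
    · rw [max_eq_right h, abs_of_nonpos (by linarith)]; ring
    · rw [max_eq_left h, abs_of_nonneg (by linarith)]; ring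
  rw [h]
  exact ((hf.add hg).add (hf.sub hg).norm).smul (1 / 2 : ℝ)

omit [CompactSpace X] [T2Space X] in
private theorem Ft_nonneg_ga3 (τ : ℝ) (j : Fin N) (v : X → ℝ) {z : V n}
    (hz : z ∈ (A.e j).target) : 0 ≤ A.Ft τ j v z := by
  unfold Ft
  exact Real.rpow_nonneg (mul_nonneg (Real.exp_pos _).le (A.f_pos j z hz).le) _

omit [CompactSpace X] [T2Space X] in
private theorem Ft_max_ga3 {τ : ℝ} (j : Fin N) (v w : X → ℝ) {W : Set (V n)} (hW : IsOpen W)
    (hWt : W ⊆ (A.e j).target) (hv : LocallyIntegrableOn (A.Ft τ j v) W volume)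
    (hw : LocallyIntegrableOn (A.Ft τ j w) W volume) :
    LocallyIntegrableOn (A.Ft τ j fun x => max (v x) (w x)) W volume := by
  have hmono : ∀ z ∈ W, ∀ s t : ℝ, τ * s ≤ τ * t →
      (Real.exp (τ * s) * A.f j z) ^ ((1 : ℝ) / n) ≤
        (Real.exp (τ * t) * A.f j z) ^ ((1 : ℝ) / n) := by
    intro z hz s t hst
    have hf := (A.f_pos j z (hWt hz)).le
    exact Real.rpow_le_rpow (mul_nonneg (Real.exp_pos _).le hf)
      (mul_le_mul_of_nonneg_right (Real.exp_le_exp.2 hst) hf) (by positivity)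
  rcases le_total 0 τ with hτ | hτ
  · refine (li_max_ga3 hv hw).congr ?_
    refine (ae_restrict_iff' hW.measurableSet).2 (Eventually.of_forall fun z hz => ?_)
    unfold Ft lc
    rcases le_total (v ((A.e j).symm z)) (w ((A.e j).symm z)) with h | h
    · simp only [max_eq_right h]
      exact max_eq_right (hmono z hz _ _ (mul_le_mul_of_nonneg_left h hτ))
    · simp only [max_eq_left h]
      exact max_eq_left (hmono z hz _ _ (mul_le_mul_of_nonneg_left h hτ))
  · refine (li_min_ga3 hv hw).congr ?_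
    refine (ae_restrict_iff' hW.measurableSet).2 (Eventually.of_forall fun z hz => ?_)
    unfold Ft lc
    rcases le_total (v ((A.e j).symm z)) (w ((A.e j).symm z)) with h | h
    · simp only [max_eq_right h]
      exact min_eq_right (hmono z hz _ _ (mul_le_mul_of_nonpos_left h hτ))
    · simp only [max_eq_left h]
      exact min_eq_left (hmono z hz _ _ (mul_le_mul_of_nonpos_left h hτ))

omit [CompactSpace X] [T2Space X] in
private theorem GS_max_ga3 {τ : ℝ} (j : Fin N) (v w : X → ℝ) {W : Set (V n)} (hW : IsOpen W)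
    (hWt : W ⊆ (A.e j).target) (hv : GS W (A.Ft τ j v) (A.pot j v))
    (hw : GS W (A.Ft τ j w) (A.pot j w)) :
    GS W (A.Ft τ j fun x => max (v x) (w x)) (A.pot j fun x => max (v x) (w x)) := by
  have e : (A.pot j fun x => max (v x) (w x)) = fun z => max (A.pot j v z) (A.pot j w z) :=
    funext fun z => A.pot_max_ga3 j v w z
  rw [e]
  refine GS.max hW hv hw (A.Ft_max_ga3 j v w hW hWt hv.intF hw.intF)
    (fun z hz => A.Ft_nonneg_ga3 τ j _ (hWt hz)) ?_ ?_ ?_
  · refine Eventually.of_forall fun z _ h => ?_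
    have h' : w ((A.e j).symm z) < v ((A.e j).symm z) := by
      unfold pot lc at h
      linarith
    unfold Ft lc
    simp only [max_eq_left h'.le]
    exact le_rfl
  · refine Eventually.of_forall fun z _ h => ?_
    have h' : v ((A.e j).symm z) < w ((A.e j).symm z) := by
      unfold pot lc at h
      linarith
    unfold Ft lc
    simp only [max_eq_right h'.le]
    exact le_rfl
  · refine Eventually.of_forall fun z _ h => ?_
    have h' : v ((A.e j).symm z) = w ((A.e j).symm z) := by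
      unfold pot lc at h
      linarith
    unfold Ft lc
    simp only [h', max_self, min_self]
    exact le_rfl

/-- the maximum of a nonempty finite set of functions -/
private theorem fin_max_ga3 {P : (X → ℝ) → Prop}
    (hP : ∀ v w, P v → P w → P fun x => max (v x) (w x)) (v : Fin N → X → ℝ) (J : Finset (Fin N))
    (hJ : J.Nonempty) (h : ∀ i ∈ J, P (v i)) :
    ∃ u, P u ∧ ∀ y, (∀ i ∈ J, v i y ≤ u y) ∧ ∃ i ∈ J, u y = v i y := by
  classical
  revert h
  induction hJ using Finset.Nonempty.cons_induction with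
  | singleton i =>
    intro h
    refine ⟨v i, h i (Finset.mem_singleton_self i), fun y => ⟨fun k hk => ?_, i,
      Finset.mem_singleton_self i, rfl⟩⟩
    rw [Finset.mem_singleton.1 hk]
  | cons i J hi hJ ih =>
    intro h
    obtain ⟨u, hu, huy⟩ := ih fun k hk => h k (Finset.mem_cons_of_mem hk)
    refine ⟨fun x => max (v i x) (u x), hP _ _ (h i (Finset.mem_cons_self i J)) hu, fun y => ?_⟩
    constructor
    · intro k hk
      rcases Finset.mem_cons.1 hk with rfl | hk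
      · exact le_max_left _ _
      · exact ((huy y).1 k hk).trans (le_max_right _ _)
    · rcases le_total (v i y) (u y) with hle | hle
      · obtain ⟨k, hk, hk'⟩ := (huy y).2
        refine ⟨k, Finset.mem_cons_of_mem hk, ?_⟩
        simp only [max_eq_right hle]
        exact hk'
      · exact ⟨i, Finset.mem_cons_self i J, by simp only [max_eq_left hle]⟩

variable [BorelSpace X]

theorem St_of_glue (hn : 0 < n) {τ C κ a : ℝ} (hκ : 0 ≤ κ) (ha : 0 ≤ a) {s : Fin N → X → ℝ}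
    {ψ : X → ℝ}
    (h1 : ∀ᵐ x ∂A.μ, ∀ i j, x ∈ A.Bi i 2 → x ∈ A.Bi j 2 → |s i x - s j x| ≤ κ)
    (h2 : ∀ i, GS (Metric.ball 0 2) (A.Ft τ i fun x => a * (s i x - κ * ‖A.e i x‖ ^ 2) + ψ x)
      (A.pot i fun x => a * (s i x - κ * ‖A.e i x‖ ^ 2) + ψ x))
    (h3 : ∀ i, ∀ᵐ x ∂A.μ, x ∈ A.Bi i 2 → a * (s i x - κ * ‖A.e i x‖ ^ 2) + ψ x ≤ C) :
    A.St τ C fun x => a * A.glue s κ x + ψ x := by
  classical
  refine A.St_of_local hn ?_ ?_
  · have h3' : ∀ᵐ x ∂A.μ, ∀ i, x ∈ A.Bi i 2 →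
        a * (s i x - κ * ‖A.e i x‖ ^ 2) + ψ x ≤ C := by
      rw [ae_all_iff]
      exact h3
    filter_upwards [h3'] with x hx
    obtain ⟨i, hi, he⟩ := A.exists_eq_glue s κ x
    rw [he]
    exact hx i hi
  · intro x
    obtain ⟨j, hj1, hj2⟩ := A.cover x
    obtain ⟨O, hO, hxO, hOB, hOg⟩ := A.eventually_glue x
    set W : Set (V n) := (A.e j).target ∩ (A.e j).symm ⁻¹' O with hWdef
    have hW : IsOpen W := A.isOpen_preimage_symm j hO
    have hWt : W ⊆ (A.e j).target := inter_subset_left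
    have hxW : A.e j x ∈ W := by
      refine ⟨(A.e j).map_source hj1, ?_⟩
      rw [mem_preimage, (A.e j).left_inv hj1]
      exact hxO
    refine ⟨j, W, hW, hWt, hj1, hxW, ?_⟩
    set vv : Fin N → X → ℝ := fun i x => a * (s i x - κ * ‖A.e i x‖ ^ 2) + ψ x with hvv
    set J : Finset (Fin N) := Finset.univ.filter fun i => x ∈ A.Bi i 2 with hJdef
    have hJ : J.Nonempty := ⟨j, by
      rw [hJdef, Finset.mem_filter]
      exact ⟨Finset.mem_univ _, hj1, by linarith⟩⟩
    obtain ⟨u, hu, huy⟩ := fin_max_ga3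
      (P := fun v : X → ℝ => GS W (A.Ft τ j v) (A.pot j v))
      (fun v w hv hw => A.GS_max_ga3 j v w hW hWt hv hw) vv J hJ (by
        intro i hi
        have hxi : x ∈ A.Bi i 2 := (Finset.mem_filter.1 hi).2
        have hb : Metric.ball (0 : V n) 2 ⊆ (A.e i).target := fun z hz => by
          refine A.mem_target_of_norm_le ?_
          rw [mem_ball_zero_iff] at hz
          linarith
        have h4 := A.GS_transfer hn τ (vv i) j i Metric.isOpen_ball hb (h2 i)
        refine h4.mono_set hW ?_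
        intro z hz
        refine ⟨hz.1, ?_⟩
        have h5 := hOB i hxi hz.2
        refine ⟨h5.1, ?_⟩
        rw [mem_preimage, mem_ball_zero_iff]
        exact h5.2)
    have hae : ∀ᵐ z : V n, z ∈ W →
        u ((A.e j).symm z) = a * A.glue s κ ((A.e j).symm z) + ψ ((A.e j).symm z) := by
      filter_upwards [A.ae_target h1 j] with z hz hzW
      have hy := hz hzW.1
      obtain ⟨i, hi, he⟩ := hOg s κ hκ _ hzW.2 hy
      obtain ⟨k, hk, hk'⟩ := (huy ((A.e j).symm z)).2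
      apply le_antisymm
      · rw [hk']
        have hxk : x ∈ A.Bi k 2 := (Finset.mem_filter.1 hk).2
        have h6 := A.le_glue s κ (hOB k hxk hzW.2)
        simp only [hvv]
        have h7 := mul_le_mul_of_nonneg_left h6 ha
        linarith
      · have hiJ : i ∈ J := Finset.mem_filter.2 ⟨Finset.mem_univ _, hi⟩
        have h6 := (huy ((A.e j).symm z)).1 i hiJ
        rw [he]
        exact h6
    have h8 : GS W (A.Ft τ j u) (A.pot j fun x => a * A.glue s κ x + ψ x) := by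
      refine hu.congr hW ?_
      filter_upwards [hae] with z hz hzW
      unfold pot lc
      rw [hz hzW]
    refine h8.congrF hW ?_ fun z hz => A.Ft_nonneg_ga3 τ j _ (hWt hz)
    filter_upwards [hae] with z hz hzW
    unfold Ft lc
    rw [hz hzW]

/-- one local function in another chart -/
private theorem PSHd_one_ga3 {ρ : ℝ} (hρ : ∀ i j, ∀ z : V n, ‖z‖ ≤ 3 →
      (A.e i).symm z ∈ A.Ci j 3 → ∀ w : V n,
      ρ * ‖w‖ ^ 2 ≤ ‖fderiv ℂ (fun y => A.e j ((A.e i).symm y)) z w‖ ^ 2)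
    {ε κ : ℝ} (hε : 0 ≤ ε) (i j : Fin N) (s : X → ℝ) {W : Set (V n)} (hW : IsOpen W)
    (hW3 : W ⊆ Metric.ball 0 3) (hWt : W ⊆ (A.e j).target)
    (hWi : ∀ z ∈ W, (A.e j).symm z ∈ A.Bi i 2)
    (h : PSHd (Metric.ball 0 2) fun z => A.pot i s z - (κ + ε) * ‖z‖ ^ 2) :
    PSHd W fun z => A.pot j (fun x => s x - κ * ‖A.e i x‖ ^ 2) z - ρ * ε * ‖z‖ ^ 2 := by
  have hb : Metric.ball (0 : V n) 2 ⊆ (A.e i).target := fun z hz => by
    refine A.mem_target_of_norm_le ?_
    rw [mem_ball_zero_iff] at hz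
    linarith
  set v' : X → ℝ := fun x => s x - (κ + ε) * ‖A.e i x‖ ^ 2 with hv'
  have h1 : PSHd (Metric.ball 0 2) (A.pot i v') := by
    refine GS.congr h Metric.isOpen_ball (Eventually.of_forall fun z hz => ?_)
    unfold pot lc
    simp only [hv']
    rw [(A.e i).right_inv (hb hz)]
    ring
  have h2 : PSHd W (A.pot j v') := by
    refine GS.mono_set (A.PSHd_transfer v' j i Metric.isOpen_ball hb h1) hW ?_
    intro z hz
    have h5 := hWi z hz
    exact ⟨hWt hz, h5.1, by rw [mem_preimage, mem_ball_zero_iff]; exact h5.2⟩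
  set k : V n → V n := fun z => A.e i ((A.e j).symm z) with hk
  have hsrc : W ⊆ ((A.e j).symm.trans (A.e i)).source := by
    intro z hz
    rw [OpenPartialHomeomorph.trans_source, OpenPartialHomeomorph.symm_source]
    exact ⟨hWt hz, (hWi z hz).1⟩
  have hkh : DifferentiableOn ℂ k W := (A.hol j i).mono hsrc
  have hkR : ContDiffOn ℝ (⊤ : ℕ∞) k W := Pool.Agent.Helper32.contDiffOn_hol_real hW hkh
  have hq : SPsh W fun z => ε * ‖k z‖ ^ 2 + (-(ρ * ε)) * ‖z‖ ^ 2 := by
    refine ⟨?_, ?_⟩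
    · refine ContDiffOn.add (contDiffOn_const.mul ?_)
        (contDiffOn_const.mul (contDiff_norm_sq ℝ).contDiffOn)
      exact ContDiff.comp_contDiffOn (contDiff_norm_sq ℝ) hkR
    · intro z hz w
      have hkz : ContDiffAt ℝ 2 (fun y => ‖k y‖ ^ 2) z :=
        (((contDiff_norm_sq ℝ).comp_contDiffOn hkR).contDiffAt (hW.mem_nhds hz)).of_le
          (WithTop.coe_le_coe.2 (le_top : (2 : ℕ∞) ≤ ⊤))
      have hnz : ContDiffAt ℝ 2 (fun y : V n => ‖y‖ ^ 2) z := (contDiff_norm_sq ℝ).contDiffAt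
      rw [lev_add (contDiffAt_const.mul hkz) (contDiffAt_const.mul hnz), lev_const_mul _ hkz,
        lev_const_mul _ hnz]
      have e1 : lev (fun y => ‖k y‖ ^ 2) z w = ‖fderiv ℂ k z w‖ ^ 2 := by
        have h3 := lev_comp_holo (κ := k) (u := fun y : V n => ‖y‖ ^ 2) (z := z)
          (Pool.Agent.Helper32.contDiffAt_hol (n := 2) hW hkh hz) (contDiff_norm_sq ℝ).contDiffAt w
        rw [h3]
        have h4 := lev_normSq (z := k z) 0 (fderiv ℂ k z w)
        simp only [sub_zero] at h4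
        exact h4
      have e2 : lev (fun y : V n => ‖y‖ ^ 2) z w = ‖w‖ ^ 2 := by
        have h4 := lev_normSq (z := z) 0 w
        simp only [sub_zero] at h4
        exact h4
      rw [e1, e2]
      have hz3 : ‖z‖ ≤ 3 := (mem_ball_zero_iff.1 (hW3 hz)).le
      have hC : (A.e j).symm z ∈ A.Ci i 3 :=
        ⟨(hWi z hz).1, (hWi z hz).2.le.trans (by norm_num)⟩
      have h5 := mul_le_mul_of_nonneg_left (hρ j i z hz3 hC w) hε
      linarith
  have h3 := GS.add hW h2 (SPsh.pshd hW hq)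
  have h4 : PSHd W fun z => A.pot j v' z + (ε * ‖k z‖ ^ 2 + (-(ρ * ε)) * ‖z‖ ^ 2) := by
    have e : (fun z : V n => (0 : ℝ) + 0) = fun _ => 0 := funext fun _ => add_zero _
    unfold PSHd
    rw [← e]
    exact h3
  refine GS.congr h4 hW (Eventually.of_forall fun z _ => ?_)
  unfold pot lc
  simp only [hv', hk]
  ring

/-- gluing of strictly `θ`-psh functions -/
theorem exists_KCX_of_glue : ∃ ρ : ℝ, 0 < ρ ∧ ρ ≤ 1 ∧ ∀ (ε κ : ℝ), 0 ≤ ε → 0 ≤ κ →
    ∀ (s : Fin N → X → ℝ),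
    (∀ᵐ x ∂A.μ, ∀ i j, x ∈ A.Bi i 2 → x ∈ A.Bi j 2 → |s i x - s j x| ≤ κ) →
    (∀ i, PSHd (Metric.ball 0 2) fun z => A.pot i (s i) z - (κ + ε) * ‖z‖ ^ 2) →
    A.KCX (ρ * ε) (A.glue s κ) := by
  classical
  obtain ⟨ρ1, hρ1, hρ1', hT⟩ := A.exists_transition_bound
  obtain ⟨ρ2, hρ2, hρ2', hA, -⟩ := A.exists_KCX_const
  refine ⟨ρ2 * ρ1, mul_pos hρ2 hρ1, mul_le_one₀ hρ2' hρ1.le hρ1', ?_⟩
  intro ε κ hε hκ s h1 h2
  rw [mul_assoc]
  refine hA _ _ (mul_nonneg hρ1.le hε) fun x => ?_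
  obtain ⟨j, hj1, hj2⟩ := A.cover x
  obtain ⟨O, hO, hxO, hOB, hOg⟩ := A.eventually_glue x
  set W : Set (V n) := Metric.ball 0 3 ∩ ((A.e j).target ∩ (A.e j).symm ⁻¹' O) with hWdef
  have hW : IsOpen W := Metric.isOpen_ball.inter (A.isOpen_preimage_symm j hO)
  have hW3 : W ⊆ Metric.ball 0 3 := inter_subset_left
  have hWt : W ⊆ (A.e j).target := fun z hz => hz.2.1
  have hxW : A.e j x ∈ W := by
    refine ⟨?_, (A.e j).map_source hj1, ?_⟩
    · rw [mem_ball_zero_iff]
      linarith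
    · rw [mem_preimage, (A.e j).left_inv hj1]
      exact hxO
  refine ⟨j, W, hW, hW3, hj1, hxW, ?_⟩
  set vv : Fin N → X → ℝ := fun i x => s i x - κ * ‖A.e i x‖ ^ 2 with hvv
  set J : Finset (Fin N) := Finset.univ.filter fun i => x ∈ A.Bi i 2 with hJdef
  have hJ : J.Nonempty := ⟨j, by
    rw [hJdef, Finset.mem_filter]
    exact ⟨Finset.mem_univ _, hj1, by linarith⟩⟩
  obtain ⟨u, hu, huy⟩ := fin_max_ga3
    (P := fun v : X → ℝ => PSHd W fun z => A.pot j v z - ρ1 * ε * ‖z‖ ^ 2)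
    (fun v w hv hw => by
      refine GS.congr (PSHd.max hW hv hw) hW (Eventually.of_forall fun z _ => ?_)
      simp only [A.pot_max_ga3 j v w z]
      rw [max_sub_sub_right])
    vv J hJ (by
      intro i hi
      have hxi : x ∈ A.Bi i 2 := (Finset.mem_filter.1 hi).2
      exact A.PSHd_one_ga3 hT hε i j (s i) hW hW3 hWt (fun z hz => hOB i hxi hz.2.2) (h2 i))
  refine GS.congr hu hW ?_
  filter_upwards [A.ae_target h1 j] with z hz hzW
  have hy := hz hzW.2.1
  obtain ⟨i, hi, he⟩ := hOg s κ hκ _ hzW.2.2 hy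
  obtain ⟨k, hk, hk'⟩ := (huy ((A.e j).symm z)).2
  have hae : u ((A.e j).symm z) = A.glue s κ ((A.e j).symm z) := by
    apply le_antisymm
    · rw [hk']
      have hxk : x ∈ A.Bi k 2 := (Finset.mem_filter.1 hk).2
      exact A.le_glue s κ (hOB k hxk hzW.2.2)
    · have hiJ : i ∈ J := Finset.mem_filter.2 ⟨Finset.mem_univ _, hi⟩
      have h6 := (huy ((A.e j).symm z)).1 i hiJ
      rw [he]
      exact h6
  unfold pot lc
  rw [hae]

end Atl

end Pool.Agent.Helper29.AM
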