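import Pool.Agent.Helper29.AM.Mean2
import Pool.Agent.Helper29.AM.LA1

/-!
# Block AM-G1a: the class GS and smooth functions (2.1)

`integral_mul_DA`: for `q` of class `C^∞` near the support, `∫ q Δ_A η = ∫ (Δ_A q) η` (integration by
parts twice in each real direction; Mathlib `integral_mul_fderiv_eq_neg_fderiv_mul_of_integrable`
or one-dimensional lines; `q` is only smooth on `Ω ⊇ tsupport η`).
`GS.local`: partition of unity subordinate to a cover of `tsupport η` by the neighbourhoods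
(`SmoothPartitionOfUnity` or finite products of bump functions).
`GS.limit`: `∫ u_k Δ_Aη → ∫ u Δ_Aη`; Fatou for `F_k η`.
`GS.smooth_iff`: if the pointwise inequality fails at a point (continuous functions) localise.
-/

set_option autoImplicit false

namespace Pool.Agent.Helper29.AM

open MeasureTheory Set Filter Topology
open scoped ComplexOrder

variable {n : ℕ} {Ω : Set (V n)} {F G u v : V n → ℝ}

private theorem cmul61 (hΩ : IsOpen Ω) {f g : V n → ℝ} (hf : ContinuousOn f Ω) (hg : Continuous g)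
    (hs : tsupport g ⊆ Ω) : Continuous fun z => f z * g z := by
  refine continuous_of_tsupport fun x hx => ?_
  have hx' : x ∈ Ω := hs (tsupport_mul_subset_right hx)
  exact (hf.continuousAt (hΩ.mem_nhds hx')).mul hg.continuousAt

private theorem csup61 {f g : V n → ℝ} (hc : HasCompactSupport g) :
    HasCompactSupport fun z => f z * g z := hc.mul_left

private theorem imul61 (hΩ : IsOpen Ω) {f g : V n → ℝ} (hf : ContinuousOn f Ω) (hg : Continuous g)
    (hc : HasCompactSupport g) (hs : tsupport g ⊆ Ω) : Integrable fun z => f z * g z :=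
  (cmul61 hΩ hf hg hs).integrable_of_hasCompactSupport (csup61 hc)

private theorem ts_fderiv61 {η : V n → ℝ} (w : V n) : tsupport (fun y => fderiv ℝ η y w) ⊆ tsupport η := by
  exact tsupport_fderiv_apply_subset ℝ w

private theorem hc_fderiv61 {η : V n → ℝ} (hc : HasCompactSupport η) (w : V n) :
    HasCompactSupport (fun y => fderiv ℝ η y w) :=
  hc.fderiv_apply ℝ w

private theorem fd_c1_61 {η : V n → ℝ} (hη : ContDiff ℝ 2 η) (w : V n) :
    ContDiff ℝ 1 fun y => fderiv ℝ η y w :=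
  (hη.fderiv_right (m := 1) (by norm_num)).clm_apply contDiff_const

private theorem fdq61 (hΩ : IsOpen Ω) {q : V n → ℝ} (hq : ContDiffOn ℝ 2 q Ω) (v : V n) :
    ContDiffOn ℝ 1 (fun y => fderiv ℝ q y v) Ω :=
  (hq.fderiv_of_isOpen hΩ (by norm_num)).clm_apply contDiffOn_const

private theorem D2_eq61 {q : V n → ℝ} {z : V n} (h : ContDiffAt ℝ 2 q z) (v w : V n) :
    D2 q z v w = fderiv ℝ (fun y => fderiv ℝ q y w) z v := by
  have h1 : ContDiffAt ℝ 1 (fderiv ℝ q) z := h.fderiv_right (by norm_num)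
  have h3 := (h1.differentiableAt (by norm_num)).hasFDerivAt.clm_apply (hasFDerivAt_const w z)
  rw [h3.fderiv]
  simp [D2]

private theorem cD2_61 (hΩ : IsOpen Ω) {q : V n → ℝ} (hq : ContDiffOn ℝ 2 q Ω) (v w : V n) :
    ContinuousOn (fun z => D2 q z v w) Ω := by
  have h1 : ContDiffOn ℝ 1 (fderiv ℝ q) Ω := hq.fderiv_of_isOpen hΩ (by norm_num)
  have h2 : ContDiffOn ℝ 0 (fderiv ℝ (fderiv ℝ q)) Ω := h1.fderiv_of_isOpen hΩ (by norm_num)
  exact ((h2.clm_apply contDiffOn_const).clm_apply contDiffOn_const).continuousOn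

private theorem cdat61 (hΩ : IsOpen Ω) {q : V n → ℝ} (hq : ContDiffOn ℝ 2 q Ω) {z : V n} (hz : z ∈ Ω) :
    ContDiffAt ℝ 2 q z := hq.contDiffAt (hΩ.mem_nhds hz)

private theorem ibp61 (hΩ : IsOpen Ω) {q η : V n → ℝ} (hq : ContDiffOn ℝ 2 q Ω)
    (hη : ContDiff ℝ 2 η) (hc : HasCompactSupport η) (hs : tsupport η ⊆ Ω) (v w : V n) :
    ∫ z, q z * D2 η z v w = ∫ z, D2 q z v w * η z := by
  have hη1 : Continuous η := hη.continuous
  have hη2 : Continuous fun y => fderiv ℝ η y w := (fd_c1_61 hη w).continuous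
  have hη3 : Continuous fun z => fderiv ℝ (fun y => fderiv ℝ η y w) z v :=
    ((fd_c1_61 hη w).continuous_fderiv (by norm_num)).clm_apply continuous_const
  have s1 : tsupport (fun y => fderiv ℝ η y w) ⊆ Ω := (ts_fderiv61 w).trans hs
  have s2 : tsupport (fun z => fderiv ℝ (fun y => fderiv ℝ η y w) z v) ⊆ Ω := (ts_fderiv61 v).trans s1
  have c1 : ∫ z, q z * D2 η z v w = ∫ z, q z * fderiv ℝ (fun y => fderiv ℝ η y w) z v := by
    refine integral_congr_ae (Eventually.of_forall fun z => ?_)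
    change q z * D2 η z v w = q z * fderiv ℝ (fun y => fderiv ℝ η y w) z v
    rw [D2_eq61 hη.contDiffAt]
  have c2 := integral_mul_fderiv_eq_neg_fderiv_mul_of_integrable (μ := (volume : Measure (V n))) (f := q)
    (g := fun y => fderiv ℝ η y w) (v := v)
    (imul61 hΩ (fdq61 hΩ hq v).continuousOn hη2 (hc_fderiv61 hc w) s1)
    (imul61 hΩ hq.continuousOn hη3 (hc_fderiv61 (hc_fderiv61 hc w) v) s2)
    (imul61 hΩ hq.continuousOn hη2 (hc_fderiv61 hc w) s1)
    (fun x hx => (cdat61 hΩ hq (s1 hx)).differentiableAt (by norm_num))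
    (fun x _ => (fd_c1_61 hη w).contDiffAt.differentiableAt (by norm_num))
  have c3 := integral_mul_fderiv_eq_neg_fderiv_mul_of_integrable (μ := (volume : Measure (V n)))
    (f := fun y => fderiv ℝ q y v) (g := η) (v := w)
    (imul61 hΩ (((fdq61 hΩ hq v).fderiv_of_isOpen (m := 0) hΩ (by norm_num)).clm_apply
      contDiffOn_const).continuousOn hη1 hc hs)
    (imul61 hΩ (fdq61 hΩ hq v).continuousOn hη2 (hc_fderiv61 hc w) s1)
    (imul61 hΩ (fdq61 hΩ hq v).continuousOn hη1 hc hs)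
    (fun x hx => ((fdq61 hΩ hq v).contDiffAt (hΩ.mem_nhds (hs hx))).differentiableAt (by norm_num))
    (fun x _ => hη.contDiffAt.differentiableAt (by norm_num))
  rw [c1, c2, c3, neg_neg]
  refine integral_congr_ae (Eventually.of_forall fun z => ?_)
  change fderiv ℝ (fun y => fderiv ℝ q y v) z w * η z = D2 q z v w * η z
  by_cases hz : z ∈ Ω
  · rw [← D2_eq61 (cdat61 hΩ hq hz), D2_symm (cdat61 hΩ hq hz)]
  · have h0 : η z = 0 := by
      by_contra h
      exact hz (hs (subset_tsupport _ h))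
    rw [h0, mul_zero, mul_zero]

private theorem iD61 (hΩ : IsOpen Ω) {q η : V n → ℝ} (hq : ContDiffOn ℝ 2 q Ω)
    (hη : ContDiff ℝ 2 η) (hc : HasCompactSupport η) (hs : tsupport η ⊆ Ω) (v w : V n) :
    Integrable fun z => q z * D2 η z v w := by
  have hη3 : Continuous fun z => fderiv ℝ (fun y => fderiv ℝ η y w) z v :=
    ((fd_c1_61 hη w).continuous_fderiv (by norm_num)).clm_apply continuous_const
  have s1 : tsupport (fun y => fderiv ℝ η y w) ⊆ Ω := (ts_fderiv61 w).trans hs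
  have s2 : tsupport (fun z => fderiv ℝ (fun y => fderiv ℝ η y w) z v) ⊆ Ω := (ts_fderiv61 v).trans s1
  have h := imul61 hΩ hq.continuousOn hη3 (hc_fderiv61 (hc_fderiv61 hc w) v) s2
  refine h.congr (Eventually.of_forall fun z => ?_)
  change q z * fderiv ℝ (fun y => fderiv ℝ η y w) z v = q z * D2 η z v w
  rw [D2_eq61 hη.contDiffAt]

private theorem iD61' (hΩ : IsOpen Ω) {q η : V n → ℝ} (hq : ContDiffOn ℝ 2 q Ω)
    (hη : ContDiff ℝ 2 η) (hc : HasCompactSupport η) (hs : tsupport η ⊆ Ω) (v w : V n) :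
    Integrable fun z => D2 q z v w * η z :=
  imul61 hΩ (cD2_61 hΩ hq v w) hη.continuous hc hs

private theorem ilev61 (hΩ : IsOpen Ω) {q η : V n → ℝ} (hq : ContDiffOn ℝ 2 q Ω)
    (hη : ContDiff ℝ 2 η) (hc : HasCompactSupport η) (hs : tsupport η ⊆ Ω) (v : V n) :
    ∫ z, q z * lev η z v = ∫ z, lev q z v * η z := by
  have h1 : ∀ z, q z * lev η z v = (q z * D2 η z v v + q z * D2 η z (Complex.I • v) (Complex.I • v)) / 4 :=
    fun z => by unfold lev; ring
  have h2 : ∀ z, lev q z v * η z = (D2 q z v v * η z + D2 q z (Complex.I • v) (Complex.I • v) * η z) / 4 :=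
    fun z => by unfold lev; ring
  simp only [h1, h2]
  rw [integral_div, integral_div, integral_add (iD61 hΩ hq hη hc hs _ _) (iD61 hΩ hq hη hc hs _ _),
    integral_add (iD61' hΩ hq hη hc hs _ _) (iD61' hΩ hq hη hc hs _ _), ibp61 hΩ hq hη hc hs,
    ibp61 hΩ hq hη hc hs]

private theorem ilevI61 (hΩ : IsOpen Ω) {q η : V n → ℝ} (hq : ContDiffOn ℝ 2 q Ω)
    (hη : ContDiff ℝ 2 η) (hc : HasCompactSupport η) (hs : tsupport η ⊆ Ω) (v : V n) :
    Integrable fun z => q z * lev η z v := by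
  have h1 : ∀ z, q z * lev η z v = (q z * D2 η z v v + q z * D2 η z (Complex.I • v) (Complex.I • v)) / 4 :=
    fun z => by unfold lev; ring
  simp only [h1]
  exact ((iD61 hΩ hq hη hc hs _ _).add (iD61 hΩ hq hη hc hs _ _)).div_const 4

private theorem ilevI61' (hΩ : IsOpen Ω) {q η : V n → ℝ} (hq : ContDiffOn ℝ 2 q Ω)
    (hη : ContDiff ℝ 2 η) (hc : HasCompactSupport η) (hs : tsupport η ⊆ Ω) (v : V n) :
    Integrable fun z => lev q z v * η z :=
  imul61 hΩ (continuousOn_lev hΩ hq v) hη.continuous hc hs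

/-- integration by parts -/
theorem integral_mul_DA (hΩ : IsOpen Ω) (A : Lin n) {q η : V n → ℝ} (hq : ContDiffOn ℝ 2 q Ω)
    (hη : ContDiff ℝ 2 η) (hc : HasCompactSupport η) (hs : tsupport η ⊆ Ω) :
    ∫ z, q z * DA A η z = ∫ z, DA A q z * η z := by
  unfold DA
  simp only [Finset.mul_sum, Finset.sum_mul]
  rw [integral_finsetSum _ fun l _ => ilevI61 hΩ hq hη hc hs _,
    integral_finsetSum _ fun l _ => ilevI61' hΩ hq hη hc hs _]
  exact Finset.sum_congr rfl fun l _ => ilev61 hΩ hq hη hc hs _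

theorem integral_mul_hess (hΩ : IsOpen Ω) {q η : V n → ℝ} (hq : ContDiffOn ℝ 2 q Ω)
    (hη : ContDiff ℝ 2 η) (hc : HasCompactSupport η) (hs : tsupport η ⊆ Ω) (j k : Fin n) :
    ∫ z, (q z : ℂ) * hess η z j k = ∫ z, hess q z j k * (η z : ℂ) := by
  have i1 := fun v w => iD61 hΩ hq hη hc hs v w
  have i2 := fun v w => iD61' hΩ hq hη hc hs v w
  have h1 : ∀ z, (q z : ℂ) * hess η z j k =
      ((q z * D2 η z (e j) (e k) + q z * D2 η z (Complex.I • e j) (Complex.I • e k) : ℝ) : ℂ) * (1 / 4) +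
      ((q z * D2 η z (e j) (Complex.I • e k) - q z * D2 η z (Complex.I • e j) (e k) : ℝ) : ℂ) *
        (Complex.I / 4) := by
    intro z
    unfold hess
    push_cast
    ring
  have h2 : ∀ z, hess q z j k * (η z : ℂ) =
      ((D2 q z (e j) (e k) * η z + D2 q z (Complex.I • e j) (Complex.I • e k) * η z : ℝ) : ℂ) * (1 / 4) +
      ((D2 q z (e j) (Complex.I • e k) * η z - D2 q z (Complex.I • e j) (e k) * η z : ℝ) : ℂ) *
        (Complex.I / 4) := by
    intro z
    unfold hess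
    push_cast
    ring
  simp only [h1, h2]
  rw [integral_add, integral_add, integral_mul_const, integral_mul_const, integral_mul_const,
    integral_mul_const, integral_complex_ofReal, integral_complex_ofReal, integral_complex_ofReal,
    integral_complex_ofReal,
    integral_add (i1 _ _) (i1 _ _), integral_add (i2 _ _) (i2 _ _), integral_sub (i1 _ _) (i1 _ _),
    integral_sub (i2 _ _) (i2 _ _), ibp61 hΩ hq hη hc hs, ibp61 hΩ hq hη hc hs, ibp61 hΩ hq hη hc hs,
    ibp61 hΩ hq hη hc hs]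
  · exact (((i2 _ _).add (i2 _ _)).ofReal).mul_const _
  · exact (((i2 _ _).sub (i2 _ _)).ofReal).mul_const _
  · exact (((i1 _ _).add (i1 _ _)).ofReal).mul_const _
  · exact (((i1 _ _).sub (i1 _ _)).ofReal).mul_const _

private theorem iF61 {η : V n → ℝ} (hF : LocallyIntegrableOn F Ω volume) (hη : Continuous η)
    (hc : HasCompactSupport η) (hs : tsupport η ⊆ Ω) : Integrable fun z => F z * η z := by
  have h1 : IntegrableOn F (tsupport η) volume := hF.integrableOn_compact_subset hs hc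
  have h2 : IntegrableOn (fun z => F z * η z) (tsupport η) volume :=
    h1.mul_continuousOn hη.continuousOn hc
  refine (integrableOn_iff_integrable_of_support_subset ?_).1 h2
  intro z hz
  refine subset_tsupport η fun h0 => hz ?_
  change F z * η z = 0
  rw [h0, mul_zero]

private theorem tst2_61 {η : V n → ℝ} (h : Tst Ω η) : ContDiff ℝ 2 η := h.smooth.of_le
  (WithTop.coe_le_coe.2 (le_top : (2 : ℕ∞) ≤ ⊤))

private theorem tst0_61 {η : V n → ℝ} (h : Tst Ω η) {z : V n} (hz : z ∉ Ω) : η z = 0 := by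
  by_contra h0
  exact hz (h.sub (subset_tsupport _ h0))

theorem GS.of_smooth (hΩ : IsOpen Ω) {q : V n → ℝ} (hq : ContDiffOn ℝ 2 q Ω)
    (hF : LocallyIntegrableOn F Ω volume) (h0 : ∀ z ∈ Ω, 0 ≤ F z)
    (h : ∀ᵐ z, z ∈ Ω → GP (lev q z) (F z)) : GS Ω F q := by
  refine ⟨hq.continuousOn.locallyIntegrableOn hΩ.measurableSet, hF, h0, fun A η hη => ?_⟩
  rw [integral_mul_DA hΩ A hq (tst2_61 hη) hη.cpt hη.sub, ← integral_const_mul]
  refine integral_mono_ae ((iF61 hF (tst2_61 hη).continuous hη.cpt hη.sub).const_mul _) ?_ ?_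
  · have h1 : ContinuousOn (DA A q) Ω := by
      unfold DA
      exact continuousOn_finsetSum _ fun l _ => continuousOn_lev hΩ hq _
    exact imul61 hΩ h1 (tst2_61 hη).continuous hη.cpt hη.sub
  · filter_upwards [h] with z hz
    by_cases hzΩ : z ∈ Ω
    · have h1 := mul_le_mul_of_nonneg_right (hz hzΩ A) (hη.nonneg z)
      rw [mul_assoc] at h1
      exact h1
    · rw [tst0_61 hη hzΩ, mul_zero, mul_zero, mul_zero]

theorem GS.GP_of_smooth (hΩ : IsOpen Ω) {q : V n → ℝ} (hq : ContDiffOn ℝ 2 q Ω)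
    (hF : ContinuousOn F Ω) (h : GS Ω F q) : ∀ z ∈ Ω, GP (lev q z) (F z) := by
  intro z₀ hz₀ A
  by_contra hlt
  rw [not_le] at hlt
  have hcD : ContinuousOn (DA A q) Ω := by
    unfold DA
    exact continuousOn_finsetSum _ fun l _ => continuousOn_lev hΩ hq _
  have hcg : ContinuousOn (fun z => (n : ℝ) * ‖A.det‖ ^ ((2 : ℝ) / n) * F z - DA A q z) Ω :=
    (continuousOn_const.mul hF).sub hcD
  have hev : ∀ᶠ z in 𝓝 z₀, z ∈ Ω ∧ 0 < (n : ℝ) * ‖A.det‖ ^ ((2 : ℝ) / n) * F z - DA A q z := by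
    refine (hΩ.eventually_mem hz₀).and ?_
    exact (hcg.continuousAt (hΩ.mem_nhds hz₀)).eventually_const_lt (by
      change DA A q z₀ < _ at hlt
      linarith)
  obtain ⟨η, hηs, hηc, hηd, hηr, hη1⟩ := exists_contDiff_tsupport_subset (n := ⊤) hev
  have hηn : ∀ z, 0 ≤ η z := fun z => (hηr ⟨z, rfl⟩).1
  have hT : Tst Ω η := ⟨hηd, hηc, fun z hz => (hηs hz).1, hηn⟩
  have h1 := h.ineq A η hT
  rw [integral_mul_DA hΩ A hq (tst2_61 hT) hηc hT.sub, ← integral_const_mul] at h1
  have hi1 : Integrable fun z => (n : ℝ) * ‖A.det‖ ^ ((2 : ℝ) / n) * (F z * η z) :=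
    (imul61 hΩ hF hηd.continuous hηc hT.sub).const_mul _
  have hi2 : Integrable fun z => DA A q z * η z := imul61 hΩ hcD hηd.continuous hηc hT.sub
  have h2 : 0 < ∫ z, ((n : ℝ) * ‖A.det‖ ^ ((2 : ℝ) / n) * F z - DA A q z) * η z := by
    refine (cmul61 hΩ hcg hηd.continuous hT.sub).integral_pos_of_hasCompactSupport_nonneg_nonzero
      (csup61 hηc) (fun z => ?_) (x := z₀) ?_
    · by_cases hz : η z = 0
      · change 0 ≤ _ * η z
        rw [hz, mul_zero]
      · exact mul_nonneg (hηs (subset_tsupport _ hz)).2.le (hηn z)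
    · rw [hη1, mul_one]
      exact (hev.self_of_nhds).2.ne'
  have h3 : ∫ z, ((n : ℝ) * ‖A.det‖ ^ ((2 : ℝ) / n) * F z - DA A q z) * η z =
      (∫ z, (n : ℝ) * ‖A.det‖ ^ ((2 : ℝ) / n) * (F z * η z)) - ∫ z, DA A q z * η z := by
    rw [← integral_sub hi1 hi2]
    refine integral_congr_ae (Eventually.of_forall fun z => ?_)
    change (_ - _) * η z = _ - _
    ring
  rw [h3] at h2
  linarith

theorem SPsh.pshd (hΩ : IsOpen Ω) (h : SPsh Ω u) : PSHd Ω u := by
  refine GS.of_smooth hΩ (h.smooth.of_le (WithTop.coe_le_coe.2 (le_top : (2 : ℕ∞) ≤ ⊤)))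
    (continuousOn_const.locallyIntegrableOn hΩ.measurableSet) (fun _ _ => le_rfl)
    (Eventually.of_forall fun z hz A => ?_)
  rw [mul_zero]
  exact Finset.sum_nonneg fun l _ => h.psh z hz _

end Pool.Agent.Helper29.AM
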