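import Pool.Agent.Helper29.AM.GS1a

/-!
# Block AM-G1b: the class GS, elementary properties (2.1), (2.2), (2.8)

`integral_mul_DA`: for `q` of class `C^∞` near the support, `∫ q Δ_A η = ∫ (Δ_A q) η` (integration by
parts twice in each real direction; Mathlib `integral_mul_fderiv_eq_neg_fderiv_mul_of_integrable`
or one-dimensional lines; `q` is only smooth on `Ω ⊇ tsupport η`).
`GS.local`: partition of unity subordinate to a cover of `tsupport η` by the neighbourhoods
(`SmoothPartitionOfUnity` or finite products of bump functions).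
`GS.limit`: `∫ u_k Δ_Aη → ∫ u Δ_Aη`; Fatou for `F_k η`.
`GS.smooth_iff`: if the pointwise inequality fails at a point (continuous functions) localise.
-/

set_option autoImplicit false

namespace Pool.Agent.Helper29.AM

open MeasureTheory Set Filter Topology
open scoped ComplexOrder

variable {n : ℕ} {Ω : Set (V n)} {F G u v : V n → ℝ}

/-! ### Auxiliary facts on test functions -/

private theorem lev_zero75 {η : V n → ℝ} {z : V n} (hz : z ∉ tsupport η) (w : V n) :
    lev η z w = 0 := by
  have h : η =ᶠ[𝓝 z] fun _ => (0 : ℝ) := by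
    have h1 := notMem_tsupport_iff_eventuallyEq.1 hz
    exact h1
  rw [lev_congr h w]
  exact lev_const 0 w

private theorem DA_zero75 {η : V n → ℝ} {z : V n} (hz : z ∉ tsupport η) (A : Lin n) :
    DA A η z = 0 := by
  unfold DA
  exact Finset.sum_eq_zero fun l _ => lev_zero75 hz _

private theorem DA_supp75 (η : V n → ℝ) (A : Lin n) : tsupport (DA A η) ⊆ tsupport η := by
  apply closure_minimal _ (isClosed_tsupport η)
  intro z hz
  by_contra hc
  exact hz (DA_zero75 hc A)

private theorem Tst.c275 {η : V n → ℝ} (h : Tst Ω η) : ContDiff ℝ 2 η :=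
  by exact_mod_cast contDiff_infty.1 h.smooth 2

private theorem DA_cont75 {η : V n → ℝ} (h : ContDiff ℝ 2 η) (A : Lin n) :
    Continuous (DA A η) := by
  have : DA A η = fun z => ∑ l, lev η z (A (e l)) := rfl
  rw [this]
  apply continuous_finsetSum
  intro l _
  have := continuousOn_lev (u := η) isOpen_univ h.contDiffOn (A (e l))
  exact continuousOn_univ.1 this

private theorem int75 {u φ : V n → ℝ} (hu : LocallyIntegrableOn u Ω volume)
    (hφ : Continuous φ) (hc : HasCompactSupport φ) (hs : tsupport φ ⊆ Ω) :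
    Integrable (fun z => u z * φ z) := by
  have hK : IsCompact (tsupport φ) := hc
  have h1 : IntegrableOn u (tsupport φ) := hu.integrableOn_compact_subset hs hK
  have h2 : IntegrableOn (fun z => u z * φ z) (tsupport φ) :=
    h1.mul_continuousOn hφ.continuousOn hK
  refine (integrableOn_iff_integrable_of_support_subset ?_).1 h2
  intro z hz
  apply subset_tsupport φ
  intro h0
  exact hz (by simp [h0])

private theorem Tst.intF75 {η : V n → ℝ} (h : Tst Ω η) (hF : LocallyIntegrableOn F Ω volume) :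
    Integrable (fun z => F z * η z) :=
  int75 hF h.smooth.continuous h.cpt h.sub

private theorem Tst.intDA75 {η : V n → ℝ} (h : Tst Ω η) (hF : LocallyIntegrableOn F Ω volume)
    (A : Lin n) : Integrable (fun z => F z * DA A η z) :=
  int75 hF (DA_cont75 h.c275 A)
    (h.cpt.mono' (subset_trans (subset_tsupport _) (DA_supp75 η A)))
    ((DA_supp75 η A).trans h.sub)

private theorem Tst.zero75 {η : V n → ℝ} (h : Tst Ω η) {z : V n} (hz : z ∉ Ω) : η z = 0 := by
  by_contra hc
  exact hz (h.sub (subset_tsupport η hc))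

private theorem Tst.DAzero75 {η : V n → ℝ} (h : Tst Ω η) {z : V n} (hz : z ∉ Ω) (A : Lin n) :
    DA A η z = 0 := DA_zero75 (fun hc => hz (h.sub hc)) A

private theorem cnn75 (A : Lin n) : 0 ≤ (n : ℝ) * ‖A.det‖ ^ ((2 : ℝ) / n) := by positivity

theorem GS.mono_set (h : GS Ω F u) {Ω' : Set (V n)} (hΩ' : IsOpen Ω') (hs : Ω' ⊆ Ω) :
    GS Ω' F u :=
  ⟨h.int.mono_set hs, h.intF.mono_set hs, fun z hz => h.nonneg z (hs hz),
    fun A η hη => h.ineq A η ⟨hη.smooth, hη.cpt, hη.sub.trans hs, hη.nonneg⟩⟩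

theorem GS.mono (h : GS Ω F u) (hG : LocallyIntegrableOn G Ω volume) (h0 : ∀ z ∈ Ω, 0 ≤ G z)
    (hFG : ∀ᵐ z, z ∈ Ω → G z ≤ F z) : GS Ω G u := by
  refine ⟨h.int, hG, h0, fun A η hη => ?_⟩
  refine le_trans ?_ (h.ineq A η hη)
  apply mul_le_mul_of_nonneg_left _ (cnn75 A)
  apply integral_mono_ae (hη.intF75 hG) (hη.intF75 h.intF)
  filter_upwards [hFG] with z hz
  by_cases hzΩ : z ∈ Ω
  · exact mul_le_mul_of_nonneg_right (hz hzΩ) (hη.nonneg z)
  · simp only [hη.zero75 hzΩ, mul_zero, le_refl]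

theorem GS.psh (h : GS Ω F u) : PSHd Ω u :=
  h.mono (locallyIntegrableOn_const 0) (fun _ _ => le_rfl)
    (Eventually.of_forall fun z hz => h.nonneg z hz)

private theorem restr75 (hΩ : IsOpen Ω) (hv : ∀ᵐ z, z ∈ Ω → u z = v z) :
    u =ᵐ[volume.restrict Ω] v := by
  rw [Filter.EventuallyEq, ae_restrict_iff' hΩ.measurableSet]
  exact hv

theorem GS.congr (h : GS Ω F u) (hΩ : IsOpen Ω) (hv : ∀ᵐ z, z ∈ Ω → u z = v z) : GS Ω F v := by
  refine ⟨h.int.congr (restr75 hΩ hv), h.intF, h.nonneg, fun A η hη => ?_⟩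
  have e : ∫ z, v z * DA A η z = ∫ z, u z * DA A η z := by
    apply integral_congr_ae
    filter_upwards [hv] with z hz
    by_cases hzΩ : z ∈ Ω
    · rw [hz hzΩ]
    · rw [hη.DAzero75 hzΩ, mul_zero, mul_zero]
  rw [e]
  exact h.ineq A η hη

theorem GS.congrF (h : GS Ω F u) (hΩ : IsOpen Ω) (hG : ∀ᵐ z, z ∈ Ω → F z = G z)
    (h0 : ∀ z ∈ Ω, 0 ≤ G z) : GS Ω G u := by
  refine ⟨h.int, h.intF.congr (restr75 hΩ hG), h0, fun A η hη => ?_⟩
  have e : ∫ z, G z * η z = ∫ z, F z * η z := by
    apply integral_congr_ae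
    filter_upwards [hG] with z hz
    by_cases hzΩ : z ∈ Ω
    · rw [hz hzΩ]
    · rw [hη.zero75 hzΩ, mul_zero, mul_zero]
  rw [e]
  exact h.ineq A η hη

theorem GS.add (hΩ : IsOpen Ω) (hu : GS Ω F u) (hv : GS Ω G v) :
    GS Ω (fun z => F z + G z) (fun z => u z + v z) := by
  refine ⟨hu.int.add hv.int, hu.intF.add hv.intF,
    fun z hz => add_nonneg (hu.nonneg z hz) (hv.nonneg z hz), fun A η hη => ?_⟩
  have e1 : ∫ z, (F z + G z) * η z = (∫ z, F z * η z) + ∫ z, G z * η z := by
    rw [← integral_add (hη.intF75 hu.intF) (hη.intF75 hv.intF)]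
    exact integral_congr_ae (Eventually.of_forall fun z => by simp only; ring)
  have e2 : ∫ z, (u z + v z) * DA A η z = (∫ z, u z * DA A η z) + ∫ z, v z * DA A η z := by
    rw [← integral_add (hη.intDA75 hu.int A) (hη.intDA75 hv.int A)]
    exact integral_congr_ae (Eventually.of_forall fun z => by simp only; ring)
  rw [e1, e2, mul_add]
  exact add_le_add (hu.ineq A η hη) (hv.ineq A η hη)

theorem GS.smul (h : GS Ω F u) {s : ℝ} (hs : 0 ≤ s) :
    GS Ω (fun z => s * F z) (fun z => s * u z) := by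
  refine ⟨h.int.smul s, h.intF.smul s, fun z hz => mul_nonneg hs (h.nonneg z hz),
    fun A η hη => ?_⟩
  have e1 : ∫ z, s * F z * η z = s * ∫ z, F z * η z := by
    rw [← integral_const_mul]
    exact integral_congr_ae (Eventually.of_forall fun z => by simp only; ring)
  have e2 : ∫ z, s * u z * DA A η z = s * ∫ z, u z * DA A η z := by
    rw [← integral_const_mul]
    exact integral_congr_ae (Eventually.of_forall fun z => by simp only; ring)
  rw [e1, e2]
  have := mul_le_mul_of_nonneg_left (h.ineq A η hη) hs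
  calc (n : ℝ) * ‖A.det‖ ^ ((2 : ℝ) / n) * (s * ∫ z, F z * η z)
      = s * ((n : ℝ) * ‖A.det‖ ^ ((2 : ℝ) / n) * ∫ z, F z * η z) := by ring
    _ ≤ _ := this

private theorem DA_sum75 {ι : Type*} (t : Finset ι) (g : ι → V n → ℝ)
    (hg : ∀ i ∈ t, ContDiff ℝ 2 (g i)) (A : Lin n) (z : V n) :
    DA A (fun y => ∑ i ∈ t, g i y) z = ∑ i ∈ t, DA A (g i) z := by
  classical
  induction t using Finset.induction_on with
  | empty =>
    simp only [Finset.sum_empty]
    unfold DA
    exact Finset.sum_eq_zero fun l _ => lev_const 0 _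
  | insert i t hi ih =>
    rw [Finset.sum_insert hi, ← ih fun j hj => hg j (Finset.mem_insert_of_mem hj)]
    have e : (fun y => ∑ j ∈ insert i t, g j y) = fun y => g i y + (fun y => ∑ j ∈ t, g j y) y := by
      funext y
      rw [Finset.sum_insert hi]
    rw [e]
    unfold DA
    rw [← Finset.sum_add_distrib]
    apply Finset.sum_congr rfl
    intro l _
    apply lev_add (hg i (Finset.mem_insert_self i t)).contDiffAt
    exact (ContDiff.sum fun j hj => hg j (Finset.mem_insert_of_mem hj)).contDiffAt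

theorem GS.of_local (hΩ : IsOpen Ω)
    (h : ∀ z ∈ Ω, ∃ U, IsOpen U ∧ z ∈ U ∧ U ⊆ Ω ∧ GS U F u) : GS Ω F u := by
  classical
  have hloc : ∀ f : V n → ℝ, (∀ z ∈ Ω, ∃ U, IsOpen U ∧ z ∈ U ∧ LocallyIntegrableOn f U volume) →
      LocallyIntegrableOn f Ω volume := by
    intro f hf z hz
    obtain ⟨U, hU, hzU, hfU⟩ := hf z hz
    have h1 := hfU z hzU
    rw [hU.nhdsWithin_eq hzU] at h1
    exact h1.filter_mono nhdsWithin_le_nhds
  have hi : LocallyIntegrableOn u Ω volume := hloc u fun z hz => by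
    obtain ⟨U, hU, hzU, -, hG⟩ := h z hz
    exact ⟨U, hU, hzU, hG.int⟩
  have hF : LocallyIntegrableOn F Ω volume := hloc F fun z hz => by
    obtain ⟨U, hU, hzU, -, hG⟩ := h z hz
    exact ⟨U, hU, hzU, hG.intF⟩
  have h0 : ∀ z ∈ Ω, 0 ≤ F z := fun z hz => by
    obtain ⟨U, -, hzU, -, hG⟩ := h z hz
    exact hG.nonneg z hzU
  refine ⟨hi, hF, h0, fun A η hη => ?_⟩
  choose! U hU hzU hUΩ hG using h
  have hK : IsCompact (tsupport η) := hη.cpt
  obtain ⟨t, ht, htK⟩ := hK.elim_nhds_subcover U fun z hz => (hU z (hη.sub hz)).mem_nhds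
    (hzU z (hη.sub hz))
  obtain ⟨f, hf⟩ := SmoothPartitionOfUnity.exists_isSubordinate (modelWithCornersSelf ℝ (V n))
    (isClosed_tsupport η) (fun i : t => U i.1) (fun i => hU _ (hη.sub (ht i.1 i.2)))
    (fun z hz => by
      obtain ⟨i, hi, hzi⟩ := mem_iUnion₂.1 (htK hz)
      exact mem_iUnion.2 ⟨⟨i, hi⟩, hzi⟩)
  have hfs : ∀ i : t, ContDiff ℝ (⊤ : ℕ∞) (f i : V n → ℝ) := fun i => (f i).contMDiff.contDiff
  have hT : ∀ i : t, Tst (U i.1) (fun z => f i z * η z) := by
    intro i
    refine ⟨(hfs i).mul hη.smooth, hη.cpt.mul_left, ?_, fun z => mul_nonneg (f.nonneg i z)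
      (hη.nonneg z)⟩
    exact (tsupport_mul_subset_left).trans (hf i)
  have hT' : ∀ i : t, Tst Ω (fun z => f i z * η z) := fun i =>
    ⟨(hT i).smooth, (hT i).cpt, (hT i).sub.trans (hUΩ _ (hη.sub (ht i.1 i.2))), (hT i).nonneg⟩
  have hsum : ∀ z, η z = ∑ i : t, f i z * η z := by
    intro z
    by_cases hz : z ∈ tsupport η
    · have h1 := f.sum_eq_one hz
      rw [finsum_eq_sum_of_fintype] at h1
      rw [← Finset.sum_mul, h1, one_mul]
    · rw [image_eq_zero_of_notMem_tsupport hz]
      simp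
  have e1 : ∫ z, F z * η z = ∑ i : t, ∫ z, F z * (f i z * η z) := by
    rw [← integral_finsetSum _ fun i _ => (hT' i).intF75 hF]
    apply integral_congr_ae
    refine Eventually.of_forall fun z => ?_
    simp only
    rw [← Finset.mul_sum, ← hsum z]
  have e2 : ∫ z, u z * DA A η z = ∑ i : t, ∫ z, u z * DA A (fun y => f i y * η y) z := by
    rw [← integral_finsetSum _ fun i _ => (hT' i).intDA75 hi A]
    apply integral_congr_ae
    refine Eventually.of_forall fun z => ?_
    simp only
    rw [← Finset.mul_sum, ← DA_sum75 _ _ (fun i _ => (hT' i).c275) A z]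
    congr 2
    funext y
    exact hsum y
  rw [e1, e2, Finset.mul_sum]
  exact Finset.sum_le_sum fun i _ => (hG i.1 (hη.sub (ht i.1 i.2))).ineq A _ (hT i)

/-- adding a pluriharmonic function -/
theorem GS.add_ph (hΩ : IsOpen Ω) (h : GS Ω F u) {q : V n → ℝ} (hq : ContDiffOn ℝ 2 q Ω)
    (hq0 : ∀ z ∈ Ω, ∀ w, lev q z w = 0) : GS Ω F (fun z => u z + q z) := by
  have hqi : LocallyIntegrableOn q Ω volume :=
    hq.continuousOn.locallyIntegrableOn hΩ.measurableSet
  refine ⟨h.int.add hqi, h.intF, h.nonneg, fun A η hη => ?_⟩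
  have e2 : ∫ z, (u z + q z) * DA A η z = (∫ z, u z * DA A η z) + ∫ z, q z * DA A η z := by
    rw [← integral_add (hη.intDA75 h.int A) (hη.intDA75 hqi A)]
    exact integral_congr_ae (Eventually.of_forall fun z => by simp only; ring)
  have e3 : ∫ z, q z * DA A η z = 0 := by
    rw [integral_mul_DA hΩ A hq hη.c275 hη.cpt hη.sub]
    rw [← integral_zero (V n) ℝ]
    apply integral_congr_ae
    refine Eventually.of_forall fun z => ?_
    simp only
    by_cases hz : z ∈ Ω
    · have : DA A q z = 0 := by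
        unfold DA
        exact Finset.sum_eq_zero fun l _ => hq0 z hz _
      rw [this, zero_mul]
    · rw [hη.zero75 hz, mul_zero]
  rw [e2, e3, add_zero]
  exact h.ineq A η hη

/-- (2.8) -/
theorem GS.of_strict (hn : 0 < n) (hΩ : IsOpen Ω) {ε : ℝ} (hε : 0 ≤ ε)
    (h : PSHd Ω fun z => u z - ε * ‖z‖ ^ 2) : GS Ω (fun _ => ε) u := by
  have hsm : ContDiff ℝ 2 fun z : V n => ‖z‖ ^ 2 := contDiff_norm_sq ℝ
  have hlev : ∀ z w : V n, lev (fun z : V n => ε * ‖z‖ ^ 2) z w = ε * ‖w‖ ^ 2 := by
    intro z w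
    rw [lev_const_mul ε hsm.contDiffAt w]
    have := lev_normSq (z := z) (0 : V n) w
    simp only [sub_zero] at this
    rw [this]
  have hq : GS Ω (fun _ => ε) (fun z : V n => ε * ‖z‖ ^ 2) := by
    apply GS.of_smooth hΩ (contDiff_const.mul hsm).contDiffOn (locallyIntegrableOn_const ε)
      (fun _ _ => hε)
    refine Eventually.of_forall fun z _ => ?_
    have h1 := GP_normSq (n := n).smul hε
    rw [mul_one] at h1
    exact h1.mono le_rfl fun w => (hlev z w).ge
  have h2 := GS.add hΩ h hq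
  simp only [zero_add, sub_add_cancel] at h2
  exact h2

/-- (2.2) closure under `L¹_loc` limits -/
theorem GS.limit (hΩ : IsOpen Ω) {uk Fk : ℕ → V n → ℝ} (h : ∀ k, GS Ω (Fk k) (uk k))
    (hu : LocallyIntegrableOn u Ω volume) (hF : LocallyIntegrableOn F Ω volume)
    (h0 : ∀ z ∈ Ω, 0 ≤ F z)
    (hlim : ∀ K ⊆ Ω, IsCompact K → Tendsto (fun k => ∫ z in K, |uk k z - u z|) atTop (𝓝 0))
    (hFlim : ∀ᵐ z, z ∈ Ω → ∃ L, F z ≤ L ∧ Tendsto (fun k => Fk k z) atTop (𝓝 L)) :
    GS Ω F u := by
  refine ⟨hu, hF, h0, fun A η hη => ?_⟩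
  have hK : IsCompact (tsupport η) := hη.cpt
  -- the right hand sides converge
  have hR : Tendsto (fun k => ∫ z, uk k z * DA A η z) atTop (𝓝 (∫ z, u z * DA A η z)) := by
    obtain ⟨C, hC⟩ := (DA_cont75 hη.c275 A).bounded_above_of_compact_support
      (hη.cpt.mono' (subset_trans (subset_tsupport _) (DA_supp75 η A)))
    have hC0 : 0 ≤ C := (norm_nonneg _).trans (hC 0)
    rw [tendsto_iff_norm_sub_tendsto_zero]
    refine squeeze_zero (fun _ => norm_nonneg _) (fun k => ?_)
      (by simpa using (hlim _ hη.sub hK).const_mul C)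
    rw [← integral_sub (hη.intDA75 (h k).int A) (hη.intDA75 hu A)]
    have hd : IntegrableOn (fun z => |uk k z - u z|) (tsupport η) :=
      (((h k).int.sub hu).integrableOn_compact_subset hη.sub hK).abs
    have hd2 : Integrable ((tsupport η).indicator fun z => C * |uk k z - u z|) :=
      IntegrableOn.integrable_indicator (hd.const_mul C) (isClosed_tsupport η).measurableSet
    calc ‖∫ z, (uk k z * DA A η z - u z * DA A η z)‖
        ≤ ∫ z, (tsupport η).indicator (fun z => C * |uk k z - u z|) z := by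
          apply norm_integral_le_of_norm_le hd2
          refine Eventually.of_forall fun z => ?_
          by_cases hz : z ∈ tsupport η
          · rw [indicator_of_mem hz, ← sub_mul, norm_mul, mul_comm, Real.norm_eq_abs (uk k z - u z)]
            exact mul_le_mul_of_nonneg_right (hC z) (abs_nonneg _)
          · rw [indicator_of_notMem hz, DA_zero75 hz]
            simp
      _ = C * ∫ z in tsupport η, |uk k z - u z| := by
          rw [integral_indicator (isClosed_tsupport η).measurableSet, integral_const_mul]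
  have hI0 : ∀ k, 0 ≤ ∫ z, Fk k z * η z := fun k => by
    apply integral_nonneg
    intro z
    by_cases hz : z ∈ Ω
    · exact mul_nonneg ((h k).nonneg z hz) (hη.nonneg z)
    · simp only [hη.zero75 hz, mul_zero]
      exact le_rfl
  have hR0 : 0 ≤ ∫ z, u z * DA A η z :=
    ge_of_tendsto' hR fun k => (mul_nonneg (cnn75 A) (hI0 k)).trans ((h k).ineq A η hη)
  rcases (cnn75 A).eq_or_lt with hc | hc
  · rw [← hc, zero_mul]
    exact hR0
  -- Fatou
  set c := (n : ℝ) * ‖A.det‖ ^ ((2 : ℝ) / n) with hcdef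
  have hFn : 0 ≤ᵐ[volume] fun z => F z * η z := by
    refine Eventually.of_forall fun z => ?_
    by_cases hz : z ∈ Ω
    · exact mul_nonneg (h0 z hz) (hη.nonneg z)
    · simp only [hη.zero75 hz, mul_zero, Pi.zero_apply, le_refl]
  have hFkn : ∀ k, 0 ≤ᵐ[volume] fun z => Fk k z * η z := fun k => by
    refine Eventually.of_forall fun z => ?_
    by_cases hz : z ∈ Ω
    · exact mul_nonneg ((h k).nonneg z hz) (hη.nonneg z)
    · simp only [hη.zero75 hz, mul_zero, Pi.zero_apply, le_refl]
  have key : ENNReal.ofReal (∫ z, F z * η z) ≤ ENNReal.ofReal ((∫ z, u z * DA A η z) / c) := by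
    rw [ofReal_integral_eq_lintegral_ofReal (hη.intF75 hF) hFn]
    calc ∫⁻ z, ENNReal.ofReal (F z * η z)
        ≤ ∫⁻ z, liminf (fun k => ENNReal.ofReal (Fk k z * η z)) atTop := by
          apply lintegral_mono_ae
          filter_upwards [hFlim] with z hz
          by_cases hzΩ : z ∈ Ω
          · obtain ⟨L, hL, hT⟩ := hz hzΩ
            have h1 : Tendsto (fun k => ENNReal.ofReal (Fk k z * η z)) atTop
                (𝓝 (ENNReal.ofReal (L * η z))) :=
              ENNReal.tendsto_ofReal (hT.mul_const _)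
            rw [h1.liminf_eq]
            exact ENNReal.ofReal_le_ofReal (mul_le_mul_of_nonneg_right hL (hη.nonneg z))
          · rw [hη.zero75 hzΩ, mul_zero, ENNReal.ofReal_zero]
            exact zero_le
      _ ≤ liminf (fun k => ∫⁻ z, ENNReal.ofReal (Fk k z * η z)) atTop :=
          lintegral_liminf_le' fun k =>
            (hη.intF75 (h k).intF).aestronglyMeasurable.aemeasurable.ennreal_ofReal
      _ = liminf (fun k => ENNReal.ofReal (∫ z, Fk k z * η z)) atTop := by
          congr 1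
          funext k
          rw [ofReal_integral_eq_lintegral_ofReal (hη.intF75 (h k).intF) (hFkn k)]
      _ ≤ liminf (fun k => ENNReal.ofReal ((∫ z, uk k z * DA A η z) / c)) atTop := by
          refine liminf_le_liminf (Eventually.of_forall fun k => ?_)
          apply ENNReal.ofReal_le_ofReal
          rw [le_div_iff₀ hc, mul_comm]
          exact (h k).ineq A η hη
      _ = ENNReal.ofReal ((∫ z, u z * DA A η z) / c) :=
          (ENNReal.tendsto_ofReal (hR.div_const c)).liminf_eq
  rw [ENNReal.ofReal_le_ofReal_iff (div_nonneg hR0 hc.le), le_div_iff₀ hc] at key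
  rw [mul_comm]
  exact key

end Pool.Agent.Helper29.AM
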