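import Pool.Agent.Helper29.AM.GS2

/-!
# Block AM-KL1a: the penalties (V1), (V2)

`G(z,x) = Φ_u(z, δe^x) + P(x)`, `P ∈ {P1 c, P2 c}`, `x < log 2`, `z ∈ shr Ω (2δ)`, `u ∈ PSHd Ω`.
`x ↦ Φ_u(z,δe^x)` is smooth, convex and nondecreasing (`contDiffOn_Phi`, `convexOn_Phi`,
`Phi_mono_radius`), `P'' > 0`, `P'(x) > 0` for `x > 0`, `P(x) → ∞` as `x → -∞`. So a minimiser is unique,
`≤ 0`, characterised by `∂_x G = 0`. Smooth dependence: inverse function theorem for
`(z,x) ↦ (z, ∂_x G(z,x))` (`∂_x² G > 0`); near `z₀` the zero of `∂_xG(z,·)` is the minimiser by convexity.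
-/

set_option autoImplicit false

namespace Pool.Agent.Helper29.AM

open MeasureTheory Set Filter Topology
open scoped ComplexOrder

variable {n : ℕ} {Ω : Set (V n)} {u : V n → ℝ} {P : ℝ → ℝ} {c δ : ℝ}

/-- the two penalties -/
def IsPen (P : ℝ → ℝ) (c : ℝ) : Prop := P = P1 c ∨ P = P2 c

private theorem hasDerivAt_P1 (c x : ℝ) : HasDerivAt (P1 c) (-c + c * Real.exp x) x := by
  have h1 : HasDerivAt (fun x : ℝ => -c * x) (-c * 1) x := (hasDerivAt_id x).const_mul (-c)
  have h2 : HasDerivAt (fun x : ℝ => c * Real.exp x) (c * Real.exp x) x := (Real.hasDerivAt_exp x).const_mul c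
  have h3 := h1.add h2
  rw [mul_one] at h3
  exact h3

private theorem hasDerivAt_sq {x : ℝ} (hx : x < 1) :
    HasDerivAt (fun x : ℝ => Real.sqrt (1 - x)) (-1 / (2 * Real.sqrt (1 - x))) x := by
  have h1 : HasDerivAt (fun x : ℝ => 1 - x) (-1) x := by
    simpa using (hasDerivAt_id x).const_sub 1
  exact h1.sqrt (by linarith)

private theorem hasDerivAt_P2 (c : ℝ) {x : ℝ} (hx : x < 1) :
    HasDerivAt (P2 c) (-c + c * Real.exp x + c / 2 * (Real.sqrt (1 - x))⁻¹) x := by
  have h1 := (hasDerivAt_P1 c x).sub ((hasDerivAt_sq hx).const_mul c)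
  have h2 : -c + c * Real.exp x - c * (-1 / (2 * Real.sqrt (1 - x))) =
      -c + c * Real.exp x + c / 2 * (Real.sqrt (1 - x))⁻¹ := by
    have : 0 < Real.sqrt (1 - x) := Real.sqrt_pos.mpr (by linarith)
    field_simp
    ring
  rw [h2] at h1
  exact h1

private theorem hasDerivAt_P1' (c x : ℝ) :
    HasDerivAt (fun x : ℝ => -c + c * Real.exp x) (c * Real.exp x) x :=
  ((Real.hasDerivAt_exp x).const_mul c).const_add (-c)

private theorem hasDerivAt_P2' (c : ℝ) {x : ℝ} (hx : x < 1) :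
    HasDerivAt (fun x : ℝ => -c + c * Real.exp x + c / 2 * (Real.sqrt (1 - x))⁻¹)
      (c * Real.exp x + c / 2 * (-(-1 / (2 * Real.sqrt (1 - x))) / Real.sqrt (1 - x) ^ 2)) x := by
  have hs : 0 < Real.sqrt (1 - x) := Real.sqrt_pos.mpr (by linarith)
  exact (hasDerivAt_P1' c x).add (((hasDerivAt_sq hx).inv hs.ne').const_mul (c / 2))

private theorem sqrt_le_half {x : ℝ} (hx : x < 1) : Real.sqrt (1 - x) ≤ 1 - x / 2 := by
  rw [Real.sqrt_le_left (by linarith)]
  nlinarith [sq_nonneg x]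

private theorem P2_ge (hc : 0 < c) {x : ℝ} (hx : x < 1) : c * (Real.exp x - x / 2 - 1) ≤ P2 c x := by
  have h1 := sqrt_le_half hx
  have h2 : P2 c x = c * (Real.exp x - x - Real.sqrt (1 - x)) := by
    unfold P2
    ring
  rw [h2]
  exact mul_le_mul_of_nonneg_left (by linarith) hc.le

theorem IsPen.contDiffOn (h : IsPen P c) : ContDiffOn ℝ (⊤ : ℕ∞) P (Iio 1) := by
  have h1 : ContDiff ℝ (⊤ : ℕ∞) (P1 c) := by
    unfold P1
    exact (contDiff_const.mul contDiff_id).add (contDiff_const.mul Real.contDiff_exp)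
  rcases h with rfl | rfl
  · exact h1.contDiffOn
  · have h2 : ContDiffOn ℝ (⊤ : ℕ∞) (fun x : ℝ => Real.sqrt (1 - x)) (Iio 1) := by
      refine ContDiffOn.sqrt (contDiff_const.sub contDiff_id).contDiffOn fun x hx => ?_
      have : x < 1 := hx
      exact (sub_pos.mpr this).ne'
    exact h1.contDiffOn.sub (contDiffOn_const.mul h2)

theorem IsPen.deriv2_pos (h : IsPen P c) (hc : 0 < c) {x : ℝ} (hx : x < 1) :
    0 < deriv (deriv P) x := by
  have he := Real.exp_pos x
  rcases h with rfl | rfl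
  · have h1 : deriv (P1 c) = fun x : ℝ => -c + c * Real.exp x := funext fun y => (hasDerivAt_P1 c y).deriv
    rw [h1, (hasDerivAt_P1' c x).deriv]
    positivity
  · have h1 : deriv (P2 c) =ᶠ[𝓝 x] fun x : ℝ => -c + c * Real.exp x + c / 2 * (Real.sqrt (1 - x))⁻¹ := by
      filter_upwards [isOpen_Iio.mem_nhds (show x ∈ Iio (1 : ℝ) from hx)] with y hy
      exact (hasDerivAt_P2 c hy).deriv
    rw [h1.deriv_eq, (hasDerivAt_P2' c hx).deriv]
    have hs : 0 < Real.sqrt (1 - x) := Real.sqrt_pos.mpr (by linarith)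
    have h2 : -(-1 / (2 * Real.sqrt (1 - x))) / Real.sqrt (1 - x) ^ 2 =
        1 / (2 * Real.sqrt (1 - x) * Real.sqrt (1 - x) ^ 2) := by
      field_simp
      try ring
    rw [h2]
    positivity

theorem IsPen.deriv_pos (h : IsPen P c) (hc : 0 < c) {x : ℝ} (hx : x < 1) (hx0 : 0 < x) :
    0 < deriv P x := by
  have he : 1 < Real.exp x := Real.one_lt_exp_iff.mpr hx0
  have h0 : 0 < -c + c * Real.exp x := by nlinarith
  rcases h with rfl | rfl
  · rw [(hasDerivAt_P1 c x).deriv]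
    exact h0
  · rw [(hasDerivAt_P2 c hx).deriv]
    have hs : 0 < Real.sqrt (1 - x) := Real.sqrt_pos.mpr (by linarith)
    have h1 : 0 < c / 2 * (Real.sqrt (1 - x))⁻¹ := by positivity
    linarith

theorem IsPen.deriv_nonneg (h : IsPen P c) (hc : 0 < c) : 0 ≤ deriv P 0 := by
  rcases h with rfl | rfl
  · rw [(hasDerivAt_P1 c 0).deriv, Real.exp_zero]
    linarith
  · rw [(hasDerivAt_P2 c zero_lt_one).deriv, Real.exp_zero]
    have h1 : 0 ≤ c / 2 * (Real.sqrt (1 - 0))⁻¹ := by positivity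
    linarith

theorem P1_ge (hc : 0 < c) (x : ℝ) : c ≤ P1 c x ∧ -c * x ≤ P1 c x := by
  have h1 := Real.add_one_le_exp x
  have h2 := Real.exp_pos x
  unfold P1
  constructor <;> nlinarith

theorem IsPen.ge (h : IsPen P c) (hc : 0 < c) {x : ℝ} (hx : x < 1) : -c ≤ P x := by
  rcases h with rfl | rfl
  · linarith [(P1_ge hc x).1]
  · refine le_trans ?_ (P2_ge hc hx)
    have h1 : 0 ≤ Real.exp x - x / 2 := by
      have h2 := Real.add_one_le_exp x
      have h3 := Real.exp_pos x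
      rcases le_or_gt 0 x with h4 | h4 <;> linarith
    nlinarith

theorem IsPen.tendsto (h : IsPen P c) (hc : 0 < c) : Tendsto P atBot atTop := by
  rcases h with rfl | rfl
  · refine tendsto_atTop_mono (fun x => (P1_ge hc x).2) ?_
    exact tendsto_id.const_mul_atBot_of_neg (neg_lt_zero.mpr hc)
  · have h1 : Tendsto (fun x : ℝ => -(c / 2) * x + -c) atBot atTop :=
      tendsto_atTop_add_const_right _ _ (tendsto_id.const_mul_atBot_of_neg (by linarith))
    refine tendsto_atTop_mono' _ ?_ h1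
    filter_upwards [Iio_mem_atBot (1 : ℝ)] with x hx
    refine le_trans ?_ (P2_ge hc hx)
    have := Real.exp_pos x
    nlinarith

/-- the infimum is attained at `x` -/
def IsMn (u : V n → ℝ) (P : ℝ → ℝ) (δ : ℝ) (z : V n) (x : ℝ) : Prop :=
  x < Real.log 2 ∧ ∀ y < Real.log 2, GG u P δ z x ≤ GG u P δ z y

end Pool.Agent.Helper29.AM
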