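import Pool.Agent.Helper29.AM.KL1a

/-!
# Block AM-KL1b: minimisers of the Kiselev-Legendre functional (3.0)

`G(z,x) = Φ_u(z, δe^x) + P(x)`, `P ∈ {P1 c, P2 c}`, `x < log 2`, `z ∈ shr Ω (2δ)`, `u ∈ PSHd Ω`.
`x ↦ Φ_u(z,δe^x)` is smooth, convex and nondecreasing (`contDiffOn_Phi`, `convexOn_Phi`,
`Phi_mono_radius`), `P'' > 0`, `P'(x) > 0` for `x > 0`, `P(x) → ∞` as `x → -∞`. So a minimiser is unique,
`≤ 0`, characterised by `∂_x G = 0`. Smooth dependence: inverse function theorem for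
`(z,x) ↦ (z, ∂_x G(z,x))` (`∂_x² G > 0`); near `z₀` the zero of `∂_xG(z,·)` is the minimiser by convexity.
-/

set_option autoImplicit false

namespace Pool.Agent.Helper29.AM

open MeasureTheory Set Filter Topology
open scoped ComplexOrder

variable {n : ℕ} {Ω : Set (V n)} {u : V n → ℝ} {P : ℝ → ℝ} {c δ : ℝ}

private theorem log2_50 : Real.log 2 < 1 := by
  have := Real.log_two_lt_d9
  linarith

private theorem log2pos_50 : 0 < Real.log 2 := Real.log_pos (by norm_num)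

private theorem shr_mono50 {r s : ℝ} (h : s ≤ r) {z : V n} (hz : z ∈ shr Ω r) : z ∈ shr Ω s :=
  (Metric.closedBall_subset_closedBall h).trans hz

private theorem rad50 (hδ : 0 < δ) {x : ℝ} (hx : x < Real.log 2) : δ * Real.exp x < 2 * δ := by
  have h1 : Real.exp x < 2 := by
    have := Real.exp_lt_exp.2 hx
    rwa [Real.exp_log (by norm_num)] at this
  nlinarith

private theorem cdPhi50 (hΩ : IsOpen Ω) (hu : LocallyIntegrableOn u Ω volume) (hδ : 0 < δ) :
    ContDiffOn ℝ (⊤ : ℕ∞) (fun p : V n × ℝ => Phi u p.1 (δ * Real.exp p.2))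
      {p | p.1 ∈ shr Ω (2 * δ) ∧ p.2 < Real.log 2} := by
  have h1 : ContDiff ℝ (⊤ : ℕ∞) fun p : V n × ℝ => (p.1, δ * Real.exp p.2) :=
    contDiff_fst.prodMk (contDiff_const.mul (Real.contDiff_exp.comp contDiff_snd))
  refine (contDiffOn_Phi hΩ hu).comp h1.contDiffOn fun p hp => ?_
  exact ⟨by positivity, shr_mono50 (rad50 hδ hp.2).le hp.1⟩

private theorem cdP50 (h : IsPen P c) : ContDiffOn ℝ (⊤ : ℕ∞) (fun p : V n × ℝ => P p.2)
    {p | p.1 ∈ shr Ω (2 * δ) ∧ p.2 < Real.log 2} :=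
  h.contDiffOn.comp contDiff_snd.contDiffOn fun _ hp => lt_trans hp.2 log2_50

private theorem cdphi50 (hΩ : IsOpen Ω) (hu : LocallyIntegrableOn u Ω volume) (hδ : 0 < δ) {z : V n} (hz : z ∈ shr Ω (2 * δ)) :
    ContDiffOn ℝ (⊤ : ℕ∞) (fun x : ℝ => Phi u z (δ * Real.exp x)) (Iio (Real.log 2)) := by
  have h1 : ContDiff ℝ (⊤ : ℕ∞) fun x : ℝ => (z, x) := contDiff_const.prodMk contDiff_id
  exact (cdPhi50 hΩ hu hδ).comp h1.contDiffOn fun x hx => ⟨hz, hx⟩

private theorem cvphi50 (hΩ : IsOpen Ω) (hu : PSHd Ω u) (hδ : 0 < δ) {z : V n} (hz : z ∈ shr Ω (2 * δ)) :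
    ConvexOn ℝ (Iio (Real.log 2)) (fun x : ℝ => Phi u z (δ * Real.exp x)) := by
  have h1 := convexOn_Phi hΩ hu z (b := Real.log (2 * δ)) (by rwa [Real.exp_log (by positivity)])
  have h2 := h1.translate_right (Real.log δ)
  have h3 : (fun x => Phi u z (Real.exp x)) ∘ (fun x => Real.log δ + x) = fun x : ℝ => Phi u z (δ * Real.exp x) := by
    funext x
    simp only [Function.comp]
    rw [Real.exp_add, Real.exp_log hδ]
  rw [h3] at h2
  refine h2.subset (fun x hx => ?_) (convex_Iio _)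
  have hx' : x < Real.log 2 := hx
  show Real.log δ + x ≤ Real.log (2 * δ)
  rw [Real.log_mul (by norm_num) hδ.ne']
  linarith

private theorem mophi50 (hΩ : IsOpen Ω) (hu : PSHd Ω u) (hδ : 0 < δ) {z : V n} (hz : z ∈ shr Ω (2 * δ)) {x y : ℝ}
    (hxy : x ≤ y) (hy : y < Real.log 2) : Phi u z (δ * Real.exp x) ≤ Phi u z (δ * Real.exp y) :=
  Phi_mono_radius hΩ hu (by positivity) (mul_le_mul_of_nonneg_left (Real.exp_le_exp.2 hxy) hδ.le)
    (shr_mono50 (rad50 hδ hy).le hz)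

private theorem moP50 (h : IsPen P c) (hc : 0 < c) {x : ℝ} (hx : 0 < x) (hx1 : x < 1) : P 0 < P x := by
  have h1 : StrictMonoOn P (Icc 0 x) := by
    refine strictMonoOn_of_deriv_pos (convex_Icc _ _) (h.contDiffOn.continuousOn.mono fun y hy => lt_of_le_of_lt hy.2 hx1) fun y hy => ?_
    rw [interior_Icc] at hy
    exact h.deriv_pos hc (hy.2.trans hx1) hy.1
  exact h1 ⟨le_rfl, hx.le⟩ ⟨hx.le, le_rfl⟩ hx

private theorem zero_le50 (hΩ : IsOpen Ω) (hu : PSHd Ω u) (h : IsPen P c) (hc : 0 < c) (hδ : 0 < δ) {z : V n}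
    (hz : z ∈ shr Ω (2 * δ)) {x : ℝ} (hx : 0 ≤ x) (hx1 : x < Real.log 2) : GG u P δ z 0 ≤ GG u P δ z x := by
  have h1 := mophi50 hΩ hu hδ hz hx hx1
  unfold GG
  rcases hx.lt_or_eq with h2 | h2
  · linarith [moP50 h hc h2 (hx1.trans log2_50)]
  · rw [← h2]

private theorem exmin50 (hΩ : IsOpen Ω) (hu : PSHd Ω u) (h : IsPen P c) (hc : 0 < c) (hδ : 0 < δ) {z : V n}
    (hz : z ∈ shr Ω (2 * δ)) (hR : ∀ᶠ x in atBot, GG u P δ z 0 ≤ GG u P δ z x) : ∃ x, IsMn u P δ z x := by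
  obtain ⟨R, hR⟩ := eventually_atBot.1 hR
  have hcont : ContinuousOn (GG u P δ z) (Icc (min R 0) 0) := by
    refine ContinuousOn.add ((cdphi50 hΩ hu.int hδ hz).continuousOn.mono fun x hx => lt_of_le_of_lt hx.2 log2pos_50) ?_
    exact h.contDiffOn.continuousOn.mono fun x hx => lt_of_le_of_lt hx.2 one_pos
  obtain ⟨x, hx, hmin⟩ := isCompact_Icc.exists_isMinOn ⟨0, min_le_right _ _, le_rfl⟩ hcont
  have h0 : GG u P δ z x ≤ GG u P δ z 0 := hmin ⟨min_le_right _ _, le_rfl⟩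
  refine ⟨x, lt_of_le_of_lt hx.2 log2pos_50, fun y hy => ?_⟩
  rcases le_or_gt y (min R 0) with h1 | h1
  · exact h0.trans (hR y (h1.trans (min_le_left _ _)))
  · rcases le_or_gt y 0 with h2 | h2
    · exact hmin ⟨h1.le, h2⟩
    · exact h0.trans (zero_le50 hΩ hu h hc hδ hz h2.le hy)

theorem contDiffOn_GG (hΩ : IsOpen Ω) (hu : LocallyIntegrableOn u Ω volume) (h : IsPen P c)
    (hδ : 0 < δ) : ContDiffOn ℝ (⊤ : ℕ∞) (fun p : V n × ℝ => GG u P δ p.1 p.2)
      {p | p.1 ∈ shr Ω (2 * δ) ∧ p.2 < Real.log 2} := by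
  exact (cdPhi50 hΩ hu hδ).add (cdP50 h)

theorem strictConvexOn_GG (hΩ : IsOpen Ω) (hu : PSHd Ω u) (h : IsPen P c) (hc : 0 < c)
    (hδ : 0 < δ) {z : V n} (hz : z ∈ shr Ω (2 * δ)) :
    StrictConvexOn ℝ (Iio (Real.log 2)) (GG u P δ z) := by
  have h1 : StrictConvexOn ℝ (Iio (Real.log 2)) P := by
    refine strictConvexOn_of_deriv2_pos (convex_Iio _) (h.contDiffOn.continuousOn.mono fun x hx => lt_trans hx log2_50) fun x hx => ?_
    rw [interior_Iio] at hx
    exact h.deriv2_pos hc (lt_trans hx log2_50)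
  exact (cvphi50 hΩ hu hδ hz).add_strictConvexOn h1

theorem IsMn.unique (hΩ : IsOpen Ω) (hu : PSHd Ω u) (h : IsPen P c) (hc : 0 < c)
    (hδ : 0 < δ) {z : V n} (hz : z ∈ shr Ω (2 * δ)) {x x' : ℝ} (hx : IsMn u P δ z x)
    (hx' : IsMn u P δ z x') : x = x' := by
  exact (strictConvexOn_GG hΩ hu h hc hδ hz).eq_of_isMinOn (fun y hy => hx.2 y hy) (fun y hy => hx'.2 y hy) hx.1 hx'.1

theorem IsMn.nonpos (hΩ : IsOpen Ω) (hu : PSHd Ω u) (h : IsPen P c) (hc : 0 < c)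
    (hδ : 0 < δ) {z : V n} (hz : z ∈ shr Ω (2 * δ)) {x : ℝ} (hx : IsMn u P δ z x) : x ≤ 0 := by
  by_contra hcon
  rw [not_le] at hcon
  have h1 := hx.2 0 log2pos_50
  have h2 := mophi50 hΩ hu hδ hz hcon.le hx.1
  have h3 := moP50 h hc hcon (hx.1.trans log2_50)
  unfold GG at h1
  linarith

theorem IsMn.WW_eq {z : V n} {x : ℝ} (hx : IsMn u P δ z x) : WW u P δ z = GG u P δ z x := by
  have : Nonempty (Iio (Real.log 2)) := ⟨⟨x, hx.1⟩⟩
  refine le_antisymm ?_ (le_ciInf fun y => hx.2 y y.2)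
  exact ciInf_le ⟨GG u P δ z x, by
    rintro _ ⟨y, rfl⟩
    exact hx.2 y y.2⟩ (⟨x, hx.1⟩ : Iio (Real.log 2))

/-- attained as soon as the means are bounded below -/
theorem exists_IsMn_of_bdd (hΩ : IsOpen Ω) (hu : PSHd Ω u) (h : IsPen P c) (hc : 0 < c)
    (hδ : 0 < δ) {z : V n} (hz : z ∈ shr Ω (2 * δ)) {m : ℝ}
    (hm : ∀ t, 0 < t → t ≤ δ → m ≤ Phi u z t) : ∃ x, IsMn u P δ z x := by
  refine exmin50 hΩ hu h hc hδ hz ?_
  filter_upwards [(h.tendsto hc).eventually_ge_atTop (GG u P δ z 0 - m), eventually_le_atBot (0 : ℝ)] with x hx hx0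
  have h1 := hm (δ * Real.exp x) (by positivity) (by nlinarith [Real.exp_le_one_iff.2 hx0])
  unfold GG at hx ⊢
  linarith

/-- for the penalty (V2) the infimum is attained as soon as it is not `-∞` -/
theorem exists_IsMn_P2 (hΩ : IsOpen Ω) (hu : PSHd Ω u) (hc : 0 < c)
    (hδ : 0 < δ) {z : V n} (hz : z ∈ shr Ω (2 * δ)) {m : ℝ}
    (hm : ∀ x < Real.log 2, m ≤ GG u (P2 c) δ z x) : ∃ x, IsMn u (P2 c) δ z x := by
  have h : IsPen (P2 c) c := Or.inr rfl
  have hcv := cvphi50 hΩ hu hδ hz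
  set φ : ℝ → ℝ := fun x => Phi u z (δ * Real.exp x) with hφ
  have hG : ∀ x, GG u (P2 c) δ z x = φ x + (-c * x + c * Real.exp x - c * Real.sqrt (1 - x)) := fun x => rfl
  by_cases hA : ∃ y < 0, φ 0 - φ y < c * (0 - y)
  · obtain ⟨y, hy, hA⟩ := hA
    have hy0 : 0 < 0 - y := by linarith
    set s := (φ 0 - φ y) / (0 - y) with hs
    have hsc : s < c := by rwa [hs, div_lt_iff₀ hy0]
    have hlow : ∀ x < y, φ y - s * (y - x) ≤ φ x := by
      intro x hx
      have h1 := hcv.slope_mono_adjacent (x := x) (y := y) (z := 0) (hx.trans (hy.trans log2pos_50)) log2pos_50 hx hy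
      rw [← hs, div_le_iff₀ (by linarith)] at h1
      linarith
    refine exmin50 hΩ hu h hc hδ hz ?_
    -- `(c - s) (-x) - c sqrt (1 - x) → ∞`
    have hev : ∀ᶠ x in atBot, (GG u (P2 c) δ z 0 - φ y + s * y) + c * Real.sqrt (1 - x) ≤ (c - s) * (-x) := by
      set K := GG u (P2 c) δ z 0 - φ y + s * y with hK
      have hcs : 0 < c - s := by linarith
      have h1 : Tendsto (fun x : ℝ => Real.sqrt (1 - x)) atBot atTop :=
        Real.tendsto_sqrt_atTop.comp (tendsto_atTop_add_const_left _ 1 tendsto_neg_atBot_atTop)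
      filter_upwards [h1.eventually_ge_atTop ((|K| + c + (c - s) + 1) / (c - s)), h1.eventually_ge_atTop 1, eventually_le_atBot (0 : ℝ)] with x hx1 hx2 hx0
      have h2 : Real.sqrt (1 - x) ^ 2 = 1 - x := Real.sq_sqrt (by linarith)
      set r := Real.sqrt (1 - x) with hr
      rw [div_le_iff₀ hcs] at hx1
      have h3 : -x = r ^ 2 - 1 := by linarith
      rw [h3]
      have h4 : (|K| + c + (c - s) + 1) * r ≤ (r * (c - s)) * r := mul_le_mul_of_nonneg_right hx1 (by linarith)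
      have h5 : K ≤ |K| := le_abs_self K
      have h6 : |K| * 1 ≤ |K| * r := mul_le_mul_of_nonneg_left hx2 (abs_nonneg _)
      nlinarith
    filter_upwards [hev, eventually_lt_atBot y] with x hx hxy
    have h1 := hlow x hxy
    rw [hG x]
    have h2 := Real.exp_pos x
    nlinarith
  · exfalso
    push Not at hA
    have h1 : Tendsto (fun x : ℝ => Real.sqrt (1 - x)) atBot atTop :=
      Real.tendsto_sqrt_atTop.comp (tendsto_atTop_add_const_left _ 1 tendsto_neg_atBot_atTop)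
    have h2 := (h1.eventually_gt_atTop ((φ 0 + c - m) / c)).and (eventually_lt_atBot (0 : ℝ))
    obtain ⟨y, hy1, hy2⟩ := h2.exists
    rw [div_lt_iff₀ hc] at hy1
    have h3 := hA y hy2
    have h4 := hm y (hy2.trans log2pos_50)
    rw [hG y] at h4
    have h5 : Real.exp y ≤ 1 := Real.exp_le_one_iff.2 hy2.le
    nlinarith

/-- critical point equation -/
theorem IsMn.deriv_eq (hΩ : IsOpen Ω) (hu : LocallyIntegrableOn u Ω volume) (h : IsPen P c)
    (hδ : 0 < δ) {z : V n} (hz : z ∈ shr Ω (2 * δ)) {x : ℝ} (hx : IsMn u P δ z x) :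
    deriv (fun y => Phi u z (δ * Real.exp y)) x + deriv P x = 0 := by
  have hd1 : DifferentiableAt ℝ (fun y => Phi u z (δ * Real.exp y)) x :=
    ((cdphi50 hΩ hu hδ hz).contDiffAt (isOpen_Iio.mem_nhds hx.1)).differentiableAt (by simp)
  have hd2 : DifferentiableAt ℝ P x :=
    (h.contDiffOn.contDiffAt (isOpen_Iio.mem_nhds (hx.1.trans log2_50))).differentiableAt (by simp)
  have hmin : IsLocalMin (fun y => Phi u z (δ * Real.exp y) + P y) x := by
    filter_upwards [isOpen_Iio.mem_nhds hx.1] with y hy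
    exact hx.2 y hy
  have h1 := hmin.deriv_eq_zero
  rwa [deriv_fun_add hd1 hd2] at h1

end Pool.Agent.Helper29.AM
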