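import Pool.Agent.Helper29.AM.KL1b

/-!
# Block AM-KL1c: smooth dependence (3.1)

`G(z,x) = Φ_u(z, δe^x) + P(x)`, `P ∈ {P1 c, P2 c}`, `x < log 2`, `z ∈ shr Ω (2δ)`, `u ∈ PSHd Ω`.
`x ↦ Φ_u(z,δe^x)` is smooth, convex and nondecreasing (`contDiffOn_Phi`, `convexOn_Phi`,
`Phi_mono_radius`), `P'' > 0`, `P'(x) > 0` for `x > 0`, `P(x) → ∞` as `x → -∞`. So a minimiser is unique,
`≤ 0`, characterised by `∂_x G = 0`. Smooth dependence: inverse function theorem for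
`(z,x) ↦ (z, ∂_x G(z,x))` (`∂_x² G > 0`); near `z₀` the zero of `∂_xG(z,·)` is the minimiser by convexity.
-/

set_option autoImplicit false

namespace Pool.Agent.Helper29.AM

open MeasureTheory Set Filter Topology
open scoped ComplexOrder

variable {n : ℕ} {Ω : Set (V n)} {u : V n → ℝ} {P : ℝ → ℝ} {c δ : ℝ}

/-- the domain of `G` -/
private def dom_h5 (Ω : Set (V n)) (δ : ℝ) : Set (V n × ℝ) :=
  {p | p.1 ∈ shr Ω (2 * δ) ∧ p.2 < Real.log 2}

private theorem isOpen_dom_h5 (hΩ : IsOpen Ω) (δ : ℝ) : IsOpen (dom_h5 Ω δ) :=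
  ((isOpen_shr hΩ (2 * δ)).preimage continuous_fst).inter (isOpen_Iio.preimage continuous_snd)

/-- `∂_x G` -/
private noncomputable def gx_h5 (u : V n → ℝ) (P : ℝ → ℝ) (δ : ℝ) (p : V n × ℝ) : ℝ :=
  fderiv ℝ (fun p : V n × ℝ => GG u P δ p.1 p.2) p (0, 1)

private theorem cdG_h5 (hΩ : IsOpen Ω) (hu : PSHd Ω u) (h : IsPen P c) (hδ : 0 < δ) {p : V n × ℝ}
    (hp : p ∈ dom_h5 Ω δ) :
    ContDiffAt ℝ (⊤ : ℕ∞) (fun p : V n × ℝ => GG u P δ p.1 p.2) p :=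
  (contDiffOn_GG hΩ hu.int h hδ).contDiffAt ((isOpen_dom_h5 hΩ δ).mem_nhds hp)

private theorem cdgx_h5 (hΩ : IsOpen Ω) (hu : PSHd Ω u) (h : IsPen P c) (hδ : 0 < δ) {p : V n × ℝ}
    (hp : p ∈ dom_h5 Ω δ) : ContDiffAt ℝ (⊤ : ℕ∞) (gx_h5 u P δ) p := by
  have h1 := (cdG_h5 hΩ hu h hδ hp).fderiv_right (m := (⊤ : ℕ∞)) (by simp)
  exact h1.clm_apply contDiffAt_const

private theorem hasDerivAt_snd_h5 {f : V n × ℝ → ℝ} {z : V n} {x : ℝ}
    (hf : DifferentiableAt ℝ f (z, x)) :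
    HasDerivAt (fun y => f (z, y)) (fderiv ℝ f (z, x) (0, 1)) x := by
  have h1 : HasDerivAt (fun y : ℝ => ((z, y) : V n × ℝ)) ((0, 1) : V n × ℝ) x :=
    (hasDerivAt_const x z).prodMk (hasDerivAt_id x)
  exact hf.hasFDerivAt.comp_hasDerivAt x h1

private theorem hasDerivAt_G_h5 (hΩ : IsOpen Ω) (hu : PSHd Ω u) (h : IsPen P c) (hδ : 0 < δ)
    {z : V n} {x : ℝ} (hp : (z, x) ∈ dom_h5 Ω δ) :
    HasDerivAt (GG u P δ z) (gx_h5 u P δ (z, x)) x :=
  hasDerivAt_snd_h5 ((cdG_h5 hΩ hu h hδ hp).differentiableAt (by simp))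

private theorem log2_h5 : Real.log 2 < 1 := by
  have := Real.log_two_lt_d9
  linarith

/-- the second derivative in `x` is positive -/
private theorem gxx_pos_h5 (hΩ : IsOpen Ω) (hu : PSHd Ω u) (h : IsPen P c) (hc : 0 < c)
    (hδ : 0 < δ) {z : V n} {x : ℝ} (hp : (z, x) ∈ dom_h5 Ω δ) :
    0 < fderiv ℝ (gx_h5 u P δ) (z, x) (0, 1) := by
  have hz : z ∈ shr Ω (2 * δ) := hp.1
  have hx : x < Real.log 2 := hp.2
  have hmem : ∀ y < Real.log 2, (z, y) ∈ dom_h5 Ω δ := fun y hy => ⟨hz, hy⟩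
  -- derivative of y ↦ gx(z,y)
  have h1 : HasDerivAt (fun y => gx_h5 u P δ (z, y)) (fderiv ℝ (gx_h5 u P δ) (z, x) (0, 1)) x :=
    hasDerivAt_snd_h5 ((cdgx_h5 hΩ hu h hδ hp).differentiableAt (by simp))
  -- derivative of P'
  have hP1 : ContDiffAt ℝ (⊤ : ℕ∞) P x :=
    h.contDiffOn.contDiffAt (isOpen_Iio.mem_nhds (hx.trans log2_h5))
  have hP2 : ContDiffAt ℝ (⊤ : ℕ∞) (deriv P) x := by
    have h3 := hP1.fderiv_right (m := (⊤ : ℕ∞)) (by simp)
    have h4 : ContDiffAt ℝ (⊤ : ℕ∞) (fun y => fderiv ℝ P y 1) x := h3.clm_apply contDiffAt_const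
    have h5 : (fun y => fderiv ℝ P y 1) = deriv P := by
      funext y; exact fderiv_apply_one_eq_deriv
    rwa [h5] at h4
  have h2 : HasDerivAt (deriv P) (deriv (deriv P) x) x :=
    (hP2.differentiableAt (by simp)).hasDerivAt
  have hpos := h.deriv2_pos hc (hx.trans log2_h5)
  -- gx - P' is the derivative of the convex function
  have hconv : ConvexOn ℝ (Iio (Real.log 2)) (fun y => GG u P δ z y - P y) := by
    have h3 := convexOn_Phi hΩ hu z (b := Real.log (2 * δ)) (by rwa [Real.exp_log (by positivity)])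
    have h4 := h3.translate_right (Real.log δ)
    have h5 : (fun x => Phi u z (Real.exp x)) ∘ (fun x => Real.log δ + x) =
        fun y => GG u P δ z y - P y := by
      funext y
      simp only [Function.comp, GG]
      rw [Real.exp_add, Real.exp_log hδ]
      ring
    rw [h5] at h4
    refine h4.subset (fun y hy => ?_) (convex_Iio _)
    have hy' : y < Real.log 2 := hy
    show Real.log δ + y ≤ Real.log (2 * δ)
    rw [Real.log_mul (by norm_num) hδ.ne']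
    linarith
  have hdif : ∀ y ∈ Iio (Real.log 2), HasDerivAt (fun y => GG u P δ z y - P y)
      (gx_h5 u P δ (z, y) - deriv P y) y := by
    intro y hy
    have h3 : DifferentiableAt ℝ P y :=
      (h.contDiffOn.contDiffAt (isOpen_Iio.mem_nhds (lt_trans hy log2_h5))).differentiableAt
        (by simp)
    exact (hasDerivAt_G_h5 hΩ hu h hδ (hmem y hy)).sub h3.hasDerivAt
  have hmono : MonotoneOn (fun y => gx_h5 u P δ (z, y) - deriv P y) (Iio (Real.log 2)) := by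
    have h3 := hconv.monotoneOn_deriv fun y hy => (hdif y hy).differentiableAt
    intro a ha b hb hab
    have h4 := h3 ha hb hab
    rwa [(hdif a ha).deriv, (hdif b hb).deriv] at h4
  have h6 : HasDerivAt (fun y => gx_h5 u P δ (z, y) - deriv P y)
      (fderiv ℝ (gx_h5 u P δ) (z, x) (0, 1) - deriv (deriv P) x) x := h1.sub h2
  have h7 : 0 ≤ fderiv ℝ (gx_h5 u P δ) (z, x) (0, 1) - deriv (deriv P) x := by
    refine HasDerivWithinAt.nonneg_of_monotoneOn (s := Iio (Real.log 2)) ?_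
      h6.hasDerivWithinAt hmono
    have h8 : AccPt x (𝓟 (univ : Set ℝ)) := PerfectSpace.univ_preperfect _ (mem_univ _)
    rw [accPt_principal_iff_nhdsWithin] at h8 ⊢
    have h9 : 𝓝[Iio (Real.log 2) \ {x}] x = 𝓝[univ \ {x}] x := by
      refine nhdsWithin_eq_nhdsWithin (s := Iio (Real.log 2)) hx isOpen_Iio ?_
      ext y
      constructor
      · rintro ⟨⟨_, h10⟩, h11⟩
        exact ⟨⟨mem_univ _, h10⟩, h11⟩
      · rintro ⟨⟨_, h10⟩, h11⟩
        exact ⟨⟨h11, h10⟩, h11⟩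
    rw [h9]; exact h8
  linarith

/-- critical points are minimisers -/
private theorem isMn_of_crit_h5 (hΩ : IsOpen Ω) (hu : PSHd Ω u) (h : IsPen P c) (hc : 0 < c)
    (hδ : 0 < δ) {z : V n} {x : ℝ} (hp : (z, x) ∈ dom_h5 Ω δ) (h0 : gx_h5 u P δ (z, x) = 0) :
    IsMn u P δ z x := by
  have hconv := (strictConvexOn_GG hΩ hu h hc hδ hp.1).convexOn
  have hd := hasDerivAt_G_h5 hΩ hu h hδ hp
  rw [h0] at hd
  have h1 : IsMinOn (GG u P δ z) (Iio (Real.log 2)) x := by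
    refine hconv.isMinOn_of_rightDeriv_eq_zero ?_ ?_
    · rw [interior_Iio]; exact hp.2
    · exact hd.hasDerivWithinAt.derivWithin (uniqueDiffWithinAt_Ioi x)
  exact ⟨hp.2, fun y hy => h1 hy⟩

/-- (3.1): smooth dependence -/
theorem IsMn.smooth (hΩ : IsOpen Ω) (hu : PSHd Ω u) (h : IsPen P c) (hc : 0 < c)
    (hδ : 0 < δ) {z₀ : V n} (hz : z₀ ∈ shr Ω (2 * δ)) {x₀ : ℝ} (hx : IsMn u P δ z₀ x₀) :
    ∃ X : V n → ℝ, ContDiffAt ℝ (⊤ : ℕ∞) X z₀ ∧ X z₀ = x₀ ∧ (∀ᶠ z in 𝓝 z₀, IsMn u P δ z (X z)) ∧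
      ContDiffAt ℝ (⊤ : ℕ∞) (WW u P δ) z₀ := by
  have hp : (z₀, x₀) ∈ dom_h5 Ω δ := ⟨hz, hx.1⟩
  have cdf := cdgx_h5 hΩ hu h hδ hp
  have hpos := gxx_pos_h5 hΩ hu h hc hδ hp
  have pn : ((⊤ : ℕ∞) : WithTop ℕ∞) ≠ 0 := by simp
  have hf0 : gx_h5 u P δ (z₀, x₀) = 0 := by
    have h1 := hasDerivAt_G_h5 hΩ hu h hδ hp
    have h2 : IsLocalMin (GG u P δ z₀) x₀ := by
      filter_upwards [isOpen_Iio.mem_nhds hx.1] with y hy
      exact hx.2 y hy
    exact h2.hasDerivAt_eq_zero h1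
  have if₂ : (fderiv ℝ (gx_h5 u P δ) (z₀, x₀) ∘L .inr ℝ (V n) ℝ).IsInvertible := by
    set a := fderiv ℝ (gx_h5 u P δ) (z₀, x₀) (0, 1) with ha
    have ha0 : a ≠ 0 := hpos.ne'
    refine ⟨ContinuousLinearEquiv.unitsEquivAut ℝ (Units.mk0 a ha0), ?_⟩
    ext
    simp [ha]
  refine ⟨cdf.implicitFunction pn if₂, cdf.contDiffAt_implicitFunction pn if₂,
    cdf.implicitFunction_apply_self pn if₂, ?_, ?_⟩
  · have h1 := cdf.eventually_apply_implicitFunction pn if₂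
    have h2 : ContinuousAt (cdf.implicitFunction pn if₂) z₀ :=
      (cdf.contDiffAt_implicitFunction pn if₂).continuousAt
    have h3 : ∀ᶠ z in 𝓝 z₀, cdf.implicitFunction pn if₂ z < Real.log 2 := by
      refine h2.eventually_lt_const ?_
      have := cdf.implicitFunction_apply_self pn if₂
      simp only at this
      rw [this]; exact hx.1
    filter_upwards [h1, h3, (isOpen_shr hΩ (2 * δ)).mem_nhds hz] with z h4 h5 h6
    exact isMn_of_crit_h5 hΩ hu h hc hδ ⟨h6, h5⟩ (h4.trans hf0)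
  · have h1 := cdf.eventually_apply_implicitFunction pn if₂
    have hX := cdf.contDiffAt_implicitFunction pn if₂
    have h2 : ContinuousAt (cdf.implicitFunction pn if₂) z₀ := hX.continuousAt
    have hself : cdf.implicitFunction pn if₂ z₀ = x₀ := cdf.implicitFunction_apply_self pn if₂
    have h3 : ∀ᶠ z in 𝓝 z₀, cdf.implicitFunction pn if₂ z < Real.log 2 := by
      refine h2.eventually_lt_const ?_
      rw [hself]; exact hx.1
    have h7 : WW u P δ =ᶠ[𝓝 z₀] fun z => GG u P δ z (cdf.implicitFunction pn if₂ z) := by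
      filter_upwards [h1, h3, (isOpen_shr hΩ (2 * δ)).mem_nhds hz] with z h4 h5 h6
      exact (isMn_of_crit_h5 hΩ hu h hc hδ ⟨h6, h5⟩ (h4.trans hf0)).WW_eq
    refine ContDiffAt.congr_of_eventuallyEq ?_ h7
    have h8 : ContDiffAt ℝ (⊤ : ℕ∞) (fun z => (z, cdf.implicitFunction pn if₂ z)) z₀ :=
      contDiffAt_id.prodMk hX
    have h9 : ContDiffAt ℝ (⊤ : ℕ∞) (fun p : V n × ℝ => GG u P δ p.1 p.2)
        ((fun z => (z, cdf.implicitFunction pn if₂ z)) z₀) := by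
      show ContDiffAt ℝ (⊤ : ℕ∞) (fun p : V n × ℝ => GG u P δ p.1 p.2)
        (z₀, cdf.implicitFunction pn if₂ z₀)
      rw [hself]
      exact cdG_h5 hΩ hu h hδ hp
    exact h9.comp z₀ h8

theorem isOpen_att (hΩ : IsOpen Ω) (hu : PSHd Ω u) (h : IsPen P c) (hc : 0 < c)
    (hδ : 0 < δ) : IsOpen {z | z ∈ shr Ω (2 * δ) ∧ ∃ x, IsMn u P δ z x} := by
  rw [isOpen_iff_mem_nhds]
  rintro z₀ ⟨hz, x₀, hx⟩
  obtain ⟨X, _, _, h1, _⟩ := hx.smooth hΩ hu h hc hδ hz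
  filter_upwards [h1, (isOpen_shr hΩ (2 * δ)).mem_nhds hz] with z h2 h3
  exact ⟨h3, X z, h2⟩

theorem contDiffOn_WW (hΩ : IsOpen Ω) (hu : PSHd Ω u) (h : IsPen P c) (hc : 0 < c)
    (hδ : 0 < δ) : ContDiffOn ℝ (⊤ : ℕ∞) (WW u P δ)
      {z | z ∈ shr Ω (2 * δ) ∧ ∃ x, IsMn u P δ z x} := by
  rintro z₀ ⟨hz, x₀, hx⟩
  obtain ⟨X, _, _, _, h1⟩ := hx.smooth hΩ hu h hc hδ hz
  exact h1.contDiffWithinAt

end Pool.Agent.Helper29.AM
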