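import Pool.Agent.Helper29.AM.KL1
import Pool.Agent.Helper29.AM.LA3

/-!
# Block AM-KL2: the Hessian of the transform (3.2)

`u` smooth psh on `Ω`, closed ball `B(z, 2δ) ⊆ Ω`. The means are bounded below by `min u`, so the
infimum is attained (`exists_IsMn_of_bdd`); let `X` be the smooth minimiser of `IsMn.smooth`, `x₀ = X z`.
Let `l` be the complex linear form with `re l(v) = DX(z)(v)`, i.e. `l v = DX(z)v - i DX(z)(iv)`.
Put `w(y) = δ e^{x₀} exp(l(y-z))` (holomorphic), `A(y) = ∫ u(y + w(y)η)ρ(η)dη + P(x₀ + re l(y-z))`.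
By `M_radial`, `A(y) = GG u P δ y (x₀ + re l(y-z))`, while `WW u P δ y = GG u P δ y (X y)`, where
`∂_x GG = 0` at `X y`. Taylor in `x`: `0 ≤ A(y) - WW(y) ≤ C (x₀ + re l(y-z) - X y)² = o(|y-z|²)`. So by
`D2_eq_zero_of_isLittleO` the second derivatives of `A` and `WW` at `z` agree. Finally
`lev A z v = ∫ ρ lev u (z+w(z)η)(v + w(z) l(v) η) + P''(x₀)|l(v)|²/4` (`lev_integral_comp`,
`lev_comp_real`, `lev_re_linear`; `(re l v)² + (re l(iv))² = |l v|²`); `β = w(z) l`, `w(z) = δe^{x₀}`.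
-/

set_option autoImplicit false

namespace Pool.Agent.Helper29.AM

open MeasureTheory Set Filter Topology
open scoped ComplexOrder

variable {n : ℕ} {Ω : Set (V n)} {u : V n → ℝ} {P : ℝ → ℝ} {c δ : ℝ}

private theorem two_le_top65 : (2 : WithTop ℕ∞) ≤ ((⊤ : ℕ∞) : WithTop ℕ∞) :=
  WithTop.coe_le_coe.2 (le_top : (2 : ℕ∞) ≤ ⊤)

/-- A real linear functional is the real part of a complex linear one. -/
private theorem exists_cLin65 (D : V n →L[ℝ] ℝ) : ∃ l : V n →L[ℂ] ℂ, ∀ v, (l v).re = D v := by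
  refine ⟨StrongDual.extendRCLike D, fun v => ?_⟩
  rw [← RCLike.re_eq_complex_re]
  exact StrongDual.re_extendRCLike_apply (𝕜 := ℂ) D v

/-- Second order comparison at a critical point: if `∂_x G = 0` along the graph of `X`, then
`G(y, L y) - G(y, X y) = o(|y - z|²)` when `L - X = o(|y - z|)`. -/
private theorem isLittleO_crit65 {G : V n × ℝ → ℝ} {z : V n} {x₀ : ℝ}
    (hG : ContDiffAt ℝ (⊤ : ℕ∞) G (z, x₀)) {X L : V n → ℝ} (hX : ContinuousAt X z)
    (hL : ContinuousAt L z) (hX0 : X z = x₀) (hL0 : L z = x₀)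
    (hcrit : ∀ᶠ y in 𝓝 z, fderiv ℝ G (y, X y) (0, 1) = 0)
    (hLX : (fun y => L y - X y) =o[𝓝 z] fun y => y - z) :
    (fun y => G (y, L y) - G (y, X y)) =o[𝓝 z] fun y => ‖y - z‖ ^ 2 := by
  have hH : ContDiffAt ℝ 1 (fun p => fderiv ℝ G p (0, 1)) (z, x₀) :=
    (((hG.of_le (m := 2) two_le_top65).fderiv_right (m := 1) (by norm_num)).clm_apply
      contDiffAt_const)
  obtain ⟨K, t, ht, hK⟩ := hH.exists_lipschitzOnWith
  have hdiff : ∀ᶠ p in 𝓝 (z, x₀), DifferentiableAt ℝ G p := by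
    have h1 : ContDiffAt ℝ 1 G (z, x₀) := hG.of_le (by exact_mod_cast (le_top : (1 : ℕ∞) ≤ ⊤))
    exact (h1.eventually (by simp)).mono fun p hp => hp.differentiableAt (by norm_num)
  obtain ⟨r, hr, hball⟩ := Metric.mem_nhds_iff.1 (inter_mem ht hdiff)
  have hXr : ∀ᶠ y in 𝓝 z, X y ∈ Metric.ball x₀ r := by
    have := hX.tendsto
    rw [hX0] at this
    exact this (Metric.ball_mem_nhds _ hr)
  have hLr : ∀ᶠ y in 𝓝 z, L y ∈ Metric.ball x₀ r := by
    have := hL.tendsto
    rw [hL0] at this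
    exact this (Metric.ball_mem_nhds _ hr)
  have hbig : (fun y => G (y, L y) - G (y, X y)) =O[𝓝 z] fun y => (L y - X y) * (L y - X y) := by
    refine Asymptotics.IsBigO.of_bound (K : ℝ) ?_
    filter_upwards [hXr, hLr, hcrit, Metric.ball_mem_nhds z hr] with y h1 h2 h3 h4
    have hmem : ∀ x ∈ segment ℝ (X y) (L y), (y, x) ∈ Metric.ball (z, x₀) r := by
      intro x hx
      have hx' : x ∈ Metric.ball x₀ r := (convex_ball x₀ r).segment_subset h1 h2 hx
      rw [← ball_prod_same]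
      exact ⟨h4, hx'⟩
    have hder : ∀ x ∈ segment ℝ (X y) (L y), HasDerivWithinAt (fun x => G (y, x))
        (fderiv ℝ G (y, x) (0, 1)) (segment ℝ (X y) (L y)) x := by
      intro x hx
      have hd : DifferentiableAt ℝ G (y, x) := (hball (hmem x hx)).2
      have h5 : HasDerivAt (fun x : ℝ => (y, x)) ((0 : V n), (1 : ℝ)) x :=
        (hasDerivAt_const x y).prodMk (hasDerivAt_id x)
      exact (hd.hasFDerivAt.comp_hasDerivAt x h5).hasDerivWithinAt
    have hbd : ∀ x ∈ segment ℝ (X y) (L y), ‖fderiv ℝ G (y, x) (0, 1)‖ ≤ K * ‖L y - X y‖ := by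
      intro x hx
      have h6 := hK.dist_le_mul _ (hball (hmem x hx)).1 _
        (hball (hmem (X y) (left_mem_segment ℝ _ _))).1
      simp only [h3, dist_zero_right] at h6
      refine h6.trans (mul_le_mul_of_nonneg_left ?_ K.2)
      rw [dist_prod_same_left, Real.dist_eq, ← Real.norm_eq_abs]
      have h7 : ‖x - X y‖ ≤ ‖L y - X y‖ := by
        obtain ⟨a, b, ha, hb, hab, rfl⟩ := hx
        have h8 : a • X y + b • L y - X y = b * (L y - X y) := by
          have : a = 1 - b := by linarith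
          rw [this]; simp only [smul_eq_mul]; ring
        rw [h8, norm_mul, Real.norm_eq_abs b, abs_of_nonneg hb]
        have h9 : b ≤ 1 := by linarith
        nlinarith [norm_nonneg (L y - X y)]
      exact h7
    have hmain := Convex.norm_image_sub_le_of_norm_hasDerivWithin_le hder hbd
      (convex_segment _ _) (left_mem_segment ℝ _ _) (right_mem_segment ℝ _ _)
    calc ‖G (y, L y) - G (y, X y)‖ ≤ K * ‖L y - X y‖ * ‖L y - X y‖ := hmain
      _ = K * ‖(L y - X y) * (L y - X y)‖ := by rw [norm_mul]; ring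
  refine hbig.trans_isLittleO ?_
  have h11 : (fun y => (L y - X y) * (L y - X y)) =o[𝓝 z] fun y => ‖y - z‖ * ‖y - z‖ :=
    hLX.norm_right.mul_isBigO hLX.norm_right.isBigO
  simpa only [sq] using h11

theorem SPsh.exists_IsMn (hΩ : IsOpen Ω) (hu : SPsh Ω u) (h : IsPen P c) (hc : 0 < c)
    (hδ : 0 < δ) {z : V n} (hz : z ∈ shr Ω (2 * δ)) : ∃ x, IsMn u P δ z x := by
  exact exists_IsMn_of_bdd hΩ (hu.pshd hΩ) h hc hδ hz (m := u z) fun t ht htδ =>
    hu.le_Phi hΩ ht.le ((Metric.closedBall_subset_closedBall (by linarith)).trans hz)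

theorem lev_WW (hΩ : IsOpen Ω) (hu : SPsh Ω u) (h : IsPen P c) (hc : 0 < c) (hδ : 0 < δ)
    {z : V n} (hz : z ∈ shr Ω (2 * δ)) {x : ℝ} (hx : IsMn u P δ z x) :
    ∃ β : V n →L[ℂ] ℂ, ∀ v : V n, lev (WW u P δ) z v =
      (∫ η : V n, rho η * lev u (z + ((δ * Real.exp x : ℝ) : ℂ) • η) (v + β v • η)) +
        deriv (deriv P) x / (4 * (δ * Real.exp x) ^ 2) * ‖β v‖ ^ 2 := by
  have hP := hu.pshd hΩ
  obtain ⟨X, hXs, hXz, hXm, hWs⟩ := hx.smooth hΩ hP h hc hδ hz
  have hXd : DifferentiableAt ℝ X z := hXs.differentiableAt (by simp)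
  obtain ⟨l, hl⟩ := exists_cLin65 (fderiv ℝ X z)
  set s : ℝ := δ * Real.exp x with hs
  have hspos : 0 < s := mul_pos hδ (Real.exp_pos x)
  set w : V n → ℂ := fun y => (s : ℂ) * Complex.exp (l (y - z)) with hw
  set L : V n → ℝ := fun y => x + (l (y - z)).re with hL
  have hwz : w z = (s : ℂ) := by simp [hw]
  have hLz : L z = x := by simp [hL]
  have hxlog : x < Real.log 2 := hx.1
  have hlog1 : Real.log 2 < 1 := by linarith [Real.log_two_lt_d9]
  -- the domain
  have hsle : s ≤ 2 * δ := by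
    have : Real.exp x < 2 := by
      have := Real.exp_lt_exp.2 hxlog
      rwa [Real.exp_log (by norm_num)] at this
    rw [hs]; nlinarith
  have hdom : ∀ η : V n, ‖η‖ ≤ 1 → z + w z • η ∈ Ω := by
    intro η hη
    rw [hwz]
    refine hz ?_
    rw [Metric.mem_closedBall, dist_eq_norm, add_sub_cancel_left, norm_smul, Complex.norm_real,
      Real.norm_eq_abs, abs_of_pos hspos]
    nlinarith [norm_nonneg η]
  -- the holomorphic radius
  have hlin : ∀ y : V n, HasFDerivAt (fun y => l (y - z)) l y := by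
    intro y
    have h1 := (l.hasFDerivAt (x := y - z)).comp y ((hasFDerivAt_id y).sub_const z)
    rw [ContinuousLinearMap.comp_id] at h1
    exact h1
  have hwd : HasFDerivAt w ((s : ℂ) • l) z := by
    have h1 := ((hlin z).cexp).const_mul (s : ℂ)
    simpa [hw] using h1
  have hwc : ContDiffAt ℂ (⊤ : ℕ∞) w z := by
    have h1 : ContDiff ℂ (⊤ : ℕ∞) fun y : V n => l (y - z) :=
      l.contDiff.comp (contDiff_id.sub contDiff_const)
    exact (contDiff_const.mul (Complex.contDiff_exp.comp h1)).contDiffAt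
  have hwn : ∀ y, ‖w y‖ = δ * Real.exp (L y) := by
    intro y
    rw [hw, hL]
    simp only [norm_mul, Complex.norm_real, Complex.norm_exp, Real.norm_eq_abs, abs_of_pos hspos]
    rw [hs, Real.exp_add]; ring
  -- the function `A`
  have hAlev := fun v => (lev_integral_comp hΩ hu.smooth hwc hdom v).2
  have hA2 := (lev_integral_comp hΩ hu.smooth hwc hdom 0).1
  have hx1 : x < 1 := hxlog.trans hlog1
  have hPx : ContDiffAt ℝ (⊤ : ℕ∞) P x := h.contDiffOn.contDiffAt (Iio_mem_nhds hx1)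
  have hLs : ContDiff ℝ (⊤ : ℕ∞) L := by
    have h1 : ContDiff ℝ (⊤ : ℕ∞) fun y : V n => l (y - z) :=
      (l.restrictScalars ℝ).contDiff.comp (contDiff_id.sub contDiff_const)
    exact contDiff_const.add (Complex.reCLM.contDiff.comp h1)
  have hLd : ∀ y, HasFDerivAt L (fderiv ℝ X z) y := by
    intro y
    have h1 : HasFDerivAt (fun y => l (y - z)) (l.restrictScalars ℝ) y :=
      (hlin y).restrictScalars ℝ
    have h2 := (Complex.reCLM.hasFDerivAt.comp y h1).const_add x
    have h3 : (Complex.reCLM).comp (l.restrictScalars ℝ) = fderiv ℝ X z := by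
      ext v; simp [hl]
    rw [h3] at h2
    exact h2
  have two_le := two_le_top65
  have hPL2 : ContDiffAt ℝ 2 (fun y => P (L y)) z := by
    have h1 : ContDiffAt ℝ (⊤ : ℕ∞) P (L z) := by rw [hLz]; exact hPx
    exact (h1.comp z hLs.contDiffAt).of_le two_le
  set A : V n → ℝ := fun y => (∫ η, rho η * u (y + w y • η)) + P (L y) with hA
  have hAs : ContDiffAt ℝ 2 A z := hA2.add hPL2
  have hAG : ∀ y, A y = GG u P δ y (L y) := by
    intro y
    have h1 := M_radial u y (w y)
    rw [hwn] at h1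
    simp only [hA, GG, ← h1, M]
    rfl
  -- the Levi form of `A`
  have hlevL : ∀ v, lev L z v = 0 := by
    intro v
    have h1 : lev L z v = lev (fun _ : V n => x) z v + lev (fun y => (l (y - z)).re) z v := by
      refine lev_add contDiffAt_const ?_ v
      have h2 : ContDiff ℝ (⊤ : ℕ∞) fun y : V n => l (y - z) :=
        (l.restrictScalars ℝ).contDiff.comp (contDiff_id.sub contDiff_const)
      exact ((Complex.reCLM.contDiff.comp h2).contDiffAt).of_le two_le
    rw [h1, lev_const, lev_re_linear, add_zero]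
  have hlevPL : ∀ v, lev (fun y => P (L y)) z v = deriv (deriv P) x * ‖l v‖ ^ 2 / 4 := by
    intro v
    have h1 := lev_comp_real (g := P) (u := L) (z := z) (by rw [hLz]; exact hPx.of_le two_le)
      (hLs.contDiffAt.of_le two_le) v
    rw [h1, hlevL, (hLd z).fderiv, hLz, ← hl, ← hl, map_smul, ← Complex.normSq_eq_norm_sq,
      Complex.normSq_apply]
    simp only [smul_eq_mul, Complex.mul_re, Complex.I_re, Complex.I_im]
    ring
  -- comparison of `A` and `WW`
  have hzlog : (z, x) ∈ {p : V n × ℝ | p.1 ∈ shr Ω (2 * δ) ∧ p.2 < Real.log 2} := ⟨hz, hxlog⟩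
  have hopen : IsOpen {p : V n × ℝ | p.1 ∈ shr Ω (2 * δ) ∧ p.2 < Real.log 2} :=
    ((isOpen_shr hΩ _).preimage continuous_fst).inter (isOpen_Iio.preimage continuous_snd)
  have hGon := contDiffOn_GG hΩ hP.int h hδ
  have hGs : ContDiffAt ℝ (⊤ : ℕ∞) (fun p : V n × ℝ => GG u P δ p.1 p.2) (z, x) :=
    hGon.contDiffAt (hopen.mem_nhds hzlog)
  have hcrit : ∀ᶠ y in 𝓝 z, fderiv ℝ (fun p : V n × ℝ => GG u P δ p.1 p.2) (y, X y) (0, 1) = 0 := by
    filter_upwards [hXm, (isOpen_shr hΩ (2 * δ)).mem_nhds hz] with y hy hyz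
    have hmem : (y, X y) ∈ {p : V n × ℝ | p.1 ∈ shr Ω (2 * δ) ∧ p.2 < Real.log 2} := ⟨hyz, hy.1⟩
    have hd : DifferentiableAt ℝ (fun p : V n × ℝ => GG u P δ p.1 p.2) (y, X y) :=
      (hGon.contDiffAt (hopen.mem_nhds hmem)).differentiableAt (by simp)
    have h5 : HasDerivAt (fun x : ℝ => (y, x)) ((0 : V n), (1 : ℝ)) (X y) :=
      (hasDerivAt_const (X y) y).prodMk (hasDerivAt_id (X y))
    have h6 := hd.hasFDerivAt.comp_hasDerivAt (X y) h5
    refine IsLocalMin.hasDerivAt_eq_zero ?_ h6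
    filter_upwards [Iio_mem_nhds hy.1] with t ht
    exact hy.2 t ht
  have hLX : (fun y => L y - X y) =o[𝓝 z] fun y => y - z := by
    have h1 : HasFDerivAt (fun y => L y - X y) (fderiv ℝ X z - fderiv ℝ X z) z :=
      (hLd z).sub hXd.hasFDerivAt
    have h2 := h1.isLittleO
    simpa [hLz, hXz] using h2
  have hlit := isLittleO_crit65 hGs hXs.continuousAt hLs.continuous.continuousAt hXz hLz hcrit hLX
  have hlit2 : (fun y => A y - WW u P δ y) =o[𝓝 z] fun y => ‖y - z‖ ^ 2 := by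
    refine hlit.congr' ?_ EventuallyEq.rfl
    filter_upwards [hXm] with y hy
    rw [hAG, hy.WW_eq]
  have hW2 : ContDiffAt ℝ 2 (WW u P δ) z := hWs.of_le two_le
  have hD : ∀ v v', D2 (fun y => A y - WW u P δ y) z v v' = 0 :=
    D2_eq_zero_of_isLittleO (hAs.sub hW2) hlit2
  have hlevW : ∀ v, lev (WW u P δ) z v = lev A z v := by
    intro v
    have h1 : lev (fun y => WW u P δ y + (A y - WW u P δ y)) z v =
        lev (WW u P δ) z v + lev (fun y => A y - WW u P δ y) z v := lev_add hW2 (hAs.sub hW2) v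
    have h2 : (fun y => WW u P δ y + (A y - WW u P δ y)) = A := by ext y; ring
    have h3 : lev (fun y => A y - WW u P δ y) z v = 0 := by
      simp only [lev, hD, add_zero, zero_div]
    rw [h2, h3, add_zero] at h1
    exact h1.symm
  refine ⟨(s : ℂ) • l, fun v => ?_⟩
  rw [hlevW v, hA, lev_add hA2 hPL2 v, hAlev v, hlevPL v, hwd.fderiv, hwz]
  congr 1
  rw [FunLike.coe_smul, Pi.smul_apply, smul_eq_mul, norm_mul, Complex.norm_real,
    Real.norm_eq_abs, abs_of_pos hspos]
  field_simp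

end Pool.Agent.Helper29.AM
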