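import Pool.Agent.Helper29.AM.KL2

/-!
# Block AM-KL3: consequences of the Hessian formula (3.3)

(i) `∫ ρ |v + β(v)η|² = |v|² + n a |β v|² ≥ |v|²` and `P'' ≥ 0`.
(ii) With `B_η = Bm β η` (`det B_η = 1 + β(η)`): `∑_l lev W (A e_l) ≥ ∫ ρ ∑_l L_u(z+tη; B_η A e_l) ≥
n|det A|^{2/n} ∫ ρ |1+β(η)|^{2/n} F(z+tη)`, and by Jensen for `exp`
(`∫ρ e^{g} ≥ e^{∫ρ g}`, Mathlib `ConvexOn.map_integral_le`, `g = log F(z+tη) + (2/n) log|1+β(η)|`; where
`β(η) = -1`, a null set or `β` arbitrary: the integrand is `≥ 0`) and `integral_rho_log_nonneg`.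
(iii) `P = P1 (δ²)`, `t = δ e^x ≤ δ/2`: critical point equation (`IsMn.deriv_eq`, `hasDerivAt_Phi`):
`2t² ∫ρ₁ Δu(z+tη) = δ²(1 - e^x) ≥ δ²/2`, `ρ₁ ≤ ρ`, so `∫ρ Δu(z+tη) ≥ δ²/(4t²)`. `P''(x) = δ² e^x`.
If `‖β‖ ≤ 1/4` use `trace_Bm_ge` pointwise: `DA 1 W ≥ (1/2) δ²/(4t²) = e^{-2x}/8`; otherwise the second term,
summed over `l` (`∑|β e_l|² ≥ ‖β‖²`), is `≥ δ²e^x/(4δ²e^{2x}) /16 = e^{-x}/64`.
(iv) trivial estimates.
-/

set_option autoImplicit false

namespace Pool.Agent.Helper29.AM

open MeasureTheory Set Filter Topology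
open scoped ComplexOrder

variable {n : ℕ} {Ω : Set (V n)} {u F : V n → ℝ} {P : ℝ → ℝ} {c δ : ℝ}

private theorem kl3_log2 : Real.log 2 < 1 := by
  have := Real.log_two_lt_d9
  linarith

private theorem kl3_shr {r s : ℝ} (h : s ≤ r) {z : V n} (hz : z ∈ shr Ω r) : z ∈ shr Ω s :=
  (Metric.closedBall_subset_closedBall h).trans hz

private theorem kl3_t (hδ : 0 < δ) {x : ℝ} (hx : x < Real.log 2) :
    0 < δ * Real.exp x ∧ δ * Real.exp x ≤ 2 * δ := by
  have h1 : Real.exp x < 2 := by
    have := Real.exp_lt_exp.2 hx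
    rwa [Real.exp_log (by norm_num)] at this
  constructor
  · positivity
  · nlinarith

private theorem kl3_mem {t : ℝ} (ht : 0 ≤ t) {z : V n} (hz : z ∈ shr Ω t) {η : V n}
    (hη : ‖η‖ ≤ 1) : z + (t : ℂ) • η ∈ Ω := by
  apply hz
  rw [Metric.mem_closedBall, dist_eq_norm, add_sub_cancel_left, norm_smul]
  simp only [Complex.norm_real, Real.norm_eq_abs, abs_of_nonneg ht]
  nlinarith [norm_nonneg η]

/-- continuous functions on the closed ball may be integrated against the kernel -/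
private theorem kl3_int {g : V n → ℝ} (hg : ContinuousOn g (Metric.closedBall (0 : V n) 1)) :
    Integrable (fun η => rho η * g η) := by
  have h1 : IntegrableOn (fun η => rho η * g η) (Metric.closedBall (0 : V n) 1) :=
    ((rho_contDiff.continuous.continuousOn.mul hg)).integrableOn_compact
      (isCompact_closedBall _ _)
  rw [integrableOn_iff_integrable_of_support_subset] at h1
  · exact h1
  · intro η hη
    by_contra hcon
    apply hη
    have : 1 ≤ ‖η‖ := by
      rw [Metric.mem_closedBall, dist_zero_right, not_le] at hcon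
      exact hcon.le
    show rho η * g η = 0
    rw [rho_eq_zero this, zero_mul]

private theorem kl3_int1 {g : V n → ℝ} (hg : ContinuousOn g (Metric.closedBall (0 : V n) 1)) :
    Integrable (fun η => rho1 η * g η) := by
  have h1 : IntegrableOn (fun η => rho1 η * g η) (Metric.closedBall (0 : V n) 1) :=
    ((rho1_contDiff.continuous.continuousOn.mul hg)).integrableOn_compact
      (isCompact_closedBall _ _)
  rw [integrableOn_iff_integrable_of_support_subset] at h1
  · exact h1
  · intro η hη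
    by_contra hcon
    apply hη
    have : 1 ≤ ‖η‖ := by
      rw [Metric.mem_closedBall, dist_zero_right, not_le] at hcon
      exact hcon.le
    show rho1 η * g η = 0
    rw [rho1_eq_zero this, zero_mul]

private theorem kl3_at (hΩ : IsOpen Ω) (hu : SPsh Ω u) {y : V n} (hy : y ∈ Ω) :
    ContDiffAt ℝ 2 u y :=
  (contDiffOn_infty.1 hu.smooth 2).contDiffAt (hΩ.mem_nhds hy)

/-- joint continuity of the Levi form -/
private theorem kl3_cont (hΩ : IsOpen Ω) (hu : SPsh Ω u) {t : ℝ} (ht : 0 ≤ t) {z : V n}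
    (hz : z ∈ shr Ω t) (v : V n) (b : ℂ) :
    ContinuousOn (fun η : V n => lev u (z + (t : ℂ) • η) (v + b • η))
      (Metric.closedBall (0 : V n) 1) := by
  have hmem : ∀ η ∈ Metric.closedBall (0 : V n) 1, z + (t : ℂ) • η ∈ Ω := fun η hη =>
    kl3_mem ht hz (by rwa [Metric.mem_closedBall, dist_zero_right] at hη)
  have h1 : ∀ η ∈ Metric.closedBall (0 : V n) 1,
      lev u (z + (t : ℂ) • η) (v + b • η) = lf (hess u (z + (t : ℂ) • η)) (v + b • η) :=
    fun η hη => lev_eq_lf (kl3_at hΩ hu (hmem η hη)) _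
  refine ContinuousOn.congr ?_ h1
  have hc : Continuous fun η : V n => z + (t : ℂ) • η := by fun_prop
  unfold lf
  refine Complex.continuous_re.comp_continuousOn ?_
  refine continuousOn_finset_sum _ fun j _ => continuousOn_finset_sum _ fun k _ => ?_
  have h2 : ContinuousOn (fun η : V n => hess u (z + (t : ℂ) • η) j k)
      (Metric.closedBall (0 : V n) 1) :=
    (continuousOn_hess hΩ (contDiffOn_infty.1 hu.smooth 2) j k).comp hc.continuousOn hmem
  have h3 : Continuous fun η : V n => (v + b • η) j := by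
    have : (fun η : V n => (v + b • η) j) = fun η : V n => v j + b * η j := by
      funext η
      simp
    rw [this]
    fun_prop
  have h4 : Continuous fun η : V n => (starRingEnd ℂ) ((v + b • η) k) := by
    have : (fun η : V n => (v + b • η) k) = fun η : V n => v k + b * η k := by
      funext η
      simp
    refine Complex.continuous_conj.comp ?_
    rw [this]
    fun_prop
  exact (h2.mul h3.continuousOn).mul h4.continuousOn

/-- the affine hyperplane `1 + β η = 0` is a null set -/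
private theorem kl3_null (β : V n →L[ℂ] ℂ) : ∀ᵐ η : V n, 1 + β η ≠ 0 := by
  by_cases hβ : β = 0
  · filter_upwards with η
    simp [hβ]
  · rw [ae_iff]
    simp only [not_not]
    by_cases hne : ∃ η₀ : V n, 1 + β η₀ = 0
    · obtain ⟨η₀, h0⟩ := hne
      have hK : ((LinearMap.ker (β : V n →ₗ[ℂ] ℂ)).restrictScalars ℝ) ≠ ⊤ := by
        intro hcon
        apply hβ
        ext v
        have : v ∈ ((LinearMap.ker (β : V n →ₗ[ℂ] ℂ)).restrictScalars ℝ) := by
          rw [hcon]
          trivial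
        simpa using this
      have h1 := Measure.addHaar_submodule (volume : Measure (V n))
        ((LinearMap.ker (β : V n →ₗ[ℂ] ℂ)).restrictScalars ℝ) hK
      have h2 : {η : V n | 1 + β η = 0} = (fun η => η + (-η₀)) ⁻¹'
          (((LinearMap.ker (β : V n →ₗ[ℂ] ℂ)).restrictScalars ℝ) : Set (V n)) := by
        ext η
        simp only [mem_setOf_eq, mem_preimage, SetLike.mem_coe, Submodule.restrictScalars_mem,
          LinearMap.mem_ker, ContinuousLinearMap.coe_coe, map_add, map_neg]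
        constructor
        · intro h
          have h3 : β η = β η₀ := by linear_combination h - h0
          rw [h3, add_neg_cancel]
        · intro h
          linear_combination h + h0
      rw [h2, measure_preimage_add_right]
      exact h1
    · have : {η : V n | 1 + β η = 0} = ∅ := by
        ext η
        simp only [mem_setOf_eq, mem_empty_iff_false, iff_false]
        exact fun h => hne ⟨η, h⟩
      rw [this, measure_empty]

/-- (3.3 i) -/
theorem lev_WW_ge (hΩ : IsOpen Ω) (hu : SPsh Ω u) (h : IsPen P c) (hc : 0 < c) (hδ : 0 < δ)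
    {z : V n} (hz : z ∈ shr Ω (2 * δ)) {ε : ℝ} (hε : 0 ≤ ε)
    (hs : ∀ y ∈ Ω, ∀ v, ε * ‖v‖ ^ 2 ≤ lev u y v) (v : V n) :
    ε * ‖v‖ ^ 2 ≤ lev (WW u P δ) z v := by
  obtain ⟨x, hx⟩ := hu.exists_IsMn hΩ h hc hδ hz
  obtain ⟨β, hβ⟩ := lev_WW hΩ hu h hc hδ hz hx
  obtain ⟨ht0, ht2⟩ := kl3_t hδ hx.1
  have hzt : z ∈ shr Ω (δ * Real.exp x) := kl3_shr ht2 hz
  rw [hβ v]
  have h1 : ε * ‖v‖ ^ 2 ≤ ∫ η : V n, rho η *
      lev u (z + ((δ * Real.exp x : ℝ) : ℂ) • η) (v + β v • η) := by
    have h2 : ∫ η : V n, ε * (rho η * ‖v + β v • η‖ ^ 2) ≤ ∫ η : V n, rho η *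
        lev u (z + ((δ * Real.exp x : ℝ) : ℂ) • η) (v + β v • η) := by
      refine integral_mono ?_ (kl3_int (kl3_cont hΩ hu ht0.le hzt v (β v))) ?_
      · refine Integrable.const_mul (kl3_int ?_) ε
        fun_prop
      · intro η
        show ε * (rho η * ‖v + β v • η‖ ^ 2) ≤ rho η *
          lev u (z + ((δ * Real.exp x : ℝ) : ℂ) • η) (v + β v • η)
        rcases le_or_gt ‖η‖ 1 with h3 | h3
        · have h4 := hs _ (kl3_mem ht0.le hzt h3) (v + β v • η)
          have h5 := mul_le_mul_of_nonneg_left h4 (rho_nonneg η)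
          nlinarith
        · rw [rho_eq_zero h3.le]
          simp
    rw [integral_const_mul, integral_rho_norm_add_sq] at h2
    refine le_trans ?_ h2
    have h6 := (aa_pos (n := n)).le
    have h7 : 0 ≤ (n : ℝ) * aa n * ‖β v‖ ^ 2 := by positivity
    nlinarith
  have h8 : 0 ≤ deriv (deriv P) x / (4 * (δ * Real.exp x) ^ 2) * ‖β v‖ ^ 2 := by
    have := (h.deriv2_pos hc (hx.1.trans kl3_log2)).le
    positivity
  linarith

/-- (3.3 ii) -/
theorem GP_WW (hn : 0 < n) (hΩ : IsOpen Ω) (hu : SPsh Ω u) (h : IsPen P c) (hc : 0 < c)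
    (hδ : 0 < δ) {z : V n} (hz : z ∈ shr Ω (2 * δ)) {x : ℝ} (hx : IsMn u P δ z x)
    (hF : ContinuousOn F Ω) (hF0 : ∀ y ∈ Ω, 0 < F y) (hGP : ∀ y ∈ Ω, GP (lev u y) (F y)) :
    GP (lev (WW u P δ) z) (Real.exp (Phi (fun y => Real.log (F y)) z (δ * Real.exp x))) := by
  obtain ⟨β, hβ⟩ := lev_WW hΩ hu h hc hδ hz hx
  obtain ⟨ht0, ht2⟩ := kl3_t hδ hx.1
  set t : ℝ := δ * Real.exp x with ht
  have hzt : z ∈ shr Ω t := kl3_shr ht2 hz
  have hmem : ∀ η ∈ Metric.closedBall (0 : V n) 1, z + (t : ℂ) • η ∈ Ω := fun η hη =>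
    kl3_mem ht0.le hzt (by rwa [Metric.mem_closedBall, dist_zero_right] at hη)
  have hcz : Continuous fun η : V n => z + (t : ℂ) • η := by fun_prop
  have hFc : ContinuousOn (fun η : V n => F (z + (t : ℂ) • η)) (Metric.closedBall (0 : V n) 1) :=
    hF.comp hcz.continuousOn hmem
  have hlF : ContinuousOn (fun η : V n => Real.log (F (z + (t : ℂ) • η)))
      (Metric.closedBall (0 : V n) 1) :=
    ContinuousOn.log hFc fun η hη => (hF0 _ (hmem η hη)).ne'
  have hn' : (0 : ℝ) < n := by exact_mod_cast hn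
  -- the Jensen part
  set m : ℝ := ∫ η : V n, rho η * (Real.log (F (z + (t : ℂ) • η)) + 2 / n * Real.log ‖1 + β η‖)
    with hm
  obtain ⟨hi, hi0⟩ := integral_rho_log_nonneg β
  have hIF : Integrable (fun η : V n => rho η * Real.log (F (z + (t : ℂ) • η))) := kl3_int hlF
  have hIg : Integrable (fun η : V n =>
      rho η * (Real.log (F (z + (t : ℂ) • η)) + 2 / n * Real.log ‖1 + β η‖)) := by
    refine (hIF.add (hi.const_mul (2 / (n : ℝ)))).congr ?_
    filter_upwards with η
    simp only [Pi.add_apply]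
    ring
  have hm2 : m = (∫ η : V n, rho η * Real.log (F (z + (t : ℂ) • η))) +
      2 / n * ∫ η : V n, rho η * Real.log ‖1 + β η‖ := by
    rw [hm, ← integral_const_mul, ← integral_add hIF (hi.const_mul (2 / (n : ℝ)))]
    refine integral_congr_ae ?_
    filter_upwards with η
    ring
  have hPhi : Phi (fun y => Real.log (F y)) z t =
      ∫ η : V n, rho η * Real.log (F (z + (t : ℂ) • η)) := by
    unfold Phi M
    refine integral_congr_ae ?_
    filter_upwards with η
    rw [sc_apply]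
  have hmge : Phi (fun y => Real.log (F y)) z t ≤ m := by
    rw [hPhi, hm2]
    have : 0 ≤ 2 / (n : ℝ) * ∫ η : V n, rho η * Real.log ‖1 + β η‖ := by positivity
    linarith
  have hIy : Integrable (fun η : V n =>
      rho η * (‖1 + β η‖ ^ ((2 : ℝ) / n) * F (z + (t : ℂ) • η))) := by
    refine kl3_int (ContinuousOn.mul ?_ hFc)
    refine Continuous.continuousOn ?_
    have : Continuous fun η : V n => ‖1 + β η‖ := by fun_prop
    exact this.rpow_const fun _ => Or.inr (by positivity)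
  have hJ : Real.exp m ≤ ∫ η : V n, rho η * (‖1 + β η‖ ^ ((2 : ℝ) / n) * F (z + (t : ℂ) • η)) := by
    have h1 : ∫ η : V n, (Real.exp m * (rho η *
        (Real.log (F (z + (t : ℂ) • η)) + 2 / n * Real.log ‖1 + β η‖)) +
        Real.exp m * (1 - m) * rho η) = Real.exp m := by
      rw [integral_add (hIg.const_mul _) (rho_integrable.const_mul _), integral_const_mul,
        integral_const_mul, integral_rho, ← hm]
      ring
    rw [← h1]
    refine integral_mono_ae ((hIg.const_mul _).add (rho_integrable.const_mul _)) hIy ?_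
    filter_upwards [kl3_null β] with η hη
    rcases le_or_gt ‖η‖ 1 with h3 | h3
    · have hFp := hF0 _ (kl3_mem ht0.le hzt h3)
      have hr : 0 < ‖1 + β η‖ := norm_pos_iff.2 hη
      have e1 : ‖1 + β η‖ ^ ((2 : ℝ) / n) * F (z + (t : ℂ) • η) =
          Real.exp m * Real.exp (Real.log (F (z + (t : ℂ) • η)) +
            2 / n * Real.log ‖1 + β η‖ - m) := by
        rw [← Real.exp_add, Real.rpow_def_of_pos hr, show m + (Real.log (F (z + (t : ℂ) • η)) +
            2 / n * Real.log ‖1 + β η‖ - m) = Real.log ‖1 + β η‖ * (2 / n) +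
            Real.log (F (z + (t : ℂ) • η)) by ring, Real.exp_add _ (Real.log _), Real.exp_log hFp]
      have e2 := Real.add_one_le_exp (Real.log (F (z + (t : ℂ) • η)) +
            2 / n * Real.log ‖1 + β η‖ - m)
      rw [e1]
      have e3 := mul_le_mul_of_nonneg_left e2 (mul_nonneg (rho_nonneg η) (Real.exp_pos m).le)
      calc _ = rho η * Real.exp m * (Real.log (F (z + (t : ℂ) • η)) +
            2 / n * Real.log ‖1 + β η‖ - m + 1) := by ring
        _ ≤ _ := e3
        _ = _ := by ring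
    · rw [rho_eq_zero h3.le]
      simp
  -- the main estimate
  intro A
  have hlin : ∑ l, lev (WW u P δ) z (A (e l)) = (∫ η : V n, rho η * ∑ l,
      lev u (z + (t : ℂ) • η) (A (e l) + β (A (e l)) • η)) +
      ∑ l, deriv (deriv P) x / (4 * t ^ 2) * ‖β (A (e l))‖ ^ 2 := by
    simp_rw [hβ, Finset.sum_add_distrib, Finset.mul_sum]
    rw [integral_finset_sum]
    intro l _
    exact kl3_int (kl3_cont hΩ hu ht0.le hzt _ _)
  rw [hlin]
  have h2 : 0 ≤ ∑ l, deriv (deriv P) x / (4 * t ^ 2) * ‖β (A (e l))‖ ^ 2 := by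
    refine Finset.sum_nonneg fun l _ => ?_
    have := (h.deriv2_pos hc (hx.1.trans kl3_log2)).le
    positivity
  have h3 : (n : ℝ) * ‖A.det‖ ^ ((2 : ℝ) / n) *
      ∫ η : V n, rho η * (‖1 + β η‖ ^ ((2 : ℝ) / n) * F (z + (t : ℂ) • η)) ≤
      ∫ η : V n, rho η * ∑ l, lev u (z + (t : ℂ) • η) (A (e l) + β (A (e l)) • η) := by
    rw [← integral_const_mul]
    refine integral_mono (hIy.const_mul _) ?_ ?_
    · refine kl3_int (continuousOn_finset_sum _ fun l _ => ?_)
      exact kl3_cont hΩ hu ht0.le hzt _ _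
    · intro η
      show (n : ℝ) * ‖A.det‖ ^ ((2 : ℝ) / n) *
        (rho η * (‖1 + β η‖ ^ ((2 : ℝ) / n) * F (z + (t : ℂ) • η))) ≤
        rho η * ∑ l, lev u (z + (t : ℂ) • η) (A (e l) + β (A (e l)) • η)
      rcases le_or_gt ‖η‖ 1 with h5 | h5
      · have h6 := hGP _ (kl3_mem ht0.le hzt h5) (Bm β η * A)
        have e1 : (Bm β η * A).det = (1 + β η) * A.det := by
          rw [← det_Bm]
          exact LinearMap.det_comp _ _
        have e2 : ∀ l, (Bm β η * A) (e l) = A (e l) + β (A (e l)) • η := fun l => by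
          rw [ContinuousLinearMap.mul_apply, Bm_apply]
        rw [e1, norm_mul, Real.mul_rpow (norm_nonneg _) (norm_nonneg _)] at h6
        simp_rw [e2] at h6
        have h7 := mul_le_mul_of_nonneg_left h6 (rho_nonneg η)
        calc _ = rho η * (n * (‖1 + β η‖ ^ ((2 : ℝ) / n) * ‖A.det‖ ^ ((2 : ℝ) / n)) *
              F (z + (t : ℂ) • η)) := by ring
          _ ≤ _ := h7
      · rw [rho_eq_zero h5.le]
        simp
  have h4 : (n : ℝ) * ‖A.det‖ ^ ((2 : ℝ) / n) * Real.exp (Phi (fun y => Real.log (F y)) z t) ≤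
      (n : ℝ) * ‖A.det‖ ^ ((2 : ℝ) / n) *
        ∫ η : V n, rho η * (‖1 + β η‖ ^ ((2 : ℝ) / n) * F (z + (t : ℂ) • η)) := by
    refine mul_le_mul_of_nonneg_left ?_ (by positivity)
    exact (Real.exp_le_exp.2 hmge).trans hJ
  linarith

/-- (3.3 iii) -/
theorem trace_WW_ge (hn : 0 < n) (hΩ : IsOpen Ω) (hu : SPsh Ω u) (hδ : 0 < δ) {z : V n}
    (hz : z ∈ shr Ω (2 * δ)) {x : ℝ} (hx : IsMn u (P1 (δ ^ 2)) δ z x) (hx2 : Real.exp x ≤ 1 / 2) :
    1 / 64 * Real.exp (-x) ≤ DA 1 (WW u (P1 (δ ^ 2)) δ) z := by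
  have hc : 0 < δ ^ 2 := by positivity
  obtain ⟨β, hβ⟩ := lev_WW hΩ hu (Or.inl rfl) hc hδ hz hx
  obtain ⟨ht0, ht2⟩ := kl3_t hδ hx.1
  have hP1 : deriv (P1 (δ ^ 2)) = fun y => -δ ^ 2 + δ ^ 2 * Real.exp y := by
    funext y
    have h1 : HasDerivAt (fun x : ℝ => -δ ^ 2 * x) (-δ ^ 2 * 1) y :=
      (hasDerivAt_id y).const_mul (-δ ^ 2)
    have h2 : HasDerivAt (fun x : ℝ => δ ^ 2 * Real.exp x) (δ ^ 2 * Real.exp y) y :=
      (Real.hasDerivAt_exp y).const_mul (δ ^ 2)
    have h3 := (h1.add h2).deriv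
    rw [mul_one] at h3
    exact h3
  have hP2 : deriv (deriv (P1 (δ ^ 2))) x = δ ^ 2 * Real.exp x := by
    rw [hP1]
    exact (((Real.hasDerivAt_exp x).const_mul (δ ^ 2)).const_add (-δ ^ 2)).deriv
  have hcrit := IsMn.deriv_eq hΩ (hu.pshd hΩ).int (Or.inl rfl) hδ hz hx
  set t : ℝ := δ * Real.exp x with ht
  have hzt : z ∈ shr Ω t := kl3_shr ht2 hz
  have hmem : ∀ η ∈ Metric.closedBall (0 : V n) 1, z + (t : ℂ) • η ∈ Ω := fun η hη =>
    kl3_mem ht0.le hzt (by rwa [Metric.mem_closedBall, dist_zero_right] at hη)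
  have hex : 0 < Real.exp x := Real.exp_pos x
  have hcoef : deriv (deriv (P1 (δ ^ 2))) x / (4 * t ^ 2) = Real.exp (-x) / 4 := by
    rw [hP2, ht, Real.exp_neg]
    field_simp
  have hlin : DA 1 (WW u (P1 (δ ^ 2)) δ) z = (∫ η : V n, rho η * ∑ l,
      lev u (z + (t : ℂ) • η) (e l + β (e l) • η)) + Real.exp (-x) / 4 * ∑ l, ‖β (e l)‖ ^ 2 := by
    unfold DA
    simp_rw [ContinuousLinearMap.one_apply, hβ, hcoef, Finset.sum_add_distrib, Finset.mul_sum]
    rw [integral_finset_sum]
    intro l _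
    exact kl3_int (kl3_cont hΩ hu ht0.le hzt _ _)
  have hge : 2 ≤ Real.exp (-x) := by
    rw [Real.exp_neg]
    rw [le_inv_comm₀ (by norm_num) hex]
    linarith
  have hint0 : 0 ≤ ∫ η : V n, rho η * ∑ l, lev u (z + (t : ℂ) • η) (e l + β (e l) • η) := by
    refine integral_nonneg fun η => ?_
    show 0 ≤ rho η * ∑ l, lev u (z + (t : ℂ) • η) (e l + β (e l) • η)
    rcases le_or_gt ‖η‖ 1 with h5 | h5
    · exact mul_nonneg (rho_nonneg η) (Finset.sum_nonneg fun l _ =>
        hu.psh _ (kl3_mem ht0.le hzt h5) _)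
    · rw [rho_eq_zero h5.le, zero_mul]
  rw [hlin]
  rcases le_or_gt ‖β‖ (1 / 4) with hβ4 | hβ4
  · -- small `β`: the critical point equation
    have hd := (hasDerivAt_Phi hΩ (contDiffOn_infty.1 hu.smooth 2) ht0.le hzt)
    have hd2 : HasDerivAt (fun y => Phi u z (δ * Real.exp y)) (2 * t * M1 (sc t) (DA 1 u) z * t) x := by
      have h1 : HasDerivAt (fun y => δ * Real.exp y) (δ * Real.exp x) x :=
        (Real.hasDerivAt_exp x).const_mul δ
      exact HasDerivAt.comp x hd h1
    rw [hd2.deriv, hP1] at hcrit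
    have hM : Real.exp (-x) ^ 2 / 8 ≤ M1 (sc t) (DA 1 u) z := by
      have h1 : 2 * t ^ 2 * M1 (sc t) (DA 1 u) z = δ ^ 2 * (1 - Real.exp x) := by
        simp only at hcrit
        linear_combination hcrit
      have h2 : δ ^ 2 / 2 ≤ 2 * t ^ 2 * M1 (sc t) (DA 1 u) z := by
        rw [h1]
        nlinarith
      have h3 : t ^ 2 * Real.exp (-x) ^ 2 = δ ^ 2 := by
        rw [ht, Real.exp_neg]
        field_simp
      have h4 : 0 < t ^ 2 := by positivity
      have h5 : t ^ 2 * (Real.exp (-x) ^ 2 / 4) ≤ t ^ 2 * M1 (sc t) (DA 1 u) z := by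
        nlinarith
      have h6 := le_of_mul_le_mul_left h5 h4
      have h7 : 0 ≤ Real.exp (-x) ^ 2 := by positivity
      linarith
    have hDA : ContinuousOn (fun η : V n => DA 1 u (z + (t : ℂ) • η))
        (Metric.closedBall (0 : V n) 1) := by
      unfold DA
      refine continuousOn_finset_sum _ fun l _ => ?_
      have := kl3_cont hΩ hu ht0.le hzt ((1 : Lin n) (e l)) 0
      simpa only [zero_smul, add_zero] using this
    have h1 : (1 / 2) * M1 (sc t) (DA 1 u) z ≤
        ∫ η : V n, rho η * ∑ l, lev u (z + (t : ℂ) • η) (e l + β (e l) • η) := by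
      unfold M1
      rw [← integral_const_mul]
      refine integral_mono ?_ ?_ ?_
      · refine ((kl3_int1 hDA).const_mul (1 / 2)).congr ?_
        filter_upwards with η
        rw [sc_apply]
      · exact kl3_int (continuousOn_finset_sum _ fun l _ => kl3_cont hΩ hu ht0.le hzt _ _)
      · intro η
        show 1 / 2 * (rho1 η * DA 1 u (z + (sc t : Lin n) η)) ≤
          rho η * ∑ l, lev u (z + (t : ℂ) • η) (e l + β (e l) • η)
        rw [sc_apply]
        rcases le_or_gt ‖η‖ 1 with h5 | h5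
        · have hy := kl3_mem ht0.le hzt h5
          have hat := kl3_at hΩ hu hy
          have hH : (hess u (z + (t : ℂ) • η)).PosSemidef := by
            rw [posSemidef_iff_lf (hess_isHermitian hat)]
            intro v
            rw [← lev_eq_lf hat]
            exact hu.psh _ hy v
          have hB : ‖Bm β η - 1‖ ≤ 1 / 4 := by
            have : Bm β η - 1 = β.smulRight η := by
              unfold Bm
              rw [add_sub_cancel_left]
            rw [this, ContinuousLinearMap.norm_smulRight_apply]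
            nlinarith [norm_nonneg β, norm_nonneg η]
          have h6 := trace_Bm_ge hH (Bm β η) hB
          have e1 : ∀ l, lf (hess u (z + (t : ℂ) • η)) (e l) = lev u (z + (t : ℂ) • η) (e l) :=
            fun l => (lev_eq_lf hat _).symm
          have e2 : ∀ l, lf (hess u (z + (t : ℂ) • η)) (Bm β η (e l)) =
              lev u (z + (t : ℂ) • η) (e l + β (e l) • η) := fun l => by
            rw [← lev_eq_lf hat, Bm_apply]
          simp_rw [e1, e2] at h6
          have e3 : DA 1 u (z + (t : ℂ) • η) = ∑ l, lev u (z + (t : ℂ) • η) (e l) := rfl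
          have h7 : 0 ≤ DA 1 u (z + (t : ℂ) • η) := by
            rw [e3]
            exact Finset.sum_nonneg fun l _ => hu.psh _ hy _
          rw [← e3] at h6
          have h8 := rho1_le_rho η
          have h9 := rho_nonneg η
          calc 1 / 2 * (rho1 η * DA 1 u (z + (t : ℂ) • η))
              ≤ 1 / 2 * (rho η * DA 1 u (z + (t : ℂ) • η)) := by
                have := mul_le_mul_of_nonneg_right h8 h7
                linarith
            _ = rho η * (1 / 2 * DA 1 u (z + (t : ℂ) • η)) := by ring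
            _ ≤ _ := mul_le_mul_of_nonneg_left h6 h9
        · rw [rho_eq_zero h5.le, rho1_eq_zero h5.le]
          simp
    have h2 : 0 ≤ Real.exp (-x) / 4 * ∑ l, ‖β (e l)‖ ^ 2 := by positivity
    nlinarith
  · have h1 : ‖β‖ ^ 2 ≤ ∑ l, ‖β (e l)‖ ^ 2 := by
      have h2 : ‖β‖ ≤ Real.sqrt (∑ l, ‖β (e l)‖ ^ 2) := by
        refine ContinuousLinearMap.opNorm_le_bound _ (Real.sqrt_nonneg _) fun v => ?_
        have h3 : β v = ∑ l, v l * β (e l) := by
          have : v = ∑ l, v l • e l := by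
            have := (EuclideanSpace.basisFun (Fin n) ℂ).sum_repr v
            simpa [e, EuclideanSpace.basisFun_apply] using this.symm
          conv_lhs => rw [this]
          rw [map_sum]
          refine Finset.sum_congr rfl fun l _ => ?_
          rw [map_smul, smul_eq_mul]
        rw [h3, EuclideanSpace.norm_eq]
        refine (norm_sum_le _ _).trans ?_
        simp_rw [norm_mul]
        have h4 := Real.sum_mul_le_sqrt_mul_sqrt Finset.univ (fun l => ‖v l‖) (fun l => ‖β (e l)‖)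
        rw [mul_comm (Real.sqrt _)]
        exact h4
      calc ‖β‖ ^ 2 ≤ Real.sqrt (∑ l, ‖β (e l)‖ ^ 2) ^ 2 := by
            gcongr
        _ = _ := Real.sq_sqrt (Finset.sum_nonneg fun _ _ => by positivity)
    have h2 : 1 / 16 ≤ ‖β‖ ^ 2 := by nlinarith
    nlinarith

/-- (3.3 iv) -/
theorem le_WW_P1 (hΩ : IsOpen Ω) (hu : PSHd Ω u) (hc : 0 < c) (hδ : 0 < δ) {z : V n}
    (hz : z ∈ shr Ω (2 * δ)) {x : ℝ} (hx : IsMn u (P1 c) δ z x) :
    WW u (P1 c) δ z = Phi u z (δ * Real.exp x) + c * (Real.exp x - x) ∧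
      Phi u z (δ * Real.exp x) ≤ WW u (P1 c) δ z := by
  have h1 : WW u (P1 c) δ z = Phi u z (δ * Real.exp x) + c * (Real.exp x - x) := by
    rw [hx.WW_eq]
    unfold GG P1
    ring
  refine ⟨h1, ?_⟩
  rw [h1]
  have h2 := Real.add_one_le_exp x
  nlinarith

theorem SPsh.le_WW (hΩ : IsOpen Ω) (hu : SPsh Ω u) (h : IsPen P c) (hc : 0 < c) (hδ : 0 < δ)
    {z : V n} (hz : z ∈ shr Ω (2 * δ)) : u z - c ≤ WW u P δ z := by
  obtain ⟨x, hx⟩ := hu.exists_IsMn hΩ h hc hδ hz
  obtain ⟨ht0, ht2⟩ := kl3_t hδ hx.1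
  rw [hx.WW_eq]
  have h1 := hu.le_Phi hΩ ht0.le (kl3_shr ht2 hz)
  have h2 := h.ge hc (hx.1.trans kl3_log2)
  unfold GG
  linarith

theorem WW_le (hΩ : IsOpen Ω) (hu : PSHd Ω u) (h : IsPen P c) (hc : 0 < c) (hδ : 0 < δ)
    {z : V n} (hz : z ∈ shr Ω (2 * δ)) {x : ℝ} (hx : IsMn u P δ z x) :
    WW u P δ z ≤ Phi u z δ + c := by
  rw [hx.WW_eq]
  have h1 := hx.2 0 (Real.log_pos (by norm_num))
  have h2 : P 0 ≤ c := by
    rcases h with rfl | rfl
    · unfold P1
      simp
    · unfold P2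
      simp
      exact hc.le
  have h3 : GG u P δ z 0 = Phi u z δ + P 0 := by
    unfold GG
    rw [Real.exp_zero, mul_one]
  linarith

end Pool.Agent.Helper29.AM
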