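import Mathlib

/-!
# Plurisubharmonic functions and Monge-Ampère measures on open subsets of `ℂ^n`

These are the local definitions used in the statement of the theorem on MP_5d2bda_an
(the global ones are in `Statement.lean`). Everything lives on `V n = ℂ^n` with Lebesgue measure.
The constant `c_n = 4^n n!` in `(dd^c u)^n = c_n det(u_{j k̄}) λ` (with `d^c = i(∂̄ - ∂)`) is left out in
`IsMA` and `IsNP`; it is inserted in `Statement.lean`.
-/

set_option autoImplicit false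

namespace Pool.Agent.Helper29.AM

open MeasureTheory Set Filter Topology
open scoped ComplexOrder

/-- `ℂ^n` with the euclidean norm. -/
abbrev V (n : ℕ) : Type := EuclideanSpace ℂ (Fin n)

/-- Complex `n × n` matrices. -/
abbrev Mat (n : ℕ) : Type := Matrix (Fin n) (Fin n) ℂ

variable {n : ℕ}

/-- Standard basis vectors. -/
noncomputable def e (l : Fin n) : V n := EuclideanSpace.single l 1

/-- Second real derivative `D²u(z)(v,w)`. -/
noncomputable def D2 (u : V n → ℝ) (z v w : V n) : ℝ := fderiv ℝ (fderiv ℝ u) z v w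

/-- Levi form `∑ u_{j k̄} v_j v̄_k = (D²u(v,v) + D²u(iv,iv))/4`. -/
noncomputable def lev (u : V n → ℝ) (z v : V n) : ℝ :=
  (D2 u z v v + D2 u z (Complex.I • v) (Complex.I • v)) / 4

/-- Complex Hessian `u_{j k̄} = ∂²u/∂z_j∂z̄_k`. -/
noncomputable def hess (u : V n → ℝ) (z : V n) : Mat n := fun j k =>
  (((D2 u z (e j) (e k) + D2 u z (Complex.I • e j) (Complex.I • e k) : ℝ) : ℂ) +
    ((D2 u z (e j) (Complex.I • e k) - D2 u z (Complex.I • e j) (e k) : ℝ) : ℂ) * Complex.I) / 4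

/-- smooth plurisubharmonic functions on an (open) set -/
structure SPsh (Ω : Set (V n)) (u : V n → ℝ) : Prop where
  smooth : ContDiffOn ℝ (⊤ : ℕ∞) u Ω
  psh : ∀ z ∈ Ω, ∀ v, 0 ≤ lev u z v

/-- the normalising constant: `(dd^c u)^n = 4^n n! det(u_{j k̄}) dλ` for `d^c = i(∂̄ - ∂)` -/
noncomputable def cn (n : ℕ) : ℝ := 4 ^ n * (n.factorial : ℝ)

end Pool.Agent.Helper29.AM

namespace Pool.Agent.Helper13.AM

open MeasureTheory Set Filter Topology
open Pool.Agent.Helper29.AM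

variable {n : ℕ}

/-- `det (u_{j k̄})` -/
noncomputable def DD (u : V n → ℝ) (z : V n) : ℝ := ((hess u z).det).re

/-- continuous functions with compact support in `Ω` -/
structure CC (Ω : Set (V n)) (χ : V n → ℝ) : Prop where
  cont : Continuous χ
  cpt : HasCompactSupport χ
  sub : tsupport χ ⊆ Ω

/-- Plurisubharmonic functions on an open set `Ω`: upper semicontinuous, `< +∞`, not `-∞` almost
everywhere (that is, not identically `-∞` on a component of `Ω`), and `C - u` satisfies the super mean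
value inequality on closed complex discs in `Ω` on which `u ≤ C`: `∫ (C - u(a + e^{it} b)) dt ≤ 2π (C - u(a))`,
i.e. `u(a) ≤ (2π)⁻¹ ∫ u(a + e^{it} b) dt`. -/
structure PSH (Ω : Set (V n)) (u : V n → EReal) : Prop where
  usc : UpperSemicontinuousOn u Ω
  lt_top : ∀ z ∈ Ω, u z < ⊤
  ae_bot : ∀ᵐ z, z ∈ Ω → u z ≠ ⊥
  mean : ∀ (a b : V n) (C : ℝ), (∀ ζ : ℂ, ‖ζ‖ ≤ 1 → a + ζ • b ∈ Ω ∧ u (a + ζ • b) ≤ C) →
    ∫⁻ t in Ioc (0 : ℝ) (2 * Real.pi),
        ((C : EReal) - u (a + Complex.exp (t * Complex.I) • b)).toENNReal ≤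
      ENNReal.ofReal (2 * Real.pi) * ((C : EReal) - u a).toENNReal

/-- `v k` are smooth psh functions on `W` decreasing to `u` at every point of `W` -/
structure Dec (W : Set (V n)) (v : ℕ → V n → ℝ) (u : V n → EReal) : Prop where
  psh : ∀ k, SPsh W (v k)
  anti : ∀ k, ∀ z ∈ W, v (k + 1) z ≤ v k z
  lim : ∀ z ∈ W, Tendsto (fun k => (v k z : EReal)) atTop (𝓝 (u z))

/-- `m` is the Monge-Ampère measure `(dd^c u)^n / c_n` of the locally bounded psh function `u` on
`Ω` (Bedford-Taylor): `det ((v_k)_{j k̄}) λ → m` weakly on `W` for every open `W ⊆ Ω` and all smooth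
psh `v_k` on `W` decreasing to `u`. -/
structure IsMA (Ω : Set (V n)) (u : V n → EReal) (m : Measure (V n)) : Prop where
  out : m Ωᶜ = 0
  fin : ∀ K ⊆ Ω, IsCompact K → m K < ⊤
  lim : ∀ W : Set (V n), IsOpen W → W ⊆ Ω → ∀ v : ℕ → V n → ℝ, Dec W v u → ∀ χ : V n → ℝ, CC W χ →
    Tendsto (fun k => ∫ z, χ z * DD (v k) z) atTop (𝓝 (∫ z, χ z ∂m))

/-- `ν` is the non-pluripolar product `⟨dd^c u⟩^n / c_n` of the psh function `u` on `Ω`: the limit
of `1_{u > -j} (dd^c max(u,-j))^n / c_n`. -/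
structure IsNP (Ω : Set (V n)) (u : V n → EReal) (ν : Measure (V n)) : Prop where
  out : ν Ωᶜ = 0
  lim : ∃ m : ℕ → Measure (V n), (∀ j : ℕ, IsMA Ω (fun z => max (u z) ((-(j : ℝ) : ℝ) : EReal)) (m j)) ∧
    ∀ E : Set (V n), MeasurableSet E → E ⊆ Ω →
      Tendsto (fun j : ℕ => m j (E ∩ {z | ((-(j : ℝ) : ℝ) : EReal) < u z})) atTop (𝓝 (ν E))

end Pool.Agent.Helper13.AM
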