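import Pool.Agent.Helper29.AM.MeanA

/-!
# Block AM-M1b: smoothness of means of locally integrable functions (0.3)

For an invertible frame `A` and `t > 0`, `M (t A) u z = ∫ u(y) ρ(A⁻¹(y - z)/t) |det_ℝ (tA)|⁻¹ dy`
(`|det_ℝ (tA)| = t^{2n} |det A|²`), a convolution with a smooth compactly supported kernel depending
smoothly on `t > 0`: smooth in `(z,t)`; only the values of `u` on `z + t A(closedBall 0 1)` matter,
so `u` may be multiplied by the indicator of a compact subset of `Ω`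
(Mathlib: `contDiff_convolution_right_with_param`, or differentiation under the integral sign).
`Phi_eq`, `M_comp`: linear changes of variables. `M_comm`: Fubini.
`M_radial`: `ρ` is invariant under `η ↦ e^{is} η`.
-/

set_option autoImplicit false

namespace Pool.Agent.Helper29.AM

open MeasureTheory Set Filter Topology
open scoped ComplexOrder

variable {n : ℕ}

/-- change of variables for an invertible real linear map -/
private theorem mb_cov (B : V n ≃L[ℝ] V n) :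
    ∃ c : ℝ, ∀ k : V n → ℝ, ∫ η, k (B η) = c * ∫ y, k y := by
  have hdet : LinearMap.det (B : V n →ₗ[ℝ] V n) ≠ 0 :=
    (LinearEquiv.isUnit_det' (B.toLinearEquiv)).ne_zero
  refine ⟨(ENNReal.ofReal |(LinearMap.det (B : V n →ₗ[ℝ] V n))⁻¹|).toReal, fun k => ?_⟩
  have h1 := Measure.map_linearMap_addHaar_eq_smul_addHaar (volume : Measure (V n)) hdet
  have h2 := B.toHomeomorph.measurableEmbedding.integral_map (μ := (volume : Measure (V n))) k
  have h3 : Measure.map (B.toHomeomorph) (volume : Measure (V n)) =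
      ENNReal.ofReal |(LinearMap.det (B : V n →ₗ[ℝ] V n))⁻¹| • volume := h1
  rw [h3, integral_smul_measure] at h2
  exact h2.symm

/-- the mean as a convolution -/
private theorem mb_formula (B : V n ≃L[ℝ] V n) : ∃ c : ℝ, ∀ (κ u : V n → ℝ) (z : V n) (t : ℝ),
    0 < t → ∫ η, κ η * u (z + t • B η) =
      ∫ y, u y * ((t ^ Module.finrank ℝ (V n))⁻¹ * c * κ (t⁻¹ • B.symm (y - z))) := by
  obtain ⟨c, hc⟩ := mb_cov B
  refine ⟨c, fun κ u z t ht => ?_⟩
  have h1 := Measure.integral_comp_smul_of_nonneg (volume : Measure (V n))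
    (fun η => κ (t⁻¹ • η) * u (z + B η)) t (hR := ht.le)
  have e1 : ∀ η : V n, κ (t⁻¹ • t • η) * u (z + B (t • η)) = κ η * u (z + t • B η) := by
    intro η
    rw [inv_smul_smul₀ ht.ne', map_smul]
  simp only [e1] at h1
  rw [h1]
  have h2 := hc (fun y => κ (t⁻¹ • B.symm y) * u (z + y))
  simp only [ContinuousLinearEquiv.symm_apply_apply] at h2
  rw [h2]
  have h3 := integral_add_left_eq_self (μ := (volume : Measure (V n)))
    (fun y => κ (t⁻¹ • B.symm (y - z)) * u y) z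
  simp only [add_sub_cancel_left] at h3
  rw [h3, smul_eq_mul, ← mul_assoc, ← integral_const_mul]
  congr 1
  ext y
  ring

/-- the general statement -/
private theorem mb_smooth {A : Lin n} (hA : A.det ≠ 0) {κ : V n → ℝ}
    (hκ : ContDiff ℝ (⊤ : ℕ∞) κ) (hκ0 : ∀ η, 1 ≤ ‖η‖ → κ η = 0) {Ω : Set (V n)} (hΩ : IsOpen Ω)
    {u : V n → ℝ} (hu : LocallyIntegrableOn u Ω volume) :
    ContDiffOn ℝ (⊤ : ℕ∞) (fun p : V n × ℝ => ∫ η, κ η * u (p.1 + ((p.2 : ℂ) • A) η))
      {p | 0 < p.2 ∧ ∀ η : V n, ‖η‖ ≤ 1 → p.1 + ((p.2 : ℂ) • A) η ∈ Ω} := by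
  let B : V n ≃L[ℝ] V n := (A.toContinuousLinearEquivOfDetNeZero hA).restrictScalars ℝ
  have hB : ∀ (t : ℝ) (η : V n), ((t : ℂ) • A) η = t • B η := by
    intro t η
    rw [_root_.smul_apply, Complex.coe_smul]
    rfl
  obtain ⟨c, hc⟩ := mb_formula B
  rintro ⟨z0, t0⟩ ⟨ht0, h0⟩
  simp only at ht0 h0
  -- a compact neighbourhood of the ellipsoid
  have hE : IsCompact ((fun η : V n => z0 + ((t0 : ℂ) • A) η) '' Metric.closedBall 0 1) :=
    (isCompact_closedBall 0 1).image (by fun_prop)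
  have hEΩ : ((fun η : V n => z0 + ((t0 : ℂ) • A) η) '' Metric.closedBall 0 1) ⊆ Ω := by
    rintro _ ⟨η, hη, rfl⟩
    exact h0 η (by simpa using hη)
  obtain ⟨K, hK, hEK, hKΩ⟩ := exists_compact_between hE hΩ hEΩ
  let N : Set (V n × ℝ) := {p | ∀ η : V n, ‖η‖ ≤ 1 → p.1 + ((p.2 : ℂ) • A) η ∈ interior K} ∩
    {p | t0 / 2 < p.2 ∧ p.2 < 2 * t0}
  have hN : IsOpen N := (isOpen_ell A isOpen_interior).inter
    ((isOpen_lt continuous_const continuous_snd).inter (isOpen_lt continuous_snd continuous_const))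
  have hmem : ((z0, t0) : V n × ℝ) ∈ N := by
    refine ⟨fun η hη => hEK ⟨η, by simpa using hη, rfl⟩, ?_, ?_⟩
    · show t0 / 2 < t0
      linarith
    · show t0 < 2 * t0
      linarith
  have hf : LocallyIntegrable (K.indicator u) (volume : Measure (V n)) :=
    ((integrable_indicator_iff hK.measurableSet).2
      (hu.integrableOn_compact_subset hKΩ hK)).locallyIntegrable
  let g : V n × ℝ → V n → ℝ := fun p x =>
    (p.2 ^ Module.finrank ℝ (V n))⁻¹ * c * κ (p.2⁻¹ • B.symm (-x))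
  have hconv : ContDiffOn ℝ (⊤ : ℕ∞) (fun p : V n × ℝ =>
      (MeasureTheory.convolution (K.indicator u) (g p) (ContinuousLinearMap.mul ℝ ℝ) volume) p.1)
      N := by
    refine contDiffOn_convolution_right_with_param_comp (ContinuousLinearMap.mul ℝ ℝ)
      contDiffOn_fst hN (isCompact_closedBall (0 : V n) (‖(B : V n →L[ℝ] V n)‖ * (2 * t0)))
      ?_ hf ?_
    · intro p x hp hx
      have hp2 : 0 < p.2 := by
        have h3 : t0 / 2 < p.2 := hp.2.1
        linarith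
      show (p.2 ^ Module.finrank ℝ (V n))⁻¹ * c * κ (p.2⁻¹ • B.symm (-x)) = 0
      rw [hκ0, mul_zero]
      by_contra hlt
      push Not at hlt
      apply hx
      rw [mem_closedBall_zero_iff]
      have hx' : x = B (p.2 • (p.2⁻¹ • B.symm x)) := by
        rw [smul_inv_smul₀ hp2.ne', ContinuousLinearEquiv.apply_symm_apply]
      have hn : ‖p.2⁻¹ • B.symm x‖ < 1 := by
        rw [map_neg, smul_neg, norm_neg] at hlt
        exact hlt
      calc ‖x‖ = ‖(B : V n →L[ℝ] V n) (p.2 • (p.2⁻¹ • B.symm x))‖ := by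
            conv_lhs => rw [hx']
            rfl
        _ ≤ ‖(B : V n →L[ℝ] V n)‖ * ‖p.2 • (p.2⁻¹ • B.symm x)‖ := ContinuousLinearMap.le_opNorm _ _
        _ ≤ ‖(B : V n →L[ℝ] V n)‖ * (2 * t0) := by
            apply mul_le_mul_of_nonneg_left _ (norm_nonneg _)
            rw [norm_smul, Real.norm_of_nonneg hp2.le]
            have h3 : p.2 < 2 * t0 := hp.2.2
            nlinarith [norm_nonneg (p.2⁻¹ • B.symm x)]
    · -- smoothness of the kernel
      intro q hq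
      have hq2 : q.1.2 ≠ 0 := by
        have h4 : t0 / 2 < q.1.2 := hq.1.2.1
        have h3 : 0 < q.1.2 := by linarith
        exact h3.ne'
      apply ContDiffAt.contDiffWithinAt
      show ContDiffAt ℝ (⊤ : ℕ∞) (fun q : (V n × ℝ) × V n =>
        (q.1.2 ^ Module.finrank ℝ (V n))⁻¹ * c * κ (q.1.2⁻¹ • B.symm (-q.2))) q
      have h1 : ContDiffAt ℝ (⊤ : ℕ∞) (fun q : (V n × ℝ) × V n => q.1.2) q := by fun_prop
      have h2 : ContDiffAt ℝ (⊤ : ℕ∞) (fun q : (V n × ℝ) × V n => B.symm (-q.2)) q := by fun_prop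
      have h3 : ContDiffAt ℝ (⊤ : ℕ∞) (fun q : (V n × ℝ) × V n => q.1.2⁻¹) q := h1.inv hq2
      have h4 : ContDiffAt ℝ (⊤ : ℕ∞)
          (fun q : (V n × ℝ) × V n => (q.1.2 ^ Module.finrank ℝ (V n))⁻¹) q :=
        (h1.pow _).inv (pow_ne_zero _ hq2)
      exact (h4.mul contDiffAt_const).mul (hκ.contDiffAt.comp q (h3.smul h2))
  refine ((hconv.contDiffAt (hN.mem_nhds hmem)).congr_of_eventuallyEq ?_).contDiffWithinAt
  filter_upwards [hN.mem_nhds hmem] with p hp
  have hp2 : 0 < p.2 := by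
    have h3 : t0 / 2 < p.2 := hp.2.1
    linarith
  simp only [hB]
  rw [hc κ u p.1 p.2 hp2, MeasureTheory.convolution]
  congr 1
  ext y
  rw [ContinuousLinearMap.mul_apply']
  show u y * _ = K.indicator u y *
    ((p.2 ^ Module.finrank ℝ (V n))⁻¹ * c * κ (p.2⁻¹ • B.symm (-(p.1 - y))))
  rw [neg_sub]
  by_cases hy : y ∈ K
  · rw [indicator_of_mem hy]
  · rw [indicator_of_notMem hy, zero_mul, hκ0, mul_zero, mul_zero]
    by_contra hlt
    push Not at hlt
    apply hy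
    apply interior_subset
    have h1 := hp.1 (p.2⁻¹ • B.symm (y - p.1)) hlt.le
    rw [hB, map_smul, smul_inv_smul₀ hp2.ne', ContinuousLinearEquiv.apply_symm_apply,
      add_sub_cancel] at h1
    exact h1

private theorem sc_one_mb : (sc 1 : Lin n) = 1 := by
  simp [sc]

/-- joint smoothness in `(z,t)` -/
theorem contDiffOn_M {A : Lin n} (hA : A.det ≠ 0) {Ω : Set (V n)} (hΩ : IsOpen Ω)
    {u : V n → ℝ} (hu : LocallyIntegrableOn u Ω volume) :
    ContDiffOn ℝ (⊤ : ℕ∞) (fun p : V n × ℝ => M ((p.2 : ℂ) • A) u p.1)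
      {p | 0 < p.2 ∧ ∀ η : V n, ‖η‖ ≤ 1 → p.1 + ((p.2 : ℂ) • A) η ∈ Ω} :=
  mb_smooth hA rho_contDiff (fun _ h => rho_eq_zero h) hΩ hu

theorem contDiffOn_M1 {A : Lin n} (hA : A.det ≠ 0) {Ω : Set (V n)} (hΩ : IsOpen Ω)
    {u : V n → ℝ} (hu : LocallyIntegrableOn u Ω volume) :
    ContDiffOn ℝ (⊤ : ℕ∞) (fun p : V n × ℝ => M1 ((p.2 : ℂ) • A) u p.1)
      {p | 0 < p.2 ∧ ∀ η : V n, ‖η‖ ≤ 1 → p.1 + ((p.2 : ℂ) • A) η ∈ Ω} :=
  mb_smooth hA rho1_contDiff (fun _ h => rho1_eq_zero h) hΩ hu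

theorem contDiffOn_Phi {Ω : Set (V n)} (hΩ : IsOpen Ω) {u : V n → ℝ}
    (hu : LocallyIntegrableOn u Ω volume) :
    ContDiffOn ℝ (⊤ : ℕ∞) (fun p : V n × ℝ => Phi u p.1 p.2) {p | 0 < p.2 ∧ p.1 ∈ shr Ω p.2} := by
  have h1 := contDiffOn_M (A := (1 : Lin n)) (by rw [← sc_one_mb, det_sc]; simp) hΩ hu
  refine h1.mono ?_
  rintro p ⟨hp, hp'⟩
  exact ⟨hp, (mem_shr_iff hp.le).1 hp'⟩

theorem contDiffOn_Phi_left {Ω : Set (V n)} (hΩ : IsOpen Ω) {u : V n → ℝ}
    (hu : LocallyIntegrableOn u Ω volume) {t : ℝ} (ht : 0 < t) :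
    ContDiffOn ℝ (⊤ : ℕ∞) (fun z => Phi u z t) (shr Ω t) := by
  have h1 := contDiffOn_Phi hΩ hu
  exact h1.comp (contDiffOn_id.prodMk contDiffOn_const) fun z hz => ⟨ht, hz⟩

end Pool.Agent.Helper29.AM
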