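import Pool.Agent.Helper29.AM.MeanB

/-!
# Block AM-M1c: commutation, Lebesgue differentiation, duality

For an invertible frame `A` and `t > 0`, `M (t A) u z = ∫ u(y) ρ(A⁻¹(y - z)/t) |det_ℝ (tA)|⁻¹ dy`
(`|det_ℝ (tA)| = t^{2n} |det A|²`), a convolution with a smooth compactly supported kernel depending
smoothly on `t > 0`: smooth in `(z,t)`; only the values of `u` on `z + t A(closedBall 0 1)` matter,
so `u` may be multiplied by the indicator of a compact subset of `Ω`
(Mathlib: `contDiff_convolution_right_with_param`, or differentiation under the integral sign).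
`Phi_eq`, `M_comp`: linear changes of variables. `M_comm`: Fubini.
`M_radial`: `ρ` is invariant under `η ↦ e^{is} η`.
-/

set_option autoImplicit false

namespace Pool.Agent.Helper29.AM

open MeasureTheory Set Filter Topology
open scoped ComplexOrder

variable {n : ℕ}

private theorem sc_real53 (t : ℝ) (η : V n) : (sc t : Lin n) η = t • η := by
  rw [sc_apply]; exact Complex.coe_smul t η

private theorem Phi_eq53 (u : V n → ℝ) (z : V n) (t : ℝ) :
    Phi u z t = ∫ η : V n, rho η * u (z + t • η) := by
  simp only [Phi, M, sc_real53]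

private theorem Phi_congr53 {u v : V n → ℝ} {z : V n} {t : ℝ}
    (h : ∀ η : V n, ‖η‖ < 1 → u (z + t • η) = v (z + t • η)) : Phi u z t = Phi v z t :=
  M_congr (fun η hη => by rw [sc_real53]; exact h η hη)

private theorem int_shear53 {f : V n → ℝ} (hf : Integrable f) (t : ℝ) :
    Integrable (fun p : V n × V n => rho p.1 * f (p.2 + t • p.1)) (volume.prod volume) := by
  have h1 : MeasurePreserving (fun p : V n × V n => (p.1, p.2 + t • p.1)) (volume.prod volume)
      (volume.prod volume) := by
    refine (MeasurePreserving.id volume).skew_product (g := fun ξ z => z + t • ξ) ?_ ?_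
    · exact (measurable_snd.add (measurable_fst.const_smul t))
    · exact Eventually.of_forall (fun ξ => (measurePreserving_add_right volume (t • ξ)).map_eq)
  have h2 : Integrable (fun p : V n × V n => rho p.1 * f p.2) (volume.prod volume) :=
    rho_integrable.mul_prod hf
  exact h1.integrable_comp_of_integrable h2

private theorem rho_bound53 : ∃ C : ℝ, 0 ≤ C ∧ ∀ η : V n, ‖rho η‖ ≤ C := by
  obtain ⟨C, hC⟩ := rho_hasCompactSupport.exists_bound_of_continuous
    (rho_contDiff (n := n)).continuous
  exact ⟨C, (norm_nonneg _).trans (hC 0), hC⟩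

private theorem int_aff53 {f : V n → ℝ} (hf : Integrable f) (z : V n) {t : ℝ} (ht : t ≠ 0) :
    Integrable (fun y => f (z + t • y)) :=
  (hf.comp_add_left z).comp_smul ht

private theorem int_rho_aff53 {f : V n → ℝ} (hf : Integrable f) (z : V n) {t : ℝ} (ht : t ≠ 0) :
    Integrable (fun y => rho y * f (z + t • y)) := by
  obtain ⟨C, hC0, hC⟩ := rho_bound53 (n := n)
  exact (int_aff53 hf z ht).bdd_mul (rho_contDiff (n := n)).continuous.aestronglyMeasurable
    (Eventually.of_forall hC)

/-- Fubini: the means commute -/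
theorem Phi_Phi_comm {Ω : Set (V n)} (hΩ : IsOpen Ω) {u : V n → ℝ}
    (hu : LocallyIntegrableOn u Ω volume) {s t : ℝ} (hs : 0 < s) (ht : 0 < t) {z : V n}
    (hz : z ∈ shr Ω (s + t)) :
    Phi (fun y => Phi u y s) z t = Phi (fun y => Phi u y t) z s := by
  have hKc : IsCompact (Metric.closedBall z (s + t)) := isCompact_closedBall z (s + t)
  have hf : Integrable ((Metric.closedBall z (s + t)).indicator u) :=
    (hu.integrableOn_compact_subset hz hKc).integrable_indicator hKc.measurableSet
  set f : V n → ℝ := (Metric.closedBall z (s + t)).indicator u with hfdef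
  have e0 : ∀ η ζ : V n, ‖η‖ < 1 → ‖ζ‖ < 1 → u (z + t • η + s • ζ) = f (z + t • η + s • ζ) := by
    intro η ζ hη hζ
    rw [hfdef, Set.indicator_of_mem]
    rw [Metric.mem_closedBall, dist_eq_norm]
    have h1 : z + t • η + s • ζ - z = t • η + s • ζ := by abel
    rw [h1]
    refine (norm_add_le _ _).trans ?_
    rw [norm_smul, norm_smul, Real.norm_of_nonneg hs.le, Real.norm_of_nonneg ht.le]
    nlinarith
  have e1 : ∀ η : V n, ‖η‖ < 1 → Phi u (z + t • η) s = Phi f (z + t • η) s :=
    fun η hη => Phi_congr53 (fun ζ hζ => e0 η ζ hη hζ)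
  have e2 : ∀ ζ : V n, ‖ζ‖ < 1 → Phi u (z + s • ζ) t = Phi f (z + s • ζ) t :=
    fun ζ hζ => Phi_congr53 (fun η hη => by
      have h := e0 η ζ hη hζ
      rwa [add_right_comm z (t • η) (s • ζ)] at h)
  have e3 : Phi (fun y => Phi u y s) z t = Phi (fun y => Phi f y s) z t := Phi_congr53 e1
  have e4 : Phi (fun y => Phi u y t) z s = Phi (fun y => Phi f y t) z s := Phi_congr53 e2
  rw [e3, e4]
  simp only [Phi_eq53]
  obtain ⟨C, hC0, hC⟩ := rho_bound53 (n := n)
  have hint : Integrable (Function.uncurry fun η ζ : V n => rho η * (rho ζ * f (z + t • η + s • ζ)))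
      (volume.prod volume) := by
    have h1 := int_shear53 (int_aff53 hf z ht.ne') (s / t)
    have h2 := h1.swap
    refine (h2.bdd_mul (f := fun p : V n × V n => rho p.1) (c := C)
      ((rho_contDiff (n := n)).continuous.comp continuous_fst).aestronglyMeasurable
      (Eventually.of_forall fun p => hC p.1)).congr (Eventually.of_forall ?_)
    rintro ⟨η, ζ⟩
    simp only [Function.comp, Prod.swap, Function.uncurry]
    rw [smul_add, smul_smul, mul_div_cancel₀ s ht.ne', ← add_assoc]
  calc ∫ η : V n, rho η * ∫ ζ : V n, rho ζ * f (z + t • η + s • ζ)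
      = ∫ η : V n, ∫ ζ : V n, rho η * (rho ζ * f (z + t • η + s • ζ)) := by
        simp only [integral_const_mul]
    _ = ∫ ζ : V n, ∫ η : V n, rho η * (rho ζ * f (z + t • η + s • ζ)) :=
        integral_integral_swap hint
    _ = ∫ ζ : V n, rho ζ * ∫ η : V n, rho η * f (z + s • ζ + t • η) := by
        refine integral_congr_ae (Eventually.of_forall fun ζ => ?_)
        simp only
        rw [← integral_const_mul]
        refine integral_congr_ae (Eventually.of_forall fun η => ?_)
        simp only
        rw [add_right_comm z (s • ζ) (t • η)]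
        ring

private theorem int_rho_const53 (c : ℝ) : ∫ η : V n, rho η * c = c := by
  rw [integral_mul_const, integral_rho, one_mul]

/-- the mean of `|f - f(x)|` over a ball controls the mean -/
private theorem Phi_sub_le53 {f : V n → ℝ} (hf : Integrable f) {C : ℝ} (hC0 : 0 ≤ C)
    (hC : ∀ η : V n, ‖rho η‖ ≤ C) (x : V n) {t : ℝ} (ht : 0 < t) :
    |Phi f x t - f x| ≤ C * (volume.real (Metric.ball (0 : V n) 1)) *
      ⨍ y in Metric.closedBall x t, ‖f y - f x‖ := by
  have h1 : Phi f x t - f x = ∫ η : V n, rho η * (f (x + t • η) - f x) := by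
    simp only [mul_sub]
    rw [integral_sub (int_rho_aff53 hf x ht.ne') (rho_integrable.mul_const _), int_rho_const53,
      Phi_eq53]
  have hcb : MeasurableSet (Metric.closedBall (0 : V n) 1) := measurableSet_closedBall
  have hfin : volume (Metric.closedBall (0 : V n) 1) ≠ ⊤ := measure_closedBall_lt_top.ne
  have hA : Integrable ((Metric.closedBall (0 : V n) 1).indicator
      (fun η => ‖f (x + t • η) - f x‖)) := by
    refine IntegrableOn.integrable_indicator ?_ hcb
    refine Integrable.norm ?_
    exact (int_aff53 hf x ht.ne').integrableOn.sub (integrableOn_const hfin)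
  have h2 : |Phi f x t - f x| ≤ C * ∫ η : V n, (Metric.closedBall (0 : V n) 1).indicator
      (fun η => ‖f (x + t • η) - f x‖) η := by
    rw [h1, ← Real.norm_eq_abs]
    refine (norm_integral_le_integral_norm _).trans ?_
    rw [← integral_const_mul]
    refine integral_mono_of_nonneg (Eventually.of_forall fun η => norm_nonneg _)
      (hA.const_mul C) (Eventually.of_forall fun η => ?_)
    simp only
    by_cases hη : ‖η‖ < 1
    · rw [Set.indicator_of_mem (by rw [Metric.mem_closedBall, dist_zero_right]; exact hη.le),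
        norm_mul]
      exact mul_le_mul_of_nonneg_right (hC η) (norm_nonneg _)
    · rw [rho_eq_zero (not_lt.1 hη), zero_mul, norm_zero]
      exact mul_nonneg hC0 (Set.indicator_nonneg (fun _ _ => norm_nonneg _) _)
  have h3 : ∫ η : V n, (Metric.closedBall (0 : V n) 1).indicator
      (fun η => ‖f (x + t • η) - f x‖) η =
      |(t ^ Module.finrank ℝ (V n))⁻¹| * ∫ y in Metric.closedBall x t, ‖f y - f x‖ := by
    have h4 := Measure.integral_comp_smul (volume : Measure (V n))
      (fun y => (Metric.closedBall x t).indicator (fun y => ‖f y - f x‖) (x + y)) t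
    rw [smul_eq_mul, integral_add_left_eq_self
      (fun y => (Metric.closedBall x t).indicator (fun y => ‖f y - f x‖) y) x,
      integral_indicator measurableSet_closedBall] at h4
    rw [← h4]
    refine integral_congr_ae (Eventually.of_forall fun η => ?_)
    simp only
    by_cases hη : ‖η‖ ≤ 1
    · rw [Set.indicator_of_mem (by rw [Metric.mem_closedBall, dist_zero_right]; exact hη),
        Set.indicator_of_mem]
      rw [Metric.mem_closedBall, dist_eq_norm, add_sub_cancel_left, norm_smul,
        Real.norm_of_nonneg ht.le]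
      nlinarith
    · rw [Set.indicator_of_notMem (by rw [Metric.mem_closedBall, dist_zero_right]; exact hη),
        Set.indicator_of_notMem]
      rw [Metric.mem_closedBall, dist_eq_norm, add_sub_cancel_left, norm_smul,
        Real.norm_of_nonneg ht.le, not_le]
      nlinarith [not_le.1 hη]
  have htp : 0 < t ^ Module.finrank ℝ (V n) := pow_pos ht _
  have hb : 0 < volume.real (Metric.ball (0 : V n) 1) := by
    rw [measureReal_def]
    exact ENNReal.toReal_pos (Metric.measure_ball_pos volume _ one_pos).ne' measure_ball_lt_top.ne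
  have h5 : ⨍ y in Metric.closedBall x t, ‖f y - f x‖ =
      (t ^ Module.finrank ℝ (V n) * volume.real (Metric.ball (0 : V n) 1))⁻¹ *
        ∫ y in Metric.closedBall x t, ‖f y - f x‖ := by
    rw [setAverage_eq, smul_eq_mul, Measure.addHaar_real_closedBall _ _ ht.le]
  rw [h5]
  refine h2.trans (le_of_eq ?_)
  rw [h3, abs_of_pos (inv_pos.2 htp)]
  field_simp

/-- Lebesgue differentiation for the means -/
theorem ae_tendsto_Phi {Ω : Set (V n)} (hΩ : IsOpen Ω) {u : V n → ℝ}
    (hu : LocallyIntegrableOn u Ω volume) :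
    ∀ᵐ z, z ∈ Ω → Tendsto (fun t => Phi u z t) (𝓝[>] 0) (𝓝 (u z)) := by
  obtain ⟨C, hC0, hC⟩ := rho_bound53 (n := n)
  rw [ae_iff]
  refine measure_null_of_locally_null _ (fun z₀ hz₀ => ?_)
  have hz₀' : z₀ ∈ Ω := by
    by_contra hne
    exact hz₀ (fun h => absurd h hne)
  obtain ⟨ε, hε, hεΩ⟩ := Metric.nhds_basis_closedBall.mem_iff.1 (hΩ.mem_nhds hz₀')
  have hKc : IsCompact (Metric.closedBall z₀ ε) := isCompact_closedBall z₀ ε
  have hf : Integrable ((Metric.closedBall z₀ ε).indicator u) :=
    (hu.integrableOn_compact_subset hεΩ hKc).integrable_indicator hKc.measurableSet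
  set f : V n → ℝ := (Metric.closedBall z₀ ε).indicator u with hfdef
  refine ⟨_, inter_mem self_mem_nhdsWithin
    (mem_nhdsWithin_of_mem_nhds (Metric.ball_mem_nhds z₀ (half_pos hε))), ?_⟩
  have hL := IsUnifLocDoublingMeasure.ae_tendsto_average_norm_sub
    (volume : Measure (V n)) hf.locallyIntegrable 1
  rw [ae_iff] at hL
  refine measure_mono_null ?_ hL
  rintro x ⟨hx1, hx2⟩ hP
  refine hx1 (fun _ => ?_)
  have hP' := hP (ι := ℝ) (l := 𝓝[>] (0 : ℝ)) (fun _ => x) (fun t => t) tendsto_id (by
    filter_upwards [self_mem_nhdsWithin] with t ht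
    exact Metric.mem_closedBall_self (by rw [one_mul]; exact le_of_lt ht))
  have hxb : dist x z₀ < ε / 2 := hx2
  have hux : u x = f x := by
    rw [hfdef, Set.indicator_of_mem]
    rw [Metric.mem_closedBall]
    linarith
  have heq : ∀ᶠ t in 𝓝[>] (0 : ℝ), |Phi u x t - u x| ≤
      C * (volume.real (Metric.ball (0 : V n) 1)) *
        ⨍ y in Metric.closedBall x t, ‖f y - f x‖ := by
    filter_upwards [self_mem_nhdsWithin,
      mem_nhdsWithin_of_mem_nhds (Iio_mem_nhds (half_pos hε))] with t ht ht2
    have ht0 : 0 < t := ht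
    have ht2' : t < ε / 2 := ht2
    have h1 : Phi u x t = Phi f x t := by
      refine Phi_congr53 (fun ξ hξ => ?_)
      rw [hfdef, Set.indicator_of_mem]
      rw [Metric.mem_closedBall]
      have h2 : dist (x + t • ξ) x < ε / 2 := by
        rw [dist_eq_norm, add_sub_cancel_left, norm_smul, Real.norm_of_nonneg ht0.le]
        nlinarith
      have := dist_triangle (x + t • ξ) x z₀
      linarith
    rw [h1, hux]
    exact Phi_sub_le53 hf hC0 hC x ht0
  rw [tendsto_iff_norm_sub_tendsto_zero]
  simp only [Real.norm_eq_abs]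
  have hlim : Tendsto (fun t => C * (volume.real (Metric.ball (0 : V n) 1)) *
        ⨍ y in Metric.closedBall x t, ‖f y - f x‖) (𝓝[>] 0) (𝓝 0) := by
    have := hP'.const_mul (C * (volume.real (Metric.ball (0 : V n) 1)))
    rwa [mul_zero] at this
  exact squeeze_zero' (Eventually.of_forall fun t => abs_nonneg _) heq hlim

/-- the mean is a contraction of `L¹` -/
private theorem Phi_int53 {f : V n → ℝ} (hf : Integrable f) (t : ℝ) :
    Integrable (fun z => Phi f z t) ∧ ∫ z, |Phi f z t| ≤ ∫ z, |f z| := by
  have h1 := int_shear53 hf t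
  have h2 := int_shear53 hf.abs t
  have e1 : (fun z => Phi f z t) = fun z => ∫ ξ : V n, rho ξ * f (z + t • ξ) := by
    funext z; exact Phi_eq53 f z t
  refine ⟨by rw [e1]; exact h1.integral_prod_right, ?_⟩
  have h3 : ∫ z : V n, |Phi f z t| ≤ ∫ z : V n, ∫ ξ : V n, rho ξ * |f (z + t • ξ)| := by
    refine integral_mono_of_nonneg (Eventually.of_forall fun z => abs_nonneg _)
      h2.integral_prod_right (Eventually.of_forall fun z => ?_)
    simp only
    rw [Phi_eq53, ← Real.norm_eq_abs]
    refine (norm_integral_le_integral_norm _).trans (le_of_eq ?_)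
    refine integral_congr_ae (Eventually.of_forall fun ξ => ?_)
    simp only
    rw [norm_mul, Real.norm_of_nonneg (rho_nonneg ξ), Real.norm_eq_abs]
  refine h3.trans (le_of_eq ?_)
  have h4 : ∫ z : V n, ∫ ξ : V n, rho ξ * |f (z + t • ξ)| =
      ∫ ξ : V n, ∫ z : V n, rho ξ * |f (z + t • ξ)| :=
    (integral_integral_swap h2).symm
  rw [h4]
  have h5 : ∀ ξ : V n, ∫ z : V n, rho ξ * |f (z + t • ξ)| = rho ξ * ∫ z : V n, |f z| := by
    intro ξ
    rw [integral_const_mul, integral_add_right_eq_self (fun z => |f z|) (t • ξ)]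
  simp only [h5]
  rw [integral_mul_const, integral_rho, one_mul]

private theorem Phi_sub53 {f g : V n → ℝ} (hf : Integrable f) (hg : Integrable g) (z : V n)
    {t : ℝ} (ht : 0 < t) : Phi (fun y => f y - g y) z t = Phi f z t - Phi g z t := by
  simp only [Phi_eq53, mul_sub]
  exact integral_sub (int_rho_aff53 hf z ht.ne') (int_rho_aff53 hg z ht.ne')

private theorem tendsto_cont53 {g : V n → ℝ} (hg : Continuous g) (hc : HasCompactSupport g) :
    Tendsto (fun t => ∫ z, |Phi g z t - g z|) (𝓝[>] 0) (𝓝 0) := by
  have hgi : Integrable g := hg.integrable_of_hasCompactSupport hc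
  have hLc : IsCompact (Metric.cthickening 1 (tsupport g)) := hc.isCompact.cthickening
  have hunif : UniformContinuous g := hc.uniformContinuous_of_continuous hg
  rw [Metric.tendsto_nhdsWithin_nhds]
  intro ε hε
  set v : ℝ := volume.real (Metric.cthickening 1 (tsupport g)) with hv
  have hv0 : 0 ≤ v := measureReal_nonneg
  obtain ⟨δ, hδ, hδ'⟩ := Metric.uniformContinuous_iff.1 hunif (ε / (2 * (v + 1))) (by positivity)
  refine ⟨min δ 1, lt_min hδ one_pos, fun t ht htd => ?_⟩
  have ht0 : 0 < t := ht
  rw [Real.dist_0_eq_abs, abs_of_pos ht0] at htd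
  have ht1 : t < δ := htd.trans_le (min_le_left _ _)
  have ht2 : t < 1 := htd.trans_le (min_le_right _ _)
  rw [Real.dist_0_eq_abs, abs_of_nonneg (integral_nonneg fun z => abs_nonneg _)]
  have hpt : ∀ z : V n, |Phi g z t - g z| ≤ (Metric.cthickening 1 (tsupport g)).indicator
      (fun _ => ε / (2 * (v + 1))) z := by
    intro z
    by_cases hz : z ∈ Metric.cthickening 1 (tsupport g)
    · rw [Set.indicator_of_mem hz]
      have h1 : Phi g z t - g z = ∫ ξ : V n, rho ξ * (g (z + t • ξ) - g z) := by
        simp only [mul_sub]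
        rw [integral_sub (int_rho_aff53 hgi z ht0.ne') (rho_integrable.mul_const _),
          int_rho_const53, Phi_eq53]
      rw [h1, ← Real.norm_eq_abs]
      refine (norm_integral_le_integral_norm _).trans ?_
      rw [← int_rho_const53 (n := n) (ε / (2 * (v + 1)))]
      refine integral_mono_of_nonneg (Eventually.of_forall fun ξ => norm_nonneg _)
        (rho_integrable.mul_const _) (Eventually.of_forall fun ξ => ?_)
      simp only
      rw [norm_mul, Real.norm_of_nonneg (rho_nonneg ξ)]
      by_cases hξ : ‖ξ‖ < 1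
      · refine mul_le_mul_of_nonneg_left ?_ (rho_nonneg ξ)
        have h2 : dist (z + t • ξ) z < δ := by
          rw [dist_eq_norm, add_sub_cancel_left, norm_smul, Real.norm_of_nonneg ht0.le]
          nlinarith [norm_nonneg ξ]
        have h3 := hδ' h2
        rw [dist_eq_norm] at h3
        exact h3.le
      · rw [rho_eq_zero (not_lt.1 hξ), zero_mul, zero_mul]
    · rw [Set.indicator_of_notMem hz]
      have h1 : ∀ ξ : V n, ‖ξ‖ < 1 → g (z + t • ξ) = 0 := by
        intro ξ hξ
        by_contra hne
        refine hz (Metric.closedBall_subset_cthickening (subset_tsupport g hne) 1 ?_)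
        rw [Metric.mem_closedBall, dist_comm, dist_eq_norm, add_sub_cancel_left, norm_smul,
          Real.norm_of_nonneg ht0.le]
        nlinarith [norm_nonneg ξ]
      have h2 : g z = 0 := by
        have := h1 0 (by rw [norm_zero]; exact one_pos)
        rwa [smul_zero, add_zero] at this
      have h3 : Phi g z t = Phi (fun _ => 0) z t := Phi_congr53 h1
      rw [h3, h2, Phi_const, sub_zero, abs_zero]
  have hI : Integrable ((Metric.cthickening 1 (tsupport g)).indicator
      (fun _ : V n => ε / (2 * (v + 1)))) :=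
    (integrableOn_const hLc.measure_lt_top.ne).integrable_indicator hLc.measurableSet
  have h6 : ∫ z : V n, |Phi g z t - g z| ≤ v * (ε / (2 * (v + 1))) := by
    refine (integral_mono_of_nonneg (Eventually.of_forall fun z => abs_nonneg _) hI
      (Eventually.of_forall hpt)).trans (le_of_eq ?_)
    rw [integral_indicator hLc.measurableSet, setIntegral_const, smul_eq_mul]
  refine h6.trans_lt ?_
  rw [mul_div_assoc', div_lt_iff₀ (by positivity)]
  nlinarith

private theorem tendsto_int53 {f : V n → ℝ} (hf : Integrable f) :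
    Tendsto (fun t => ∫ z, |Phi f z t - f z|) (𝓝[>] 0) (𝓝 0) := by
  rw [Metric.tendsto_nhdsWithin_nhds]
  intro ε hε
  obtain ⟨g, hgc, hgε, hg, hgi⟩ := hf.exists_hasCompactSupport_integral_sub_le
    (ε := ε / 4) (by positivity)
  obtain ⟨δ, hδ, hδ'⟩ := Metric.tendsto_nhdsWithin_nhds.1 (tendsto_cont53 hg hgc) (ε / 4)
    (by positivity)
  refine ⟨δ, hδ, fun t ht htd => ?_⟩
  have ht0 : 0 < t := ht
  have h1 := hδ' ht htd
  rw [Real.dist_0_eq_abs, abs_of_nonneg (integral_nonneg fun z => abs_nonneg _)] at h1 ⊢
  have hfg : Integrable (fun y => f y - g y) := hf.sub hgi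
  obtain ⟨i1, i2⟩ := Phi_int53 hfg t
  have i3 : Integrable (fun z => |Phi g z t - g z|) := ((Phi_int53 hgi t).1.sub hgi).abs
  have hpt : ∀ z : V n, |Phi f z t - f z| ≤
      |Phi (fun y => f y - g y) z t| + |Phi g z t - g z| + |f z - g z| := by
    intro z
    rw [Phi_sub53 hf hgi z ht0]
    have e : Phi f z t - f z = (Phi f z t - Phi g z t) + (Phi g z t - g z) + (g z - f z) := by ring
    rw [e]
    refine (abs_add_le _ _).trans ?_
    rw [abs_sub_comm (g z) (f z)]
    exact add_le_add (abs_add_le _ _) le_rfl
  have h2 : ∫ z, |Phi f z t - f z| ≤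
      (∫ z, |Phi (fun y => f y - g y) z t|) + (∫ z, |Phi g z t - g z|) + ∫ z, |f z - g z| := by
    have i4 : Integrable (fun z => |Phi (fun y => f y - g y) z t| + |Phi g z t - g z|) :=
      i1.abs.add i3
    rw [← integral_add i1.abs i3, ← integral_add i4 hfg.abs]
    exact integral_mono_of_nonneg (Eventually.of_forall fun z => abs_nonneg _)
      (i4.add hfg.abs) (Eventually.of_forall hpt)
  have h3 : ∫ z, |f z - g z| ≤ ε / 4 := by
    simpa only [Real.norm_eq_abs] using hgε
  linarith

/-- `L¹_loc` convergence of the means -/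
theorem tendsto_Phi_L1 {Ω : Set (V n)} (hΩ : IsOpen Ω) {u : V n → ℝ}
    (hu : LocallyIntegrableOn u Ω volume) {K : Set (V n)} (hK : IsCompact K) (hKΩ : K ⊆ Ω) :
    Tendsto (fun t => ∫ z in K, |Phi u z t - u z|) (𝓝[>] 0) (𝓝 0) := by
  obtain ⟨δ, hδ, hδΩ⟩ := hK.exists_cthickening_subset_open hΩ hKΩ
  have hKc : IsCompact (Metric.cthickening δ K) := hK.cthickening
  have hf : Integrable ((Metric.cthickening δ K).indicator u) :=
    (hu.integrableOn_compact_subset hδΩ hKc).integrable_indicator hKc.measurableSet
  set f : V n → ℝ := (Metric.cthickening δ K).indicator u with hfdef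
  refine squeeze_zero' (Eventually.of_forall fun t => integral_nonneg fun z => abs_nonneg _) ?_
    (tendsto_int53 hf)
  filter_upwards [self_mem_nhdsWithin, mem_nhdsWithin_of_mem_nhds (Iio_mem_nhds hδ)] with t ht ht2
  have ht0 : 0 < t := ht
  have ht1 : t < δ := ht2
  have hint : Integrable (fun z => |Phi f z t - f z|) := ((Phi_int53 hf t).1.sub hf).abs
  have h1 : ∫ z in K, |Phi u z t - u z| = ∫ z in K, |Phi f z t - f z| := by
    refine setIntegral_congr_fun hK.measurableSet (fun z hz => ?_)
    have h2 : u z = f z := by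
      rw [hfdef, Set.indicator_of_mem (Metric.self_subset_cthickening K hz)]
    have h3 : Phi u z t = Phi f z t := by
      refine Phi_congr53 (fun ξ hξ => ?_)
      rw [hfdef, Set.indicator_of_mem]
      refine Metric.closedBall_subset_cthickening hz δ ?_
      rw [Metric.mem_closedBall, dist_eq_norm, add_sub_cancel_left, norm_smul,
        Real.norm_of_nonneg ht0.le]
      nlinarith [norm_nonneg ξ]
    show |Phi u z t - u z| = |Phi f z t - f z|
    rw [h2, h3]
  rw [h1]
  exact setIntegral_le_integral hint (Eventually.of_forall fun z => abs_nonneg _)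

/-- duality: `∫ u Φ_η(·,t) = ∫ Φ_u(·,t) η` for test functions -/
theorem integral_mul_Phi {Ω : Set (V n)} (hΩ : IsOpen Ω) {u : V n → ℝ}
    (hu : LocallyIntegrableOn u Ω volume) {η : V n → ℝ} (hη : Continuous η)
    (hc : HasCompactSupport η) {t : ℝ} (ht : 0 < t) (hs : tsupport η ⊆ shr Ω t) :
    ∫ z, u z * Phi η z t = ∫ z, Phi u z t * η z := by
  have hKc : IsCompact (Metric.cthickening t (tsupport η)) := hc.isCompact.cthickening
  have hKΩ : Metric.cthickening t (tsupport η) ⊆ Ω := by
    rw [hc.isCompact.cthickening_eq_biUnion_closedBall ht.le]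
    exact iUnion₂_subset (fun x hx => hs hx)
  have hball : ∀ x ∈ tsupport η, Metric.closedBall x t ⊆ Metric.cthickening t (tsupport η) :=
    fun x hx => Metric.closedBall_subset_cthickening hx t
  set K := Metric.cthickening t (tsupport η) with hK
  have hf : Integrable (K.indicator u) :=
    (hu.integrableOn_compact_subset hKΩ hKc).integrable_indicator hKc.measurableSet
  set f : V n → ℝ := K.indicator u with hfdef
  have hmem : ∀ (z ξ : V n), ‖ξ‖ < 1 → z + t • ξ ∈ Metric.closedBall z t := by
    intro z ξ hξ
    rw [Metric.mem_closedBall, dist_eq_norm, add_sub_cancel_left, norm_smul,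
      Real.norm_of_nonneg ht.le]
    nlinarith
  have e1 : ∀ z, u z * Phi η z t = f z * Phi η z t := by
    intro z
    by_cases hz : z ∈ K
    · rw [hfdef, Set.indicator_of_mem hz]
    · have h0 : Phi η z t = 0 := by
        have h1 : Phi η z t = Phi (fun _ => 0) z t := by
          refine Phi_congr53 (fun ξ hξ => ?_)
          by_contra hne
          have h2 : z + t • ξ ∈ tsupport η := subset_tsupport η hne
          refine hz (hball _ h2 ?_)
          rw [Metric.mem_closedBall, dist_comm]
          exact hmem z ξ hξ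
        rw [h1, Phi_const]
      rw [h0, mul_zero, mul_zero]
  have e2 : ∀ z, Phi u z t * η z = Phi f z t * η z := by
    intro z
    by_cases hz : η z = 0
    · rw [hz, mul_zero, mul_zero]
    · have h2 : z ∈ tsupport η := subset_tsupport η hz
      rw [Phi_congr53 (v := f) (fun ξ hξ => ?_)]
      rw [hfdef, Set.indicator_of_mem (hball z h2 (hmem z ξ hξ))]
  simp only [e1, e2]
  simp only [Phi_eq53]
  obtain ⟨C, hC0, hC⟩ := rho_bound53 (n := n)
  obtain ⟨D, hD⟩ := hc.exists_bound_of_continuous hη
  have i1 : Integrable (Function.uncurry fun z ξ : V n => f z * (rho ξ * η (z + t • ξ)))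
      (volume.prod volume) := by
    have h1 : Integrable (fun p : V n × V n => f p.1 * rho p.2) (volume.prod volume) :=
      hf.mul_prod rho_integrable
    refine (h1.bdd_mul (f := fun p : V n × V n => η (p.1 + t • p.2)) (c := D)
      (hη.comp (continuous_fst.add (continuous_snd.const_smul t))).aestronglyMeasurable
      (Eventually.of_forall fun p => hD _)).congr (Eventually.of_forall ?_)
    rintro ⟨z, ξ⟩
    simp only [Function.uncurry]
    ring
  have i2 : Integrable (Function.uncurry fun ξ z : V n => f (z + t • ξ) * (rho ξ * η z))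
      (volume.prod volume) := by
    have h1 := int_shear53 hf t
    refine (h1.bdd_mul (f := fun p : V n × V n => η p.2) (c := D)
      (hη.comp continuous_snd).aestronglyMeasurable
      (Eventually.of_forall fun p => hD _)).congr (Eventually.of_forall ?_)
    rintro ⟨ξ, z⟩
    simp only [Function.uncurry]
    ring
  calc ∫ z : V n, f z * ∫ ξ : V n, rho ξ * η (z + t • ξ)
      = ∫ z : V n, ∫ ξ : V n, f z * (rho ξ * η (z + t • ξ)) := by
        simp only [integral_const_mul]
    _ = ∫ ξ : V n, ∫ z : V n, f z * (rho ξ * η (z + t • ξ)) := integral_integral_swap i1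
    _ = ∫ ξ : V n, ∫ z : V n, f (z - t • ξ) * (rho ξ * η z) := by
        refine integral_congr_ae (Eventually.of_forall fun ξ => ?_)
        simp only
        rw [← integral_add_right_eq_self (fun z => f (z - t • ξ) * (rho ξ * η z)) (t • ξ)]
        simp only [add_sub_cancel_right]
    _ = ∫ ξ : V n, ∫ z : V n, f (z + t • ξ) * (rho ξ * η z) := by
        rw [← integral_neg_eq_self (fun ξ : V n => ∫ z : V n, f (z - t • ξ) * (rho ξ * η z))]
        refine integral_congr_ae (Eventually.of_forall fun ξ => ?_)
        simp only [smul_neg, sub_neg_eq_add]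
        rw [rho_congr (norm_neg ξ)]
    _ = ∫ z : V n, ∫ ξ : V n, f (z + t • ξ) * (rho ξ * η z) := integral_integral_swap i2
    _ = ∫ z : V n, (∫ ξ : V n, rho ξ * f (z + t • ξ)) * η z := by
        refine integral_congr_ae (Eventually.of_forall fun z => ?_)
        simp only
        rw [← integral_mul_const]
        refine integral_congr_ae (Eventually.of_forall fun ξ => ?_)
        simp only
        ring

end Pool.Agent.Helper29.AM
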