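import Pool.Agent.Helper29.AM.GA3

/-!
# Block AM-PE1: the Perron family (6.1)

`St.max`: `GS.max`; where `v = w` the two lower bounds agree. `St.of_mono`: monotone convergence gives
`L¹(X)` convergence (`v_0 ≤ v_k ≤ C`), `tendsto_L1_chart`, `GS.limit`, and `Ft τ i (v_k) → Ft τ i v` a.e.
`exists_perron`: the integrals `∫ v dμ`, `v ∈ S_τ(C)`, are bounded by `C μ(X)`; take `v_k` with
`∫ v_k → sup`, replace by `max(v_0,...,v_k)`; `φ = lim v_k` (a.e. monotone bounded sequence; use `⨆ k` or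
`limsup`). For `v ∈ S_τ(C)`, `∫ max(v,φ) ≤ sup = ∫ φ`, so `v ≤ φ` a.e.
`Nice.mem_St`: `GS.of_strict`: `pot i ψ ∈ GS(ε)`; and `(e^{τ(ψ - C'')} f)^{1/n} ≤ ε` for `C''` large.
-/

set_option autoImplicit false

namespace Pool.Agent.Helper29.AM

open MeasureTheory Set Filter Topology
open scoped ComplexOrder

namespace Atl

variable {X : Type} [TopologicalSpace X] [MeasurableSpace X] {n N : ℕ} (A : Atl X n N)
variable [CompactSpace X] [T2Space X] [BorelSpace X]

omit [CompactSpace X] [T2Space X] [BorelSpace X] in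
private theorem pe1_arg_nonneg (τ : ℝ) (i : Fin N) (v : X → ℝ) {z : V n} (hz : z ∈ B3 n) :
    0 ≤ Real.exp (τ * A.lc i v z) * A.f i z :=
  mul_nonneg (Real.exp_pos _).le (A.f_pos i z (A.B3_subset i hz)).le

omit [CompactSpace X] [T2Space X] [BorelSpace X] in
private theorem pe1_Ft_nonneg (τ : ℝ) (i : Fin N) (v : X → ℝ) {z : V n} (hz : z ∈ B3 n) :
    0 ≤ A.Ft τ i v z :=
  Real.rpow_nonneg (A.pe1_arg_nonneg τ i v hz) _

omit [CompactSpace X] [T2Space X] [BorelSpace X] in
private theorem pe1_Ft_mono {τ τ' : ℝ} (i : Fin N) {v w : X → ℝ} {z : V n} (hz : z ∈ B3 n)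
    (h : τ * A.lc i v z ≤ τ' * A.lc i w z) : A.Ft τ i v z ≤ A.Ft τ' i w z := by
  unfold Ft
  refine Real.rpow_le_rpow (A.pe1_arg_nonneg τ i v hz) ?_ (by positivity)
  exact mul_le_mul_of_nonneg_right (Real.exp_le_exp.2 h) (A.f_pos i z (A.B3_subset i hz)).le

private theorem pe1_open : IsOpen (B3 n) := Metric.isOpen_ball

omit [CompactSpace X] [T2Space X] [BorelSpace X] in
private theorem pe1_Ft_meas (τ : ℝ) (i : Fin N) {v : X → ℝ}
    (h : LocallyIntegrableOn (A.lc i v) (B3 n) volume) :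
    AEStronglyMeasurable (A.Ft τ i v) (volume.restrict (B3 n)) := by
  have h1 : AEMeasurable (A.lc i v) (volume.restrict (B3 n)) := h.aestronglyMeasurable.aemeasurable
  have h2 : AEMeasurable (A.f i) (volume.restrict (B3 n)) :=
    ((((A.f_smooth i).continuousOn).mono (A.B3_subset i)).aestronglyMeasurable
      pe1_open.measurableSet).aemeasurable
  have h3 : AEMeasurable (fun z => (Real.exp (τ * A.lc i v z) * A.f i z) ^ ((1 : ℝ) / n))
      (volume.restrict (B3 n)) :=
    ((Real.measurable_exp.comp_aemeasurable (h1.const_mul τ)).mul h2).pow_const _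
  exact h3.aestronglyMeasurable

omit [CompactSpace X] [T2Space X] [BorelSpace X] in
private theorem pe1_locint {F G : V n → ℝ}
    (hF : AEStronglyMeasurable F (volume.restrict (B3 n)))
    (hG : LocallyIntegrableOn G (B3 n) volume) (h : ∀ᵐ z : V n, z ∈ B3 n → ‖F z‖ ≤ ‖G z‖) :
    LocallyIntegrableOn F (B3 n) volume := by
  rw [locallyIntegrableOn_iff pe1_open.isLocallyClosed] at hG ⊢
  intro k hk hkc
  refine Integrable.mono (hG k hk hkc) (hF.mono_measure (Measure.restrict_mono hk le_rfl)) ?_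
  rw [ae_restrict_iff' hkc.measurableSet]
  filter_upwards [h] with z hz hzk
  exact hz (hk hzk)

private theorem pe1_max {F G : V n → ℝ} (hF : LocallyIntegrableOn F (B3 n) volume)
    (hG : LocallyIntegrableOn G (B3 n) volume) :
    LocallyIntegrableOn (fun z => max (F z) (G z)) (B3 n) volume := by
  have h : (fun z => max (F z) (G z)) = fun z => (1 / 2 : ℝ) • ((F z + G z) + ‖F z - G z‖) := by
    funext z
    rw [Real.norm_eq_abs, smul_eq_mul]
    rcases le_total (F z) (G z) with h | h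
    · rw [max_eq_right h, abs_of_nonpos (by linarith)]; ring
    · rw [max_eq_left h, abs_of_nonneg (by linarith)]; ring
  rw [h]
  exact ((hF.add hG).add (hF.sub hG).norm).smul (1 / 2 : ℝ)

omit [CompactSpace X] [T2Space X] [BorelSpace X] in
private theorem pe1_g_int (i : Fin N) : LocallyIntegrableOn (A.g i) (B3 n) volume :=
  (((A.g_smooth i).continuousOn).mono (A.B3_subset i)).locallyIntegrableOn pe1_open.measurableSet

omit [CompactSpace X] [T2Space X] [BorelSpace X] in
private theorem pe1_lc_of_pot {i : Fin N} {v : X → ℝ}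
    (h : LocallyIntegrableOn (A.pot i v) (B3 n) volume) :
    LocallyIntegrableOn (A.lc i v) (B3 n) volume := by
  have h1 := h.sub (A.pe1_g_int i)
  have h2 : (fun z => A.pot i v z - A.g i z) = A.lc i v := by
    funext z
    unfold pot
    ring
  have h3 : (A.pot i v - A.g i) = A.lc i v := h2
  rw [h3] at h1
  exact h1

omit [CompactSpace X] [T2Space X] [BorelSpace X] in
private theorem pe1_pot_of_lc {i : Fin N} {v : X → ℝ}
    (h : LocallyIntegrableOn (A.lc i v) (B3 n) volume) :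
    LocallyIntegrableOn (A.pot i v) (B3 n) volume := (A.pe1_g_int i).add h

theorem St.congr {τ C : ℝ} {v w : X → ℝ} (h : A.St τ C v) (hvw : ∀ᵐ x ∂A.μ, v x = w x) :
    A.St τ C w := by
  refine ⟨?_, fun i => ?_⟩
  · filter_upwards [h.le, hvw] with x h1 h2
    rw [← h2]
    exact h1
  · have h1 : ∀ᵐ z : V n, z ∈ B3 n → A.lc i v z = A.lc i w z := by
      filter_upwards [A.ae_target hvw i] with z hz hz3
      exact hz (A.B3_subset i hz3)
    have h2 : GS (B3 n) (A.Ft τ i v) (A.pot i w) := by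
      refine (h.gs i).congr pe1_open ?_
      filter_upwards [h1] with z hz hz3
      unfold pot
      rw [hz hz3]
    refine h2.congrF pe1_open ?_ fun z hz => A.pe1_Ft_nonneg τ i w hz
    filter_upwards [h1] with z hz hz3
    unfold Ft
    rw [hz hz3]

theorem St.max_mem {τ C : ℝ} {v w : X → ℝ} (hv : A.St τ C v) (hw : A.St τ C w) :
    A.St τ C fun x => max (v x) (w x) := by
  refine ⟨?_, fun i => ?_⟩
  · filter_upwards [hv.le, hw.le] with x h1 h2
    exact max_le h1 h2
  · have hl : ∀ z, A.lc i (fun x => max (v x) (w x)) z = max (A.lc i v z) (A.lc i w z) := fun z => rfl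
    have e1 : A.pot i (fun x => max (v x) (w x)) = fun z => max (A.pot i v z) (A.pot i w z) := by
      funext z
      unfold pot
      rw [hl, max_add_add_left]
    have hFv : ∀ z, A.lc i w z ≤ A.lc i v z → A.Ft τ i (fun x => max (v x) (w x)) z = A.Ft τ i v z := by
      intro z hz
      unfold Ft
      rw [hl, max_eq_left hz]
    have hFw : ∀ z, A.lc i v z ≤ A.lc i w z → A.Ft τ i (fun x => max (v x) (w x)) z = A.Ft τ i w z := by
      intro z hz
      unfold Ft
      rw [hl, max_eq_right hz]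
    rw [e1]
    refine GS.max pe1_open (hv.gs i) (hw.gs i) ?_ (fun z hz => A.pe1_Ft_nonneg τ i _ hz) ?_ ?_ ?_
    · have hlm : LocallyIntegrableOn (A.lc i fun x => max (v x) (w x)) (B3 n) volume :=
        pe1_max (A.pe1_lc_of_pot (hv.gs i).int) (A.pe1_lc_of_pot (hw.gs i).int)
      refine pe1_locint (A.pe1_Ft_meas τ i hlm) (pe1_max (hv.gs i).intF (hw.gs i).intF)
        (ae_of_all _ fun z hz => ?_)
      rw [Real.norm_of_nonneg (A.pe1_Ft_nonneg τ i _ hz),
        Real.norm_of_nonneg ((A.pe1_Ft_nonneg τ i v hz).trans (le_max_left _ _))]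
      rcases le_total (A.lc i w z) (A.lc i v z) with h1 | h1
      · rw [hFv z h1]
        exact le_max_left _ _
      · rw [hFw z h1]
        exact le_max_right _ _
    · refine ae_of_all _ fun z _ hz => ?_
      unfold pot at hz
      exact (hFv z (by linarith)).le
    · refine ae_of_all _ fun z _ hz => ?_
      unfold pot at hz
      exact (hFw z (by linarith)).le
    · refine ae_of_all _ fun z _ hz => ?_
      unfold pot at hz
      refine le_min (hFv z (by linarith)).le (hFw z (by linarith)).le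

theorem St.of_mono {τ C : ℝ} {vk : ℕ → X → ℝ} (h : ∀ k, A.St τ C (vk k))
    (hm : ∀ᵐ x ∂A.μ, Monotone fun k => vk k x) {v : X → ℝ}
    (hv : ∀ᵐ x ∂A.μ, Tendsto (fun k => vk k x) atTop (𝓝 (v x))) : A.St τ C v := by
  have hfin : IsFiniteMeasure A.μ := A.isFiniteMeasure
  have hint : ∀ k, Integrable (vk k) A.μ := fun k => St.integrable A (h k)
  have hle : ∀ᵐ x ∂A.μ, ∀ k, vk k x ≤ C := ae_all_iff.2 fun k => (h k).le
  have hvC : ∀ᵐ x ∂A.μ, v x ≤ C := by
    filter_upwards [hle, hv] with x h1 h2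
    exact le_of_tendsto' h2 h1
  have hkv : ∀ᵐ x ∂A.μ, ∀ k, vk k x ≤ v x := by
    filter_upwards [hm, hv] with x h1 h2 k
    exact h1.ge_of_tendsto h2 k
  have h0k : ∀ᵐ x ∂A.μ, ∀ k, vk 0 x ≤ vk k x := by
    filter_upwards [hm] with x h1 k
    exact h1 (Nat.zero_le k)
  have hvm : AEStronglyMeasurable v A.μ :=
    aestronglyMeasurable_of_tendsto_ae atTop (fun k => (hint k).aestronglyMeasurable) hv
  have hvi : Integrable v A.μ := by
    refine Integrable.mono' (g := fun x => |C| + |vk 0 x|) ((integrable_const _).add (hint 0).abs) hvm ?_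
    filter_upwards [hvC, hkv] with x h1 h2
    have h3 := h2 0
    rw [Real.norm_eq_abs, abs_le]
    have h4 := neg_abs_le (vk 0 x)
    have h5 := le_abs_self C
    have h6 := abs_nonneg (vk 0 x)
    have h7 := abs_nonneg C
    constructor <;> linarith
  have hL1 : Tendsto (fun k => ∫ x, |vk k x - v x| ∂A.μ) atTop (𝓝 0) := by
    have h1 : Tendsto (fun k => ∫ x, |vk k x - v x| ∂A.μ) atTop (𝓝 (∫ _x : X, (0 : ℝ) ∂A.μ)) := by
      refine tendsto_integral_of_dominated_convergence (fun x => v x - vk 0 x)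
        (fun k => ((hint k).sub hvi).abs.aestronglyMeasurable) (hvi.sub (hint 0)) (fun k => ?_) ?_
      · filter_upwards [hkv, h0k] with x h2 h3
        have h4 := h2 k
        have h5 := h3 k
        rw [Real.norm_eq_abs, abs_abs, abs_of_nonpos (by linarith)]
        linarith
      · filter_upwards [hv] with x h2
        have h3 := (h2.sub_const (v x)).abs
        simpa using h3
    simpa using h1
  refine ⟨hvC, fun i => ?_⟩
  have hlc : LocallyIntegrableOn (A.lc i v) (B3 n) volume := A.locallyIntegrable_lc hvi i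
  have htr : ∀ᵐ z : V n, z ∈ B3 n → vk 0 ((A.e i).symm z) ≤ v ((A.e i).symm z) ∧
      v ((A.e i).symm z) ≤ C ∧
      Tendsto (fun k => vk k ((A.e i).symm z)) atTop (𝓝 (v ((A.e i).symm z))) := by
    have h1 : ∀ᵐ x ∂A.μ, vk 0 x ≤ v x ∧ v x ≤ C ∧ Tendsto (fun k => vk k x) atTop (𝓝 (v x)) := by
      filter_upwards [hkv, hvC, hv] with x h2 h3 h4
      exact ⟨h2 0, h3, h4⟩
    filter_upwards [A.ae_target h1 i] with z hz hz3
    exact hz (A.B3_subset i hz3)
  have hb : LocallyIntegrableOn (fun z => max (A.Ft τ i (vk 0) z) (A.Ft τ i (fun _ => C) z)) (B3 n)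
      volume := by
    refine pe1_max ((h 0).gs i).intF ?_
    refine ContinuousOn.locallyIntegrableOn ?_ pe1_open.measurableSet
    unfold Ft lc
    refine ContinuousOn.rpow_const ?_ fun z _ => Or.inr (by positivity)
    exact continuousOn_const.mul (((A.f_smooth i).continuousOn).mono (A.B3_subset i))
  refine GS.limit pe1_open (fun k => (h k).gs i) (A.pe1_pot_of_lc hlc) ?_
    (fun z hz => A.pe1_Ft_nonneg τ i _ hz) ?_ ?_
  · refine pe1_locint (A.pe1_Ft_meas τ i hlc) hb ?_
    filter_upwards [htr] with z hz hz3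
    obtain ⟨h1, h2, -⟩ := hz hz3
    rw [Real.norm_of_nonneg (A.pe1_Ft_nonneg τ i v hz3),
      Real.norm_of_nonneg ((A.pe1_Ft_nonneg τ i (vk 0) hz3).trans (le_max_left _ _))]
    rcases le_total 0 τ with hτ | hτ
    · refine le_trans (A.pe1_Ft_mono i hz3 ?_) (le_max_right _ _)
      exact mul_le_mul_of_nonneg_left h2 hτ
    · refine le_trans (A.pe1_Ft_mono i hz3 ?_) (le_max_left _ _)
      exact mul_le_mul_of_nonpos_left h1 hτ
  · intro K hK hKc
    exact A.tendsto_L1_chart hint hvi hL1 i hKc hK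
  · filter_upwards [htr] with z hz hz3
    obtain ⟨-, -, h3⟩ := hz hz3
    refine ⟨A.Ft τ i v z, le_rfl, ?_⟩
    unfold Ft
    refine Tendsto.rpow_const ?_ (Or.inr (by positivity))
    exact ((Real.continuous_exp.tendsto _).comp (h3.const_mul τ)).mul_const _

theorem exists_perron {τ C : ℝ} (hne : ∃ v, A.St τ C v) :
    ∃ φ, A.St τ C φ ∧ ∀ v, A.St τ C v → ∀ᵐ x ∂A.μ, v x ≤ φ x := by
  have hfin : IsFiniteMeasure A.μ := A.isFiniteMeasure
  set S : Set ℝ := {r | ∃ v, A.St τ C v ∧ ∫ x, v x ∂A.μ = r} with hS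
  have hSne : S.Nonempty := by
    obtain ⟨v, hv⟩ := hne
    exact ⟨_, v, hv, rfl⟩
  have hbd : BddAbove S := by
    refine ⟨∫ _x : X, C ∂A.μ, ?_⟩
    rintro r ⟨v, hv, rfl⟩
    exact integral_mono_ae (St.integrable A hv) (integrable_const _) hv.le
  obtain ⟨u, -, hu, huS⟩ := exists_seq_tendsto_sSup hSne hbd
  choose vk hvk hvi using huS
  let wk : ℕ → X → ℝ := fun k => Nat.rec (vk 0) (fun j w => fun x => max (w x) (vk (j + 1) x)) k
  have hw0 : wk 0 = vk 0 := rfl
  have hws : ∀ k, wk (k + 1) = fun x => max (wk k x) (vk (k + 1) x) := fun k => rfl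
  have hw : ∀ k, A.St τ C (wk k) := by
    intro k
    induction k with
    | zero => rw [hw0]; exact hvk 0
    | succ k ih => rw [hws]; exact St.max_mem A ih (hvk (k + 1))
  have hmono : ∀ x, Monotone fun k => wk k x := by
    intro x
    refine monotone_nat_of_le_succ fun k => ?_
    rw [hws]
    exact le_max_left _ _
  have hvw : ∀ k x, vk k x ≤ wk k x := by
    intro k x
    cases k with
    | zero => rw [hw0]
    | succ k => rw [hws]; exact le_max_right _ _
  have hle : ∀ᵐ x ∂A.μ, ∀ k, wk k x ≤ C := ae_all_iff.2 fun k => (hw k).le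
  set φ : X → ℝ := fun x => ⨆ k, wk k x with hφ
  have hlim : ∀ᵐ x ∂A.μ, Tendsto (fun k => wk k x) atTop (𝓝 (φ x)) := by
    filter_upwards [hle] with x hx
    exact tendsto_atTop_ciSup (hmono x) ⟨C, by rintro _ ⟨k, rfl⟩; exact hx k⟩
  have hSt : A.St τ C φ := St.of_mono A hw (ae_of_all _ hmono) hlim
  have hge : sSup S ≤ ∫ x, φ x ∂A.μ := by
    refine le_of_tendsto' hu fun k => ?_
    rw [← hvi k]
    refine integral_mono_ae (St.integrable A (hvk k)) (St.integrable A hSt) ?_
    filter_upwards [hlim] with x hx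
    exact (hvw k x).trans ((hmono x).ge_of_tendsto hx k)
  refine ⟨φ, hSt, fun v hv => ?_⟩
  have hmax := St.max_mem A hv hSt
  have h1 : ∫ x, max (v x) (φ x) ∂A.μ ≤ ∫ x, φ x ∂A.μ :=
    (le_csSup hbd ⟨_, hmax, rfl⟩).trans hge
  have h2 : Integrable (fun x => max (v x) (φ x) - φ x) A.μ :=
    (St.integrable A hmax).sub (St.integrable A hSt)
  have h3 : 0 ≤ᵐ[A.μ] fun x => max (v x) (φ x) - φ x :=
    ae_of_all _ fun x => sub_nonneg.2 (le_max_right _ _)
  have h4 : ∫ x, (max (v x) (φ x) - φ x) ∂A.μ = 0 := by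
    refine le_antisymm ?_ (integral_nonneg_of_ae h3)
    rw [integral_sub (St.integrable A hmax) (St.integrable A hSt)]
    linarith
  have h5 := (integral_eq_zero_iff_of_nonneg_ae h3 h2).1 h4
  filter_upwards [h5] with x hx
  have h6 : max (v x) (φ x) - φ x = 0 := hx
  have h7 := le_max_left (v x) (φ x)
  linarith

theorem Nice.mem_St (hn : 0 < n) {D : Set X} {ψ : X → ℝ} {ε : ℝ} (h : A.Nice D ψ ε) {τ : ℝ}
    (hτ : 0 < τ) : ∃ C' : ℝ, 0 ≤ C' ∧ ∀ C'' : ℝ, C' ≤ C'' → ∀ C : ℝ, 0 ≤ C →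
      A.St τ C fun x => ψ x - C'' := by
  obtain ⟨c, Cf, hc, hCf, hf⟩ := A.exists_f_bounds
  have hε := h.eps
  have hεn : 0 < ε ^ n := pow_pos hε n
  refine ⟨max 0 (-(Real.log (ε ^ n / Cf)) / τ), le_max_left _ _, fun C'' hC'' C hC => ?_⟩
  have hC0 : 0 ≤ C'' := (le_max_left _ _).trans hC''
  have hC1 : -(Real.log (ε ^ n / Cf)) / τ ≤ C'' := (le_max_right _ _).trans hC''
  have hexp : Real.exp (-(τ * C'')) * Cf ≤ ε ^ n := by
    have h1 : -(τ * C'') ≤ Real.log (ε ^ n / Cf) := by
      rw [div_le_iff₀ hτ] at hC1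
      linarith
    have h2 : Real.exp (-(τ * C'')) ≤ ε ^ n / Cf := by
      rw [← Real.exp_log (div_pos hεn hCf)]
      exact Real.exp_le_exp.2 h1
    rwa [le_div_iff₀ hCf] at h2
  refine ⟨ae_of_all _ fun x => ?_, fun i => ?_⟩
  · have := h.le x
    show ψ x - C'' ≤ C
    linarith
  · have h1 : GS (B3 n) (fun _ => ε) (A.pot i ψ) := GS.of_strict hn pe1_open hε.le (h.kcx i)
    have h2 : GS (B3 n) (fun _ => ε) (fun z => A.pot i ψ z + (fun _ => -C'') z) :=
      h1.add_ph pe1_open contDiffOn_const fun z _ w => lev_const _ _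
    have e1 : (fun z => A.pot i ψ z + (fun _ => -C'') z) = A.pot i fun x => ψ x - C'' := by
      funext z
      unfold pot lc
      ring
    rw [e1] at h2
    have hle : ∀ z ∈ B3 n, A.Ft τ i (fun x => ψ x - C'') z ≤ ε := by
      intro z hz
      have hz4 : ‖z‖ ≤ 4 := by
        have := mem_ball_zero_iff.1 hz
        linarith
      have e2 : ε = (ε ^ n) ^ ((1 : ℝ) / n) := by
        rw [one_div, Real.pow_rpow_inv_natCast hε.le hn.ne']
      rw [e2]
      unfold Ft
      refine Real.rpow_le_rpow (A.pe1_arg_nonneg τ i _ hz) ?_ (by positivity)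
      refine le_trans (mul_le_mul ?_ (hf i z hz4).2 (A.f_pos i z (A.B3_subset i hz)).le (Real.exp_pos _).le) hexp
      refine Real.exp_le_exp.2 ?_
      have h3 := h.le ((A.e i).symm z)
      show τ * (ψ ((A.e i).symm z) - C'') ≤ -(τ * C'')
      nlinarith
    refine h2.mono ?_ (fun z hz => A.pe1_Ft_nonneg τ i _ hz) (ae_of_all _ hle)
    refine pe1_locint (A.pe1_Ft_meas τ i (A.pe1_lc_of_pot h2.int)) h2.intF (ae_of_all _ fun z hz => ?_)
    rw [Real.norm_of_nonneg (A.pe1_Ft_nonneg τ i _ hz), Real.norm_of_nonneg hε.le]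
    exact hle z hz

/-- subsolutions for `τ = 0` which are `≤ 0` are subsolutions for all `τ` -/
theorem St.of_zero {φ : X → ℝ} (h : A.St 0 0 φ) {τ C : ℝ} (hτ : 0 ≤ τ) (hC : 0 ≤ C) :
    A.St τ C φ := by
  refine ⟨?_, fun i => ?_⟩
  · filter_upwards [h.le] with x hx
    exact hx.trans hC
  · have h1 : ∀ᵐ z : V n, z ∈ B3 n → A.Ft τ i φ z ≤ A.Ft 0 i φ z := by
      filter_upwards [A.ae_target h.le i] with z hz hz3
      refine A.pe1_Ft_mono i hz3 ?_
      rw [zero_mul]
      exact mul_nonpos_of_nonneg_of_nonpos hτ (hz (A.B3_subset i hz3))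
    refine (h.gs i).mono ?_ (fun z hz => A.pe1_Ft_nonneg τ i _ hz) h1
    refine pe1_locint (A.pe1_Ft_meas τ i (A.pe1_lc_of_pot (h.gs i).int)) (h.gs i).intF ?_
    filter_upwards [h1] with z hz hz3
    rw [Real.norm_of_nonneg (A.pe1_Ft_nonneg τ i _ hz3), Real.norm_of_nonneg (A.pe1_Ft_nonneg 0 i _ hz3)]
    exact hz hz3

end Atl

end Pool.Agent.Helper29.AM
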