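import Pool.Agent.Helper29.AM.St2

/-!
# Block AM-ST2b: Stage 1, local statement (6.2)

`W_ε := WW u_ε`, `W := WW u`. From `stage_one_mollified`, `U_ε := (1-b)(W_ε - M'δ²|z|²) + bε₁|z|²` is in
`GS(Ω', (e^{τ(W_ε - g - M₀δ²)}f)^{1/n})`; add `b (g + ψ - ε₁|z|²) ∈ PSHd` (`GS.add`); let `ε = 1/k → 0`
(`tendsto_WW_L1`, `tendsto_WW_mollify` a.e., `GS.limit`): `(1-b)(W - M'δ²|z|²) + b(g+ψ)` is in
`GS(Ω', (e^{τ(W-g-M₀δ²)}f)^{1/n})`. `W - g ≥ φ ≥ ψ - C'` a.e. (`ae_le_WW_P1`), so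
`v ≤ W - g - M₀δ²` a.e. if `M ≥ M₀ + B₀C'`-ish (`M' ≥ 0`); `GS.mono`, subtract the constant.
Upper bound: `W ≤ Φ_u(·,δ) + δ² ≤ Cτ + g + Cδ²`, `ψ ≤ 0`.
-/

set_option autoImplicit false

namespace Pool.Agent.Helper29.AM

open MeasureTheory Set Filter Topology
open scoped ComplexOrder

variable {n : ℕ}

private theorem sub50 {Ω Ω' : Set (V n)} {δ₀ δ : ℝ} (hball : ∀ z ∈ Ω', Metric.closedBall z (4 * δ₀) ⊆ Ω)
    (h0 : 0 < δ) (h1 : δ < δ₀) : Ω' ⊆ shr Ω (2 * δ) := fun z hz =>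
  (Metric.closedBall_subset_closedBall (by linarith)).trans (hball z hz)

private theorem subm50 {Ω Ω' : Set (V n)} {δ₀ δ ε : ℝ} (hball : ∀ z ∈ Ω', Metric.closedBall z (4 * δ₀) ⊆ Ω)
    (h0 : 0 < δ) (h1 : δ < δ₀) (hε : ε ≤ δ) : Ω' ⊆ shr (shr Ω ε) (2 * δ) := by
  intro z hz y hy w hw
  refine hball z hz ?_
  rw [Metric.mem_closedBall] at *
  have := dist_triangle w y z
  linarith

private theorem shrcl50 {Ω Ω' : Set (V n)} {δ₀ : ℝ} (h0 : 0 < δ₀) (hball : ∀ z ∈ Ω', Metric.closedBall z (4 * δ₀) ⊆ Ω) :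
    closure Ω' ⊆ shr Ω δ₀ := by
  intro z hz y hy
  obtain ⟨z', hz', hd⟩ := Metric.mem_closure_iff.1 hz δ₀ h0
  refine hball z' hz' ?_
  rw [Metric.mem_closedBall] at *
  have := dist_triangle y z z'
  linarith

private theorem li50 {Ω' : Set (V n)} (hΩ' : IsOpen Ω') {f : V n → ℝ}
    (h : ∀ K ⊆ Ω', IsCompact K → IntegrableOn f K volume) : LocallyIntegrableOn f Ω' volume :=
  (locallyIntegrableOn_iff hΩ'.isLocallyClosed).2 fun K hK hc => h K hK hc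

/-- the transform of the mollified function is smooth -/
private theorem smooth50 {Ω Ω' : Set (V n)} (hΩ : IsOpen Ω) {δ₀ δ ε : ℝ}
    (hball : ∀ z ∈ Ω', Metric.closedBall z (4 * δ₀) ⊆ Ω) (h0 : 0 < δ) (h1 : δ < δ₀) (hε0 : 0 < ε) (hε : ε ≤ δ)
    {u : V n → ℝ} (hu : PSHd Ω u) :
    ContDiffOn ℝ (⊤ : ℕ∞) (WW (fun y => Phi u y ε) (P1 (δ ^ 2)) δ) Ω' := by
  have hs := hu.mollify hΩ hε0
  have ho := isOpen_shr hΩ ε
  have hp : IsPen (P1 (δ ^ 2)) (δ ^ 2) := Or.inl rfl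
  have hc : 0 < δ ^ 2 := by positivity
  refine (contDiffOn_WW ho (hs.pshd ho) hp hc h0).mono fun z hz => ?_
  have hz' := subm50 hball h0 h1 hε hz
  exact ⟨hz', hs.exists_IsMn ho hp hc h0 hz'⟩

private theorem lev_const50 (c : ℝ) (z w : V n) : lev (fun _ : V n => c) z w = 0 := by
  have h1 : fderiv ℝ (fun _ : V n => c) = fun _ => 0 := by
    funext y
    simp
  have h2 : ∀ v w : V n, D2 (fun _ : V n => c) z v w = 0 := by
    intro v w
    unfold D2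
    rw [h1]
    simp
  unfold lev
  rw [h2, h2]
  simp

/-- Stage 1 for the mollified function, with the plurisubharmonic function `ψ` -/
private theorem step50 {Ω Ω' : Set (V n)} (hΩ : IsOpen Ω) (hΩ' : IsOpen Ω')
    (hsub : closure Ω' ⊆ Ω) {g f : V n → ℝ}
    (hg : ContDiffOn ℝ (⊤ : ℕ∞) g Ω) (hf : ContDiffOn ℝ (⊤ : ℕ∞) f Ω) (hf0 : ∀ z ∈ Ω, 0 < f z)
    {τ : ℝ} {φ ψ : V n → ℝ} {ε₁ M' B₀ : ℝ} (hB0 : 0 < B₀)
    (hu : PSHd Ω fun z => g z + φ z)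
    (hψ : PSHd Ω fun z => g z + ψ z - ε₁ * ‖z‖ ^ 2) {M₀ δ₀ δ ε : ℝ}
    (hball : ∀ z ∈ Ω', Metric.closedBall z (4 * δ₀) ⊆ Ω) (h0 : 0 < δ) (h1 : δ < δ₀) (hε0 : 0 < ε) (hε : ε ≤ δ)
    (hGP : ∀ z ∈ Ω',
        let W := WW (fun y => Phi (fun y => g y + φ y) y ε) (P1 (δ ^ 2)) δ
        GP (lev (fun y => (1 - B₀ * δ ^ 2) * (W y - M' * δ ^ 2 * ‖y‖ ^ 2) +
            B₀ * δ ^ 2 * (ε₁ * ‖y‖ ^ 2)) z)
          ((Real.exp (τ * (W z - g z - M₀ * δ ^ 2)) * f z) ^ ((1 : ℝ) / n))) :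
    GS Ω' (fun z => (Real.exp (τ * (WW (fun y => Phi (fun y => g y + φ y) y ε) (P1 (δ ^ 2)) δ z - g z - M₀ * δ ^ 2)) * f z) ^ ((1 : ℝ) / n))
      (fun z => (1 - B₀ * δ ^ 2) * (WW (fun y => Phi (fun y => g y + φ y) y ε) (P1 (δ ^ 2)) δ z - M' * δ ^ 2 * ‖z‖ ^ 2) +
        B₀ * δ ^ 2 * (g z + ψ z)) := by
  have hsub' : Ω' ⊆ Ω := subset_closure.trans hsub
  have hW := smooth50 hΩ hball h0 h1 hε0 hε hu
  set W := WW (fun y => Phi (fun y => g y + φ y) y ε) (P1 (δ ^ 2)) δ with hWdef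
  have hns : ContDiff ℝ (⊤ : ℕ∞) fun z : V n => ‖z‖ ^ 2 := contDiff_norm_sq ℝ
  have hU : ContDiffOn ℝ (⊤ : ℕ∞) (fun y => (1 - B₀ * δ ^ 2) * (W y - M' * δ ^ 2 * ‖y‖ ^ 2) +
            B₀ * δ ^ 2 * (ε₁ * ‖y‖ ^ 2)) Ω' :=
    (contDiffOn_const.mul (hW.sub (contDiffOn_const.mul hns.contDiffOn))).add
      (contDiffOn_const.mul (contDiffOn_const.mul hns.contDiffOn))
  have hgc : ContinuousOn g Ω' := hg.continuousOn.mono hsub'
  have hfc : ContinuousOn f Ω' := hf.continuousOn.mono hsub'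
  have hFc : ContinuousOn (fun z => (Real.exp (τ * (W z - g z - M₀ * δ ^ 2)) * f z) ^ ((1 : ℝ) / n)) Ω' := by
    refine ContinuousOn.rpow_const ?_ fun z hz => Or.inr (by positivity)
    exact ((continuousOn_const.mul ((hW.continuousOn.sub hgc).sub continuousOn_const)).rexp).mul hfc
  have h2 : GS Ω' (fun z => (Real.exp (τ * (W z - g z - M₀ * δ ^ 2)) * f z) ^ ((1 : ℝ) / n))
      (fun y => (1 - B₀ * δ ^ 2) * (W y - M' * δ ^ 2 * ‖y‖ ^ 2) + B₀ * δ ^ 2 * (ε₁ * ‖y‖ ^ 2)) := by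
    refine GS.of_smooth hΩ' (hU.of_le (show ((2 : ℕ∞) : WithTop ℕ∞) ≤ ((⊤ : ℕ∞) : WithTop ℕ∞) from WithTop.coe_le_coe.2 le_top)) (hFc.locallyIntegrableOn hΩ'.measurableSet) (fun z hz => ?_)
      (Eventually.of_forall fun z hz => hGP z hz)
    have := hf0 z (hsub' hz)
    positivity
  have h3 := (hψ.mono_set hΩ' hsub').smul (s := B₀ * δ ^ 2) (by positivity)
  have h4 := h2.add hΩ' h3
  have e1 : (fun z => (Real.exp (τ * (W z - g z - M₀ * δ ^ 2)) * f z) ^ ((1 : ℝ) / n) + B₀ * δ ^ 2 * 0) =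
      fun z => (Real.exp (τ * (W z - g z - M₀ * δ ^ 2)) * f z) ^ ((1 : ℝ) / n) := by
    funext z
    ring
  have e2 : (fun z => ((1 - B₀ * δ ^ 2) * (W z - M' * δ ^ 2 * ‖z‖ ^ 2) + B₀ * δ ^ 2 * (ε₁ * ‖z‖ ^ 2)) +
      B₀ * δ ^ 2 * (g z + ψ z - ε₁ * ‖z‖ ^ 2)) =
      fun z => (1 - B₀ * δ ^ 2) * (W z - M' * δ ^ 2 * ‖z‖ ^ 2) + B₀ * δ ^ 2 * (g z + ψ z) := by
    funext z
    ring
  rw [e1, e2] at h4
  exact h4

theorem stage_one_local (hn : 0 < n) {Ω Ω' : Set (V n)} (hΩ : IsOpen Ω) (hΩ' : IsOpen Ω')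
    (hcl : IsCompact (closure Ω')) (hsub : closure Ω' ⊆ Ω) {g f : V n → ℝ}
    (hg : ContDiffOn ℝ (⊤ : ℕ∞) g Ω) (hf : ContDiffOn ℝ (⊤ : ℕ∞) f Ω) (hf0 : ∀ z ∈ Ω, 0 < f z)
    {τ : ℝ} (hτ : 0 < τ) {φ ψ : V n → ℝ} {Cτ C' ε₁ M' B₀ : ℝ} (hε₁ : 0 < ε₁) (hM' : 0 ≤ M')
    (hB : 2 * M' ≤ B₀ * ε₁) (hB0 : 0 < B₀)
    (hφ : GS Ω (fun z => (Real.exp (τ * φ z) * f z) ^ ((1 : ℝ) / n)) (fun z => g z + φ z))
    (hφC : ∀ᵐ z, z ∈ Ω → φ z ≤ Cτ)
    (hψ : PSHd Ω fun z => g z + ψ z - ε₁ * ‖z‖ ^ 2)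
    (hψφ : ∀ᵐ z, z ∈ Ω → ψ z - C' ≤ φ z) (hψ0 : ∀ᵐ z, z ∈ Ω → ψ z ≤ 0) :
    ∃ M₀ δ₀ : ℝ, 0 < δ₀ ∧ ∀ δ : ℝ, 0 < δ → δ < δ₀ → ∀ M : ℝ, M₀ ≤ M →
      GS Ω' (fun z => (Real.exp (τ * ((1 - B₀ * δ ^ 2) *
          (WW (fun y => g y + φ y) (P1 (δ ^ 2)) δ z - g z - M' * δ ^ 2 * ‖z‖ ^ 2) +
            B₀ * δ ^ 2 * ψ z - M * δ ^ 2)) * f z) ^ ((1 : ℝ) / n))
        (fun z => g z + ((1 - B₀ * δ ^ 2) *
          (WW (fun y => g y + φ y) (P1 (δ ^ 2)) δ z - g z - M' * δ ^ 2 * ‖z‖ ^ 2) +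
            B₀ * δ ^ 2 * ψ z - M * δ ^ 2)) ∧
      ∀ᵐ z, z ∈ Ω' → (1 - B₀ * δ ^ 2) *
          (WW (fun y => g y + φ y) (P1 (δ ^ 2)) δ z - g z - M' * δ ^ 2 * ‖z‖ ^ 2) +
            B₀ * δ ^ 2 * ψ z - M * δ ^ 2 ≤ Cτ := by
  obtain ⟨M₁, δ₁, hδ₁, hball, hmain⟩ := stage_one_mollified hn hΩ hcl hsub hg hf hf0 hτ hε₁ hM' hB hB0 hφ hφC
  have hu : PSHd Ω fun z => g z + φ z := hφ.psh
  have hsub' : Ω' ⊆ Ω := subset_closure.trans hsub
  obtain ⟨C, hC0, hC⟩ := abs_Phi_sub_le hΩ (hg.of_le (show ((2 : ℕ∞) : WithTop ℕ∞) ≤ ((⊤ : ℕ∞) : WithTop ℕ∞) from WithTop.coe_le_coe.2 le_top))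
    hcl hδ₁.le (shrcl50 hδ₁ hball)
  refine ⟨max (M₁ + B₀ * C') (B₀ * |Cτ| + C + 1), min δ₁ (min 1 (1 / B₀)), lt_min hδ₁ (lt_min one_pos (by positivity)), ?_⟩
  intro δ h0 hδ M hM
  have hd1 : δ < δ₁ := hδ.trans_le (min_le_left _ _)
  have hd2 : δ < 1 := hδ.trans_le ((min_le_right _ _).trans (min_le_left _ _))
  have hd3 : δ < 1 / B₀ := hδ.trans_le ((min_le_right _ _).trans (min_le_right _ _))
  have hM1 : M₁ + B₀ * C' ≤ M := (le_max_left _ _).trans hM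
  have hM2 : B₀ * |Cτ| + C + 1 ≤ M := (le_max_right _ _).trans hM
  have hb0 : 0 ≤ B₀ * δ ^ 2 := by positivity
  have hb1 : B₀ * δ ^ 2 ≤ 1 := by
    have h2 : B₀ * δ ≤ 1 := by
      rw [lt_div_iff₀ hB0] at hd3
      linarith
    nlinarith
  have hc : 0 < δ ^ 2 := by positivity
  have hp : IsPen (P1 (δ ^ 2)) (δ ^ 2) := Or.inl rfl
  have hs2 : Ω' ⊆ shr Ω (2 * δ) := sub50 hball h0 hd1
  set W := WW (fun y => g y + φ y) (P1 (δ ^ 2)) δ with hWdef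
  set v : V n → ℝ := fun z => (1 - B₀ * δ ^ 2) * (W z - g z - M' * δ ^ 2 * ‖z‖ ^ 2) + B₀ * δ ^ 2 * ψ z - M * δ ^ 2 with hv
  -- a.e. facts
  have A1 : ∀ᵐ z, z ∈ Ω' → ∃ x, IsMn (fun y => g y + φ y) (P1 (δ ^ 2)) δ z x := by
    filter_upwards [ae_exists_IsMn hΩ hu hp hc h0] with z h hz
    exact (h (hs2 hz)).1
  have A2 : ∀ᵐ z, z ∈ Ω' → v z ≤ W z - g z - M₁ * δ ^ 2 := by
    filter_upwards [ae_le_WW_P1 hΩ hu hc h0, hψφ] with z h h' hz
    have h1 := h (hs2 hz)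
    have h2 := h' (hsub' hz)
    simp only [hv]
    have h3 : B₀ * δ ^ 2 * (ψ z - C') ≤ B₀ * δ ^ 2 * (W z - g z) := mul_le_mul_of_nonneg_left (by linarith) hb0
    have h4 : 0 ≤ (1 - B₀ * δ ^ 2) * (M' * δ ^ 2 * ‖z‖ ^ 2) := mul_nonneg (by linarith) (by positivity)
    have h5 : (M₁ + B₀ * C') * δ ^ 2 ≤ M * δ ^ 2 := mul_le_mul_of_nonneg_right hM1 hc.le
    nlinarith
  have A3 : ∀ᵐ z, z ∈ Ω' → v z ≤ Cτ := by
    have hgi : LocallyIntegrableOn g Ω volume := hg.continuousOn.locallyIntegrableOn hΩ.measurableSet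
    have hci : LocallyIntegrableOn (fun _ : V n => Cτ) Ω volume := continuousOn_const.locallyIntegrableOn hΩ.measurableSet
    have hle : ∀ᵐ y, y ∈ Ω → g y + φ y ≤ g y + Cτ := by
      filter_upwards [hφC] with y h hy
      linarith [h hy]
    filter_upwards [A1, hψ0] with z h h' hz
    obtain ⟨x, hx⟩ := h hz
    have h1 := WW_le hΩ hu hp hc h0 (hs2 hz) hx
    have hzs : z ∈ shr Ω δ := (Metric.closedBall_subset_closedBall (by linarith)).trans (hs2 hz)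
    have h2 := Phi_mono hΩ hu.int (hgi.add hci) hle h0 hzs
    have h3 := Phi_add hΩ hgi hci h0 hzs
    rw [Phi_const] at h3
    have h4 := (abs_le.1 (hC z (subset_closure hz) δ h0.le hd1.le)).2
    have h5 : W z - g z ≤ Cτ + (C + 1) * δ ^ 2 := by
      have h6 : Phi (fun y => g y + φ y) z δ ≤ Phi g z δ + Cτ := h2.trans h3.le
      linarith
    have h7 := h' (hsub' hz)
    simp only [hv]
    have h8 : 0 ≤ (1 - B₀ * δ ^ 2) * (M' * δ ^ 2 * ‖z‖ ^ 2) := mul_nonneg (by linarith) (by positivity)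
    have h9 : B₀ * δ ^ 2 * ψ z ≤ 0 := mul_nonpos_of_nonneg_of_nonpos hb0 h7
    have h10 : (1 - B₀ * δ ^ 2) * (W z - g z) ≤ (1 - B₀ * δ ^ 2) * (Cτ + (C + 1) * δ ^ 2) :=
      mul_le_mul_of_nonneg_left h5 (by linarith)
    have h11 : -(B₀ * δ ^ 2 * Cτ) ≤ B₀ * δ ^ 2 * |Cτ| := by
      have := mul_le_mul_of_nonneg_left (neg_le_abs Cτ) hb0
      linarith
    have h12 : (B₀ * |Cτ| + C + 1) * δ ^ 2 ≤ M * δ ^ 2 := mul_le_mul_of_nonneg_right hM2 hc.le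
    have h13 : 0 ≤ B₀ * δ ^ 2 * ((C + 1) * δ ^ 2) := by positivity
    nlinarith
  refine ⟨?_, A3⟩
  -- local integrability
  have iW : LocallyIntegrableOn W Ω' volume := (locallyIntegrable_WW hΩ hu hp hc h0).mono_set hs2
  have ig : LocallyIntegrableOn g Ω' volume := (hg.continuousOn.mono hsub').locallyIntegrableOn hΩ'.measurableSet
  have iN : LocallyIntegrableOn (fun z : V n => ‖z‖ ^ 2) Ω' volume :=
    (by fun_prop : Continuous fun z : V n => ‖z‖ ^ 2).continuousOn.locallyIntegrableOn hΩ'.measurableSet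
  have iψ : LocallyIntegrableOn ψ Ω' volume := by
    have h1 : LocallyIntegrableOn (fun z => g z + ψ z - ε₁ * ‖z‖ ^ 2) Ω' volume := hψ.int.mono_set hsub'
    refine li50 hΩ' fun K hK hc => ?_
    have a1 := h1.integrableOn_compact_subset hK hc
    have a2 := ig.integrableOn_compact_subset hK hc
    have a3 := iN.integrableOn_compact_subset hK hc
    have a4 := (a1.sub a2).add (a3.const_mul ε₁)
    refine a4.congr_fun (fun z _ => ?_) hc.measurableSet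
    simp only [Pi.add_apply, Pi.sub_apply]
    ring
  have iv : ∀ K ⊆ Ω', IsCompact K → IntegrableOn v K volume := by
    intro K hK hKc
    have a1 := iW.integrableOn_compact_subset hK hKc
    have a2 := ig.integrableOn_compact_subset hK hKc
    have a3 := iN.integrableOn_compact_subset hK hKc
    have a4 := iψ.integrableOn_compact_subset hK hKc
    exact ((((a1.sub a2).sub (a3.const_mul _)).const_mul _).add (a4.const_mul _)).sub (integrableOn_const hKc.measure_ne_top)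
  have hfc : ContinuousOn f Ω' := hf.continuousOn.mono hsub'
  have iF : LocallyIntegrableOn (fun z => (Real.exp (τ * v z) * f z) ^ ((1 : ℝ) / n)) Ω' volume := by
    refine li50 hΩ' fun K hK hKc => ?_
    have a1 : IntegrableOn (fun z => (Real.exp (τ * Cτ) * f z) ^ ((1 : ℝ) / n)) K volume := by
      refine ContinuousOn.integrableOn_compact hKc ?_
      exact (continuousOn_const.mul (hfc.mono hK)).rpow_const fun z _ => Or.inr (by positivity)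
    refine Integrable.mono' a1 ?_ ?_
    · have a2 : AEMeasurable v (volume.restrict K) := (iv K hK hKc).aestronglyMeasurable.aemeasurable
      have a3 : AEMeasurable f (volume.restrict K) := (hfc.mono hK).aemeasurable hKc.measurableSet
      exact (((a2.const_mul τ).exp.mul a3).pow_const _).aestronglyMeasurable
    · filter_upwards [ae_restrict_of_ae A3, ae_restrict_mem hKc.measurableSet] with z h hz
      have h1 := h (hK hz)
      have h2 := hf0 z (hsub' (hK hz))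
      rw [Real.norm_of_nonneg (by positivity)]
      refine Real.rpow_le_rpow (by positivity) (mul_le_mul_of_nonneg_right (Real.exp_le_exp.2 (mul_le_mul_of_nonneg_left h1 hτ.le)) h2.le) (by positivity)
  -- the limit
  let ε : ℕ → ℝ := fun k => δ / ((k : ℝ) + 1)
  have hε0 : ∀ k, 0 < ε k := fun k => by positivity
  have hεδ : ∀ k, ε k ≤ δ := fun k => by
    refine div_le_self h0.le ?_
    have : (0 : ℝ) ≤ k := Nat.cast_nonneg k
    linarith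
  have hεt : Tendsto ε atTop (𝓝[>] 0) := by
    refine tendsto_nhdsWithin_iff.2 ⟨?_, Eventually.of_forall hε0⟩
    have h1 := (tendsto_const_div_atTop_nhds_zero_nat δ).comp (tendsto_add_atTop_nat 1)
    refine h1.congr fun k => ?_
    simp [ε]
  have hstep := fun k => step50 hΩ hΩ' hsub hg hf hf0 hB0 hu hψ hball h0 hd1 (hε0 k) (hεδ k) (hmain δ h0 hd1 (ε k) (hε0 k) (hεδ k))
  have hlim := GS.limit (u := fun z => (1 - B₀ * δ ^ 2) * (W z - M' * δ ^ 2 * ‖z‖ ^ 2) + B₀ * δ ^ 2 * (g z + ψ z))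
    (F := fun z => (Real.exp (τ * v z) * f z) ^ ((1 : ℝ) / n)) hΩ' hstep ?_ iF (fun z hz => ?_) ?_ ?_
  · have h1 := hlim.add_ph hΩ' (q := fun _ => -(M * δ ^ 2)) contDiffOn_const fun z _ w => lev_const50 _ z w
    have e1 : (fun z => (1 - B₀ * δ ^ 2) * (W z - M' * δ ^ 2 * ‖z‖ ^ 2) + B₀ * δ ^ 2 * (g z + ψ z) + -(M * δ ^ 2)) =
        fun z => g z + v z := by
      funext z
      simp only [hv]
      ring
    rw [e1] at h1
    exact h1
  · refine li50 hΩ' fun K hK hKc => ?_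
    have a1 := iW.integrableOn_compact_subset hK hKc
    have a2 := ig.integrableOn_compact_subset hK hKc
    have a3 := iN.integrableOn_compact_subset hK hKc
    have a4 := iψ.integrableOn_compact_subset hK hKc
    exact ((a1.sub (a3.const_mul _)).const_mul _).add ((a2.add a4).const_mul _)
  · have := hf0 z (hsub' hz)
    positivity
  · intro K hK hKc
    have h1 := ((tendsto_WW_L1 hΩ hu hp hc h0 hKc (hK.trans hs2)).comp hεt).const_mul |1 - B₀ * δ ^ 2|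
    rw [mul_zero] at h1
    refine h1.congr fun k => ?_
    simp only [Function.comp]
    rw [← integral_const_mul]
    refine integral_congr_ae (Eventually.of_forall fun z => ?_)
    simp only
    rw [← abs_mul]
    congr 1
    ring
  · filter_upwards [A1, A2] with z h h' hz
    obtain ⟨x, hx⟩ := h hz
    have h2 := hf0 z (hsub' hz)
    refine ⟨(Real.exp (τ * (W z - g z - M₁ * δ ^ 2)) * f z) ^ ((1 : ℝ) / n), ?_, ?_⟩
    · exact Real.rpow_le_rpow (by positivity) (mul_le_mul_of_nonneg_right (Real.exp_le_exp.2 (mul_le_mul_of_nonneg_left (h' hz) hτ.le)) h2.le)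
        (by positivity)
    · have h3 := (tendsto_WW_mollify hΩ hu hp hc h0 (hs2 hz) hx).comp hεt
      exact (((((h3.sub_const (g z)).sub_const (M₁ * δ ^ 2)).const_mul τ).rexp).mul_const (f z)).rpow_const (Or.inr (by positivity))

end Pool.Agent.Helper29.AM
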