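import Pool.Agent.Helper29.AM.PE1
import Pool.Agent.Helper29.AM.GA4
import Pool.Agent.Helper29.AM.St3

/-!
# Block AM-PE2: Stage 1 on `X` (6.2)

`κ₀ := L`, `d₁` from `exists_cmp2`. `M' := κ₀`. `gl φ (P1 δ²) δ (κ₀δ²) = glue (s) (κ₀δ²)`, `s i = tr φ (P1 δ²) δ i`,
`c = δ²`, `|s i - s j| ≤ κ₀ δ²` a.e. (`ae_attained`, `exists_cmp2`). For each chart `i` apply
`stage_one_local` with `Ω = B3`, `Ω' = ball 0 2`, `g = g i`, `f = f i`, `φ = lc i φ`, `ψ = lc i ψ`; take the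
largest `M₀` and the smallest `δ₀`. `WW (pot i φ) .. z - g i z = tr .. (e_i⁻¹ z)` on the ball. `St_of_glue`
with `a = 1 - B₀δ²`, and `ψ` replaced by `B₀δ²ψ - Mδ²`: the function is in `S_τ(C)`, hence `≤ φ` a.e.
-/

set_option autoImplicit false

namespace Pool.Agent.Helper29.AM

open MeasureTheory Set Filter Topology
open scoped ComplexOrder

namespace Atl

variable {X : Type} [TopologicalSpace X] [MeasurableSpace X] {n N : ℕ} (A : Atl X n N)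
variable [CompactSpace X] [T2Space X] [BorelSpace X]

omit [CompactSpace X] [T2Space X] in
/-- transfer of a.e. statements from a chart to `X` -/
private theorem ae_source56 (i : Fin N) {q : V n → Prop}
    (h : ∀ᵐ z : V n, z ∈ (A.e i).target → q z) : ∀ᵐ x ∂A.μ, x ∈ (A.e i).source → q (A.e i x) := by
  have hS : MeasurableSet (A.e i).source := (A.e i).open_source.measurableSet
  have hT : MeasurableSet (A.e i).target := (A.e i).open_target.measurableSet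
  have h1 : ∀ᵐ z ∂(volume.restrict (A.e i).target), q z := (ae_restrict_iff' hT).2 h
  have h2 : ∀ᵐ z ∂((volume.restrict (A.e i).target).withDensity fun z => ENNReal.ofReal (cn n * A.f i z)), q z :=
    (withDensity_absolutelyContinuous _ _).ae_le h1
  rw [← A.μ_eq i] at h2
  have hm : AEMeasurable (A.e i) (A.μ.restrict (A.e i).source) := (A.e i).continuousOn.aemeasurable hS
  exact (ae_restrict_iff' hS).1 (ae_of_ae_map hm h2)

theorem stage_one (hn : 0 < n) : ∃ κ₀ d₁ : ℝ, 0 < κ₀ ∧ 0 < d₁ ∧ d₁ ≤ 1 / 8 ∧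
    (∀ (v : X → ℝ), A.PSX v → ∀ (P : ℝ → ℝ) (c δ : ℝ), IsPen P c → 0 < c → 0 < δ → δ ≤ d₁ →
      ∀ (i j : Fin N) (x : X), x ∈ A.Ci i 2 → x ∈ A.Ci j 2 →
      A.Att v P δ i x → A.Att v P δ j x → |A.tr v P δ i x - A.tr v P δ j x| ≤ κ₀ * c) ∧
    (∀ (D : Set X) (ψ : X → ℝ) (ε : ℝ), A.Nice D ψ ε → ∀ (τ C : ℝ) (φ : X → ℝ), 0 < τ → 0 ≤ C →
      A.St τ C φ → (∀ v, A.St τ C v → ∀ᵐ x ∂A.μ, v x ≤ φ x) →
      ∀ B₀ : ℝ, 0 < B₀ → 2 * κ₀ ≤ B₀ * ε → ∃ M δ₀ : ℝ, 0 ≤ M ∧ 0 < δ₀ ∧ δ₀ ≤ d₁ ∧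
        ∀ δ : ℝ, 0 < δ → δ < δ₀ → ∀ᵐ x ∂A.μ,
          (1 - B₀ * δ ^ 2) * A.gl φ (P1 (δ ^ 2)) δ (κ₀ * δ ^ 2) x + B₀ * δ ^ 2 * ψ x - M * δ ^ 2
            ≤ φ x) := by
  obtain ⟨L, d₁, hL, hd₁, hd₁8, hcmp⟩ := A.exists_cmp2 hn
  refine ⟨L, d₁, hL, hd₁, hd₁8, ?_, ?_⟩
  · intro v hv P c δ hP hc hδ hδ1 i j x hi hj
    exact (hcmp v hv P c δ hP hc hδ hδ1 i j x hi hj).1
  · intro D ψ ε hN τ C φ hτ hC hφ hmax B₀ hB₀ hB₀ε
    obtain ⟨C', hC'0, hC'⟩ := Nice.mem_St A hn hN hτ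
    have hψφ : ∀ᵐ x ∂A.μ, ψ x - C' ≤ φ x := hmax _ (hC' C' le_rfl C hC)
    have hloc : ∀ i : Fin N, ∃ M₀ δ₀ : ℝ, 0 < δ₀ ∧ ∀ δ : ℝ, 0 < δ → δ < δ₀ → ∀ M : ℝ, M₀ ≤ M →
      GS (Metric.ball (0 : V n) 2) (fun z => (Real.exp (τ * ((1 - B₀ * δ ^ 2) *
          (WW (fun y => A.g i y + A.lc i φ y) (P1 (δ ^ 2)) δ z - A.g i z - L * δ ^ 2 * ‖z‖ ^ 2) +
            B₀ * δ ^ 2 * A.lc i ψ z - M * δ ^ 2)) * A.f i z) ^ ((1 : ℝ) / n))
        (fun z => A.g i z + ((1 - B₀ * δ ^ 2) *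
          (WW (fun y => A.g i y + A.lc i φ y) (P1 (δ ^ 2)) δ z - A.g i z - L * δ ^ 2 * ‖z‖ ^ 2) +
            B₀ * δ ^ 2 * A.lc i ψ z - M * δ ^ 2)) ∧
      ∀ᵐ z, z ∈ Metric.ball (0 : V n) 2 → (1 - B₀ * δ ^ 2) *
          (WW (fun y => A.g i y + A.lc i φ y) (P1 (δ ^ 2)) δ z - A.g i z - L * δ ^ 2 * ‖z‖ ^ 2) +
            B₀ * δ ^ 2 * A.lc i ψ z - M * δ ^ 2 ≤ C := by
      intro i
      have hcl : closure (Metric.ball (0 : V n) 2) = Metric.closedBall 0 2 := closure_ball _ (by norm_num)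
      refine stage_one_local hn (Ω := B3 n) (C' := C') (ε₁ := ε) Metric.isOpen_ball Metric.isOpen_ball ?_ ?_
        ((A.g_smooth i).mono (A.B3_subset i)) ((A.f_smooth i).mono (A.B3_subset i))
        (fun z hz => A.f_pos i z (A.B3_subset i hz)) hτ hN.eps hL.le hB₀ε hB₀ (hφ.gs i) ?_ (hN.kcx i) ?_ ?_
      · rw [hcl]
        exact isCompact_closedBall _ _
      · rw [hcl]
        exact Metric.closedBall_subset_ball (by norm_num)
      · exact A.ae_iff.1 hφ.le i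
      · exact A.ae_iff.1 hψφ i
      · refine Eventually.of_forall fun z _ => ?_
        have h1 := hN.le ((A.e i).symm z)
        change ψ ((A.e i).symm z) ≤ 0
        linarith
    choose M₀ δ₀ hδ₀ hmain using hloc
    -- a common constant
    have hM : ∀ i, M₀ i ≤ ∑ i, |M₀ i| := fun i =>
      (le_abs_self _).trans (Finset.single_le_sum (f := fun i => |M₀ i|) (fun j _ => abs_nonneg _) (Finset.mem_univ i))
    have hev : ∀ᶠ δ : ℝ in 𝓝[>] 0, (∀ i, δ < δ₀ i) ∧ δ < d₁ ∧ δ < 1 ∧ δ < 1 / B₀ ∧ 0 < δ := by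
      refine (eventually_all.2 fun i => ?_).and ((?_ : ∀ᶠ δ : ℝ in 𝓝[>] 0, δ < d₁).and
        ((?_ : ∀ᶠ δ : ℝ in 𝓝[>] 0, δ < 1).and ((?_ : ∀ᶠ δ : ℝ in 𝓝[>] 0, δ < 1 / B₀).and self_mem_nhdsWithin)))
      · exact mem_nhdsWithin_of_mem_nhds (Iio_mem_nhds (hδ₀ i))
      · exact mem_nhdsWithin_of_mem_nhds (Iio_mem_nhds hd₁)
      · exact mem_nhdsWithin_of_mem_nhds (Iio_mem_nhds one_pos)
      · exact mem_nhdsWithin_of_mem_nhds (Iio_mem_nhds (by positivity))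
    obtain ⟨δ', h1, h2, h3, h4, h5⟩ := hev.exists
    refine ⟨∑ i, |M₀ i|, δ', Finset.sum_nonneg fun i _ => abs_nonneg _, h5, h2.le, fun δ h0 hδ => ?_⟩
    set M : ℝ := ∑ i, |M₀ i| with hMdef
    have hc : 0 < δ ^ 2 := by positivity
    have hp : IsPen (P1 (δ ^ 2)) (δ ^ 2) := Or.inl rfl
    have hd1 : δ ≤ d₁ := (hδ.trans h2).le
    have ha : 0 ≤ 1 - B₀ * δ ^ 2 := by
      have h6 : δ < 1 := hδ.trans h3
      have h7 : B₀ * δ < 1 := by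
        have := hδ.trans h4
        rw [lt_div_iff₀ hB₀] at this
        linarith
      nlinarith
    have hg := St_of_glue A hn (τ := τ) (C := C) (κ := L * δ ^ 2) (a := 1 - B₀ * δ ^ 2)
      (by positivity) ha (s := fun i => A.tr φ (P1 (δ ^ 2)) δ i) (ψ := fun x => B₀ * δ ^ 2 * ψ x - M * δ ^ 2) ?_ ?_ ?_
    · filter_upwards [hmax _ hg] with x hx
      rw [A.gl_eq_glue]
      linarith
    · filter_upwards [A.ae_attained hφ.psx hp hc h0 (hd1.trans hd₁8)] with x hx i j hi hj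
      have hi' := A.Bi_subset_Ci i 2 hi
      have hj' := A.Bi_subset_Ci j 2 hj
      exact (hcmp φ hφ.psx _ _ δ hp hc h0 hd1 i j x hi' hj').1 (hx i hi').1 (hx j hj').1
    · intro i
      have h6 := (hmain i δ h0 (hδ.trans (h1 i)) M (hM i)).1
      have key : ∀ z ∈ Metric.ball (0 : V n) 2,
          (1 - B₀ * δ ^ 2) * (WW (fun y => A.g i y + A.lc i φ y) (P1 (δ ^ 2)) δ z - A.g i z - L * δ ^ 2 * ‖z‖ ^ 2) +
            B₀ * δ ^ 2 * A.lc i ψ z - M * δ ^ 2 =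
          A.lc i (fun x => (1 - B₀ * δ ^ 2) * (A.tr φ (P1 (δ ^ 2)) δ i x - L * δ ^ 2 * ‖A.e i x‖ ^ 2) +
            (B₀ * δ ^ 2 * ψ x - M * δ ^ 2)) z := by
        intro z hz
        have hz' : z ∈ (A.e i).target := A.mem_target_of_norm_le (by
          have := mem_ball_zero_iff.1 hz
          linarith)
        change _ = (1 - B₀ * δ ^ 2) * ((WW (A.pot i φ) (P1 (δ ^ 2)) δ (A.e i ((A.e i).symm z)) - A.g i (A.e i ((A.e i).symm z))) -
          L * δ ^ 2 * ‖A.e i ((A.e i).symm z)‖ ^ 2) + (B₀ * δ ^ 2 * ψ ((A.e i).symm z) - M * δ ^ 2)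
        rw [(A.e i).right_inv hz']
        change (1 - B₀ * δ ^ 2) * (WW (A.pot i φ) (P1 (δ ^ 2)) δ z - A.g i z - L * δ ^ 2 * ‖z‖ ^ 2) +
            B₀ * δ ^ 2 * ψ ((A.e i).symm z) - M * δ ^ 2 = _
        ring
      refine (h6.congr Metric.isOpen_ball (Eventually.of_forall fun z hz => ?_)).congrF Metric.isOpen_ball
        (Eventually.of_forall fun z hz => ?_) fun z hz => ?_
      · change A.g i z + _ = A.g i z + _
        rw [key z hz]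
      · change _ = (Real.exp (τ * A.lc i (fun x => (1 - B₀ * δ ^ 2) * (A.tr φ (P1 (δ ^ 2)) δ i x - L * δ ^ 2 * ‖A.e i x‖ ^ 2) +
            (B₀ * δ ^ 2 * ψ x - M * δ ^ 2)) z) * A.f i z) ^ ((1 : ℝ) / n)
        rw [← key z hz]
      · have hz' : z ∈ (A.e i).target := A.mem_target_of_norm_le (by
          have := mem_ball_zero_iff.1 hz
          linarith)
        have hf := A.f_pos i z hz'
        unfold Ft
        positivity
    · intro i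
      have h6 := (hmain i δ h0 (hδ.trans (h1 i)) M (hM i)).2
      have h7 := A.ae_source56 i (q := fun z => z ∈ Metric.ball (0 : V n) 2 → (1 - B₀ * δ ^ 2) *
          (WW (fun y => A.g i y + A.lc i φ y) (P1 (δ ^ 2)) δ z - A.g i z - L * δ ^ 2 * ‖z‖ ^ 2) +
            B₀ * δ ^ 2 * A.lc i ψ z - M * δ ^ 2 ≤ C) (h6.mono fun z hz _ => hz)
      filter_upwards [h7] with x hx hxi
      have h8 := hx hxi.1 (mem_ball_zero_iff.2 hxi.2)
      have h9 : A.lc i ψ (A.e i x) = ψ x := by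
        change ψ ((A.e i).symm (A.e i x)) = ψ x
        rw [(A.e i).left_inv hxi.1]
      rw [h9] at h8
      change (1 - B₀ * δ ^ 2) * ((WW (A.pot i φ) (P1 (δ ^ 2)) δ (A.e i x) - A.g i (A.e i x)) -
          L * δ ^ 2 * ‖A.e i x‖ ^ 2) + (B₀ * δ ^ 2 * ψ x - M * δ ^ 2) ≤ C
      refine le_trans (le_of_eq ?_) h8
      change _ = (1 - B₀ * δ ^ 2) * (WW (A.pot i φ) (P1 (δ ^ 2)) δ (A.e i x) - A.g i (A.e i x) - L * δ ^ 2 * ‖A.e i x‖ ^ 2) +
            B₀ * δ ^ 2 * ψ x - M * δ ^ 2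
      ring

end Atl

end Pool.Agent.Helper29.AM
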