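import Pool.Agent.Helper29.AM.PE3

/-!
# Block AM-PE4: the solution stays below the cap (6.4); the equation (6.5)

`exists_cap`: `φ ≤ C` on `D` (continuity, a.e.). If `φ(x) = C`, `x ∈ B_i(1)`, `z = e_i x`: near `z`,
`Ft τ i φ ≥ F₀ := (1/2)(e^{τC} inf f)^{1/n}` (continuity), so `pot i φ ∈ GS(F₀)` near `z`, and by
`Phi_growth` (`s → 0`, continuity) `n a F₀ r² ≤ Φ_u(z,r) - u(z) ≤ Φ_g(z,r) + C - g(z) - C ≤ C_g r²`:
impossible if `n a F₀ > C_g` (`exists_Phi_g_bound`), i.e. for `C` large.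
`perron_eq`: `≥` by `BH.GP_of_GS`. Suppose `>` on a set of positive measure in the chart `i`: take a Lebesgue
point `z₀` of all entries of `H` (`F(z₀) + 3s ≤ (det H(z₀))^{1/n}`, `s > 0`), `F = Ft τ i φ` continuous.
`q := Φ_u(·,σ) - x|z-z₀|² + d`, `d = σ²`, `0 ≤ Φ_u(·,σ) - u ≤ C₁σ²` (`BH.exists_continuous`);
`x > 0` small with `GP(lf (H z₀ - 2x), F(z₀)+2s)`-room, `L` with `xL² > 4(C₁+1)`. On `B(z₀,Lσ)`:
`hess q = MH (sc σ) H - x → H(z₀) - x` uniformly as `σ → 0` (Lebesgue point; the kernel has bounded density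
w.r.t. the average over `B(z₀,(L+1)σ)`), so `GP(lev q z, F(z₀)+2s)`, while `(e^{τ(q-g)}f)^{1/n} ≤ F(z₀)+s` on the
ball for small `σ`, and `q < u` for `Lσ/2 ≤ |z-z₀| ≤ Lσ`, `q - g < C`. Then
`w := max(φ, q - g)` over the ball, `φ` elsewhere, is in `S_τ(C)` (`St_of_local`; `GS.max` in the ball), but
`q > u` near `z₀`: contradiction with maximality (positive measure).
-/

set_option autoImplicit false

namespace Pool.Agent.Helper29.AM

open MeasureTheory Set Filter Topology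
open scoped ComplexOrder

variable {n : ℕ}

private theorem lf_dot95 (H : Mat n) (v : V n) :
    lf H v = (star (fun i => star (v i)) ⬝ᵥ H.mulVec (fun i => star (v i))).re := by
  unfold lf
  congr 1
  simp only [dotProduct, Matrix.mulVec, Pi.star_apply, star_star]
  refine Finset.sum_congr rfl fun j _ => ?_
  rw [Finset.mul_sum]
  refine Finset.sum_congr rfl fun k _ => ?_
  rw [starRingEnd_apply]
  ring

private theorem lf_pos95 {H : Mat n} (hH : H.PosDef) {v : V n} (hv : v ≠ 0) : 0 < lf H v := by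
  rw [lf_dot95]
  refine hH.re_dotProduct_pos ?_
  intro h0
  apply hv
  ext i
  have := congrFun h0 i
  simpa using this

private theorem continuous_lf95 (H : Mat n) : Continuous fun v : V n => lf H v := by
  unfold lf
  fun_prop

private theorem lf_ge95 (hn : 0 < n) {H : Mat n} (hH : H.PosDef) :
    ∃ μ : ℝ, 0 < μ ∧ ∀ v : V n, μ * ‖v‖ ^ 2 ≤ lf H v := by
  have : Nonempty (Fin n) := ⟨⟨0, hn⟩⟩
  have : Nontrivial (V n) := inferInstance
  have hc : IsCompact (Metric.sphere (0 : V n) 1) := isCompact_sphere _ _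
  have hne : (Metric.sphere (0 : V n) 1).Nonempty := by
    refine (NormedSpace.sphere_nonempty (E := V n) (x := 0) (r := 1)).2 zero_le_one
  obtain ⟨v₀, hv₀, hmin⟩ := hc.exists_isMinOn hne (continuous_lf95 H).continuousOn
  have hv₀' : ‖v₀‖ = 1 := by simpa using hv₀
  refine ⟨lf H v₀, lf_pos95 hH (fun h => by simp [h] at hv₀'), fun v => ?_⟩
  by_cases hv : v = 0
  · subst hv
    simp [lf]
  have hnv : 0 < ‖v‖ := norm_pos_iff.2 hv
  have h1 : lf H v₀ ≤ lf H (((‖v‖⁻¹ : ℝ) : ℂ) • v) := by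
    refine hmin ?_
    rw [mem_sphere_zero_iff_norm, norm_smul]
    rw [Complex.norm_real, norm_inv, norm_norm]
    exact inv_mul_cancel₀ hnv.ne'
  have h2 : lf H (((‖v‖⁻¹ : ℝ) : ℂ) • v) = (‖v‖⁻¹) ^ 2 * lf H v := by
    unfold lf
    rw [← Complex.re_ofReal_mul, Finset.mul_sum]
    congr 1
    refine Finset.sum_congr rfl fun j _ => ?_
    rw [Finset.mul_sum]
    refine Finset.sum_congr rfl fun k _ => ?_
    simp only [PiLp.smul_apply, smul_eq_mul, map_mul, Complex.conj_ofReal]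
    push_cast
    ring
  rw [h2] at h1
  have h3 : lf H v = ‖v‖ ^ 2 * ((‖v‖⁻¹) ^ 2 * lf H v) := by
    field_simp
  rw [h3]
  nlinarith [sq_nonneg ‖v‖]

/-- Lemma A -/
private theorem exists_room95 (hn : 0 < n) {H : Mat n} (hH : H.PosSemidef) {F : ℝ} (hF : 0 ≤ F)
    (h : F ^ n < H.det.re) : ∃ κ F₂ : ℝ, 0 < κ ∧ F < F₂ ∧
      GP (fun v => lf H v - 2 * κ * ‖v‖ ^ 2) F₂ := by
  have hd : 0 < H.det.re := lt_of_le_of_lt (pow_nonneg hF n) h
  have hn' : (n : ℝ) ≠ 0 := by exact_mod_cast hn.ne'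
  set F' : ℝ := (H.det.re) ^ ((1 : ℝ) / n) with hF'
  have hF'0 : 0 < F' := Real.rpow_pos_of_pos hd _
  have hF'n : F' ^ n = H.det.re := by
    rw [hF', ← Real.rpow_natCast, ← Real.rpow_mul hd.le, one_div, inv_mul_cancel₀ hn',
      Real.rpow_one]
  have hFF' : F < F' := by
    by_contra hcon
    have := pow_le_pow_left₀ hF'0.le (not_lt.1 hcon) n
    linarith
  have hG : GP (lf H) F' := GP_of_det hn hH hF'0.le hF'n.le
  have hPD : H.PosDef := hH.posDef_iff_det_ne_zero.2 (fun h0 => by rw [h0] at hd; simp at hd)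
  obtain ⟨μ, hμ, hμv⟩ := lf_ge95 hn hPD
  -- c < 1 with c F' > F
  set c : ℝ := (F / F' + 1) / 2 with hc
  have hq : F / F' < 1 := (div_lt_one hF'0).2 hFF'
  have hq0 : 0 ≤ F / F' := div_nonneg hF hF'0.le
  have hc1 : c < 1 := by rw [hc]; linarith
  have hc0 : 0 ≤ c := by rw [hc]; linarith
  have hcF : F < c * F' := by
    have : F = F / F' * F' := by field_simp
    rw [hc]
    nlinarith
  refine ⟨(1 - c) * μ / 2, c * F', by have : 0 < 1 - c := by linarith
                                      positivity, hcF, ?_⟩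
  refine (hG.smul hc0).mono le_rfl fun v => ?_
  have := hμv v
  nlinarith [mul_nonneg (sub_nonneg.2 hc1.le) (sub_nonneg.2 this)]

/-- Lemma B -/
private theorem lf_sub_le95 {K H : Mat n} {ε : ℝ} (hε : ∀ j k, ‖K j k - H j k‖ ≤ ε) (v : V n) :
    lf H v - n * ε * ‖v‖ ^ 2 ≤ lf K v := by
  have h1 : lf H v - lf K v = (∑ j, ∑ k, (H j k - K j k) * v j * (starRingEnd ℂ) (v k)).re := by
    unfold lf
    rw [← Complex.sub_re, ← Finset.sum_sub_distrib]
    congr 1
    refine Finset.sum_congr rfl fun j _ => ?_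
    rw [← Finset.sum_sub_distrib]
    refine Finset.sum_congr rfl fun k _ => ?_
    ring
  have h2 : (∑ j, ∑ k, (H j k - K j k) * v j * (starRingEnd ℂ) (v k)).re ≤
      ∑ j, ∑ k, ε * ‖v j‖ * ‖v k‖ := by
    refine (Complex.re_le_norm _).trans ?_
    refine (norm_sum_le _ _).trans (Finset.sum_le_sum fun j _ => ?_)
    refine (norm_sum_le _ _).trans (Finset.sum_le_sum fun k _ => ?_)
    rw [norm_mul, norm_mul, RCLike.norm_conj, norm_sub_rev]
    gcongr
    exact hε j k
  have h3 : ∑ j, ∑ k, ε * ‖v j‖ * ‖v k‖ = ε * (∑ j, ‖v j‖) ^ 2 := by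
    rw [sq, Finset.sum_mul_sum, Finset.mul_sum]
    refine Finset.sum_congr rfl fun j _ => ?_
    rw [Finset.mul_sum]
    refine Finset.sum_congr rfl fun k _ => ?_
    ring
  have h4 : (∑ j, ‖v j‖) ^ 2 ≤ n * ‖v‖ ^ 2 := by
    have := sq_sum_le_card_mul_sum_sq (s := (Finset.univ : Finset (Fin n))) (f := fun j => ‖v j‖)
    rw [Finset.card_univ, Fintype.card_fin] at this
    rw [EuclideanSpace.norm_sq_eq]
    exact this
  by_cases h0 : n = 0
  · subst h0
    simp [lf]
  have : Nonempty (Fin n) := ⟨⟨0, Nat.pos_of_ne_zero h0⟩⟩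
  have hε0 : 0 ≤ ε := (norm_nonneg _).trans (hε (Classical.arbitrary _) (Classical.arbitrary _))
  have h5 := mul_le_mul_of_nonneg_left h4 hε0
  rw [h3] at h2
  rw [← h1] at h2
  nlinarith

private theorem rho_bound95 : ∃ C : ℝ, 0 ≤ C ∧ ∀ η : V n, ‖rho η‖ ≤ C := by
  obtain ⟨C, hC⟩ := rho_hasCompactSupport.exists_bound_of_continuous
    (rho_contDiff (n := n)).continuous
  exact ⟨C, (norm_nonneg _).trans (hC 0), hC⟩

private theorem int_aff95 {f : V n → ℂ} (hf : Integrable f) (z : V n) {t : ℝ} (ht : t ≠ 0) :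
    Integrable (fun y => f (z + t • y)) :=
  (hf.comp_add_left z).comp_smul ht

private theorem int_rho_aff95 {f : V n → ℂ} (hf : Integrable f) (z : V n) {t : ℝ} (ht : t ≠ 0) :
    Integrable (fun y => (rho y : ℂ) * f (z + t • y)) := by
  obtain ⟨C, hC0, hC⟩ := rho_bound95 (n := n)
  refine (int_aff95 hf z ht).bdd_mul (c := C) (Complex.continuous_ofReal.comp
    (rho_contDiff (n := n)).continuous).aestronglyMeasurable
    (Eventually.of_forall fun y => ?_)
  simp only [Complex.norm_real]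
  exact hC y

/-- the mean of `|f - c|` over a ball controls the mean -/
private theorem mean_sub_le95 {f : V n → ℂ} (hf : Integrable f) {C : ℝ} (hC0 : 0 ≤ C)
    (hC : ∀ η : V n, ‖rho η‖ ≤ C) (x : V n) (c : ℂ) {t : ℝ} (ht : 0 < t) :
    ‖(∫ η : V n, (rho η : ℂ) * f (x + t • η)) - c‖ ≤ C * (volume.real (Metric.ball (0 : V n) 1)) *
      ⨍ y in Metric.closedBall x t, ‖f y - c‖ := by
  have hr1 : Integrable (fun η : V n => (rho η : ℂ)) := rho_integrable.ofReal
  have hr2 : ∫ η : V n, (rho η : ℂ) * c = c := by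
    rw [integral_mul_const, integral_complex_ofReal, integral_rho, Complex.ofReal_one, one_mul]
  have h1 : (∫ η : V n, (rho η : ℂ) * f (x + t • η)) - c =
      ∫ η : V n, (rho η : ℂ) * (f (x + t • η) - c) := by
    simp only [mul_sub]
    rw [integral_sub (int_rho_aff95 hf x ht.ne') (hr1.mul_const _), hr2]
  have hcb : MeasurableSet (Metric.closedBall (0 : V n) 1) := measurableSet_closedBall
  have hfin : volume (Metric.closedBall (0 : V n) 1) ≠ ⊤ := measure_closedBall_lt_top.ne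
  have hA : Integrable ((Metric.closedBall (0 : V n) 1).indicator
      (fun η => ‖f (x + t • η) - c‖)) := by
    refine IntegrableOn.integrable_indicator ?_ hcb
    refine Integrable.norm ?_
    exact (int_aff95 hf x ht.ne').integrableOn.sub (integrableOn_const hfin)
  have h2 : ‖(∫ η : V n, (rho η : ℂ) * f (x + t • η)) - c‖ ≤
      C * ∫ η : V n, (Metric.closedBall (0 : V n) 1).indicator
      (fun η => ‖f (x + t • η) - c‖) η := by
    rw [h1]
    refine (norm_integral_le_integral_norm _).trans ?_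
    rw [← integral_const_mul]
    refine integral_mono_of_nonneg (Eventually.of_forall fun η => norm_nonneg _)
      (hA.const_mul C) (Eventually.of_forall fun η => ?_)
    simp only
    by_cases hη : ‖η‖ < 1
    · rw [Set.indicator_of_mem (by rw [Metric.mem_closedBall, dist_zero_right]; exact hη.le),
        norm_mul, Complex.norm_real]
      exact mul_le_mul_of_nonneg_right (hC η) (norm_nonneg _)
    · rw [rho_eq_zero (not_lt.1 hη), Complex.ofReal_zero, zero_mul, norm_zero]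
      exact mul_nonneg hC0 (Set.indicator_nonneg (fun _ _ => norm_nonneg _) _)
  have h3 : ∫ η : V n, (Metric.closedBall (0 : V n) 1).indicator
      (fun η => ‖f (x + t • η) - c‖) η =
      |(t ^ Module.finrank ℝ (V n))⁻¹| * ∫ y in Metric.closedBall x t, ‖f y - c‖ := by
    have h4 := Measure.integral_comp_smul (volume : Measure (V n))
      (fun y => (Metric.closedBall x t).indicator (fun y => ‖f y - c‖) (x + y)) t
    rw [smul_eq_mul, integral_add_left_eq_self
      (fun y => (Metric.closedBall x t).indicator (fun y => ‖f y - c‖) y) x,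
      integral_indicator measurableSet_closedBall] at h4
    rw [← h4]
    refine integral_congr_ae (Eventually.of_forall fun η => ?_)
    simp only
    by_cases hη : ‖η‖ ≤ 1
    · rw [Set.indicator_of_mem (by rw [Metric.mem_closedBall, dist_zero_right]; exact hη),
        Set.indicator_of_mem]
      rw [Metric.mem_closedBall, dist_eq_norm, add_sub_cancel_left, norm_smul,
        Real.norm_of_nonneg ht.le]
      nlinarith
    · rw [Set.indicator_of_notMem (by rw [Metric.mem_closedBall, dist_zero_right]; exact hη),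
        Set.indicator_of_notMem]
      rw [Metric.mem_closedBall, dist_eq_norm, add_sub_cancel_left, norm_smul,
        Real.norm_of_nonneg ht.le, not_le]
      nlinarith [not_le.1 hη]
  have htp : 0 < t ^ Module.finrank ℝ (V n) := pow_pos ht _
  have hb : 0 < volume.real (Metric.ball (0 : V n) 1) := by
    rw [measureReal_def]
    exact ENNReal.toReal_pos (Metric.measure_ball_pos volume _ one_pos).ne' measure_ball_lt_top.ne
  have h5 : ⨍ y in Metric.closedBall x t, ‖f y - c‖ =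
      (t ^ Module.finrank ℝ (V n) * volume.real (Metric.ball (0 : V n) 1))⁻¹ *
        ∫ y in Metric.closedBall x t, ‖f y - c‖ := by
    rw [setAverage_eq, smul_eq_mul, Measure.addHaar_real_closedBall _ _ ht.le]
  rw [h5]
  refine h2.trans (le_of_eq ?_)
  rw [h3, abs_of_pos (inv_pos.2 htp)]
  field_simp

/-- Lemma C, scalar version -/
private theorem ae_lebesgue95 {Ω : Set (V n)} (hΩ : IsOpen Ω) {h : V n → ℂ}
    (hh : LocallyIntegrableOn h Ω volume) :
    ∀ᵐ z₀, z₀ ∈ Ω → ∀ L : ℕ, ∀ ε : ℝ, 0 < ε → ∃ σ₀ : ℝ, 0 < σ₀ ∧ ∀ σ : ℝ, 0 < σ → σ < σ₀ →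
      ∀ z, dist z z₀ ≤ L * σ → ‖(∫ η : V n, (rho η : ℂ) * h (z + (sc σ : Lin n) η)) - h z₀‖ ≤ ε := by
  obtain ⟨C, hC0, hC⟩ := rho_bound95 (n := n)
  rw [ae_iff]
  refine measure_null_of_locally_null _ (fun z₀ hz₀ => ?_)
  have hz₀' : z₀ ∈ Ω := by
    by_contra hne
    exact hz₀ (fun h => absurd h hne)
  obtain ⟨δ, hδ, hδΩ⟩ := Metric.nhds_basis_closedBall.mem_iff.1 (hΩ.mem_nhds hz₀')
  have hKc : IsCompact (Metric.closedBall z₀ δ) := isCompact_closedBall z₀ δ
  have hf : Integrable ((Metric.closedBall z₀ δ).indicator h) :=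
    (hh.integrableOn_compact_subset hδΩ hKc).integrable_indicator hKc.measurableSet
  set f : V n → ℂ := (Metric.closedBall z₀ δ).indicator h with hfdef
  refine ⟨_, inter_mem self_mem_nhdsWithin
    (mem_nhdsWithin_of_mem_nhds (Metric.ball_mem_nhds z₀ (half_pos hδ))), ?_⟩
  have hL : ∀ᵐ x : V n, ∀ L : ℕ, ∀ {ι : Type} {l : Filter ι} (w : ι → V n) (δ' : ι → ℝ)
      (_ : Tendsto δ' l (𝓝[>] 0)) (_ : ∀ᶠ j in l, x ∈ Metric.closedBall (w j) (L * δ' j)),
      Tendsto (fun j => ⨍ y in Metric.closedBall (w j) (δ' j), ‖f y - f x‖) l (𝓝 0) := by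
    rw [ae_all_iff]
    intro L
    exact IsUnifLocDoublingMeasure.ae_tendsto_average_norm_sub
      (volume : Measure (V n)) hf.locallyIntegrable L
  rw [ae_iff] at hL
  refine measure_mono_null ?_ hL
  rintro x ⟨hx1, hx2⟩ hP
  refine hx1 (fun _ L ε hε => ?_)
  have hxb : dist x z₀ < δ / 2 := hx2
  have hux : h x = f x := by
    rw [hfdef, Set.indicator_of_mem]
    rw [Metric.mem_closedBall]
    linarith
  -- the filter of pairs
  let S : Set (V n × ℝ) := {p | 0 < p.2 ∧ dist p.1 x ≤ L * p.2}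
  let l : Filter (V n × ℝ) := Filter.comap Prod.snd (𝓝[>] (0 : ℝ)) ⊓ 𝓟 S
  have ht1 : Tendsto (fun p : V n × ℝ => p.2) l (𝓝[>] 0) := tendsto_comap.mono_left inf_le_left
  have hP' := hP L (l := l) (fun p => p.1) (fun p => p.2) ht1 (by
    have : S ∈ l := mem_inf_of_right (mem_principal_self S)
    filter_upwards [this] with p hp
    rw [Metric.mem_closedBall, dist_comm]
    exact hp.2)
  have hlim : Tendsto (fun p : V n × ℝ => C * (volume.real (Metric.ball (0 : V n) 1)) *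
        ⨍ y in Metric.closedBall p.1 p.2, ‖f y - f x‖) l (𝓝 0) := by
    have := hP'.const_mul (C * (volume.real (Metric.ball (0 : V n) 1)))
    rwa [mul_zero] at this
  have hev := hlim.eventually (Iic_mem_nhds hε)
  rw [Filter.eventually_inf_principal, Filter.eventually_comap] at hev
  have hev2 : ∀ᶠ σ in 𝓝[>] (0 : ℝ), (L + 1) * σ < δ / 2 := by
    have : Tendsto (fun σ : ℝ => (L + 1) * σ) (𝓝[>] 0) (𝓝 0) := by
      have h1 : Tendsto (fun σ : ℝ => (L + 1) * σ) (𝓝 0) (𝓝 ((L + 1) * 0)) :=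
        tendsto_id.const_mul _
      rw [mul_zero] at h1
      exact h1.mono_left nhdsWithin_le_nhds
    exact this.eventually (Iio_mem_nhds (half_pos hδ))
  obtain ⟨σ₀, hσ₀, hσ⟩ := mem_nhdsGT_iff_exists_Ioo_subset.1 (hev.and hev2)
  refine ⟨σ₀, hσ₀, fun σ hs0 hs z hz => ?_⟩
  obtain ⟨h1, h2⟩ := hσ ⟨hs0, hs⟩
  have h3 : C * (volume.real (Metric.ball (0 : V n) 1)) *
        ⨍ y in Metric.closedBall z σ, ‖f y - f x‖ ≤ ε := h1 (z, σ) rfl ⟨hs0, hz⟩
  have h4 : (∫ η : V n, (rho η : ℂ) * h (z + (sc σ : Lin n) η)) =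
      ∫ η : V n, (rho η : ℂ) * f (z + σ • η) := by
    refine integral_congr_ae (Eventually.of_forall fun η => ?_)
    simp only
    rw [sc_apply, Complex.coe_smul]
    by_cases hη : ‖η‖ < 1
    · congr 1
      rw [hfdef, Set.indicator_of_mem]
      rw [Metric.mem_closedBall]
      have h5 : dist (z + σ • η) z < σ := by
        rw [dist_eq_norm, add_sub_cancel_left, norm_smul, Real.norm_of_nonneg hs0.le]
        nlinarith
      have h6 := dist_triangle (z + σ • η) z x
      have h7 := dist_triangle (z + σ • η) x z₀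
      nlinarith
    · rw [rho_eq_zero (not_lt.1 hη)]
      simp
  rw [h4, hux]
  exact (mean_sub_le95 hf hC0 hC z (f x) hs0).trans h3

/-- Lemma C -/
private theorem ae_MH95 {Ω : Set (V n)} (hΩ : IsOpen Ω) {u : V n → ℝ} {H : V n → Mat n}
    (hH : BH Ω u H) :
    ∀ᵐ z₀, z₀ ∈ Ω → ∀ L : ℕ, ∀ ε : ℝ, 0 < ε → ∃ σ₀ : ℝ, 0 < σ₀ ∧ ∀ σ : ℝ, 0 < σ → σ < σ₀ →
      ∀ z, dist z z₀ ≤ L * σ → ∀ j k, ‖MH (sc σ) H z j k - H z₀ j k‖ ≤ ε := by
  have hint : ∀ j k, LocallyIntegrableOn (fun z => H z j k) Ω volume := by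
    intro j k
    rw [locallyIntegrableOn_iff hΩ.isLocallyClosed]
    intro K hK hKc
    obtain ⟨C, hC⟩ := hH.bdd K hK hKc
    exact IntegrableOn.of_bound hKc.measure_lt_top
      (hH.meas j k).aestronglyMeasurable C
      ((ae_restrict_iff' hKc.measurableSet).2 (Eventually.of_forall fun z hz => hC z hz j k))
  have h1 : ∀ᵐ z₀ : V n, ∀ j k, z₀ ∈ Ω → ∀ L : ℕ, ∀ ε : ℝ, 0 < ε → ∃ σ₀ : ℝ, 0 < σ₀ ∧
      ∀ σ : ℝ, 0 < σ → σ < σ₀ → ∀ z, dist z z₀ ≤ L * σ →
      ‖(∫ η : V n, (rho η : ℂ) * H (z + (sc σ : Lin n) η) j k) - H z₀ j k‖ ≤ ε := by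
    rw [ae_all_iff]
    intro j
    rw [ae_all_iff]
    intro k
    exact ae_lebesgue95 hΩ (hint j k)
  filter_upwards [h1] with z₀ hz hΩz L ε hε
  choose σ₀ hσ₀ hσ using fun j k => hz j k hΩz L ε hε
  by_cases h0 : n = 0
  · subst h0
    exact ⟨1, one_pos, fun σ _ _ z _ j => j.elim0⟩
  have : Nonempty (Fin n) := ⟨⟨0, Nat.pos_of_ne_zero h0⟩⟩
  refine ⟨Finset.univ.inf' Finset.univ_nonempty fun p : Fin n × Fin n => σ₀ p.1 p.2, ?_, ?_⟩
  · rw [Finset.lt_inf'_iff]
    exact fun p _ => hσ₀ p.1 p.2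
  · intro σ hs0 hs z hz' j k
    exact hσ j k σ hs0 ((Finset.lt_inf'_iff _).1 hs (j, k) (Finset.mem_univ _)) z hz'

private theorem ball_subset_of_shr95 {z : V n} {s t : ℝ} (h : t < s) :
    z ∈ shr (Metric.ball z s) t := by
  show Metric.closedBall z t ⊆ Metric.ball z s
  exact Metric.closedBall_subset_ball h

private theorem tendsto_Phi95 {Ω : Set (V n)} (hΩ : IsOpen Ω) {u : V n → ℝ}
    (hu : LocallyIntegrableOn u Ω volume) {z : V n} (hz : z ∈ Ω) (hc : ContinuousAt u z) :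
    Tendsto (fun t => Phi u z t) (𝓝[>] 0) (𝓝 (u z)) := by
  rw [Metric.tendsto_nhds]
  intro ε hε
  have h1 : ∀ᶠ y in 𝓝 z, dist (u y) (u z) < ε / 2 ∧ y ∈ Ω :=
    ((Metric.tendsto_nhds.1 hc) _ (half_pos hε)).and (hΩ.mem_nhds hz)
  obtain ⟨δ, hδ, hb⟩ := Metric.eventually_nhds_iff_ball.1 h1
  have hbo : IsOpen (Metric.ball z δ) := Metric.isOpen_ball
  have hub : LocallyIntegrableOn u (Metric.ball z δ) volume := hu.mono_set fun y hy => (hb y hy).2
  have hcon : ∀ c : ℝ, LocallyIntegrableOn (fun _ : V n => c) (Metric.ball z δ) volume :=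
    fun c => (locallyIntegrable_const c).locallyIntegrableOn _
  filter_upwards [self_mem_nhdsWithin, mem_nhdsWithin_of_mem_nhds (Iio_mem_nhds hδ)] with t ht htδ
  have ht0 : 0 < t := ht
  have hs : z ∈ shr (Metric.ball z δ) t := ball_subset_of_shr95 htδ
  have h2 := Phi_mono hbo hub (hcon (u z + ε / 2)) (Eventually.of_forall fun y hy => by
    have := (hb y hy).1
    rw [Real.dist_eq, abs_lt] at this
    linarith [this.2]) ht0 hs
  have h3 := Phi_mono hbo (hcon (u z - ε / 2)) hub (Eventually.of_forall fun y hy => by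
    have := (hb y hy).1
    rw [Real.dist_eq, abs_lt] at this
    linarith [this.1]) ht0 hs
  rw [Phi_const] at h2 h3
  rw [Real.dist_eq, abs_lt]
  constructor <;> linarith

namespace Atl

variable {X : Type} [TopologicalSpace X] [MeasurableSpace X] {n N : ℕ} (A : Atl X n N)

private theorem lc_continuousAt95 {i : Fin N} {D : Set X} (hD : IsOpen D) {φ : X → ℝ}
    (hφ : ContinuousOn φ D) {z : V n} (hz : z ∈ (A.e i).target) (hzD : (A.e i).symm z ∈ D) :
    ContinuousAt (A.lc i φ) z := by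
  have h1 : ContinuousAt φ ((A.e i).symm z) := hφ.continuousAt (hD.mem_nhds hzD)
  have h2 : ContinuousAt (A.e i).symm z := (A.e i).continuousAt_symm hz
  exact h1.comp h2

private theorem f_continuousAt95 {i : Fin N} {z : V n} (hz : z ∈ (A.e i).target) :
    ContinuousAt (A.f i) z :=
  (A.f_smooth i).continuousOn.continuousAt ((A.e i).open_target.mem_nhds hz)

private theorem g_continuousAt95 {i : Fin N} {z : V n} (hz : z ∈ (A.e i).target) :
    ContinuousAt (A.g i) z :=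
  (A.g_smooth i).continuousOn.continuousAt ((A.e i).open_target.mem_nhds hz)

private theorem Ft_continuousAt95 {i : Fin N} {D : Set X} (hD : IsOpen D) {φ : X → ℝ} {τ : ℝ}
    (hφ : ContinuousOn φ D) {z : V n} (hz : z ∈ (A.e i).target) (hzD : (A.e i).symm z ∈ D) :
    ContinuousAt (A.Ft τ i φ) z := by
  have h1 := A.lc_continuousAt95 hD hφ hz hzD
  have h2 := A.f_continuousAt95 hz
  have h3 : ContinuousAt (fun z => Real.exp (τ * A.lc i φ z) * A.f i z) z :=
    ((h1.const_mul τ).rexp).mul h2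
  refine h3.rpow_const (Or.inl ?_)
  exact (mul_pos (Real.exp_pos _) (A.f_pos i z hz)).ne'

private theorem pot_continuousAt95 {i : Fin N} {D : Set X} (hD : IsOpen D) {φ : X → ℝ}
    (hφ : ContinuousOn φ D) {z : V n} (hz : z ∈ (A.e i).target) (hzD : (A.e i).symm z ∈ D) :
    ContinuousAt (A.pot i φ) z :=
  (A.g_continuousAt95 hz).add (A.lc_continuousAt95 hD hφ hz hzD)

variable [CompactSpace X] [T2Space X] [BorelSpace X]

theorem exists_cap (hn : 0 < n) {τ : ℝ} (hτ : 0 < τ) : ∃ C₀ : ℝ, 0 ≤ C₀ ∧ ∀ C : ℝ, C₀ ≤ C →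
    ∀ (φ : X → ℝ) (D : Set X), A.St τ C φ → IsOpen D → ContinuousOn φ D → ∀ x ∈ D, φ x < C := by
  obtain ⟨c, Cf, hc, hCf, hf⟩ := A.exists_f_bounds
  obtain ⟨Cg, hCg, hg⟩ := A.exists_Phi_g_bound
  have hn' : (0 : ℝ) < 1 / n := by positivity
  have haa : 0 < (n : ℝ) * aa n := mul_pos (by exact_mod_cast hn) aa_pos
  have hT : Tendsto (fun C : ℝ => (Real.exp (τ * C) * c) ^ ((1 : ℝ) / n)) atTop atTop := by
    refine (tendsto_rpow_atTop hn').comp ?_
    exact (Real.tendsto_exp_atTop.comp (tendsto_id.const_mul_atTop hτ)).atTop_mul_const hc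
  obtain ⟨C₀, hC₀⟩ := eventually_atTop.1
    ((hT.eventually (eventually_gt_atTop (2 * Cg / (n * aa n)))).and (eventually_ge_atTop 0))
  refine ⟨max C₀ 0, le_max_right _ _, fun C hC φ D hφ hD hcont x hx => ?_⟩
  have hle : φ x ≤ C := A.le_on_of_ae hD hcont continuousOn_const
    (hφ.le.mono fun x hx _ => hx) x hx
  by_contra hcon
  have hxC : φ x = C := le_antisymm hle (not_lt.1 hcon)
  obtain ⟨i, hi, hi1⟩ := A.cover x
  set z : V n := A.e i x with hz
  have hzt : z ∈ (A.e i).target := (A.e i).map_source hi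
  have hsz : (A.e i).symm z = x := (A.e i).left_inv hi
  have hzD : (A.e i).symm z ∈ D := by rw [hsz]; exact hx
  have hz3 : z ∈ B3 n := by rw [mem_ball_zero_iff]; linarith
  set F₀ : ℝ := (Real.exp (τ * C) * c) ^ ((1 : ℝ) / n) / 2 with hF₀
  have hFp : 0 < (Real.exp (τ * C) * c) ^ ((1 : ℝ) / n) :=
    Real.rpow_pos_of_pos (mul_pos (Real.exp_pos _) hc) _
  have hF₀p : 0 < F₀ := by rw [hF₀]; linarith
  have hFz : F₀ < A.Ft τ i φ z := by
    have h1 : (Real.exp (τ * C) * c) ^ ((1 : ℝ) / n) ≤ A.Ft τ i φ z := by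
      unfold Ft lc
      rw [hsz, hxC]
      refine Real.rpow_le_rpow (mul_pos (Real.exp_pos _) hc).le ?_ hn'.le
      exact mul_le_mul_of_nonneg_left (hf i z (by linarith)).1 (Real.exp_pos _).le
    linarith
  have hu : LocallyIntegrableOn (A.pot i φ) (B3 n) volume := (hφ.gs i).int
  have hlim := tendsto_Phi95 Metric.isOpen_ball hu hz3 (A.pot_continuousAt95 hD hcont hzt hzD)
  -- the small ball
  have hev : ∀ᶠ y in 𝓝 z, F₀ < A.Ft τ i φ y ∧ y ∈ B3 n :=
    ((A.Ft_continuousAt95 hD hcont hzt hzD).eventually (lt_mem_nhds hFz)).and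
      (Metric.isOpen_ball.mem_nhds hz3)
  obtain ⟨ρ, hρ, hb⟩ := Metric.eventually_nhds_iff_ball.1 hev
  have hWs : Metric.ball z ρ ⊆ B3 n := fun y hy => (hb y hy).2
  have hGS : GS (Metric.ball z ρ) (fun _ => F₀) (A.pot i φ) :=
    ((hφ.gs i).mono_set Metric.isOpen_ball hWs).mono
      ((locallyIntegrable_const F₀).locallyIntegrableOn _) (fun _ _ => hF₀p.le)
      (Eventually.of_forall fun y hy => (hb y hy).1.le)
  set t : ℝ := min (ρ / 2) 1 with ht
  have ht0 : 0 < t := lt_min (half_pos hρ) one_pos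
  have htρ : t < ρ := (min_le_left _ _).trans_lt (half_lt_self hρ)
  have ht1 : t ≤ 1 := min_le_right _ _
  have hzs : z ∈ shr (Metric.ball z ρ) t := ball_subset_of_shr95 htρ
  have hgi : LocallyIntegrableOn (A.g i) (Metric.ball z ρ) volume :=
    (((A.g_smooth i).continuousOn.mono (hWs.trans (A.B3_subset i))).locallyIntegrableOn
      measurableSet_ball)
  have hPt : Phi (A.pot i φ) z t ≤ A.g i z + Cg * t ^ 2 + C := by
    have h1 : Phi (A.pot i φ) z t ≤ Phi (fun y => A.g i y + C) z t := by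
      refine Phi_mono Metric.isOpen_ball (hu.mono_set hWs)
        (hgi.add ((locallyIntegrable_const C).locallyIntegrableOn _)) ?_ ht0 hzs
      filter_upwards [A.ae_target hφ.le i] with y hy hyb
      have := hy (A.B3_subset i (hWs hyb))
      unfold pot lc
      simp only [Pi.add_apply]
      linarith
    rw [Phi_add Metric.isOpen_ball hgi ((locallyIntegrable_const C).locallyIntegrableOn _) ht0 hzs,
      Phi_const] at h1
    have h2 := (abs_le.1 (hg i z (by linarith) t ht0.le ht1)).2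
    linarith
  have hpz : A.pot i φ z = A.g i z + C := by
    unfold pot lc
    rw [hsz, hxC]
  have hkey : n * aa n * F₀ * (t ^ 2 - 0 ^ 2) ≤ A.g i z + Cg * t ^ 2 + C - (A.g i z + C) := by
    rw [← hpz]
    have hA : Tendsto (fun s : ℝ => n * aa n * F₀ * (t ^ 2 - s ^ 2)) (𝓝[>] 0)
        (𝓝 (n * aa n * F₀ * (t ^ 2 - 0 ^ 2))) := by
      refine Tendsto.mono_left ?_ nhdsWithin_le_nhds
      exact Continuous.tendsto (by fun_prop) _
    refine le_of_tendsto_of_tendsto hA (hlim.const_sub (A.g i z + Cg * t ^ 2 + C)) ?_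
    filter_upwards [self_mem_nhdsWithin, mem_nhdsWithin_of_mem_nhds (Iio_mem_nhds ht0)]
      with s hs hst
    have h1 := Phi_growth hn Metric.isOpen_ball hGS (s := s) (t := t) hs (le_of_lt hst) hzs
    linarith
  have h1 : n * aa n * F₀ ≤ Cg := by
    have h2 : 0 < t ^ 2 := by positivity
    have h3 : (n * aa n * F₀) * t ^ 2 ≤ Cg * t ^ 2 := by nlinarith
    exact le_of_mul_le_mul_right h3 h2
  have h2 := (hC₀ C ((le_max_left _ _).trans hC)).1
  have h3 : 2 * Cg < (Real.exp (τ * C) * c) ^ ((1 : ℝ) / n) * (n * aa n) := by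
    exact (div_lt_iff₀ haa).1 h2
  have h4 : (Real.exp (τ * C) * c) ^ ((1 : ℝ) / n) = 2 * F₀ := by rw [hF₀]; ring
  rw [h4] at h3
  nlinarith


omit [CompactSpace X] [T2Space X] in
private theorem ae_source95 {p : V n → Prop} (i : Fin N)
    (h : ∀ᵐ z : V n, z ∈ (A.e i).target → p z) : ∀ᵐ x ∂A.μ, x ∈ (A.e i).source → p (A.e i x) := by
  have hms : MeasurableSet (A.e i).source := (A.e i).open_source.measurableSet
  have hmt : MeasurableSet (A.e i).target := (A.e i).open_target.measurableSet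
  have h1 : ∀ᵐ z ∂(volume.restrict (A.e i).target), p z := (ae_restrict_iff' hmt).2 h
  have h2 : ∀ᵐ z ∂((volume.restrict (A.e i).target).withDensity
      fun z => ENNReal.ofReal (cn n * A.f i z)), p z :=
    (withDensity_absolutelyContinuous _ _).ae_le h1
  rw [← A.μ_eq i] at h2
  have h3 : AEMeasurable (A.e i) (A.μ.restrict (A.e i).source) :=
    (A.e i).continuousOn.aemeasurable hms
  exact (ae_restrict_iff' hms).1 (ae_of_ae_map h3 h2)

/-- pushing up: a strict subsolution in a small ball which is below `φ` near the boundary is `≤ φ` -/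
theorem push_up (hn : 0 < n) {τ C : ℝ} {φ : X → ℝ} (hφ : A.St τ C φ)
    (hmax : ∀ v, A.St τ C v → ∀ᵐ x ∂A.μ, v x ≤ φ x) (i : Fin N) {z₀ : V n} {r r' : ℝ}
    (hr : 0 < r') (hrr : r' < r) (hball : Metric.closedBall z₀ r ⊆ B3 n) {q : V n → ℝ}
    (hq : ContDiffOn ℝ (⊤ : ℕ∞) q (Metric.ball z₀ r))
    (hGP : ∀ z ∈ Metric.ball z₀ r, GP (lev q z)
      ((Real.exp (τ * (q z - A.g i z)) * A.f i z) ^ ((1 : ℝ) / n)))
    (hC : ∀ z ∈ Metric.ball z₀ r, q z - A.g i z ≤ C)
    (hb : ∀ᵐ z, z ∈ Metric.ball z₀ r → r' ≤ dist z z₀ → q z ≤ A.pot i φ z) :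
    ∀ᵐ z, z ∈ Metric.ball z₀ r → q z ≤ A.pot i φ z := by
  classical
  set O : Set (V n) := Metric.ball z₀ r with hO
  have hOo : IsOpen O := Metric.isOpen_ball
  have hOB : O ⊆ B3 n := Metric.ball_subset_closedBall.trans hball
  have hOt : O ⊆ (A.e i).target := hOB.trans (A.B3_subset i)
  let w : X → ℝ := fun x => if x ∈ (A.e i).source ∧ A.e i x ∈ O then
    max (φ x) (q (A.e i x) - A.g i (A.e i x)) else φ x
  -- the function in the chart
  have hlcw : ∀ z ∈ O, A.lc i w z = max (A.lc i φ z) (q z - A.g i z) := by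
    intro z hz
    have h1 : (A.e i).symm z ∈ (A.e i).source := (A.e i).map_target (hOt hz)
    have h2 : A.e i ((A.e i).symm z) = z := (A.e i).right_inv (hOt hz)
    show w ((A.e i).symm z) = _
    simp only [w, h2, h1, hz, and_self, if_true]
    rfl
  have hpotw : ∀ z ∈ O, A.pot i w z = max (A.pot i φ z) (q z) := by
    intro z hz
    unfold pot
    rw [hlcw z hz, ← max_add_add_left]
    congr 1
    ring
  have hwC : ∀ᵐ x ∂A.μ, w x ≤ C := by
    filter_upwards [hφ.le] with x hx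
    simp only [w]
    split_ifs with h
    · exact max_le hx (hC _ h.2)
    · exact hx
  -- the classes on O
  set G : V n → ℝ := fun z => (Real.exp (τ * (q z - A.g i z)) * A.f i z) ^ ((1 : ℝ) / n) with hG
  have hn' : (0 : ℝ) ≤ 1 / n := by positivity
  have hGc : ContinuousOn G O := by
    intro z hz
    have h1 : ContinuousAt q z := hq.continuousOn.continuousAt (hOo.mem_nhds hz)
    have h2 := A.g_continuousAt95 (i := i) (hOt hz)
    have h3 := A.f_continuousAt95 (i := i) (hOt hz)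
    refine ContinuousAt.continuousWithinAt ?_
    refine (((((h1.sub h2).const_mul τ).rexp).mul h3).rpow_const (Or.inl ?_))
    exact (mul_pos (Real.exp_pos _) (A.f_pos i z (hOt hz))).ne'
  have hG0 : ∀ z ∈ O, 0 ≤ G z := fun z hz =>
    Real.rpow_nonneg (mul_pos (Real.exp_pos _) (A.f_pos i z (hOt hz))).le _
  have hGi : LocallyIntegrableOn G O volume := hGc.locallyIntegrableOn hOo.measurableSet
  have hGSq : GS O G q := GS.of_smooth hOo
    (hq.of_le (WithTop.coe_le_coe.2 (le_top : (2 : ℕ∞) ≤ ⊤))) hGi hG0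
    (Eventually.of_forall fun z hz => hGP z hz)
  have hGSu : GS O (A.Ft τ i φ) (A.pot i φ) := (hφ.gs i).mono_set hOo hOB
  have hFi := hGSu.intF
  have hKi : LocallyIntegrableOn (A.Ft τ i w) O volume := by
    rw [locallyIntegrableOn_iff hOo.isLocallyClosed]
    intro K hK hKc
    have h1 : IntegrableOn (A.Ft τ i φ) K volume := hFi.integrableOn_compact_subset hK hKc
    have h2 : IntegrableOn G K volume := hGi.integrableOn_compact_subset hK hKc
    rcases le_total 0 τ with hτ | hτ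
    · refine IntegrableOn.congr_fun (f := fun z => max (A.Ft τ i φ z) (G z)) (h1.sup h2)
        (fun z hz => ?_) hKc.measurableSet
      have hzO := hK hz
      have hf0 := (A.f_pos i z (hOt hzO)).le
      simp only [Ft, hG]
      rw [hlcw z hzO]
      rcases le_total (A.lc i φ z) (q z - A.g i z) with h | h
      · rw [max_eq_right h, max_eq_right]
        gcongr
      · rw [max_eq_left h, max_eq_left]
        gcongr
    · refine IntegrableOn.congr_fun (f := fun z => min (A.Ft τ i φ z) (G z)) (h1.inf h2)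
        (fun z hz => ?_) hKc.measurableSet
      have hzO := hK hz
      have hf0 := (A.f_pos i z (hOt hzO)).le
      simp only [Ft, hG]
      rw [hlcw z hzO]
      rcases le_total (A.lc i φ z) (q z - A.g i z) with h | h
      · rw [max_eq_right h, min_eq_right]
        have := mul_le_mul_of_nonpos_left h hτ
        gcongr
      · rw [max_eq_left h, min_eq_left]
        have := mul_le_mul_of_nonpos_left h hτ
        gcongr
  have hKnn : ∀ (v : X → ℝ) (j : Fin N), ∀ z ∈ (A.e j).target, 0 ≤ A.Ft τ j v z := fun v j z hz =>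
    Real.rpow_nonneg (mul_pos (Real.exp_pos _) (A.f_pos j z hz)).le _
  have hGSw : GS O (A.Ft τ i w) (A.pot i w) := by
    have h1 : GS O (A.Ft τ i w) fun z => max (A.pot i φ z) (q z) := by
      refine GS.max hOo hGSu hGSq hKi (fun z hz => hKnn w i z (hOt hz)) ?_ ?_ ?_
      · refine Eventually.of_forall fun z hz hlt => le_of_eq ?_
        simp only [Ft]
        rw [hlcw z hz, max_eq_left]
        unfold pot at hlt
        linarith
      · refine Eventually.of_forall fun z hz hlt => le_of_eq ?_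
        simp only [Ft, hG]
        rw [hlcw z hz, max_eq_right]
        unfold pot at hlt
        linarith
      · refine Eventually.of_forall fun z hz heq => ?_
        have h2 : A.lc i φ z = q z - A.g i z := by
          unfold pot at heq
          linarith
        simp only [Ft, hG]
        rw [hlcw z hz, h2, max_self, min_self]
    exact h1.congr hOo (Eventually.of_forall fun z hz => (hpotw z hz).symm)
  -- outside
  set K' : Set X := (A.e i).symm '' Metric.closedBall z₀ r' with hK'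
  have hcbO : Metric.closedBall z₀ r' ⊆ O := Metric.closedBall_subset_ball hrr
  have hK'c : IsCompact K' := (isCompact_closedBall z₀ r').image_of_continuousOn
    ((A.e i).continuousOn_symm.mono (hcbO.trans hOt))
  have hK'o : IsOpen K'ᶜ := hK'c.isClosed.isOpen_compl
  have hwφ : ∀ᵐ x ∂A.μ, x ∈ K'ᶜ → w x = φ x := by
    have h1 : ∀ᵐ z : V n, z ∈ (A.e i).target →
        (z ∈ Metric.ball z₀ r → r' ≤ dist z z₀ → q z ≤ A.pot i φ z) := by
      filter_upwards [hb] with z hz _ using hz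
    filter_upwards [A.ae_source95 i h1] with x hx hxK
    simp only [w]
    split_ifs with h
    · refine max_eq_left ?_
      have h2 := hx h.1 h.2 (by
        by_contra hcon
        refine hxK ⟨A.e i x, ?_, (A.e i).left_inv h.1⟩
        rw [Metric.mem_closedBall]
        exact (not_le.1 hcon).le)
      unfold pot lc at h2
      rw [(A.e i).left_inv h.1] at h2
      linarith
    · rfl
  have hw : A.St τ C w := by
    refine A.St_of_local hn hwC fun x => ?_
    by_cases hx : x ∈ (A.e i).source ∧ A.e i x ∈ O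
    · exact ⟨i, O, hOo, hOt, hx.1, hx.2, hGSw⟩
    · have hxK : x ∈ K'ᶜ := by
        rintro ⟨z, hz, rfl⟩
        refine hx ⟨(A.e i).map_target (hOt (hcbO hz)), ?_⟩
        rw [(A.e i).right_inv (hOt (hcbO hz))]
        exact hcbO hz
      obtain ⟨j, hj, hj1⟩ := A.cover x
      set W : Set (V n) := B3 n ∩ ((A.e j).target ∩ (A.e j).symm ⁻¹' K'ᶜ) with hW
      have hWo : IsOpen W := Metric.isOpen_ball.inter (A.isOpen_preimage_symm j hK'o)
      have hWB : W ⊆ B3 n := inter_subset_left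
      have hWt : W ⊆ (A.e j).target := fun z hz => hz.2.1
      have hae : ∀ᵐ z : V n, z ∈ W → A.lc j w z = A.lc j φ z := by
        filter_upwards [A.ae_target hwφ j] with z hz hzW
        exact hz hzW.2.1 hzW.2.2
      refine ⟨j, W, hWo, hWt, hj, ⟨?_, (A.e j).map_source hj, ?_⟩, ?_⟩
      · rw [mem_ball_zero_iff]; linarith
      · show (A.e j).symm (A.e j x) ∈ K'ᶜ
        rw [(A.e j).left_inv hj]; exact hxK
      · have h1 : GS W (A.Ft τ j φ) (A.pot j φ) := (hφ.gs j).mono_set hWo hWB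
        refine (h1.congr hWo (v := A.pot j w) ?_).congrF hWo ?_ (fun z hz => hKnn w j z (hWt hz))
        · filter_upwards [hae] with z hz hzW
          unfold pot
          rw [hz hzW]
        · filter_upwards [hae] with z hz hzW
          unfold Ft
          rw [hz hzW]
  filter_upwards [A.ae_target (hmax w hw) i] with z hz hzO
  have h1 : A.lc i w z ≤ A.lc i φ z := hz (hOt hzO)
  rw [hlcw z hzO] at h1
  have h2 := (le_max_right _ _).trans h1
  unfold pot
  linarith

theorem perron_eq (hn : 0 < n) {D : Set X} (hD : IsOpen D) {τ C : ℝ} {φ : X → ℝ} (hτ : 0 < τ)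
    (hφ : A.St τ C φ) (hmax : ∀ v, A.St τ C v → ∀ᵐ x ∂A.μ, v x ≤ φ x)
    (hcont : ContinuousOn φ D) (hlt : ∀ x ∈ D, φ x < C) (i : Fin N) {H : V n → Mat n}
    (hH : BH (A.Om D i) (A.pot i φ) H) :
    ∀ᵐ z, z ∈ A.Om D i → (H z).det.re = Real.exp (τ * A.lc i φ z) * A.f i z := by
  have hΩ : IsOpen (A.Om D i) := Metric.isOpen_ball.inter (A.isOpen_preimage_symm i hD)
  have hΩB : A.Om D i ⊆ B3 n := inter_subset_left
  have hΩt : ∀ z ∈ A.Om D i, z ∈ (A.e i).target := fun z hz => hz.2.1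
  have hΩD : ∀ z ∈ A.Om D i, (A.e i).symm z ∈ D := fun z hz => hz.2.2
  generalize A.Om D i = Ω at hH hΩ hΩB hΩt hΩD ⊢
  obtain ⟨v, hv, huv, hlim, hquad⟩ := hH.exists_continuous hΩ
  have huc : ∀ z ∈ Ω, ContinuousAt (A.pot i φ) z := fun z hz =>
    A.pot_continuousAt95 hD hcont (hΩt z hz) (hΩD z hz)
  have huv' : ∀ z ∈ Ω, v z = A.pot i φ z := fun z hz =>
    tendsto_nhds_unique (hlim z hz) (tendsto_Phi95 hΩ hH.int hz (huc z hz))
  have hGSu : GS Ω (A.Ft τ i φ) (A.pot i φ) := (hφ.gs i).mono_set hΩ hΩB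
  have hn' : (n : ℝ) ≠ 0 := by exact_mod_cast hn.ne'
  have hnp : (0 : ℝ) < n := by exact_mod_cast hn
  filter_upwards [hH.GP_of_GS hn hΩ hGSu, ae_MH95 hΩ hH] with z₀ h1 h2 hz₀
  have h1 := (h1 hz₀).2
  have h2 := h2 hz₀
  have hef : 0 < Real.exp (τ * A.lc i φ z₀) * A.f i z₀ :=
    mul_pos (Real.exp_pos _) (A.f_pos i z₀ (hΩt z₀ hz₀))
  have hFn : A.Ft τ i φ z₀ ^ n = Real.exp (τ * A.lc i φ z₀) * A.f i z₀ := by
    unfold Ft
    rw [← Real.rpow_natCast, ← Real.rpow_mul hef.le, one_div, inv_mul_cancel₀ hn', Real.rpow_one]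
  have hF0 : 0 ≤ A.Ft τ i φ z₀ := Real.rpow_nonneg hef.le _
  refine le_antisymm ?_ (hFn ▸ h1)
  by_contra hcon
  have hcon' : A.Ft τ i φ z₀ ^ n < (H z₀).det.re := by rw [hFn]; exact not_le.1 hcon
  obtain ⟨κ, F₂, hκ, hF₂, hG⟩ := exists_room95 hn (hH.psd z₀) hF0 hcon'
  obtain ⟨R, hR, hRΩ⟩ := Metric.nhds_basis_closedBall.mem_iff.1 (hΩ.mem_nhds hz₀)
  obtain ⟨C₁, r₀, hr₀, hq⟩ := hquad _ hRΩ (isCompact_closedBall z₀ R)
  have hC₁ : 0 ≤ C₁ := by
    have h3 := hq z₀ (Metric.mem_closedBall_self hR.le) r₀ hr₀ le_rfl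
    have h4 : 0 ≤ C₁ * r₀ ^ 2 := h3.1.trans h3.2
    by_contra h5
    have h6 : 0 < r₀ ^ 2 := by positivity
    nlinarith [mul_pos (neg_pos.2 (not_le.1 h5)) h6]
  obtain ⟨L, hL⟩ := exists_nat_gt (4 * (C₁ + 1) / κ + 1)
  have hq0 : 0 < 4 * (C₁ + 1) / κ := by positivity
  have hL1 : (1 : ℝ) < L := by linarith
  have hLκ : 4 * (C₁ + 1) ≤ κ * (L : ℝ) ^ 2 := by
    have h3 : 4 * (C₁ + 1) / κ < (L : ℝ) ^ 2 := by nlinarith
    have h4 := (div_lt_iff₀ hκ).1 h3
    linarith
  obtain ⟨σ₀, hσ₀, hσ⟩ := h2 L (κ / n) (div_pos hκ hnp)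
  -- the neighbourhood where the right hand side is small
  have hev : ∀ᶠ p : V n × ℝ in 𝓝 (z₀, (0 : ℝ)),
      (Real.exp (τ * (A.lc i φ p.1 + p.2)) * A.f i p.1) ^ ((1 : ℝ) / n) < F₂ ∧
        A.lc i φ p.1 + p.2 < C := by
    have hc1 : ContinuousAt (fun p : V n × ℝ => A.lc i φ p.1 + p.2) (z₀, (0 : ℝ)) :=
      (ContinuousAt.comp (f := fun p : V n × ℝ => p.1)
        (A.lc_continuousAt95 hD hcont (hΩt z₀ hz₀) (hΩD z₀ hz₀)) continuousAt_fst).add
        continuousAt_snd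
    have hc2 : ContinuousAt (fun p : V n × ℝ => A.f i p.1) (z₀, (0 : ℝ)) :=
      ContinuousAt.comp (f := fun p : V n × ℝ => p.1)
        (A.f_continuousAt95 (hΩt z₀ hz₀)) continuousAt_fst
    have hc3 : ContinuousAt (fun p : V n × ℝ =>
        (Real.exp (τ * (A.lc i φ p.1 + p.2)) * A.f i p.1) ^ ((1 : ℝ) / n)) (z₀, (0 : ℝ)) := by
      refine (((hc1.const_mul τ).rexp).mul hc2).rpow_const (Or.inl ?_)
      show Real.exp (τ * (A.lc i φ z₀ + 0)) * A.f i z₀ ≠ 0
      rw [add_zero]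
      exact hef.ne'
    refine (hc3.eventually (gt_mem_nhds ?_)).and (hc1.eventually (gt_mem_nhds ?_))
    · show (Real.exp (τ * (A.lc i φ z₀ + 0)) * A.f i z₀) ^ ((1 : ℝ) / n) < F₂
      rw [add_zero]
      exact hF₂
    · show A.lc i φ z₀ + 0 < C
      rw [add_zero]
      exact hlt _ (hΩD z₀ hz₀)
  obtain ⟨ρ, hρ, hb⟩ := Metric.eventually_nhds_iff.1 hev
  -- the choice of sigma
  have hlin : ∀ a b : ℝ, 0 < b → ∀ᶠ σ in 𝓝[>] (0 : ℝ), a * σ < b := by
    intro a b hb
    have h3 : Tendsto (fun σ : ℝ => a * σ) (𝓝[>] 0) (𝓝 0) := by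
      have h4 : Tendsto (fun σ : ℝ => a * σ) (𝓝 0) (𝓝 (a * 0)) := tendsto_id.const_mul _
      rw [mul_zero] at h4
      exact h4.mono_left nhdsWithin_le_nhds
    exact h3.eventually (gt_mem_nhds hb)
  obtain ⟨σ, hs0, hs1, hs2, hs3, hs4, hs5, hs6⟩ : ∃ σ : ℝ, 0 < σ ∧ σ < σ₀ ∧ σ < r₀ ∧
      (L + 1) * σ < R ∧ L * σ < ρ ∧ (C₁ + 1) * σ < ρ ∧ σ < 1 := by
    have h3 : ∀ᶠ σ in 𝓝[>] (0 : ℝ), 0 < σ ∧ 1 * σ < σ₀ ∧ 1 * σ < r₀ ∧
      (L + 1) * σ < R ∧ L * σ < ρ ∧ (C₁ + 1) * σ < ρ ∧ 1 * σ < 1 :=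
      (eventually_mem_nhdsWithin).and <| (hlin 1 σ₀ hσ₀).and <| (hlin 1 r₀ hr₀).and <|
        (hlin _ R hR).and <| (hlin _ ρ hρ).and <| (hlin _ ρ hρ).and (hlin 1 1 one_pos)
    obtain ⟨σ, h4⟩ := h3.exists
    obtain ⟨k1, k2, k3, k4, k5, k6, k7⟩ := h4
    exact ⟨σ, k1, by linarith, by linarith, k4, k5, k6, by linarith⟩
  have hLσ : 0 < L * σ := by positivity
  have hballR : Metric.closedBall z₀ (L * σ) ⊆ Metric.closedBall z₀ R :=
    Metric.closedBall_subset_closedBall (by nlinarith)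
  have hshr : ∀ z ∈ Metric.closedBall z₀ (L * σ), z ∈ shr Ω σ := by
    intro z hz y hy
    refine hRΩ ?_
    rw [Metric.mem_closedBall] at hz hy ⊢
    have := dist_triangle y z z₀
    nlinarith
  let q : V n → ℝ := fun z => Phi (A.pot i φ) z σ + (-κ * ‖z - z₀‖ ^ 2 + σ ^ 2)
  have hPs : ContDiffOn ℝ (⊤ : ℕ∞) (fun z => Phi (A.pot i φ) z σ) (shr Ω σ) :=
    contDiffOn_Phi_left hΩ hH.int hs0
  have hns : ContDiff ℝ (⊤ : ℕ∞) (fun z : V n => ‖z - z₀‖ ^ 2) :=
    (contDiff_norm_sq ℝ).comp (contDiff_id.sub contDiff_const)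
  have hns2 : ContDiff ℝ (⊤ : ℕ∞) (fun z : V n => -κ * ‖z - z₀‖ ^ 2 + σ ^ 2) :=
    (contDiff_const.mul hns).add contDiff_const
  have htwo : (2 : WithTop ℕ∞) ≤ ((⊤ : ℕ∞) : WithTop ℕ∞) :=
    WithTop.coe_le_coe.2 (le_top : (2 : ℕ∞) ≤ ⊤)
  have hPhi : ∀ z ∈ Metric.ball z₀ (L * σ), 0 ≤ Phi (A.pot i φ) z σ - A.pot i φ z ∧
      Phi (A.pot i φ) z σ - A.pot i φ z ≤ C₁ * σ ^ 2 := by
    intro z hz
    have hz' := hballR (Metric.ball_subset_closedBall hz)
    have h3 := hq z hz' σ hs0 hs2.le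
    rw [huv' z (hRΩ hz')] at h3
    exact h3
  have hsσ : σ ^ 2 ≤ σ := by nlinarith
  have hqg : ∀ z ∈ Metric.ball z₀ (L * σ), q z - A.g i z ≤ A.lc i φ z + (C₁ + 1) * σ ^ 2 := by
    intro z hz
    have h3 := (hPhi z hz).2
    have h4 : 0 ≤ κ * ‖z - z₀‖ ^ 2 := by positivity
    have h5 : A.pot i φ z = A.g i z + A.lc i φ z := rfl
    rw [h5] at h3
    show Phi (A.pot i φ) z σ + (-κ * ‖z - z₀‖ ^ 2 + σ ^ 2) - A.g i z ≤ _
    linarith
  have hnb : ∀ z ∈ Metric.ball z₀ (L * σ),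
      (Real.exp (τ * (A.lc i φ z + (C₁ + 1) * σ ^ 2)) * A.f i z) ^ ((1 : ℝ) / n) < F₂ ∧
        A.lc i φ z + (C₁ + 1) * σ ^ 2 < C := by
    intro z hz
    refine hb (y := (z, (C₁ + 1) * σ ^ 2)) ?_
    rw [Prod.dist_eq, max_lt_iff]
    refine ⟨lt_trans hz hs4, ?_⟩
    rw [Real.dist_eq, sub_zero, abs_of_nonneg (by positivity)]
    have : (C₁ + 1) * σ ^ 2 ≤ (C₁ + 1) * σ := mul_le_mul_of_nonneg_left hsσ (by linarith)
    linarith
  have hfin := A.push_up hn hφ hmax i (z₀ := z₀) (r := L * σ) (r' := L * σ / 2) (by linarith)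
    (by linarith) (hballR.trans (hRΩ.trans hΩB)) (q := q)
    ((hPs.mono fun z hz => hshr z (Metric.ball_subset_closedBall hz)).add hns2.contDiffOn)
    (by
      intro z hz
      have hzs := hshr z (Metric.ball_subset_closedBall hz)
      have hc1 : ContDiffAt ℝ 2 (fun z => Phi (A.pot i φ) z σ) z :=
        (hPs.of_le htwo).contDiffAt ((isOpen_shr hΩ σ).mem_nhds hzs)
      have hc2 : ContDiffAt ℝ 2 (fun z : V n => -κ * ‖z - z₀‖ ^ 2 + σ ^ 2) z :=
        (hns2.of_le htwo).contDiffAt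
      have hc3 : ContDiffAt ℝ 2 (fun z : V n => -κ * ‖z - z₀‖ ^ 2) z :=
        ((contDiff_const.mul hns).of_le htwo).contDiffAt
      have hlev : ∀ w : V n, lev q z w = lf (MH (sc σ) H z) w - κ * ‖w‖ ^ 2 := by
        intro w
        show lev (fun y => Phi (A.pot i φ) y σ + (-κ * ‖y - z₀‖ ^ 2 + σ ^ 2)) z w = _
        rw [lev_add hc1 hc2, lev_add hc3 contDiffAt_const, lev_const,
          lev_const_mul _ (hns.of_le htwo).contDiffAt, lev_normSq, lev_eq_lf hc1,
          hH.hess_Phi hΩ hs0 hzs]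
        ring
      refine hG.mono ?_ fun w => ?_
      · refine le_trans ?_ (hnb z hz).1.le
        have hf0 := (A.f_pos i z (hΩt z (hRΩ (hballR (Metric.ball_subset_closedBall hz))))).le
        have h3 := hqg z hz
        gcongr
      · rw [hlev w]
        have h3 := lf_sub_le95 (hσ σ hs0 hs1 z (le_of_lt hz)) w
        have h4 : (n : ℝ) * (κ / n) = κ := by field_simp
        rw [h4] at h3
        linarith)
    (fun z hz => (hqg z hz).trans (hnb z hz).2.le)
    (Eventually.of_forall fun z hz hd => by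
      have h3 := (hPhi z hz).2
      have h4 : (L * σ / 2) ^ 2 ≤ ‖z - z₀‖ ^ 2 := by
        rw [← dist_eq_norm]
        exact pow_le_pow_left₀ (by linarith) hd 2
      have h5 : 4 * (C₁ + 1) * σ ^ 2 ≤ κ * (L : ℝ) ^ 2 * σ ^ 2 :=
        mul_le_mul_of_nonneg_right hLκ (sq_nonneg σ)
      have h6 := mul_le_mul_of_nonneg_left h4 hκ.le
      show Phi (A.pot i φ) z σ + (-κ * ‖z - z₀‖ ^ 2 + σ ^ 2) ≤ _
      nlinarith)
  -- contradiction at z₀
  have hz₀b : z₀ ∈ Metric.ball z₀ (L * σ) := Metric.mem_ball_self hLσ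
  have hqc : ContinuousAt q z₀ := by
    have h3 : ContinuousAt (fun z => Phi (A.pot i φ) z σ) z₀ :=
      hPs.continuousOn.continuousAt ((isOpen_shr hΩ σ).mem_nhds
        (hshr z₀ (Metric.ball_subset_closedBall hz₀b)))
    exact h3.add hns2.continuous.continuousAt
  have hlt0 : A.pot i φ z₀ < q z₀ := by
    have h3 := (hPhi z₀ hz₀b).1
    have h4 : 0 < σ ^ 2 := by positivity
    show _ < Phi (A.pot i φ) z₀ σ + (-κ * ‖z₀ - z₀‖ ^ 2 + σ ^ 2)
    rw [sub_self, norm_zero]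
    nlinarith
  have hev2 : ∀ᶠ z in 𝓝 z₀, A.pot i φ z < q z ∧ z ∈ Metric.ball z₀ (L * σ) :=
    ((huc z₀ hz₀).eventually_lt hqc hlt0).and (Metric.isOpen_ball.mem_nhds hz₀b)
  obtain ⟨δ, hδ, hδb⟩ := Metric.eventually_nhds_iff_ball.1 hev2
  have h3 : ∀ᵐ z : V n, z ∉ Metric.ball z₀ δ := by
    filter_upwards [hfin] with z hz hzδ
    exact absurd (hz (hδb z hzδ).2) (not_le.2 (hδb z hzδ).1)
  have h4 : volume (Metric.ball z₀ δ) = 0 := by
    have := measure_eq_zero_iff_ae_notMem.2 h3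
    exact this
  exact (Metric.measure_ball_pos volume z₀ hδ).ne' h4

end Atl

end Pool.Agent.Helper29.AM
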