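import Pool.Agent.Helper29.AM.LA2

/-!
# Block AM-ST1: the real inequality in Stage 1 (6.2)

See the statement. Write `b = B₀δ²`, `b₁ = κδ²`, `D = det H`. By `det_add_one_ge` (applied to `(1-b)H`),
`log det((1-b)H + b₁) ≥ n log(1-b) + log D + log(1 + b₁ tr H⁻¹)` and `n log(1-b) ≥ -2nB₀δ²` for `b ≤ 1/2`.
(a) `e^x > 1/2`: `e^x - x ≤ 2`: `log D ≥ N - (2τ+C)δ²`: fine.
(b) `e^x ≤ 1/2`, `log D ≥ N`: fine.
(c) `e^x ≤ 1/2`, `log D < N ≤ log m₁`: `D ≤ m₁`, `tr H ≥ e^{-x}/64`. `n = 1`: `tr H = D ≤ m₁`, so `e^{-x} ≤ 64 m₁`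
and the loss `τδ²(e^x - x) ≤ τδ²(1 + log(64 m₁))`-type bound. `n ≥ 2`: `tr H⁻¹ ≥ c₁ y^{1/(n-1)}`, `y = e^{-x} ≥ 2`
(`trace_inv_ge`); with `X = κδ²c₁y^{1/(n-1)}`: if `X ≤ 1`, `log(1+X) ≥ X/2 ≥ δ² c₃ y^{1/(n-1)}` and
`c₃ y^{1/(n-1)} + M'' ≥ τ log y` for a suitable constant `M''`; if `X > 1`, `log(1+X) ≥ (log 2 + log X)/2` and
`log y = (n-1)(log X - log(κδ²c₁))`, so for small `δ`: `τδ² log y ≤ (log X)/2 + (log 2)/2`.
-/

set_option autoImplicit false

namespace Pool.Agent.Helper29.AM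

open Set Filter Topology
open scoped ComplexOrder

variable {n : ℕ}

private theorem det_pos58 {H : Mat n} (hH : H.PosDef) : 0 < H.det.re :=
  (Complex.pos_iff.1 hH.det_pos).1

private theorem tr_inv_nonneg58 {H : Mat n} (hH : H.PosDef) : 0 ≤ (Matrix.trace H⁻¹).re :=
  (Complex.nonneg_iff.1 hH.inv.posSemidef.trace_nonneg).1

private theorem log_ge58 {b : ℝ} (hb0 : 0 ≤ b) (hb : b ≤ 1 / 2) : -(2 * b) ≤ Real.log (1 - b) := by
  have h1 : 0 < 1 - b := by linarith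
  have h2 := Real.log_le_sub_one_of_pos (inv_pos.2 h1)
  rw [Real.log_inv] at h2
  have h3 : (1 - b)⁻¹ - 1 ≤ 2 * b := by
    rw [sub_le_iff_le_add, inv_le_comm₀ h1 (by linarith)]
    rw [inv_le_comm₀ (by linarith) h1] at *
    rw [← one_div, div_le_iff₀ h1]
    nlinarith
  linarith

/-- the common lower bound -/
private theorem base58 {b b₁ : ℝ} (hb0 : 0 ≤ b) (hb : b ≤ 1 / 2) (hb₁ : 0 ≤ b₁) {H : Mat n} (hH : H.PosDef) :
    -(2 * n * b) + Real.log H.det.re + Real.log (1 + b₁ * (Matrix.trace H⁻¹).re) ≤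
      Real.log ((((1 - b : ℝ) : ℂ) • H + ((b₁ : ℝ) : ℂ) • (1 : Mat n)).det.re) := by
  have h1 : 0 < 1 - b := by linarith
  obtain ⟨t, ht⟩ : ∃ t, t = (Matrix.trace H⁻¹).re := ⟨_, rfl⟩
  have ht0 : 0 ≤ t := ht ▸ tr_inv_nonneg58 hH
  have hD := det_pos58 hH
  have hc : b₁ ≤ b₁ / (1 - b) := by
    rw [le_div_iff₀ h1]
    nlinarith
  have hc0 : 0 ≤ b₁ / (1 - b) := hb₁.trans hc
  have h2 := det_add_one_ge hH hc0
  rw [← ht] at h2 ⊢
  have h3 : (((1 - b : ℝ) : ℂ) • H + ((b₁ : ℝ) : ℂ) • (1 : Mat n)) =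
      ((1 - b : ℝ) : ℂ) • (H + ((b₁ / (1 - b) : ℝ) : ℂ) • (1 : Mat n)) := by
    rw [smul_add, smul_smul, ← Complex.ofReal_mul, mul_div_cancel₀ _ h1.ne']
  have h4 : (((1 - b : ℝ) : ℂ) • H + ((b₁ : ℝ) : ℂ) • (1 : Mat n)).det.re =
      (1 - b) ^ n * (H + ((b₁ / (1 - b) : ℝ) : ℂ) • (1 : Mat n)).det.re := by
    rw [h3, Matrix.det_smul, Fintype.card_fin, ← Complex.ofReal_pow, Complex.re_ofReal_mul]
  rw [h4]
  have h5 : 0 < 1 + b₁ * t := by positivity
  have h6 : H.det.re * (1 + b₁ * t) ≤ H.det.re * (1 + b₁ / (1 - b) * t) :=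
    mul_le_mul_of_nonneg_left (by nlinarith) hD.le
  have h7 : 0 < H.det.re * (1 + b₁ * t) := mul_pos hD h5
  have h8 : H.det.re * (1 + b₁ * t) ≤ (H + ((b₁ / (1 - b) : ℝ) : ℂ) • (1 : Mat n)).det.re := h6.trans h2
  rw [Real.log_mul (pow_pos h1 n).ne' (h7.trans_le h8).ne', Real.log_pow]
  have h9 := Real.log_le_log h7 h8
  rw [Real.log_mul hD.ne' h5.ne'] at h9
  have h10 := log_ge58 hb0 hb
  have h11 : (n : ℝ) * -(2 * b) ≤ n * Real.log (1 - b) := mul_le_mul_of_nonneg_left h10 (Nat.cast_nonneg n)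
  linarith

/-- weighted arithmetic and geometric mean -/
private theorem bern58 {θ w : ℝ} (hθ0 : 0 ≤ θ) (hθ1 : θ ≤ 1) (hw : 0 < w) :
    θ * Real.log w ≤ Real.log (1 + θ * w) := by
  have h1 := rpow_one_add_le_one_add_mul_self (s := w - 1) (by linarith) hθ0 hθ1
  have h2 : 1 + (w - 1) = w := by ring
  rw [h2] at h1
  rw [← Real.log_rpow hw]
  refine Real.log_le_log (Real.rpow_pos_of_pos hw θ) (h1.trans ?_)
  nlinarith

private theorem tr_one58 {H : Mat 1} : (Matrix.trace H).re = H.det.re := by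
  rw [Matrix.trace_fin_one, Matrix.det_fin_one]

theorem stage_one_real (hn : 0 < n) {τ C m₁ B₀ κ : ℝ} (hτ : 0 < τ) (hC : 0 ≤ C) (hm : 0 < m₁)
    (hB : 0 ≤ B₀) (hκ : 0 < κ) :
    ∃ M₀ δ₀ : ℝ, 0 < δ₀ ∧ ∀ δ : ℝ, 0 < δ → δ < δ₀ → ∀ x : ℝ, x ≤ 0 → ∀ H : Mat n, H.PosDef →
      ∀ N : ℝ, N ≤ Real.log m₁ →
      N - τ * δ ^ 2 * (Real.exp x - x) - C * δ ^ 2 ≤ Real.log H.det.re →
      (Real.exp x ≤ 1 / 2 → 1 / 64 * Real.exp (-x) ≤ (Matrix.trace H).re) →
      N - M₀ * δ ^ 2 ≤ Real.log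
        ((((1 - B₀ * δ ^ 2 : ℝ) : ℂ) • H + ((κ * δ ^ 2 : ℝ) : ℂ) • (1 : Mat n)).det.re) := by
  obtain ⟨p, hp⟩ : ∃ p : ℝ, p = τ * ((n : ℝ) - 1) := ⟨_, rfl⟩
  obtain ⟨q, hq⟩ : ∃ q : ℝ, q = κ * (((n : ℝ) - 1) * (1 / (64 * (n * m₁))) ^ ((1 : ℝ) / ((n : ℝ) - 1))) := ⟨_, rfl⟩
  have hn1 : (1 : ℝ) ≤ n := by exact_mod_cast hn
  have hp0 : 0 ≤ p := by
    rw [hp]
    exact mul_nonneg hτ.le (by linarith)
  refine ⟨2 * n * B₀ + C + 2 * τ + τ * (1 + |Real.log (64 * m₁)|) + p * |Real.log (q / p)|,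
    1 / (1 + 2 * B₀ + p), by positivity, ?_⟩
  intro δ hδ hδ0 x hx H hH N hN h1 h2
  have hδ1 : δ < 1 := by
    refine hδ0.trans_le ?_
    rw [div_le_one (by positivity)]
    linarith
  have hδ2 : δ ^ 2 ≤ 1 / (1 + 2 * B₀ + p) := by nlinarith
  rw [le_div_iff₀ (by positivity)] at hδ2
  have hδp : 0 < δ ^ 2 := by positivity
  have hb : B₀ * δ ^ 2 ≤ 1 / 2 := by nlinarith [mul_nonneg hp0 hδp.le]
  have hpδ : p * δ ^ 2 ≤ 1 := by nlinarith [mul_nonneg hB hδp.le]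
  have hbase := base58 (mul_nonneg hB hδp.le) hb (mul_nonneg hκ.le hδp.le) hH
  obtain ⟨t, ht⟩ : ∃ t, t = (Matrix.trace H⁻¹).re := ⟨_, rfl⟩
  have ht0 : 0 ≤ t := ht ▸ tr_inv_nonneg58 hH
  rw [← ht] at hbase
  have hlog0 : 0 ≤ Real.log (1 + κ * δ ^ 2 * t) := Real.log_nonneg (by
    have : 0 ≤ κ * δ ^ 2 * t := by positivity
    linarith)
  have hex : Real.exp x ≤ 1 := Real.exp_le_one_iff.2 hx
  have habs1 := abs_nonneg (Real.log (64 * m₁))
  have habs2 := abs_nonneg (Real.log (q / p))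
  have hD := det_pos58 hH
  -- all terms of the constant are nonnegative
  have hc1 : 0 ≤ 2 * n * B₀ * δ ^ 2 := by positivity
  have hc2 : 0 ≤ C * δ ^ 2 := by positivity
  have hc3 : 0 ≤ τ * δ ^ 2 := by positivity
  have hc4 : 0 ≤ τ * |Real.log (64 * m₁)| * δ ^ 2 := by positivity
  have hc5 : 0 ≤ p * |Real.log (q / p)| * δ ^ 2 := by positivity
  have hgoal : ∀ L : ℝ, N - (C * δ ^ 2 + 2 * (τ * δ ^ 2) + (τ * δ ^ 2 + τ * |Real.log (64 * m₁)| * δ ^ 2) +
      p * |Real.log (q / p)| * δ ^ 2) ≤ L + Real.log (1 + κ * δ ^ 2 * t) →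
      L = Real.log H.det.re →
      N - (2 * n * B₀ + C + 2 * τ + τ * (1 + |Real.log (64 * m₁)|) + p * |Real.log (q / p)|) * δ ^ 2 ≤
        Real.log ((((1 - B₀ * δ ^ 2 : ℝ) : ℂ) • H + ((κ * δ ^ 2 : ℝ) : ℂ) • (1 : Mat n)).det.re) := by
    intro L hL hL2
    rw [hL2] at hL
    have e1 : 2 * (n : ℝ) * (B₀ * δ ^ 2) = 2 * n * B₀ * δ ^ 2 := by ring
    rw [e1] at hbase
    nlinarith
  by_cases hx2 : Real.exp x ≤ 1 / 2
  · by_cases hND : N ≤ Real.log H.det.re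
    · exact hgoal _ (by linarith) rfl
    · push Not at hND
      have hDm : H.det.re ≤ m₁ := by
        rw [← Real.log_le_log_iff hD hm]
        linarith
      have hT := h2 hx2
      have hy : Real.exp (-x) ≥ 2 := by
        rw [Real.exp_neg]
        have h3 := inv_anti₀ (Real.exp_pos x) hx2
        norm_num at h3
        exact h3
      rcases Nat.lt_or_ge 1 n with hn2 | hn2
      · -- `n ≥ 2`
        have hn2' : (2 : ℝ) ≤ n := by exact_mod_cast hn2
        have hnm : 0 < (n : ℝ) - 1 := by linarith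
        have hp1 : 0 < p := by
          rw [hp]
          exact mul_pos hτ hnm
        have h3 := trace_inv_ge hn2 hH hDm (T := 1 / 64 * Real.exp (-x)) (by positivity) hT
        rw [← ht] at h3
        obtain ⟨z, hz⟩ : ∃ z : ℝ, z = (Real.exp (-x)) ^ ((1 : ℝ) / ((n : ℝ) - 1)) := ⟨_, rfl⟩
        have hz0 : 0 < z := by
          rw [hz]
          positivity
        have hzlog : p * Real.log z = τ * -x := by
          rw [hz, Real.log_rpow (Real.exp_pos _), Real.log_exp, hp]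
          field_simp
        have h4 : (1 / 64 * Real.exp (-x) / (n * m₁)) ^ ((1 : ℝ) / ((n : ℝ) - 1)) =
            (1 / (64 * (n * m₁))) ^ ((1 : ℝ) / ((n : ℝ) - 1)) * z := by
          rw [hz, ← Real.mul_rpow (by positivity) (Real.exp_pos _).le]
          congr 1
          field_simp
        rw [h4] at h3
        have hq0 : 0 < q := by
          rw [hq]
          positivity
        have h5 : q * z ≤ κ * t := by
          rw [hq]
          have := mul_le_mul_of_nonneg_left h3 hκ.le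
          linarith
        have h6 := bern58 (θ := p * δ ^ 2) (w := q * z / p) (by positivity) hpδ (by positivity)
        have h7 : p * δ ^ 2 * (q * z / p) = q * z * δ ^ 2 := by
          field_simp
        rw [h7] at h6
        have h8 : Real.log (1 + q * z * δ ^ 2) ≤ Real.log (1 + κ * δ ^ 2 * t) := by
          refine Real.log_le_log (by positivity) ?_
          nlinarith
        have h9 : Real.log (q * z / p) = Real.log z + Real.log (q / p) := by
          rw [mul_comm q z, mul_div_assoc, Real.log_mul hz0.ne' (by positivity)]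
        rw [h9] at h6
        have h10 : p * δ ^ 2 * (Real.log z + Real.log (q / p)) =
            τ * -x * δ ^ 2 + p * δ ^ 2 * Real.log (q / p) := by
          rw [← hzlog]
          ring
        rw [h10] at h6
        have h11 : -(p * |Real.log (q / p)| * δ ^ 2) ≤ p * δ ^ 2 * Real.log (q / p) := by
          have h12 := neg_abs_le (Real.log (q / p))
          have h13 : 0 ≤ p * δ ^ 2 := by positivity
          nlinarith
        have h14 : τ * δ ^ 2 * (Real.exp x - x) = τ * δ ^ 2 * Real.exp x + τ * -x * δ ^ 2 := by ring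
        have h15 : τ * δ ^ 2 * Real.exp x ≤ τ * δ ^ 2 := by nlinarith
        exact hgoal _ (by rw [h14] at h1; linarith) rfl
      · -- `n = 1`
        obtain rfl : n = 1 := by omega
        rw [tr_one58] at hT
        have h3 : Real.exp (-x) ≤ 64 * m₁ := by linarith
        have h4 : -x ≤ Real.log (64 * m₁) := by
          rw [Real.le_log_iff_exp_le (by positivity)]
          exact h3
        have h5 : -x ≤ |Real.log (64 * m₁)| := h4.trans (le_abs_self _)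
        have h6 : τ * δ ^ 2 * (Real.exp x - x) ≤ τ * δ ^ 2 * (1 + |Real.log (64 * m₁)|) :=
          mul_le_mul_of_nonneg_left (by linarith) hc3
        exact hgoal _ (by nlinarith) rfl
  · -- `e^x > 1/2`
    push Not at hx2
    have h3 : -x ≤ 1 := by
      have h4 : Real.exp (-x) < 2 := by
        rw [Real.exp_neg, inv_lt_comm₀ (Real.exp_pos x) (by norm_num)]
        linarith
      have h5 : Real.exp (-x) ≤ Real.exp 1 := by
        have := Real.add_one_le_exp (1 : ℝ)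
        linarith
      exact Real.exp_le_exp.1 h5
    have h6 : τ * δ ^ 2 * (Real.exp x - x) ≤ τ * δ ^ 2 * 2 :=
      mul_le_mul_of_nonneg_left (by linarith) hc3
    exact hgoal _ (by linarith) rfl

/-- the corresponding inequality of Stage 2 (9.1 b): at a maximum point the trace of `H⁻¹` is bounded,
hence `H` and `e^{-x}` are bounded, uniformly. -/
theorem stage_two_real (hn : 0 < n) {C m₁ B₀ κ : ℝ} (hC : 0 ≤ C) (hm : 0 < m₁)
    (hB : 0 ≤ B₀) (hκ : 0 < κ) :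
    ∃ C' δ₀ : ℝ, 0 < δ₀ ∧ ∀ δ : ℝ, 0 < δ → δ < δ₀ → ∀ x : ℝ, x ≤ 0 → ∀ H : Mat n, H.PosDef →
      ∀ N : ℝ, N ≤ Real.log m₁ → N - C * δ ^ 2 ≤ Real.log H.det.re →
      (Real.exp x ≤ 1 / 2 → 1 / 64 * Real.exp (-x) ≤ (Matrix.trace H).re) →
      Real.log ((((1 - B₀ * δ ^ 2 : ℝ) : ℂ) • H + ((κ * δ ^ 2 : ℝ) : ℂ) • (1 : Mat n)).det.re) ≤ N →
      -x ≤ C' := by
  have hn1 : (1 : ℝ) ≤ n := by exact_mod_cast hn
  obtain ⟨s, hs⟩ : ∃ s : ℝ, s = 2 * n * B₀ + C := ⟨_, rfl⟩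
  have hs0 : 0 ≤ s := by
    rw [hs]
    positivity
  obtain ⟨m₂, hm₂⟩ : ∃ m₂ : ℝ, m₂ = Real.exp 1 * m₁ := ⟨_, rfl⟩
  have hm₂0 : 0 < m₂ := by
    rw [hm₂]
    positivity
  obtain ⟨u, hu⟩ : ∃ u : ℝ, u = 2 * s / κ + 1 := ⟨_, rfl⟩
  have hu0 : 0 < u := by
    rw [hu]
    positivity
  refine ⟨1 + |Real.log (64 * (n * m₂))| + ((n : ℝ) - 1) * |Real.log (u / ((n : ℝ) - 1))|,
    1 / (1 + 2 * B₀ + s), by positivity, ?_⟩
  intro δ hδ hδ0 x hx H hH N hN h1 h2 h3
  have hδ1 : δ < 1 := by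
    refine hδ0.trans_le ?_
    rw [div_le_one (by positivity)]
    linarith
  have hδ2 : δ ^ 2 ≤ 1 / (1 + 2 * B₀ + s) := by nlinarith
  rw [le_div_iff₀ (by positivity)] at hδ2
  have hδp : 0 < δ ^ 2 := by positivity
  have hb : B₀ * δ ^ 2 ≤ 1 / 2 := by nlinarith [mul_nonneg hs0 hδp.le]
  have hsδ : s * δ ^ 2 ≤ 1 := by nlinarith [mul_nonneg hB hδp.le]
  have hbase := base58 (mul_nonneg hB hδp.le) hb (mul_nonneg hκ.le hδp.le) hH
  obtain ⟨t, ht⟩ : ∃ t, t = (Matrix.trace H⁻¹).re := ⟨_, rfl⟩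
  have ht0 : 0 ≤ t := ht ▸ tr_inv_nonneg58 hH
  rw [← ht] at hbase
  have hD := det_pos58 hH
  have hlog0 : 0 ≤ Real.log (1 + κ * δ ^ 2 * t) := Real.log_nonneg (by
    have : 0 ≤ κ * δ ^ 2 * t := by positivity
    linarith)
  have e1 : 2 * (n : ℝ) * (B₀ * δ ^ 2) + C * δ ^ 2 = s * δ ^ 2 := by
    rw [hs]
    ring
  have h4 : Real.log (1 + κ * δ ^ 2 * t) ≤ s * δ ^ 2 := by linarith
  have hpos : 0 < 1 + κ * δ ^ 2 * t := by positivity
  have h5 : 1 + κ * δ ^ 2 * t ≤ Real.exp (s * δ ^ 2) := by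
    rw [← Real.log_le_iff_le_exp hpos]
    exact h4
  have h6 : Real.exp (s * δ ^ 2) ≤ 1 + 2 * (s * δ ^ 2) := by
    have h7 := Real.abs_exp_sub_one_le (x := s * δ ^ 2) (by rw [abs_of_nonneg (by positivity)]; exact hsδ)
    rw [abs_of_nonneg (show 0 ≤ s * δ ^ 2 by positivity)] at h7
    have h8 := (abs_le.1 h7).2
    linarith
  have h7 : t ≤ u := by
    have h8 : κ * t * δ ^ 2 ≤ 2 * s * δ ^ 2 := by nlinarith
    have h9 : κ * t ≤ 2 * s := le_of_mul_le_mul_right h8 hδp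
    have h10 : t ≤ 2 * s / κ := by
      rw [le_div_iff₀ hκ]
      linarith
    rw [hu]
    linarith
  have hDm : H.det.re ≤ m₂ := by
    rw [← Real.log_le_log_iff hD hm₂0, hm₂, Real.log_mul (Real.exp_pos _).ne' hm.ne', Real.log_exp]
    have h8 : 2 * (n : ℝ) * (B₀ * δ ^ 2) ≤ 1 := by
      have : 0 ≤ C * δ ^ 2 := by positivity
      linarith
    linarith
  have habs1 := abs_nonneg (Real.log (64 * (n * m₂)))
  have habs2 : 0 ≤ ((n : ℝ) - 1) * |Real.log (u / ((n : ℝ) - 1))| :=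
    mul_nonneg (by linarith) (abs_nonneg _)
  by_cases hx2 : Real.exp x ≤ 1 / 2
  · have hT := h2 hx2
    rcases Nat.lt_or_ge 1 n with hn2 | hn2
    · have hn2' : (2 : ℝ) ≤ n := by exact_mod_cast hn2
      have hnm : 0 < (n : ℝ) - 1 := by linarith
      have h8 := trace_inv_ge hn2 hH hDm (T := 1 / 64 * Real.exp (-x)) (by positivity) hT
      rw [← ht] at h8
      have h9 : (1 / 64 * Real.exp (-x) / (n * m₂)) ^ ((1 : ℝ) / ((n : ℝ) - 1)) ≤ u / ((n : ℝ) - 1) := by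
        rw [le_div_iff₀ hnm]
        linarith
      have h10 := Real.log_le_log (by positivity) h9
      rw [Real.log_rpow (by positivity)] at h10
      have h11 : Real.log (1 / 64 * Real.exp (-x) / (n * m₂)) = -x - Real.log (64 * (n * m₂)) := by
        have h12 : 1 / 64 * Real.exp (-x) / (n * m₂) = Real.exp (-x) / (64 * (n * m₂)) := by
          field_simp
        rw [h12, Real.log_div (Real.exp_pos _).ne' (by positivity), Real.log_exp]
      rw [h11, one_div, inv_mul_le_iff₀ hnm] at h10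
      have h13 := le_abs_self (Real.log (64 * (n * m₂)))
      have h14 : ((n : ℝ) - 1) * Real.log (u / ((n : ℝ) - 1)) ≤
          ((n : ℝ) - 1) * |Real.log (u / ((n : ℝ) - 1))| :=
        mul_le_mul_of_nonneg_left (le_abs_self _) hnm.le
      linarith
    · obtain rfl : n = 1 := by omega
      rw [tr_one58] at hT
      have h8 : Real.exp (-x) ≤ 64 * ((1 : ℕ) * m₂) := by
        rw [Nat.cast_one, one_mul]
        linarith
      have h9 : -x ≤ Real.log (64 * ((1 : ℕ) * m₂)) := by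
        rw [Real.le_log_iff_exp_le (by rw [Nat.cast_one, one_mul]; positivity)]
        exact h8
      have h10 : Real.log (64 * ((1 : ℕ) * m₂)) ≤ |Real.log (64 * ((1 : ℕ) * m₂))| := le_abs_self _
      have h11 := h9.trans h10
      refine h11.trans ?_
      exact le_add_of_le_of_nonneg (le_add_of_nonneg_left zero_le_one) habs2
  · push Not at hx2
    have h8 : -x ≤ 1 := by
      have h9 : Real.exp (-x) < 2 := by
        rw [Real.exp_neg, inv_lt_comm₀ (Real.exp_pos x) (by norm_num)]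
        linarith
      have h10 : Real.exp (-x) ≤ Real.exp 1 := by
        have := Real.add_one_le_exp (1 : ℝ)
        linarith
      exact Real.exp_le_exp.1 h10
    linarith

end Pool.Agent.Helper29.AM
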