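import Pool.Agent.Helper29.AM.KL4
import Pool.Agent.Helper29.AM.St1
import Pool.Agent.Helper29.AM.GS3

/-!
# Block AM-ST2a: Stage 1 for the mollified function (6.2)

`u = g + φ`, `F = (e^{τφ} f)^{1/n}`, `u_ε = Φ_u(·,ε)`, `GP(L_{u_ε}(y), Φ_F(y,ε))` (`GS.mollify`). `Φ_F(·,ε)` is
continuous and positive, `log Φ_F(y,ε) ≥ Φ_{log F}(y,ε) = (1/n) Φ_{τφ + log f}(y,ε)` (Jensen; `log F` is
integrable on compacts because `φ` is). `φ = u - g`, so with `t = δe^x`:
`n Φ_{log Φ_F(·,ε)}(z,t) ≥ Φ_{τ(u_ε - g_ε) + (log f)_ε}(z,t) ≥ τ (Φ_{u_ε}(z,t) - g(z)) + log f(z) - Cδ²`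
(`abs_Phi_sub_le` twice, `ε ≤ δ`). With (3.3 ii) and `psd_of_GP`: `log det hess W_ε(z) ≥` this, and
`Φ_{u_ε}(z,t) = W_ε(z) - δ²(e^x - x)` (`le_WW_P1`). Put `N = τ(W_ε(z) - g(z)) + log f(z)`, bounded above by a
constant (`WW_le`, `φ ≤ Cτ`). `hess U_ε(z) ≥ (1-b) hess W_ε(z) + κδ²`, `κ = B₀ε₁/2` (because
`B₀ε₁ - M' ≥ B₀ε₁/2`). Apply `stage_one_real`, and `GP_of_det`.
-/

set_option autoImplicit false

namespace Pool.Agent.Helper29.AM

open MeasureTheory Set Filter Topology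
open scoped ComplexOrder

variable {n : ℕ}

private theorem Phi_cmul76 (c : ℝ) (u : V n → ℝ) (z : V n) (t : ℝ) :
    Phi (fun y => c * u y) z t = c * Phi u z t := by
  unfold Phi M
  rw [← integral_const_mul]
  refine integral_congr_ae (Eventually.of_forall fun η => ?_)
  simp only
  ring

private theorem li_cmul76 {Ω : Set (V n)} {u : V n → ℝ} (h : LocallyIntegrableOn u Ω volume)
    (c : ℝ) : LocallyIntegrableOn (fun y => c * u y) Ω volume := by
  intro x hx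
  obtain ⟨s, hs, hi⟩ := h x hx
  exact ⟨s, hs, hi.const_mul c⟩

private theorem li_const76 {Ω : Set (V n)} (hΩ : IsOpen Ω) (c : ℝ) :
    LocallyIntegrableOn (fun _ : V n => c) Ω volume :=
  (continuous_const.locallyIntegrable).locallyIntegrableOn Ω

private theorem li_add76 {Ω : Set (V n)} {u v : V n → ℝ} (h : LocallyIntegrableOn u Ω volume)
    (h' : LocallyIntegrableOn v Ω volume) :
    LocallyIntegrableOn (fun y => u y + v y) Ω volume := h.add h'

/-- Jensen's inequality for the mean -/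
private theorem exp_Phi_le76 {Ω : Set (V n)} (hΩ : IsOpen Ω) {L F : V n → ℝ}
    (hL : LocallyIntegrableOn L Ω volume) (hF : LocallyIntegrableOn F Ω volume)
    (h : ∀ y ∈ Ω, F y = Real.exp (L y)) {z : V n} {ε : ℝ} (hε : 0 < ε) (hz : z ∈ shr Ω ε) :
    Real.exp (Phi L z ε) ≤ Phi F z ε := by
  obtain ⟨m, hm⟩ : ∃ m, m = Phi L z ε := ⟨_, rfl⟩
  rw [← hm]
  have h1 : Phi (fun y => Real.exp m * L y + Real.exp m * (1 - m)) z ε = Real.exp m := by
    rw [Phi_add hΩ (li_cmul76 hL _) (li_const76 hΩ _) hε hz, Phi_cmul76, Phi_const, ← hm]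
    ring
  rw [← h1]
  refine Phi_mono hΩ (li_add76 (li_cmul76 hL _) (li_const76 hΩ _)) hF
    (Eventually.of_forall fun y hy => ?_) hε hz
  rw [h y hy]
  have h2 := Real.add_one_le_exp (L y - m)
  have h3 : Real.exp (L y) = Real.exp m * Real.exp (L y - m) := by
    rw [← Real.exp_add]
    congr 1
    ring
  rw [h3]
  have h4 := mul_le_mul_of_nonneg_left h2 (Real.exp_pos m).le
  nlinarith

/-- the double mean of a smooth function -/
private theorem dbl76 {Ω : Set (V n)} (hΩ : IsOpen Ω) {K : Set (V n)} (hK : IsCompact K) {r : ℝ}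
    (hr : 0 < r) (hrΩ : Metric.cthickening r K ⊆ Ω) {g : V n → ℝ}
    (hg : ContDiffOn ℝ (⊤ : ℕ∞) g Ω) :
    ∃ C : ℝ, 0 ≤ C ∧ ∀ z ∈ K, ∀ δ ε t : ℝ, 0 < δ → 4 * δ < r → 0 < ε → ε ≤ δ → 0 < t → t ≤ 2 * δ →
      |Phi (fun y => Phi g y ε) z t - g z| ≤ C * δ ^ 2 := by
  have h2le : (2 : WithTop ℕ∞) ≤ ((⊤ : ℕ∞) : WithTop ℕ∞) := WithTop.coe_le_coe.2 (le_top (a := (2 : ℕ∞)))
  have hK1c : IsCompact (Metric.cthickening (r / 2) K) := hK.cthickening
  have hK1s : Metric.cthickening (r / 2) K ⊆ shr Ω (r / 2) := by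
    intro y hy w hw
    refine hrΩ ?_
    have h1 := Metric.cthickening_cthickening_subset (by positivity : 0 ≤ r / 2)
      (by positivity : 0 ≤ r / 2) K (Metric.closedBall_subset_cthickening hy (r / 2) hw)
    have h2 : r / 2 + r / 2 = r := by ring
    rwa [h2] at h1
  obtain ⟨C, hC0, hC⟩ := abs_Phi_sub_le hΩ (hg.of_le h2le) hK1c (by positivity : 0 ≤ r / 2) hK1s
  refine ⟨5 * C, by positivity, ?_⟩
  intro z hz δ ε t hδ hδr hε hεδ ht ht2
  set Ω1 : Set (V n) := Metric.thickening (r / 2) K with hΩ1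
  have hΩ1o : IsOpen Ω1 := Metric.isOpen_thickening
  have hΩ1K : Ω1 ⊆ Metric.cthickening (r / 2) K := Metric.thickening_subset_cthickening _ _
  have hΩ1Ω : Ω1 ⊆ Ω := fun y hy => hrΩ (Metric.cthickening_mono (by linarith) K (hΩ1K hy))
  have hz1 : z ∈ Metric.cthickening (r / 2) K := Metric.self_subset_cthickening K hz
  have hzt : z ∈ shr Ω1 t := by
    intro y hy
    rw [hΩ1, Metric.mem_thickening_iff]
    exact ⟨z, hz, (Metric.mem_closedBall.1 hy).trans_lt (by linarith)⟩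
  have hgc : ContinuousOn g Ω1 := hg.continuousOn.mono hΩ1Ω
  have hgi : LocallyIntegrableOn g Ω1 volume := hgc.locallyIntegrableOn hΩ1o.measurableSet
  have hgl : LocallyIntegrableOn g Ω volume := hg.continuousOn.locallyIntegrableOn hΩ.measurableSet
  have hΩ1shr : Ω1 ⊆ shr Ω ε := fun y hy => (Metric.closedBall_subset_closedBall (by linarith)).trans
    (hK1s (hΩ1K hy))
  have hεc : ContinuousOn (fun y => Phi g y ε) Ω1 :=
    (contDiffOn_Phi_left hΩ hgl hε).continuousOn.mono hΩ1shr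
  have hεi : LocallyIntegrableOn (fun y => Phi g y ε) Ω1 volume :=
    hεc.locallyIntegrableOn hΩ1o.measurableSet
  have hpt : ∀ y ∈ Ω1, |Phi g y ε - g y| ≤ C * ε ^ 2 := fun y hy =>
    hC y (hΩ1K hy) ε hε.le (by linarith)
  have hup : Phi (fun y => Phi g y ε) z t ≤ Phi g z t + C * ε ^ 2 := by
    have h1 : Phi (fun y => g y + C * ε ^ 2) z t = Phi g z t + C * ε ^ 2 := by
      rw [Phi_add hΩ1o hgi (li_const76 hΩ1o _) ht hzt, Phi_const]
    rw [← h1]
    refine Phi_mono hΩ1o hεi (li_add76 hgi (li_const76 hΩ1o _)) (Eventually.of_forall fun y hy => ?_) ht hzt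
    have := (abs_le.1 (hpt y hy)).2
    linarith
  have hlow : Phi g z t - C * ε ^ 2 ≤ Phi (fun y => Phi g y ε) z t := by
    have h1 : Phi (fun y => g y + -(C * ε ^ 2)) z t = Phi g z t - C * ε ^ 2 := by
      rw [Phi_add hΩ1o hgi (li_const76 hΩ1o _) ht hzt, Phi_const]
      ring
    rw [← h1]
    refine Phi_mono hΩ1o (li_add76 hgi (li_const76 hΩ1o _)) hεi (Eventually.of_forall fun y hy => ?_) ht hzt
    have := (abs_le.1 (hpt y hy)).1
    linarith
  have h3 := abs_le.1 (hC z hz1 t ht.le (by linarith))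
  have h4 : C * ε ^ 2 ≤ C * δ ^ 2 := mul_le_mul_of_nonneg_left (by gcongr) hC0
  have h5 : C * t ^ 2 ≤ 4 * (C * δ ^ 2) := by
    have h6 : t ^ 2 ≤ (2 * δ) ^ 2 := by gcongr
    have h7 := mul_le_mul_of_nonneg_left h6 hC0
    nlinarith
  rw [abs_le]
  constructor <;> nlinarith [h3.1, h3.2]

theorem stage_one_mollified (hn : 0 < n) {Ω Ω' : Set (V n)} (hΩ : IsOpen Ω)
    (hcl : IsCompact (closure Ω')) (hsub : closure Ω' ⊆ Ω) {g f : V n → ℝ}
    (hg : ContDiffOn ℝ (⊤ : ℕ∞) g Ω) (hf : ContDiffOn ℝ (⊤ : ℕ∞) f Ω) (hf0 : ∀ z ∈ Ω, 0 < f z)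
    {τ : ℝ} (hτ : 0 < τ) {φ : V n → ℝ} {Cτ ε₁ M' B₀ : ℝ} (hε₁ : 0 < ε₁) (hM' : 0 ≤ M')
    (hB : 2 * M' ≤ B₀ * ε₁) (hB0 : 0 < B₀)
    (hφ : GS Ω (fun z => (Real.exp (τ * φ z) * f z) ^ ((1 : ℝ) / n)) (fun z => g z + φ z))
    (hφC : ∀ᵐ z, z ∈ Ω → φ z ≤ Cτ) :
    ∃ M₀ δ₀ : ℝ, 0 < δ₀ ∧ (∀ z ∈ Ω', Metric.closedBall z (4 * δ₀) ⊆ Ω) ∧
      ∀ δ : ℝ, 0 < δ → δ < δ₀ → ∀ ε : ℝ, 0 < ε → ε ≤ δ → ∀ z ∈ Ω',
        let W := WW (fun y => Phi (fun y => g y + φ y) y ε) (P1 (δ ^ 2)) δ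
        GP (lev (fun y => (1 - B₀ * δ ^ 2) * (W y - M' * δ ^ 2 * ‖y‖ ^ 2) +
            B₀ * δ ^ 2 * (ε₁ * ‖y‖ ^ 2)) z)
          ((Real.exp (τ * (W z - g z - M₀ * δ ^ 2)) * f z) ^ ((1 : ℝ) / n)) := by
  have h2le : (2 : WithTop ℕ∞) ≤ ((⊤ : ℕ∞) : WithTop ℕ∞) := WithTop.coe_le_coe.2 (le_top (a := (2 : ℕ∞)))
  have hn' : (0 : ℝ) < n := by exact_mod_cast hn
  obtain ⟨r, hr, hrΩ⟩ := hcl.exists_cthickening_subset_open hΩ hsub
  have hlf : ContDiffOn ℝ (⊤ : ℕ∞) (fun y => Real.log (f y)) Ω := hf.log fun y hy => (hf0 y hy).ne'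
  obtain ⟨Cg, hCg0, hCg⟩ := dbl76 hΩ hcl hr hrΩ hg
  obtain ⟨Cl, hCl0, hCl⟩ := dbl76 hΩ hcl hr hrΩ hlf
  -- upper bound of `log f`
  obtain ⟨Lf, hLf⟩ := hcl.exists_bound_of_continuousOn (hlf.continuousOn.mono hsub)
  obtain ⟨m₁, hm₁⟩ : ∃ m₁, m₁ = Real.exp (τ * (Cτ + Cg + 1) + Lf) := ⟨_, rfl⟩
  have hm₁pos : 0 < m₁ := hm₁ ▸ Real.exp_pos _
  have hκ : 0 < B₀ * ε₁ / 2 := by positivity
  obtain ⟨M₀, δ₁, hδ₁, hstage⟩ := stage_one_real hn hτ (by positivity : 0 ≤ τ * Cg + Cl) hm₁pos hB0.le hκ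
  refine ⟨M₀ / τ, min (min δ₁ (r / 4)) (min 1 (1 / (1 + B₀))), by positivity, ?_, ?_⟩
  · intro z hz
    refine (Metric.closedBall_subset_closedBall (ε₂ := r) ?_).trans
      ((Metric.closedBall_subset_cthickening (subset_closure hz) r).trans hrΩ)
    have h1 : min (min δ₁ (r / 4)) (min 1 (1 / (1 + B₀))) ≤ r / 4 :=
      (min_le_left _ _).trans (min_le_right _ _)
    linarith
  intro δ hδ hδ0 ε hε hεδ z hz
  have hδδ₁ : δ < δ₁ := hδ0.trans_le ((min_le_left _ _).trans (min_le_left _ _))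
  have hδr : 4 * δ < r := by
    have := hδ0.trans_le ((min_le_left _ _).trans (min_le_right _ _))
    linarith
  have hδ1 : δ < 1 := hδ0.trans_le ((min_le_right _ _).trans (min_le_left _ _))
  have hδB : δ < 1 / (1 + B₀) := hδ0.trans_le ((min_le_right _ _).trans (min_le_right _ _))
  have hb1 : B₀ * δ ^ 2 ≤ 1 := by
    rw [lt_div_iff₀ (by positivity)] at hδB
    have h1 : δ ^ 2 ≤ δ := by nlinarith
    nlinarith
  have hδ2 : 0 < δ ^ 2 := by positivity
  have hzK : z ∈ closure Ω' := subset_closure hz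
  have hzr : Metric.closedBall z r ⊆ Ω :=
    (Metric.closedBall_subset_cthickening hzK r).trans hrΩ
  -- the functions
  set u : V n → ℝ := fun y => g y + φ y with hu
  set F : V n → ℝ := fun z => (Real.exp (τ * φ z) * f z) ^ ((1 : ℝ) / n) with hF
  set L : V n → ℝ := fun y => τ / n * u y + (-(τ / n) * g y + 1 / n * Real.log (f y)) with hL
  have hui : LocallyIntegrableOn u Ω volume := hφ.int
  have hgi : LocallyIntegrableOn g Ω volume := hg.continuousOn.locallyIntegrableOn hΩ.measurableSet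
  have hli : LocallyIntegrableOn (fun y => Real.log (f y)) Ω volume :=
    hlf.continuousOn.locallyIntegrableOn hΩ.measurableSet
  have hLi : LocallyIntegrableOn L Ω volume :=
    li_add76 (li_cmul76 hui _) (li_add76 (li_cmul76 hgi _) (li_cmul76 hli _))
  have hFL : ∀ y ∈ Ω, F y = Real.exp (L y) := by
    intro y hy
    have h1 : 0 < Real.exp (τ * φ y) * f y := mul_pos (Real.exp_pos _) (hf0 y hy)
    rw [hF]
    simp only
    rw [Real.rpow_def_of_pos h1, Real.log_mul (Real.exp_pos _).ne' (hf0 y hy).ne', Real.log_exp]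
    congr 1
    rw [hL, hu]
    simp only
    field_simp
    ring
  set Ωε : Set (V n) := shr Ω ε with hΩε
  have hΩεo : IsOpen Ωε := isOpen_shr hΩ ε
  set uε : V n → ℝ := fun y => Phi u y ε with huε
  have hsu : SPsh Ωε uε := hφ.psh.mollify hΩ hε
  have hsud : PSHd Ωε uε := hsu.pshd hΩεo
  set Fε : V n → ℝ := fun y => Phi F y ε with hFε
  have hFεL : ∀ y ∈ Ωε, Real.exp (Phi L y ε) ≤ Fε y := fun y hy =>
    exp_Phi_le76 hΩ hLi hφ.intF hFL hε hy
  have hFεpos : ∀ y ∈ Ωε, 0 < Fε y := fun y hy => (Real.exp_pos _).trans_le (hFεL y hy)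
  have hFεc : ContinuousOn Fε Ωε := (contDiffOn_Phi_left hΩ hφ.intF hε).continuousOn
  have hGPε : ∀ y ∈ Ωε, GP (lev uε y) (Fε y) := fun y hy => GS.mollify hΩ hφ hε hy
  have hpen : IsPen (P1 (δ ^ 2)) (δ ^ 2) := Or.inl rfl
  have hz2 : z ∈ shr Ωε (2 * δ) := by
    intro y hy w hw
    refine hzr ?_
    rw [Metric.mem_closedBall] at *
    have := dist_triangle w y z
    linarith
  obtain ⟨x, hx⟩ := hsu.exists_IsMn hΩεo hpen hδ2 hδ hz2
  have hx0 : x ≤ 0 := hx.nonpos hΩεo hsud hpen hδ2 hδ hz2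
  set W : V n → ℝ := WW uε (P1 (δ ^ 2)) δ with hW
  set t : ℝ := δ * Real.exp x with ht
  have htpos : 0 < t := by positivity
  have htδ : t ≤ 2 * δ := by
    have : Real.exp x ≤ 1 := Real.exp_le_one_iff.2 hx0
    nlinarith
  have hzt : z ∈ shr Ωε t := fun y hy => hz2 (Metric.closedBall_subset_closedBall htδ hy)
  -- smoothness of `W`
  have hWat : ContDiffAt ℝ 2 W z := by
    have h1 := contDiffOn_WW hΩεo hsud hpen hδ2 hδ
    have h2 := isOpen_att hΩεo hsud hpen hδ2 hδ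
    exact (h1.contDiffAt (h2.mem_nhds ⟨hz2, x, hx⟩)).of_le h2le
  -- the determinant
  have hGPW := GP_WW hn hΩεo hsu hpen hδ2 hδ hz2 hx hFεc hFεpos hGPε
  have hlevW : lev W z = lf (hess W z) := by
    funext w
    exact lev_eq_lf hWat w
  rw [← hW, ← ht, hlevW] at hGPW
  obtain ⟨hpsd, hdet⟩ := psd_of_GP hn (hess_isHermitian hWat) (Real.exp_pos _).le hGPW
  have hdetpos : 0 < (hess W z).det.re := (pow_pos (Real.exp_pos _) n).trans_le hdet
  have hpd : (hess W z).PosDef := by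
    refine hpsd.posDef_iff_isUnit.2 ?_
    rw [Matrix.isUnit_iff_isUnit_det, isUnit_iff_ne_zero]
    intro h0
    rw [h0, Complex.zero_re] at hdetpos
    exact lt_irrefl _ hdetpos
  have hlogdet : n * Phi (fun y => Real.log (Fε y)) z t ≤ Real.log (hess W z).det.re := by
    have h1 := Real.log_le_log (pow_pos (Real.exp_pos _) n) hdet
    rwa [Real.log_pow, Real.log_exp] at h1
  -- lower bound of the mean of `log F_ε`
  have hmeanL : Phi (fun y => Phi L y ε) z t ≤ Phi (fun y => Real.log (Fε y)) z t := by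
    refine Phi_mono hΩεo
      ((contDiffOn_Phi_left hΩ hLi hε).continuousOn.locallyIntegrableOn hΩεo.measurableSet)
      ((hFεc.log fun y hy => (hFεpos y hy).ne').locallyIntegrableOn hΩεo.measurableSet)
      (Eventually.of_forall fun y hy => ?_) htpos hzt
    exact (Real.le_log_iff_exp_le (hFεpos y hy)).2 (hFεL y hy)
  have hεcont : ∀ {q : V n → ℝ}, LocallyIntegrableOn q Ω volume →
      LocallyIntegrableOn (fun y => Phi q y ε) Ωε volume := fun hq =>
    (contDiffOn_Phi_left hΩ hq hε).continuousOn.locallyIntegrableOn hΩεo.measurableSet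
  have hPhiL : ∀ y ∈ Ωε, Phi L y ε = τ / n * Phi u y ε + (-(τ / n) * Phi g y ε +
      1 / n * Phi (fun y => Real.log (f y)) y ε) := by
    intro y hy
    rw [hL, Phi_add hΩ (li_cmul76 hui _) (li_add76 (li_cmul76 hgi _) (li_cmul76 hli _)) hε hy,
      Phi_add hΩ (li_cmul76 hgi _) (li_cmul76 hli _) hε hy, Phi_cmul76, Phi_cmul76, Phi_cmul76]
  have hdblL : Phi (fun y => Phi L y ε) z t = τ / n * Phi uε z t +
      (-(τ / n) * Phi (fun y => Phi g y ε) z t +
        1 / n * Phi (fun y => Phi (fun y => Real.log (f y)) y ε) z t) := by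
    have h1 : Phi (fun y => Phi L y ε) z t = Phi (fun y => τ / n * Phi u y ε +
        (-(τ / n) * Phi g y ε + 1 / n * Phi (fun y => Real.log (f y)) y ε)) z t := by
      refine le_antisymm ?_ ?_
      · refine Phi_mono hΩεo (hεcont hLi) (li_add76 (li_cmul76 (hεcont hui) _)
          (li_add76 (li_cmul76 (hεcont hgi) _) (li_cmul76 (hεcont hli) _)))
          (Eventually.of_forall fun y hy => (hPhiL y hy).le) htpos hzt
      · refine Phi_mono hΩεo (li_add76 (li_cmul76 (hεcont hui) _)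
          (li_add76 (li_cmul76 (hεcont hgi) _) (li_cmul76 (hεcont hli) _))) (hεcont hLi)
          (Eventually.of_forall fun y hy => (hPhiL y hy).ge) htpos hzt
    rw [h1, Phi_add hΩεo (li_cmul76 (hεcont hui) _)
      (li_add76 (li_cmul76 (hεcont hgi) _) (li_cmul76 (hεcont hli) _)) htpos hzt,
      Phi_add hΩεo (li_cmul76 (hεcont hgi) _) (li_cmul76 (hεcont hli) _) htpos hzt,
      Phi_cmul76, Phi_cmul76, Phi_cmul76]
  have hgz := abs_le.1 (hCg z hzK δ ε t hδ hδr hε hεδ htpos htδ)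
  have hlz := abs_le.1 (hCl z hzK δ ε t hδ hδr hε hεδ htpos htδ)
  obtain ⟨hWeq, _⟩ := le_WW_P1 hΩεo hsud hδ2 hδ hz2 hx
  rw [← hW, ← ht] at hWeq
  set N : ℝ := τ * (W z - g z) + Real.log (f z) with hN
  have hlow : N - τ * δ ^ 2 * (Real.exp x - x) - (τ * Cg + Cl) * δ ^ 2 ≤
      Real.log (hess W z).det.re := by
    refine le_trans ?_ hlogdet
    have h1 : n * Phi (fun y => Phi L y ε) z t ≤ n * Phi (fun y => Real.log (Fε y)) z t :=
      mul_le_mul_of_nonneg_left hmeanL hn'.le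
    refine le_trans ?_ h1
    rw [hdblL]
    have h2 : (n : ℝ) * (τ / n * Phi uε z t + (-(τ / n) * Phi (fun y => Phi g y ε) z t +
        1 / n * Phi (fun y => Phi (fun y => Real.log (f y)) y ε) z t)) =
        τ * Phi uε z t - τ * Phi (fun y => Phi g y ε) z t +
          Phi (fun y => Phi (fun y => Real.log (f y)) y ε) z t := by
      field_simp
      ring
    rw [h2, hN, hWeq]
    have h3 : τ * Phi (fun y => Phi g y ε) z t ≤ τ * (g z + Cg * δ ^ 2) :=
      mul_le_mul_of_nonneg_left (by linarith [hgz.2]) hτ.le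
    nlinarith [hlz.1, h3]
  -- upper bound of `N`
  have hNup : N ≤ Real.log m₁ := by
    rw [hm₁, Real.log_exp, hN]
    have h1 := WW_le hΩεo hsud hpen hδ2 hδ hz2 hx
    rw [← hW] at h1
    have hzδ : z ∈ shr Ωε δ := fun y hy => hz2 (Metric.closedBall_subset_closedBall (by linarith) hy)
    have h2 : Phi uε z δ ≤ Phi (fun y => Phi g y ε) z δ + Cτ := by
      have h3 : Phi (fun y => Phi g y ε + Cτ) z δ = Phi (fun y => Phi g y ε) z δ + Cτ := by
        rw [Phi_add hΩεo (hεcont hgi) (li_const76 hΩεo _) hδ hzδ, Phi_const]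
      rw [← h3]
      refine Phi_mono hΩεo (hεcont hui) (li_add76 (hεcont hgi) (li_const76 hΩεo _))
        (Eventually.of_forall fun y hy => ?_) hδ hzδ
      have h4 : Phi (fun y => g y + Cτ) y ε = Phi g y ε + Cτ := by
        rw [Phi_add hΩ hgi (li_const76 hΩ _) hε hy, Phi_const]
      change Phi u y ε ≤ Phi g y ε + Cτ
      rw [← h4]
      refine Phi_mono hΩ hui (li_add76 hgi (li_const76 hΩ _)) ?_ hε hy
      filter_upwards [hφC] with w hw hwΩ
      have := hw hwΩ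
      rw [hu]
      simp only
      linarith
    have h3 := (abs_le.1 (hCg z hzK δ ε δ hδ hδr hε hεδ hδ (by linarith))).2
    have h4 : Cg * δ ^ 2 ≤ Cg := by
      have : δ ^ 2 ≤ 1 := by nlinarith
      nlinarith
    have h5 : δ ^ 2 ≤ 1 := by nlinarith
    have h6 : W z - g z ≤ Cτ + Cg + 1 := by linarith
    have h7 : Real.log (f z) ≤ Lf := (le_abs_self _).trans (hLf z hzK)
    have h8 := mul_le_mul_of_nonneg_left h6 hτ.le
    linarith
  -- trace
  have htr : Real.exp x ≤ 1 / 2 → 1 / 64 * Real.exp (-x) ≤ (Matrix.trace (hess W z)).re := by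
    intro h1
    have h2 := trace_WW_ge hn hΩεo hsu hδ hz2 hx h1
    rwa [← hW, DA_eq_sA hWat, sA_one] at h2
  have hmain := hstage δ hδ hδδ₁ x hx0 (hess W z) hpd N hNup hlow htr
  -- the hermitian matrix of the lower bound
  set b : ℝ := B₀ * δ ^ 2 with hb
  have hb0 : 0 ≤ b := by positivity
  set κ : ℝ := B₀ * ε₁ / 2 with hκd
  set H2 : Mat n := ((1 - b : ℝ) : ℂ) • hess W z + ((κ * δ ^ 2 : ℝ) : ℂ) • (1 : Mat n) with hH2
  have hH2psd : H2.PosSemidef := by
    have h1 : (((1 - b : ℝ) : ℂ) • hess W z).PosSemidef := by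
      refine hpsd.smul ?_
      rw [← Complex.ofReal_zero]
      exact Complex.real_le_real.2 (by linarith)
    have h2 : (((κ * δ ^ 2 : ℝ) : ℂ) • (1 : Mat n)).PosSemidef := by
      refine Matrix.PosSemidef.one.smul ?_
      rw [← Complex.ofReal_zero]
      exact Complex.real_le_real.2 (by positivity)
    exact h1.add h2
  have hfz : 0 < f z := hf0 z (hsub hzK)
  have hEpos : 0 < Real.exp (τ * (W z - g z - M₀ / τ * δ ^ 2)) * f z := mul_pos (Real.exp_pos _) hfz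
  have hpow : ((Real.exp (τ * (W z - g z - M₀ / τ * δ ^ 2)) * f z) ^ ((1 : ℝ) / n)) ^ n ≤ H2.det.re := by
    rw [← Real.rpow_natCast, ← Real.rpow_mul hEpos.le, one_div, inv_mul_cancel₀ hn'.ne', Real.rpow_one]
    have h1 : Real.exp (τ * (W z - g z - M₀ / τ * δ ^ 2)) * f z = Real.exp (N - M₀ * δ ^ 2) := by
      rw [hN, ← Real.exp_log hfz, Real.log_exp, ← Real.exp_add]
      congr 1
      field_simp
      ring
    rw [h1]
    have h2 : 0 ≤ H2.det.re := by
      have := hH2psd.det_nonneg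
      exact (Complex.le_def.1 this).1
    rcases h2.eq_or_lt with h3 | h3
    · exfalso
      have h4 : (((1 - b : ℝ) : ℂ) • hess W z + ((κ * δ ^ 2 : ℝ) : ℂ) • (1 : Mat n)).PosDef := by
        have h5 : (((κ * δ ^ 2 : ℝ) : ℂ) • (1 : Mat n)).PosDef := by
          refine Matrix.PosDef.one.smul ?_
          rw [← Complex.ofReal_zero]
          exact Complex.real_lt_real.2 (by positivity)
        have h6 : (((1 - b : ℝ) : ℂ) • hess W z).PosSemidef := by
          refine hpsd.smul ?_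
          rw [← Complex.ofReal_zero]
          exact Complex.real_le_real.2 (by linarith)
        exact Matrix.PosDef.posSemidef_add h6 h5
      have h5 := h4.det_pos
      rw [← hH2] at h5
      have h6 := (Complex.lt_def.1 h5).1
      rw [← h3] at h6
      simp at h6
    · have h4 : Real.exp (N - M₀ * δ ^ 2) ≤ Real.exp (Real.log H2.det.re) := Real.exp_le_exp.2 hmain
      rwa [Real.exp_log h3] at h4
  have hGP2 := GP_of_det hn hH2psd (Real.rpow_nonneg hEpos.le _) hpow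
  refine GP.mono hGP2 le_rfl fun v => ?_
  -- comparison of the forms
  have hnsq : ContDiffAt ℝ 2 (fun y : V n => ‖y‖ ^ 2) z := (contDiff_norm_sq ℝ).contDiffAt
  have hlevn : lev (fun y : V n => ‖y‖ ^ 2) z v = ‖v‖ ^ 2 := by
    have := lev_normSq (z := z) (0 : V n) v
    simpa using this
  have hfun : (fun y => (1 - b) * (W y - M' * δ ^ 2 * ‖y‖ ^ 2) + b * (ε₁ * ‖y‖ ^ 2)) =
      fun y => (1 - b) * W y + (b * ε₁ - (1 - b) * (M' * δ ^ 2)) * ‖y‖ ^ 2 := by
    funext y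
    ring
  rw [hfun, lev_add (contDiffAt_const.mul hWat) (contDiffAt_const.mul hnsq),
    lev_const_mul _ hWat, lev_const_mul _ hnsq, hlevn, lf_add, lf_smul, lf_smul, lf_one, lev_eq_lf hWat]
  have h1 : κ * δ ^ 2 ≤ b * ε₁ - (1 - b) * (M' * δ ^ 2) := by
    rw [hκd, hb]
    have h2 : (1 - B₀ * δ ^ 2) * (M' * δ ^ 2) ≤ M' * δ ^ 2 := by
      have : 0 ≤ M' * δ ^ 2 := by positivity
      nlinarith
    nlinarith
  have h2 := mul_le_mul_of_nonneg_right h1 (sq_nonneg ‖v‖)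
  linarith

end Pool.Agent.Helper29.AM
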